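import Pool.Agent.LRT.VDe2

/-!
VL1 (difficulty 3).  The Legendre transform of a Hamiltonian with `1/2 ≤ H_pp ≤ 2`.

`HamC b H Hp` (LRT/VDefs): `H`, `Hp` continuous, `H` periodic in `x`,
`low : H (x,p) + ⟨Hp (x,p), q⟩ + ‖q‖²/4 ≤ H (x,p+q)`, `up : H (x,p+q) ≤ H (x,p) + ⟨Hp (x,p), q⟩ + ‖q‖²`.
`Leg H (x,v) = ⨆ p, (⟨p,v⟩ - H (x,p))`.

PROOF.  (leg_ptw) for all `p, q`: `⟨p+q,v⟩ - H (x,p+q) ≤ ⟨p,v⟩ - H (x,p) + ⟨q, v - Hp (x,p)⟩ - ‖q‖²/4 ≤
⟨p,v⟩ - H (x,p) + ‖v - Hp (x,p)‖²` (low, `⟨q,y⟩ ≤ ‖q‖‖y‖ ≤ ‖q‖²/4 + ‖y‖²`).  Hence (bdd) with `p = 0` and (leg_le) by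
`ciSup_le` with `p' = p + (p' - p)`.  (fenchel) `le_ciSup`.
(exists_max) for all `x, v` there is `p` with `Leg H (x,v) = ⟨p,v⟩ - H (x,p)` and `Hp (x,p) = v`: the continuous function
`g p = ⟨p,v⟩ - H (x,p)` tends to `-∞` (`g q ≤ g 0 + ⟨q, v - Hp (x,0)⟩ - ‖q‖²/4`), so it has a maximum
(`Continuous.exists_forall_ge`, or maximum over a closed ball); at a maximum `p`, by `up`,
`⟨q,v⟩ ≤ H (x,p+q) - H (x,p) ≤ ⟨Hp (x,p),q⟩ + ‖q‖²` for all `q`; with `q = (1/2)(v - Hp (x,p))` this gives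
`‖v - Hp‖²/2 ≤ ‖v - Hp‖²/4`, so `Hp (x,p) = v`.
(tonL) Continuity at `(x,v)`: let `p` be the maximiser.  For all `(x',v')`:
`⟨p,v'⟩ - H (x',p) ≤ Leg H (x',v') ≤ ⟨p,v'⟩ - H (x',p) + ‖v' - Hp (x',p)‖²`; both sides are continuous in `(x',v')` and tend to
`Leg H (x,v)` (squeeze).  Periodic: `H` periodic.  Convex: supremum of affine functions: for `s + s' = 1`, for every `p`,
`⟨p, s•v + s'•v'⟩ - H (x,p) = s (⟨p,v⟩ - H) + s' (⟨p,v'⟩ - H) ≤ s Leg + s' Leg`, `ciSup_le`.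
Superlinear: given `A`, let `B` bound `|H (x,p)|` for `‖p‖ ≤ |A|` (compactness as in TonL.bound of LRT/VB: the same proof
works for `H`); for `v ≠ 0` take `p = (A/‖v‖) • v`: `A‖v‖ - B ≤ ⟨p,v⟩ - H (x,p) ≤ Leg H (x,v)`; `v = 0`: `p = 0`.
-/

set_option autoImplicit false

open MeasureTheory Module Set Filter Topology

namespace Pool.Agent.LRT

open Pool.H45.Mather

noncomputable section

set_option linter.unusedSectionVars false
set_option linter.style.haveILetI false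

variable {n : ℕ} {E : Type*} [NormedAddCommGroup E] [InnerProductSpace ℝ E] [FiniteDimensional ℝ E]
  [MeasurableSpace E] [BorelSpace E] {b : Basis (Fin n) ℝ E}

variable {H : E × E → ℝ} {Hp : E × E → E}

omit [FiniteDimensional ℝ E] [MeasurableSpace E] [BorelSpace E] in
theorem vl1_ptw (hH : HamC b H Hp) (x v p r : E) :
    inner ℝ r v - H (x, r) ≤ inner ℝ p v - H (x, p) + ‖v - Hp (x, p)‖ ^ 2 := by
  have h1 := hH.low x p (r - p)
  rw [add_sub_cancel] at h1
  have h2 : inner ℝ (r - p) (v - Hp (x, p)) ≤ ‖r - p‖ * ‖v - Hp (x, p)‖ := real_inner_le_norm _ _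
  rw [inner_sub_right, inner_sub_left, real_inner_comm (Hp (x, p)) (r - p)] at h2
  have h3 : ‖r - p‖ * ‖v - Hp (x, p)‖ ≤ ‖r - p‖ ^ 2 / 4 + ‖v - Hp (x, p)‖ ^ 2 := by
    nlinarith [sq_nonneg (‖r - p‖ / 2 - ‖v - Hp (x, p)‖)]
  linarith

omit [FiniteDimensional ℝ E] [MeasurableSpace E] [BorelSpace E] in
theorem vl1_bdd (hH : HamC b H Hp) (x v : E) : BddAbove (range fun p : E => inner ℝ p v - H (x, p)) := by
  refine ⟨inner ℝ (0 : E) v - H (x, 0) + ‖v - Hp (x, 0)‖ ^ 2, ?_⟩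
  rintro _ ⟨r, rfl⟩
  exact vl1_ptw hH x v 0 r

omit [FiniteDimensional ℝ E] [MeasurableSpace E] [BorelSpace E] in
theorem HamC.fenchel (hH : HamC b H Hp) (x v p : E) : inner ℝ p v ≤ Leg H (x, v) + H (x, p) := by
  have h1 : inner ℝ p v - H (x, p) ≤ Leg H (x, v) := le_ciSup (vl1_bdd hH x v) p
  linarith

omit [FiniteDimensional ℝ E] [MeasurableSpace E] [BorelSpace E] in
theorem HamC.leg_le (hH : HamC b H Hp) (x v p : E) :
    Leg H (x, v) ≤ inner ℝ p v - H (x, p) + ‖v - Hp (x, p)‖ ^ 2 := by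
  exact ciSup_le fun r => vl1_ptw hH x v p r

omit [MeasurableSpace E] [BorelSpace E] in
theorem vl1_max (hH : HamC b H Hp) (x v : E) : ∃ p : E, Leg H (x, v) = inner ℝ p v - H (x, p) ∧ Hp (x, p) = v := by
  have : ProperSpace E := FiniteDimensional.proper ℝ E
  set y : E := v - Hp (x, 0) with hy
  have hgc : Continuous fun p : E => inner ℝ p v - H (x, p) := by
    have h1 : Continuous fun p : E => inner ℝ p v := continuous_id.inner continuous_const
    have h2 : Continuous fun p : E => H (x, p) := hH.cont.comp (by fun_prop)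
    exact h1.sub h2
  obtain ⟨p, hpB, hp⟩ := (isCompact_closedBall (0 : E) (4 * ‖y‖)).exists_isMaxOn
    ⟨0, by rw [mem_closedBall_zero_iff, norm_zero]; positivity⟩ hgc.continuousOn
  have hmax : ∀ r : E, inner ℝ r v - H (x, r) ≤ inner ℝ p v - H (x, p) := by
    intro r
    by_cases hr : ‖r‖ ≤ 4 * ‖y‖
    · exact hp (mem_closedBall_zero_iff.mpr hr)
    · push Not at hr
      have h0 : inner ℝ (0 : E) v - H (x, 0) ≤ inner ℝ p v - H (x, p) :=
        hp (mem_closedBall_zero_iff.mpr (by rw [norm_zero]; positivity))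
      have h1 := hH.low x 0 r
      rw [zero_add] at h1
      have h2 : inner ℝ r y ≤ ‖r‖ * ‖y‖ := real_inner_le_norm _ _
      rw [hy, inner_sub_right, real_inner_comm (Hp (x, 0)) r, ← hy] at h2
      have h3 : ‖r‖ * ‖y‖ ≤ ‖r‖ ^ 2 / 4 := by nlinarith [norm_nonneg r]
      rw [inner_zero_left] at h0
      linarith
  have hHp : Hp (x, p) = v := by
    set w : E := v - Hp (x, p) with hw
    have h1 := hmax (p + (1 / 2 : ℝ) • w)
    have h2 := hH.up x p ((1 / 2 : ℝ) • w)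
    rw [inner_add_left] at h1
    have h3 : inner ℝ ((1 / 2 : ℝ) • w) v - inner ℝ (Hp (x, p)) ((1 / 2 : ℝ) • w) = 1 / 2 * ‖w‖ ^ 2 := by
      rw [real_inner_comm ((1 / 2 : ℝ) • w) (Hp (x, p)), ← inner_sub_right, ← hw, inner_smul_left,
        real_inner_self_eq_norm_sq]
      rfl
    have h4 : ‖(1 / 2 : ℝ) • w‖ ^ 2 = 1 / 4 * ‖w‖ ^ 2 := by
      rw [norm_smul, Real.norm_of_nonneg (by norm_num)]
      ring
    rw [h4] at h2
    have h5 : ‖w‖ ^ 2 ≤ 0 := by linarith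
    have h6 : ‖w‖ = 0 := by nlinarith [norm_nonneg w]
    have h7 : w = 0 := norm_eq_zero.mp h6
    rw [hw, sub_eq_zero] at h7
    exact h7.symm
  refine ⟨p, le_antisymm ?_ ?_, hHp⟩
  · exact ciSup_le hmax
  · exact le_ciSup (vl1_bdd hH x v) p

omit [MeasurableSpace E] [BorelSpace E] in
theorem vl1_bound (hH : HamC b H Hp) (R : ℝ) : ∃ C : ℝ, 0 ≤ C ∧ ∀ x p, ‖p‖ ≤ R → ‖H (x, p)‖ ≤ C := by
  have : ProperSpace E := FiniteDimensional.proper ℝ E
  obtain ⟨C, hC⟩ := ((isCompact_closedBall (0 : E) (∑ i, ‖b i‖)).prod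
    (isCompact_closedBall (0 : E) R)).exists_bound_of_continuousOn hH.cont.continuousOn
  refine ⟨max C 0, le_max_right _ _, fun x v hv => ?_⟩
  have h1 : H (x, v) = H (ZSpan.fract b x, v) := ((hH.per v).fract x).symm
  rw [h1]
  refine (hC (ZSpan.fract b x, v) ⟨?_, ?_⟩).trans (le_max_left _ _)
  · rw [mem_closedBall_zero_iff]
    exact ZSpan.norm_fract_le b x
  · rw [mem_closedBall_zero_iff]
    exact hv

omit [MeasurableSpace E] [BorelSpace E] in
theorem HamC.tonL (hH : HamC b H Hp) : TonL b (Leg H) := by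
  refine ⟨?_, ?_, ?_, ?_⟩
  · rw [continuous_iff_continuousAt]
    rintro ⟨x, v⟩
    obtain ⟨p, hp1, hp2⟩ := vl1_max hH x v
    have h1 : Continuous fun z : E × E => inner ℝ p z.2 - H (z.1, p) := by
      have h2 : Continuous fun z : E × E => inner ℝ p z.2 := continuous_const.inner continuous_snd
      have h3 : Continuous fun z : E × E => H (z.1, p) := hH.cont.comp (by fun_prop)
      exact h2.sub h3
    have h4 : Continuous fun z : E × E => inner ℝ p z.2 - H (z.1, p) + ‖z.2 - Hp (z.1, p)‖ ^ 2 := by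
      have h5 : Continuous fun z : E × E => Hp (z.1, p) := hH.contp.comp (by fun_prop)
      exact h1.add ((continuous_snd.sub h5).norm.pow 2)
    have h6 : Tendsto (fun z : E × E => inner ℝ p z.2 - H (z.1, p)) (𝓝 (x, v)) (𝓝 (Leg H (x, v))) := by
      have h7 := h1.tendsto (x, v)
      simp only at h7
      rw [← hp1] at h7
      exact h7
    have h8 : Tendsto (fun z : E × E => inner ℝ p z.2 - H (z.1, p) + ‖z.2 - Hp (z.1, p)‖ ^ 2) (𝓝 (x, v))
        (𝓝 (Leg H (x, v))) := by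
      have h7 := h4.tendsto (x, v)
      simp only at h7
      rw [← hp1, hp2, sub_self, norm_zero] at h7
      simpa using h7
    refine tendsto_of_tendsto_of_tendsto_of_le_of_le h6 h8 ?_ ?_
    · intro z
      have := hH.fenchel z.1 z.2 p
      show inner ℝ p z.2 - H (z.1, p) ≤ Leg H z
      have e : Leg H (z.1, z.2) = Leg H z := rfl
      linarith
    · intro z
      exact hH.leg_le z.1 z.2 p
  · intro v i x
    show (⨆ p : E, (inner ℝ p v - H (x + b i, p))) = ⨆ p : E, (inner ℝ p v - H (x, p))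
    congr 1
    funext p
    have h1 : H (x + b i, p) = H (x, p) := hH.per p i x
    rw [h1]
  · intro x
    refine ⟨convex_univ, ?_⟩
    intro v _ v' _ s s' hs hs' hss
    simp only [smul_eq_mul]
    refine ciSup_le fun p => ?_
    have h1 := hH.fenchel x v p
    have h2 := hH.fenchel x v' p
    simp only
    rw [inner_add_right, inner_smul_right, inner_smul_right]
    have h3 : H (x, p) = s * H (x, p) + s' * H (x, p) := by rw [← add_mul, hss, one_mul]
    have h4 := mul_le_mul_of_nonneg_left h1 hs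
    have h5 := mul_le_mul_of_nonneg_left h2 hs'
    linarith
  · intro A
    obtain ⟨C, hC0, hC⟩ := vl1_bound hH |A|
    refine ⟨C, fun x v => ?_⟩
    have h1 := hH.fenchel x v ((A / ‖v‖) • v)
    have h2 : inner ℝ ((A / ‖v‖) • v) v = A * ‖v‖ := by
      rw [inner_smul_left, real_inner_self_eq_norm_sq]
      rcases eq_or_ne v 0 with rfl | hv
      · simp
      · have : ‖v‖ ≠ 0 := norm_ne_zero_iff.mpr hv
        show A / ‖v‖ * ‖v‖ ^ 2 = A * ‖v‖
        field_simp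
    have h3 : ‖(A / ‖v‖) • v‖ ≤ |A| := by
      rw [norm_smul, Real.norm_eq_abs, abs_div, abs_of_nonneg (norm_nonneg v)]
      rcases eq_or_ne v 0 with rfl | hv
      · simp
      · have : ‖v‖ ≠ 0 := norm_ne_zero_iff.mpr hv
        exact (div_mul_cancel₀ _ this).le
    have h4 := hC x ((A / ‖v‖) • v) h3
    rw [Real.norm_eq_abs] at h4
    have h5 := le_abs_self (H (x, (A / ‖v‖) • v))
    rw [h2] at h1
    linarith

end

end Pool.Agent.LRT
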