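import Pool.Agent.LRT.AD

/-!
A1 (difficulty 3).  Expansion of the kernel.

PROOF.  `kc_nonneg`: products and quotients of nonnegative numbers.
`kc_zero`: for `m = 0` every factor is `C(2Q, Q) / 4^Q ≥ 1 / (2Q+1)`: the `2Q+1` binomial coefficients `C(2Q, j)` have sum `4^Q` and each is `≤ C(2Q, Q)` (`Nat.choose_le_centralBinom`, `Nat.sum_range_choose`; or `Nat.four_pow_le_two_mul_self_mul_centralBinom`, or `Nat.four_pow_lt_mul_centralBinom`).
`ker_expand`: one variable, complex: `(cos (π x) : ℂ)^(2Q) = ((exp (iπx) + exp (-iπx)) / 2)^(2Q) = ∑_{j ∈ range (2Q+1)} C(2Q, j) / 4^Q * exp (2πi (j - Q) x)` (`add_pow`, `Complex.cos`, `exp_add`); reindex `j = Q + l`, `l ∈ Finset.Icc (-Q) Q` (integers).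
Product over `i`: `Finset.prod_univ_sum` (`bx n Q = Fintype.piFinset fun _ => Finset.Icc (-Q) Q`, `Finset.mem_Icc`, `Pi.le_def`, or prove membership equivalence by `mem_bx`), `∏ exp = exp ∑`.  Take real parts: `(exp (2πi t)).re = cos (2π t)`.
-/

set_option autoImplicit false

open Set MeasureTheory Topology

namespace Pool.Agent.LRT

variable {n : ℕ}

theorem kc_nonneg (Q : ℕ) (m : Fin n → ℤ) : 0 ≤ kc Q m :=
  Finset.prod_nonneg fun i _ => by positivity

theorem kc_zero (n Q : ℕ) : (1 / (2 * (Q : ℝ) + 1)) ^ n ≤ kc Q (0 : Fin n → ℤ) := by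
  unfold kc
  have h1 : ∀ i : Fin n, ((Q : ℤ) + (0 : Fin n → ℤ) i).toNat = Q := by
    intro i
    simp
  have h2 : (1 / (2 * (Q : ℝ) + 1)) ≤ (Nat.choose (2 * Q) Q : ℝ) / 4 ^ Q := by
    have h3 : (4 : ℝ) ^ Q ≤ (2 * (Q : ℝ) + 1) * (Nat.choose (2 * Q) Q : ℝ) := by
      exact_mod_cast Nat.four_pow_le_two_mul_add_one_mul_central_binom Q
    rw [div_le_div_iff₀ (by positivity) (by positivity)]
    linarith
  calc (1 / (2 * (Q : ℝ) + 1)) ^ n = ∏ _i : Fin n, (1 / (2 * (Q : ℝ) + 1)) := by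
        rw [Finset.prod_const, Finset.card_univ, Fintype.card_fin]
    _ ≤ _ := by
        refine Finset.prod_le_prod (fun i _ => by positivity) fun i _ => ?_
        rw [h1]
        exact h2

theorem a1_one (Q : ℕ) (x : ℝ) : ((Real.cos (Real.pi * x) ^ (2 * Q) : ℝ) : ℂ) =
    ∑ l ∈ Finset.Icc (-(Q : ℤ)) (Q : ℤ), (((Nat.choose (2 * Q) ((Q : ℤ) + l).toNat : ℝ) / 4 ^ Q : ℝ) : ℂ) *
      Complex.exp (((2 * Real.pi * ((l : ℝ) * x) : ℝ) : ℂ) * Complex.I) := by
  have h1 : ((Real.cos (Real.pi * x) ^ (2 * Q) : ℝ) : ℂ) =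
      ((Complex.exp ((Real.pi * x : ℂ) * Complex.I) + Complex.exp (-(Real.pi * x : ℂ) * Complex.I)) / 2) ^ (2 * Q) := by
    push_cast
    rw [Complex.cos]
  rw [h1, div_pow, add_pow, Finset.sum_div]
  have h4 : (2 : ℂ) ^ (2 * Q) = 4 ^ Q := by
    rw [pow_mul]
    norm_num
  refine Finset.sum_nbij' (fun j : ℕ => (j : ℤ) - Q) (fun l : ℤ => ((Q : ℤ) + l).toNat) ?_ ?_ ?_ ?_ ?_
  · intro j hj
    rw [Finset.mem_range] at hj
    rw [Finset.mem_Icc]
    omega
  · intro l hl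
    rw [Finset.mem_Icc] at hl
    rw [Finset.mem_range]
    omega
  · intro j hj
    omega
  · intro l hl
    rw [Finset.mem_Icc] at hl
    omega
  · intro j hj
    rw [Finset.mem_range] at hj
    have h5 : ((Q : ℤ) + ((j : ℤ) - Q)).toNat = j := by omega
    rw [h5, ← Complex.exp_nat_mul, ← Complex.exp_nat_mul, ← Complex.exp_add, h4]
    have h6 : ((2 * Q - j : ℕ) : ℂ) = 2 * (Q : ℂ) - j := by
      rw [Nat.cast_sub (by omega)]
      push_cast
      ring
    rw [h6]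
    push_cast
    have h7 : (j : ℂ) * ((Real.pi : ℂ) * x * Complex.I) + (2 * (Q : ℂ) - j) * (-((Real.pi : ℂ) * x) * Complex.I) =
        2 * (Real.pi : ℂ) * (((j : ℂ) - Q) * x) * Complex.I := by ring
    rw [h7]
    ring

theorem ker_expand (Q : ℕ) (x : Fin n → ℝ) :
    ker Q x = ∑ m ∈ bx n Q, kc Q m * Real.cos (2 * Real.pi * ∑ i, (m i : ℝ) * x i) := by
  have h1 : ((ker Q x : ℝ) : ℂ) = ∑ m ∈ bx n Q, ((kc Q m : ℝ) : ℂ) *
      Complex.exp (((2 * Real.pi * ∑ i, (m i : ℝ) * x i : ℝ) : ℂ) * Complex.I) := by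
    unfold ker
    rw [Complex.ofReal_prod, Finset.prod_congr rfl fun i _ => a1_one Q (x i), Finset.prod_univ_sum]
    have h2 : (Fintype.piFinset fun _ : Fin n => Finset.Icc (-(Q : ℤ)) (Q : ℤ)) = bx n Q := by
      ext m
      rw [mem_bx, Fintype.mem_piFinset]
      refine forall_congr' fun i => ?_
      rw [Finset.mem_Icc, abs_le]
    rw [h2]
    refine Finset.sum_congr rfl fun m _ => ?_
    rw [Finset.prod_mul_distrib]
    unfold kc
    rw [Complex.ofReal_prod, ← Complex.exp_sum]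
    congr 2
    rw [← Finset.sum_mul, Finset.mul_sum, Complex.ofReal_sum]
  have h3 := congrArg Complex.re h1
  rw [Complex.ofReal_re, Complex.re_sum] at h3
  rw [h3]
  refine Finset.sum_congr rfl fun m _ => ?_
  rw [Complex.re_ofReal_mul, Complex.exp_ofReal_mul_I_re]

end Pool.Agent.LRT
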