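import Pool.Agent.LRT.AD

/-!
A2 (difficulty 2).  The kernel is small away from the lattice; averages of cosines.

PROOF.  `ker_small`: choose integers `m i = round (x i)`; for some `i`, `r ≤ |x i - round (x i)| =: d ≤ 1/2` (`abs_sub_round`).  `cos (π x i)^2 = cos (π d)^2 = 1 - sin (π d)^2` (`cos (π x - π m)^2 = cos (π x)^2` for an integer `m`) and `sin (π d) ≥ 2 d` for `0 ≤ d ≤ 1/2` (`Real.mul_le_sin`: `2 / π * x ≤ sin x` for `0 ≤ x ≤ π/2`),
so `cos^2 ≤ 1 - 4 d^2 ≤ 1 - 4 r^2 ≤ exp (-4 r^2)` (`Real.one_sub_le_exp_neg`), and `cos^(2Q) = (cos^2)^Q ≤ exp (-4 r^2 Q)`.  The other factors are in `[0, 1]` (`Finset.prod_le_one`, `Finset.mul_prod_erase`).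
`cos_avg`: `∫_0^T cos (2π (b t - a)) dt = (sin (2π (b T - a)) - sin (-2π a)) / (2π b)` (`integral_comp_mul_left`, or `intervalIntegral.integral_eq_sub_of_hasDerivAt`), absolute value `≤ 2 / (2π |b|)`.
-/

set_option autoImplicit false

open Set MeasureTheory Topology

namespace Pool.Agent.LRT

variable {n : ℕ}

lemma a2_cos {x r : ℝ} (hr : 0 ≤ r) (h : r ≤ |x - round x|) :
    Real.cos (Real.pi * x) ^ 2 ≤ 1 - 4 * r ^ 2 := by
  obtain ⟨d, hd⟩ : ∃ d : ℝ, d = x - round x := ⟨_, rfl⟩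
  have h1 : Real.cos (Real.pi * x) ^ 2 = Real.cos (Real.pi * d) ^ 2 := by
    rw [Real.cos_sq, Real.cos_sq]
    have : 2 * (Real.pi * d) = 2 * (Real.pi * x) - (round x : ℤ) * (2 * Real.pi) := by
      rw [hd]; ring
    rw [this, Real.cos_sub_int_mul_two_pi]
  have hdle : |d| ≤ 1 / 2 := by rw [hd]; exact abs_sub_round x
  have h2 : 2 * |d| ≤ |Real.sin (Real.pi * d)| := by
    have h3 : |Real.sin (Real.pi * d)| = Real.sin (Real.pi * |d|) := by
      have h4 : 0 ≤ Real.sin (Real.pi * |d|) := by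
        refine Real.sin_nonneg_of_nonneg_of_le_pi (by positivity) ?_
        nlinarith [Real.pi_pos]
      rcases le_total 0 d with h5 | h5
      · rw [abs_of_nonneg h5] at h4 ⊢
        exact abs_of_nonneg h4
      · rw [abs_of_nonpos h5] at h4 ⊢
        have h6 : Real.pi * -d = -(Real.pi * d) := by ring
        rw [h6, Real.sin_neg] at h4 ⊢
        exact abs_of_nonpos (by linarith)
    rw [h3]
    have h7 := Real.mul_le_sin (x := Real.pi * |d|) (by positivity)
      (by nlinarith [Real.pi_pos])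
    refine le_trans (le_of_eq ?_) h7
    field_simp
  have h8 : (2 * |d|) ^ 2 ≤ Real.sin (Real.pi * d) ^ 2 := by
    rw [← sq_abs (Real.sin (Real.pi * d))]
    exact pow_le_pow_left₀ (by positivity) h2 2
  have h9 : r ^ 2 ≤ |d| ^ 2 := pow_le_pow_left₀ hr (by rw [hd]; exact h) 2
  rw [h1]
  have := Real.sin_sq_add_cos_sq (Real.pi * d)
  nlinarith

theorem ker_small (Q : ℕ) (x : Fin n → ℝ) {r : ℝ} (hr : 0 ≤ r) (h : ∀ m : Fin n → ℤ, ∃ i, r ≤ |x i - m i|) :
    ker Q x ≤ Real.exp (-(4 * r ^ 2 * Q)) := by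
  obtain ⟨i, hi⟩ := h fun i => round (x i)
  unfold ker
  rw [← Finset.mul_prod_erase Finset.univ _ (Finset.mem_univ i)]
  have h1 : ∏ j ∈ Finset.univ.erase i, Real.cos (Real.pi * x j) ^ (2 * Q) ≤ 1 := by
    refine Finset.prod_le_one (fun j _ => ?_) (fun j _ => ?_)
    · exact Even.pow_nonneg (even_two_mul Q) _
    · rw [pow_mul]
      refine pow_le_one₀ (sq_nonneg _) ?_
      exact Real.cos_sq_le_one _
  have h2 : Real.cos (Real.pi * x i) ^ (2 * Q) ≤ Real.exp (-(4 * r ^ 2 * Q)) := by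
    rw [pow_mul]
    have h3 := a2_cos hr hi
    have h4 : Real.cos (Real.pi * x i) ^ 2 ≤ Real.exp (-(4 * r ^ 2)) :=
      h3.trans (Real.one_sub_le_exp_neg _)
    calc (Real.cos (Real.pi * x i) ^ 2) ^ Q ≤ Real.exp (-(4 * r ^ 2)) ^ Q :=
          pow_le_pow_left₀ (sq_nonneg _) h4 Q
      _ = Real.exp (-(4 * r ^ 2 * Q)) := by
          rw [← Real.exp_nat_mul]
          congr 1
          ring
  calc Real.cos (Real.pi * x i) ^ (2 * Q) *
        ∏ j ∈ Finset.univ.erase i, Real.cos (Real.pi * x j) ^ (2 * Q)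
      ≤ Real.cos (Real.pi * x i) ^ (2 * Q) * 1 :=
        mul_le_mul_of_nonneg_left h1 (Even.pow_nonneg (even_two_mul Q) _)
    _ ≤ Real.exp (-(4 * r ^ 2 * Q)) := by rw [mul_one]; exact h2

theorem cos_avg {b : ℝ} (hb : b ≠ 0) (a T : ℝ) :
    |∫ t in (0 : ℝ)..T, Real.cos (2 * Real.pi * (b * t - a))| ≤ 1 / (Real.pi * |b|) := by
  have hpi := Real.pi_pos
  have hd : ∀ t ∈ uIcc (0 : ℝ) T, HasDerivAt
      (fun t => Real.sin (2 * Real.pi * (b * t - a)) / (2 * Real.pi * b))
      (Real.cos (2 * Real.pi * (b * t - a))) t := by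
    intro t _
    have h1 : HasDerivAt (fun t : ℝ => 2 * Real.pi * (b * t - a)) (2 * Real.pi * b) t := by
      have := ((hasDerivAt_id t).const_mul b |>.sub_const a).const_mul (2 * Real.pi)
      simpa using this
    have h2 := h1.sin.div_const (2 * Real.pi * b)
    refine h2.congr_deriv ?_
    field_simp
  have hc : IntervalIntegrable (fun t => Real.cos (2 * Real.pi * (b * t - a))) volume 0 T :=
    Continuous.intervalIntegrable (by fun_prop) _ _
  rw [intervalIntegral.integral_eq_sub_of_hasDerivAt hd hc, ← sub_div, abs_div]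
  have h3 : |2 * Real.pi * b| = 2 * (Real.pi * |b|) := by
    rw [abs_mul, abs_of_pos (by positivity : (0 : ℝ) < 2 * Real.pi)]; ring
  rw [h3]
  have hb' : 0 < Real.pi * |b| := by
    have := abs_pos.2 hb
    positivity
  rw [div_le_div_iff₀ (by positivity) hb']
  have h4 : |Real.sin (2 * Real.pi * (b * T - a)) - Real.sin (2 * Real.pi * (b * 0 - a))| ≤ 2 := by
    have h5 := abs_sub (Real.sin (2 * Real.pi * (b * T - a))) (Real.sin (2 * Real.pi * (b * 0 - a)))
    have h6 := Real.abs_sin_le_one (2 * Real.pi * (b * T - a))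
    have h7 := Real.abs_sin_le_one (2 * Real.pi * (b * 0 - a))
    linarith
  nlinarith

end Pool.Agent.LRT
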