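import Pool.Agent.LRT.A1
import Pool.Agent.LRT.A2

/-!
A3 (difficulty 3).  The orbit `t w` is dense modulo the lattice in the hyperplane `k^⊥`, with explicit time.

PROOF.  `density_core`: suppose that for every `t ∈ [0, T]` and every `m` there is `i` with `r ≤ |t w_i - z_i - m_i|`.  By `ker_small`: `ker Q (t w - z) ≤ exp (-(4 r^2 Q))` for `t ∈ [0, T]`, so `∫_0^T ker Q (t w - z) dt ≤ T exp (-(4 r^2 Q))`.
By `ker_expand` the integral is `∑_{m ∈ bx n Q} kc Q m ∫_0^T cos (2π ((m·w) t - m·z)) dt`.  If `m = j • k` then `m·w = 0`, `m·z = 0` and the integral is `T`; for `m = 0` this gives `kc Q 0 * T`, the others of this kind are `≥ 0`.  For the other `m`: `gam ≤ |m·w|`, the integral is `≥ -1 / (π gam)` (`cos_avg`), and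
`∑ kc Q m = 1` over the box (`ker_expand` at `x = 0`).  So `T * (1 / (2Q+1))^n - 1 / (π gam) ≤ T exp (-(4 r^2 Q))`, contradiction.
`density`: `C = 2 * 3^n` , `T = C * Q^n / gam`, `r = r0 / sqrt n`.  Then `1 / (π gam T) = 1 / (π C Q^n) ≤ (1/2) * (2Q+1)^(-n) * (2 / π)`, so `< (1/2) (2Q+1)^(-n)`, since `(2Q+1)^n ≤ (3Q)^n` (`Q ≥ 1`); and `r0^3 Q ≥ 1` gives `r0^2 Q ≥ Q^(1/3)` , so
`exp (-(4 r0^2 Q / n)) ≤ exp (-(4 Q^(1/3) / n)) ≤ (1/2) (3Q)^(-n)` for `Q ≥ Q₀(n)` (exponential beats powers: e.g. `x^(3n) exp (-4x/n) → 0`, `tendsto_rpow_mul_exp_neg_mul_atTop_nhds_zero` with `x = Q^(1/3)`).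
`|r w_i - z_i - m_i| < r0 / sqrt n` for all `i` gives the Euclidean norm `≤ r0` (`EuclideanSpace.norm_eq`, `Real.sqrt_le_left`..).  Inner products: `inner ℝ (lat m) w = ∑ m_i w_i` (`PiLp.inner_apply`).
-/

set_option autoImplicit false

open Set MeasureTheory Topology

namespace Pool.Agent.LRT

theorem a3_inner {n : ℕ} (m : Fin n → ℤ) (w : RE n) : inner ℝ (lat m) w = ∑ i, (m i : ℝ) * w i := by
  rw [PiLp.inner_apply]
  refine Finset.sum_congr rfl fun i _ => ?_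
  rw [lat_apply]
  simp [mul_comm]

theorem a3_ker_zero {n : ℕ} (Q : ℕ) : ∑ m ∈ bx n Q, kc Q m = 1 := by
  have h1 := ker_expand (n := n) Q 0
  have h2 : ker Q (0 : Fin n → ℝ) = 1 := by
    unfold ker
    simp
  rw [h2] at h1
  rw [h1]
  refine Finset.sum_congr rfl fun m _ => ?_
  simp

theorem a3_int {n : ℕ} {k : Fin n → ℤ} {w z : RE n} (hw : inner ℝ (lat k) w = 0) (hz : inner ℝ (lat k) z = 0)
    {Q : ℕ} {gam : ℝ} (hg : 0 < gam)
    (hres : ∀ m ∈ bx n Q, (¬ ∃ j : ℤ, m = j • k) → gam ≤ |inner ℝ (lat m) w|) {T : ℝ} (hT : 0 < T)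
    {m : Fin n → ℤ} (hm : m ∈ bx n Q) :
    (if m = 0 then T else 0) - 1 / (Real.pi * gam) ≤
      ∫ t in (0 : ℝ)..T, Real.cos (2 * Real.pi * (inner ℝ (lat m) w * t - inner ℝ (lat m) z)) := by
  have hp : 0 < 1 / (Real.pi * gam) := by positivity
  by_cases hj : ∃ j : ℤ, m = j • k
  · obtain ⟨j, rfl⟩ := hj
    have e1 : ∀ u : RE n, inner ℝ (lat k) u = 0 → inner ℝ (lat (j • k)) u = 0 := by
      intro u hu
      rw [a3_inner] at hu ⊢
      have e2 : ∀ i : Fin n, (((j • k) i : ℤ) : ℝ) * u i = (j : ℝ) * ((k i : ℝ) * u i) := by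
        intro i
        rw [Pi.smul_apply, smul_eq_mul]
        push_cast
        ring
      rw [Finset.sum_congr rfl fun i _ => e2 i, ← Finset.mul_sum, hu, mul_zero]
    rw [e1 w hw, e1 z hz]
    have e3 : ∫ t in (0 : ℝ)..T, Real.cos (2 * Real.pi * (0 * t - 0)) = T := by
      simp
    rw [e3]
    split_ifs <;> linarith
  · have h0 : m ≠ 0 := by
      rintro rfl
      exact hj ⟨0, by rw [zero_smul]⟩
    rw [if_neg h0]
    have h1 := hres m hm hj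
    have h2 : inner ℝ (lat m) w ≠ 0 := by
      intro h2
      rw [h2, abs_zero] at h1
      linarith
    have h3 := cos_avg h2 (inner ℝ (lat m) z) T
    have h4 : 1 / (Real.pi * |inner ℝ (lat m) w|) ≤ 1 / (Real.pi * gam) := by
      apply one_div_le_one_div_of_le (by positivity)
      exact mul_le_mul_of_nonneg_left h1 Real.pi_pos.le
    have h5 := (abs_le.1 h3).1
    linarith

theorem density_core {n : ℕ} {k : Fin n → ℤ} {w z : RE n} (hw : inner ℝ (lat k) w = 0) (hz : inner ℝ (lat k) z = 0)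
    {Q : ℕ} {gam : ℝ} (hg : 0 < gam)
    (hres : ∀ m ∈ bx n Q, (¬ ∃ j : ℤ, m = j • k) → gam ≤ |inner ℝ (lat m) w|) {r T : ℝ} (hr : 0 < r) (hT : 0 < T)
    (hnum : 1 / (Real.pi * gam * T) + Real.exp (-(4 * r ^ 2 * Q)) < (1 / (2 * (Q : ℝ) + 1)) ^ n) :
    ∃ t : ℝ, 0 ≤ t ∧ t ≤ T ∧ ∃ m : Fin n → ℤ, ∀ i, |t * w i - z i - m i| < r := by
  by_contra hcon
  push Not at hcon
  have hint : ∀ t : ℝ, ker Q (fun i => t * w i - z i) = ∑ m ∈ bx n Q, kc Q m *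
      Real.cos (2 * Real.pi * (inner ℝ (lat m) w * t - inner ℝ (lat m) z)) := by
    intro t
    rw [ker_expand]
    refine Finset.sum_congr rfl fun m _ => ?_
    congr 2
    rw [a3_inner, a3_inner, Finset.sum_mul, ← Finset.sum_sub_distrib]
    congr 1
    refine Finset.sum_congr rfl fun i _ => ?_
    ring
  have hcont : ∀ m : Fin n → ℤ, Continuous fun t : ℝ => kc Q m *
      Real.cos (2 * Real.pi * (inner ℝ (lat m) w * t - inner ℝ (lat m) z)) := by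
    intro m
    fun_prop
  have hcont2 : Continuous fun t : ℝ => ker Q (fun i => t * w i - z i) := by
    rw [funext hint]
    exact continuous_finset_sum _ fun m _ => hcont m
  have hup : ∫ t in (0 : ℝ)..T, ker Q (fun i => t * w i - z i) ≤ T * Real.exp (-(4 * r ^ 2 * Q)) := by
    have h1 : ∫ t in (0 : ℝ)..T, ker Q (fun i => t * w i - z i) ≤
        ∫ t in (0 : ℝ)..T, Real.exp (-(4 * r ^ 2 * Q)) := by
      refine intervalIntegral.integral_mono_on hT.le (hcont2.intervalIntegrable _ _)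
        (continuous_const.intervalIntegrable _ _) ?_
      intro t ht
      exact ker_small Q _ hr.le fun m => hcon t ht.1 ht.2 m
    rw [intervalIntegral.integral_const, smul_eq_mul, sub_zero] at h1
    exact h1
  have hlow : T * kc Q (0 : Fin n → ℤ) - 1 / (Real.pi * gam) ≤
      ∫ t in (0 : ℝ)..T, ker Q (fun i => t * w i - z i) := by
    rw [intervalIntegral.integral_congr (g := fun t => ∑ m ∈ bx n Q, kc Q m *
      Real.cos (2 * Real.pi * (inner ℝ (lat m) w * t - inner ℝ (lat m) z))) (fun t _ => hint t),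
      intervalIntegral.integral_finset_sum fun m _ => (hcont m).intervalIntegrable _ _]
    have h1 : ∀ m ∈ bx n Q, kc Q m * ((if m = 0 then T else 0) - 1 / (Real.pi * gam)) ≤
        ∫ t in (0 : ℝ)..T, kc Q m * Real.cos (2 * Real.pi * (inner ℝ (lat m) w * t - inner ℝ (lat m) z)) := by
      intro m hm
      rw [intervalIntegral.integral_const_mul]
      exact mul_le_mul_of_nonneg_left (a3_int hw hz hg hres hT hm) (kc_nonneg Q m)
    refine le_trans (le_of_eq ?_) (Finset.sum_le_sum h1)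
    have h2 : ∀ m : Fin n → ℤ, kc Q m * ((if m = 0 then T else 0) - 1 / (Real.pi * gam)) =
        (if m = 0 then kc Q m * T else 0) - kc Q m * (1 / (Real.pi * gam)) := by
      intro m
      split_ifs <;> ring
    rw [Finset.sum_congr rfl fun m _ => h2 m, Finset.sum_sub_distrib, ← Finset.sum_mul, a3_ker_zero, one_mul,
      Finset.sum_ite_eq', if_pos, mul_comm]
    rw [mem_bx]
    intro i
    simp
  have h3 := kc_zero n Q
  have h4 : T * (1 / (2 * (Q : ℝ) + 1)) ^ n ≤ T * kc Q (0 : Fin n → ℤ) := mul_le_mul_of_nonneg_left h3 hT.le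
  have h5 : T * (1 / (Real.pi * gam * T) + Real.exp (-(4 * r ^ 2 * Q))) < T * (1 / (2 * (Q : ℝ) + 1)) ^ n :=
    mul_lt_mul_of_pos_left hnum hT
  have h6 : T * (1 / (Real.pi * gam * T) + Real.exp (-(4 * r ^ 2 * Q))) =
      1 / (Real.pi * gam) + T * Real.exp (-(4 * r ^ 2 * Q)) := by
    field_simp
  linarith

theorem a3_Q0 (n : ℕ) (hn : 1 ≤ n) : ∃ Q₀ : ℕ, 1 ≤ Q₀ ∧ ∀ Q : ℕ, Q₀ ≤ Q →
    Real.exp (-(4 / n * (Q : ℝ) ^ (1 / 3 : ℝ))) ≤ 1 / 2 * (1 / (3 * (Q : ℝ))) ^ n := by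
  have h1 : Filter.Tendsto (fun x : ℝ => x ^ ((3 * n : ℕ) : ℝ) * Real.exp (-(4 / n : ℝ) * x)) Filter.atTop (𝓝 0) :=
    tendsto_rpow_mul_exp_neg_mul_atTop_nhds_zero _ _ (by positivity)
  have h2 : Filter.Tendsto (fun Q : ℕ => (Q : ℝ) ^ (1 / 3 : ℝ)) Filter.atTop Filter.atTop :=
    (tendsto_rpow_atTop (by norm_num)).comp tendsto_natCast_atTop_atTop
  have h3 := (h1.comp h2).eventually (ge_mem_nhds (show (0 : ℝ) < 1 / 2 * (1 / 3) ^ n by positivity))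
  obtain ⟨Q₁, hQ₁⟩ := Filter.eventually_atTop.1 h3
  refine ⟨max Q₁ 1, le_max_right _ _, fun Q hQ => ?_⟩
  have hQ1 : 1 ≤ Q := le_trans (le_max_right _ _) hQ
  have hQp : (0 : ℝ) < Q := by exact_mod_cast hQ1
  have h4 := hQ₁ Q (le_trans (le_max_left _ _) hQ)
  simp only [Function.comp_apply] at h4
  have h5 : ((Q : ℝ) ^ (1 / 3 : ℝ)) ^ ((3 * n : ℕ) : ℝ) = (Q : ℝ) ^ n := by
    rw [← Real.rpow_mul hQp.le, ← Real.rpow_natCast]
    congr 1
    push_cast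
    ring
  rw [h5] at h4
  have h6 : (1 / (3 * (Q : ℝ))) ^ n = (1 / 3) ^ n / (Q : ℝ) ^ n := by
    rw [← div_pow]
    congr 1
    field_simp
  rw [h6, ← mul_div_assoc, le_div_iff₀ (by positivity)]
  calc Real.exp (-(4 / n * (Q : ℝ) ^ (1 / 3 : ℝ))) * (Q : ℝ) ^ n =
      (Q : ℝ) ^ n * Real.exp (-(4 / n : ℝ) * (Q : ℝ) ^ (1 / 3 : ℝ)) := by
        rw [mul_comm, neg_mul]
    _ ≤ _ := h4

theorem density {n : ℕ} (hn : 1 ≤ n) : ∃ C : ℝ, 0 < C ∧ ∃ Q₀ : ℕ, ∀ (k : Fin n → ℤ) (w : RE n), inner ℝ (lat k) w = 0 →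
    ∀ Q : ℕ, Q₀ ≤ Q → ∀ gam : ℝ, 0 < gam →
    (∀ m ∈ bx n Q, (¬ ∃ j : ℤ, m = j • k) → gam ≤ |inner ℝ (lat m) w|) →
    ∀ r0 : ℝ, 0 < r0 → 1 ≤ r0 ^ 3 * Q → ∀ z : RE n, inner ℝ (lat k) z = 0 →
    ∃ r : ℝ, 0 ≤ r ∧ r ≤ C * (Q : ℝ) ^ n / gam ∧ ∃ m : Fin n → ℤ, ‖r • w - z - lat m‖ ≤ r0 := by
  obtain ⟨Q₀, hQ₀, hQ⟩ := a3_Q0 n hn
  have hnp : (0 : ℝ) < n := by exact_mod_cast hn
  refine ⟨2 * 3 ^ n, by positivity, Q₀, ?_⟩
  intro k w hw Q hQQ gam hg hres r0 hr0 hr1 z hz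
  have hQ1 : (1 : ℝ) ≤ Q := by exact_mod_cast le_trans hQ₀ hQQ
  have hQp : (0 : ℝ) < Q := by linarith
  have hs : 0 < Real.sqrt n := Real.sqrt_pos.2 hnp
  have hT : 0 < 2 * 3 ^ n * (Q : ℝ) ^ n / gam := by positivity
  have hr : 0 < r0 / Real.sqrt n := by positivity
  -- the numerical inequality
  have e1 : (1 / (3 * (Q : ℝ))) ^ n ≤ (1 / (2 * (Q : ℝ) + 1)) ^ n := by
    refine pow_le_pow_left₀ (by positivity) ?_ n
    apply one_div_le_one_div_of_le (by positivity)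
    linarith
  have e2 : 1 / (Real.pi * gam * (2 * 3 ^ n * (Q : ℝ) ^ n / gam)) = 1 / (2 * Real.pi) * (1 / (3 * (Q : ℝ))) ^ n := by
    rw [one_div_pow, mul_pow]
    field_simp
  have e3 : (Q : ℝ) ^ (1 / 3 : ℝ) ≤ r0 ^ 2 * Q := by
    have f1 : 1 ≤ r0 * (Q : ℝ) ^ (1 / 3 : ℝ) := by
      by_contra hc
      push Not at hc
      have f2 : (r0 * (Q : ℝ) ^ (1 / 3 : ℝ)) ^ 3 < 1 := pow_lt_one₀ (by positivity) hc (by norm_num)
      rw [mul_pow, ← Real.rpow_natCast ((Q : ℝ) ^ (1 / 3 : ℝ)) 3, ← Real.rpow_mul hQp.le] at f2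
      norm_num at f2
      linarith
    have f3 : (Q : ℝ) = ((Q : ℝ) ^ (1 / 3 : ℝ)) ^ 3 := by
      rw [← Real.rpow_natCast, ← Real.rpow_mul hQp.le]
      norm_num
    have f4 : r0 ^ 2 * (Q : ℝ) = (r0 * (Q : ℝ) ^ (1 / 3 : ℝ)) ^ 2 * (Q : ℝ) ^ (1 / 3 : ℝ) := by
      conv_lhs => rw [f3]
      ring
    rw [f4]
    have f5 : 1 ≤ (r0 * (Q : ℝ) ^ (1 / 3 : ℝ)) ^ 2 := one_le_pow₀ f1
    have f6 : 0 ≤ (Q : ℝ) ^ (1 / 3 : ℝ) := by positivity
    nlinarith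
  have e4 : Real.exp (-(4 * (r0 / Real.sqrt n) ^ 2 * Q)) ≤ 1 / 2 * (1 / (3 * (Q : ℝ))) ^ n := by
    refine le_trans (Real.exp_le_exp.2 ?_) (hQ Q hQQ)
    rw [div_pow, Real.sq_sqrt hnp.le, neg_le_neg_iff]
    have f7 : 4 * (r0 ^ 2 / n) * (Q : ℝ) = 4 / n * (r0 ^ 2 * Q) := by ring
    rw [f7]
    exact mul_le_mul_of_nonneg_left e3 (by positivity)
  have e5 : 1 / (2 * Real.pi) < 1 / 2 := by
    apply one_div_lt_one_div_of_lt (by norm_num)
    have := Real.pi_gt_three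
    linarith
  have hnum : 1 / (Real.pi * gam * (2 * 3 ^ n * (Q : ℝ) ^ n / gam)) +
      Real.exp (-(4 * (r0 / Real.sqrt n) ^ 2 * Q)) < (1 / (2 * (Q : ℝ) + 1)) ^ n := by
    rw [e2]
    have f8 : 0 < (1 / (3 * (Q : ℝ))) ^ n := by positivity
    have f9 : 1 / (2 * Real.pi) * (1 / (3 * (Q : ℝ))) ^ n < 1 / 2 * (1 / (3 * (Q : ℝ))) ^ n :=
      mul_lt_mul_of_pos_right e5 f8
    linarith
  obtain ⟨t, ht0, htT, m, hm⟩ := density_core hw hz hg hres hr hT hnum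
  refine ⟨t, ht0, htT, m, ?_⟩
  rw [EuclideanSpace.norm_eq]
  have h1 : ∑ i, ‖(t • w - z - lat m) i‖ ^ 2 ≤ r0 ^ 2 := by
    calc ∑ i, ‖(t • w - z - lat m) i‖ ^ 2 ≤ ∑ _i : Fin n, (r0 / Real.sqrt n) ^ 2 := by
          refine Finset.sum_le_sum fun i _ => ?_
          refine pow_le_pow_left₀ (norm_nonneg _) ?_ 2
          exact (hm i).le
      _ = r0 ^ 2 := by
          rw [Finset.sum_const, Finset.card_univ, Fintype.card_fin, div_pow, Real.sq_sqrt hnp.le, nsmul_eq_mul]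
          field_simp
  exact Real.sqrt_le_iff.2 ⟨hr0.le, h1⟩

end Pool.Agent.LRT
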