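import Pool.Agent.LRT.CD

/-!
A4 (difficulty 3).  A direction in `k^⊥` in which all integer vectors `m ∉ ℤ k` of the box are transversal.

PROOF.  `digits`: integers `c_0, .., c_{n-1}` with `|c_i| ≤ B`, not all zero: `∑ c_i (2B+1)^i ≠ 0`: let `i` be the least index with `c_i ≠ 0`; modulo `(2B+1)^(i+1)` the sum is `c_i (2B+1)^i`, and `0 < |c_i| < 2B+1`.  (Induction on `n` with `Fin.sum_univ_succ`: if `∑ = 0` then `(2B+1) ∣ c_0`, so `c_0 = 0`, divide by `2B+1`.)
`parallel`: if `∑ u_i k_i = 1` and `K m_i = (k·m) k_i` for all `i`, where `K = ∑ k_i^2`, then `m = j • k` for an integer `j`: multiply by `u_i` and sum: `K (u·m) = k·m`; so `K m_i = K (u·m) k_i`, and `K > 0` (`k ≠ 0`), so `m_i = (u·m) k_i`.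
`good_dir`: `K = ∑ k_i^2 ≥ 1` (integer, `= ‖lat k‖^2`), `B = (1 + n) K Q`, `N = 2B + 1`, `y_i = N^i`, `v = K y - (k·y) k`.  `k·v = K (k·y) - (k·y) K = 0`.  For `m ∈ bx n Q`: `m·v = K (m·y) - (k·y)(k·m) = c·y` with `c_i = K m_i - (k·m) k_i`, an integer vector with
`|c_i| ≤ K Q + |k·m| |k_i| ≤ K Q + n K Q = B` (`|k·m| |k_i| ≤ ∑_j |k_j| |k_i| Q ≤ n K Q` since `|k_j| |k_i| ≤ K`).  If `m ∉ ℤ k` then `c ≠ 0` (`parallel`) so `c·y ≠ 0` (`digits`), an integer: `|m·v| ≥ 1`.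
`‖v‖ ≤ K ‖y‖ + |k·y| ‖k‖ ≤ 2 K ‖y‖`, `‖y‖ ≤ n N^(n-1)`, `N ≤ 3 (1+n) K Q` (`Q ≥ 1`), so `‖v‖ ≤ 2 n K (3 (1+n) K Q)^(n-1) ≤ C K^n Q^n`, `C = 2 n (3 (1+n))^n`, and `K^n = ‖lat k‖^(2n)`.
-/

set_option autoImplicit false

open Set MeasureTheory Topology

namespace Pool.Agent.LRT

theorem digits {n : ℕ} {B : ℕ} {c : Fin n → ℤ} (hc : ∀ i, |c i| ≤ B) (h0 : c ≠ 0) :
    ∑ i, c i * (2 * (B : ℤ) + 1) ^ (i : ℕ) ≠ 0 := by
  induction n with
  | zero =>
    exact absurd (Subsingleton.elim c 0) h0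
  | succ n ih =>
    intro hsum
    rw [Fin.sum_univ_succ] at hsum
    have e : ∑ i : Fin n, c i.succ * (2 * (B : ℤ) + 1) ^ ((i.succ : Fin (n + 1)) : ℕ) =
        (2 * (B : ℤ) + 1) * ∑ i : Fin n, c i.succ * (2 * (B : ℤ) + 1) ^ (i : ℕ) := by
      rw [Finset.mul_sum]
      refine Finset.sum_congr rfl fun i _ => ?_
      rw [Fin.val_succ, pow_succ]
      ring
    rw [e] at hsum
    simp only [Fin.val_zero, pow_zero, mul_one] at hsum
    have hc0 : c 0 = 0 := by
      refine Int.eq_zero_of_abs_lt_dvd (m := 2 * (B : ℤ) + 1) ?_ ?_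
      · exact ⟨-∑ i : Fin n, c i.succ * (2 * (B : ℤ) + 1) ^ (i : ℕ), by linarith⟩
      · have := hc 0
        have hB : (0 : ℤ) ≤ B := Int.natCast_nonneg B
        linarith
    rw [hc0, zero_add] at hsum
    have hN : (2 * (B : ℤ) + 1) ≠ 0 := by positivity
    have hs := (mul_eq_zero.1 hsum).resolve_left hN
    refine ih (c := fun i => c i.succ) (fun i => hc i.succ) ?_ hs
    intro h
    apply h0
    funext i
    refine Fin.cases hc0 (fun j => ?_) i
    exact congrFun h j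

lemma a4_inner {n : ℕ} (a b : Fin n → ℤ) :
    inner ℝ (lat a) (lat b) = ((∑ i, a i * b i : ℤ) : ℝ) := by
  rw [PiLp.inner_apply]
  push_cast
  refine Finset.sum_congr rfl fun i _ => ?_
  simp [mul_comm]

lemma a4_normsq {n : ℕ} (k : Fin n → ℤ) : ‖lat k‖ ^ 2 = ((∑ i, k i ^ 2 : ℤ) : ℝ) := by
  rw [EuclideanSpace.norm_sq_eq]
  push_cast
  refine Finset.sum_congr rfl fun i _ => ?_
  simp

lemma a4_norm {n : ℕ} (v : Fin n → ℤ) {M : ℝ} (hM : 0 ≤ M) (h : ∀ i, |(v i : ℝ)| ≤ M) :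
    ‖lat v‖ ≤ n * M := by
  refine abs_le_of_sq_le_sq' ?_ (by positivity) |>.2
  rw [EuclideanSpace.norm_sq_eq]
  calc ∑ i, ‖lat v i‖ ^ 2 ≤ ∑ _i : Fin n, M ^ 2 := by
        refine Finset.sum_le_sum fun i _ => ?_
        rw [lat_apply, Real.norm_eq_abs]
        exact pow_le_pow_left₀ (abs_nonneg _) (h i) 2
    _ = n * M ^ 2 := by simp
    _ ≤ (n * M) ^ 2 := by
        rw [mul_pow]
        refine mul_le_mul_of_nonneg_right ?_ (by positivity)
        rcases Nat.eq_zero_or_pos n with h0 | h0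
        · simp [h0]
        · have : (1 : ℝ) ≤ n := by exact_mod_cast h0
          nlinarith

lemma a4_prod {n : ℕ} (k : Fin n → ℤ) (i j : Fin n) : |k j| * |k i| ≤ ∑ l, k l ^ 2 := by
  have h1 : ∀ i, k i ^ 2 ≤ ∑ l, k l ^ 2 := fun i =>
    Finset.single_le_sum (f := fun l => k l ^ 2) (fun l _ => sq_nonneg _) (Finset.mem_univ i)
  have h2 := h1 i
  have h3 := h1 j
  rw [← sq_abs] at h2 h3
  nlinarith [sq_nonneg (|k j| - |k i|)]

lemma a4_sum {n : ℕ} (k x : Fin n → ℤ) {M : ℤ} (hM : ∀ j, |x j| ≤ M) (i : Fin n) :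
    |∑ j, k j * x j| * |k i| ≤ n * ((∑ l, k l ^ 2) * M) := by
  have hM0 : ∀ j, 0 ≤ |x j| := fun j => abs_nonneg _
  calc |∑ j, k j * x j| * |k i| ≤ (∑ j, |k j| * |x j|) * |k i| := by
        refine mul_le_mul_of_nonneg_right ?_ (abs_nonneg _)
        refine (Finset.abs_sum_le_sum_abs _ _).trans (le_of_eq ?_)
        exact Finset.sum_congr rfl fun j _ => abs_mul _ _
    _ = ∑ j, (|k j| * |k i|) * |x j| := by
        rw [Finset.sum_mul]
        exact Finset.sum_congr rfl fun j _ => by ring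
    _ ≤ ∑ _j : Fin n, (∑ l, k l ^ 2) * M := by
        refine Finset.sum_le_sum fun j _ => ?_
        exact mul_le_mul (a4_prod k i j) (hM j) (hM0 j) (Finset.sum_nonneg fun l _ => sq_nonneg _)
    _ = n * ((∑ l, k l ^ 2) * M) := by simp

theorem good_dir {n : ℕ} (hn : 1 ≤ n) : ∃ C : ℝ, 0 < C ∧ ∀ k : Fin n → ℤ, (∃ u : Fin n → ℤ, ∑ i, u i * k i = 1) →
    ∀ Q : ℕ, 1 ≤ Q → ∃ v : RE n, inner ℝ (lat k) v = 0 ∧ ‖v‖ ≤ C * ‖lat k‖ ^ (2 * n) * (Q : ℝ) ^ n ∧
      ∀ m ∈ bx n Q, (¬ ∃ j : ℤ, m = j • k) → 1 ≤ |inner ℝ (lat m) v| := by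
  have hn0 : (0 : ℝ) < n := by exact_mod_cast hn
  refine ⟨n * (3 * (1 + n)) ^ n, by positivity, ?_⟩
  rintro k ⟨u, hu⟩ Q hQ
  obtain ⟨K, hK⟩ : ∃ K : ℤ, K = ∑ l, k l ^ 2 := ⟨_, rfl⟩
  have hK0 : 0 ≤ K := hK ▸ Finset.sum_nonneg fun l _ => sq_nonneg _
  have hK1 : 0 < K := by
    rcases lt_or_eq_of_le hK0 with h | h
    · exact h
    exfalso
    have h1 : ∀ i, k i = 0 := by
      intro i
      have h2 : k i ^ 2 ≤ K := by
        rw [hK]
        exact Finset.single_le_sum (f := fun l => k l ^ 2) (fun l _ => sq_nonneg _)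
          (Finset.mem_univ i)
      rw [← h] at h2
      exact pow_eq_zero_iff (two_ne_zero) |>.1 (le_antisymm h2 (sq_nonneg _))
    rw [Finset.sum_eq_zero (fun i _ => by rw [h1 i, mul_zero])] at hu
    exact zero_ne_one hu
  obtain ⟨B, hB⟩ : ∃ B : ℕ, (B : ℤ) = (1 + n) * K * Q := by
    refine ⟨(1 + n) * K.toNat * Q, ?_⟩
    push_cast
    rw [Int.toNat_of_nonneg hK0]
  have hQ' : (1 : ℤ) ≤ Q := by exact_mod_cast hQ
  have hB1 : (1 : ℤ) ≤ B := by
    rw [hB]
    have h1 : (1 : ℤ) ≤ 1 + n := by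
      have : (0 : ℤ) ≤ n := Int.natCast_nonneg n
      linarith
    have h2 : (1 : ℤ) ≤ (1 + n) * K := by nlinarith
    nlinarith
  obtain ⟨N, hN⟩ : ∃ N : ℤ, N = 2 * (B : ℤ) + 1 := ⟨_, rfl⟩
  have hN1 : 1 ≤ N := by rw [hN]; linarith
  obtain ⟨y, hy⟩ : ∃ y : Fin n → ℤ, y = fun i : Fin n => N ^ (i : ℕ) := ⟨_, rfl⟩
  have hyb : ∀ j, |y j| ≤ N ^ (n - 1) := by
    intro j
    rw [hy]
    simp only
    rw [abs_of_nonneg (by positivity)]
    exact pow_le_pow_right₀ hN1 (by have := j.2; omega)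
  obtain ⟨ky, hky⟩ : ∃ ky : ℤ, ky = ∑ j, k j * y j := ⟨_, rfl⟩
  obtain ⟨v, hv⟩ : ∃ v : Fin n → ℤ, v = fun i => K * y i - ky * k i := ⟨_, rfl⟩
  refine ⟨lat v, ?_, ?_, ?_⟩
  · rw [a4_inner]
    have : ∑ i, k i * v i = 0 := by
      calc ∑ i, k i * v i = ∑ i, (K * (k i * y i) - ky * k i ^ 2) := by
            refine Finset.sum_congr rfl fun i _ => ?_
            rw [hv]; ring
        _ = K * ky - ky * K := by
            rw [Finset.sum_sub_distrib, ← Finset.mul_sum, ← Finset.mul_sum, ← hky, ← hK]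
        _ = 0 := by ring
    rw [this, Int.cast_zero]
  · have hvi : ∀ i, |v i| ≤ (1 + n) * (K * N ^ (n - 1)) := by
      intro i
      have h1 : |K * y i| ≤ K * N ^ (n - 1) := by
        rw [abs_mul, abs_of_pos hK1]
        exact mul_le_mul_of_nonneg_left (hyb i) hK0
      have h2 : |ky * k i| ≤ n * (K * N ^ (n - 1)) := by
        rw [abs_mul, hky, hK]
        exact a4_sum k y hyb i
      calc |v i| = |K * y i - ky * k i| := by rw [hv]
        _ ≤ |K * y i| + |ky * k i| := abs_sub _ _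
        _ ≤ (1 + n) * (K * N ^ (n - 1)) := by linarith
    have hvr : ∀ i, |(v i : ℝ)| ≤ (1 + n) * (K * (N : ℝ) ^ (n - 1)) := by
      intro i
      exact_mod_cast hvi i
    have hNr : (1 : ℝ) ≤ N := by exact_mod_cast hN1
    have hKr : (1 : ℝ) ≤ K := by exact_mod_cast hK1
    have hQr : (1 : ℝ) ≤ Q := by exact_mod_cast hQ
    have h3 := a4_norm v (M := (1 + n) * (K * (N : ℝ) ^ (n - 1))) (by positivity) hvr
    refine h3.trans ?_
    have e1 : ‖lat k‖ ^ (2 * n) = (K : ℝ) ^ n := by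
      rw [pow_mul, a4_normsq, ← hK]
    rw [e1]
    have hNle : (N : ℝ) ≤ 3 * (1 + n) * K * Q := by
      have h4 : N ≤ 3 * (B : ℤ) := by rw [hN]; linarith
      have h5 : (N : ℝ) ≤ 3 * ((B : ℤ) : ℝ) := by exact_mod_cast h4
      rw [hB] at h5
      push_cast at h5
      linarith
    have h6 : (N : ℝ) ^ (n - 1) ≤ (3 * (1 + n) * K * Q) ^ (n - 1) :=
      pow_le_pow_left₀ (by linarith) hNle _
    have h7 : (1 + n : ℝ) * K ≤ 3 * (1 + n) * K * Q := by
      have : (1 + n : ℝ) * K ≤ 3 * ((1 + n) * K) * Q := by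
        have h8 : (0 : ℝ) < (1 + n) * K := by positivity
        nlinarith
      linarith
    calc (n : ℝ) * ((1 + n) * (K * (N : ℝ) ^ (n - 1)))
        = n * (((1 + n) * K) * (N : ℝ) ^ (n - 1)) := by ring
      _ ≤ n * ((3 * (1 + n) * K * Q) * (3 * (1 + n) * K * Q) ^ (n - 1)) := by
          refine mul_le_mul_of_nonneg_left ?_ hn0.le
          exact mul_le_mul h7 h6 (by positivity) (by positivity)
      _ = n * (3 * (1 + n) * K * Q) ^ n := by
          rw [← pow_succ', Nat.sub_add_cancel hn]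
      _ = n * (3 * (1 + n)) ^ n * K ^ n * Q ^ n := by
          rw [mul_pow, mul_pow]; ring
  · intro m hm hmk
    have hmb := mem_bx.1 hm
    rw [a4_inner]
    obtain ⟨km, hkm⟩ : ∃ km : ℤ, km = ∑ j, k j * m j := ⟨_, rfl⟩
    obtain ⟨c, hc⟩ : ∃ c : Fin n → ℤ, c = fun i => K * m i - km * k i := ⟨_, rfl⟩
    have hsum : ∑ i, m i * v i = ∑ i, c i * (2 * (B : ℤ) + 1) ^ (i : ℕ) := by
      have e1 : ∑ i, m i * v i = K * (∑ i, m i * y i) - ky * km := by
        rw [hkm, Finset.mul_sum, Finset.mul_sum, ← Finset.sum_sub_distrib]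
        refine Finset.sum_congr rfl fun i _ => ?_
        rw [hv]; ring
      have e2 : ∑ i, c i * (2 * (B : ℤ) + 1) ^ (i : ℕ) = K * (∑ i, m i * y i) - km * ky := by
        rw [hky, Finset.mul_sum, Finset.mul_sum, ← Finset.sum_sub_distrib]
        refine Finset.sum_congr rfl fun i _ => ?_
        rw [hc, hy, hN]; ring
      rw [e1, e2]; ring
    have hcb : ∀ i, |c i| ≤ B := by
      intro i
      have h1 : |K * m i| ≤ K * Q := by
        rw [abs_mul, abs_of_pos hK1]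
        exact mul_le_mul_of_nonneg_left (hmb i) hK0
      have h2 : |km * k i| ≤ n * (K * Q) := by
        rw [abs_mul, hkm, hK]
        exact a4_sum k m hmb i
      calc |c i| = |K * m i - km * k i| := by rw [hc]
        _ ≤ |K * m i| + |km * k i| := abs_sub _ _
        _ ≤ (1 + n) * K * Q := by linarith
        _ = B := hB.symm
    have hc0 : c ≠ 0 := by
      intro h
      apply hmk
      refine ⟨∑ i, u i * m i, ?_⟩
      have h1 : ∀ i, K * m i = km * k i := by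
        intro i
        have h2 := congrFun h i
        rw [hc] at h2
        simp only [Pi.zero_apply] at h2
        linarith
      have h2 : K * (∑ i, u i * m i) = km := by
        calc K * (∑ i, u i * m i) = ∑ i, u i * (K * m i) := by
              rw [Finset.mul_sum]
              exact Finset.sum_congr rfl fun i _ => by ring
          _ = ∑ i, u i * (km * k i) := Finset.sum_congr rfl fun i _ => by rw [h1]
          _ = km * ∑ i, u i * k i := by
              rw [Finset.mul_sum]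
              exact Finset.sum_congr rfl fun i _ => by ring
          _ = km := by rw [hu, mul_one]
      funext i
      have h3 : K * m i = K * ((∑ i, u i * m i) * k i) := by
        rw [h1 i, ← mul_assoc, h2]
      have h4 := mul_left_cancel₀ hK1.ne' h3
      rw [Pi.smul_apply, smul_eq_mul]
      exact h4
    have hne := digits hcb hc0
    rw [← hsum] at hne
    have h1 : 1 ≤ |∑ i, m i * v i| := Int.one_le_abs hne
    exact_mod_cast h1

end Pool.Agent.LRT
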