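import Pool.Agent.LRT.A4

/-!
A5 (difficulty 3).  Selection of a good frequency near a resonant one.

PROOF.  `good_dir`: `v`, `‖v‖ ≤ M := C₁ ‖lat k‖^(2n) Q^n`; `M > 0` (`‖lat k‖ ≥ 1`: `k ≠ 0` is an integer vector).  Put `w(s) = w₀ + (s / M) • v`, `0 ≤ s ≤ τ`: `k·w(s) = 0`, `‖w(s) - w₀‖ ≤ s ≤ τ`.  For `m ∈ bx n Q`, `m ∉ ℤ k`: `m·w(s) = α + β s` with `|β| = |m·v| / M ≥ 1 / M`; the set `{s | |α + β s| < gam}` is contained in
`Metric.ball (-α / β) (gam * M)` and has volume `≤ 2 gam M`.  The union over `bx n Q` (`(2Q+1)^n ≤ (3Q)^n` elements) has volume `≤ (3Q)^n * 2 gam M < τ = volume [0, τ]` if `C = 2 * 3^n * 2 * C₁`; so there is `s ∈ [0, τ]` outside the union (`measure_biUnion_finset_le`, `Real.volume_ball`, `Real.volume_Icc`).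
If `τ = 0`?  excluded: the hypothesis gives `0 < C ‖lat k‖^(2n) Q^(2n) gam ≤ τ`.  `Finset.card` of `bx n Q`: `Pi.card_Icc`, `Int.card_Icc`.
-/

set_option autoImplicit false

open Set MeasureTheory Topology

namespace Pool.Agent.LRT

private lemma a5_card_bx (n Q : ℕ) (hQ : 1 ≤ Q) : ((bx n Q).card : ℝ) ≤ (3 * (Q : ℝ)) ^ n := by
  have h1 : (bx n Q).card = (2 * Q + 1) ^ n := by
    unfold bx
    rw [Pi.card_Icc]
    simp only [Int.card_Icc, Finset.prod_const, Finset.card_univ, Fintype.card_fin]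
    congr 1
    omega
  rw [h1]
  push_cast
  have hQ' : (1 : ℝ) ≤ Q := by exact_mod_cast hQ
  exact pow_le_pow_left₀ (by positivity) (by linarith) n

private lemma a5_ball {a b s M gam : ℝ} (hM : 0 < M) (hb : 1 ≤ |b|)
    (h : |a + s / M * b| < gam) : s ∈ Metric.ball (-(a * M) / b) (gam * M) := by
  have hb0 : b ≠ 0 := by
    intro h0
    rw [h0, abs_zero] at hb
    linarith
  have hb1 : 0 < |b| := lt_of_lt_of_le one_pos hb
  rw [Metric.mem_ball, Real.dist_eq]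
  have e : s - -(a * M) / b = (a + s / M * b) * M / b := by
    field_simp
    ring
  rw [e, abs_div, abs_mul, abs_of_pos hM, div_lt_iff₀ hb1]
  have h1 : |a + s / M * b| * M < gam * M := by gcongr
  have h2 : 0 < gam * M := lt_of_le_of_lt (by positivity) h1
  nlinarith

theorem selection {n : ℕ} (hn : 1 ≤ n) : ∃ C : ℝ, 0 < C ∧ ∀ k : Fin n → ℤ, (∃ u : Fin n → ℤ, ∑ i, u i * k i = 1) →
    ∀ Q : ℕ, 1 ≤ Q → ∀ gam τ : ℝ, 0 < gam → C * ‖lat k‖ ^ (2 * n) * (Q : ℝ) ^ (2 * n) * gam ≤ τ →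
    ∀ w₀ : RE n, inner ℝ (lat k) w₀ = 0 → ∃ w : RE n, inner ℝ (lat k) w = 0 ∧ ‖w - w₀‖ ≤ τ ∧
      ∀ m ∈ bx n Q, (¬ ∃ j : ℤ, m = j • k) → gam ≤ |inner ℝ (lat m) w| := by
  classical
  obtain ⟨C₁, hC₁, H⟩ := good_dir hn
  refine ⟨4 * 3 ^ n * C₁, by positivity, fun k hk Q hQ gam τ hgam hτ w₀ hw₀ => ?_⟩
  obtain ⟨v, hkv, hv, hm⟩ := H k hk Q hQ
  have hkL : 0 < ‖lat k‖ := by
    rw [norm_pos_iff]
    intro h0
    obtain ⟨u, hu⟩ := hk
    have h1 : k = 0 := by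
      ext i
      have h2 := congrArg (fun z : RE n => z i) h0
      simpa using h2
    simp [h1] at hu
  have hQ' : (0 : ℝ) < Q := by exact_mod_cast hQ
  have hM0 : 0 < C₁ * ‖lat k‖ ^ (2 * n) * (Q : ℝ) ^ n := by positivity
  obtain ⟨M, hM⟩ : ∃ M : ℝ, M = C₁ * ‖lat k‖ ^ (2 * n) * (Q : ℝ) ^ n := ⟨_, rfl⟩
  rw [← hM] at hv hM0
  by_contra hcon
  have hcov : Set.Icc (0 : ℝ) τ ⊆ ⋃ m ∈ (bx n Q).filter (fun m => ¬ ∃ j : ℤ, m = j • k),
      Metric.ball (-(inner ℝ (lat m) w₀ * M) / inner ℝ (lat m) v) (gam * M) := by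
    intro s hs
    by_contra hns
    apply hcon
    refine ⟨w₀ + (s / M) • v, ?_, ?_, ?_⟩
    · rw [inner_add_right, inner_smul_right, hw₀, hkv, mul_zero, add_zero]
    · rw [add_sub_cancel_left, norm_smul, Real.norm_eq_abs, abs_of_nonneg (div_nonneg hs.1 hM0.le)]
      calc s / M * ‖v‖ ≤ s / M * M := by
            exact mul_le_mul_of_nonneg_left hv (div_nonneg hs.1 hM0.le)
        _ = s := by field_simp
        _ ≤ τ := hs.2
    · intro m hmb hmk
      by_contra hlt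
      rw [not_le, inner_add_right, inner_smul_right] at hlt
      apply hns
      rw [Set.mem_iUnion₂]
      exact ⟨m, Finset.mem_filter.2 ⟨hmb, hmk⟩, a5_ball hM0 (hm m hmb hmk) hlt⟩
  have hτ0 : 0 < τ := lt_of_lt_of_le (by positivity) hτ
  have hvol : ENNReal.ofReal τ ≤ ENNReal.ofReal ((3 * (Q : ℝ)) ^ n * (2 * (gam * M))) := by
    calc ENNReal.ofReal τ = volume (Set.Icc (0 : ℝ) τ) := by rw [Real.volume_Icc, sub_zero]
      _ ≤ _ := (measure_mono hcov).trans (measure_biUnion_finset_le _ _)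
      _ = ∑ m ∈ (bx n Q).filter (fun m => ¬ ∃ j : ℤ, m = j • k), ENNReal.ofReal (2 * (gam * M)) := by
          refine Finset.sum_congr rfl fun m _ => ?_
          rw [Real.volume_ball]
      _ ≤ ∑ m ∈ bx n Q, ENNReal.ofReal (2 * (gam * M)) :=
          Finset.sum_le_sum_of_subset (Finset.filter_subset _ _)
      _ = ENNReal.ofReal (((bx n Q).card : ℝ) * (2 * (gam * M))) := by
          rw [Finset.sum_const, nsmul_eq_mul, ENNReal.ofReal_mul (p := ((bx n Q).card : ℝ)) (by positivity),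
            ENNReal.ofReal_natCast]
      _ ≤ _ := by
          apply ENNReal.ofReal_le_ofReal
          exact mul_le_mul_of_nonneg_right (a5_card_bx n Q hQ) (by positivity)
  rw [ENNReal.ofReal_le_ofReal_iff (by positivity)] at hvol
  have e : (3 * (Q : ℝ)) ^ n * (2 * (gam * M)) =
      (4 * 3 ^ n * C₁ * ‖lat k‖ ^ (2 * n) * (Q : ℝ) ^ (2 * n) * gam) / 2 := by
    rw [hM, mul_pow, mul_comm 2 n, pow_mul (Q : ℝ) n 2]
    ring
  rw [e] at hvol
  linarith

end Pool.Agent.LRT
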