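import Pool.Agent.LRT.CD

/-!
Block III (arithmetic): the kernel `∏ cos (π x_i)^(2Q)`.
-/

set_option autoImplicit false

open Set MeasureTheory Topology

namespace Pool.Agent.LRT

noncomputable section

/-- coefficients of the kernel `∏ cos (π x_i) ^ (2 Q)` -/
def kc {n : ℕ} (Q : ℕ) (m : Fin n → ℤ) : ℝ := ∏ i, (Nat.choose (2 * Q) ((Q : ℤ) + m i).toNat : ℝ) / 4 ^ Q

/-- the kernel -/
def ker {n : ℕ} (Q : ℕ) (x : Fin n → ℝ) : ℝ := ∏ i, Real.cos (Real.pi * x i) ^ (2 * Q)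

end

end Pool.Agent.LRT
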