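import Pool.Agent.LRT.CD

/-!
C1 (difficulty 2).  A complex differentiable function of several variables has a complex
differentiable derivative, hence is `C^∞`.

PROOF.  Let `z₀ ∈ U`, `closedBall z₀ (2r) ⊆ U`, `‖F‖ ≤ B` on it (compact; `V` is proper:
`FiniteDimensional.proper ℂ V`).  First the Cauchy estimate: for `z ∈ ball z₀ r` and `v`,
`g ζ = F (z + ζ • v)` is differentiable for `‖ζ‖ ‖v‖ < r` and `deriv g 0 = fderiv ℂ F z v`, so
`‖fderiv ℂ F z v‖ ≤ B ‖v‖ / r'` for `r' < r` (`Complex.norm_deriv_le_of_forall_mem_sphere_norm_le`).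
Fix `v` with `‖v‖ ≤ r / 2`.  For `z ∈ ball z₀ (r/2)`:
`fderiv ℂ F z v = (2πi)⁻¹ • ∮ ζ in C(0,1), (ζ^2)⁻¹ • F (z + ζ • v)`
(`Complex.two_pi_I_inv_smul_circleIntegral_sub_sq_inv_smul_of_differentiable` applied to `g`, radius 1).
Differentiate under the integral sign (`hasFDerivAt_integral_of_dominated_of_fderiv_le` after
unfolding `circleIntegral` as an interval integral over `[0, 2π]`, or
`intervalIntegral.hasFDerivAt_integral_of_dominated_of_fderiv_le`; the derivative of the integrand in `z` is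
`(ζ^2)⁻¹ • fderiv ℂ F (z + ζ • v)`, bounded by the Cauchy estimate; measurability from
`measurable_fderiv`).  So `z ↦ fderiv ℂ F z v` is differentiable at `z₀` for all small `v`, hence for
all `v` by linearity, hence `fderiv ℂ F` is differentiable at `z₀` since `V` is finite dimensional
(expand in a basis: a continuous linear map is a linear combination of its values on a basis, e.g.
`fderiv ℂ F z = ∑ i, (coord i).smulRight (fderiv ℂ F z (b i))`).
`hol_contDiffOn`: induction, `contDiffOn_succ_iff_fderiv_of_isOpen` (for all finite orders, then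
`contDiffOn_infty`).
-/

set_option autoImplicit false

open Set MeasureTheory Topology

namespace Pool.Agent.LRT

theorem c1_slice {V W : Type*} [NormedAddCommGroup V] [NormedSpace ℂ V]
    [NormedAddCommGroup W] [NormedSpace ℂ W] {U : Set V} (hU : IsOpen U)
    {F : V → W} (hF : DifferentiableOn ℂ F U) (z v : V) :
    DifferentiableOn ℂ (fun ζ : ℂ => F (z + ζ • v)) {ζ : ℂ | z + ζ • v ∈ U} := by
  intro ζ hζ
  have h1 : DifferentiableAt ℂ F (z + ζ • v) := (hF _ hζ).differentiableAt (hU.mem_nhds hζ)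
  have h2 : DifferentiableAt ℂ (fun ζ : ℂ => z + ζ • v) ζ := by fun_prop
  exact (DifferentiableAt.comp ζ h1 h2).differentiableWithinAt

theorem c1_slice_deriv {V W : Type*} [NormedAddCommGroup V] [NormedSpace ℂ V]
    [NormedAddCommGroup W] [NormedSpace ℂ W]
    {F : V → W} (z v : V) (h : DifferentiableAt ℂ F z) :
    deriv (fun ζ : ℂ => F (z + ζ • v)) 0 = fderiv ℂ F z v := by
  have h1 : HasFDerivAt F (fderiv ℂ F z) (z + (0 : ℂ) • v) := by
    simpa using h.hasFDerivAt
  have h2 : HasDerivAt (fun ζ : ℂ => z + ζ • v) v 0 := by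
    have := ((hasDerivAt_id (0 : ℂ)).smul_const v).const_add z
    simpa using this
  exact (h1.comp_hasDerivAt (0 : ℂ) h2).deriv

theorem c1_cauchy {V W : Type*} [NormedAddCommGroup V] [NormedSpace ℂ V]
    [NormedAddCommGroup W] [NormedSpace ℂ W] {U : Set V} (hU : IsOpen U)
    {F : V → W} (hF : DifferentiableOn ℂ F U) {z : V} {r B : ℝ} (hr : 0 < r)
    (hz : Metric.closedBall z r ⊆ U) (hB : ∀ x ∈ Metric.closedBall z r, ‖F x‖ ≤ B) :
    ‖fderiv ℂ F z‖ ≤ B / r := by
  have hB0 : 0 ≤ B := (norm_nonneg _).trans (hB z (Metric.mem_closedBall_self hr.le))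
  have hzU : z ∈ U := hz (Metric.mem_closedBall_self hr.le)
  refine ContinuousLinearMap.opNorm_le_bound _ (by positivity) fun v => ?_
  rcases eq_or_ne v 0 with rfl | hv
  · simp
  have hv' : 0 < ‖v‖ := norm_pos_iff.2 hv
  have hρ : 0 < r / ‖v‖ := by positivity
  have hmem : ∀ ζ ∈ Metric.closedBall (0 : ℂ) (r / ‖v‖), z + ζ • v ∈ Metric.closedBall z r := by
    intro ζ hζ
    rw [mem_closedBall_zero_iff] at hζ
    rw [mem_closedBall_iff_norm, add_sub_cancel_left, norm_smul]
    exact (le_div_iff₀ hv').1 hζ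
  have hd : DiffContOnCl ℂ (fun ζ : ℂ => F (z + ζ • v)) (Metric.ball 0 (r / ‖v‖)) := by
    apply DifferentiableOn.diffContOnCl_ball
    swap
    · exact Subset.rfl
    · exact (c1_slice hU hF z v).mono fun ζ hζ => hz (hmem ζ hζ)
  have h1 := Complex.norm_deriv_le_of_forall_mem_sphere_norm_le hρ hd
    (C := B) (fun ζ hζ => hB _ (hmem ζ (Metric.sphere_subset_closedBall hζ)))
  rw [c1_slice_deriv z v ((hF z hzU).differentiableAt (hU.mem_nhds hzU))] at h1
  calc ‖(fderiv ℂ F z) v‖ ≤ B / (r / ‖v‖) := h1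
    _ = B / r * ‖v‖ := by field_simp

theorem c1_formula {V W : Type*} [NormedAddCommGroup V] [NormedSpace ℂ V]
    [NormedAddCommGroup W] [NormedSpace ℂ W] [CompleteSpace W] {U : Set V} (hU : IsOpen U)
    {F : V → W} (hF : DifferentiableOn ℂ F U) {z v : V}
    (hz : Metric.closedBall z ‖v‖ ⊆ U) :
    fderiv ℂ F z v = (2 * Real.pi * Complex.I : ℂ)⁻¹ •
      ∮ ζ in C(0, 1), ((ζ - 0) ^ 2)⁻¹ • F (z + ζ • v) := by
  have hzU : z ∈ U := hz (Metric.mem_closedBall_self (norm_nonneg _))
  have hopen : IsOpen {ζ : ℂ | z + ζ • v ∈ U} := by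
    have : Continuous (fun ζ : ℂ => z + ζ • v) := by fun_prop
    exact hU.preimage this
  have hsub : Metric.closedBall (0 : ℂ) 1 ⊆ {ζ : ℂ | z + ζ • v ∈ U} := by
    intro ζ hζ
    rw [mem_closedBall_zero_iff] at hζ
    apply hz
    rw [mem_closedBall_iff_norm, add_sub_cancel_left, norm_smul]
    exact mul_le_of_le_one_left (norm_nonneg _) hζ
  rw [Complex.two_pi_I_inv_smul_circleIntegral_sub_sq_inv_smul_of_differentiable hopen hsub
    (c1_slice hU hF z v) (by simp),
    c1_slice_deriv z v ((hF z hzU).differentiableAt (hU.mem_nhds hzU))]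

theorem c1_apply {V W : Type*} [NormedAddCommGroup V] [NormedSpace ℂ V] [FiniteDimensional ℂ V]
    [NormedAddCommGroup W] [NormedSpace ℂ W] [FiniteDimensional ℂ W] {U : Set V} (hU : IsOpen U)
    {F : V → W} (hF : DifferentiableOn ℂ F U) {z₀ v : V} {r : ℝ} (hr : 0 < r)
    (hz : Metric.closedBall z₀ (3 * r) ⊆ U) (hv : ‖v‖ ≤ r) :
    DifferentiableAt ℂ (fun z => fderiv ℂ F z v) z₀ := by
  have : ProperSpace V := FiniteDimensional.proper ℂ V
  have : CompleteSpace W := FiniteDimensional.complete ℂ W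
  have : ProperSpace (V →L[ℂ] W) := FiniteDimensional.proper ℂ _
  obtain ⟨B, hB⟩ := (isCompact_closedBall z₀ (3 * r)).exists_bound_of_continuousOn
    (hF.continuousOn.mono hz)
  borelize V
  borelize W
  -- the integrand
  let G : V → ℝ → W := fun z θ =>
    deriv (circleMap 0 1) θ • ((circleMap (0 : ℂ) 1 θ - 0) ^ 2)⁻¹ • F (z + circleMap 0 1 θ • v)
  let G' : V → ℝ → (V →L[ℂ] W) := fun z θ =>
    deriv (circleMap 0 1) θ • ((circleMap (0 : ℂ) 1 θ - 0) ^ 2)⁻¹ •
      fderiv ℂ F (z + circleMap 0 1 θ • v)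
  have hc1 : ∀ θ : ℝ, ‖circleMap (0 : ℂ) 1 θ‖ = 1 := by
    intro θ; simp
  have hmem : ∀ z ∈ Metric.ball z₀ r, ∀ θ : ℝ,
      z + circleMap 0 1 θ • v ∈ Metric.closedBall z₀ (2 * r) := by
    intro z hz' θ
    rw [mem_ball_iff_norm] at hz'
    rw [mem_closedBall_iff_norm]
    calc ‖z + circleMap 0 1 θ • v - z₀‖ = ‖(z - z₀) + circleMap 0 1 θ • v‖ := by
          congr 1; abel
      _ ≤ ‖z - z₀‖ + ‖circleMap 0 1 θ • v‖ := norm_add_le _ _
      _ ≤ r + 1 * r := by
          rw [norm_smul, hc1]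
          gcongr
      _ = 2 * r := by ring
  have hmemU : ∀ z ∈ Metric.ball z₀ r, ∀ θ : ℝ, z + circleMap 0 1 θ • v ∈ U := fun z hz' θ =>
    hz (Metric.closedBall_subset_closedBall (by linarith) (hmem z hz' θ))
  have hcm : Continuous (circleMap (0 : ℂ) 1) := continuous_circleMap 0 1
  have hdcm : Continuous (deriv (circleMap (0 : ℂ) 1)) := by
    have : deriv (circleMap (0 : ℂ) 1) = fun θ => circleMap 0 1 θ * Complex.I := by
      funext θ; simp
    rw [this]
    exact hcm.mul continuous_const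
  have hinv : Continuous (fun θ : ℝ => ((circleMap (0 : ℂ) 1 θ - 0) ^ 2)⁻¹) := by
    apply Continuous.inv₀ (by fun_prop)
    intro θ
    have : circleMap (0 : ℂ) 1 θ ≠ 0 := by
      intro h
      have := hc1 θ
      rw [h] at this
      simp at this
    rw [sub_zero]
    exact pow_ne_zero 2 this
  have hGcont : ∀ z ∈ Metric.ball z₀ r, Continuous (G z) := by
    intro z hz'
    refine hdcm.smul (hinv.smul ?_)
    have h1 : Continuous (fun θ : ℝ => z + circleMap 0 1 θ • v) :=
      continuous_const.add (hcm.smul continuous_const)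
    exact hF.continuousOn.comp_continuous h1 (hmemU z hz')
  have hF'meas : AEStronglyMeasurable (G' z₀) (volume.restrict (Set.uIoc 0 (2 * Real.pi))) := by
    have h1 : Measurable (fderiv ℂ F) := measurable_fderiv ℂ F
    have h2 : Continuous (fun θ : ℝ => z₀ + circleMap 0 1 θ • v) :=
      continuous_const.add (hcm.smul continuous_const)
    have h3 : Measurable (fun θ : ℝ => fderiv ℂ F (z₀ + circleMap 0 1 θ • v)) :=
      h1.comp h2.measurable
    have h4 : StronglyMeasurable (fun θ : ℝ => fderiv ℂ F (z₀ + circleMap 0 1 θ • v)) :=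
      h3.stronglyMeasurable
    exact ((hdcm.stronglyMeasurable.smul (hinv.stronglyMeasurable.smul h4))).aestronglyMeasurable
  have hkey := intervalIntegral.hasFDerivAt_integral_of_dominated_of_fderiv_le (𝕜 := ℂ)
    (μ := volume) (a := 0) (b := 2 * Real.pi) (F := G) (F' := G') (x₀ := z₀)
    (s := Metric.ball z₀ r) (bound := fun _ => B / r)
    (Metric.ball_mem_nhds z₀ hr)
    (Filter.eventually_of_mem (Metric.ball_mem_nhds z₀ hr)
      fun z hz' => (hGcont z hz').aestronglyMeasurable)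
    ((hGcont z₀ (Metric.mem_ball_self hr)).intervalIntegrable _ _)
    hF'meas
    (Filter.Eventually.of_forall fun θ _ z hz' => by
      have hx := hmem z hz' θ
      have h1 : ‖fderiv ℂ F (z + circleMap 0 1 θ • v)‖ ≤ B / r := by
        have hsub : Metric.closedBall (z + circleMap 0 1 θ • v) r ⊆ Metric.closedBall z₀ (3 * r) := by
          apply Metric.closedBall_subset_closedBall'
          rw [Metric.mem_closedBall] at hx
          linarith
        exact c1_cauchy hU hF hr (hsub.trans hz) fun x hx => hB x (hsub hx)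
      show ‖deriv (circleMap 0 1) θ • ((circleMap (0 : ℂ) 1 θ - 0) ^ 2)⁻¹ •
        fderiv ℂ F (z + circleMap 0 1 θ • v)‖ ≤ B / r
      rw [norm_smul, norm_smul]
      have h2 : ‖deriv (circleMap (0 : ℂ) 1) θ‖ = 1 := by simp
      have h3 : ‖((circleMap (0 : ℂ) 1 θ - 0) ^ 2)⁻¹‖ = 1 := by
        rw [norm_inv, norm_pow, sub_zero, hc1]; simp
      rw [h2, h3, one_mul, one_mul]
      exact h1)
    (intervalIntegrable_const)
    (Filter.Eventually.of_forall fun θ _ z hz' => by
      have hx := hmemU z hz' θ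
      have h1 : HasFDerivAt F (fderiv ℂ F (z + circleMap 0 1 θ • v)) (z + circleMap 0 1 θ • v) :=
        ((hF _ hx).differentiableAt (hU.mem_nhds hx)).hasFDerivAt
      have h2 : HasFDerivAt (fun z => F (z + circleMap 0 1 θ • v))
          (fderiv ℂ F (z + circleMap 0 1 θ • v)) z := by
        have h3 : HasFDerivAt (fun z : V => z + circleMap 0 1 θ • v)
            (ContinuousLinearMap.id ℂ V) z := (hasFDerivAt_id z).add_const _
        have := HasFDerivAt.comp z h1 h3
        rw [ContinuousLinearMap.comp_id] at this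
        exact this
      exact (h2.const_smul _).const_smul _)
  have hd : DifferentiableAt ℂ (fun z => (2 * Real.pi * Complex.I : ℂ)⁻¹ •
      ∮ ζ in C(0, 1), ((ζ - 0) ^ 2)⁻¹ • F (z + ζ • v)) z₀ :=
    (hkey.const_smul ((2 * Real.pi * Complex.I : ℂ)⁻¹)).differentiableAt
  refine hd.congr_of_eventuallyEq ?_
  refine Filter.eventually_of_mem (Metric.ball_mem_nhds z₀ hr) fun z hz' => ?_
  apply c1_formula hU hF
  refine Subset.trans ?_ hz
  apply Metric.closedBall_subset_closedBall'
  rw [Metric.mem_ball] at hz'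
  linarith

theorem hol_fderiv {V W : Type*} [NormedAddCommGroup V] [NormedSpace ℂ V] [FiniteDimensional ℂ V]
    [NormedAddCommGroup W] [NormedSpace ℂ W] [FiniteDimensional ℂ W] {U : Set V} (hU : IsOpen U)
    {F : V → W} (hF : DifferentiableOn ℂ F U) : DifferentiableOn ℂ (fderiv ℂ F) U := by
  intro z₀ hz₀
  apply DifferentiableAt.differentiableWithinAt
  obtain ⟨R, hR, hRU⟩ := Metric.nhds_basis_closedBall.mem_iff.1 (hU.mem_nhds hz₀)
  have hr : 0 < R / 3 := by positivity
  have hsub : Metric.closedBall z₀ (3 * (R / 3)) ⊆ U := by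
    rwa [mul_div_cancel₀ _ (by norm_num : (3 : ℝ) ≠ 0)]
  have happ : ∀ v : V, DifferentiableAt ℂ (fun z => fderiv ℂ F z v) z₀ := by
    intro v
    rcases eq_or_ne v 0 with rfl | hv
    · simp
    have hv' : 0 < ‖v‖ := norm_pos_iff.2 hv
    have hc : ((R / 3 / ‖v‖ : ℝ) : ℂ) ≠ 0 := by
      exact_mod_cast (by positivity : R / 3 / ‖v‖ ≠ 0)
    have h1 : DifferentiableAt ℂ (fun z => fderiv ℂ F z (((R / 3 / ‖v‖ : ℝ) : ℂ) • v)) z₀ := by
      apply c1_apply hU hF hr hsub
      rw [norm_smul, Complex.norm_real, Real.norm_of_nonneg (by positivity)]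
      exact le_of_eq (by field_simp)
    have h2 := h1.const_smul (((R / 3 / ‖v‖ : ℝ) : ℂ)⁻¹)
    refine h2.congr_of_eventuallyEq (Filter.Eventually.of_forall fun z => ?_)
    simp only [map_smul, Pi.smul_apply]
    rw [smul_smul, inv_mul_cancel₀ hc, one_smul]
  let b := Module.finBasis ℂ V
  have hexp : fderiv ℂ F = fun z => ∑ i, (LinearMap.toContinuousLinearMap (b.coord i)).smulRight
      (fderiv ℂ F z (b i)) := by
    funext z
    ext v
    rw [sum_apply]
    simp only [ContinuousLinearMap.smulRight_apply, LinearMap.coe_toContinuousLinearMap',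
      Module.Basis.coord_apply]
    conv_lhs => rw [← b.sum_repr v, map_sum]
    simp
  rw [hexp]
  apply DifferentiableAt.fun_sum
  intro i _
  exact ((ContinuousLinearMap.smulRightL ℂ V W
    (LinearMap.toContinuousLinearMap (b.coord i))).differentiableAt).comp z₀ (happ (b i))

theorem c1_nat.{u, v} (n : ℕ) : ∀ {V : Type u} {W : Type (max u v)} [NormedAddCommGroup V]
    [NormedSpace ℂ V] [FiniteDimensional ℂ V] [NormedAddCommGroup W] [NormedSpace ℂ W]
    [FiniteDimensional ℂ W] {U : Set V} (_ : IsOpen U) {F : V → W} (_ : DifferentiableOn ℂ F U),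
    ContDiffOn ℂ n F U := by
  induction n with
  | zero =>
    intro V W _ _ _ _ _ _ U hU F hF
    exact contDiffOn_zero.2 hF.continuousOn
  | succ n ih =>
    intro V W _ _ _ _ _ _ U hU F hF
    have h : ((n + 1 : ℕ) : WithTop ℕ∞) = (n : WithTop ℕ∞) + 1 := by push_cast; rfl
    rw [h, contDiffOn_succ_iff_fderiv_of_isOpen hU]
    exact ⟨hF, fun h => absurd h (by simp), ih hU (hol_fderiv hU hF)⟩

theorem hol_contDiffOn {V W : Type*} [NormedAddCommGroup V] [NormedSpace ℂ V]
    [FiniteDimensional ℂ V] [NormedAddCommGroup W] [NormedSpace ℂ W] [FiniteDimensional ℂ W]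
    {U : Set V} (hU : IsOpen U) {F : V → W} (hF : DifferentiableOn ℂ F U) :
    ContDiffOn ℂ (⊤ : ℕ∞) F U := by
  have h := contDiffOn_infty.2 fun n => c1_nat n hU (hol_fderiv hU hF)
  exact (contDiffOn_infty_iff_fderiv_of_isOpen hU).2 ⟨hF, h⟩

end Pool.Agent.LRT
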