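import Pool.Agent.LRT.C9

/-!
C10 (difficulty 3).  Identity (2): the error after a correction.

PROOF.  Put `t = th b u z`, `V = vel H b u z`, `du = duf b u db dv`, `dq = gb db z.2 + gx du z`,
`ζ = Ring.inverse (hess b z.2) (gw (err H b u) z)`.
`du` is differentiable at `z`: `dv` at `(t, z.2)` (open set `D ρ₁ R₁`), `th b u`, `gv b u` at `z`,
`gb db` at `z.2 ∈ Dw ρ₁ R₁` (`gb_hol`).
`qv (b+db) (u+du) z = q + dq`: `fderiv` of sums (`b` and `db` differentiable at `z.2`, `u` and `du` at `z`).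
Direction `(V, 0)`:
`fderiv du z (V, 0) = fderiv dv (t, z.2) (V + fderiv (gv b u) z (V,0), 0) + dot (fderiv (gv b u) z (V,0)) (gb db z.2)`
(`z ↦ gb db z.2` is constant in the direction `(V,0)`), and by C9 `V + fderiv (gv b u) z (V,0) = z.2 + ζ`:
`dot V (gx du z) = dot (gx dv (t,z.2)) (z.2 + ζ) + dot (z.2 + ζ - V) (gb db z.2)`.
Hence `dot V dq - dot z.2 (gb db z.2) = dot (gx dv (t,z.2)) z.2 + dot ζ (gx dv (t,z.2) + gb db z.2)` and
`err⁺ = H (z.1, q+dq) - dot z.2 (gb b z.2 + gb db z.2) + b z.2 + db z.2` gives the formula.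
-/

set_option autoImplicit false

open Set MeasureTheory Topology

namespace Pool.Agent.LRT

variable {n : ℕ} {κ ρ R CH : ℝ} {H : CE n × CE n → ℂ} {b : CE n → ℂ} {u : CE n × CE n → ℂ}

private theorem c10_has (h : NS κ ρ R CH H b u) {ρ₁ R₁ : ℝ} {db : CE n → ℂ} {dv : CE n × CE n → ℂ}
    (hdb : DifferentiableOn ℂ db (Dw ρ₁ R₁)) (hdv : DifferentiableOn ℂ dv (D ρ₁ R₁))
    {z : CE n × CE n} (hz : z ∈ (D ρ R : Set (CE n × CE n)))
    (hz' : (th b u z, z.2) ∈ (D ρ₁ R₁ : Set (CE n × CE n))) :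
    HasFDerivAt (duf b u db dv)
      ((fderiv ℂ dv (th b u z, z.2)).comp
        ((ContinuousLinearMap.fst ℂ (CE n) (CE n) + fderiv ℂ (gv b u) z).prod
          (ContinuousLinearMap.snd ℂ (CE n) (CE n))) +
        (((dotB (gv b u z)).comp ((fderiv ℂ (gb db) z.2).comp (ContinuousLinearMap.snd ℂ (CE n) (CE n))) +
          ((dotB (n := n)).comp (fderiv ℂ (gv b u) z)).flip (gb db z.2)))) z := by
  have hw' : z.2 ∈ (Dw ρ₁ R₁ : Set (CE n)) := ⟨hz'.2.1, hz'.2.2⟩
  have hgv : HasFDerivAt (gv b u) (fderiv ℂ (gv b u) z) z :=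
    (h.gv_hol.differentiableAt ((isOpen_D ρ R).mem_nhds hz)).hasFDerivAt
  have hth : HasFDerivAt (fun y : CE n × CE n => (th b u y, y.2))
      ((ContinuousLinearMap.fst ℂ (CE n) (CE n) + fderiv ℂ (gv b u) z).prod
          (ContinuousLinearMap.snd ℂ (CE n) (CE n))) z :=
    (hasFDerivAt_fst.add hgv).prodMk hasFDerivAt_snd
  have hdv' : HasFDerivAt dv (fderiv ℂ dv (th b u z, z.2)) (th b u z, z.2) :=
    (hdv.differentiableAt ((isOpen_D ρ₁ R₁).mem_nhds hz')).hasFDerivAt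
  have hgb0 : HasFDerivAt (gb db) (fderiv ℂ (gb db) z.2) z.2 :=
    ((gb_hol hdb).1.differentiableAt ((isOpen_Dw ρ₁ R₁).mem_nhds hw')).hasFDerivAt
  have hgb : HasFDerivAt (fun y : CE n × CE n => gb db y.2)
      ((fderiv ℂ (gb db) z.2).comp (ContinuousLinearMap.snd ℂ (CE n) (CE n))) z :=
    hgb0.comp z hasFDerivAt_snd
  have hc : HasFDerivAt (fun y : CE n × CE n => dotB (gv b u y)) ((dotB (n := n)).comp (fderiv ℂ (gv b u) z)) z :=
    (dotB (n := n)).hasFDerivAt.comp z hgv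
  exact (hdv'.comp z hth).add (hc.clm_apply hgb)

theorem NS.duf_diff (h : NS κ ρ R CH H b u) {ρ₁ R₁ : ℝ} {db : CE n → ℂ} {dv : CE n × CE n → ℂ}
    (hdb : DifferentiableOn ℂ db (Dw ρ₁ R₁)) (hdv : DifferentiableOn ℂ dv (D ρ₁ R₁))
    {z : CE n × CE n} (hz : z ∈ (D ρ R : Set (CE n × CE n)))
    (hz' : (th b u z, z.2) ∈ (D ρ₁ R₁ : Set (CE n × CE n))) :
    DifferentiableAt ℂ (duf b u db dv) z :=
  (c10_has h hdb hdv hz hz').differentiableAt

theorem NS.ident2 (h : NS κ ρ R CH H b u) {ρ₁ R₁ : ℝ} {db : CE n → ℂ} {dv : CE n × CE n → ℂ}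
    (hdb : DifferentiableOn ℂ db (Dw ρ₁ R₁)) (hdv : DifferentiableOn ℂ dv (D ρ₁ R₁))
    {z : CE n × CE n} (hz : z ∈ (D ρ R : Set (CE n × CE n)))
    (hz' : (th b u z, z.2) ∈ (D ρ₁ R₁ : Set (CE n × CE n))) {dq : CE n}
    (hdq : dq = gb db z.2 + gx (duf b u db dv) z) :
    qv (fun w => b w + db w) (fun z => u z + duf b u db dv z) z = qv b u z + dq ∧
    err H (fun w => b w + db w) (fun z => u z + duf b u db dv z) z =
      err H b u z + (dot (gx dv (th b u z, z.2)) z.2 + db z.2) +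
      dot (Ring.inverse (hess b z.2) (gw (err H b u) z)) (gx dv (th b u z, z.2) + gb db z.2) +
      (H (z.1, qv b u z + dq) - H (z.1, qv b u z) - dot (vel H b u z) dq) := by
  have hw : z.2 ∈ (Dw ρ R : Set (CE n)) := ⟨hz.2.1, hz.2.2⟩
  have hw' : z.2 ∈ (Dw ρ₁ R₁ : Set (CE n)) := ⟨hz'.2.1, hz'.2.2⟩
  have d1 : DifferentiableAt ℂ b z.2 := h.bd.differentiableAt ((isOpen_Dw ρ R).mem_nhds hw)
  have d2 : DifferentiableAt ℂ db z.2 := hdb.differentiableAt ((isOpen_Dw ρ₁ R₁).mem_nhds hw')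
  have d3 : DifferentiableAt ℂ u z := h.ud.differentiableAt ((isOpen_D ρ R).mem_nhds hz)
  have d4 : DifferentiableAt ℂ (duf b u db dv) z := h.duf_diff hdb hdv hz hz'
  have e1 : gb (fun w => b w + db w) z.2 = gb b z.2 + gb db z.2 := by
    unfold gb
    rw [fderiv_fun_add d1 d2, map_add]
  have e2 : gx (fun z => u z + duf b u db dv z) z = gx u z + gx (duf b u db dv) z := by
    unfold gx
    rw [fderiv_fun_add d3 d4, ContinuousLinearMap.add_comp, map_add]
  have e3 : qv (fun w => b w + db w) (fun z => u z + duf b u db dv z) z = qv b u z + dq := by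
    unfold qv
    rw [e1, e2, hdq]
    abel
  refine ⟨e3, ?_⟩
  have hid := h.ident1 hz
  set V := vel H b u z with hV
  set ζ := Ring.inverse (hess b z.2) (gw (err H b u) z) with hζ
  have hf : fderiv ℂ (duf b u db dv) z (V, 0) =
      dot (gx dv (th b u z, z.2)) (z.2 + ζ) + dot (z.2 + ζ - V) (gb db z.2) := by
    rw [(c10_has h hdb hdv hz hz').fderiv, dot_gx, ← hid]
    simp only [ContinuousLinearMap.add_apply, ContinuousLinearMap.comp_apply,
      ContinuousLinearMap.prod_apply, ContinuousLinearMap.coe_fst', ContinuousLinearMap.coe_snd',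
      ContinuousLinearMap.flip_apply, map_zero, dotB_apply, zero_add, add_sub_cancel_left]
  have e4 : dot V dq = dot V (gb db z.2) + fderiv ℂ (duf b u db dv) z (V, 0) := by
    rw [hdq, dot_add, dot_comm V (gx _ _), dot_gx]
  rw [hf, dot_add, sub_dot, add_dot] at e4
  have e5 : err H (fun w => b w + db w) (fun z => u z + duf b u db dv z) z =
      H (z.1, qv b u z + dq) - (dot z.2 (gb b z.2) + dot z.2 (gb db z.2)) + (b z.2 + db z.2) := by
    unfold err
    rw [e3, e1, dot_add]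
  rw [e5, dot_add ζ, dot_comm ζ (gx dv _), e4]
  unfold err
  ring

end Pool.Agent.LRT
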