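import Pool.Agent.LRT.CD

/-!
C3 (difficulty 2).  The two constants theorem on a rectangle.

PROOF.  Put `L = log (E / A) ≥ 0`, `μ = 4 L / (3 l^2)`, `N = 8 L / (3 l)` and
`G z = g z * exp (I * N * z - μ * z^2)`.  For `z = x + i y`:
`‖exp (I N z - μ z^2)‖ = exp (-N y - μ (x^2 - y^2))`.
On the frontier of the rectangle `|x| ≤ l, 0 ≤ y ≤ l/2` one has `‖G‖ ≤ A`:
* `y = 0`: `‖g‖ ≤ A` and `exp (-μ x^2) ≤ 1`;
* `|x| = l`: `x^2 - y^2 ≥ 3 l^2 / 4`, so the factor is `≤ exp (-L) = A / E`;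
* `y = l/2`: the factor is `≤ exp (-4L/3 + μ l^2/4) = exp (-4L/3 + L/3) = exp (-L)`.
Maximum principle: `Complex.norm_le_of_forall_mem_frontier_norm_le` (bounded set
`(Ioo (-l) l) ×ℂ (Ioo 0 (l/2))`, `DiffContOnCl`; closure and frontier: `closure_reProdIm`,
`frontier_reProdIm`).  At `z = i y`, `0 ≤ y ≤ l/8`: `‖g z‖ ≤ A exp (N y - μ y^2) ≤ A exp (L/3) ≤ A exp (L/2)
= √(A E)`.
-/

set_option autoImplicit false

open Set MeasureTheory Topology

namespace Pool.Agent.LRT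

theorem rect_bound {g : ℂ → ℂ} {l A E y : ℝ} (hl : 0 < l) (hA : 0 < A) (hAE : A ≤ E)
    (hc : ContinuousOn g {z | |z.re| ≤ l ∧ 0 ≤ z.im ∧ z.im ≤ l / 2})
    (hd : DifferentiableOn ℂ g {z | |z.re| < l ∧ 0 < z.im ∧ z.im < l / 2})
    (hE : ∀ z : ℂ, |z.re| ≤ l → 0 ≤ z.im → z.im ≤ l / 2 → ‖g z‖ ≤ E)
    (hA' : ∀ x : ℝ, |x| ≤ l → ‖g x‖ ≤ A) (hy0 : 0 ≤ y) (hy : y ≤ l / 8) :
    ‖g (y * Complex.I)‖ ≤ √(A * E) := by
  obtain ⟨L, hL⟩ : ∃ L : ℝ, L = Real.log (E / A) := ⟨_, rfl⟩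
  have hE0 : 0 < E := hA.trans_le hAE
  have hL0 : 0 ≤ L := hL ▸ Real.log_nonneg (by rw [le_div_iff₀ hA]; linarith)
  have hexpL : Real.exp L = E / A := by rw [hL]; exact Real.exp_log (by positivity)
  have hexpL' : E * Real.exp (-L) = A := by
    rw [Real.exp_neg, hexpL]
    field_simp
  obtain ⟨μ, hμ⟩ : ∃ μ : ℝ, μ = 4 * L / (3 * l ^ 2) := ⟨_, rfl⟩
  obtain ⟨N, hN⟩ : ∃ N : ℝ, N = 8 * L / (3 * l) := ⟨_, rfl⟩
  have hμ0 : 0 ≤ μ := by rw [hμ]; positivity
  have hN0 : 0 ≤ N := by rw [hN]; positivity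
  have hμl : μ * l ^ 2 = 4 * L / 3 := by rw [hμ]; field_simp
  have hNl : N * l = 8 * L / 3 := by rw [hN]; field_simp
  obtain ⟨G, hG⟩ : ∃ G : ℂ → ℂ,
      G = fun z => g z * Complex.exp (Complex.I * N * z - μ * z ^ 2) := ⟨_, rfl⟩
  have hGn : ∀ z : ℂ, ‖G z‖ = ‖g z‖ * Real.exp (-(N * z.im) - μ * (z.re ^ 2 - z.im ^ 2)) := by
    intro z
    rw [hG]
    simp only
    rw [norm_mul, Complex.norm_exp]
    congr 2
    simp [pow_two]
  obtain ⟨U, hU⟩ : ∃ U : Set ℂ, U = Ioo (-l) l ×ℂ Ioo 0 (l / 2) := ⟨_, rfl⟩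
  have hclU : closure U = Icc (-l) l ×ℂ Icc 0 (l / 2) := by
    rw [hU, Complex.closure_reProdIm, closure_Ioo (by linarith), closure_Ioo (by linarith)]
  have hfrU : frontier U = Icc (-l) l ×ℂ {0, l / 2} ∪ {-l, l} ×ℂ Icc 0 (l / 2) := by
    rw [hU, Complex.frontier_reProdIm, closure_Ioo (by linarith), closure_Ioo (by linarith),
      frontier_Ioo (by linarith), frontier_Ioo (by linarith)]
  have hbd : Bornology.IsBounded U := by
    rw [hU]
    exact (Metric.isBounded_Ioo _ _).reProdIm (Metric.isBounded_Ioo _ _)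
  have hexpd : Differentiable ℂ fun z : ℂ => Complex.exp (Complex.I * N * z - μ * z ^ 2) := by
    fun_prop
  have hdc : DiffContOnCl ℂ G U := by
    refine ⟨?_, ?_⟩
    · rw [hG]
      refine DifferentiableOn.mul (hd.mono ?_) hexpd.differentiableOn
      intro z hz
      rw [hU, Complex.mem_reProdIm] at hz
      exact ⟨abs_lt.2 hz.1, hz.2.1, hz.2.2⟩
    · rw [hG, hclU]
      refine ContinuousOn.mul (hc.mono ?_) hexpd.continuous.continuousOn
      intro z hz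
      rw [Complex.mem_reProdIm] at hz
      exact ⟨abs_le.2 hz.1, hz.2.1, hz.2.2⟩
  have hfac : ∀ z : ℂ, |z.re| ≤ l → 0 ≤ z.im → z.im ≤ l / 2 →
      -(N * z.im) - μ * (z.re ^ 2 - z.im ^ 2) ≤ -L → ‖G z‖ ≤ A := by
    intro z h1 h2 h3 h4
    rw [hGn, ← hexpL']
    exact mul_le_mul (hE z h1 h2 h3) (Real.exp_le_exp.2 h4) (Real.exp_pos _).le hE0.le
  have hfr : ∀ z ∈ frontier U, ‖G z‖ ≤ A := by
    intro z hz
    rw [hfrU] at hz
    rcases hz with hz | hz
    · rw [Complex.mem_reProdIm] at hz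
      obtain ⟨h1, h2⟩ := hz
      rcases h2 with h2 | h2
      · have hz' : z = ((z.re : ℝ) : ℂ) := by
          apply Complex.ext <;> simp [h2]
        rw [hGn, h2]
        have h3 : ‖g z‖ ≤ A := by
          rw [hz']; exact hA' _ (abs_le.2 h1)
        have h4 : Real.exp (-(N * 0) - μ * (z.re ^ 2 - 0 ^ 2)) ≤ 1 := by
          rw [Real.exp_le_one_iff]
          nlinarith [mul_nonneg hμ0 (sq_nonneg z.re)]
        calc ‖g z‖ * Real.exp (-(N * 0) - μ * (z.re ^ 2 - 0 ^ 2)) ≤ A * 1 :=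
              mul_le_mul h3 h4 (Real.exp_pos _).le hA.le
          _ = A := mul_one A
      · have h2' : z.im = l / 2 := h2
        refine hfac z (abs_le.2 h1) (by rw [h2']; positivity) (by rw [h2']) ?_
        rw [h2']
        nlinarith [mul_nonneg hμ0 (sq_nonneg z.re)]
    · rw [Complex.mem_reProdIm] at hz
      obtain ⟨h1, h2⟩ := hz
      have h3 : z.re ^ 2 = l ^ 2 := by
        rcases h1 with h1 | h1
        · rw [h1]; ring
        · have h1' : z.re = l := h1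
          rw [h1']
      have h4 : |z.re| ≤ l := by
        rcases h1 with h1 | h1
        · rw [h1, abs_neg, abs_of_pos hl]
        · have h1' : z.re = l := h1
          rw [h1', abs_of_pos hl]
      refine hfac z h4 h2.1 h2.2 ?_
      rw [h3]
      have h5 : z.im ^ 2 ≤ (l / 2) ^ 2 := pow_le_pow_left₀ h2.1 h2.2 2
      nlinarith [mul_le_mul_of_nonneg_left h5 hμ0, mul_nonneg hN0 h2.1]
  have hyU : (y * Complex.I : ℂ) ∈ closure U := by
    rw [hclU, Complex.mem_reProdIm]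
    refine ⟨?_, ?_⟩
    · simp [hl.le]
    · simp only [Complex.mul_im, Complex.ofReal_re, Complex.I_im, mul_one, Complex.ofReal_im,
        Complex.I_re, mul_zero, add_zero]
      exact ⟨hy0, by linarith⟩
  have hmain := Complex.norm_le_of_forall_mem_frontier_norm_le hbd hdc hfr hyU
  rw [hGn] at hmain
  have e1 : (y * Complex.I : ℂ).im = y := by simp
  have e2 : (y * Complex.I : ℂ).re = 0 := by simp
  rw [e1, e2] at hmain
  have h1 : ‖g (y * Complex.I)‖ ≤ A * Real.exp (N * y - μ * y ^ 2) := by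
    have h2 : ‖g (y * Complex.I)‖ = ‖g (y * Complex.I)‖ *
        Real.exp (-(N * y) - μ * (0 ^ 2 - y ^ 2)) * Real.exp (N * y - μ * y ^ 2) := by
      rw [mul_assoc, ← Real.exp_add]
      have : -(N * y) - μ * (0 ^ 2 - y ^ 2) + (N * y - μ * y ^ 2) = 0 := by ring
      rw [this, Real.exp_zero, mul_one]
    rw [h2]
    exact mul_le_mul_of_nonneg_right hmain (Real.exp_pos _).le
  have h3 : N * y - μ * y ^ 2 ≤ L / 2 := by
    have : N * y ≤ N * (l / 8) := mul_le_mul_of_nonneg_left hy hN0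
    nlinarith [mul_nonneg hμ0 (sq_nonneg y)]
  have h4 : A * Real.exp (L / 2) = √(A * E) := by
    symm
    rw [Real.sqrt_eq_iff_mul_self_eq (by positivity) (by positivity)]
    have h5 : Real.exp (L / 2) * Real.exp (L / 2) = E / A := by
      rw [← Real.exp_add, ← hexpL]
      congr 1
      ring
    symm
    calc A * Real.exp (L / 2) * (A * Real.exp (L / 2))
        = A * A * (Real.exp (L / 2) * Real.exp (L / 2)) := by ring
      _ = A * A * (E / A) := by rw [h5]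
      _ = A * E := by field_simp
  calc ‖g (y * Complex.I)‖ ≤ A * Real.exp (N * y - μ * y ^ 2) := h1
    _ ≤ A * Real.exp (L / 2) := mul_le_mul_of_nonneg_left (Real.exp_le_exp.2 h3) hA.le
    _ = √(A * E) := h4

end Pool.Agent.LRT
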