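import Pool.Agent.LRT.C2
import Pool.Agent.LRT.C3

/-!
C6 (difficulty 2).  Division by `m·w`, and the resonant part in the complex domain.

PROOF.
`Pm_mem`: `im (Pm m w) = im w - (⟨lat m, im w⟩/‖lat m‖²) lat m` is the orthogonal projection of `im w`
to `(lat m)^⊥`, so `‖im (Pm m w)‖ ≤ ‖im w‖`; the same for `re`.
`division`: `ε := ‖lat m‖ > 0`.  Put `q w = ∫ s in 0..1, fderiv ℂ g (Pm m w + s • (w - Pm m w)) (ofR (lat m)) / ε²`.
For `w ∈ Dw (ρ-d) (R-d)` the segment from `Pm m w` to `w` stays in `Dw (ρ-d) (R-d)` (convex), where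
`‖fderiv ℂ g‖ ≤ B/d` (`cauchy_fderiv`, `ball_subset_Dw`); `‖ofR (lat m)‖ = ε`, so `‖q w‖ ≤ B / (d ε)`.
`w - Pm m w = (dot (ofR (lat m)) w / ε²) • ofR (lat m)`; the fundamental theorem of calculus for
`s ↦ g (Pm m w + s • (w - Pm m w))` gives `dot (ofR (lat m)) w * q w = g w - g (Pm m w)`.
Differentiability of `q`: differentiate under the integral sign (`fderiv ℂ g` is differentiable,
`hol_fderiv`, with derivative continuous, bounded on compact sets).
`res_complex`: let `w ∈ Dw (ρ/16) (R-ρ)`, `p = Pm m w = a + i y`, `a = re p`, `y = im p`,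
`‖y‖ ≤ ρ/16`, `‖a‖ < R - ρ`, `⟨lat m, a⟩ = ⟨lat m, y⟩ = 0`.  If `E ≤ A`: `‖g p‖ ≤ E ≤ √(A E)`.
If `A < E` and `y = 0`: the real bound gives `‖g p‖ ≤ A ≤ √(A E)`.
If `y ≠ 0`: `e = y/‖y‖`, `γ z = g (ofR a + z • ofR e)`; for `|z.re| ≤ l := ρ/2`,
`0 ≤ z.im ≤ ρ/4` the point is in `Dw ρ R` (`im = z.im e`, `re = a + z.re e`), and for real `z = x`
it is `ofR (a + x e)` with `⟨lat m, a + x e⟩ = 0`, `‖a + x e‖ < R - ρ/2`.  `rect_bound` at
`‖y‖ ≤ l/8 = ρ/16`.
-/

set_option autoImplicit false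

open Set MeasureTheory Topology

namespace Pool.Agent.LRT

variable {n : ℕ}

theorem c6_ofR_smul (c : ℝ) (x : RE n) : ofR (c • x) = (c : ℂ) • ofR x := by
  ext i
  simp

theorem c6_rs (c : ℝ) (z : CE n) : c • z = (c : ℂ) • z := by
  ext i
  simp

/-- projection to the orthogonal complement -/
theorem c6_proj (a x : RE n) : ‖x - (inner ℝ a x / ‖a‖ ^ 2) • a‖ ≤ ‖x‖ := by
  by_cases ha : a = 0
  · rw [ha]
    simp
  · have h0 : 0 < ‖a‖ := norm_pos_iff.2 ha
    have h1 : ‖x - (inner ℝ a x / ‖a‖ ^ 2) • a‖ ^ 2 = ‖x‖ ^ 2 - inner ℝ a x ^ 2 / ‖a‖ ^ 2 := by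
      rw [norm_sub_sq_real, norm_smul, inner_smul_right, real_inner_comm a x, mul_pow, Real.norm_eq_abs, sq_abs]
      field_simp
      ring
    have h2 : 0 ≤ inner ℝ a x ^ 2 / ‖a‖ ^ 2 := by positivity
    exact le_of_sq_le_sq (by rw [h1]; linarith) (norm_nonneg _)

theorem c6_dot (a : RE n) (w : CE n) : dot (ofR a) w = ((inner ℝ a (re w) : ℝ) : ℂ) + Complex.I * ((inner ℝ a (im w) : ℝ) : ℂ) := by
  conv_lhs => rw [eq_re_im w]
  rw [dot_add, dot_smul, dot_ofR, dot_ofR]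

theorem c6_Pm (m : Fin n → ℤ) (w : CE n) :
    re (Pm m w) = re w - (inner ℝ (lat m) (re w) / ‖lat m‖ ^ 2) • lat m ∧
    im (Pm m w) = im w - (inner ℝ (lat m) (im w) / ‖lat m‖ ^ 2) • lat m := by
  have h : dot (ofR (lat m)) w / ((‖lat m‖ ^ 2 : ℝ) : ℂ) =
      ((inner ℝ (lat m) (re w) / ‖lat m‖ ^ 2 : ℝ) : ℂ) + Complex.I * ((inner ℝ (lat m) (im w) / ‖lat m‖ ^ 2 : ℝ) : ℂ) := by
    rw [c6_dot]
    push_cast
    ring
  unfold Pm
  rw [h]
  generalize (inner ℝ (lat m) (re w) / ‖lat m‖ ^ 2) = α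
  generalize (inner ℝ (lat m) (im w) / ‖lat m‖ ^ 2) = β
  constructor
  · ext i
    simp
  · ext i
    simp

theorem Pm_mem {ρ R : ℝ} {m : Fin n → ℤ} {w : CE n} (hw : w ∈ Dw ρ R) : Pm m w ∈ Dw ρ R := by
  obtain ⟨h1, h2⟩ := c6_Pm m w
  constructor
  · rw [h2]
    exact (c6_proj _ _).trans_lt hw.1
  · rw [h1]
    exact (c6_proj _ _).trans_lt hw.2

theorem c6_lat {m : Fin n → ℤ} (hm : m ≠ 0) : 0 < ‖lat m‖ := by
  rw [norm_pos_iff]
  intro h
  apply hm
  funext i
  have := congrArg (fun x : RE n => x i) h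
  simpa using this

theorem c6_dot_self (m : Fin n → ℤ) : dot (ofR (lat m)) (ofR (lat m)) = ((‖lat m‖ ^ 2 : ℝ) : ℂ) := by
  rw [dot_ofR, real_inner_self_eq_norm_sq]

theorem dot_Pm {m : Fin n → ℤ} (hm : m ≠ 0) (w : CE n) : dot (ofR (lat m)) (Pm m w) = 0 := by
  have h0 := c6_lat hm
  have h1 : ((‖lat m‖ ^ 2 : ℝ) : ℂ) ≠ 0 := by
    rw [Complex.ofReal_ne_zero]
    positivity
  unfold Pm
  rw [dot_sub, dot_smul, c6_dot_self, div_mul_cancel₀ _ h1, sub_self]

theorem Pm_cj (m : Fin n → ℤ) (w : CE n) : Pm m (cj w) = cj (Pm m w) := by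
  have h : dot (ofR (lat m)) (cj w) = (starRingEnd ℂ) (dot (ofR (lat m)) w) := by
    rw [← dot_cj, cj_ofR]
  unfold Pm
  rw [h]
  ext i
  simp

theorem Pm_neg (m : Fin n → ℤ) (w : CE n) : Pm (-m) w = Pm m w := by
  have h1 : lat (-m) = -lat m := by
    ext i
    simp
  have h2 : ofR (-lat m) = (-1 : ℂ) • ofR (lat m) := by
    ext i
    simp
  unfold Pm
  rw [h1, norm_neg, h2, smul_dot]
  ext i
  simp
  ring

/-- the projection as a linear map -/
noncomputable def c6_P (m : Fin n → ℤ) : CE n →L[ℂ] CE n :=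
  ContinuousLinearMap.id ℂ (CE n) - (dotL (ofR (lat m))).smulRight ((((‖lat m‖ ^ 2 : ℝ) : ℂ))⁻¹ • ofR (lat m))

theorem c6_P_apply (m : Fin n → ℤ) (w : CE n) : c6_P m w = Pm m w := by
  unfold c6_P Pm
  simp only [sub_apply, ContinuousLinearMap.id_apply, ContinuousLinearMap.smulRight_apply, dotL_apply]
  rw [smul_smul, div_eq_mul_inv]

/-- the segment from the projection, as a family of linear maps -/
noncomputable def c6_A (m : Fin n → ℤ) (s : ℝ) : CE n →L[ℂ] CE n :=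
  c6_P m + (s : ℂ) • (ContinuousLinearMap.id ℂ (CE n) - c6_P m)

theorem c6_A_apply (m : Fin n → ℤ) (s : ℝ) (w : CE n) : c6_A m s w = Pm m w + s • (w - Pm m w) := by
  unfold c6_A
  rw [c6_rs]
  simp only [add_apply, smul_apply, sub_apply,
    ContinuousLinearMap.id_apply, c6_P_apply]

theorem c6_A_cont (m : Fin n → ℤ) : Continuous (c6_A m) := by
  unfold c6_A
  exact continuous_const.add (Complex.continuous_ofReal.smul continuous_const)

theorem c6_A_mem {ρ R : ℝ} {m : Fin n → ℤ} {w : CE n} (hw : w ∈ Dw ρ R) {s : ℝ} (hs : s ∈ Icc (0 : ℝ) 1) :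
    c6_A m s w ∈ Dw ρ R := by
  rw [c6_A_apply]
  exact (convex_Dw ρ R).add_smul_sub_mem (Pm_mem hw) hw hs

/-- differentiation of integrals which depend on a parameter -/
theorem c6_param {U : Set (CE n)} (hU : IsOpen U) {h : CE n → ℂ} (hh : DifferentiableOn ℂ h U)
    {A : ℝ → CE n →L[ℂ] CE n} (hA : Continuous A) (hAU : ∀ w ∈ U, ∀ s ∈ Icc (0 : ℝ) 1, A s w ∈ U) :
    DifferentiableOn ℂ (fun w => ∫ s in (0 : ℝ)..1, h (A s w)) U := by
  intro w₀ hw₀
  apply DifferentiableAt.differentiableWithinAt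
  have hh' : ContinuousOn (fderiv ℂ h) U := (hol_fderiv hU hh).continuousOn
  obtain ⟨δ, hδ, hball⟩ := Metric.nhds_basis_closedBall.mem_iff.1 (hU.mem_nhds hw₀)
  -- the derivative of the integrand
  set F' : CE n → ℝ → CE n →L[ℂ] ℂ := fun w s => (fderiv ℂ h (A s w)).comp (A s) with hF'
  have hev : Continuous (fun q : ℝ × CE n => A q.1 q.2) := (hA.comp continuous_fst).clm_apply continuous_snd
  have hmaps : MapsTo (fun q : ℝ × CE n => A q.1 q.2) (Icc (0 : ℝ) 1 ×ˢ Metric.closedBall w₀ δ) U :=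
    fun q hq => hAU _ (hball hq.2) _ hq.1
  have hc2 : ContinuousOn (fun q : ℝ × CE n => F' q.2 q.1) (Icc (0 : ℝ) 1 ×ˢ Metric.closedBall w₀ δ) := by
    simp only [hF']
    exact (hh'.comp hev.continuousOn hmaps).clm_comp (hA.comp continuous_fst).continuousOn
  have hK : IsCompact (Icc (0 : ℝ) 1 ×ˢ Metric.closedBall w₀ δ) := isCompact_Icc.prod (isCompact_closedBall _ _)
  obtain ⟨C, hC⟩ := hK.exists_bound_of_continuousOn hc2
  have hI : ∀ s ∈ uIoc (0 : ℝ) 1, s ∈ Icc (0 : ℝ) 1 := by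
    intro s hs
    rw [uIoc_of_le zero_le_one] at hs
    exact ⟨hs.1.le, hs.2⟩
  have hcF : ∀ w ∈ U, ContinuousOn (fun s : ℝ => h (A s w)) (Icc 0 1) := by
    intro w hw
    exact hh.continuousOn.comp (hA.clm_apply continuous_const).continuousOn (fun s hs => hAU w hw s hs)
  have hmeas : ∀ w ∈ U, AEStronglyMeasurable (fun s : ℝ => h (A s w)) (volume.restrict (uIoc (0 : ℝ) 1)) := by
    intro w hw
    exact ((hcF w hw).mono hI).aestronglyMeasurable measurableSet_uIoc
  have key := intervalIntegral.hasFDerivAt_integral_of_dominated_of_fderiv_le (𝕜 := ℂ) (μ := volume) (a := (0 : ℝ)) (b := 1)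
    (F := fun w s => h (A s w)) (F' := F') (x₀ := w₀) (s := Metric.ball w₀ δ) (bound := fun _ => C)
    (Metric.ball_mem_nhds w₀ hδ)
    (by
      filter_upwards [hU.mem_nhds hw₀] with w hw
      exact hmeas w hw)
    (by
      apply ContinuousOn.intervalIntegrable
      rw [uIcc_of_le zero_le_one]
      exact hcF w₀ hw₀)
    (by
      have h1 : ContinuousOn (fun s : ℝ => F' w₀ s) (Icc 0 1) := by
        have h2 := hc2.comp (f := fun s : ℝ => ((s, w₀) : ℝ × CE n)) (s := Icc (0 : ℝ) 1)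
          (Continuous.prodMk continuous_id continuous_const).continuousOn
          (fun s hs => ⟨hs, Metric.mem_closedBall_self hδ.le⟩)
        exact h2
      exact (h1.mono hI).aestronglyMeasurable measurableSet_uIoc)
    (by
      filter_upwards with s hs w hw
      exact hC (s, w) ⟨hI s hs, Metric.ball_subset_closedBall hw⟩)
    intervalIntegrable_const
    (by
      filter_upwards with s hs w hw
      have hwU := hball (Metric.ball_subset_closedBall hw)
      have h1 : HasFDerivAt h (fderiv ℂ h (A s w)) (A s w) :=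
        (hh.differentiableAt (hU.mem_nhds (hAU w hwU s (hI s hs)))).hasFDerivAt
      exact h1.comp w (A s).hasFDerivAt)
  exact key.differentiableAt

/-- division; `q` is given by an explicit formula so that symmetries can be read off -/
theorem division {ρ R B d : ℝ} (hd : 0 < d) {m : Fin n → ℤ} (hm : m ≠ 0) {g : CE n → ℂ}
    (hg : DifferentiableOn ℂ g (Dw ρ R)) (hB : ∀ w ∈ Dw ρ R, ‖g w‖ ≤ B) :
    ∃ q : CE n → ℂ, DifferentiableOn ℂ q (Dw (ρ - d) (R - d)) ∧
      (∀ w ∈ Dw (ρ - d) (R - d), dot (ofR (lat m)) w * q w = g w - g (Pm m w)) ∧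
      (∀ w ∈ Dw (ρ - d) (R - d), ‖q w‖ ≤ B / (d * ‖lat m‖)) ∧
      (∀ w, q w = ∫ s in (0:ℝ)..1, fderiv ℂ g (Pm m w + s • (w - Pm m w)) (ofR (lat m)) /
        ((‖lat m‖ ^ 2 : ℝ) : ℂ)) := by
  have h0 := c6_lat hm
  have h1 : ((‖lat m‖ ^ 2 : ℝ) : ℂ) ≠ 0 := by
    rw [Complex.ofReal_ne_zero]
    positivity
  have hsub : (Dw (ρ - d) (R - d) : Set (CE n)) ⊆ Dw ρ R := Dw_mono (by linarith) (by linarith)
  have hfd : DifferentiableOn ℂ (fun y => fderiv ℂ g y (ofR (lat m)) / ((‖lat m‖ ^ 2 : ℝ) : ℂ)) (Dw ρ R) := by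
    have h2 := hol_fderiv (isOpen_Dw ρ R) hg
    have h3 : DifferentiableOn ℂ (fun y => fderiv ℂ g y (ofR (lat m))) (Dw ρ R) :=
      h2.clm_apply (differentiableOn_const _)
    simpa only [div_eq_mul_inv] using h3.mul_const _
  refine ⟨fun w => ∫ s in (0:ℝ)..1, fderiv ℂ g (Pm m w + s • (w - Pm m w)) (ofR (lat m)) /
        ((‖lat m‖ ^ 2 : ℝ) : ℂ), ?_, ?_, ?_, fun w => rfl⟩
  · have h2 := c6_param (isOpen_Dw (ρ - d) (R - d)) (hfd.mono hsub) (c6_A_cont m)
      (fun w hw s hs => c6_A_mem hw hs)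
    refine h2.congr fun w _ => ?_
    simp only [c6_A_apply]
  · intro w hw
    have hwm : ∀ s ∈ Icc (0 : ℝ) 1, Pm m w + s • (w - Pm m w) ∈ (Dw ρ R : Set (CE n)) := by
      intro s hs
      have := c6_A_mem (m := m) (hsub hw) hs
      rwa [c6_A_apply] at this
    have hdir : w - Pm m w = (dot (ofR (lat m)) w / ((‖lat m‖ ^ 2 : ℝ) : ℂ)) • ofR (lat m) := by
      unfold Pm
      rw [sub_sub_cancel]
    have hder : ∀ s ∈ uIcc (0 : ℝ) 1, HasDerivAt (fun s : ℝ => g (Pm m w + s • (w - Pm m w)))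
        (dot (ofR (lat m)) w * (fderiv ℂ g (Pm m w + s • (w - Pm m w)) (ofR (lat m)) / ((‖lat m‖ ^ 2 : ℝ) : ℂ))) s := by
      intro s hs
      rw [uIcc_of_le zero_le_one] at hs
      have h2 : HasFDerivAt g (fderiv ℂ g (Pm m w + s • (w - Pm m w))) (Pm m w + s • (w - Pm m w)) :=
        (hg.differentiableAt ((isOpen_Dw ρ R).mem_nhds (hwm s hs))).hasFDerivAt
      have h3 : HasDerivAt (fun s : ℝ => Pm m w + s • (w - Pm m w)) (w - Pm m w) s := by
        have h4 := ((hasDerivAt_id s).smul_const (w - Pm m w)).const_add (Pm m w)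
        simpa using h4
      have h2r : HasFDerivAt g ((fderiv ℂ g (Pm m w + s • (w - Pm m w))).restrictScalars ℝ)
          (Pm m w + s • (w - Pm m w)) := h2.restrictScalars ℝ
      have h5 : HasDerivAt (fun s : ℝ => g (Pm m w + s • (w - Pm m w)))
          (fderiv ℂ g (Pm m w + s • (w - Pm m w)) (w - Pm m w)) s := by
        have h8 := HasFDerivAt.comp_hasDerivAt (𝕜 := ℝ) s h2r h3
        exact h8
      have h6 : fderiv ℂ g (Pm m w + s • (w - Pm m w)) (w - Pm m w) =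
          dot (ofR (lat m)) w * (fderiv ℂ g (Pm m w + s • (w - Pm m w)) (ofR (lat m)) / ((‖lat m‖ ^ 2 : ℝ) : ℂ)) := by
        have h7 := congrArg (fderiv ℂ g (Pm m w + s • (w - Pm m w))) hdir
        rw [map_smul, smul_eq_mul] at h7
        rw [h7]
        ring
      rw [h6] at h5
      exact h5
    have hint : IntervalIntegrable (fun s : ℝ => dot (ofR (lat m)) w *
        (fderiv ℂ g (Pm m w + s • (w - Pm m w)) (ofR (lat m)) / ((‖lat m‖ ^ 2 : ℝ) : ℂ))) volume 0 1 := by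
      apply ContinuousOn.intervalIntegrable
      rw [uIcc_of_le zero_le_one]
      apply continuousOn_const.mul
      exact hfd.continuousOn.comp (f := fun s : ℝ => Pm m w + s • (w - Pm m w)) (by fun_prop) hwm
    have h2 := intervalIntegral.integral_eq_sub_of_hasDerivAt hder hint
    rw [intervalIntegral.integral_const_mul] at h2
    rw [h2]
    simp
  · intro w hw
    have h2 : ∀ s ∈ uIoc (0 : ℝ) 1, ‖fderiv ℂ g (Pm m w + s • (w - Pm m w)) (ofR (lat m)) / ((‖lat m‖ ^ 2 : ℝ) : ℂ)‖ ≤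
        B / (d * ‖lat m‖) := by
      intro s hs
      rw [uIoc_of_le zero_le_one] at hs
      have h3 := c6_A_mem (m := m) hw (s := s) ⟨hs.1.le, hs.2⟩
      rw [c6_A_apply] at h3
      have h4 := ball_subset_Dw h3
      have h5 := cauchy_fderiv hd (hg.mono h4) (fun y hy => hB y (h4 hy))
      rw [norm_div, Complex.norm_real, Real.norm_eq_abs, abs_of_nonneg (by positivity)]
      have h6 := (fderiv ℂ g (Pm m w + s • (w - Pm m w))).le_opNorm (ofR (lat m))
      rw [norm_ofR] at h6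
      rw [div_le_div_iff₀ (by positivity) (by positivity)]
      have h7 : ‖fderiv ℂ g (Pm m w + s • (w - Pm m w))‖ * d ≤ B := by
        rwa [le_div_iff₀ hd] at h5
      calc ‖fderiv ℂ g (Pm m w + s • (w - Pm m w)) (ofR (lat m))‖ * (d * ‖lat m‖)
          ≤ ‖fderiv ℂ g (Pm m w + s • (w - Pm m w))‖ * ‖lat m‖ * (d * ‖lat m‖) :=
            mul_le_mul_of_nonneg_right h6 (by positivity)
        _ = (‖fderiv ℂ g (Pm m w + s • (w - Pm m w))‖ * d) * ‖lat m‖ ^ 2 := by ring
        _ ≤ B * ‖lat m‖ ^ 2 := mul_le_mul_of_nonneg_right h7 (by positivity)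
    have h3 := intervalIntegral.norm_integral_le_of_norm_le_const h2
    simpa using h3

theorem res_complex {ρ R A E : ℝ} (hρ : 0 < ρ) (hA : 0 < A) {m : Fin n → ℤ} (hm : m ≠ 0) {g : CE n → ℂ}
    (hg : DifferentiableOn ℂ g (Dw ρ R)) (hE : ∀ w ∈ Dw ρ R, ‖g w‖ ≤ E)
    (hr : ∀ w : RE n, inner ℝ (lat m) w = 0 → ‖w‖ < R - ρ / 2 → ‖g (ofR w)‖ ≤ A)
    {w : CE n} (hw : w ∈ Dw (ρ / 16) (R - ρ)) : ‖g (Pm m w)‖ ≤ √(A * E) := by
  set p := Pm m w with hp
  have hpm : p ∈ (Dw (ρ / 16) (R - ρ) : Set (CE n)) := Pm_mem hw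
  have hpD : p ∈ (Dw ρ R : Set (CE n)) := Dw_mono (by linarith) (by linarith) hpm
  have hgE := hE p hpD
  have hE0 : 0 ≤ E := (norm_nonneg _).trans hgE
  rcases le_or_gt E A with hEA | hAE
  · apply Real.le_sqrt_of_sq_le
    have h1 : ‖g p‖ ^ 2 ≤ E ^ 2 := pow_le_pow_left₀ (norm_nonneg _) hgE 2
    nlinarith
  have hz := dot_Pm hm w
  rw [← hp, c6_dot] at hz
  have hre : inner ℝ (lat m) (re p) = 0 := by
    have := congrArg Complex.re hz
    simpa using this
  have him : inner ℝ (lat m) (im p) = 0 := by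
    have := congrArg Complex.im hz
    simpa using this
  have hsqrt : A ≤ √(A * E) := by
    apply Real.le_sqrt_of_sq_le
    nlinarith
  by_cases hy : im p = 0
  · have h1 : p = ofR (re p) := by
      conv_lhs => rw [eq_re_im p]
      rw [hy]
      simp
    rw [h1]
    exact (hr (re p) hre (by linarith [hpm.2])).trans hsqrt
  · have hy0 : 0 < ‖im p‖ := norm_pos_iff.2 hy
    obtain ⟨e, he⟩ : ∃ e : RE n, e = (‖im p‖⁻¹ : ℝ) • im p := ⟨_, rfl⟩
    have hen : ‖e‖ = 1 := by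
      rw [he, norm_smul, norm_inv, norm_norm, inv_mul_cancel₀ hy0.ne']
    have hee : ‖im p‖ • e = im p := by
      rw [he, smul_smul, mul_inv_cancel₀ hy0.ne', one_smul]
    have hei : inner ℝ (lat m) e = 0 := by
      rw [he, inner_smul_right, him, mul_zero]
    have himz : ∀ z : ℂ, im (ofR (re p) + z • ofR e) = z.im • e := by
      intro z
      ext i
      simp
    have hrez : ∀ z : ℂ, re (ofR (re p) + z • ofR e) = re p + z.re • e := by
      intro z
      ext i
      simp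
    have hmem : ∀ z : ℂ, |z.re| ≤ ρ / 2 → 0 ≤ z.im → z.im ≤ ρ / 2 / 2 →
        ofR (re p) + z • ofR e ∈ (Dw ρ R : Set (CE n)) := by
      intro z h1 h2 h3
      constructor
      · rw [himz, norm_smul, hen, mul_one, Real.norm_eq_abs, abs_of_nonneg h2]
        linarith
      · rw [hrez]
        have h4 := norm_add_le (re p) (z.re • e)
        rw [norm_smul, hen, mul_one, Real.norm_eq_abs] at h4
        linarith [hpm.2]
    have hline : Differentiable ℂ (fun z : ℂ => ofR (re p) + z • ofR e) := by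
      fun_prop
    have hb := rect_bound (g := fun z : ℂ => g (ofR (re p) + z • ofR e)) (l := ρ / 2) (A := A) (E := E) (y := ‖im p‖)
      (by positivity) hA hAE.le
      (hg.continuousOn.comp hline.continuous.continuousOn (fun z hz => hmem z hz.1 hz.2.1 hz.2.2))
      (hg.comp hline.differentiableOn (fun z hz => hmem z hz.1.le hz.2.1.le hz.2.2.le))
      (fun z h1 h2 h3 => hE _ (hmem z h1 h2 h3))
      (fun x hx => by
        have h1 : ofR (re p) + (x : ℂ) • ofR e = ofR (re p + x • e) := by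
          rw [ofR_add, c6_ofR_smul]
        rw [h1]
        apply hr
        · rw [inner_add_right, inner_smul_right, hre, hei]
          ring
        · have h4 := norm_add_le (re p) (x • e)
          rw [norm_smul, hen, mul_one, Real.norm_eq_abs] at h4
          linarith [hpm.2])
      hy0.le (by linarith [hpm.1])
    have h1 : ofR (re p) + ((‖im p‖ : ℂ) * Complex.I) • ofR e = p := by
      conv_rhs => rw [eq_re_im p]
      congr 1
      conv_rhs => rw [← hee, c6_ofR_smul]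
      rw [smul_smul, mul_comm]
    rw [h1] at hb
    exact hb

end Pool.Agent.LRT
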