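import Pool.Agent.LRT.CD

/-!
The state of the Newton scheme.
-/

set_option autoImplicit false

open Set MeasureTheory Topology

namespace Pool.Agent.LRT

noncomputable section

/-- the state of the Newton scheme: an analytic Hamiltonian on `D (2ρ) (R+1)` and an approximate
solution `(b, u)` on `D ρ R`, close to `(ω·ω/2, 0)` -/
structure NS {n : ℕ} (κ ρ R CH : ℝ) (H : CE n × CE n → ℂ) (b : CE n → ℂ) (u : CE n × CE n → ℂ) :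
    Prop where
  ρ0 : 0 < ρ
  ρ1 : ρ ≤ 1 / 4
  R1 : 1 ≤ R
  κ0 : 0 ≤ κ
  κ1 : κ ≤ 1 / 100
  CH0 : 0 ≤ CH
  Hd : DifferentiableOn ℂ H (D (2 * ρ) (R + 1))
  Hb : ∀ z ∈ (D (2 * ρ) (R + 1) : Set (CE n × CE n)), ‖H z‖ ≤ CH
  Hr : RealX (2 * ρ) (R + 1) H
  Hp : PerX (2 * ρ) (R + 1) H
  bd : DifferentiableOn ℂ b (Dw ρ R)
  br : ∀ w ∈ (Dw ρ R : Set (CE n)), b (cj w) = (starRingEnd ℂ) (b w)
  b1 : ∀ w ∈ (Dw ρ R : Set (CE n)), ‖gb b w - w‖ ≤ κ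
  b2 : ∀ w ∈ (Dw ρ R : Set (CE n)), ‖hess b w - 1‖ ≤ κ
  b3 : ∀ w ∈ (Dw ρ R : Set (CE n)), ‖fderiv ℂ (hess b) w‖ ≤ κ
  ud : DifferentiableOn ℂ u (D ρ R)
  ur : RealX ρ R u
  up : PerX ρ R u
  u1 : ∀ z ∈ (D ρ R : Set (CE n × CE n)), ‖fderiv ℂ u z‖ ≤ κ
  u2 : ∀ z ∈ (D ρ R : Set (CE n × CE n)), ‖fderiv ℂ (fderiv ℂ u) z‖ ≤ κ

variable {n : ℕ}

/-- the inverse of the angle map: the solution `x` of `x + gv b u (x, w) = t`, `z = (t, w)` -/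
def Xi (b : CE n → ℂ) (u : CE n × CE n → ℂ) (ρ : ℝ) (z : CE n × CE n) : CE n :=
  Classical.epsilon fun x => ‖im x‖ < ρ ∧ x + gv b u (x, z.2) = z.1

/-- the error in the angle variable -/
def et (H : CE n × CE n → ℂ) (b : CE n → ℂ) (u : CE n × CE n → ℂ) (ρ : ℝ) (z : CE n × CE n) : ℂ :=
  err H b u (Xi b u ρ z, z.2)

/-- smallness of the resonant Fourier coefficients at real frequencies -/
def RsC (K : ℕ) (A r : ℝ) (G : CE n × CE n → ℂ) : Prop :=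
  ∀ m ∈ bx n K, m ≠ 0 → ∀ w : RE n, inner ℝ (lat m) w = 0 → ‖w‖ < r → ‖coef G m (ofR w)‖ ≤ A

/-- the correction of `u` -/
def duf (b : CE n → ℂ) (u : CE n × CE n → ℂ) (db : CE n → ℂ) (dv : CE n × CE n → ℂ)
    (z : CE n × CE n) : ℂ := dv (th b u z, z.2) + dot (gv b u z) (gb db z.2)

/-- the exponent of the scheme -/
def MM (n : ℕ) : ℕ := 200 * (n + 4) ^ 2

end

end Pool.Agent.LRT
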