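import Pool.Agent.LRT.C5
import Pool.Agent.LRT.C6
import Pool.Agent.LRT.NS

/-!
C11 (difficulty 3).  Solution of the linearised equation with the resonant part removed.

PROOF.  For `m ≠ 0` in `bx n K` let `g_m = coef G m` (`coef_hol`, `coef_bound`:
`‖g_m‖ ≤ ε exp (-2πσ‖lat m‖)` on `Dw σ R`) and let `q_m` be given by `division` with `d = σ/2`
(domain `Dw (σ/2) (R-σ/2)`, `‖q_m‖ ≤ 2 ε exp (-2πσ‖lat m‖)/(σ ‖lat m‖)`, `‖lat m‖ ≥ 1`).  Put
`dv z = - ∑ m ∈ (bx n K).erase 0, (q_m z.2 / (2 π I)) * ch m z.1`.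
* holomorphic on `D (σ/2) (R-σ/2)`: finite sum; `ch m` is entire.
* `ch m (x + ofR (lat k)) = ch m x` (`dot (ofR (lat m)) (ofR (lat k))` is an integer): `PerX`.
* reality: `q_{-m} (cj w) = - conj (q_m w)` from the explicit integral formula of `division`
  (`coef_real`: `g_{-m} (cj w) = conj (g_m w)`, so `fderiv g_{-m} (cj w) (cj v) = conj (fderiv g_m w v)`;
  `Pm_cj`, `Pm_neg`, `lat (-m) = - lat m`), `conj (2πI) = -2πI`, `ch (-m) (cj x) = conj (ch m x)`; the sum over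
  `(bx n K).erase 0` is invariant under `m ↦ -m` (`Finset.sum_bij` / `Finset.sum_nbij'`).
* bound: `‖ch m z.1‖ = exp (-2π⟨lat m, im z.1⟩) ≤ exp (2π‖lat m‖ σ/2) = exp (πσ‖lat m‖)`, so each term is
  `≤ (ε/(πσ)) exp (-πσ‖lat m‖) ≤ (ε/σ) exp (-σ‖lat m‖)`; `lat_sum`.
* `dot (gx dv z) z.2 = fderiv dv z (z.2, 0) = - ∑ (q_m z.2 / (2πI)) * (2πI * dot (ofR (lat m)) z.2) * ch m z.1
   = - ∑ (g_m z.2 - g_m (Pm m z.2)) * ch m z.1` by `division`.
`res_sum`: for `z.2 ∈ Dw (σ/16) (R-σ)`, `‖coef G m (Pm m z.2)‖ ≤ √(A ε exp (-2πσ‖lat m‖))` by `res_complex`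
(with `E = ε exp (-2πσ‖lat m‖)`) `= √(A ε) exp (-πσ‖lat m‖)`, and `‖ch m z.1‖ ≤ exp (πσ‖lat m‖)` as
`‖im z.1‖ ≤ σ/2`; there are at most `(2K+1)^n` terms.
-/

set_option autoImplicit false

open Set MeasureTheory Topology

namespace Pool.Agent.LRT

variable {n : ℕ}

/-- the derivative of a character -/
theorem c11_ch_hasFDerivAt (m : Fin n → ℤ) (z : CE n) :
    HasFDerivAt (ch m) (ch m z • ((2 * Real.pi * Complex.I) • dotL (ofR (lat m)))) z := by
  have h1 : HasFDerivAt (fun z : CE n => dot (ofR (lat m)) z) (dotL (ofR (lat m))) z :=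
    (dotL (ofR (lat m))).hasFDerivAt
  have h2 := (h1.const_mul (2 * Real.pi * Complex.I)).cexp
  exact h2

theorem c11_im_dot (a : RE n) (z : CE n) : (dot (ofR a) z).im = inner ℝ a (im z) := by
  unfold dot
  rw [Complex.im_sum, PiLp.inner_apply]
  refine Finset.sum_congr rfl fun i _ => ?_
  rw [ofR_apply, Complex.im_ofReal_mul, im_apply]
  simp [mul_comm]

theorem c11_ch_norm (m : Fin n → ℤ) (z : CE n) :
    ‖ch m z‖ = Real.exp (-(2 * Real.pi * inner ℝ (lat m) (im z))) := by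
  unfold ch
  rw [Complex.norm_exp]
  congr 1
  have h : (2 * (Real.pi : ℂ) * Complex.I * dot (ofR (lat m)) z).re =
      -(2 * Real.pi * (dot (ofR (lat m)) z).im) := by
    have e : (2 * (Real.pi : ℂ) * Complex.I * dot (ofR (lat m)) z) =
        ((2 * Real.pi : ℝ) : ℂ) * (Complex.I * dot (ofR (lat m)) z) := by
      push_cast
      ring
    rw [e, Complex.re_ofReal_mul, Complex.I_mul_re]
    ring
  rw [h, c11_im_dot]

theorem c11_ch_norm_le (m : Fin n → ℤ) (z : CE n) {s : ℝ} (hs : ‖im z‖ ≤ s) :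
    ‖ch m z‖ ≤ Real.exp (2 * Real.pi * ‖lat m‖ * s) := by
  rw [c11_ch_norm]
  apply Real.exp_le_exp.mpr
  have h1 : |inner ℝ (lat m) (im z)| ≤ ‖lat m‖ * ‖im z‖ := abs_real_inner_le_norm _ _
  have h2 : -inner ℝ (lat m) (im z) ≤ ‖lat m‖ * ‖im z‖ := (neg_le_abs _).trans h1
  have h3 : ‖lat m‖ * ‖im z‖ ≤ ‖lat m‖ * s := mul_le_mul_of_nonneg_left hs (norm_nonneg _)
  have h4 : -inner ℝ (lat m) (im z) ≤ ‖lat m‖ * s := h2.trans h3
  have h5 := mul_le_mul_of_nonneg_left h4 (by positivity : (0:ℝ) ≤ 2 * Real.pi)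
  nlinarith [h5]

theorem c11_ch_shift (m k : Fin n → ℤ) (x : CE n) : ch m (x + ofR (lat k)) = ch m x := by
  unfold ch
  rw [dot_add, dot_ofR]
  have h : (inner ℝ (lat m) (lat k) : ℝ) = ((∑ i, m i * k i : ℤ) : ℝ) := by
    rw [PiLp.inner_apply]
    push_cast
    refine Finset.sum_congr rfl fun i _ => ?_
    simp [mul_comm]
  rw [h, mul_add, Complex.exp_add]
  have h2 : Complex.exp (2 * Real.pi * Complex.I * (((∑ i, m i * k i : ℤ) : ℝ) : ℂ)) = 1 := by
    rw [Complex.exp_eq_one_iff]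
    refine ⟨∑ i, m i * k i, ?_⟩
    push_cast
    ring
  rw [h2, mul_one]

theorem c11_lat_neg (m : Fin n → ℤ) : lat (-m) = - lat m := by
  ext i
  simp

theorem c11_ofR_neg (x : RE n) : ofR (-x) = - ofR x := by
  ext i
  simp

theorem c11_ch_cj (m : Fin n → ℤ) (z : CE n) : ch (-m) (cj z) = (starRingEnd ℂ) (ch m z) := by
  unfold ch
  rw [← Complex.exp_conj]
  congr 1
  rw [map_mul, map_mul, map_mul, Complex.conj_I, ← dot_cj, cj_ofR, c11_lat_neg, c11_ofR_neg]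
  have h1 : (starRingEnd ℂ) (2 : ℂ) = 2 := Complex.conj_ofNat 2
  rw [h1, Complex.conj_ofReal]
  have h2 : dot (-ofR (lat m)) (cj z) = - dot (ofR (lat m)) (cj z) := by
    have := smul_dot (-1) (ofR (lat m)) (cj z)
    simpa using this
  rw [h2]
  ring

/-- one step of `lat` -/
theorem c11_one_le_norm {m : Fin n → ℤ} (hm : m ≠ 0) : 1 ≤ ‖lat m‖ := by
  obtain ⟨i, hi⟩ := Function.ne_iff.mp hm
  have h1 : |((m i : ℤ) : ℝ)| ≤ ‖lat m‖ := by
    have := PiLp.norm_apply_le (lat m) i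
    simpa using this
  have h2 : (1 : ℤ) ≤ |m i| := Int.one_le_abs (by simpa using hi)
  have h3 : (1 : ℝ) ≤ |((m i : ℤ) : ℝ)| := by exact_mod_cast h2
  exact h3.trans h1

/-- conjugation as a real linear map -/
noncomputable def c11_cjL : CE n →L[ℝ] CE n :=
  LinearMap.mkContinuous ⟨⟨cj, fun z w => by ext i; simp⟩, fun r z => by ext i; simp⟩ 1
    (fun z => by rw [one_mul]; exact (norm_cj z).le)

theorem c11_cjL_apply (z : CE n) : c11_cjL z = cj z := rfl

theorem c11_cj_add (z w : CE n) : cj (z + w) = cj z + cj w := by ext i; simp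
theorem c11_cj_sub (z w : CE n) : cj (z - w) = cj z - cj w := by ext i; simp
theorem c11_cj_rsmul (s : ℝ) (z : CE n) : cj (s • z) = s • cj z := by ext i; simp

theorem c11_fderiv_cj {U : Set (CE n)} (hU : IsOpen U) (hUc : ∀ w ∈ U, cj w ∈ U) {g₁ g₂ : CE n → ℂ}
    (h1 : DifferentiableOn ℂ g₁ U) (h2 : DifferentiableOn ℂ g₂ U)
    (h : ∀ w ∈ U, g₂ (cj w) = (starRingEnd ℂ) (g₁ w)) {p : CE n} (hp : p ∈ U) (v : CE n) :
    fderiv ℂ g₂ (cj p) (cj v) = (starRingEnd ℂ) (fderiv ℂ g₁ p v) := by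
  have e1 : HasFDerivAt g₁ ((fderiv ℂ g₁ p).restrictScalars ℝ) p :=
    ((h1.differentiableAt (hU.mem_nhds hp)).hasFDerivAt).restrictScalars ℝ
  have e2 : HasFDerivAt g₂ ((fderiv ℂ g₂ (cj p)).restrictScalars ℝ) (c11_cjL p) :=
    ((h2.differentiableAt (hU.mem_nhds (hUc p hp))).hasFDerivAt).restrictScalars ℝ
  have e3 : HasFDerivAt (fun w => g₂ (c11_cjL w))
      (((fderiv ℂ g₂ (cj p)).restrictScalars ℝ).comp c11_cjL) p :=
    e2.comp p c11_cjL.hasFDerivAt
  have e4 : HasFDerivAt (fun w => Complex.conjCLE (g₁ w))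
      ((Complex.conjCLE : ℂ →L[ℝ] ℂ).comp ((fderiv ℂ g₁ p).restrictScalars ℝ)) p :=
    (Complex.conjCLE : ℂ →L[ℝ] ℂ).hasFDerivAt.comp p e1
  have e5 : (fun w => g₂ (c11_cjL w)) =ᶠ[𝓝 p] (fun w => Complex.conjCLE (g₁ w)) := by
    filter_upwards [hU.mem_nhds hp] with w hw
    exact h w hw
  have e6 := (e4.congr_of_eventuallyEq e5).unique e3
  have e7 := congrArg (fun L : CE n →L[ℝ] ℂ => L v) e6
  exact e7.symm


/-- the directional derivative in the first variable of a finite trigonometric sum -/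
theorem c11_gx_sum {U : Set (CE n × CE n)} (hU : IsOpen U) (s : Finset (Fin n → ℤ))
    (a : (Fin n → ℤ) → CE n → ℂ) {z : CE n × CE n} (hz : z ∈ U)
    (hd : DifferentiableOn ℂ (fun z : CE n × CE n => -∑ m ∈ s, a m z.2 * ch m z.1) U) (v : CE n) :
    dot (gx (fun z : CE n × CE n => -∑ m ∈ s, a m z.2 * ch m z.1) z) v =
      -∑ m ∈ s, a m z.2 * ((2 * Real.pi * Complex.I) * dot (ofR (lat m)) v * ch m z.1) := by
  rw [dot_gx]
  have hF := (hd.differentiableAt (hU.mem_nhds hz)).hasFDerivAt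
  have hl : HasDerivAt (fun t : ℂ => (z.1 + t • v, z.2)) ((v, 0) : CE n × CE n) 0 := by
    have h1 : HasDerivAt (fun t : ℂ => z.1 + t • v) v 0 := by
      have h2 : HasDerivAt (fun t : ℂ => t • v) v 0 := by
        simpa using (hasDerivAt_id (0:ℂ)).smul_const v
      exact h2.const_add z.1
    exact h1.prodMk (hasDerivAt_const _ _)
  have hz0 : ((z.1 + (0:ℂ) • v, z.2) : CE n × CE n) = z := by simp
  have hc : HasDerivAt (fun t : ℂ => -∑ m ∈ s, a m z.2 * ch m (z.1 + t • v))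
      (fderiv ℂ (fun z : CE n × CE n => -∑ m ∈ s, a m z.2 * ch m z.1) z (v, 0)) 0 := by
    have hF' : HasFDerivAt (fun z : CE n × CE n => -∑ m ∈ s, a m z.2 * ch m z.1)
        (fderiv ℂ (fun z : CE n × CE n => -∑ m ∈ s, a m z.2 * ch m z.1) z)
        ((z.1 + (0:ℂ) • v, z.2) : CE n × CE n) := by
      rw [hz0]
      exact hF
    exact hF'.comp_hasDerivAt (0:ℂ) hl
  have hc2 : HasDerivAt (fun t : ℂ => -∑ m ∈ s, a m z.2 * ch m (z.1 + t • v))
      (-∑ m ∈ s, a m z.2 * ((2 * Real.pi * Complex.I) * dot (ofR (lat m)) v * ch m z.1)) 0 := by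
    refine HasDerivAt.neg (HasDerivAt.fun_sum fun m _ => ?_)
    refine HasDerivAt.const_mul _ ?_
    have h1 : HasDerivAt (fun t : ℂ => z.1 + t • v) v 0 := by
      have h2 : HasDerivAt (fun t : ℂ => t • v) v 0 := by
        simpa using (hasDerivAt_id (0:ℂ)).smul_const v
      exact h2.const_add z.1
    have h2 := c11_ch_hasFDerivAt m (z.1 + (0:ℂ) • v)
    have h3 := h2.comp_hasDerivAt (0:ℂ) h1
    have e : (ch m (z.1 + (0:ℂ) • v) • ((2 * Real.pi * Complex.I) • dotL (ofR (lat m)))) v =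
        (2 * Real.pi * Complex.I) * dot (ofR (lat m)) v * ch m z.1 := by
      have e0 : z.1 + (0:ℂ) • v = z.1 := by simp
      rw [e0]
      change ch m z.1 * ((2 * Real.pi * Complex.I) * dot (ofR (lat m)) v) = _
      ring
    rw [← e]
    exact h3
  exact hc.unique hc2

theorem c11_bx_neg {K : ℕ} {m : Fin n → ℤ} (hm : m ∈ (bx n K).erase 0) :
    -m ∈ (bx n K).erase 0 := by
  rw [Finset.mem_erase] at hm ⊢
  refine ⟨neg_ne_zero.mpr hm.1, ?_⟩
  rw [mem_bx]
  intro i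
  have := mem_bx.mp hm.2 i
  simpa using this

theorem c11_card_bx (K : ℕ) : ((bx n K).card : ℝ) = (2 * (K : ℝ) + 1) ^ n := by
  rw [bx, Pi.card_Icc]
  simp only [Int.card_Icc, Finset.prod_const, Finset.card_univ, Fintype.card_fin]
  have : ((K : ℤ) + 1 - -(K : ℤ)).toNat = 2 * K + 1 := by omega
  rw [this]
  push_cast
  ring

theorem resolve (n : ℕ) : ∃ C : ℝ, 0 < C ∧ ∀ (σ R ε : ℝ), 0 < σ → σ ≤ 1 → 0 ≤ ε →
    ∀ G : CE n × CE n → ℂ, DifferentiableOn ℂ G (D σ R) → PerX σ R G → RealX σ R G →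
    (∀ z ∈ D σ R, ‖G z‖ ≤ ε) → ∀ K : ℕ, ∃ dv : CE n × CE n → ℂ,
      DifferentiableOn ℂ dv (D (σ / 2) (R - σ / 2)) ∧ PerX (σ / 2) (R - σ / 2) dv ∧
      RealX (σ / 2) (R - σ / 2) dv ∧
      (∀ z ∈ D (σ / 2) (R - σ / 2), ‖dv z‖ ≤ C * ε / σ ^ (n + 1)) ∧
      (∀ z ∈ D (σ / 2) (R - σ / 2), dot (gx dv z) z.2 =
        - ∑ m ∈ (bx n K).erase 0, (coef G m z.2 - coef G m (Pm m z.2)) * ch m z.1) := by
  obtain ⟨C, hC, hCs⟩ := lat_sum n
  refine ⟨C, hC, ?_⟩
  intro σ R ε hσ hσ1 hε G hG hper hreal hB K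
  have hhalf : σ - σ / 2 = σ / 2 := by ring
  have hpi := Real.pi_pos
  -- the quotients
  have hq : ∀ m : Fin n → ℤ, ∃ q : CE n → ℂ, m ≠ 0 →
      (DifferentiableOn ℂ q (Dw (σ / 2) (R - σ / 2)) ∧
      (∀ w ∈ Dw (σ / 2) (R - σ / 2), dot (ofR (lat m)) w * q w = coef G m w - coef G m (Pm m w)) ∧
      (∀ w ∈ Dw (σ / 2) (R - σ / 2), ‖q w‖ ≤
        ε * Real.exp (-(2 * Real.pi * σ * ‖lat m‖)) / (σ / 2 * ‖lat m‖)) ∧
      (∀ w, q w = ∫ s in (0:ℝ)..1, fderiv ℂ (coef G m) (Pm m w + s • (w - Pm m w)) (ofR (lat m)) /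
        ((‖lat m‖ ^ 2 : ℝ) : ℂ))) := by
    intro m
    by_cases hm : m = 0
    · exact ⟨0, fun h => absurd hm h⟩
    · obtain ⟨q, h1, h2, h3, h4⟩ := division (d := σ / 2) (by linarith) hm (coef_hol hσ hG m)
        (fun w hw => coef_bound hσ hG hper hB m hw)
      rw [hhalf] at h1 h2 h3
      exact ⟨q, fun _ => ⟨h1, h2, h3, h4⟩⟩
  choose q hq using hq
  have hpI : (2 * (Real.pi : ℂ) * Complex.I) ≠ 0 := Complex.two_pi_I_ne_zero
  -- symmetry of the quotients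
  have hsym : ∀ m : Fin n → ℤ, m ≠ 0 → ∀ w ∈ (Dw (σ / 2) (R - σ / 2) : Set (CE n)),
      q (-m) (cj w) = -(starRingEnd ℂ) (q m w) := by
    intro m hm w hw
    obtain ⟨-, -, -, h4⟩ := hq m hm
    obtain ⟨-, -, -, h4'⟩ := hq (-m) (neg_ne_zero.mpr hm)
    rw [h4, h4']
    have hnorm : ‖lat (-m)‖ = ‖lat m‖ := by rw [c11_lat_neg, norm_neg]
    have hwσ : w ∈ (Dw σ R : Set (CE n)) := Dw_mono (by linarith) (by linarith) hw
    have key : ∀ s ∈ Set.uIcc (0:ℝ) 1,
        fderiv ℂ (coef G (-m)) (Pm (-m) (cj w) + s • (cj w - Pm (-m) (cj w))) (ofR (lat (-m))) /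
          ((‖lat (-m)‖ ^ 2 : ℝ) : ℂ) =
        -(starRingEnd ℂ) (fderiv ℂ (coef G m) (Pm m w + s • (w - Pm m w)) (ofR (lat m)) /
          ((‖lat m‖ ^ 2 : ℝ) : ℂ)) := by
      intro s hs
      rw [Set.uIcc_of_le zero_le_one] at hs
      have hp : Pm m w + s • (w - Pm m w) ∈ (Dw σ R : Set (CE n)) := by
        have h1 := Pm_mem (m := m) hwσ
        have := convex_Dw (n := n) σ R h1 hwσ (sub_nonneg.mpr hs.2) hs.1 (by ring)
        have e : Pm m w + s • (w - Pm m w) = (1 - s) • Pm m w + s • w := by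
          rw [smul_sub, sub_smul, one_smul]
          abel
        rw [e]
        exact this
      have e1 : Pm (-m) (cj w) + s • (cj w - Pm (-m) (cj w)) = cj (Pm m w + s • (w - Pm m w)) := by
        rw [Pm_neg, Pm_cj, c11_cj_add, c11_cj_rsmul, c11_cj_sub]
      have e2 := c11_fderiv_cj (isOpen_Dw σ R) (fun w hw => cj_mem_Dw hw) (coef_hol hσ hG m)
        (coef_hol hσ hG (-m)) (fun w hw => coef_real hσ hreal m hw) hp (ofR (lat m))
      rw [cj_ofR] at e2
      rw [e1, hnorm, c11_lat_neg, c11_ofR_neg, map_neg, e2, map_div₀, Complex.conj_ofReal, neg_div]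
    rw [intervalIntegral.integral_congr key, intervalIntegral.integral_neg]
    congr 1
    exact intervalIntegral.intervalIntegral_conj
  -- the solution
  set a : (Fin n → ℤ) → CE n → ℂ := fun m w => q m w / (2 * (Real.pi : ℂ) * Complex.I) with ha
  have hdiff : DifferentiableOn ℂ (fun z : CE n × CE n => -∑ m ∈ (bx n K).erase 0, a m z.2 * ch m z.1)
      (D (σ / 2) (R - σ / 2)) := by
    refine DifferentiableOn.neg (DifferentiableOn.fun_sum fun m hm => ?_)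
    have hm0 : m ≠ 0 := (Finset.mem_erase.mp hm).1
    refine DifferentiableOn.mul ?_ ?_
    · have h1 : DifferentiableOn ℂ (fun w => q m w / (2 * (Real.pi : ℂ) * Complex.I))
          (Dw (σ / 2) (R - σ / 2)) := by
        simp only [div_eq_mul_inv _ (2 * (Real.pi : ℂ) * Complex.I)]
        exact (hq m hm0).1.mul_const _
      exact h1.comp differentiableOn_snd (fun z hz => ⟨hz.2.1, hz.2.2⟩)
    · intro z _
      have h1 := (c11_ch_hasFDerivAt m z.1).differentiableAt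
      exact (h1.comp z differentiableAt_fst).differentiableWithinAt
  refine ⟨fun z => -∑ m ∈ (bx n K).erase 0, a m z.2 * ch m z.1, hdiff, ?_, ?_, ?_, ?_⟩
  · intro z _ k
    simp only [c11_ch_shift]
  · intro z hz
    have hz2 : z.2 ∈ (Dw (σ / 2) (R - σ / 2) : Set (CE n)) := ⟨hz.2.1, hz.2.2⟩
    simp only [cjp]
    rw [map_neg, map_sum]
    congr 1
    refine Finset.sum_nbij' (fun m => -m) (fun m => -m) (fun m hm => c11_bx_neg hm)
      (fun m hm => c11_bx_neg hm) (fun m _ => neg_neg m) (fun m _ => neg_neg m) ?_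
    intro m hm
    have hm0 : m ≠ 0 := (Finset.mem_erase.mp hm).1
    have e1 : q m (cj z.2) = -(starRingEnd ℂ) (q (-m) z.2) := by
      have := hsym (-m) (neg_ne_zero.mpr hm0) z.2 hz2
      rwa [neg_neg] at this
    have e2 : ch m (cj z.1) = (starRingEnd ℂ) (ch (-m) z.1) := by
      have := c11_ch_cj (-m) z.1
      rwa [neg_neg] at this
    simp only [ha]
    rw [e1, e2, map_mul, map_div₀]
    congr 1
    have e3 : (starRingEnd ℂ) (2 * (Real.pi : ℂ) * Complex.I) = -(2 * (Real.pi : ℂ) * Complex.I) := by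
      rw [map_mul, map_mul, Complex.conj_I, Complex.conj_ofReal, Complex.conj_ofNat]
      ring
    rw [e3, neg_div, div_neg]
  · intro z hz
    have hz2 : z.2 ∈ (Dw (σ / 2) (R - σ / 2) : Set (CE n)) := ⟨hz.2.1, hz.2.2⟩
    rw [norm_neg]
    refine (norm_sum_le _ _).trans ?_
    have hterm : ∀ m ∈ (bx n K).erase 0, ‖a m z.2 * ch m z.1‖ ≤
        ε / σ * Real.exp (-(σ * ‖lat m‖)) := by
      intro m hm
      have hm0 : m ≠ 0 := (Finset.mem_erase.mp hm).1
      have hL := c11_one_le_norm hm0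
      have h3 := (hq m hm0).2.2.1 z.2 hz2
      have h4 := c11_ch_norm_le m z.1 hz.1.le
      rw [norm_mul, ha]
      have h5 : ‖q m z.2 / (2 * (Real.pi : ℂ) * Complex.I)‖ = ‖q m z.2‖ / (2 * Real.pi) := by
        rw [norm_div, norm_mul, norm_mul, Complex.norm_I, Complex.norm_real, Real.norm_eq_abs,
          abs_of_pos hpi]
        simp
      simp only []
      rw [h5]
      have h6 : ‖q m z.2‖ / (2 * Real.pi) * ‖ch m z.1‖ ≤
          (ε * Real.exp (-(2 * Real.pi * σ * ‖lat m‖)) / (σ / 2 * ‖lat m‖)) / (2 * Real.pi) *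
            Real.exp (2 * Real.pi * ‖lat m‖ * (σ / 2)) := by
        have hq0 : 0 ≤ (ε * Real.exp (-(2 * Real.pi * σ * ‖lat m‖)) / (σ / 2 * ‖lat m‖)) := by
          positivity
        refine mul_le_mul (div_le_div_of_nonneg_right h3 (by positivity)) h4 (norm_nonneg _)
          (by positivity)
      refine h6.trans ?_
      have e1 : Real.exp (-(2 * Real.pi * σ * ‖lat m‖)) * Real.exp (2 * Real.pi * ‖lat m‖ * (σ / 2)) =
          Real.exp (-(Real.pi * σ * ‖lat m‖)) := by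
        rw [← Real.exp_add]
        congr 1
        ring
      have e2 : (ε * Real.exp (-(2 * Real.pi * σ * ‖lat m‖)) / (σ / 2 * ‖lat m‖)) / (2 * Real.pi) *
            Real.exp (2 * Real.pi * ‖lat m‖ * (σ / 2)) =
          ε / σ * (1 / (Real.pi * ‖lat m‖)) * Real.exp (-(Real.pi * σ * ‖lat m‖)) := by
        rw [← e1]
        have hL0 : ‖lat m‖ ≠ 0 := by positivity
        field_simp
      rw [e2]
      have h7 : 1 / (Real.pi * ‖lat m‖) ≤ 1 := by
        rw [div_le_one (by positivity)]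
        have : (1:ℝ) ≤ Real.pi := by linarith [Real.pi_gt_three]
        nlinarith
      have h8 : Real.exp (-(Real.pi * σ * ‖lat m‖)) ≤ Real.exp (-(σ * ‖lat m‖)) := by
        apply Real.exp_le_exp.mpr
        have h9 : (1:ℝ) ≤ Real.pi := by linarith [Real.pi_gt_three]
        have h10 : 0 ≤ σ * ‖lat m‖ := by positivity
        nlinarith
      have h11 : 0 ≤ ε / σ := by positivity
      calc ε / σ * (1 / (Real.pi * ‖lat m‖)) * Real.exp (-(Real.pi * σ * ‖lat m‖))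
          ≤ ε / σ * 1 * Real.exp (-(σ * ‖lat m‖)) := by
            refine mul_le_mul (mul_le_mul_of_nonneg_left h7 h11) h8 (Real.exp_pos _).le (by positivity)
        _ = ε / σ * Real.exp (-(σ * ‖lat m‖)) := by ring
    refine (Finset.sum_le_sum hterm).trans ?_
    rw [← Finset.mul_sum]
    have h12 := hCs σ hσ hσ1 ((bx n K).erase 0)
    have h13 : ε / σ * ∑ m ∈ (bx n K).erase 0, Real.exp (-(σ * ‖lat m‖)) ≤ ε / σ * (C / σ ^ n) :=
      mul_le_mul_of_nonneg_left h12 (by positivity)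
    refine h13.trans (le_of_eq ?_)
    rw [div_mul_div_comm, pow_succ']
    ring
  · intro z hz
    have hz2 : z.2 ∈ (Dw (σ / 2) (R - σ / 2) : Set (CE n)) := ⟨hz.2.1, hz.2.2⟩
    rw [c11_gx_sum (isOpen_D (σ / 2) (R - σ / 2)) ((bx n K).erase 0) a hz hdiff z.2]
    congr 1
    refine Finset.sum_congr rfl fun m hm => ?_
    have hm0 : m ≠ 0 := (Finset.mem_erase.mp hm).1
    have h2 := (hq m hm0).2.1 z.2 hz2
    rw [← h2]
    simp only [ha]
    field_simp

theorem res_sum {n : ℕ} {σ R ε A : ℝ} (hσ : 0 < σ) (hε : 0 ≤ ε) (hA : 0 < A) {G : CE n × CE n → ℂ}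
    (hG : DifferentiableOn ℂ G (D σ R)) (hp : PerX σ R G) (hB : ∀ z ∈ D σ R, ‖G z‖ ≤ ε) {K : ℕ}
    (hres : RsC K A (R - σ / 2) G) {z : CE n × CE n} (h1 : ‖im z.1‖ ≤ σ / 2)
    (h2 : z.2 ∈ (Dw (σ / 16) (R - σ) : Set (CE n))) :
    ‖∑ m ∈ (bx n K).erase 0, coef G m (Pm m z.2) * ch m z.1‖ ≤
      (2 * (K : ℝ) + 1) ^ n * √(A * ε) := by
  refine (norm_sum_le _ _).trans ?_
  have hterm : ∀ m ∈ (bx n K).erase 0, ‖coef G m (Pm m z.2) * ch m z.1‖ ≤ √(A * ε) := by
    intro m hm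
    have hm0 : m ≠ 0 := (Finset.mem_erase.mp hm).1
    have hmb : m ∈ bx n K := (Finset.mem_erase.mp hm).2
    have h3 := res_complex hσ hA hm0 (coef_hol hσ hG m)
      (fun w hw => coef_bound hσ hG hp hB m hw)
      (fun w hw1 hw2 => hres m hmb hm0 w hw1 hw2) h2
    have h4 := c11_ch_norm_le m z.1 h1
    rw [norm_mul]
    have e1 : √(A * (ε * Real.exp (-(2 * Real.pi * σ * ‖lat m‖)))) =
        √(A * ε) * Real.exp (-(Real.pi * σ * ‖lat m‖)) := by
      have e2 : Real.exp (-(2 * Real.pi * σ * ‖lat m‖)) =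
          Real.exp (-(Real.pi * σ * ‖lat m‖)) ^ 2 := by
        rw [← Real.exp_nat_mul]
        congr 1
        push_cast
        ring
      rw [← mul_assoc, Real.sqrt_mul (by positivity), e2, Real.sqrt_sq (Real.exp_pos _).le]
    rw [e1] at h3
    calc ‖coef G m (Pm m z.2)‖ * ‖ch m z.1‖
        ≤ (√(A * ε) * Real.exp (-(Real.pi * σ * ‖lat m‖))) *
            Real.exp (2 * Real.pi * ‖lat m‖ * (σ / 2)) :=
          mul_le_mul h3 h4 (norm_nonneg _) (by positivity)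
      _ = √(A * ε) * (Real.exp (-(Real.pi * σ * ‖lat m‖)) *
            Real.exp (2 * Real.pi * ‖lat m‖ * (σ / 2))) := by ring
      _ = √(A * ε) := by
          rw [← Real.exp_add]
          have : -(Real.pi * σ * ‖lat m‖) + 2 * Real.pi * ‖lat m‖ * (σ / 2) = 0 := by ring
          rw [this, Real.exp_zero, mul_one]
  refine (Finset.sum_le_sum hterm).trans ?_
  rw [Finset.sum_const, nsmul_eq_mul, ← c11_card_bx]
  refine mul_le_mul_of_nonneg_right ?_ (Real.sqrt_nonneg _)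
  exact_mod_cast Finset.card_erase_le

end Pool.Agent.LRT
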