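import Pool.Agent.LRT.C1

/-!
C2 (difficulty 1).  Cauchy estimates.

PROOF.  `cauchy_fderiv`: for `v` with `‖v‖ ≤ 1` and `0 < r' < r`, `g ζ = F (z + ζ • v)` is
differentiable on `ball 0 r`, so `‖deriv g 0‖ ≤ B / r'`
(`Complex.norm_deriv_le_of_forall_mem_sphere_norm_le` on the circle of radius `r'`), and
`deriv g 0 = fderiv ℂ F z v` (chain rule).  Let `r' → r`; then `ContinuousLinearMap.opNorm_le_bound`.
`cauchy_fderiv2`: on `ball z (r/2)` one has `‖fderiv ℂ F y‖ ≤ B / (r/2)`, and `fderiv ℂ F` is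
differentiable there (`hol_fderiv`); apply `cauchy_fderiv` with radius `r/2`.
`taylor2`: for `y ∈ ball z (r/2)`, `‖fderiv ℂ (fderiv ℂ F) y‖ ≤ 4 B / (r/2)^2 = 16 B / r^2` by
`cauchy_fderiv2` (ball `y (r/2) ⊆ ball z r`), hence
`‖fderiv ℂ F (z + t v) - fderiv ℂ F z‖ ≤ 16 B / r^2 ‖v‖`
(`Convex.norm_image_sub_le_of_norm_fderiv_le`) and a second use of the mean value inequality for
`y ↦ F y - fderiv ℂ F z y` on the segment.
`lip_im`: the mean value inequality between `z` and its real part `z₀ = (ofR (re z.1), ofR (re z.2))`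
(in `D ρ R`, segment in `D ρ R` by `convex_D`); `cj (F z₀) = F z₀`, so `im (F z₀) = 0`;
`im (F z) = im (F z - F z₀)`, `‖z - z₀‖ = max ‖im z.1‖ ‖im z.2‖ ≤ s`.
-/

set_option autoImplicit false

open Set MeasureTheory Topology

namespace Pool.Agent.LRT

section gen0

variable {V W : Type*} [NormedAddCommGroup V] [NormedSpace ℂ V]
    [NormedAddCommGroup W] [NormedSpace ℂ W]

lemma c2_deriv {F : V → W} {z : V} (hF : DifferentiableAt ℂ F z) (v : V) :
    deriv (fun ζ : ℂ => F (z + ζ • v)) 0 = fderiv ℂ F z v := by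
  have h1 : HasDerivAt (fun ζ : ℂ => z + ζ • v) v 0 := by
    simpa using ((hasDerivAt_id (0 : ℂ)).smul_const v).const_add z
  have h2 := hF.hasFDerivAt.comp_hasDerivAt_of_eq (0 : ℂ) h1 (by simp)
  exact h2.deriv

lemma c2_cauchy {F : V → W} {z : V} {r B : ℝ} (hr : 0 < r)
    (hF : DifferentiableOn ℂ F (Metric.ball z r)) (hB : ∀ y ∈ Metric.ball z r, ‖F y‖ ≤ B) :
    ‖fderiv ℂ F z‖ ≤ B / r := by
  have hB0 : 0 ≤ B := (norm_nonneg _).trans (hB z (Metric.mem_ball_self hr))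
  refine ContinuousLinearMap.opNorm_le_bound _ (by positivity) fun v => ?_
  have hFz : DifferentiableAt ℂ F z :=
    hF.differentiableAt (Metric.isOpen_ball.mem_nhds (Metric.mem_ball_self hr))
  rcases eq_or_ne v 0 with hv | hv
  · rw [hv]; simp
  have hv0 : 0 < ‖v‖ := norm_pos_iff.2 hv
  have key : ∀ r' : ℝ, 0 < r' → r' < r → ‖fderiv ℂ F z v‖ * r' ≤ B * ‖v‖ := by
    intro r' h1 h2
    have hmem : ∀ ζ : ℂ, ‖ζ‖ ≤ r' / ‖v‖ → z + ζ • v ∈ Metric.ball z r := by
      intro ζ hζ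
      rw [Metric.mem_ball, dist_eq_norm, add_sub_cancel_left, norm_smul]
      have : ‖ζ‖ * ‖v‖ ≤ r' := by
        rw [← le_div_iff₀ hv0]; exact hζ
      linarith
    have hd : DiffContOnCl ℂ (fun ζ : ℂ => F (z + ζ • v)) (Metric.ball 0 (r' / ‖v‖)) := by
      have hdo : DifferentiableOn ℂ (fun ζ : ℂ => F (z + ζ • v))
          (Metric.closedBall 0 (r' / ‖v‖)) := by
        refine hF.comp (f := fun ζ : ℂ => z + ζ • v) (by fun_prop) ?_
        intro ζ hζ
        exact hmem ζ (by simpa using hζ)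
      exact ⟨hdo.mono Metric.ball_subset_closedBall,
        hdo.continuousOn.mono Metric.closure_ball_subset_closedBall⟩
    have h3 := Complex.norm_deriv_le_of_forall_mem_sphere_norm_le (C := B) (div_pos h1 hv0) hd
      (fun ζ hζ => hB _ (hmem ζ (le_of_eq (by simpa using hζ))))
    rw [c2_deriv hFz v, le_div_iff₀ (div_pos h1 hv0), mul_div_assoc', div_le_iff₀ hv0] at h3
    exact h3
  rw [div_mul_eq_mul_div, le_div_iff₀ hr]
  by_contra hcon
  push Not at hcon
  have hD : 0 < ‖fderiv ℂ F z v‖ := by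
    by_contra h0
    have h0' : ‖fderiv ℂ F z v‖ = 0 := le_antisymm (not_lt.1 h0) (norm_nonneg _)
    rw [h0', zero_mul] at hcon
    have : 0 ≤ B * ‖v‖ := by positivity
    linarith
  have h5 : B * ‖v‖ / ‖fderiv ℂ F z v‖ < r := by
    rw [div_lt_iff₀ hD]; linarith
  have h6 : 0 ≤ B * ‖v‖ / ‖fderiv ℂ F z v‖ := by positivity
  have h7 := key ((B * ‖v‖ / ‖fderiv ℂ F z v‖ + r) / 2) (by linarith) (by linarith)
  rw [← le_div_iff₀' hD] at h7
  linarith

end gen0

section gen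

variable {V W : Type*} [NormedAddCommGroup V] [NormedSpace ℂ V] [FiniteDimensional ℂ V]
    [NormedAddCommGroup W] [NormedSpace ℂ W] [FiniteDimensional ℂ W]

theorem cauchy_fderiv {F : V → W} {z : V} {r B : ℝ} (hr : 0 < r)
    (hF : DifferentiableOn ℂ F (Metric.ball z r)) (hB : ∀ y ∈ Metric.ball z r, ‖F y‖ ≤ B) :
    ‖fderiv ℂ F z‖ ≤ B / r :=
  c2_cauchy hr hF hB

theorem cauchy_fderiv2 {F : V → W} {z : V} {r B : ℝ} (hr : 0 < r)
    (hF : DifferentiableOn ℂ F (Metric.ball z r)) (hB : ∀ y ∈ Metric.ball z r, ‖F y‖ ≤ B) :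
    ‖fderiv ℂ (fderiv ℂ F) z‖ ≤ 4 * B / r ^ 2 := by
  have hr2 : 0 < r / 2 := by linarith
  have hd : DifferentiableOn ℂ (fderiv ℂ F) (Metric.ball z (r / 2)) :=
    (hol_fderiv Metric.isOpen_ball hF).mono (Metric.ball_subset_ball (by linarith))
  have hb : ∀ y ∈ Metric.ball z (r / 2), ‖fderiv ℂ F y‖ ≤ B / (r / 2) := by
    intro y hy
    have hsub : Metric.ball y (r / 2) ⊆ Metric.ball z r := by
      refine Metric.ball_subset_ball' ?_
      have := Metric.mem_ball.1 hy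
      linarith
    exact c2_cauchy hr2 (hF.mono hsub) (fun x hx => hB x (hsub hx))
  have := c2_cauchy hr2 hd hb
  refine this.trans (le_of_eq ?_)
  field_simp
  ring

theorem taylor2 {F : V → W} {z v : V} {r B : ℝ} (hr : 0 < r)
    (hF : DifferentiableOn ℂ F (Metric.ball z r)) (hB : ∀ y ∈ Metric.ball z r, ‖F y‖ ≤ B)
    (hv : ‖v‖ < r / 2) :
    ‖F (z + v) - F z - fderiv ℂ F z v‖ ≤ 16 * B / r ^ 2 * ‖v‖ ^ 2 := by
  have hr2 : 0 < r / 2 := by linarith
  have hB0 : 0 ≤ B := (norm_nonneg _).trans (hB z (Metric.mem_ball_self hr))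
  have hC0 : 0 ≤ 16 * B / r ^ 2 := by positivity
  have hd : DifferentiableOn ℂ (fderiv ℂ F) (Metric.ball z r) :=
    hol_fderiv Metric.isOpen_ball hF
  have hsub0 : Metric.ball z (r / 2) ⊆ Metric.ball z r := Metric.ball_subset_ball (by linarith)
  have hb : ∀ y ∈ Metric.ball z (r / 2), ‖fderiv ℂ (fderiv ℂ F) y‖ ≤ 16 * B / r ^ 2 := by
    intro y hy
    have hsub : Metric.ball y (r / 2) ⊆ Metric.ball z r := by
      refine Metric.ball_subset_ball' ?_
      have := Metric.mem_ball.1 hy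
      linarith
    refine (cauchy_fderiv2 hr2 (hF.mono hsub) (fun x hx => hB x (hsub hx))).trans (le_of_eq ?_)
    field_simp
    ring
  have h1 : ∀ y ∈ Metric.closedBall z ‖v‖, ‖fderiv ℂ F y - fderiv ℂ F z‖ ≤
      16 * B / r ^ 2 * ‖v‖ := by
    intro y hy
    have hy1 : ‖y - z‖ ≤ ‖v‖ := by rw [← dist_eq_norm]; exact hy
    have hy2 : y ∈ Metric.ball z (r / 2) := by
      rw [Metric.mem_ball, dist_eq_norm]; linarith
    have := (convex_ball z (r / 2)).norm_image_sub_le_of_norm_fderiv_le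
      (fun x hx => hd.differentiableAt (Metric.isOpen_ball.mem_nhds (hsub0 hx))) hb
      (Metric.mem_ball_self hr2) hy2
    exact this.trans (mul_le_mul_of_nonneg_left hy1 hC0)
  have h2 : ∀ y ∈ Metric.closedBall z ‖v‖, DifferentiableAt ℂ F y := by
    intro y hy
    have hy1 : ‖y - z‖ ≤ ‖v‖ := by rw [← dist_eq_norm]; exact hy
    refine hF.differentiableAt (Metric.isOpen_ball.mem_nhds ?_)
    rw [Metric.mem_ball, dist_eq_norm]; linarith
  have h3 := (convex_closedBall z ‖v‖).norm_image_sub_le_of_norm_fderiv_le' h2 h1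
    (Metric.mem_closedBall_self (norm_nonneg v)) (y := z + v)
    (by rw [Metric.mem_closedBall, dist_eq_norm, add_sub_cancel_left])
  rw [add_sub_cancel_left] at h3
  refine h3.trans (le_of_eq ?_)
  ring

end gen

variable {n : ℕ}

theorem lip_im {ρ R κ s : ℝ} {g : CE n × CE n → CE n}
    (hg : DifferentiableOn ℂ g (D ρ R)) (hκ : ∀ z ∈ (D ρ R : Set (CE n × CE n)), ‖fderiv ℂ g z‖ ≤ κ)
    (hreal : ∀ z ∈ (D ρ R : Set (CE n × CE n)), g (cjp z) = cj (g z)) {z : CE n × CE n}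
    (hz : z ∈ (D ρ R : Set (CE n × CE n))) (h1 : ‖im z.1‖ ≤ s) (h2 : ‖im z.2‖ ≤ s) :
    ‖im (g z)‖ ≤ κ * s := by
  have hκ0 : 0 ≤ κ := (norm_nonneg _).trans (hκ z hz)
  obtain ⟨z0, hz0⟩ : ∃ z0 : CE n × CE n, z0 = (ofR (re z.1), ofR (re z.2)) := ⟨_, rfl⟩
  have hρ : 0 < ρ := (norm_nonneg _).trans_lt hz.1
  have hmem : z0 ∈ (D ρ R : Set (CE n × CE n)) := by
    rw [hz0]
    exact ofR_mem_D hρ _ hz.2.2
  have hc : cjp z0 = z0 := by
    rw [hz0]; simp [cjp]
  have him : im (g z0) = 0 := by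
    have h := hreal z0 hmem
    rw [hc] at h
    have h' : im (g z0) = - im (g z0) := by
      conv_lhs => rw [h, im_cj]
    ext i
    have h'' : im (g z0) i = - (im (g z0) i) := by
      conv_lhs => rw [h']
      rfl
    simp only [PiLp.zero_apply]
    linarith
  have hcoord : ∀ x : CE n, ‖x - ofR (re x)‖ = ‖im x‖ := by
    intro x
    have : x - ofR (re x) = Complex.I • ofR (im x) := by
      rw [sub_eq_iff_eq_add, add_comm]
      exact eq_re_im x
    rw [this, norm_smul, Complex.norm_I, one_mul, norm_ofR]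
  have hdist : ‖z - z0‖ ≤ s := by
    rw [hz0, Prod.norm_def]
    refine max_le ?_ ?_
    · change ‖z.1 - ofR (re z.1)‖ ≤ s
      rw [hcoord]; exact h1
    · change ‖z.2 - ofR (re z.2)‖ ≤ s
      rw [hcoord]; exact h2
  have hmv := (convex_D ρ R).norm_image_sub_le_of_norm_fderiv_le
    (fun x hx => hg.differentiableAt ((isOpen_D ρ R).mem_nhds hx)) hκ hmem hz
  have e : im (g z) = im (g z - g z0) := by rw [im_sub, him, sub_zero]
  rw [e]
  exact (norm_im_le _).trans (hmv.trans (mul_le_mul_of_nonneg_left hdist hκ0))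

end Pool.Agent.LRT
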