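import Pool.Agent.LRT.NS
import Pool.Agent.LRT.C2

/-!
C8 (difficulty 3).  Elementary estimates for a state `NS κ ρ R CH H b u`.

PROOF.  All functions are built from holomorphic ones: `gb b = grad ∘ fderiv ℂ b` (`hol_fderiv`, `grad` is
continuous linear), `gx u = grad ∘ (comp with inl) ∘ fderiv ℂ u`, `gw u` similarly; `hess b = fderiv (gb b)`.
`q_mem`: `g z = qv b u z - z.2` is holomorphic on `D ρ R`, satisfies `g (cjp z) = cj (g z)` (derivatives of a
function `F` with `F ∘ cjp = conj ∘ F` satisfy `fderiv F (cjp z) (cjp v) = conj (fderiv F z v)`: prove this for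
`gb`, `gx`, `gw` as `gb b (cj w) = cj (gb b w)`, `gx u (cjp z) = cj (gx u z)`; e.g. apply `fderiv` over `ℝ` to
`F ∘ cjp = conj ∘ F`, or compute with `HasFDerivAt` in the direction of the basis), and
`‖fderiv ℂ g z‖ ≤ ‖hess b z.2 - 1‖ + ‖fderiv (gx u) z‖ ≤ 2κ`.  `lip_im` with `s`:
`‖im (g z)‖ ≤ 2κ ρ ≤ ρ/50` (take `s = max ‖im z.1‖ ‖im z.2‖ < ρ`), so `‖im q‖ < 3ρ/2`;
`‖re q‖ ≤ ‖re z.2‖ + ‖g z‖ < R + 2κ ≤ R + 1/2` as `‖g z‖ ≤ κ + ‖gx u z‖ ≤ 2κ`.
`isUnit_hess`: `hess b w = 1 - (1 - hess b w)`, `‖1 - hess b w‖ ≤ κ < 1` (`Units.oneSub`);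
`‖Ring.inverse (hess b w)‖ ≤ 1/(1-κ) ≤ 101/100` (from `‖T⁻¹‖ ≤ 1 + κ ‖T⁻¹‖`).
`gv`: product rule; `Ring.inverse` is differentiable at units (`differentiableAt_inverse`) with derivative
`T ↦ - S⁻¹ T S⁻¹` (`fderiv_inverse`), so `‖fderiv (gv b u) z‖ ≤ 1.02 κ + 1.03 κ² ≤ 1/8`,
`‖gv‖ ≤ 2κ`.  Reality of `gv`: `hess b (cj w) (cj v) = cj (hess b w v)`, hence the same for the inverse.
Periodicity: derivatives of a function periodic on the open set `D ρ R` (invariant under real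
translations in `x`) are periodic; `hess b z.2` does not see `x`.
`err_hol`: composition of `H` with `z ↦ (z.1, qv b u z)`, plus bilinear terms (`dotB`).
-/

set_option autoImplicit false

open Set MeasureTheory Topology

namespace Pool.Agent.LRT

theorem c8_fd {V W : Type*} [NormedAddCommGroup V] [NormedSpace ℂ V] [NormedSpace ℝ V] [IsScalarTower ℝ ℂ V]
    [NormedAddCommGroup W] [NormedSpace ℂ W] [NormedSpace ℝ W] [IsScalarTower ℝ ℂ W] (σ : V →L[ℝ] V) (τ : W →L[ℝ] W)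
    (hσ : ∀ v, σ (σ v) = v) {U : Set V} (hU : IsOpen U) (hσU : ∀ z ∈ U, σ z ∈ U) {F : V → W}
    (hF : DifferentiableOn ℂ F U) (hFσ : ∀ z ∈ U, F (σ z) = τ (F z)) {z : V} (hz : z ∈ U) (v : V) :
    fderiv ℂ F (σ z) v = τ (fderiv ℂ F z (σ v)) := by
  have h1 : HasFDerivAt F (fderiv ℂ F z) z := (hF.differentiableAt (hU.mem_nhds hz)).hasFDerivAt
  have h2 : HasFDerivAt F (fderiv ℂ F (σ z)) (σ z) :=
    (hF.differentiableAt (hU.mem_nhds (hσU z hz))).hasFDerivAt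
  have h1' := h1.restrictScalars ℝ
  have h2' := h2.restrictScalars ℝ
  have h3 : HasFDerivAt (fun y => τ (F (σ y))) (τ.comp (((fderiv ℂ F z).restrictScalars ℝ).comp σ)) (σ z) := by
    have h4 : HasFDerivAt F ((fderiv ℂ F z).restrictScalars ℝ) (σ (σ z)) := by rw [hσ z]; exact h1'
    exact τ.hasFDerivAt.comp (σ z) (h4.comp (σ z) σ.hasFDerivAt)
  have h5 : (fun y => τ (F (σ y))) =ᶠ[𝓝 (σ z)] F := by
    filter_upwards [hU.mem_nhds (hσU z hz)] with y hy
    rw [← hFσ (σ y) (hσU y hy), hσ]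
  have h6 := h3.congr_of_eventuallyEq h5.symm
  have h7 := h2'.unique h6
  have h8 := congrArg (fun l : V →L[ℝ] W => l v) h7
  exact h8

theorem c8_shift {V W : Type*} [NormedAddCommGroup V] [NormedSpace ℂ V] [NormedAddCommGroup W] [NormedSpace ℂ W]
    {U : Set V} (hU : IsOpen U) {F : V → W} {a : V} (hF : ∀ z ∈ U, F (z + a) = F z) {z : V} (hz : z ∈ U) :
    fderiv ℂ F (z + a) = fderiv ℂ F z := by
  have h1 : (fun y => F (y + a)) =ᶠ[𝓝 z] F := by
    filter_upwards [hU.mem_nhds hz] with y hy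
    exact hF y hy
  rw [← h1.fderiv_eq, fderiv_comp_add_right]

variable {n : ℕ} {κ ρ R CH : ℝ} {H : CE n × CE n → ℂ} {b : CE n → ℂ} {u : CE n × CE n → ℂ}

theorem c8_cj_add (z w : CE n) : cj (z + w) = cj z + cj w := by
  ext i
  simp

theorem c8_cj_sub (z w : CE n) : cj (z - w) = cj z - cj w := by
  ext i
  simp

theorem c8_cj_zero : cj (0 : CE n) = 0 := by
  ext i
  simp

theorem c8_cj_smul (r : ℝ) (z : CE n) : cj (r • z) = r • cj z := by
  ext i
  simp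

/-- conjugation as a real linear map -/
noncomputable def c8_cjL : CE n →L[ℝ] CE n :=
  LinearMap.mkContinuous ⟨⟨cj, c8_cj_add⟩, fun r z => c8_cj_smul r z⟩ 1 (fun z => by
    rw [one_mul]; exact (norm_cj z).le)

theorem c8_cjL_apply (z : CE n) : c8_cjL z = cj z := rfl

/-- conjugation of pairs as a real linear map -/
noncomputable def c8_cjpL : (CE n × CE n) →L[ℝ] (CE n × CE n) := (c8_cjL (n := n)).prodMap c8_cjL

theorem c8_cjpL_apply (z : CE n × CE n) : c8_cjpL z = cjp z := rfl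

theorem c8_fd_b {b : CE n → ℂ} (hb : DifferentiableOn ℂ b (Dw ρ R))
    (hr : ∀ w ∈ (Dw ρ R : Set (CE n)), b (cj w) = (starRingEnd ℂ) (b w)) {w : CE n}
    (hw : w ∈ (Dw ρ R : Set (CE n))) (v : CE n) : fderiv ℂ b (cj w) v = (starRingEnd ℂ) (fderiv ℂ b w (cj v)) :=
  c8_fd c8_cjL (Complex.conjCLE : ℂ →L[ℝ] ℂ) (fun v => cj_cj v) (isOpen_Dw ρ R) (fun _ hz => cj_mem_Dw hz) hb hr hw v

theorem c8_fd_u {u : CE n × CE n → ℂ} (hu : DifferentiableOn ℂ u (D ρ R)) (hr : RealX ρ R u) {z : CE n × CE n}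
    (hz : z ∈ (D ρ R : Set (CE n × CE n))) (v : CE n × CE n) :
    fderiv ℂ u (cjp z) v = (starRingEnd ℂ) (fderiv ℂ u z (cjp v)) :=
  c8_fd c8_cjpL (Complex.conjCLE : ℂ →L[ℝ] ℂ) (fun v => cjp_cjp v) (isOpen_D ρ R) (fun _ hz => cjp_mem_D hz) hu hr hz v

/-- derivatives of real holomorphic functions are real -/
theorem gb_cj {ρ R : ℝ} {b : CE n → ℂ} (hb : DifferentiableOn ℂ b (Dw ρ R))
    (hr : ∀ w ∈ (Dw ρ R : Set (CE n)), b (cj w) = (starRingEnd ℂ) (b w)) {w : CE n}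
    (hw : w ∈ (Dw ρ R : Set (CE n))) : gb b (cj w) = cj (gb b w) := by
  refine dot_ext fun v => ?_
  rw [dot_gb, c8_fd_b hb hr hw, ← dot_gb, ← dot_cj, cj_cj]

theorem gx_cj {ρ R : ℝ} {u : CE n × CE n → ℂ} (hu : DifferentiableOn ℂ u (D ρ R))
    (hr : RealX ρ R u) {z : CE n × CE n} (hz : z ∈ (D ρ R : Set (CE n × CE n))) :
    gx u (cjp z) = cj (gx u z) := by
  refine dot_ext fun v => ?_
  have h1 : cjp (v, (0 : CE n)) = (cj v, 0) := by rw [cjp, c8_cj_zero]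
  rw [dot_gx, c8_fd_u hu hr hz, h1, ← dot_gx, ← dot_cj, cj_cj]

theorem gw_cj {ρ R : ℝ} {u : CE n × CE n → ℂ} (hu : DifferentiableOn ℂ u (D ρ R))
    (hr : RealX ρ R u) {z : CE n × CE n} (hz : z ∈ (D ρ R : Set (CE n × CE n))) :
    gw u (cjp z) = cj (gw u z) := by
  refine dot_ext fun v => ?_
  have h1 : cjp ((0 : CE n), v) = (0, cj v) := by rw [cjp, c8_cj_zero]
  rw [dot_gw, c8_fd_u hu hr hz, h1, ← dot_gw, ← dot_cj, cj_cj]

theorem gb_hol {ρ R : ℝ} {b : CE n → ℂ} (hb : DifferentiableOn ℂ b (Dw ρ R)) :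
    DifferentiableOn ℂ (gb b) (Dw ρ R) ∧ DifferentiableOn ℂ (hess b) (Dw ρ R) := by
  have h1 : DifferentiableOn ℂ (gb b) (Dw ρ R) :=
    (grad (n := n)).differentiable.comp_differentiableOn (hol_fderiv (isOpen_Dw ρ R) hb)
  exact ⟨h1, hol_fderiv (isOpen_Dw ρ R) h1⟩

/-- the linear map which gives `gx` -/
noncomputable def c8_Lx : ((CE n × CE n) →L[ℂ] ℂ) →L[ℂ] CE n :=
  LinearMap.mkContinuous ⟨⟨fun l => grad (l.comp (ContinuousLinearMap.inl ℂ (CE n) (CE n))), fun l l' => by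
    rw [ContinuousLinearMap.add_comp, map_add]⟩, fun c l => by
    simp only [RingHom.id_apply]
    rw [ContinuousLinearMap.smul_comp, map_smul]⟩ 1 (fun l => by
    rw [one_mul]
    refine (norm_grad_le _).trans ?_
    refine ContinuousLinearMap.opNorm_le_bound _ (norm_nonneg _) fun v => ?_
    refine (l.le_opNorm (v, 0)).trans ?_
    rw [Prod.norm_def]
    simp)

/-- the linear map which gives `gw` -/
noncomputable def c8_Lw : ((CE n × CE n) →L[ℂ] ℂ) →L[ℂ] CE n :=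
  LinearMap.mkContinuous ⟨⟨fun l => grad (l.comp (ContinuousLinearMap.inr ℂ (CE n) (CE n))), fun l l' => by
    rw [ContinuousLinearMap.add_comp, map_add]⟩, fun c l => by
    simp only [RingHom.id_apply]
    rw [ContinuousLinearMap.smul_comp, map_smul]⟩ 1 (fun l => by
    rw [one_mul]
    refine (norm_grad_le _).trans ?_
    refine ContinuousLinearMap.opNorm_le_bound _ (norm_nonneg _) fun v => ?_
    refine (l.le_opNorm (0, v)).trans ?_
    rw [Prod.norm_def]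
    simp)

theorem c8_Lx_norm : ‖(c8_Lx : ((CE n × CE n) →L[ℂ] ℂ) →L[ℂ] CE n)‖ ≤ 1 := LinearMap.mkContinuous_norm_le _ zero_le_one _

theorem c8_Lw_norm : ‖(c8_Lw : ((CE n × CE n) →L[ℂ] ℂ) →L[ℂ] CE n)‖ ≤ 1 := LinearMap.mkContinuous_norm_le _ zero_le_one _

theorem c8_gx (u : CE n × CE n → ℂ) : gx u = fun z => c8_Lx (fderiv ℂ u z) := rfl

theorem c8_gw (u : CE n × CE n → ℂ) : gw u = fun z => c8_Lw (fderiv ℂ u z) := rfl

theorem c8_comp_le {V W T : Type*} [NormedAddCommGroup V] [NormedSpace ℂ V] [NormedAddCommGroup W] [NormedSpace ℂ W]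
    [NormedAddCommGroup T] [NormedSpace ℂ T] (L : W →L[ℂ] T) (hL : ‖L‖ ≤ 1) {F : V → W} {z : V}
    (hF : DifferentiableAt ℂ F z) {B : ℝ} (hB : ‖fderiv ℂ F z‖ ≤ B) : ‖fderiv ℂ (fun y => L (F y)) z‖ ≤ B := by
  have h1 : HasFDerivAt (fun y => L (F y)) (L.comp (fderiv ℂ F z)) z := L.hasFDerivAt.comp z hF.hasFDerivAt
  rw [h1.fderiv]
  refine (ContinuousLinearMap.opNorm_comp_le _ _).trans ?_
  nlinarith [norm_nonneg L, norm_nonneg (fderiv ℂ F z)]

theorem gx_hol {ρ R : ℝ} {u : CE n × CE n → ℂ} (hu : DifferentiableOn ℂ u (D ρ R)) :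
    DifferentiableOn ℂ (gx u) (D ρ R) ∧ DifferentiableOn ℂ (gw u) (D ρ R) := by
  have h1 := hol_fderiv (isOpen_D ρ R) hu
  exact ⟨(c8_Lx (n := n)).differentiable.comp_differentiableOn h1,
    (c8_Lw (n := n)).differentiable.comp_differentiableOn h1⟩

theorem c8_snd {z : CE n × CE n} (hz : z ∈ (D ρ R : Set (CE n × CE n))) : z.2 ∈ (Dw ρ R : Set (CE n)) := ⟨hz.2.1, hz.2.2⟩

theorem c8_qv_hol (h : NS κ ρ R CH H b u) : DifferentiableOn ℂ (qv b u) (D ρ R) := by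
  have h1 : DifferentiableOn ℂ (fun z : CE n × CE n => gb b z.2) (D ρ R) :=
    (gb_hol h.bd).1.comp differentiable_snd.differentiableOn (fun z hz => c8_snd hz)
  exact h1.add (gx_hol h.ud).1

theorem c8_qv_norm (h : NS κ ρ R CH H b u) {z : CE n × CE n} (hz : z ∈ (D ρ R : Set (CE n × CE n))) :
    ‖qv b u z - z.2‖ ≤ 2 * κ := by
  have e : qv b u z - z.2 = (gb b z.2 - z.2) + gx u z := by unfold qv; abel
  rw [e]
  refine (norm_add_le _ _).trans ?_
  have h1 := h.b1 z.2 (c8_snd hz)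
  have h2 := (norm_gx_le u z).trans (h.u1 z hz)
  linarith

theorem c8_qv_fd (h : NS κ ρ R CH H b u) {z : CE n × CE n} (hz : z ∈ (D ρ R : Set (CE n × CE n))) :
    ‖fderiv ℂ (fun z => qv b u z - z.2) z‖ ≤ 2 * κ := by
  have h1 : HasFDerivAt (gb b) (hess b z.2) z.2 :=
    ((gb_hol h.bd).1.differentiableAt ((isOpen_Dw ρ R).mem_nhds (c8_snd hz))).hasFDerivAt
  have h2 : HasFDerivAt (fun z : CE n × CE n => gb b z.2 - z.2)
      ((hess b z.2).comp (ContinuousLinearMap.snd ℂ (CE n) (CE n)) - ContinuousLinearMap.snd ℂ (CE n) (CE n)) z := by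
    have h3 : HasFDerivAt (fun z : CE n × CE n => z.2) (ContinuousLinearMap.snd ℂ (CE n) (CE n)) z := hasFDerivAt_snd
    exact (HasFDerivAt.comp (f := fun z : CE n × CE n => z.2) z h1 h3).sub h3
  have h4 : HasFDerivAt (gx u) (fderiv ℂ (gx u) z) z :=
    ((gx_hol h.ud).1.differentiableAt ((isOpen_D ρ R).mem_nhds hz)).hasFDerivAt
  have h5 := h2.add h4
  have e : (fun z : CE n × CE n => qv b u z - z.2) = fun z => (gb b z.2 - z.2) + gx u z := by
    funext z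
    unfold qv
    abel
  have h6 : HasFDerivAt (fun z => qv b u z - z.2) (((hess b z.2).comp (ContinuousLinearMap.snd ℂ (CE n) (CE n)) -
      ContinuousLinearMap.snd ℂ (CE n) (CE n)) + fderiv ℂ (gx u) z) z := by
    rw [e]
    exact h5
  rw [h6.fderiv]
  refine (norm_add_le _ _).trans ?_
  have h7 : ‖(hess b z.2).comp (ContinuousLinearMap.snd ℂ (CE n) (CE n)) - ContinuousLinearMap.snd ℂ (CE n) (CE n)‖ ≤ κ := by
    have h8 : (hess b z.2).comp (ContinuousLinearMap.snd ℂ (CE n) (CE n)) - ContinuousLinearMap.snd ℂ (CE n) (CE n) =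
        (hess b z.2 - 1).comp (ContinuousLinearMap.snd ℂ (CE n) (CE n)) := by
      ext v <;> simp
    rw [h8]
    refine (ContinuousLinearMap.opNorm_comp_le _ _).trans ?_
    have h9 := ContinuousLinearMap.norm_snd_le (𝕜 := ℂ) (E := CE n) (F := CE n)
    have h10 := h.b2 z.2 (c8_snd hz)
    nlinarith [norm_nonneg (hess b z.2 - 1), norm_nonneg (ContinuousLinearMap.snd ℂ (CE n) (CE n))]
  have h11 : ‖fderiv ℂ (gx u) z‖ ≤ κ := by
    rw [c8_gx]
    exact c8_comp_le c8_Lx c8_Lx_norm ((hol_fderiv (isOpen_D ρ R) h.ud).differentiableAt ((isOpen_D ρ R).mem_nhds hz))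
      (h.u2 z hz)
  linarith

theorem c8_qv_real (h : NS κ ρ R CH H b u) {z : CE n × CE n} (hz : z ∈ (D ρ R : Set (CE n × CE n))) :
    qv b u (cjp z) = cj (qv b u z) := by
  unfold qv
  rw [c8_cj_add, gx_cj h.ud h.ur hz]
  congr 1
  exact gb_cj h.bd h.br (c8_snd hz)

theorem c8_add_shift (z : CE n × CE n) (k : Fin n → ℤ) : (z.1 + ofR (lat k), z.2) = z + (ofR (lat k), 0) := by
  rw [Prod.ext_iff]
  exact ⟨rfl, (add_zero _).symm⟩

theorem c8_gx_per {u : CE n × CE n → ℂ} (hp : PerX ρ R u) : PerX ρ R (gx u) ∧ PerX ρ R (gw u) := by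
  have h1 : ∀ z ∈ (D ρ R : Set (CE n × CE n)), ∀ k : Fin n → ℤ,
      fderiv ℂ u (z.1 + ofR (lat k), z.2) = fderiv ℂ u z := by
    intro z hz k
    rw [c8_add_shift]
    refine c8_shift (isOpen_D ρ R) ?_ hz
    intro y hy
    rw [← c8_add_shift]
    exact hp y hy k
  exact ⟨fun z hz k => by rw [c8_gx]; simp only [h1 z hz k], fun z hz k => by rw [c8_gw]; simp only [h1 z hz k]⟩

theorem c8_qv_per (h : NS κ ρ R CH H b u) : PerX ρ R (qv b u) := by
  intro z hz k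
  unfold qv
  rw [(c8_gx_per h.up).1 z hz k]

theorem NS.q_mem (h : NS κ ρ R CH H b u) {z : CE n × CE n}
    (hz : z ∈ (D ρ R : Set (CE n × CE n))) :
    (z.1, qv b u z) ∈ (D (3 / 2 * ρ) (R + 1 / 2) : Set (CE n × CE n)) := by
  have hρ := h.ρ0
  have hκ := h.κ1
  have hκ0 := h.κ0
  have hg : DifferentiableOn ℂ (fun z : CE n × CE n => qv b u z - z.2) (D ρ R) :=
    (c8_qv_hol h).sub differentiable_snd.differentiableOn
  have h1 : ‖im (qv b u z - z.2)‖ ≤ 2 * κ * ρ := by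
    refine lip_im hg (fun y hy => c8_qv_fd h hy) ?_ hz hz.1.le hz.2.1.le
    intro y hy
    show qv b u (cjp y) - cj y.2 = cj (qv b u y - y.2)
    rw [c8_qv_real h hy, c8_cj_sub]
  have h2 := c8_qv_norm h hz
  have e1 : qv b u z = z.2 + (qv b u z - z.2) := by abel
  refine ⟨?_, ?_, ?_⟩
  · show ‖im z.1‖ < 3 / 2 * ρ
    have := hz.1
    linarith
  · show ‖im (qv b u z)‖ < 3 / 2 * ρ
    rw [e1, im_add]
    have h3 := norm_add_le (im z.2) (im (qv b u z - z.2))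
    have h4 := hz.2.1
    nlinarith
  · show ‖re (qv b u z)‖ < R + 1 / 2
    rw [e1, re_add]
    have h3 := norm_add_le (re z.2) (re (qv b u z - z.2))
    have h4 := hz.2.2
    have h5 := norm_re_le (qv b u z - z.2)
    linarith

theorem NS.qv_hol (h : NS κ ρ R CH H b u) : DifferentiableOn ℂ (qv b u) (D ρ R) := by
  exact c8_qv_hol h

theorem NS.qv_fderiv (h : NS κ ρ R CH H b u) {z : CE n × CE n}
    (hz : z ∈ (D ρ R : Set (CE n × CE n))) :
    ‖fderiv ℂ (fun z => qv b u z - z.2) z‖ ≤ 2 * κ ∧ ‖qv b u z - z.2‖ ≤ 2 * κ := by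
  exact ⟨c8_qv_fd h hz, c8_qv_norm h hz⟩

theorem NS.isUnit (h : NS κ ρ R CH H b u) {w : CE n} (hw : w ∈ (Dw ρ R : Set (CE n))) :
    IsUnit (hess b w) ∧ ‖Ring.inverse (hess b w)‖ ≤ 102 / 100 := by
  have h1 : ‖(1 : CE n →L[ℂ] CE n) - hess b w‖ ≤ 1 / 100 := by
    rw [norm_sub_rev]
    exact (h.b2 w hw).trans h.κ1
  have h2 : IsUnit (hess b w) := by
    have h3 := isUnit_one_sub_of_norm_lt_one (x := (1 : CE n →L[ℂ] CE n) - hess b w) (by linarith)
    rwa [sub_sub_cancel] at h3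
  refine ⟨h2, ?_⟩
  set T := Ring.inverse (hess b w) with hT
  have h3 : hess b w * T = 1 := Ring.mul_inverse_cancel _ h2
  have h4 : T = 1 + (1 - hess b w) * T := by
    rw [sub_mul, h3, one_mul]
    abel
  have h5 : ‖(1 : CE n →L[ℂ] CE n)‖ ≤ 1 := ContinuousLinearMap.norm_id_le
  have h6 : ‖T‖ ≤ 1 + 1 / 100 * ‖T‖ := by
    calc ‖T‖ = ‖1 + (1 - hess b w) * T‖ := by rw [← h4]
      _ ≤ ‖(1 : CE n →L[ℂ] CE n)‖ + ‖(1 - hess b w) * T‖ := norm_add_le _ _
      _ ≤ 1 + 1 / 100 * ‖T‖ := by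
          have h7 := norm_mul_le (1 - hess b w) T
          nlinarith [norm_nonneg T]
  linarith

theorem c8_inv_hol (h : NS κ ρ R CH H b u) {w : CE n} (hw : w ∈ (Dw ρ R : Set (CE n))) :
    DifferentiableAt ℂ (fun w => Ring.inverse (hess b w)) w := by
  have h1 : DifferentiableAt ℂ (hess b) w := (gb_hol h.bd).2.differentiableAt ((isOpen_Dw ρ R).mem_nhds hw)
  exact (differentiableAt_inverse (𝕜 := ℂ) (h.isUnit hw).1).comp w h1

theorem c8_inv_fd (h : NS κ ρ R CH H b u) {w : CE n} (hw : w ∈ (Dw ρ R : Set (CE n))) :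
    ‖fderiv ℂ (fun w => Ring.inverse (hess b w)) w‖ ≤ 2 * κ := by
  have h1 : DifferentiableAt ℂ (hess b) w := (gb_hol h.bd).2.differentiableAt ((isOpen_Dw ρ R).mem_nhds hw)
  obtain ⟨⟨x, hx⟩, h3⟩ := h.isUnit hw
  have h2 : HasFDerivAt (Ring.inverse : (CE n →L[ℂ] CE n) → (CE n →L[ℂ] CE n))
      (-ContinuousLinearMap.mulLeftRight ℂ (CE n →L[ℂ] CE n) ↑x⁻¹ ↑x⁻¹) (hess b w) := by
    rw [← hx]
    exact hasFDerivAt_ringInverse (𝕜 := ℂ) x
  have h4 := h2.comp w h1.hasFDerivAt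
  have h5 : HasFDerivAt (fun w => Ring.inverse (hess b w)) ((-ContinuousLinearMap.mulLeftRight ℂ (CE n →L[ℂ] CE n)
      ↑x⁻¹ ↑x⁻¹).comp (fderiv ℂ (hess b) w)) w := h4
  rw [h5.fderiv]
  refine (ContinuousLinearMap.opNorm_comp_le _ _).trans ?_
  have h6 : ‖((x⁻¹ : (CE n →L[ℂ] CE n)ˣ) : CE n →L[ℂ] CE n)‖ ≤ 102 / 100 := by
    rw [← hx, Ring.inverse_unit] at h3
    exact h3
  have h7 : ‖-ContinuousLinearMap.mulLeftRight ℂ (CE n →L[ℂ] CE n) ↑x⁻¹ ↑x⁻¹‖ ≤ 102 / 100 * (102 / 100) := by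
    rw [norm_neg]
    refine (ContinuousLinearMap.opNorm_mulLeftRight_apply_apply_le _ _ _ _).trans ?_
    exact mul_le_mul h6 h6 (norm_nonneg _) (by norm_num)
  have h8 := h.b3 w hw
  have h9 := h.κ0
  have h10 : 0 ≤ ‖fderiv ℂ (hess b) w‖ := ContinuousLinearMap.opNorm_nonneg _
  calc _ ≤ (102 / 100 * (102 / 100)) * κ := mul_le_mul h7 h8 h10 (by norm_num)
    _ ≤ 2 * κ := by nlinarith

theorem NS.gv_hol (h : NS κ ρ R CH H b u) : DifferentiableOn ℂ (gv b u) (D ρ R) := by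
  intro z hz
  have h1 : DifferentiableAt ℂ (fun z : CE n × CE n => Ring.inverse (hess b z.2)) z :=
    DifferentiableAt.comp (f := fun z : CE n × CE n => z.2) (g := fun w => Ring.inverse (hess b w)) z
      (c8_inv_hol h (c8_snd hz)) differentiableAt_snd
  have h2 : DifferentiableAt ℂ (gw u) z := (gx_hol h.ud).2.differentiableAt ((isOpen_D ρ R).mem_nhds hz)
  exact (h1.clm_apply h2).differentiableWithinAt

theorem NS.gv_bound (h : NS κ ρ R CH H b u) {z : CE n × CE n}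
    (hz : z ∈ (D ρ R : Set (CE n × CE n))) : ‖gv b u z‖ ≤ 2 * κ ∧ ‖fderiv ℂ (gv b u) z‖ ≤ 1 / 8 := by
  have hS := (h.isUnit (c8_snd hz)).2
  have hκ0 := h.κ0
  have hκ1 := h.κ1
  have hg : ‖gw u z‖ ≤ κ := (norm_gw_le u z).trans (h.u1 z hz)
  refine ⟨?_, ?_⟩
  · calc ‖gv b u z‖ ≤ ‖Ring.inverse (hess b z.2)‖ * ‖gw u z‖ := ContinuousLinearMap.le_opNorm _ _
      _ ≤ 102 / 100 * κ := mul_le_mul hS hg (norm_nonneg _) (by norm_num)
      _ ≤ 2 * κ := by nlinarith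
  · have h1 : HasFDerivAt (fun z : CE n × CE n => Ring.inverse (hess b z.2))
        ((fderiv ℂ (fun w => Ring.inverse (hess b w)) z.2).comp (ContinuousLinearMap.snd ℂ (CE n) (CE n))) z :=
      HasFDerivAt.comp (f := fun z : CE n × CE n => z.2) (g := fun w => Ring.inverse (hess b w)) z
        (c8_inv_hol h (c8_snd hz)).hasFDerivAt hasFDerivAt_snd
    have h2 : HasFDerivAt (gw u) (fderiv ℂ (gw u) z) z :=
      ((gx_hol h.ud).2.differentiableAt ((isOpen_D ρ R).mem_nhds hz)).hasFDerivAt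
    have h3 : HasFDerivAt (gv b u) _ z := h1.clm_apply h2
    rw [h3.fderiv]
    have h4 : ‖fderiv ℂ (gw u) z‖ ≤ κ := by
      rw [c8_gw]
      exact c8_comp_le c8_Lw c8_Lw_norm ((hol_fderiv (isOpen_D ρ R) h.ud).differentiableAt ((isOpen_D ρ R).mem_nhds hz))
        (h.u2 z hz)
    refine ContinuousLinearMap.opNorm_le_bound _ (by norm_num) fun v => ?_
    have h5 := c8_inv_fd h (c8_snd hz)
    have h6 : ‖v.2‖ ≤ ‖v‖ := norm_snd_le v
    show ‖Ring.inverse (hess b z.2) (fderiv ℂ (gw u) z v) +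
      (fderiv ℂ (fun w => Ring.inverse (hess b w)) z.2 v.2) (gw u z)‖ ≤ 1 / 8 * ‖v‖
    refine (norm_add_le _ _).trans ?_
    have h7 : ‖Ring.inverse (hess b z.2) (fderiv ℂ (gw u) z v)‖ ≤ 102 / 100 * (κ * ‖v‖) := by
      refine (ContinuousLinearMap.le_opNorm _ _).trans ?_
      refine mul_le_mul hS ?_ (norm_nonneg _) (by norm_num)
      refine (ContinuousLinearMap.le_opNorm _ _).trans ?_
      exact mul_le_mul_of_nonneg_right h4 (norm_nonneg _)
    have h8 : ‖(fderiv ℂ (fun w => Ring.inverse (hess b w)) z.2 v.2) (gw u z)‖ ≤ 2 * κ * ‖v‖ * κ := by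
      refine (ContinuousLinearMap.le_opNorm _ _).trans ?_
      refine mul_le_mul ?_ hg (norm_nonneg _) (by positivity)
      refine (ContinuousLinearMap.le_opNorm _ _).trans ?_
      exact mul_le_mul h5 h6 (norm_nonneg _) (by positivity)
    have h9 : κ * ‖v‖ ≤ 1 / 100 * ‖v‖ := mul_le_mul_of_nonneg_right hκ1 (norm_nonneg _)
    have h10 : κ * ‖v‖ * κ ≤ 1 / 100 * ‖v‖ * (1 / 100) := mul_le_mul h9 hκ1 hκ0 (by positivity)
    have h11 := norm_nonneg v
    nlinarith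

theorem NS.gv_real (h : NS κ ρ R CH H b u) {z : CE n × CE n}
    (hz : z ∈ (D ρ R : Set (CE n × CE n))) : gv b u (cjp z) = cj (gv b u z) := by
  have hw := c8_snd hz
  have h1 : ∀ v, hess b (cj z.2) (cj v) = cj (hess b z.2 v) := by
    intro v
    have h2 := c8_fd (c8_cjL (n := n)) (c8_cjL (n := n)) (fun v => cj_cj v) (isOpen_Dw ρ R)
      (fun _ hz => cj_mem_Dw hz) (gb_hol h.bd).1 (fun w hw => gb_cj h.bd h.br hw) hw (cj v)
    rw [c8_cjL_apply, c8_cjL_apply, c8_cjL_apply, cj_cj] at h2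
    exact h2
  have h3 : hess b z.2 (gv b u z) = gw u z := by
    have h4 := Ring.mul_inverse_cancel _ (h.isUnit hw).1
    calc hess b z.2 (gv b u z) = (hess b z.2 * Ring.inverse (hess b z.2)) (gw u z) := rfl
      _ = gw u z := by rw [h4]; rfl
  have h5 : gw u (cjp z) = hess b (cj z.2) (cj (gv b u z)) := by
    rw [h1, h3, gw_cj h.ud h.ur hz]
  have h6 := Ring.inverse_mul_cancel _ (h.isUnit (cj_mem_Dw hw)).1
  calc gv b u (cjp z) = Ring.inverse (hess b (cj z.2)) (gw u (cjp z)) := rfl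
    _ = (Ring.inverse (hess b (cj z.2)) * hess b (cj z.2)) (cj (gv b u z)) := by rw [h5]; rfl
    _ = cj (gv b u z) := by rw [h6]; rfl

theorem NS.gv_per (h : NS κ ρ R CH H b u) : PerX ρ R (gv b u) := by
  intro z hz k
  unfold gv
  rw [(c8_gx_per h.up).2 z hz k]

theorem c8_mem (h : NS κ ρ R CH H b u) {z : CE n × CE n} (hz : z ∈ (D ρ R : Set (CE n × CE n))) :
    (z.1, qv b u z) ∈ (D (2 * ρ) (R + 1) : Set (CE n × CE n)) := by
  have := h.ρ0
  exact D_mono (by linarith) (by linarith) (h.q_mem hz)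

theorem NS.err_hol (h : NS κ ρ R CH H b u) : DifferentiableOn ℂ (err H b u) (D ρ R) := by
  have h1 : DifferentiableOn ℂ (fun z : CE n × CE n => H (z.1, qv b u z)) (D ρ R) := by
    have h2 : DifferentiableOn ℂ (fun z : CE n × CE n => (z.1, qv b u z)) (D ρ R) :=
      differentiable_fst.differentiableOn.prodMk h.qv_hol
    exact h.Hd.comp h2 (fun z hz => c8_mem h hz)
  have h3 : DifferentiableOn ℂ (fun z : CE n × CE n => gb b z.2) (D ρ R) :=
    (gb_hol h.bd).1.comp differentiable_snd.differentiableOn (fun z hz => c8_snd hz)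
  have h4 : DifferentiableOn ℂ (fun z : CE n × CE n => dot z.2 (gb b z.2)) (D ρ R) := by
    have h5 : DifferentiableOn ℂ (fun z : CE n × CE n => dotB z.2) (D ρ R) :=
      (dotB (n := n)).differentiable.comp_differentiableOn differentiable_snd.differentiableOn
    exact h5.clm_apply h3
  have h6 : DifferentiableOn ℂ (fun z : CE n × CE n => b z.2) (D ρ R) :=
    h.bd.comp differentiable_snd.differentiableOn (fun z hz => c8_snd hz)
  exact (h1.sub h4).add h6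

theorem NS.err_real (h : NS κ ρ R CH H b u) : RealX ρ R (err H b u) := by
  intro z hz
  have h1 : H (cj z.1, qv b u (cjp z)) = (starRingEnd ℂ) (H (z.1, qv b u z)) := by
    rw [c8_qv_real h hz]
    exact h.Hr (z.1, qv b u z) (c8_mem h hz)
  show H (cj z.1, qv b u (cjp z)) - dot (cj z.2) (gb b (cj z.2)) + b (cj z.2) = _
  rw [h1, gb_cj h.bd h.br (c8_snd hz), dot_cj, h.br _ (c8_snd hz)]
  unfold err
  rw [map_add, map_sub]

theorem NS.err_per (h : NS κ ρ R CH H b u) : PerX ρ R (err H b u) := by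
  intro z hz k
  have h1 := h.Hp (z.1, qv b u z) (c8_mem h hz) k
  unfold err
  rw [c8_qv_per h z hz k]
  simp only at h1
  rw [h1]

end Pool.Agent.LRT
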