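import Pool.Agent.LRT.C5b
import Pool.Agent.LRT.C8b
import Pool.Agent.LRT.C10
import Pool.Agent.LRT.C11

/-!
C12.  One Newton step.
-/

set_option autoImplicit false

open Set MeasureTheory Topology

namespace Pool.Agent.LRT

variable {n : ℕ}

lemma c12_gb {ρ R E : ℝ} {db : CE n → ℂ} (hρ : 0 < ρ) (hd : DifferentiableOn ℂ db (Dw (ρ / 2) R))
    (hb : ∀ w ∈ Dw (ρ / 2) R, ‖db w‖ ≤ E) {w : CE n} (hw : w ∈ (Dw (ρ / 4) (R - ρ / 4) : Set (CE n))) :
    ‖gb db w‖ ≤ 4 * E / ρ := by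
  have e : (Dw (ρ / 2 - ρ / 4) (R - ρ / 4) : Set (CE n)) = Dw (ρ / 4) (R - ρ / 4) := by
    congr 1; ring
  have hball : Metric.ball w (ρ / 4) ⊆ Dw (ρ / 2) R := ball_subset_Dw (by rw [e]; exact hw)
  have := cauchy_fderiv (F := db) (z := w) (r := ρ / 4) (B := E) (by positivity) (hd.mono hball)
    (fun y hy => hb y (hball hy))
  refine (norm_gb_le _ _).trans (this.trans_eq ?_)
  field_simp

lemma c12_fd {ρ R d E : ℝ} {f : CE n × CE n → ℂ} (hd0 : 0 < d) (hd : DifferentiableOn ℂ f (D ρ R))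
    (hb : ∀ z ∈ D ρ R, ‖f z‖ ≤ E) {z : CE n × CE n} (hz : z ∈ (D (ρ - d) (R - d) : Set (CE n × CE n))) :
    ‖fderiv ℂ f z‖ ≤ E / d := by
  have hball : Metric.ball z d ⊆ D ρ R := ball_subset_D hz
  exact cauchy_fderiv (F := f) (z := z) (r := d) (B := E) hd0 (hd.mono hball) (fun y hy => hb y (hball hy))

variable {κ ρ R CH : ℝ} {H : CE n × CE n → ℂ} {b : CE n → ℂ} {u : CE n × CE n → ℂ}

lemma c12_th_mem (h : NS κ ρ R CH H b u) {s r s' r' : ℝ} (hs : s ≤ ρ) (hr : r ≤ R) (hs' : 9 / 8 * s ≤ s')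
    (hr' : r ≤ r') {z : CE n × CE n} (hz : z ∈ (D s r : Set (CE n × CE n))) :
    (th b u z, z.2) ∈ (D s' r' : Set (CE n × CE n)) :=
  D_mono hs' hr' (h.th_mem hs hr hz)

/-- properties of the correction -/
lemma c12_du (h : NS κ ρ R CH H b u) {E C : ℝ} (hE : 0 ≤ E) {db : CE n → ℂ} {dv : CE n × CE n → ℂ}
    (h1 : DifferentiableOn ℂ db (Dw (ρ / 2) R))
    (h2 : ∀ w ∈ (Dw (ρ / 2) R : Set (CE n)), db (cj w) = (starRingEnd ℂ) (db w))
    (h3 : ∀ w ∈ Dw (ρ / 2) R, ‖db w‖ ≤ E)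
    (h4 : DifferentiableOn ℂ dv (D (ρ / 4) (R - ρ / 4))) (h5 : PerX (ρ / 4) (R - ρ / 4) dv)
    (h6 : RealX (ρ / 4) (R - ρ / 4) dv) (h7 : ∀ z ∈ D (ρ / 4) (R - ρ / 4), ‖dv z‖ ≤ C * E / ρ ^ (n + 1)) :
    DifferentiableOn ℂ (duf b u db dv) (D (ρ / 8) (R - ρ / 4)) ∧
      RealX (ρ / 8) (R - ρ / 4) (duf b u db dv) ∧ PerX (ρ / 8) (R - ρ / 4) (duf b u db dv) ∧
      (∀ z ∈ D (ρ / 8) (R - ρ / 4), ‖duf b u db dv z‖ ≤ (C + 1) * E / ρ ^ (n + 1)) := by
  have hρ := h.ρ0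
  have hρ1 := h.ρ1
  have sub1 : (D (ρ / 8) (R - ρ / 4) : Set (CE n × CE n)) ⊆ D ρ R := D_mono (by linarith) (by linarith)
  have hth : ∀ z ∈ (D (ρ / 8) (R - ρ / 4) : Set (CE n × CE n)),
      (th b u z, z.2) ∈ (D (ρ / 4) (R - ρ / 4) : Set (CE n × CE n)) := fun z hz =>
    c12_th_mem h (by linarith) (by linarith) (by linarith) le_rfl hz
  have hw2 : ∀ z ∈ (D (ρ / 8) (R - ρ / 4) : Set (CE n × CE n)), z.2 ∈ (Dw (ρ / 2) R : Set (CE n)) :=
    fun z hz => ⟨hz.2.1.trans (by linarith), hz.2.2.trans (by linarith)⟩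
  have hw4 : ∀ z ∈ (D (ρ / 8) (R - ρ / 4) : Set (CE n × CE n)), z.2 ∈ (Dw (ρ / 4) (R - ρ / 4) : Set (CE n)) :=
    fun z hz => ⟨hz.2.1.trans (by linarith), hz.2.2⟩
  have h1' : DifferentiableOn ℂ db (Dw (ρ / 4) (R - ρ / 4)) := h1.mono (Dw_mono (by linarith) (by linarith))
  refine ⟨?_, ?_, ?_, ?_⟩
  · intro z hz
    exact (h.duf_diff h1' h4 (sub1 hz) (hth z hz)).differentiableWithinAt
  · intro z hz
    have e1 : gv b u (cjp z) = cj (gv b u z) := h.gv_real (sub1 hz)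
    have e2 : th b u (cjp z) = cj (th b u z) := by
      unfold th
      rw [e1, c11_cj_add]
      rfl
    have e3 := h6 _ (hth z hz)
    have e4 : gb db (cj z.2) = cj (gb db z.2) := gb_cj h1 h2 (hw2 z hz)
    have e5 : (th b u (cjp z), (cjp z).2) = cjp (th b u z, z.2) := by
      rw [e2]; rfl
    unfold duf
    rw [e5, e3, e1, map_add]
    congr 1
    have e6 : (cjp z).2 = cj z.2 := rfl
    rw [e6, e4, dot_cj]
  · intro z hz k
    have e1 : gv b u (z.1 + ofR (lat k), z.2) = gv b u z := h.gv_per z (sub1 hz) k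
    have e2 : th b u (z.1 + ofR (lat k), z.2) = th b u z + ofR (lat k) := by
      unfold th
      rw [e1]
      simp only
      abel
    unfold duf
    rw [e2, e1]
    simp only
    rw [h5 _ (hth z hz) k]
  · intro z hz
    have e1 := h7 _ (hth z hz)
    have e2 := c12_gb hρ h1 h3 (hw4 z hz)
    have e3 := (h.gv_bound (sub1 hz)).1
    have e4 := norm_dot_le (gv b u z) (gb db z.2)
    have hκ := h.κ1
    have e5 : ‖gv b u z‖ * ‖gb db z.2‖ ≤ 1 / 4 * (4 * E / ρ) :=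
      mul_le_mul (e3.trans (by linarith)) e2 (norm_nonneg _) (by norm_num)
    have e6 : E / ρ ≤ E / ρ ^ (n + 1) := by
      apply div_le_div_of_nonneg_left hE (by positivity)
      calc ρ ^ (n + 1) ≤ ρ ^ 1 := pow_le_pow_of_le_one hρ.le (by linarith) (by omega)
        _ = ρ := pow_one _
    unfold duf
    calc _ ≤ ‖dv (th b u z, z.2)‖ + ‖dot (gv b u z) (gb db z.2)‖ := norm_add_le _ _
      _ ≤ C * E / ρ ^ (n + 1) + E / ρ ^ (n + 1) := by
          refine add_le_add e1 (e4.trans (e5.trans (le_trans (le_of_eq ?_) e6)))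
          ring
      _ = (C + 1) * E / ρ ^ (n + 1) := by ring

/-- first term: Fourier tail -/
lemma c12_a {ρ E Ct : ℝ} (hρ : 0 < ρ) (hE : 0 ≤ E) (hCt : 0 ≤ Ct) {K : ℕ} (hK : (ρ ^ 2)⁻¹ ≤ (K : ℝ)) :
    E * Ct / ((ρ / 2) ^ (n + (n + 4)) * (K : ℝ) ^ (n + 4)) ≤ E * (Ct * 2 ^ (2 * n + 4)) * ρ ^ 4 := by
  have h1 : ((ρ ^ 2)⁻¹) ^ (n + 4) ≤ (K : ℝ) ^ (n + 4) := pow_le_pow_left₀ (by positivity) hK _
  have h2 : (0:ℝ) < (ρ / 2) ^ (n + (n + 4)) * ((ρ ^ 2)⁻¹) ^ (n + 4) := by positivity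
  calc _ ≤ E * Ct / ((ρ / 2) ^ (n + (n + 4)) * ((ρ ^ 2)⁻¹) ^ (n + 4)) := by
        apply div_le_div_of_nonneg_left (by positivity) h2
        exact mul_le_mul_of_nonneg_left h1 (by positivity)
    _ = E * (Ct * 2 ^ (2 * n + 4)) * ρ ^ 4 := by
        rw [div_pow, inv_pow, ← pow_mul]
        have e1 : 2 * (n + 4) = (n + (n + 4)) + 4 := by ring
        have e2 : 2 * n + 4 = n + (n + 4) := by ring
        rw [e1, e2]
        generalize n + (n + 4) = N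
        rw [pow_add ρ]
        field_simp

/-- second term: the resonant part -/
lemma c12_b {ρ : ℝ} (hρ : 0 < ρ) (hρ1 : ρ ≤ 1 / 4) (M : ℕ) {K : ℕ} (hK : (K : ℝ) ≤ (ρ ^ 2)⁻¹ + 1) :
    (2 * (K : ℝ) + 1) ^ n * √(2 * ρ ^ (M + 4 * (n + 4)) * ρ ^ M) ≤ ρ ^ M * (2 * 3 ^ n) * ρ ^ 8 := by
  have h0 : 3 ≤ (ρ ^ 2)⁻¹ := by
    rw [le_inv_comm₀ (by norm_num) (by positivity)]
    nlinarith
  have h1 : (2 * (K : ℝ) + 1) ≤ 3 * (ρ ^ 2)⁻¹ := by linarith
  have h2 : (2 * (K : ℝ) + 1) ^ n ≤ (3 * (ρ ^ 2)⁻¹) ^ n := pow_le_pow_left₀ (by positivity) h1 _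
  have h3 : √(2 * ρ ^ (M + 4 * (n + 4)) * ρ ^ M) ≤ 2 * (ρ ^ M * ρ ^ (2 * (n + 4))) := by
    rw [Real.sqrt_le_left (by positivity)]
    have : 2 * ρ ^ (M + 4 * (n + 4)) * ρ ^ M = 2 * (ρ ^ M * ρ ^ (2 * (n + 4))) ^ 2 := by
      rw [mul_pow, ← pow_mul, ← pow_mul, pow_add]
      have e : 2 * (n + 4) * 2 = 4 * (n + 4) := by ring
      rw [e]
      ring
    rw [this, mul_pow]
    have : (0:ℝ) ≤ (ρ ^ M * ρ ^ (2 * (n + 4))) ^ 2 := by positivity
    nlinarith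
  calc _ ≤ (3 * (ρ ^ 2)⁻¹) ^ n * (2 * (ρ ^ M * ρ ^ (2 * (n + 4)))) :=
        mul_le_mul h2 h3 (by positivity) (by positivity)
    _ = ρ ^ M * (2 * 3 ^ n) * ρ ^ 8 := by
        have e1 : 2 * (n + 4) = 2 * n + 8 := by ring
        rw [mul_pow, inv_pow, ← pow_mul, e1, pow_add ρ]
        field_simp

theorem newton_step (n : ℕ) (CH : ℝ) : ∃ ρ₀ : ℝ, 0 < ρ₀ ∧ ∀ (κ ρ R : ℝ)
    (H : CE n × CE n → ℂ) (b : CE n → ℂ) (u : CE n × CE n → ℂ), NS κ ρ R CH H b u → ρ ≤ ρ₀ →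
    (∀ z ∈ D ρ R, ‖err H b u z‖ ≤ ρ ^ MM n) →
    RsC ⌈(ρ ^ 2)⁻¹⌉₊ (2 * ρ ^ (MM n + 4 * (n + 4))) (R - ρ / 4) (et H b u ρ) →
    ∃ (db : CE n → ℂ) (du : CE n × CE n → ℂ),
      DifferentiableOn ℂ db (Dw (ρ / 2) R) ∧
      (∀ w ∈ (Dw (ρ / 2) R : Set (CE n)), db (cj w) = (starRingEnd ℂ) (db w)) ∧
      (∀ w ∈ Dw (ρ / 2) R, ‖db w‖ ≤ ρ ^ MM n) ∧
      DifferentiableOn ℂ du (D (ρ / 8) (R - ρ / 4)) ∧
      RealX (ρ / 8) (R - ρ / 4) du ∧ PerX (ρ / 8) (R - ρ / 4) du ∧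
      (∀ z ∈ D (ρ / 8) (R - ρ / 4), ‖du z‖ ≤ ρ ^ (MM n - 2 * n - 6)) ∧
      (∀ z ∈ D (ρ / 32) (R - ρ / 2),
        ‖err H (fun w => b w + db w) (fun z => u z + du z) z‖ ≤ ρ ^ (MM n + 1) / 4) := by
  obtain ⟨Cr, hCr, hres⟩ := resolve n
  obtain ⟨Ct, hCt, htail⟩ := fourier_tail n (n + 4)
  obtain ⟨C1, hC1⟩ : ∃ C1 : ℝ, C1 = Cr * 2 ^ (n + 1) := ⟨_, rfl⟩
  have hC1p : 0 < C1 := by rw [hC1]; positivity
  obtain ⟨C3, hC3⟩ : ∃ C3 : ℝ, C3 = 16 * (C1 + 1) + 4 := ⟨_, rfl⟩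
  have hC3p : 0 < C3 := by rw [hC3]; positivity
  obtain ⟨Z, hZ⟩ : ∃ Z : ℝ, Z = 16 * (Ct * 2 ^ (2 * n + 4)) + 16 * (2 * 3 ^ n) + 16 * (3 * (8 * C1 + 4)) +
    1024 * |CH| * C3 ^ 2 + 5 * C3 + (C1 + 1) + 1 := ⟨_, rfl⟩
  have hZ1 : 1 ≤ Z := by
    have : (0:ℝ) ≤ 16 * (Ct * 2 ^ (2 * n + 4)) + 16 * (2 * 3 ^ n) + 16 * (3 * (8 * C1 + 4)) +
      1024 * |CH| * C3 ^ 2 + 5 * C3 + (C1 + 1) := by positivity
    linarith
  refine ⟨1 / Z, by positivity, ?_⟩
  intro κ ρ R H b u h hρZ herr hrsc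
  have hρ := h.ρ0
  have hρ1 := h.ρ1
  have hρ1' : ρ ≤ 1 := by linarith
  have hκ := h.κ1
  have hCH := h.CH0
  rw [abs_of_nonneg hCH] at hZ
  have hZρ : Z * ρ ≤ 1 := by
    rw [le_div_iff₀ (by linarith)] at hρZ
    linarith
  have hp : ∀ c : ℝ, c ≤ Z → c * ρ ≤ 1 := fun c hc => (mul_le_mul_of_nonneg_right hc hρ.le).trans hZρ
  have n1 : 0 ≤ 16 * (Ct * 2 ^ (2 * n + 4)) := by positivity
  have n2 : (0:ℝ) ≤ 16 * (2 * 3 ^ n) := by positivity
  have n3 : 0 ≤ 16 * (3 * (8 * C1 + 4)) := by positivity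
  have n4 : 0 ≤ 1024 * CH * C3 ^ 2 := by positivity
  have n5 : 0 ≤ 5 * C3 := by positivity
  have n6 : 0 ≤ C1 + 1 := by positivity
  have z1 := hp (16 * (Ct * 2 ^ (2 * n + 4))) (by linarith)
  have z2 := hp (16 * (2 * 3 ^ n)) (by linarith)
  have z3 := hp (16 * (3 * (8 * C1 + 4))) (by linarith)
  have z4 := hp (1024 * CH * C3 ^ 2) (by linarith)
  have z5 := hp (5 * C3) (by linarith)
  have z6 := hp (C1 + 1) (by linarith)
  have hMbig : 2 * n + 20 ≤ MM n := by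
    have e : MM n = 200 * n ^ 2 + 1600 * n + 3200 := by
      unfold MM
      ring
    have : 0 ≤ n ^ 2 := Nat.zero_le _
    omega
  revert herr hrsc
  generalize MM n = M at hMbig ⊢
  intro herr hrsc
  obtain ⟨E, hE⟩ : ∃ E : ℝ, E = ρ ^ M := ⟨_, rfl⟩
  have hE0 : 0 < E := by rw [hE]; positivity
  rw [← hE] at herr
  set G := et H b u ρ with hG
  have hσ : 0 < ρ / 2 := by positivity
  have hGd : DifferentiableOn ℂ G (D (ρ / 2) R) := h.et_hol
  have hGr : RealX (ρ / 2) R G := h.et_real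
  have hGp : PerX (ρ / 2) R G := h.et_per
  have hGb : ∀ z ∈ D (ρ / 2) R, ‖G z‖ ≤ E := fun z hz => h.et_bound herr hz
  set K : ℕ := ⌈(ρ ^ 2)⁻¹⌉₊ with hK
  have hK1 : (ρ ^ 2)⁻¹ ≤ (K : ℝ) := Nat.le_ceil _
  have hK2 : (K : ℝ) ≤ (ρ ^ 2)⁻¹ + 1 := (Nat.ceil_lt_add_one (by positivity)).le
  have hK3 : 1 ≤ K := by
    rw [hK]
    exact Nat.one_le_ceil_iff.2 (by positivity)
  obtain ⟨dv, v1, v2, v3, v4, v5⟩ := hres (ρ / 2) R E hσ (by linarith) hE0.le G hGd hGp hGr hGb K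
  have e24 : ρ / 2 / 2 = ρ / 4 := by ring
  rw [e24] at v1 v2 v3 v4 v5
  have v4' : ∀ z ∈ D (ρ / 4) (R - ρ / 4), ‖dv z‖ ≤ C1 * E / ρ ^ (n + 1) := by
    intro z hz
    refine (v4 z hz).trans_eq ?_
    rw [hC1, div_pow]
    field_simp
  set db : CE n → ℂ := fun w => - coef G 0 w with hdb
  have b1 : DifferentiableOn ℂ db (Dw (ρ / 2) R) := (coef_hol hσ hGd 0).neg
  have b2 : ∀ w ∈ (Dw (ρ / 2) R : Set (CE n)), db (cj w) = (starRingEnd ℂ) (db w) := by
    intro w hw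
    have := coef_real hσ hGr 0 hw
    rw [neg_zero] at this
    simp only [hdb]
    rw [this, map_neg]
  have b3 : ∀ w ∈ Dw (ρ / 2) R, ‖db w‖ ≤ E := by
    intro w hw
    have := coef_bound hσ hGd hGp hGb 0 hw
    simp only [hdb, norm_neg]
    refine this.trans ?_
    have e : Real.exp (-(2 * Real.pi * (ρ / 2) * ‖lat (0 : Fin n → ℤ)‖)) ≤ 1 := by
      rw [Real.exp_le_one_iff]
      have : (0:ℝ) ≤ 2 * Real.pi * (ρ / 2) * ‖lat (0 : Fin n → ℤ)‖ := by positivity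
      linarith
    exact mul_le_of_le_one_right hE0.le e
  obtain ⟨d1, d2, d3, d4⟩ := c12_du h hE0.le b1 b2 b3 v1 v2 v3 v4'
  refine ⟨db, duf b u db dv, b1, b2, by rw [← hE]; exact b3, d1, d2, d3, ?_, ?_⟩
  · -- bound of du
    intro z hz
    refine (d4 z hz).trans ?_
    have e1 : E = ρ ^ (M - 2 * n - 6) * ρ ^ (2 * n + 6) := by
      rw [hE, ← pow_add]
      congr 1
      omega
    rw [e1, div_le_iff₀ (by positivity)]
    have e2 : (C1 + 1) * ρ ^ (2 * n + 6) ≤ ρ ^ (n + 1) := by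
      have e3 : ρ ^ (2 * n + 6) = ρ ^ (n + 1) * (ρ * ρ ^ (n + 4)) := by
        rw [← pow_succ', ← pow_add]
        congr 1
        ring
      rw [e3]
      have e4 : ρ ^ (n + 4) ≤ 1 := pow_le_one₀ hρ.le hρ1'
      have e5 : 0 < ρ ^ (n + 1) := by positivity
      calc (C1 + 1) * (ρ ^ (n + 1) * (ρ * ρ ^ (n + 4))) = ((C1 + 1) * ρ) * ρ ^ (n + 4) * ρ ^ (n + 1) := by ring
        _ ≤ 1 * 1 * ρ ^ (n + 1) := by gcongr
        _ = ρ ^ (n + 1) := by ring
    have e6 : 0 < ρ ^ (M - 2 * n - 6) := by positivity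
    calc (C1 + 1) * (ρ ^ (M - 2 * n - 6) * ρ ^ (2 * n + 6)) =
          ρ ^ (M - 2 * n - 6) * ((C1 + 1) * ρ ^ (2 * n + 6)) := by ring
      _ ≤ ρ ^ (M - 2 * n - 6) * ρ ^ (n + 1) := mul_le_mul_of_nonneg_left e2 e6.le
  · -- the error
    intro z hz
    have hzρ : z ∈ (D ρ R : Set (CE n × CE n)) := D_mono (by linarith) (by linarith) hz
    have hz4 : z ∈ (D (ρ / 4) R : Set (CE n × CE n)) := D_mono (by linarith) (by linarith) hz
    have hz8 : z ∈ (D (ρ / 8) (R - ρ / 4) : Set (CE n × CE n)) := D_mono (by linarith) (by linarith) hz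
    have ht4 : (th b u z, z.2) ∈ (D (ρ / 4) (R - ρ / 4) : Set (CE n × CE n)) :=
      c12_th_mem h (s := ρ / 32) (r := R - ρ / 2) (by linarith) (by linarith) (by linarith) (by linarith) hz
    have ht4' : (th b u z, z.2) ∈ (D (ρ / 4) R : Set (CE n × CE n)) := D_mono le_rfl (by linarith) ht4
    have ht8 : (th b u z, z.2) ∈ (D (ρ / 4 - ρ / 8) (R - ρ / 4 - ρ / 8) : Set (CE n × CE n)) :=
      c12_th_mem h (s := ρ / 32) (r := R - ρ / 2) (by linarith) (by linarith) (by linarith) (by linarith) hz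
    have hw4 : z.2 ∈ (Dw (ρ / 4) (R - ρ / 4) : Set (CE n)) :=
      ⟨hz.2.1.trans (by linarith), hz.2.2.trans (by linarith)⟩
    have b1' : DifferentiableOn ℂ db (Dw (ρ / 4) (R - ρ / 4)) := b1.mono (Dw_mono (by linarith) (by linarith))
    obtain ⟨q1, q2⟩ := h.ident2 b1' v1 hzρ ht4 (dq := gb db z.2 + gx (duf b u db dv) z) rfl
    have q3 : err H b u z = G (th b u z, z.2) := (h.et_th hz4).symm
    have q4 := v5 _ ht4
    simp only at q4
    set t := th b u z with ht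
    set ζ := Ring.inverse (hess b z.2) (gw (err H b u) z) with hζ
    set dq := gb db z.2 + gx (duf b u db dv) z with hdq
    -- rewriting of the first part
    have ch0 : ch (0 : Fin n → ℤ) t = 1 := by
      unfold ch
      have : ofR (lat (0 : Fin n → ℤ)) = 0 := by
        ext i; simp
      rw [this]
      unfold dot
      simp
    have h0mem : (0 : Fin n → ℤ) ∈ bx n K := by
      rw [mem_bx]; intro i; simp
    have s1 : ∑ m ∈ bx n K, coef G m z.2 * ch m t =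
        coef G 0 z.2 + ∑ m ∈ (bx n K).erase 0, coef G m z.2 * ch m t := by
      rw [← Finset.add_sum_erase _ _ h0mem, ch0, mul_one]
    have s2 : err H b u z + (dot (gx dv (t, z.2)) z.2 + db z.2) =
        (G (t, z.2) - ∑ m ∈ bx n K, coef G m z.2 * ch m t) +
          ∑ m ∈ (bx n K).erase 0, coef G m (Pm m z.2) * ch m t := by
      rw [q3, q4, s1]
      simp only [sub_mul, Finset.sum_sub_distrib, hdb]
      ring
    rw [q2, s2]
    -- (a)
    have ta : ‖G (t, z.2) - ∑ m ∈ bx n K, coef G m z.2 * ch m t‖ ≤ E * ρ / 16 := by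
      have e1 := htail (ρ / 2) R E hσ (by linarith) G hGd hGp hGb K hK3 (t, z.2) (by rw [e24]; exact ht4')
      simp only at e1
      refine e1.trans ((c12_a hρ hE0.le hCt.le hK1).trans ?_)
      have e2 : ρ ^ 3 ≤ 1 := pow_le_one₀ hρ.le hρ1'
      have e3 : E * (Ct * 2 ^ (2 * n + 4)) * ρ ^ 4 = E * ρ / 16 * ((16 * (Ct * 2 ^ (2 * n + 4)) * ρ) * ρ ^ 2) := by
        ring
      rw [e3]
      have e4 : (16 * (Ct * 2 ^ (2 * n + 4)) * ρ) * ρ ^ 2 ≤ 1 :=
        mul_le_one₀ z1 (by positivity) (pow_le_one₀ hρ.le hρ1')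
      have : 0 ≤ E * ρ / 16 := by positivity
      exact mul_le_of_le_one_right this e4
    -- (b)
    have tb : ‖∑ m ∈ (bx n K).erase 0, coef G m (Pm m z.2) * ch m t‖ ≤ E * ρ / 16 := by
      have e1 := res_sum (n := n) (σ := ρ / 2) (R := R) (ε := E) (A := 2 * ρ ^ (M + 4 * (n + 4))) hσ hE0.le
        (by positivity) hGd hGp hGb (K := K) (by rw [e24]; exact hrsc) (z := (t, z.2))
        (by
          simp only
          have := (c12_th_mem h (s := ρ / 32) (r := R - ρ / 2) (s' := ρ / 4) (r' := R) (by linarith) (by linarith)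
            (by linarith) (by linarith) hz).1
          rw [e24]
          exact this.le)
        (by
          simp only
          exact ⟨hz.2.1.trans_le (by linarith), hz.2.2⟩)
      simp only at e1
      rw [hE] at e1
      refine e1.trans ((c12_b (n := n) hρ hρ1 M hK2).trans ?_)
      have e3 : ρ ^ M * (2 * 3 ^ n) * ρ ^ 8 = E * ρ / 16 * ((16 * (2 * 3 ^ n) * ρ) * ρ ^ 6) := by
        rw [hE]; ring
      rw [e3]
      have e4 : (16 * (2 * 3 ^ n) * ρ) * ρ ^ 6 ≤ 1 :=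
        mul_le_one₀ z2 (by positivity) (pow_le_one₀ hρ.le hρ1')
      have : 0 ≤ E * ρ / 16 := by positivity
      exact mul_le_of_le_one_right this e4
    -- powers
    have pE : E ≤ ρ ^ (2 * n + 8) := by
      rw [hE]
      exact pow_le_pow_of_le_one hρ.le hρ1' (by omega)
    have g1 : ‖gb db z.2‖ ≤ 4 * E / ρ := c12_gb hρ b1 b3 hw4
    have g1' : ‖gb db z.2‖ ≤ 4 * E / ρ ^ (n + 2) := by
      refine g1.trans ?_
      apply div_le_div_of_nonneg_left (by positivity) (by positivity)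
      calc ρ ^ (n + 2) ≤ ρ ^ 1 := pow_le_pow_of_le_one hρ.le hρ1' (by omega)
        _ = ρ := pow_one _
    -- (c)
    have tc : ‖dot ζ (gx dv (t, z.2) + gb db z.2)‖ ≤ E * ρ / 16 := by
      have e1 : ‖fderiv ℂ (err H b u) z‖ ≤ E / (ρ / 2) :=
        c12_fd (d := ρ / 2) (by positivity) h.err_hol herr
          (D_mono (by linarith) (by linarith) hz)
      have e2 := norm_gw_le (err H b u) z
      have e3 := (h.isUnit (w := z.2) ⟨hzρ.2.1, hzρ.2.2⟩).2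
      have e4 : ‖ζ‖ ≤ 3 * E / ρ := by
        have e5 := (Ring.inverse (hess b z.2)).le_opNorm (gw (err H b u) z)
        have e6 : ‖Ring.inverse (hess b z.2)‖ * ‖gw (err H b u) z‖ ≤ (102 / 100) * (E / (ρ / 2)) :=
          mul_le_mul e3 (e2.trans e1) (norm_nonneg _) (by norm_num)
        have e7 : (102 / 100) * (E / (ρ / 2)) = (204 / 100) * E / ρ := by field_simp; norm_num
        rw [e7] at e6
        refine e5.trans (e6.trans ?_)
        rw [div_le_div_iff_of_pos_right hρ]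
        linarith
      have e8 : ‖gx dv (t, z.2)‖ ≤ 8 * C1 * E / ρ ^ (n + 2) := by
        refine (norm_gx_le _ _).trans ?_
        refine (c12_fd (d := ρ / 8) (by positivity) v1 v4' ht8).trans_eq ?_
        rw [pow_succ ρ (n + 1)]
        field_simp
      have e9 : ‖gx dv (t, z.2) + gb db z.2‖ ≤ (8 * C1 + 4) * E / ρ ^ (n + 2) := by
        refine (norm_add_le _ _).trans ((add_le_add e8 g1').trans_eq ?_)
        ring
      refine (norm_dot_le _ _).trans ?_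
      calc ‖ζ‖ * ‖gx dv (t, z.2) + gb db z.2‖ ≤ (3 * E / ρ) * ((8 * C1 + 4) * E / ρ ^ (n + 2)) :=
            mul_le_mul e4 e9 (norm_nonneg _) (by positivity)
        _ = (3 * (8 * C1 + 4)) * E * E / ρ ^ (n + 3) := by
            rw [pow_succ ρ (n + 2)]
            field_simp
        _ ≤ (3 * (8 * C1 + 4)) * E * ρ ^ (n + 5) / ρ ^ (n + 3) := by
            have : E ≤ ρ ^ (n + 5) := pE.trans (pow_le_pow_of_le_one hρ.le hρ1' (by omega))
            gcongr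
        _ = E * ρ / 16 * (16 * (3 * (8 * C1 + 4)) * ρ) := by
            have : ρ ^ (n + 5) = ρ ^ (n + 3) * ρ ^ 2 := by rw [← pow_add]
            rw [this]
            field_simp
        _ ≤ E * ρ / 16 * 1 := by
            apply mul_le_mul_of_nonneg_left z3 (by positivity)
        _ = E * ρ / 16 := mul_one _
    -- (d)
    have td : ‖H (z.1, qv b u z + dq) - H (z.1, qv b u z) - dot (vel H b u z) dq‖ ≤ E * ρ / 16 := by
      have e1 : ‖gx (duf b u db dv) z‖ ≤ 16 * (C1 + 1) * E / ρ ^ (n + 2) := by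
        refine (norm_gx_le _ _).trans ?_
        refine (c12_fd (d := ρ / 16) (by positivity) d1 d4
          (D_mono (by linarith) (by linarith) hz)).trans_eq ?_
        rw [pow_succ ρ (n + 1)]
        field_simp
      have e2 : ‖dq‖ ≤ C3 * E / ρ ^ (n + 2) := by
        rw [hdq]
        refine (norm_add_le _ _).trans ((add_le_add g1' e1).trans_eq ?_)
        rw [hC3]
        ring
      have e3 : C3 * E / ρ ^ (n + 2) < ρ / 4 := by
        rw [div_lt_iff₀ (by positivity)]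
        have p1 : E ≤ ρ ^ (n + 4) := pE.trans (pow_le_pow_of_le_one hρ.le hρ1' (by omega))
        have p2 : ρ ^ (n + 4) = ρ * (ρ * ρ ^ (n + 2)) := by
          rw [← pow_succ', ← pow_succ']
        have p3 : 0 < ρ * ρ ^ (n + 2) := by positivity
        calc C3 * E ≤ C3 * ρ ^ (n + 4) := by gcongr
          _ = (5 * C3 * ρ) / 5 * (ρ * ρ ^ (n + 2)) := by rw [p2]; ring
          _ ≤ 1 / 5 * (ρ * ρ ^ (n + 2)) := by gcongr
          _ < ρ / 4 * ρ ^ (n + 2) := by linarith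
      have hq := h.q_mem hzρ
      have hball : Metric.ball (z.1, qv b u z) (ρ / 2) ⊆ (D (2 * ρ) (R + 1) : Set (CE n × CE n)) := by
        refine ball_subset_D (D_mono ?_ ?_ hq)
        · linarith
        · linarith
      have e4 := taylor2 (F := H) (z := (z.1, qv b u z)) (v := (0, dq)) (r := ρ / 2) (B := CH) (by positivity)
        (h.Hd.mono hball) (fun y hy => h.Hb y (hball hy)) (by
          rw [Prod.norm_def]
          simp only [norm_zero]
          rw [max_eq_right (norm_nonneg _)]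
          have := e2.trans_lt e3
          linarith)
      have e5 : ‖((0 : CE n), dq)‖ = ‖dq‖ := by
        rw [Prod.norm_def]
        simp only [norm_zero]
        exact max_eq_right (norm_nonneg _)
      have e6 : (z.1, qv b u z) + ((0 : CE n), dq) = (z.1, qv b u z + dq) := by
        simp
      have e7 : dot (vel H b u z) dq = fderiv ℂ H (z.1, qv b u z) (0, dq) := by
        unfold vel
        rw [dot_gw]
      rw [e5, e6, ← e7] at e4
      refine e4.trans ?_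
      have e8 : ‖dq‖ ^ 2 ≤ (C3 * E / ρ ^ (n + 2)) ^ 2 := pow_le_pow_left₀ (norm_nonneg _) e2 2
      calc 16 * CH / (ρ / 2) ^ 2 * ‖dq‖ ^ 2 ≤ 16 * CH / (ρ / 2) ^ 2 * (C3 * E / ρ ^ (n + 2)) ^ 2 := by gcongr
        _ = 64 * CH * C3 ^ 2 * E * E / ρ ^ (2 * n + 6) := by
            have : ρ ^ (2 * n + 6) = ρ ^ 2 * (ρ ^ (n + 2)) ^ 2 := by
              rw [← pow_mul, ← pow_add]
              congr 1
              ring
            rw [this]
            field_simp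
            ring
        _ ≤ 64 * CH * C3 ^ 2 * E * ρ ^ (2 * n + 8) / ρ ^ (2 * n + 6) := by gcongr
        _ = E * ρ / 16 * (1024 * CH * C3 ^ 2 * ρ) := by
            have : ρ ^ (2 * n + 8) = ρ ^ (2 * n + 6) * ρ ^ 2 := by rw [← pow_add]
            rw [this]
            field_simp
            ring
        _ ≤ E * ρ / 16 * 1 := by
            apply mul_le_mul_of_nonneg_left z4 (by positivity)
        _ = E * ρ / 16 := mul_one _
    have fin : ρ ^ (M + 1) / 4 = E * ρ / 16 + E * ρ / 16 + E * ρ / 16 + E * ρ / 16 := by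
      rw [pow_succ, hE]; ring
    rw [fin]
    refine (norm_add_le _ _).trans (add_le_add ?_ td)
    refine (norm_add_le _ _).trans (add_le_add ?_ tc)
    exact (norm_add_le _ _).trans (add_le_add ta tb)

end Pool.Agent.LRT
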