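import Pool.Agent.LRT.C8

/-!
C13 (difficulty 2).  Update of the state.

PROOF.  `M = MM n ≥ 2n + 20`.  Let `b' = b + db`, `u' = u + du`, `R' = R - ρ`, `ρ' ≤ ρ/64`.
`D ρ' R' ⊆ D (ρ/8 - d) (R - ρ/4 - d)` with `d = ρ/16`: Cauchy (`cauchy_fderiv`, `cauchy_fderiv2`):
`‖fderiv du z‖ ≤ 16 ρ^(M-2n-6)/ρ ≤ ρ²`, `‖fderiv (fderiv du) z‖ ≤ 4·256 ρ^(M-2n-6)/ρ² ≤ ρ²` for `ρ ≤ ρ₀` (as
`M-2n-8 ≥ 3`).  `db` on `Dw (ρ/2) R`, `d = ρ/16` several times: `‖gb db‖`, `‖hess db‖`, `‖fderiv (hess db)‖ ≤ ρ²`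
(`gb db = grad ∘ fderiv db`, so Cauchy for `db`, then for `gb db` on the smaller domain, then for `hess db`).
The fields of `NS` for `(H', b', u')`: sums (`fderiv` of sums: differentiable), `κ' = κ + ρ²`.
`hess (b+db) = hess b + hess db` near `w` (`gb (b + db) = gb b + gb db` on the open set, then `fderiv` of the sum);
the fields about `H'` are hypotheses.
Error: on `D ρ' R'`: `err H' b' u' z = err H b' u' z + (H' - H) (z.1, qv b' u' z)`, and
`(z.1, qv b' u' z) ∈ D (2ρ') (R'+1)` by `NS.q_mem` for the new state, where `‖H' - H‖ ≤ ρ^(M+1)/4`.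
Total `≤ ρ^(M+1)/2`.
-/

set_option autoImplicit false

open Set MeasureTheory Topology

namespace Pool.Agent.LRT

variable {n : ℕ}

theorem c13_gb_add {U : Set (CE n)} (hU : IsOpen U) {b c : CE n → ℂ} (hb : DifferentiableOn ℂ b U)
    (hc : DifferentiableOn ℂ c U) {w : CE n} (hw : w ∈ U) :
    gb (fun w => b w + c w) w = gb b w + gb c w := by
  unfold gb
  rw [fderiv_fun_add (hb.differentiableAt (hU.mem_nhds hw)) (hc.differentiableAt (hU.mem_nhds hw)),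
    map_add]

theorem c13_gb_hol {U : Set (CE n)} (hU : IsOpen U) {b : CE n → ℂ} (hb : DifferentiableOn ℂ b U) :
    DifferentiableOn ℂ (gb b) U := by
  have h1 := hol_fderiv hU hb
  exact (grad (n := n)).differentiable.comp_differentiableOn h1

theorem c13_hess_hol {U : Set (CE n)} (hU : IsOpen U) {b : CE n → ℂ}
    (hb : DifferentiableOn ℂ b U) : DifferentiableOn ℂ (hess b) U :=
  hol_fderiv hU (c13_gb_hol hU hb)

theorem c13_hess_add {U : Set (CE n)} (hU : IsOpen U) {b c : CE n → ℂ}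
    (hb : DifferentiableOn ℂ b U) (hc : DifferentiableOn ℂ c U) {w : CE n} (hw : w ∈ U) :
    hess (fun w => b w + c w) w = hess b w + hess c w := by
  unfold hess
  have h1 : gb (fun w => b w + c w) =ᶠ[𝓝 w] fun w => gb b w + gb c w := by
    filter_upwards [hU.mem_nhds hw] with v hv
    exact c13_gb_add hU hb hc hv
  rw [h1.fderiv_eq]
  exact fderiv_fun_add ((c13_gb_hol hU hb).differentiableAt (hU.mem_nhds hw))
    ((c13_gb_hol hU hc).differentiableAt (hU.mem_nhds hw))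

theorem c13_hess3_add {U : Set (CE n)} (hU : IsOpen U) {b c : CE n → ℂ}
    (hb : DifferentiableOn ℂ b U) (hc : DifferentiableOn ℂ c U) {w : CE n} (hw : w ∈ U) :
    fderiv ℂ (hess (fun w => b w + c w)) w = fderiv ℂ (hess b) w + fderiv ℂ (hess c) w := by
  have h1 : hess (fun w => b w + c w) =ᶠ[𝓝 w] fun w => hess b w + hess c w := by
    filter_upwards [hU.mem_nhds hw] with v hv
    exact c13_hess_add hU hb hc hv
  rw [h1.fderiv_eq]
  exact fderiv_fun_add ((c13_hess_hol hU hb).differentiableAt (hU.mem_nhds hw))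
    ((c13_hess_hol hU hc).differentiableAt (hU.mem_nhds hw))

theorem c13_fd2_add {U : Set (CE n × CE n)} (hU : IsOpen U) {u v : CE n × CE n → ℂ}
    (hu : DifferentiableOn ℂ u U) (hv : DifferentiableOn ℂ v U) {z : CE n × CE n} (hz : z ∈ U) :
    fderiv ℂ (fderiv ℂ (fun z => u z + v z)) z =
      fderiv ℂ (fderiv ℂ u) z + fderiv ℂ (fderiv ℂ v) z := by
  have h1 : fderiv ℂ (fun z => u z + v z) =ᶠ[𝓝 z] fun z => fderiv ℂ u z + fderiv ℂ v z := by
    filter_upwards [hU.mem_nhds hz] with y hy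
    exact fderiv_fun_add (hu.differentiableAt (hU.mem_nhds hy)) (hv.differentiableAt (hU.mem_nhds hy))
  rw [h1.fderiv_eq]
  exact fderiv_fun_add ((hol_fderiv hU hu).differentiableAt (hU.mem_nhds hz))
    ((hol_fderiv hU hv).differentiableAt (hU.mem_nhds hz))

theorem c13_MM (n : ℕ) : 2 * n + 12 ≤ MM n := by
  unfold MM
  nlinarith [Nat.zero_le n]

theorem c13_pow {ρ : ℝ} (h0 : 0 < ρ) (h1 : ρ ≤ 1 / 4096) {C : ℝ} (hC : C ≤ 4096) {a k : ℕ}
    (hak : k + 3 ≤ a) : C * ρ ^ a / ρ ^ k ≤ ρ ^ 2 := by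
  obtain ⟨e, rfl⟩ := Nat.exists_eq_add_of_le hak
  have h2 : ρ ^ (k + 3 + e) / ρ ^ k = ρ ^ (3 + e) := by
    rw [show k + 3 + e = k + (3 + e) by ring, pow_add, mul_div_cancel_left₀ _ (by positivity)]
  have h3 : ρ ^ (3 + e) ≤ ρ ^ 3 := pow_le_pow_of_le_one h0.le (by linarith) (by omega)
  have h4 : 0 < ρ ^ 2 := by positivity
  have h5 : 0 ≤ ρ ^ (3 + e) := by positivity
  rw [mul_div_assoc, h2]
  calc C * ρ ^ (3 + e) ≤ 4096 * ρ ^ (3 + e) := mul_le_mul_of_nonneg_right hC h5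
    _ ≤ 4096 * ρ ^ 3 := by linarith
    _ = 4096 * ρ * ρ ^ 2 := by ring
    _ ≤ 1 * ρ ^ 2 := mul_le_mul_of_nonneg_right (by linarith) h4.le
    _ = ρ ^ 2 := one_mul _

theorem ns_update (n : ℕ) : ∃ ρ₀ : ℝ, 0 < ρ₀ ∧ ∀ (κ ρ R ρ' CH : ℝ)
    (H H' : CE n × CE n → ℂ) (b : CE n → ℂ) (u : CE n × CE n → ℂ) (db : CE n → ℂ)
    (du : CE n × CE n → ℂ), NS κ ρ R CH H b u → ρ ≤ ρ₀ → 0 < ρ' → ρ' ≤ ρ / 64 → 1 ≤ R - ρ →
    κ + ρ ^ 2 ≤ 1 / 100 →
    DifferentiableOn ℂ H' (D (2 * ρ') (R - ρ + 1)) → RealX (2 * ρ') (R - ρ + 1) H' →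
    PerX (2 * ρ') (R - ρ + 1) H' →
    (∀ z ∈ (D (2 * ρ') (R - ρ + 1) : Set (CE n × CE n)), ‖H' z‖ ≤ CH ∧ ‖H' z - H z‖ ≤ ρ ^ (MM n + 1) / 4) →
    DifferentiableOn ℂ db (Dw (ρ / 2) R) →
    (∀ w ∈ (Dw (ρ / 2) R : Set (CE n)), db (cj w) = (starRingEnd ℂ) (db w)) →
    (∀ w ∈ Dw (ρ / 2) R, ‖db w‖ ≤ ρ ^ MM n) →
    DifferentiableOn ℂ du (D (ρ / 8) (R - ρ / 4)) →
    RealX (ρ / 8) (R - ρ / 4) du → PerX (ρ / 8) (R - ρ / 4) du →
    (∀ z ∈ D (ρ / 8) (R - ρ / 4), ‖du z‖ ≤ ρ ^ (MM n - 2 * n - 6)) →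
    (∀ z ∈ D (ρ / 32) (R - ρ / 2),
        ‖err H (fun w => b w + db w) (fun z => u z + du z) z‖ ≤ ρ ^ (MM n + 1) / 4) →
    NS (κ + ρ ^ 2) ρ' (R - ρ) CH H' (fun w => b w + db w) (fun z => u z + du z) ∧
      ∀ z ∈ D ρ' (R - ρ),
        ‖err H' (fun w => b w + db w) (fun z => u z + du z) z‖ ≤ ρ ^ (MM n + 1) / 2 := by
  refine ⟨1 / 4096, by norm_num, ?_⟩
  intro κ ρ R ρ' CH H H' b u db du h hρ₀ hρ' hρ'1 hR hκ hHd hHr hHp hHb hdbd hdbr hdbb hdud hdur hdup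
    hdub herr
  have hρ := h.ρ0
  have hM := c13_MM n
  have hb : DifferentiableOn ℂ b (Dw (ρ / 2) R) := h.bd.mono (Dw_mono (by linarith) le_rfl)
  have hu : DifferentiableOn ℂ u (D (ρ / 8) (R - ρ / 4)) :=
    h.ud.mono (D_mono (by linarith) (by linarith))
  have oU := isOpen_Dw (n := n) (ρ / 2) R
  have oD := isOpen_D (n := n) (ρ / 8) (R - ρ / 4)
  have sU : (Dw ρ' (R - ρ) : Set (CE n)) ⊆ Dw (ρ / 2) R := Dw_mono (by linarith) (by linarith)
  have sUρ : (Dw ρ' (R - ρ) : Set (CE n)) ⊆ Dw ρ R := Dw_mono (by linarith) (by linarith)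
  have sD : (D ρ' (R - ρ) : Set (CE n × CE n)) ⊆ D (ρ / 8) (R - ρ / 4) :=
    D_mono (by linarith) (by linarith)
  have sDρ : (D ρ' (R - ρ) : Set (CE n × CE n)) ⊆ D ρ R := D_mono (by linarith) (by linarith)
  have hd : 0 < ρ / 16 := by linarith
  -- estimates for `db`
  have g1 : ∀ w ∈ (Dw (ρ / 2 - ρ / 16) (R - ρ / 16) : Set (CE n)),
      ‖gb db w‖ ≤ ρ ^ MM n / (ρ / 16) := by
    intro w hw
    have hs := ball_subset_Dw hw
    exact (norm_gb_le _ _).trans (cauchy_fderiv hd (hdbd.mono hs) (fun y hy => hdbb y (hs hy)))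
  have g2 : ∀ w ∈ (Dw (ρ / 2 - ρ / 16 - ρ / 16) (R - ρ / 16 - ρ / 16) : Set (CE n)),
      ‖hess db w‖ ≤ ρ ^ MM n / (ρ / 16) / (ρ / 16) := by
    intro w hw
    have hs := ball_subset_Dw hw
    refine cauchy_fderiv hd ?_ (fun y hy => g1 y (hs hy))
    exact (c13_gb_hol oU hdbd).mono (hs.trans (Dw_mono (by linarith) (by linarith)))
  have g3 : ∀ w ∈ (Dw (ρ / 2 - ρ / 16 - ρ / 16 - ρ / 16) (R - ρ / 16 - ρ / 16 - ρ / 16) :
      Set (CE n)), ‖fderiv ℂ (hess db) w‖ ≤ ρ ^ MM n / (ρ / 16) / (ρ / 16) / (ρ / 16) := by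
    intro w hw
    have hs := ball_subset_Dw hw
    refine cauchy_fderiv hd ?_ (fun y hy => g2 y (hs hy))
    exact (c13_hess_hol oU hdbd).mono (hs.trans (Dw_mono (by linarith) (by linarith)))
  have e1 : ρ ^ MM n / (ρ / 16) ≤ ρ ^ 2 := by
    have := c13_pow hρ hρ₀ (by norm_num : (16 : ℝ) ≤ 4096) (a := MM n) (k := 1) (by omega)
    have e : ρ ^ MM n / (ρ / 16) = 16 * ρ ^ MM n / ρ ^ 1 := by
      rw [pow_one]
      field_simp
    rw [e]
    exact this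
  have e2 : ρ ^ MM n / (ρ / 16) / (ρ / 16) ≤ ρ ^ 2 := by
    have := c13_pow hρ hρ₀ (by norm_num : (256 : ℝ) ≤ 4096) (a := MM n) (k := 2) (by omega)
    have e : ρ ^ MM n / (ρ / 16) / (ρ / 16) = 256 * ρ ^ MM n / ρ ^ 2 := by
      field_simp
      norm_num
    rw [e]
    exact this
  have e3 : ρ ^ MM n / (ρ / 16) / (ρ / 16) / (ρ / 16) ≤ ρ ^ 2 := by
    have := c13_pow hρ hρ₀ (by norm_num : (4096 : ℝ) ≤ 4096) (a := MM n) (k := 3) (by omega)
    have e : ρ ^ MM n / (ρ / 16) / (ρ / 16) / (ρ / 16) = 4096 * ρ ^ MM n / ρ ^ 3 := by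
      field_simp
      norm_num
    rw [e]
    exact this
  have f1 : ∀ w ∈ (Dw ρ' (R - ρ) : Set (CE n)), ‖gb db w‖ ≤ ρ ^ 2 := fun w hw =>
    (g1 w (Dw_mono (by linarith) (by linarith) hw)).trans e1
  have f2 : ∀ w ∈ (Dw ρ' (R - ρ) : Set (CE n)), ‖hess db w‖ ≤ ρ ^ 2 := fun w hw =>
    (g2 w (Dw_mono (by linarith) (by linarith) hw)).trans e2
  have f3 : ∀ w ∈ (Dw ρ' (R - ρ) : Set (CE n)), ‖fderiv ℂ (hess db) w‖ ≤ ρ ^ 2 := fun w hw =>
    (g3 w (Dw_mono (by linarith) (by linarith) hw)).trans e3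
  -- estimates for `du`
  have k1 : ∀ z ∈ (D ρ' (R - ρ) : Set (CE n × CE n)), ‖fderiv ℂ du z‖ ≤ ρ ^ 2 := by
    intro z hz
    have hz' : z ∈ (D (ρ / 8 - ρ / 16) (R - ρ / 4 - ρ / 16) : Set (CE n × CE n)) :=
      D_mono (by linarith) (by linarith) hz
    have hs := ball_subset_D hz'
    refine (cauchy_fderiv hd (hdud.mono hs) (fun y hy => hdub y (hs hy))).trans ?_
    have := c13_pow hρ hρ₀ (by norm_num : (16 : ℝ) ≤ 4096) (a := MM n - 2 * n - 6) (k := 1) (by omega)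
    have e : ρ ^ (MM n - 2 * n - 6) / (ρ / 16) = 16 * ρ ^ (MM n - 2 * n - 6) / ρ ^ 1 := by
      rw [pow_one]
      field_simp
    rw [e]
    exact this
  have k2 : ∀ z ∈ (D ρ' (R - ρ) : Set (CE n × CE n)), ‖fderiv ℂ (fderiv ℂ du) z‖ ≤ ρ ^ 2 := by
    intro z hz
    have hz' : z ∈ (D (ρ / 8 - ρ / 16) (R - ρ / 4 - ρ / 16) : Set (CE n × CE n)) :=
      D_mono (by linarith) (by linarith) hz
    have hs := ball_subset_D hz'
    refine (cauchy_fderiv2 hd (hdud.mono hs) (fun y hy => hdub y (hs hy))).trans ?_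
    have := c13_pow hρ hρ₀ (by norm_num : (1024 : ℝ) ≤ 4096) (a := MM n - 2 * n - 6) (k := 2)
      (by omega)
    have e : 4 * ρ ^ (MM n - 2 * n - 6) / (ρ / 16) ^ 2 = 1024 * ρ ^ (MM n - 2 * n - 6) / ρ ^ 2 := by
      field_simp
      norm_num
    rw [e]
    exact this
  have hnew : NS (κ + ρ ^ 2) ρ' (R - ρ) CH H' (fun w => b w + db w) (fun z => u z + du z) := by
    refine ⟨hρ', by linarith [h.ρ1], hR, by linarith [h.κ0, sq_nonneg ρ], hκ, h.CH0, hHd,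
      fun z hz => (hHb z hz).1, hHr, hHp, ?_, ?_, ?_, ?_, ?_, ?_, ?_, ?_, ?_, ?_⟩
    · exact (hb.add hdbd).mono sU
    · intro w hw
      simp only [map_add]
      rw [h.br w (sUρ hw), hdbr w (sU hw)]
    · intro w hw
      rw [c13_gb_add oU hb hdbd (sU hw)]
      have e : gb b w + gb db w - w = (gb b w - w) + gb db w := by abel
      rw [e]
      exact (norm_add_le _ _).trans (add_le_add (h.b1 w (sUρ hw)) (f1 w hw))
    · intro w hw
      rw [c13_hess_add oU hb hdbd (sU hw)]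
      have e : hess b w + hess db w - 1 = (hess b w - 1) + hess db w := by abel
      rw [e]
      exact (norm_add_le _ _).trans (add_le_add (h.b2 w (sUρ hw)) (f2 w hw))
    · intro w hw
      rw [c13_hess3_add oU hb hdbd (sU hw)]
      refine (norm_add_le (fderiv ℂ (hess b) w) (fderiv ℂ (hess db) w)).trans ?_
      exact add_le_add (h.b3 w (sUρ hw)) (f3 w hw)
    · exact (hu.add hdud).mono sD
    · intro z hz
      simp only [map_add]
      rw [h.ur z (sDρ hz), hdur z (sD hz)]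
    · intro z hz k
      simp only []
      rw [h.up z (sDρ hz) k, hdup z (sD hz) k]
    · intro z hz
      rw [fderiv_fun_add (hu.differentiableAt (oD.mem_nhds (sD hz)))
        (hdud.differentiableAt (oD.mem_nhds (sD hz)))]
      exact (norm_add_le _ _).trans (add_le_add (h.u1 z (sDρ hz)) (k1 z hz))
    · intro z hz
      rw [c13_fd2_add oD hu hdud (sD hz)]
      refine (norm_add_le (fderiv ℂ (fderiv ℂ u) z) (fderiv ℂ (fderiv ℂ du) z)).trans ?_
      exact add_le_add (h.u2 z (sDρ hz)) (k2 z hz)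
  refine ⟨hnew, ?_⟩
  intro z hz
  have hq := hnew.q_mem hz
  have hq' : (z.1, qv (fun w => b w + db w) (fun z => u z + du z) z) ∈
      (D (2 * ρ') (R - ρ + 1) : Set (CE n × CE n)) := D_mono (by linarith) (by linarith) hq
  have h1 := (hHb _ hq').2
  have h2 := herr z (D_mono (by linarith) (by linarith) hz)
  have e : err H' (fun w => b w + db w) (fun z => u z + du z) z =
      (H' (z.1, qv (fun w => b w + db w) (fun z => u z + du z) z) -
        H (z.1, qv (fun w => b w + db w) (fun z => u z + du z) z)) +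
      err H (fun w => b w + db w) (fun z => u z + du z) z := by
    unfold err
    ring
  rw [e]
  refine (norm_add_le _ _).trans ?_
  linarith

end Pool.Agent.LRT
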