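import Pool.Agent.LRT.C12
import Pool.Agent.LRT.C13

/-!
C14 (difficulty 3).  The iteration.

PROOF.  `M = MM n`.  Sequences: `ρ (j+1) = (ρ j) ^ (1 + 1/M : ℝ)` so that `(ρ (j+1))^M = (ρ j)^(M+1)`
(`Real.rpow_natCast`, `Real.rpow_mul`), `R (j+1) = R j - ρ j`, `R 0 = 2`.  For `ρ 0 ≤ ρ₀ ≤ 64^(-M)` one has
`ρ (j+1) ≤ ρ j / 64`, so `∑ ρ j ≤ 2 ρ 0 ≤ 1/1000` and `1 ≤ 3/2 ≤ R j ≤ 2`, `κ j = ∑_{i<j} (ρ i)² ≤ 1/1000`.
`ρ₀` is the minimum of those of `newton_step n CH`, `ns_update n`.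
Start: `b 0 w = dot w w / 2`, `u 0 = 0`: `gb (b 0) w = w`, `hess (b 0) w = 1`, `err (H 0) (b 0) (u 0) (x, w) =
H 0 (x, w) - dot w w / 2`, bounded by `(ρ 0)^M` by hypothesis; `NS 0 (ρ 0) 2 CH (H 0) (b 0) 0`.
Induction: given `NS (κ j) (ρ j) (R j) CH (H j) (b j) (u j)` and `‖err‖ ≤ (ρ j)^M`, the hypothesis `hres` gives `RsC`,
`newton_step` gives `db, du`, `ns_update` gives the next state with error `≤ (ρ j)^(M+1)/2 ≤ (ρ (j+1))^M`.
To construct sequences: define by recursion on `j` elements of the subtype of triples `(κ, b, u)` satisfying the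
invariant (`κ ≤ ∑..`), or use `exists_seq`-style: dependent choice `exists_seq_of_forall...`; the increment bounds
are part of the relation between consecutive terms.
-/

set_option autoImplicit false

open Set MeasureTheory Topology

namespace Pool.Agent.LRT

/-- dependent choice -/
lemma c14_choice {α : Type*} {P : ℕ → α → Prop} {Q : ℕ → α → α → Prop} {a₀ : α} (h0 : P 0 a₀)
    (hs : ∀ j a, P j a → ∃ a', P (j + 1) a' ∧ Q j a a') :
    ∃ f : ℕ → α, f 0 = a₀ ∧ ∀ j, P j (f j) ∧ Q j (f j) (f (j + 1)) := by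
  classical
  let g : ∀ j, {a // P j a} := fun j => Nat.rec (motive := fun j => {a // P j a}) ⟨a₀, h0⟩
    (fun j x => ⟨Classical.choose (hs j x.1 x.2), (Classical.choose_spec (hs j x.1 x.2)).1⟩) j
  refine ⟨fun j => (g j).1, rfl, fun j => ⟨(g j).2, ?_⟩⟩
  exact (Classical.choose_spec (hs j (g j).1 (g j).2)).2

variable {n : ℕ}

lemma c14_mono {κ κ' ρ R CH : ℝ} {H : CE n × CE n → ℂ} {b : CE n → ℂ} {u : CE n × CE n → ℂ}
    (h : NS κ ρ R CH H b u) (hκ : κ ≤ κ') (hκ' : κ' ≤ 1 / 100) : NS κ' ρ R CH H b u :=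
  { ρ0 := h.ρ0, ρ1 := h.ρ1, R1 := h.R1, κ0 := h.κ0.trans hκ, κ1 := hκ', CH0 := h.CH0
    Hd := h.Hd, Hb := h.Hb, Hr := h.Hr, Hp := h.Hp, bd := h.bd, br := h.br
    b1 := fun w hw => (h.b1 w hw).trans hκ
    b2 := fun w hw => (h.b2 w hw).trans hκ
    b3 := fun w hw => (h.b3 w hw).trans hκ
    ud := h.ud, ur := h.ur, up := h.up
    u1 := fun z hz => (h.u1 z hz).trans hκ
    u2 := fun z hz => (h.u2 z hz).trans hκ }

/-- the first approximation -/
noncomputable def c14_b (n : ℕ) : CE n → ℂ := fun w => dot w w / 2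

lemma c14_hasFDeriv (w : CE n) : HasFDerivAt (c14_b n) (dotL w) w := by
  have h1 : HasFDerivAt (fun w : CE n => dotB w w)
      ((dotB w).comp (ContinuousLinearMap.id ℂ (CE n)) +
        (dotB (n := n)).flip w) w := by
    have h2 : HasFDerivAt (fun w : CE n => dotB w) (dotB (n := n)) w := dotB.hasFDerivAt
    have h3 : HasFDerivAt (fun w : CE n => w) (ContinuousLinearMap.id ℂ (CE n)) w :=
      hasFDerivAt_id w
    exact h2.clm_apply h3
  have h2 := h1.const_mul (1 / 2 : ℂ)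
  refine (h2.congr_of_eventuallyEq (Filter.Eventually.of_forall fun v => ?_)).congr_fderiv ?_
  · simp only [c14_b, dotB_apply]; ring
  · ext v
    simp only [_root_.smul_apply, _root_.add_apply,
      ContinuousLinearMap.comp_apply, ContinuousLinearMap.id_apply,
      ContinuousLinearMap.flip_apply, dotB_apply, dotL_apply, smul_eq_mul]
    rw [dot_comm v w]; ring

lemma c14_gb : gb (c14_b n) = fun w => w := by
  funext w
  refine dot_ext fun v => ?_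
  rw [dot_gb, (c14_hasFDeriv w).fderiv, dotL_apply]

lemma c14_hess : hess (c14_b n) = fun _ => 1 := by
  funext w
  unfold hess
  rw [c14_gb]
  exact fderiv_id

lemma c14_gx (z : CE n × CE n) : gx (fun _ : CE n × CE n => (0 : ℂ)) z = 0 := by
  refine dot_ext fun v => ?_
  rw [dot_gx]
  simp [dot]

lemma c14_qv (z : CE n × CE n) : qv (c14_b n) (fun _ => 0) z = z.2 := by
  unfold qv
  rw [c14_gb, c14_gx, add_zero]

lemma c14_err (H : CE n × CE n → ℂ) (z : CE n × CE n) :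
    err H (c14_b n) (fun _ => 0) z = H z - dot z.2 z.2 / 2 := by
  unfold err
  rw [c14_qv, c14_gb]
  simp only [c14_b]
  ring

lemma c14_start {ρ CH : ℝ} {H : CE n × CE n → ℂ} (h0 : 0 < ρ) (h1 : ρ ≤ 1 / 4) (hCH : 0 ≤ CH)
    (hd : DifferentiableOn ℂ H (D (2 * ρ) 3)) (hr : RealX (2 * ρ) 3 H) (hp : PerX (2 * ρ) 3 H)
    (hb : ∀ z ∈ (D (2 * ρ) 3 : Set (CE n × CE n)), ‖H z‖ ≤ CH) :
    NS 0 ρ 2 CH H (c14_b n) (fun _ => 0) := by
  have h3 : (2 : ℝ) + 1 = 3 := by norm_num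
  refine { ρ0 := h0, ρ1 := h1, R1 := by norm_num, κ0 := le_rfl, κ1 := by norm_num, CH0 := hCH
           Hd := by rw [h3]; exact hd
           Hb := by rw [h3]; exact hb
           Hr := by rw [h3]; exact hr
           Hp := by rw [h3]; exact hp
           bd := fun w _ => (c14_hasFDeriv w).differentiableAt.differentiableWithinAt
           br := ?_, b1 := ?_, b2 := ?_, b3 := ?_, ud := ?_, ur := ?_, up := ?_, u1 := ?_, u2 := ?_ }
  · intro w _
    simp only [c14_b]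
    rw [dot_cj, map_div₀]
    exact congrArg _ (map_ofNat (starRingEnd ℂ) 2).symm
  · intro w _
    rw [c14_gb]; simp
  · intro w _
    rw [c14_hess, sub_self]
    exact le_of_eq norm_zero
  · intro w _
    rw [c14_hess]
    have h5 : fderiv ℂ (fun _ : CE n => (1 : CE n →L[ℂ] CE n)) w = 0 := by
      exact fderiv_const_apply _
    rw [h5]
    exact le_of_eq ContinuousLinearMap.opNorm_zero
  · exact differentiableOn_const _
  · intro z _; simp
  · intro z _ k; rfl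
  · intro z _
    have h5 : fderiv ℂ (fun _ : CE n × CE n => (0 : ℂ)) z = 0 := fderiv_const_apply _
    rw [h5]
    exact le_of_eq norm_zero
  · intro z _
    have h5 : fderiv ℂ (fun _ : CE n × CE n => (0 : ℂ)) = fun _ => 0 := by
      funext z; exact fderiv_const_apply _
    rw [h5]
    have h6 : fderiv ℂ (fun _ : CE n × CE n => (0 : CE n × CE n →L[ℂ] ℂ)) z = 0 :=
      fderiv_const_apply _
    rw [h6]
    exact le_of_eq ContinuousLinearMap.opNorm_zero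

lemma c14_MM (n : ℕ) : 1 ≤ MM n := by
  unfold MM
  have : 1 ≤ (n + 4) ^ 2 := Nat.one_le_pow _ _ (by omega)
  omega

theorem iteration (n : ℕ) (CH : ℝ) : ∃ ρ₀ : ℝ, 0 < ρ₀ ∧ ∀ (ρ R : ℕ → ℝ) (H : ℕ → CE n × CE n → ℂ),
    0 < ρ 0 → ρ 0 ≤ ρ₀ → (∀ j, 0 < ρ (j + 1) ∧ (ρ (j + 1)) ^ MM n = (ρ j) ^ (MM n + 1)) →
    R 0 = 2 → (∀ j, R (j + 1) = R j - ρ j) → 0 ≤ CH →
    (∀ j, DifferentiableOn ℂ (H j) (D (2 * ρ j) 3) ∧ RealX (2 * ρ j) 3 (H j) ∧ PerX (2 * ρ j) 3 (H j) ∧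
      (∀ z ∈ (D (2 * ρ j) 3 : Set (CE n × CE n)), ‖H j z‖ ≤ CH) ∧
      ∀ z ∈ (D (2 * ρ (j + 1)) 3 : Set (CE n × CE n)), ‖H (j + 1) z - H j z‖ ≤ (ρ j) ^ (MM n + 1) / 4) →
    (∀ z ∈ (D (2 * ρ 0) 3 : Set (CE n × CE n)), ‖H 0 z - dot z.2 z.2 / 2‖ ≤ (ρ 0) ^ MM n) →
    (∀ (j : ℕ) (κ : ℝ) (b : CE n → ℂ) (u : CE n × CE n → ℂ), NS κ (ρ j) (R j) CH (H j) b u →
      (∀ z ∈ D (ρ j) (R j), ‖err (H j) b u z‖ ≤ (ρ j) ^ MM n) →
      RsC ⌈((ρ j) ^ 2)⁻¹⌉₊ (2 * (ρ j) ^ (MM n + 4 * (n + 4))) (R j - ρ j / 4) (et (H j) b u (ρ j))) →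
    (∀ j, 3 / 2 ≤ R j ∧ ρ (j + 1) ≤ ρ j / 64) ∧
    ∃ (b : ℕ → CE n → ℂ) (u : ℕ → CE n × CE n → ℂ), (b 0 = fun w => dot w w / 2) ∧ (u 0 = fun _ => 0) ∧
      ∀ j, NS (1 / 100) (ρ j) (R j) CH (H j) (b j) (u j) ∧
        (∀ z ∈ D (ρ j) (R j), ‖err (H j) (b j) (u j) z‖ ≤ (ρ j) ^ MM n) ∧
        DifferentiableOn ℂ (fun w => b (j + 1) w - b j w) (Dw (ρ j / 2) (R j)) ∧
        (∀ w ∈ Dw (ρ j / 2) (R j), ‖b (j + 1) w - b j w‖ ≤ (ρ j) ^ MM n) ∧
        DifferentiableOn ℂ (fun z => u (j + 1) z - u j z) (D (ρ j / 8) (R j - ρ j / 4)) ∧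
        (∀ z ∈ D (ρ j / 8) (R j - ρ j / 4), ‖u (j + 1) z - u j z‖ ≤ (ρ j) ^ (MM n - 2 * n - 6)) := by
  obtain ⟨ρ₁, hρ₁, hstep⟩ := newton_step n CH
  obtain ⟨ρ₂, hρ₂, hupd⟩ := ns_update n
  refine ⟨min (min ρ₁ ρ₂) (min ((1 / 64) ^ MM n) (1 / 20)), ?_, ?_⟩
  · exact lt_min (lt_min hρ₁ hρ₂) (lt_min (by positivity) (by norm_num))
  intro ρ R H h0 hle hρ hR0 hR hCH hH hstart hres
  have hle1 : ρ 0 ≤ ρ₁ := hle.trans ((min_le_left _ _).trans (min_le_left _ _))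
  have hle2 : ρ 0 ≤ ρ₂ := hle.trans ((min_le_left _ _).trans (min_le_right _ _))
  have hle3 : ρ 0 ≤ (1 / 64) ^ MM n := hle.trans ((min_le_right _ _).trans (min_le_left _ _))
  have hle4 : ρ 0 ≤ 1 / 20 := hle.trans ((min_le_right _ _).trans (min_le_right _ _))
  have hM : MM n ≠ 0 := by have := c14_MM n; omega
  have hpos : ∀ j, 0 < ρ j := by
    intro j
    cases j with
    | zero => exact h0
    | succ j => exact (hρ j).1
  have hdec : ∀ j, ρ j ≤ (1 / 64) ^ MM n → ρ (j + 1) ≤ ρ j / 64 := by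
    intro j hj
    have h1 : ρ (j + 1) ^ MM n ≤ (ρ j / 64) ^ MM n := by
      rw [(hρ j).2, pow_succ, div_eq_mul_one_div (ρ j) 64, mul_pow]
      exact mul_le_mul_of_nonneg_left hj (pow_nonneg (hpos j).le _)
    exact le_of_pow_le_pow_left₀ hM (by have := hpos j; positivity) h1
  have hall : ∀ j, ρ j ≤ ρ 0 := by
    intro j
    induction j with
    | zero => exact le_rfl
    | succ j ih =>
      have h1 := hdec j (ih.trans hle3)
      have h2 := hpos j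
      linarith
  have hdec' : ∀ j, ρ (j + 1) ≤ ρ j / 64 := fun j => hdec j ((hall j).trans hle3)
  have hRlow : ∀ j, 2 - 2 * ρ 0 ≤ R j - 2 * ρ j := by
    intro j
    induction j with
    | zero => rw [hR0]
    | succ j ih =>
      have h1 := hdec' j
      have h2 := hpos j
      rw [hR]
      linarith
  have hRup : ∀ j, R j ≤ 2 := by
    intro j
    induction j with
    | zero => rw [hR0]
    | succ j ih =>
      have h2 := hpos j
      rw [hR]
      linarith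
  have hR32 : ∀ j, 3 / 2 ≤ R j := by
    intro j
    have h1 := hRlow j
    have h2 := hpos j
    linarith
  refine ⟨fun j => ⟨hR32 j, hdec' j⟩, ?_⟩
  obtain ⟨hd0, hr0, hp0, hb0, -⟩ := hH 0
  obtain ⟨f, hf0, hf⟩ := c14_choice
    (α := ℝ × (CE n → ℂ) × (CE n × CE n → ℂ))
    (P := fun j s => NS s.1 (ρ j) (R j) CH (H j) s.2.1 s.2.2 ∧
      (∀ z ∈ D (ρ j) (R j), ‖err (H j) s.2.1 s.2.2 z‖ ≤ (ρ j) ^ MM n) ∧
      s.1 + 2 * (ρ j) ^ 2 ≤ 2 * (ρ 0) ^ 2)
    (Q := fun j s s' => DifferentiableOn ℂ (fun w => s'.2.1 w - s.2.1 w) (Dw (ρ j / 2) (R j)) ∧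
        (∀ w ∈ Dw (ρ j / 2) (R j), ‖s'.2.1 w - s.2.1 w‖ ≤ (ρ j) ^ MM n) ∧
        DifferentiableOn ℂ (fun z => s'.2.2 z - s.2.2 z) (D (ρ j / 8) (R j - ρ j / 4)) ∧
        (∀ z ∈ D (ρ j / 8) (R j - ρ j / 4), ‖s'.2.2 z - s.2.2 z‖ ≤ (ρ j) ^ (MM n - 2 * n - 6)))
    (a₀ := ((0 : ℝ), c14_b n, fun _ => (0 : ℂ)))
    (by
      refine ⟨?_, ?_, ?_⟩
      · rw [hR0]
        exact c14_start h0 (hle4.trans (by norm_num)) hCH hd0 hr0 hp0 hb0
      · intro z hz
        simp only [c14_err]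
        rw [hR0] at hz
        exact hstart z (D_mono (by linarith) (by norm_num) hz)
      · simp)
    (by
      rintro j ⟨κ, b, u⟩ ⟨hNS, herr, hκ⟩
      simp only at hNS herr hκ
      have hpj := hpos j
      have hpj1 := hpos (j + 1)
      have hdj := hdec' j
      obtain ⟨db, du, hdb1, hdb2, hdb3, hdu1, hdu2, hdu3, hdu4, hdu5⟩ :=
        hstep κ (ρ j) (R j) (H j) b u hNS ((hall j).trans hle1) herr (hres j κ b u hNS herr)
      obtain ⟨hd1, hr1, hp1, hb1, -⟩ := hH (j + 1)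
      have hdiff := (hH j).2.2.2.2
      have hRj := hRup j
      have hRj' := hRlow j
      have hsub : (D (2 * ρ (j + 1)) (R j - ρ j + 1) : Set (CE n × CE n)) ⊆
          D (2 * ρ (j + 1)) 3 := D_mono le_rfl (by linarith)
      have hsq : (ρ (j + 1)) ^ 2 ≤ (ρ j) ^ 2 / 64 := by
        nlinarith [mul_le_mul hdj hdj hpj1.le (by positivity : (0 : ℝ) ≤ ρ j / 64)]
      have h400 : (ρ 0) ^ 2 ≤ 1 / 400 := by nlinarith
      have hnn : 0 ≤ (ρ j) ^ 2 := sq_nonneg _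
      obtain ⟨hN, hE⟩ := hupd κ (ρ j) (R j) (ρ (j + 1)) CH (H j) (H (j + 1)) b u db du hNS
        ((hall j).trans hle2) hpj1 hdj (by linarith) (by linarith)
        (hd1.mono hsub) (fun z hz => hr1 z (hsub hz)) (fun z hz k => hp1 z (hsub hz) k)
        (fun z hz => ⟨hb1 z (hsub hz), hdiff z (hsub hz)⟩)
        hdb1 hdb2 hdb3 hdu1 hdu2 hdu3 hdu4 hdu5
      refine ⟨(κ + (ρ j) ^ 2, (fun w => b w + db w), (fun z => u z + du z)),
        ⟨?_, ?_, ?_⟩, ?_, ?_, ?_, ?_⟩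
      · simp only
        rw [hR j]
        exact hN
      · simp only
        rw [hR j]
        intro z hz
        refine (hE z hz).trans ?_
        rw [(hρ j).2]
        have : 0 ≤ ρ j ^ (MM n + 1) := pow_nonneg hpj.le _
        linarith
      · simp only
        linarith
      · simp only [add_sub_cancel_left]
        exact hdb1
      · simp only [add_sub_cancel_left]
        exact hdb3
      · simp only [add_sub_cancel_left]
        exact hdu1
      · simp only [add_sub_cancel_left]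
        exact hdu4)
  refine ⟨fun j => (f j).2.1, fun j => (f j).2.2, ?_, ?_, ?_⟩
  · simp only [hf0]
    rfl
  · simp only [hf0]
  · intro j
    obtain ⟨⟨h1, h2, h3⟩, h4, h5, h6, h7⟩ := hf j
    have h400 : (ρ 0) ^ 2 ≤ 1 / 400 := by nlinarith
    have hnn : 0 ≤ (ρ j) ^ 2 := sq_nonneg _
    exact ⟨c14_mono h1 (by linarith) le_rfl, h2, h4, h5, h6, h7⟩

end Pool.Agent.LRT
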