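import Pool.Agent.LRT.CD

/-!
C4 (difficulty 2).  Sums over the lattice.

PROOF.  `‖m‖` is the sup norm of `m : Fin n → ℤ`, `‖m‖ ≤ ‖lat m‖` (Euclidean norm), `|m|_1 ≤ n ‖lat m‖`.
The number of `m` with `‖m‖ ≤ j` is `(2j+1)^n` (`bx n j` is `Finset.Icc`, `Pi.card_Icc`, `Int.card_Icc`).
Convergence of `∑ (1 + ‖m‖)^(-(n+1))`: the finite sum over `bx n K` is
`≤ ∑_{j ≤ K} (card bx j - card bx (j-1)) (1+j)^(-(n+1)) ≤ 2^n n... ∑ C (1+j)^(-2)` since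
`(2j+1)^n - (2j-1)^n ≤ 2 n (2j+1)^(n-1)`.  (Alternatively: `(1 + ‖m‖)^n ≥ ∏ (1 + |m_i|)` does not give
summability, but `exp(-ρ‖lat m‖) ≤ exp (-ρ |m|_1 / n) = ∏ exp (-ρ |m_i| / n)` and the product of geometric
series gives `(2 / (1 - exp(-ρ/n)))^n ≤ C ρ^(-n)`: this is the simplest way, e.g. by
`Finset.prod_univ_sum` on boxes `bx n K = Fintype.piFinset (fun _ => Finset.Icc (-K) K)`, or
`summable` of a function on `Fin n → ℤ` by `summable_of_sum_le` with all finite sets contained in boxes.)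
`lat_sum`: `∑_{m ∈ s} exp (-ρ ‖lat m‖) ≤ C ρ^(-n)` for every finite `s` and `0 < ρ ≤ 1`.
`lat_sum1`: `(1 + 2π |m|_1) exp (-ρ‖lat m‖) ≤ (1 + 2π n ‖lat m‖) exp(-ρ ‖lat m‖) ≤ C ρ⁻¹ exp (-ρ‖lat m‖/2)`
since `x exp (-x/2) ≤ 1` (for `x ≥ 0`); then `lat_sum` with `ρ/2`.
`lat_tail`: for `m ∉ bx n K`, `‖lat m‖ ≥ K`, so `exp (-ρ‖lat m‖) ≤ exp (-ρ‖lat m‖/2) exp (-ρK/2)` and
`exp (-ρ K/2) ≤ N! (2/(ρK))^N` (`Real.pow_div_factorial_le_exp`); then `lat_sum` with `ρ/2`.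
-/

set_option autoImplicit false

open Set MeasureTheory Topology

namespace Pool.Agent.LRT

lemma c4_ineq {a : ℝ} (ha : 0 < a) (ha1 : a ≤ 1) : 1 / (1 - Real.exp (-a)) ≤ 2 / a := by
  have h1 : a + 1 ≤ Real.exp a := Real.add_one_le_exp a
  have h2 : Real.exp (-a) ≤ 1 / (1 + a) := by
    rw [Real.exp_neg, inv_eq_one_div]
    exact one_div_le_one_div_of_le (by linarith) (by linarith)
  have h3 : 1 - 1 / (1 + a) = a / (1 + a) := by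
    field_simp
    ring
  have h4 : a / 2 ≤ a / (1 + a) := div_le_div_of_nonneg_left ha.le (by linarith) (by linarith)
  have h5 : a / 2 ≤ 1 - Real.exp (-a) := by linarith
  calc 1 / (1 - Real.exp (-a)) ≤ 1 / (a / 2) := one_div_le_one_div_of_le (by linarith) h5
    _ = 2 / a := by
      field_simp

lemma c4_half {a : ℝ} (ha : 0 < a) (ha1 : a ≤ 1) (s : Finset ℤ)
    (hs : Set.InjOn Int.natAbs (s : Set ℤ)) :
    ∑ k ∈ s, Real.exp (-(a * |(k : ℝ)|)) ≤ 2 / a := by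
  have hq0 : 0 ≤ Real.exp (-a) := (Real.exp_pos _).le
  have hq1 : Real.exp (-a) < 1 := by
    rw [Real.exp_lt_one_iff]
    linarith
  have e : ∀ k ∈ s, Real.exp (-(a * |(k : ℝ)|)) = Real.exp (-a) ^ (Int.natAbs k) := by
    intro k _
    rw [← Real.exp_nat_mul]
    congr 1
    rw [Nat.cast_natAbs]
    push_cast
    ring
  rw [Finset.sum_congr rfl e]
  have e2 : ∑ k ∈ s, Real.exp (-a) ^ (Int.natAbs k) = ∑ j ∈ s.image Int.natAbs, Real.exp (-a) ^ j := by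
    rw [Finset.sum_image]
    exact hs
  rw [e2]
  refine le_trans ((summable_geometric_of_lt_one hq0 hq1).sum_le_tsum _
    (fun j _ => pow_nonneg hq0 j)) ?_
  rw [tsum_geometric_of_lt_one hq0 hq1, inv_eq_one_div]
  exact c4_ineq ha ha1

lemma c4_geo {a : ℝ} (ha : 0 < a) (ha1 : a ≤ 1) (s : Finset ℤ) :
    ∑ k ∈ s, Real.exp (-(a * |(k : ℝ)|)) ≤ 4 / a := by
  rw [← Finset.sum_filter_add_sum_filter_not s (fun k => 0 ≤ k)]
  have h1 := c4_half ha ha1 (s.filter (fun k => 0 ≤ k)) (by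
    intro x hx y hy hxy
    simp only [Finset.coe_filter, Set.mem_ofPred_eq] at hx hy
    have := hx.2
    have := hy.2
    omega)
  have h2 := c4_half ha ha1 (s.filter (fun k => ¬ 0 ≤ k)) (by
    intro x hx y hy hxy
    simp only [Finset.coe_filter, Set.mem_ofPred_eq] at hx hy
    have := hx.2
    have := hy.2
    omega)
  have h3 : (4 : ℝ) / a = 2 / a + 2 / a := by ring
  rw [h3]
  exact add_le_add h1 h2

lemma c4_coord {n : ℕ} (m : Fin n → ℤ) (i : Fin n) : |(m i : ℝ)| ≤ ‖lat m‖ := by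
  have h := PiLp.norm_apply_le (lat m) i
  rwa [lat_apply, Real.norm_eq_abs] at h

lemma c4_l1 {n : ℕ} (m : Fin n → ℤ) : ∑ i, |(m i : ℝ)| ≤ ((n : ℝ) + 1) * ‖lat m‖ := by
  have h1 : ∑ i, |(m i : ℝ)| ≤ ∑ _i : Fin n, ‖lat m‖ := Finset.sum_le_sum fun i _ => c4_coord m i
  rw [Finset.sum_const, Finset.card_univ, Fintype.card_fin, nsmul_eq_mul] at h1
  have := norm_nonneg (lat m)
  linarith

lemma c4_bx {n : ℕ} (s : Finset (Fin n → ℤ)) : ∃ t : Fin n → Finset ℤ, s ⊆ Fintype.piFinset t := by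
  classical
  refine ⟨fun i => s.image (fun m => m i), fun m hm => ?_⟩
  rw [Fintype.mem_piFinset]
  intro i
  exact Finset.mem_image_of_mem (fun m : Fin n → ℤ => m i) hm

theorem lat_sum (n : ℕ) : ∃ C : ℝ, 0 < C ∧ ∀ ρ : ℝ, 0 < ρ → ρ ≤ 1 → ∀ s : Finset (Fin n → ℤ),
    ∑ m ∈ s, Real.exp (-(ρ * ‖lat m‖)) ≤ C / ρ ^ n := by
  have hn : (0 : ℝ) < (n : ℝ) + 1 := by positivity
  refine ⟨(4 * ((n : ℝ) + 1)) ^ n, by positivity, fun ρ hρ hρ1 s => ?_⟩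
  obtain ⟨t, ht⟩ := c4_bx s
  have ha : 0 < ρ / ((n : ℝ) + 1) := by positivity
  have ha1 : ρ / ((n : ℝ) + 1) ≤ 1 := by
    rw [div_le_one hn]
    have : (0 : ℝ) ≤ n := Nat.cast_nonneg n
    linarith
  have h1 : ∀ m : Fin n → ℤ, Real.exp (-(ρ * ‖lat m‖)) ≤
      ∏ i, Real.exp (-(ρ / ((n : ℝ) + 1) * |(m i : ℝ)|)) := by
    intro m
    rw [← Real.exp_sum]
    refine Real.exp_le_exp.2 ?_
    rw [Finset.sum_neg_distrib, ← Finset.mul_sum]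
    refine neg_le_neg ?_
    calc ρ / ((n : ℝ) + 1) * ∑ i, |(m i : ℝ)| ≤ ρ / ((n : ℝ) + 1) * (((n : ℝ) + 1) * ‖lat m‖) :=
        mul_le_mul_of_nonneg_left (c4_l1 m) ha.le
      _ = ρ * ‖lat m‖ := by
        field_simp
  calc ∑ m ∈ s, Real.exp (-(ρ * ‖lat m‖))
      ≤ ∑ m ∈ s, ∏ i, Real.exp (-(ρ / ((n : ℝ) + 1) * |(m i : ℝ)|)) :=
        Finset.sum_le_sum fun m _ => h1 m
    _ ≤ ∑ m ∈ Fintype.piFinset t, ∏ i, Real.exp (-(ρ / ((n : ℝ) + 1) * |(m i : ℝ)|)) :=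
        Finset.sum_le_sum_of_subset_of_nonneg ht
          (fun m _ _ => Finset.prod_nonneg fun i _ => (Real.exp_pos _).le)
    _ = ∏ i, ∑ k ∈ t i, Real.exp (-(ρ / ((n : ℝ) + 1) * |(k : ℝ)|)) :=
        (Finset.prod_univ_sum t (fun _ (k : ℤ) => Real.exp (-(ρ / ((n : ℝ) + 1) * |(k : ℝ)|)))).symm
    _ ≤ ∏ _i : Fin n, (4 / (ρ / ((n : ℝ) + 1))) :=
        Finset.prod_le_prod (fun i _ => Finset.sum_nonneg fun k _ => (Real.exp_pos _).le)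
          (fun i _ => c4_geo ha ha1 (t i))
    _ = (4 * ((n : ℝ) + 1)) ^ n / ρ ^ n := by
        rw [Finset.prod_const, Finset.card_univ, Fintype.card_fin, ← div_pow]
        congr 1
        field_simp

theorem lat_sum1 (n : ℕ) : ∃ C : ℝ, 0 < C ∧ ∀ ρ : ℝ, 0 < ρ → ρ ≤ 1 → ∀ s : Finset (Fin n → ℤ),
    ∑ m ∈ s, (1 + 2 * Real.pi * ∑ i, |(m i : ℝ)|) * Real.exp (-(ρ * ‖lat m‖)) ≤ C / ρ ^ (n + 1) := by
  obtain ⟨C, hC, hs⟩ := lat_sum n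
  have hn : (0 : ℝ) < (n : ℝ) + 1 := by positivity
  have hpi := Real.pi_pos
  refine ⟨(1 + 4 * Real.pi * ((n : ℝ) + 1)) * (C * 2 ^ n), by positivity, fun ρ hρ hρ1 s => ?_⟩
  have h1 : ∀ m : Fin n → ℤ, (1 + 2 * Real.pi * ∑ i, |(m i : ℝ)|) * Real.exp (-(ρ * ‖lat m‖)) ≤
      (1 + 4 * Real.pi * ((n : ℝ) + 1)) / ρ * Real.exp (-(ρ / 2 * ‖lat m‖)) := by
    intro m
    have hx : 0 ≤ ‖lat m‖ := norm_nonneg _
    have hE : Real.exp (-(ρ * ‖lat m‖)) =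
        Real.exp (-(ρ / 2 * ‖lat m‖)) * Real.exp (-(ρ / 2 * ‖lat m‖)) := by
      rw [← Real.exp_add]
      congr 1
      ring
    have hE1 : Real.exp (-(ρ / 2 * ‖lat m‖)) ≤ 1 := by
      rw [Real.exp_le_one_iff]
      have : 0 ≤ ρ / 2 * ‖lat m‖ := by positivity
      linarith
    have hE0 : 0 < Real.exp (-(ρ / 2 * ‖lat m‖)) := Real.exp_pos _
    have hx2 : ‖lat m‖ * Real.exp (-(ρ / 2 * ‖lat m‖)) ≤ 2 / ρ := by
      have h3 : ρ / 2 * ‖lat m‖ ≤ Real.exp (ρ / 2 * ‖lat m‖) := by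
        have := Real.add_one_le_exp (ρ / 2 * ‖lat m‖)
        linarith
      have h4 : ρ / 2 * ‖lat m‖ * Real.exp (-(ρ / 2 * ‖lat m‖)) ≤ 1 := by
        rw [Real.exp_neg, ← div_eq_mul_inv]
        exact (div_le_one (Real.exp_pos _)).2 h3
      rw [le_div_iff₀ hρ]
      linarith
    have h5 : (1 + 2 * Real.pi * ∑ i, |(m i : ℝ)|) * Real.exp (-(ρ / 2 * ‖lat m‖)) ≤
        (1 + 4 * Real.pi * ((n : ℝ) + 1)) / ρ := by
      have h6 : (1 + 2 * Real.pi * ∑ i, |(m i : ℝ)|) ≤ 1 + 2 * Real.pi * (((n : ℝ) + 1) * ‖lat m‖) := by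
        have := mul_le_mul_of_nonneg_left (c4_l1 m) (show (0 : ℝ) ≤ 2 * Real.pi by positivity)
        linarith
      refine (mul_le_mul_of_nonneg_right h6 hE0.le).trans ?_
      have h7 : (1 + 2 * Real.pi * (((n : ℝ) + 1) * ‖lat m‖)) * Real.exp (-(ρ / 2 * ‖lat m‖)) =
          Real.exp (-(ρ / 2 * ‖lat m‖)) +
          2 * Real.pi * ((n : ℝ) + 1) * (‖lat m‖ * Real.exp (-(ρ / 2 * ‖lat m‖))) := by ring
      rw [h7]
      have h8 : (1 : ℝ) ≤ 1 / ρ := by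
        rw [le_div_iff₀ hρ]
        linarith
      have h9 := mul_le_mul_of_nonneg_left hx2 (show (0 : ℝ) ≤ 2 * Real.pi * ((n : ℝ) + 1) by positivity)
      have h10 : (1 + 4 * Real.pi * ((n : ℝ) + 1)) / ρ =
          1 / ρ + 2 * Real.pi * ((n : ℝ) + 1) * (2 / ρ) := by ring
      rw [h10]
      linarith
    rw [hE, ← mul_assoc]
    exact mul_le_mul_of_nonneg_right h5 hE0.le
  calc ∑ m ∈ s, (1 + 2 * Real.pi * ∑ i, |(m i : ℝ)|) * Real.exp (-(ρ * ‖lat m‖))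
      ≤ ∑ m ∈ s, (1 + 4 * Real.pi * ((n : ℝ) + 1)) / ρ * Real.exp (-(ρ / 2 * ‖lat m‖)) :=
        Finset.sum_le_sum fun m _ => h1 m
    _ = (1 + 4 * Real.pi * ((n : ℝ) + 1)) / ρ * ∑ m ∈ s, Real.exp (-(ρ / 2 * ‖lat m‖)) := by
        rw [Finset.mul_sum]
    _ ≤ (1 + 4 * Real.pi * ((n : ℝ) + 1)) / ρ * (C / (ρ / 2) ^ n) :=
        mul_le_mul_of_nonneg_left (hs (ρ / 2) (by positivity) (by linarith) s) (by positivity)
    _ = (1 + 4 * Real.pi * ((n : ℝ) + 1)) * (C * 2 ^ n) / ρ ^ (n + 1) := by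
        rw [div_pow, pow_succ]
        field_simp

theorem lat_tail (n N : ℕ) : ∃ C : ℝ, 0 < C ∧ ∀ ρ : ℝ, 0 < ρ → ρ ≤ 1 → ∀ K : ℕ, 1 ≤ K →
    ∀ s : Finset (Fin n → ℤ), (∀ m ∈ s, m ∉ bx n K) →
    ∑ m ∈ s, Real.exp (-(ρ * ‖lat m‖)) ≤ C / (ρ ^ (n + N) * (K : ℝ) ^ N) := by
  obtain ⟨C, hC, hs⟩ := lat_sum n
  refine ⟨C * 2 ^ n * (N.factorial * 2 ^ N), by positivity, fun ρ hρ hρ1 K hK s hsK => ?_⟩
  have hK0 : (0 : ℝ) < K := by exact_mod_cast hK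
  have h1 : ∀ m ∈ s, Real.exp (-(ρ * ‖lat m‖)) ≤
      N.factorial * 2 ^ N / (ρ ^ N * (K : ℝ) ^ N) * Real.exp (-(ρ / 2 * ‖lat m‖)) := by
    intro m hm
    have hx : (K : ℝ) ≤ ‖lat m‖ := by
      have h2 := hsK m hm
      rw [mem_bx] at h2
      push Not at h2
      obtain ⟨i, hi⟩ := h2
      refine le_trans ?_ (c4_coord m i)
      have h3 : ((K : ℤ) : ℝ) ≤ ((|m i| : ℤ) : ℝ) := by exact_mod_cast hi.le
      rw [Int.cast_abs] at h3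
      exact_mod_cast h3
    have hE : Real.exp (-(ρ * ‖lat m‖)) =
        Real.exp (-(ρ / 2 * ‖lat m‖)) * Real.exp (-(ρ / 2 * ‖lat m‖)) := by
      rw [← Real.exp_add]
      congr 1
      ring
    have hE2 : Real.exp (-(ρ / 2 * ‖lat m‖)) ≤ Real.exp (-(ρ / 2 * K)) := by
      refine Real.exp_le_exp.2 (neg_le_neg ?_)
      exact mul_le_mul_of_nonneg_left hx (by positivity)
    have hE3 : Real.exp (-(ρ / 2 * K)) ≤ N.factorial * 2 ^ N / (ρ ^ N * (K : ℝ) ^ N) := by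
      have h4 := Real.pow_div_factorial_le_exp (ρ / 2 * K) (by positivity) N
      have h5 : (0 : ℝ) < (ρ / 2 * K) ^ N / N.factorial := by positivity
      rw [Real.exp_neg]
      calc (Real.exp (ρ / 2 * K))⁻¹ ≤ ((ρ / 2 * K) ^ N / N.factorial)⁻¹ := inv_anti₀ h5 h4
        _ = N.factorial * 2 ^ N / (ρ ^ N * (K : ℝ) ^ N) := by
          rw [inv_div, mul_pow, div_pow]
          field_simp
    rw [hE]
    exact mul_le_mul_of_nonneg_right (hE2.trans hE3) (Real.exp_pos _).le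
  calc ∑ m ∈ s, Real.exp (-(ρ * ‖lat m‖))
      ≤ ∑ m ∈ s, N.factorial * 2 ^ N / (ρ ^ N * (K : ℝ) ^ N) * Real.exp (-(ρ / 2 * ‖lat m‖)) :=
        Finset.sum_le_sum h1
    _ = N.factorial * 2 ^ N / (ρ ^ N * (K : ℝ) ^ N) * ∑ m ∈ s, Real.exp (-(ρ / 2 * ‖lat m‖)) := by
        rw [Finset.mul_sum]
    _ ≤ N.factorial * 2 ^ N / (ρ ^ N * (K : ℝ) ^ N) * (C / (ρ / 2) ^ n) :=
        mul_le_mul_of_nonneg_left (hs (ρ / 2) (by positivity) (by linarith) s) (by positivity)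
    _ = C * 2 ^ n * (N.factorial * 2 ^ N) / (ρ ^ (n + N) * (K : ℝ) ^ N) := by
        rw [div_pow, pow_add]
        field_simp

theorem lat_summable (n : ℕ) {ρ : ℝ} (hρ : 0 < ρ) :
    Summable (fun m : Fin n → ℤ => Real.exp (-(ρ * ‖lat m‖))) := by
  obtain ⟨C, hC, hs⟩ := lat_sum n
  have h0 : 0 < min ρ 1 := lt_min hρ one_pos
  refine summable_of_sum_le (c := C / (min ρ 1) ^ n) (fun m => (Real.exp_pos _).le) (fun s => ?_)
  refine (Finset.sum_le_sum fun m _ => ?_).trans (hs (min ρ 1) h0 (min_le_right _ _) s)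
  exact Real.exp_le_exp.2 (neg_le_neg (mul_le_mul_of_nonneg_right (min_le_left _ _) (norm_nonneg _)))

end Pool.Agent.LRT
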