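import Pool.Agent.LRT.C1
import Pool.Agent.LRT.C4

/-!
C5 (difficulty 3).  Fourier coefficients of a holomorphic function on a strip.
`G` is holomorphic on `D ρ R`, periodic in the first variable, bounded by `B`.

PROOF.
`coef_hol`: differentiate under the integral over `cell` (finite measure): for `w₀ ∈ Dw ρ R` and `w` in a
small closed ball around `w₀` the points `(ofR t, w)`, `t` in the closed cell, stay in a compact subset of
`D ρ R`, where `fderiv ℂ G` is continuous (`hol_fderiv`) and bounded; the factor `ch (-m) (ofR t)` has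
norm 1.  `hasFDerivAt_integral_of_dominated_of_fderiv_le`.
`coef_shift`: for `y : RE n`, `‖y‖ < ρ`:
`coef G m w = ∫ t in cell, G (ofR t + I • ofR y, w) * ch (-m) (ofR t + I • ofR y)`.
Put `Φ ζ = ∫ t in cell, G (ofR t + ζ • ofR y, w) * ch (-m) (ofR t + ζ • ofR y)` for
`ζ : ℂ`, `|ζ.im| ‖y‖ < ρ`.  It is holomorphic on this (convex, open) strip (same argument), and for
real `ζ` it is constant: the integrand is a continuous `ℤⁿ`-periodic function of `t` translated by
`ζ y` (translation invariance of the integral of a periodic function over the cell: e.g. the `lam_trans`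
lemma of Pool/Agent/H45/MatherMeas.lean, copied, or `UnitAddTorus.integral_preimage`, or one coordinate
at a time).  By the identity theorem
(`AnalyticOnNhd.eqOn_of_preconnected_of_frequently_eq`, strip is an open neighbourhood of the real axis)
`Φ I = Φ 0`.
`coef_bound`: `m ≠ 0`: for `0 < r < ρ` take `y = -(r/‖lat m‖) • lat m`: then
`‖ch (-m) (ofR t + I • ofR y)‖ = exp (2π ⟨lat m, y⟩)= exp (-2π r ‖lat m‖)`, so
`‖coef G m w‖ ≤ B exp (-2π r ‖lat m‖)`; let `r → ρ`.  (`m = 0`: trivial.)  The measure of `cell` is 1.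
`coef_real`: `conj` of the integral: `G (cjp (ofR t, w)) = conj (G ..)`, `ch (-m) (ofR t) = conj (ch m (ofR t))`.
-/

set_option autoImplicit false

open Set MeasureTheory Topology

namespace Pool.Agent.LRT

variable {n : ℕ}

lemma c5_dot_lat (m k : Fin n → ℤ) :
    dot (ofR (lat m)) (ofR (lat k)) = ((∑ i, m i * k i : ℤ) : ℂ) := by
  unfold dot
  push_cast
  refine Finset.sum_congr rfl fun i _ => ?_
  simp

lemma c5_ch_add (m : Fin n → ℤ) (z z' : CE n) : ch m (z + z') = ch m z * ch m z' := by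
  unfold ch
  rw [dot_add, mul_add, Complex.exp_add]

lemma c5_ch_lat (m k : Fin n → ℤ) : ch m (ofR (lat k)) = 1 := by
  unfold ch
  rw [c5_dot_lat]
  have h := Complex.exp_int_mul_two_pi_mul_I (∑ i, m i * k i)
  rw [mul_comm] at h
  exact h

lemma c5_ofR_neg (m : Fin n → ℤ) : ofR (lat (-m)) = -ofR (lat m) := by
  ext i
  simp

lemma c5_neg_dot (z w : CE n) : dot (-z) w = -dot z w := by
  have h := smul_dot (-1) z w
  rwa [neg_one_smul, neg_one_mul] at h

lemma c5_ch_neg (m : Fin n → ℤ) (z : CE n) : ch m z * ch (-m) z = 1 := by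
  unfold ch
  rw [c5_ofR_neg, c5_neg_dot, ← Complex.exp_add, mul_neg, add_neg_cancel, Complex.exp_zero]

lemma c5_dot_im (x : RE n) (z : CE n) : (dot (ofR x) z).im = inner ℝ x (im z) := by
  unfold dot
  rw [PiLp.inner_apply, Complex.im_sum]
  refine Finset.sum_congr rfl fun i _ => ?_
  rw [ofR_apply, Complex.im_ofReal_mul, im_apply]
  simp [mul_comm]

lemma c5_ch_norm (m : Fin n → ℤ) (z : CE n) :
    ‖ch m z‖ = Real.exp (-(2 * Real.pi * inner ℝ (lat m) (im z))) := by
  unfold ch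
  rw [Complex.norm_exp]
  congr 1
  have h : 2 * (Real.pi : ℂ) * Complex.I * dot (ofR (lat m)) z =
      ((2 * Real.pi : ℝ) : ℂ) * (dot (ofR (lat m)) z * Complex.I) := by
    push_cast
    ring
  rw [h, Complex.re_ofReal_mul, Complex.mul_I_re, c5_dot_im]
  ring

lemma c5_ch_conj (m : Fin n → ℤ) (z : CE n) : (starRingEnd ℂ) (ch m z) = ch (-m) (cj z) := by
  unfold ch
  rw [← Complex.exp_conj]
  congr 1
  have h : (starRingEnd ℂ) (dot (ofR (lat m)) z) = dot (ofR (lat m)) (cj z) := by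
    rw [← dot_cj, cj_ofR]
  rw [map_mul, h, c5_ofR_neg, c5_neg_dot, map_mul, map_mul, Complex.conj_I, Complex.conj_ofReal,
    Complex.conj_ofNat]
  ring

lemma c5_ch_diff (m : Fin n → ℤ) : Differentiable ℂ (ch m) := by
  unfold ch
  exact ((dotL (ofR (lat m))).differentiable.const_mul _).cexp

lemma c5_cell : (cell : Set (Fin n → ℝ)) = {x : Fin n → ℝ | ∀ i, x i ∈
    Set.Ioc ((0 : Fin n → ℝ) i) ((0 : Fin n → ℝ) i + 1)} := by
  ext x
  simp [cell]

lemma c5_cell_meas : MeasurableSet (cell : Set (Fin n → ℝ)) :=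
  MeasurableSet.univ_pi fun _ => measurableSet_Ioc

lemma c5_cell_vol : (volume : Measure (Fin n → ℝ)) (cell : Set (Fin n → ℝ)) = 1 := by
  unfold cell
  rw [Real.volume_pi_Ioc]
  simp

lemma c5_cell_sub : (cell : Set (Fin n → ℝ)) ⊆ Set.Icc 0 1 := by
  intro x hx
  rw [c5_cell] at hx
  refine ⟨fun i => (hx i).1.le, fun i => ?_⟩
  have := (hx i).2
  simpa using this

/-- normalised measure on the circle -/
noncomputable local instance c5_ms : MeasureSpace UnitAddCircle := ⟨AddCircle.haarAddCircle⟩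

/-- it is a Haar measure -/
local instance c5_haar : Measure.IsAddHaarMeasure (volume : Measure UnitAddCircle) :=
  inferInstanceAs (Measure.IsAddHaarMeasure AddCircle.haarAddCircle)

/-- it is a probability measure -/
local instance c5_prob : IsProbabilityMeasure (volume : Measure UnitAddCircle) :=
  inferInstanceAs (IsProbabilityMeasure AddCircle.haarAddCircle)

/-- transfer to the torus -/
noncomputable def c5G (F : (Fin n → ℝ) → ℂ) : UnitAddTorus (Fin n) → ℂ :=
  fun y => F (fun i => (AddCircle.equivIco 1 0 (y i) : ℝ))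

lemma c5G_apply {F : (Fin n → ℝ) → ℂ}
    (hF : ∀ (t : Fin n → ℝ) (k : Fin n → ℤ), F (t + fun i => (k i : ℝ)) = F t) (t : Fin n → ℝ) :
    c5G F (fun i => ((t i : ℝ) : UnitAddCircle)) = F t := by
  have h1 : (fun i => (AddCircle.equivIco 1 0 ((t i : ℝ) : UnitAddCircle) : ℝ)) =
      fun i => Int.fract (t i) := by
    funext i
    have := AddCircle.coe_equivIco_mk_apply (p := (1 : ℝ)) (t i)
    simp only [div_one, mul_one] at this
    exact this
  unfold c5G
  rw [h1]
  have h2 : t = (fun i => Int.fract (t i)) + fun i => ((⌊t i⌋ : ℤ) : ℝ) :=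
    funext fun i => (Int.fract_add_floor (t i)).symm
  conv_rhs => rw [h2]
  exact (hF _ _).symm

lemma c5_trans {F : (Fin n → ℝ) → ℂ}
    (hF : ∀ (t : Fin n → ℝ) (k : Fin n → ℤ), F (t + fun i => (k i : ℝ)) = F t) (a : Fin n → ℝ) :
    ∫ t in (cell : Set (Fin n → ℝ)), F (t + a) = ∫ t in (cell : Set (Fin n → ℝ)), F t := by
  have e1 : ∫ t in (cell : Set (Fin n → ℝ)), F t = ∫ x : UnitAddTorus (Fin n), c5G F x := by
    rw [UnitAddTorus.integral_preimage (c5G F) 0, c5_cell]
    simp_rw [c5G_apply hF]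
  have e2 : ∫ t in (cell : Set (Fin n → ℝ)), F (t + a) =
      ∫ x : UnitAddTorus (Fin n), c5G F (x + fun i => ((a i : ℝ) : UnitAddCircle)) := by
    rw [UnitAddTorus.integral_preimage
      (fun x => c5G F (x + fun i => ((a i : ℝ) : UnitAddCircle))) 0, c5_cell]
    refine integral_congr_ae (Filter.Eventually.of_forall fun t => ?_)
    exact (c5G_apply hF (t + a)).symm
  rw [e1, e2]
  exact integral_add_right_eq_self _ _

lemma c5_mem {ρ R : ℝ} {z : CE n × CE n} (hz : z ∈ D ρ R) (x : RE n) :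
    ((ofR x, 0) : CE n × CE n) + z ∈ D ρ R := by
  have h := shift_mem_D hz x
  have e : ((ofR x, 0) : CE n × CE n) + z = (z.1 + ofR x, z.2) := by
    refine Prod.ext ?_ ?_
    · exact add_comm _ _
    · exact zero_add _
  rw [e]
  exact h

/-- the real translation, as a continuous map -/
lemma c5_cont : Continuous (fun t : Fin n → ℝ => ((ofR (WithLp.toLp 2 t), 0) : CE n × CE n)) := by
  have h : Continuous (fun t : Fin n → ℝ => (WithLp.toLp 2 t : RE n)) :=
    PiLp.continuous_toLp 2 (fun _ : Fin n => ℝ)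
  exact (continuous_ofR.comp h).prodMk continuous_const

lemma c5_diff {P : Type*} [NormedAddCommGroup P] [NormedSpace ℂ P] [ProperSpace P] {ρ R : ℝ}
    {H : CE n × CE n → ℂ} (hH : DifferentiableOn ℂ H (D ρ R)) (c : CE n × CE n)
    (L : P →L[ℂ] CE n × CE n) {U : Set P} (hU : IsOpen U) (hm : ∀ p ∈ U, c + L p ∈ D ρ R) :
    DifferentiableOn ℂ (fun p => ∫ t in (cell : Set (Fin n → ℝ)),
      H ((ofR (WithLp.toLp 2 t), 0) + (c + L p))) U := by
  intro p₀ hp₀
  obtain ⟨ε, hε, hball⟩ := Metric.nhds_basis_closedBall.mem_iff.1 (hU.mem_nhds hp₀)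
  have hDo : IsOpen (D ρ R : Set (CE n × CE n)) := isOpen_D ρ R
  have hHd : ContinuousOn (fderiv ℂ H) (D ρ R) := (hol_fderiv hDo hH).continuousOn
  have hΨ : Continuous (fun x : (Fin n → ℝ) × P =>
      ((ofR (WithLp.toLp 2 x.1), 0) : CE n × CE n) + (c + L x.2)) :=
    (c5_cont.comp continuous_fst).add (continuous_const.add (L.continuous.comp continuous_snd))
  have hK : IsCompact ((Set.Icc (0 : Fin n → ℝ) 1) ×ˢ Metric.closedBall p₀ ε) :=
    isCompact_Icc.prod (isCompact_closedBall _ _)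
  have hc1 : ContinuousOn (fun x : (Fin n → ℝ) × P => fderiv ℂ H
      (((ofR (WithLp.toLp 2 x.1), 0) : CE n × CE n) + (c + L x.2)))
      ((Set.Icc (0 : Fin n → ℝ) 1) ×ˢ Metric.closedBall p₀ ε) :=
    hHd.comp hΨ.continuousOn (fun x hx => c5_mem (hm _ (hball hx.2)) _)
  obtain ⟨B, hB⟩ := hK.exists_bound_of_continuousOn hc1
  have hcell : ∀ᵐ t ∂((volume : Measure (Fin n → ℝ)).restrict cell), t ∈ (cell : Set (Fin n → ℝ)) :=
    ae_restrict_mem c5_cell_meas
  have hct : ∀ p ∈ U, Continuous (fun t : Fin n → ℝ =>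
      H (((ofR (WithLp.toLp 2 t), 0) : CE n × CE n) + (c + L p))) := by
    intro p hp
    have h1 : ContinuousOn (fun t : Fin n → ℝ =>
        H (((ofR (WithLp.toLp 2 t), 0) : CE n × CE n) + (c + L p))) Set.univ :=
      hH.continuousOn.comp (c5_cont.add continuous_const).continuousOn
        (fun t _ => c5_mem (hm p hp) _)
    exact continuousOn_univ.1 h1
  have hct' : Continuous (fun t : Fin n → ℝ =>
      fderiv ℂ H (((ofR (WithLp.toLp 2 t), 0) : CE n × CE n) + (c + L p₀))) := by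
    have h1 : ContinuousOn (fun t : Fin n → ℝ =>
        fderiv ℂ H (((ofR (WithLp.toLp 2 t), 0) : CE n × CE n) + (c + L p₀))) Set.univ :=
      hHd.comp (c5_cont.add continuous_const).continuousOn
        (fun t _ => c5_mem (hm p₀ hp₀) _)
    exact continuousOn_univ.1 h1
  have : IsFiniteMeasure ((volume : Measure (Fin n → ℝ)).restrict cell) :=
    ⟨by rw [Measure.restrict_apply_univ, c5_cell_vol]; exact ENNReal.one_lt_top⟩
  have key := hasFDerivAt_integral_of_dominated_of_fderiv_le (𝕜 := ℂ)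
    (μ := (volume : Measure (Fin n → ℝ)).restrict cell) (x₀ := p₀)
    (s := Metric.ball p₀ ε) (bound := fun _ => B * ‖L‖)
    (F := fun p t => H (((ofR (WithLp.toLp 2 t), 0) : CE n × CE n) + (c + L p)))
    (F' := fun p t => (fderiv ℂ H (((ofR (WithLp.toLp 2 t), 0) : CE n × CE n) + (c + L p))).comp L)
    (Metric.ball_mem_nhds _ hε) ?_ ?_ ?_ ?_ ?_ ?_
  · exact key.differentiableAt.differentiableWithinAt
  · filter_upwards [hU.mem_nhds hp₀] with p hp
    exact (hct p hp).aestronglyMeasurable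
  · exact (((hct p₀ hp₀).continuousOn.integrableOn_compact (μ := volume)
      (isCompact_Icc (a := (0 : Fin n → ℝ)) (b := 1))).mono_set c5_cell_sub)
  · exact (hct'.clm_comp continuous_const).aestronglyMeasurable
  · filter_upwards [hcell] with t ht p hp
    refine (ContinuousLinearMap.opNorm_comp_le _ _).trans ?_
    exact mul_le_mul_of_nonneg_right
      (hB (t, p) ⟨c5_cell_sub ht, Metric.ball_subset_closedBall hp⟩) (norm_nonneg _)
  · exact integrable_const _
  · refine Filter.Eventually.of_forall fun t p hp => ?_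
    have hmem : ((ofR (WithLp.toLp 2 t), 0) : CE n × CE n) + (c + L p) ∈ D ρ R :=
      c5_mem (hm p (hball (Metric.ball_subset_closedBall hp))) _
    have h1 : HasFDerivAt H (fderiv ℂ H (((ofR (WithLp.toLp 2 t), 0) : CE n × CE n) + (c + L p)))
        (((ofR (WithLp.toLp 2 t), 0) : CE n × CE n) + (c + L p)) :=
      (hH.differentiableAt (hDo.mem_nhds hmem)).hasFDerivAt
    have h2 : HasFDerivAt (fun p : P => ((ofR (WithLp.toLp 2 t), 0) : CE n × CE n) + (c + L p)) L p :=
      (L.hasFDerivAt.const_add c).const_add _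
    exact h1.comp p h2

lemma c5_H_diff {ρ R : ℝ} {G : CE n × CE n → ℂ}
    (hG : DifferentiableOn ℂ G (D ρ R)) (m : Fin n → ℤ) :
    DifferentiableOn ℂ (fun z : CE n × CE n => G z * ch (-m) z.1) (D ρ R) := by
  refine hG.mul ?_
  exact ((c5_ch_diff (-m)).comp differentiable_fst).differentiableOn

theorem coef_hol {ρ R : ℝ} (hρ : 0 < ρ) {G : CE n × CE n → ℂ}
    (hG : DifferentiableOn ℂ G (D ρ R)) (m : Fin n → ℤ) :
    DifferentiableOn ℂ (coef G m) (Dw ρ R) := by
  have h := c5_diff (P := CE n) (c5_H_diff hG m) (0 : CE n × CE n)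
    (ContinuousLinearMap.inr ℂ (CE n) (CE n)) (isOpen_Dw ρ R) (fun p hp => by
      rw [zero_add]
      exact ⟨by
      have : im (0 : CE n) = 0 := by
        ext i
        simp
      simpa [this] using hρ, hp.1, hp.2⟩)
  refine h.congr fun w _ => ?_
  unfold coef
  refine integral_congr_ae (Filter.Eventually.of_forall fun t => ?_)
  simp

theorem coef_shift {ρ R : ℝ} (hρ : 0 < ρ) {G : CE n × CE n → ℂ}
    (hG : DifferentiableOn ℂ G (D ρ R)) (hp : PerX ρ R G) (m : Fin n → ℤ) {w : CE n}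
    (hw : w ∈ Dw ρ R) {y : RE n} (hy : ‖y‖ < ρ) :
    coef G m w = ∫ t in (cell : Set (Fin n → ℝ)),
      G (ofR (WithLp.toLp 2 t) + Complex.I • ofR y, w) *
        ch (-m) (ofR (WithLp.toLp 2 t) + Complex.I • ofR y) := by
  set H : CE n × CE n → ℂ := fun z => G z * ch (-m) z.1 with hH
  have hHd : DifferentiableOn ℂ H (D ρ R) := c5_H_diff hG m
  set U : Set ℂ := {ζ : ℂ | |ζ.im| * ‖y‖ < ρ} with hUdef
  have hU : IsOpen U := isOpen_lt (Complex.continuous_im.abs.mul continuous_const) continuous_const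
  have hy0 : 0 ≤ ‖y‖ := norm_nonneg y
  have hUc : Convex ℝ U := by
    intro a ha b hb s t hs ht hst
    have ha' : |a.im| * ‖y‖ < ρ := ha
    have hb' : |b.im| * ‖y‖ < ρ := hb
    show |(s • a + t • b).im| * ‖y‖ < ρ
    have e : (s • a + t • b).im = s * a.im + t * b.im := by simp
    rw [e]
    have h1 : |s * a.im + t * b.im| ≤ s * |a.im| + t * |b.im| := by
      refine (abs_add_le _ _).trans ?_
      rw [abs_mul, abs_mul, abs_of_nonneg hs, abs_of_nonneg ht]
    have h2 : |s * a.im + t * b.im| * ‖y‖ ≤ s * (|a.im| * ‖y‖) + t * (|b.im| * ‖y‖) := by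
      refine (mul_le_mul_of_nonneg_right h1 hy0).trans (le_of_eq ?_)
      ring
    refine lt_of_le_of_lt h2 ?_
    rcases eq_or_lt_of_le hs with h0 | h0
    · have ht1 : t = 1 := by linarith
      rw [← h0, ht1]
      linarith
    · have h3 : s * (|a.im| * ‖y‖) < s * ρ := mul_lt_mul_of_pos_left ha' h0
      have h4 : t * (|b.im| * ‖y‖) ≤ t * ρ := mul_le_mul_of_nonneg_left hb'.le ht
      have h5 : s * ρ + t * ρ = ρ := by rw [← add_mul, hst, one_mul]
      linarith
  set L : ℂ →L[ℂ] CE n × CE n :=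
    (ContinuousLinearMap.inl ℂ (CE n) (CE n)).comp
      ((ContinuousLinearMap.id ℂ ℂ).smulRight (ofR y)) with hL
  have hLa : ∀ ζ : ℂ, ((0 : CE n), w) + L ζ = (ζ • ofR y, w) := by
    intro ζ
    simp [hL]
  have hmem : ∀ ζ ∈ U, ((0 : CE n), w) + L ζ ∈ D ρ R := by
    intro ζ hζ
    rw [hLa]
    refine ⟨?_, hw.1, hw.2⟩
    have e : im (ζ • ofR y) = ζ.im • y := by
      ext i
      simp
    show ‖im (ζ • ofR y)‖ < ρ
    rw [e, norm_smul, Real.norm_eq_abs]
    exact hζ
  set Φ : ℂ → ℂ := fun ζ => ∫ t in (cell : Set (Fin n → ℝ)),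
    H ((ofR (WithLp.toLp 2 t), 0) + (((0 : CE n), w) + L ζ)) with hΦ
  have hΦd : DifferentiableOn ℂ Φ U := c5_diff hHd ((0 : CE n), w) L hU hmem
  have hΦe : ∀ ζ : ℂ, Φ ζ = ∫ t in (cell : Set (Fin n → ℝ)),
      H (ofR (WithLp.toLp 2 t) + ζ • ofR y, w) := by
    intro ζ
    simp only [hΦ]
    refine integral_congr_ae (Filter.Eventually.of_forall fun t => ?_)
    simp only [hLa]
    simp
  have hFp : ∀ (t : Fin n → ℝ) (k : Fin n → ℤ),
      H (ofR (WithLp.toLp 2 (t + fun i => (k i : ℝ))), w) = H (ofR (WithLp.toLp 2 t), w) := by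
    intro t k
    have e : ofR (WithLp.toLp 2 (t + fun i => (k i : ℝ)) : RE n) =
        ofR (WithLp.toLp 2 t) + ofR (lat k) := by
      ext i
      simp
    have hz : ((ofR (WithLp.toLp 2 t), w) : CE n × CE n) ∈ D ρ R := ⟨by simpa using hρ, hw.1, hw.2⟩
    have h1 := hp _ hz k
    simp only at h1
    simp only [hH]
    rw [e, h1, c5_ch_add, c5_ch_lat, mul_one]
  have hreal : ∀ r : ℝ, Φ (r : ℂ) = Φ 0 := by
    intro r
    rw [hΦe, hΦe]
    have h1 := c5_trans (F := fun t : Fin n → ℝ => H (ofR (WithLp.toLp 2 t), w)) hFp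
      (fun i => r * y i)
    have e1 : ∀ t : Fin n → ℝ, H (ofR (WithLp.toLp 2 t) + ((r : ℝ) : ℂ) • ofR y, w) =
        H (ofR (WithLp.toLp 2 (t + fun i => r * y i)), w) := by
      intro t
      congr 2
      ext i
      simp
    have e2 : ∀ t : Fin n → ℝ, H (ofR (WithLp.toLp 2 t) + (0 : ℂ) • ofR y, w) =
        H (ofR (WithLp.toLp 2 t), w) := by
      intro t
      rw [zero_smul, add_zero]
    simp_rw [e1, e2]
    exact h1
  have h0U : (0 : ℂ) ∈ U := by
    show |(0 : ℂ).im| * ‖y‖ < ρ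
    simpa using hρ
  have hIU : Complex.I ∈ U := by
    show |Complex.I.im| * ‖y‖ < ρ
    simpa using hy
  have hfr : ∃ᶠ z in 𝓝[≠] (0 : ℂ), Φ z = (fun _ => Φ 0) z := by
    have ht : Filter.Tendsto (fun k : ℕ => (((1 / ((k : ℝ) + 1) : ℝ)) : ℂ)) Filter.atTop
        (𝓝[≠] (0 : ℂ)) := by
      refine tendsto_nhdsWithin_iff.2 ⟨?_, Filter.Eventually.of_forall fun k => ?_⟩
      · have h1 := tendsto_one_div_add_atTop_nhds_zero_nat (𝕜 := ℝ)
        have h2 := (Complex.continuous_ofReal.tendsto 0).comp h1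
        rw [Complex.ofReal_zero] at h2
        exact h2
      · have h3 : (1 / ((k : ℝ) + 1) : ℝ) ≠ 0 := by positivity
        exact Complex.ofReal_ne_zero.2 h3
    exact ht.frequently (Filter.Frequently.of_forall fun k => hreal _)
  have hid := (hΦd.analyticOnNhd hU).eqOn_of_preconnected_of_frequently_eq
    (analyticOnNhd_const (v := Φ 0)) hUc.isPreconnected h0U hfr
  have h1 : Φ Complex.I = Φ 0 := hid hIU
  have h2 : coef G m w = Φ 0 := by
    rw [hΦe]
    unfold coef
    refine integral_congr_ae (Filter.Eventually.of_forall fun t => ?_)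
    simp [hH]
  rw [h2, ← h1, hΦe]

theorem coef_bound {ρ R B : ℝ} (hρ : 0 < ρ) {G : CE n × CE n → ℂ}
    (hG : DifferentiableOn ℂ G (D ρ R)) (hp : PerX ρ R G) (hB : ∀ z ∈ D ρ R, ‖G z‖ ≤ B)
    (m : Fin n → ℤ) {w : CE n} (hw : w ∈ Dw ρ R) :
    ‖coef G m w‖ ≤ B * Real.exp (-(2 * Real.pi * ρ * ‖lat m‖)) := by
  have hB0 : 0 ≤ B := (norm_nonneg _).trans (hB ((0 : CE n), w) ⟨by
    have : im (0 : CE n) = 0 := by
      ext i
      simp
    simpa [this] using hρ, hw.1, hw.2⟩)
  have hint : ∀ y : RE n, ‖y‖ < ρ → ∀ c : ℝ, Real.exp (2 * Real.pi * inner ℝ (lat m) y) ≤ c →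
      ‖coef G m w‖ ≤ B * c := by
    intro y hy c hc
    rw [coef_shift hρ hG hp m hw hy]
    have h1 : ∀ t ∈ (cell : Set (Fin n → ℝ)),
        ‖G (ofR (WithLp.toLp 2 t) + Complex.I • ofR y, w) *
          ch (-m) (ofR (WithLp.toLp 2 t) + Complex.I • ofR y)‖ ≤ B * c := by
      intro t _
      have e : im (ofR (WithLp.toLp 2 t) + Complex.I • ofR y) = y := by
        ext i
        simp
      have e2 : lat (-m) = -lat m := by
        ext i
        simp
      rw [norm_mul, c5_ch_norm, e, e2, inner_neg_left]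
      have h2 : Real.exp (-(2 * Real.pi * -inner ℝ (lat m) y)) =
          Real.exp (2 * Real.pi * inner ℝ (lat m) y) := by
        congr 1
        ring
      rw [h2]
      refine mul_le_mul (hB _ ⟨?_, hw.1, hw.2⟩) hc (Real.exp_pos _).le hB0
      show ‖im (ofR (WithLp.toLp 2 t) + Complex.I • ofR y)‖ < ρ
      rw [e]
      exact hy
    have h3 := norm_setIntegral_le_of_norm_le_const (μ := (volume : Measure (Fin n → ℝ)))
      (s := cell) (by rw [c5_cell_vol]; exact ENNReal.one_lt_top) h1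
    have h4 : (volume : Measure (Fin n → ℝ)).real cell = 1 := by
      rw [Measure.real, c5_cell_vol]
      simp
    rw [h4, mul_one] at h3
    exact h3
  rcases eq_or_ne (lat m) 0 with h0 | h0
  · have h1 := hint 0 (by simpa using hρ) 1 (by simp)
    rw [h0]
    simpa using h1
  · have hpos : 0 < ‖lat m‖ := norm_pos_iff.2 h0
    have hr : ∀ r : ℝ, 0 < r → r < ρ →
        ‖coef G m w‖ ≤ B * Real.exp (-(2 * Real.pi * r * ‖lat m‖)) := by
      intro r hr0 hrρ
      refine hint (-((r / ‖lat m‖) • lat m)) ?_ _ ?_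
      · rw [norm_neg, norm_smul, Real.norm_eq_abs, abs_of_nonneg (by positivity),
          div_mul_cancel₀ _ hpos.ne']
        exact hrρ
      · refine le_of_eq ?_
        congr 1
        rw [inner_neg_right, inner_smul_right, real_inner_self_eq_norm_sq]
        field_simp
    have ht : Filter.Tendsto (fun r : ℝ => B * Real.exp (-(2 * Real.pi * r * ‖lat m‖)))
        (𝓝[<] ρ) (𝓝 (B * Real.exp (-(2 * Real.pi * ρ * ‖lat m‖)))) := by
      refine Filter.Tendsto.mono_left ?_ nhdsWithin_le_nhds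
      have hc : Continuous (fun r : ℝ => B * Real.exp (-(2 * Real.pi * r * ‖lat m‖))) := by
        fun_prop
      exact hc.tendsto ρ
    refine ge_of_tendsto ht ?_
    have h1 : Set.Ioo 0 ρ ∈ 𝓝[<] ρ := Ioo_mem_nhdsLT hρ
    filter_upwards [h1] with r hr'
    exact hr r hr'.1 hr'.2

theorem coef_real {ρ R : ℝ} (hρ : 0 < ρ) {G : CE n × CE n → ℂ} (hr : RealX ρ R G)
    (m : Fin n → ℤ) {w : CE n} (hw : w ∈ Dw ρ R) :
    coef G (-m) (cj w) = (starRingEnd ℂ) (coef G m w) := by
  unfold coef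
  rw [← integral_conj]
  refine integral_congr_ae (Filter.Eventually.of_forall fun t => ?_)
  have hz : ((ofR (WithLp.toLp 2 t), w) : CE n × CE n) ∈ D ρ R := ⟨by simpa using hρ, hw.1, hw.2⟩
  have h1 := hr _ hz
  have e1 : cjp ((ofR (WithLp.toLp 2 t), w) : CE n × CE n) = (ofR (WithLp.toLp 2 t), cj w) := by
    simp [cjp]
  rw [e1] at h1
  simp only [map_mul]
  rw [h1, c5_ch_conj, cj_ofR]

end Pool.Agent.LRT
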