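import Pool.Agent.LRT.C5

/-!
C5b (difficulty 3).  Fourier inversion on the half strip, with a tail bound.

PROOF.  Fix `w ∈ Dw ρ R` and `y : RE n` with `‖y‖ ≤ ρ/2`.  `F t = G (ofR t + I • ofR y, w)` is a
continuous `ℤⁿ`-periodic function of `t ∈ ℝⁿ`; its Fourier coefficients are
`∫_cell F t exp(-2πi m·t) = coef G m w * exp (-2π ⟨lat m, y⟩)`: by the shift formula (`coef_shift` in the
header of C5: prove it again or move it; statement there) because
`ch (-m) (ofR t + I • ofR y) = exp(-2πi m·t) exp (2π ⟨lat m, y⟩)`.  Their norm is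
`≤ B exp (-2πρ‖lat m‖ + 2π ‖lat m‖ ρ/2) = B exp (-πρ‖lat m‖)`: summable (`lat_summable`).  Mathlib:
`UnitAddTorus.hasSum_mFourier_series_apply_of_summable` (transfer `F` to a continuous function on
`UnitAddTorus (Fin n)`: see `trig_approx` in Pool/Agent/H45/MatherFour.lean for the transfer;
`UnitAddTorus.mFourierCoeff_eq_integral` with `a = 0` gives the integral over the cell).  Hence
`G (ofR t + I • ofR y, w) = ∑' m, coef G m w * ch m (ofR t + I • ofR y)` and the difference with the sum over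
`bx n K` is bounded by the tail `B ∑_{m ∉ bx n K} exp (-πρ‖lat m‖)`, `lat_tail` with `ρ` in place of
`πρ` (`exp (-πρ‖lat m‖) ≤ exp (-ρ‖lat m‖)`), constant independent of `ρ, R, K, G`.
-/

set_option autoImplicit false

open Set MeasureTheory Topology

namespace Pool.Agent.LRT

/-- normalised measure on the circle -/
noncomputable local instance c5b_ms : MeasureSpace UnitAddCircle := ⟨AddCircle.haarAddCircle⟩

/-- it is a Haar measure -/
local instance c5b_haar : Measure.IsAddHaarMeasure (volume : Measure UnitAddCircle) :=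
  inferInstanceAs (Measure.IsAddHaarMeasure AddCircle.haarAddCircle)

/-- it is a probability measure -/
local instance c5b_prob : IsProbabilityMeasure (volume : Measure UnitAddCircle) :=
  inferInstanceAs (IsProbabilityMeasure AddCircle.haarAddCircle)

lemma c5b_cont {n : ℕ} {F : (Fin n → ℝ) → ℂ}
    (hF : ∀ (t : Fin n → ℝ) (k : Fin n → ℤ), F (t + fun i => (k i : ℝ)) = F t)
    (hc : Continuous F) : Continuous (c5G F) := by
  have hq : IsOpenQuotientMap
      (Pi.map (fun (_ : Fin n) => (QuotientAddGroup.mk : ℝ → UnitAddCircle))) :=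
    IsOpenQuotientMap.piMap fun _ => QuotientAddGroup.isOpenQuotientMap_mk
  rw [hq.isQuotientMap.continuous_iff]
  have h : c5G F ∘ (Pi.map (fun (_ : Fin n) => (QuotientAddGroup.mk : ℝ → UnitAddCircle))) = F :=
    funext fun t => c5G_apply hF t
  rw [h]
  exact hc

lemma c5b_char {n : ℕ} (m : Fin n → ℤ) (t : Fin n → ℝ) :
    UnitAddTorus.mFourier m (fun i => ((t i : ℝ) : UnitAddCircle)) =
      ch m (ofR (WithLp.toLp 2 t)) := by
  have h : UnitAddTorus.mFourier m (fun i => ((t i : ℝ) : UnitAddCircle)) =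
      ∏ i, fourier (m i) ((t i : ℝ) : UnitAddCircle) := rfl
  rw [h]
  simp_rw [fourier_coe_apply]
  rw [← Complex.exp_sum]
  unfold ch
  congr 1
  unfold dot
  rw [Finset.mul_sum]
  refine Finset.sum_congr rfl fun i _ => ?_
  simp only [ofR_apply, lat_apply]
  push_cast
  ring

lemma c5b_ch_bound {n : ℕ} (m : Fin n → ℤ) {z : CE n} {r : ℝ} (hz : ‖im z‖ ≤ r) :
    ‖ch m z‖ ≤ Real.exp (2 * Real.pi * r * ‖lat m‖) := by
  rw [c5_ch_norm]
  refine Real.exp_le_exp.2 ?_
  have h1 : |inner ℝ (lat m) (im z)| ≤ ‖lat m‖ * ‖im z‖ := abs_real_inner_le_norm _ _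
  have h2 : -inner ℝ (lat m) (im z) ≤ r * ‖lat m‖ := by
    refine (neg_le_abs _).trans (h1.trans ?_)
    rw [mul_comm]
    exact mul_le_mul_of_nonneg_right hz (norm_nonneg _)
  have h3 := mul_le_mul_of_nonneg_left h2 (show (0 : ℝ) ≤ 2 * Real.pi by positivity)
  linarith

lemma c5b_coef_bound {n : ℕ} {ρ R B : ℝ} (hρ : 0 < ρ) {G : CE n × CE n → ℂ}
    (hG : DifferentiableOn ℂ G (D ρ R)) (hp : PerX ρ R G) (hB : ∀ z ∈ D ρ R, ‖G z‖ ≤ B)
    (m : Fin n → ℤ) {z : CE n × CE n} (hz : z ∈ D (ρ / 2) R) :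
    ‖coef G m z.2 * ch m z.1‖ ≤ B * Real.exp (-(ρ * ‖lat m‖)) := by
  have hw : z.2 ∈ Dw ρ R := ⟨hz.2.1.trans (by linarith), hz.2.2⟩
  have h1 := coef_bound hρ hG hp hB m hw
  have h2 := c5b_ch_bound m (z := z.1) (r := ρ / 2) hz.1.le
  have hB0 : 0 ≤ B := (norm_nonneg _).trans (hB z ⟨hz.1.trans (by linarith), hw.1, hw.2⟩)
  rw [norm_mul]
  refine (mul_le_mul h1 h2 (norm_nonneg _) (by positivity)).trans ?_
  rw [mul_assoc, ← Real.exp_add]
  refine mul_le_mul_of_nonneg_left (Real.exp_le_exp.2 ?_) hB0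
  have hl : 0 ≤ ρ * ‖lat m‖ := by positivity
  have h3 : (1 : ℝ) ≤ Real.pi := by
    have := Real.pi_gt_three
    linarith
  have h4 : ρ * ‖lat m‖ ≤ Real.pi * (ρ * ‖lat m‖) := le_mul_of_one_le_left hl h3
  linarith

lemma c5b_hasSum {n : ℕ} {ρ R B : ℝ} (hρ : 0 < ρ) {G : CE n × CE n → ℂ}
    (hG : DifferentiableOn ℂ G (D ρ R)) (hp : PerX ρ R G) (hB : ∀ z ∈ D ρ R, ‖G z‖ ≤ B)
    {z : CE n × CE n} (hz : z ∈ D (ρ / 2) R) :
    HasSum (fun m : Fin n → ℤ => coef G m z.2 * ch m z.1) (G z) := by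
  have hw : z.2 ∈ Dw ρ R := ⟨hz.2.1.trans (by linarith), hz.2.2⟩
  set y : RE n := im z.1 with hy
  have hyρ : ‖y‖ < ρ := hz.1.trans (by linarith)
  have him : ∀ t : Fin n → ℝ, im (ofR (WithLp.toLp 2 t) + Complex.I • ofR y) = y := by
    intro t
    ext i
    simp
  have hmem : ∀ t : Fin n → ℝ,
      ((ofR (WithLp.toLp 2 t) + Complex.I • ofR y, z.2) : CE n × CE n) ∈ D ρ R := by
    intro t
    refine ⟨?_, hw.1, hw.2⟩
    show ‖im (ofR (WithLp.toLp 2 t) + Complex.I • ofR y)‖ < ρ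
    rw [him]
    exact hyρ
  set F : (Fin n → ℝ) → ℂ := fun t => G (ofR (WithLp.toLp 2 t) + Complex.I • ofR y, z.2) with hF
  have hFp : ∀ (t : Fin n → ℝ) (k : Fin n → ℤ), F (t + fun i => (k i : ℝ)) = F t := by
    intro t k
    have e : ofR (WithLp.toLp 2 (t + fun i => (k i : ℝ)) : RE n) + Complex.I • ofR y =
        (ofR (WithLp.toLp 2 t) + Complex.I • ofR y) + ofR (lat k) := by
      ext i
      simp
      ring
    have h1 := hp _ (hmem t) k
    simp only at h1
    simp only [hF]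
    rw [e, h1]
  have hFc : Continuous F := by
    have h1 : Continuous (fun t : Fin n → ℝ =>
        ((ofR (WithLp.toLp 2 t) + Complex.I • ofR y, z.2) : CE n × CE n)) := by
      have h2 : Continuous (fun t : Fin n → ℝ => (WithLp.toLp 2 t : RE n)) :=
        PiLp.continuous_toLp 2 (fun _ : Fin n => ℝ)
      exact ((continuous_ofR.comp h2).add continuous_const).prodMk continuous_const
    have h3 : ContinuousOn F Set.univ :=
      hG.continuousOn.comp h1.continuousOn (fun t _ => hmem t)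
    exact continuousOn_univ.1 h3
  let f : C(UnitAddTorus (Fin n), ℂ) := ⟨c5G F, c5b_cont hFp hFc⟩
  have hf : ∀ t : Fin n → ℝ, f (fun i => ((t i : ℝ) : UnitAddCircle)) = F t := c5G_apply hFp
  have hcoef : ∀ m : Fin n → ℤ, UnitAddTorus.mFourierCoeff f m =
      coef G m z.2 * ch m (Complex.I • ofR y) := by
    intro m
    have h1 := UnitAddTorus.mFourierCoeff_eq_integral (f : UnitAddTorus (Fin n) → ℂ) m
      (0 : Fin n → ℝ)
    rw [← c5_cell] at h1
    rw [h1, coef_shift hρ hG hp m hw hyρ, ← integral_mul_const]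
    refine integral_congr_ae (Filter.Eventually.of_forall fun t => ?_)
    have h2 := c5b_char (-m) t
    have h3 := hf t
    simp only [smul_eq_mul]
    rw [h2, h3, c5_ch_add]
    have h4 := c5_ch_neg m (Complex.I • ofR y)
    simp only [hF]
    calc ch (-m) (ofR (WithLp.toLp 2 t)) * G (ofR (WithLp.toLp 2 t) + Complex.I • ofR y, z.2)
        = G (ofR (WithLp.toLp 2 t) + Complex.I • ofR y, z.2) * ch (-m) (ofR (WithLp.toLp 2 t)) *
          (ch m (Complex.I • ofR y) * ch (-m) (Complex.I • ofR y)) := by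
          rw [h4]
          ring
      _ = _ := by ring
  have hsum : Summable (UnitAddTorus.mFourierCoeff f) := by
    refine Summable.of_norm_bounded (g := fun m => B * Real.exp (-(ρ * ‖lat m‖)))
      ((lat_summable n hρ).mul_left B) fun m => ?_
    rw [hcoef]
    have hz' : ((Complex.I • ofR y, z.2) : CE n × CE n) ∈ D (ρ / 2) R := by
      refine ⟨?_, hz.2.1, hz.2.2⟩
      show ‖im (Complex.I • ofR y)‖ < ρ / 2
      have e : im (Complex.I • ofR y) = y := by
        ext i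
        simp
      rw [e]
      exact hz.1
    exact c5b_coef_bound hρ hG hp hB m hz'
  have h := UnitAddTorus.hasSum_mFourier_series_apply_of_summable hsum
    (fun i => (((re z.1) i : ℝ) : UnitAddCircle))
  have e1 : ofR (WithLp.toLp 2 (fun i => (re z.1) i)) + Complex.I • ofR y = z.1 := by
    have e0 : ofR (WithLp.toLp 2 (fun i => (re z.1) i)) = ofR (re z.1) := rfl
    rw [e0]
    exact (eq_re_im z.1).symm
  have e2 : f (fun i => (((re z.1) i : ℝ) : UnitAddCircle)) = G z := by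
    rw [hf]
    simp only [hF]
    rw [e1]
  rw [e2] at h
  refine h.congr_fun ?_
  intro m
  rw [hcoef, smul_eq_mul, c5b_char, mul_assoc, ← c5_ch_add, add_comm, e1]

theorem fourier_tail (n N : ℕ) : ∃ C : ℝ, 0 < C ∧ ∀ (ρ R B : ℝ), 0 < ρ → ρ ≤ 1 →
    ∀ G : CE n × CE n → ℂ, DifferentiableOn ℂ G (D ρ R) → PerX ρ R G → (∀ z ∈ D ρ R, ‖G z‖ ≤ B) →
    ∀ K : ℕ, 1 ≤ K → ∀ z ∈ (D (ρ / 2) R : Set (CE n × CE n)),
    ‖G z - ∑ m ∈ bx n K, coef G m z.2 * ch m z.1‖ ≤ B * C / (ρ ^ (n + N) * (K : ℝ) ^ N) := by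
  obtain ⟨C, hC, hs⟩ := lat_tail n N
  refine ⟨C, hC, fun ρ R B hρ hρ1 G hG hp hB K hK z hz => ?_⟩
  have hw : z.2 ∈ Dw ρ R := ⟨hz.2.1.trans (by linarith), hz.2.2⟩
  have hB0 : 0 ≤ B := (norm_nonneg _).trans (hB z ⟨hz.1.trans (by linarith), hw.1, hw.2⟩)
  have h := c5b_hasSum hρ hG hp hB hz
  have ht : Filter.Tendsto (fun s : Finset (Fin n → ℤ) =>
      ‖(∑ m ∈ s, coef G m z.2 * ch m z.1) - ∑ m ∈ bx n K, coef G m z.2 * ch m z.1‖) Filter.atTop
      (𝓝 ‖G z - ∑ m ∈ bx n K, coef G m z.2 * ch m z.1‖) :=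
    (Filter.Tendsto.sub_const h _).norm
  refine le_of_tendsto ht ?_
  filter_upwards [Filter.eventually_ge_atTop (bx n K)] with s hsK
  classical
  have e : (∑ m ∈ s, coef G m z.2 * ch m z.1) - ∑ m ∈ bx n K, coef G m z.2 * ch m z.1 =
      ∑ m ∈ s \ bx n K, coef G m z.2 * ch m z.1 := by
    rw [← Finset.sum_sdiff hsK]
    ring
  rw [e]
  calc ‖∑ m ∈ s \ bx n K, coef G m z.2 * ch m z.1‖
      ≤ ∑ m ∈ s \ bx n K, B * Real.exp (-(ρ * ‖lat m‖)) :=
        norm_sum_le_of_le _ fun m _ => c5b_coef_bound hρ hG hp hB m hz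
    _ = B * ∑ m ∈ s \ bx n K, Real.exp (-(ρ * ‖lat m‖)) := by rw [Finset.mul_sum]
    _ ≤ B * (C / (ρ ^ (n + N) * (K : ℝ) ^ N)) :=
        mul_le_mul_of_nonneg_left (hs ρ hρ hρ1 K hK _ fun m hm => (Finset.mem_sdiff.1 hm).2) hB0
    _ = B * C / (ρ ^ (n + N) * (K : ℝ) ^ N) := by rw [mul_div_assoc]

end Pool.Agent.LRT
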