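import Pool.Agent.LRT.C2

/-!
C7 (difficulty 3).  Inverse of `x ↦ x + g (x, w)` on complex strips.

PROOF.  Fix `z = (θ, w) ∈ D (ρ/2) R`.  `T = {x | ‖im x‖ ≤ 3ρ/4}` is closed (complete), and for `x ∈ T`,
`(x, w) ∈ D ρ R`.  `φ x = θ - g (x, w)` maps `T` to `T`: `lip_im` with `κ = 1/8`, `s = 3ρ/4` gives
`‖im (g (x,w))‖ ≤ 3ρ/32`, so `‖im (φ x)‖ < ρ/2 + 3ρ/32 < 3ρ/4`; it is a contraction with factor `1/8`
(mean value inequality on the convex set `T`, `Convex.norm_image_sub_le_of_norm_fderiv_le` or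
`lipschitz` for `x ↦ g (x, w)`, derivative = `(fderiv ℂ g (x,w)).comp inl`).  Banach fixed point theorem
(`ContractingWith.exists_fixedPoint'` for `IsComplete T`, `MapsTo`).  `X z` := the fixed point (choice),
`0` outside.  Uniqueness among all `x` with `‖im x‖ < ρ`: two solutions satisfy
`‖x - x'‖ = ‖g (x,w) - g (x',w)‖ ≤ ‖x - x'‖/8`.  Hence `X (x + g (x,w), w) = x`, and the conjugation and
translation rules (`cj x` solves the conjugate equation; `x + ofR (lat k)` solves the translated one).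
Note: `‖im (X z)‖ < 3ρ/4` strictly since `‖im (φ x)‖ < 3ρ/4`.
Lipschitz: for `z, z' ∈ D (ρ/2) R` (same component ball): `X z - X z' = (z.1 - z'.1) - (g (X z, w) - g (X z', w'))`,
so `‖X z - X z'‖ ≤ (8/7)(‖z.1 - z'.1‖ + ‖z - z'‖/8) ≤ 2 ‖z - z'‖`: continuous.
Differentiability at `z`: the map `Ψ (x, w) = (x + g (x,w), w)` is differentiable at `(X z, w)` with
invertible derivative (`id + small` in the first variable: `(h, k) ↦ (h + g'(h,k), k)`, inverse by
`ContinuousLinearEquiv`: a linear map `1 + T` with `‖T‖ ≤ 1/8` (for the sup norm on the product, T(h,k) =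
(g'(h,k),0)) is a unit, `Units.oneSub`), and `z ↦ (X z, z.2)` is a continuous local right/left inverse:
`HasFDerivAt.of_local_left_inverse` (with `f = Ψ`, `g = fun z => (X z, z.2)`; `Ψ (g z) = z` near `z`).
Bound of the derivative: a function with local Lipschitz constant 2 has `‖fderiv‖ ≤ 2`
(`norm_fderiv_le_of_lip'` / `HasFDerivAt.le_of_lip'`).
-/

set_option autoImplicit false

open Set MeasureTheory Topology

namespace Pool.Agent.LRT

variable {n : ℕ}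

theorem c7_lip {ρ R : ℝ} {g : CE n × CE n → CE n} (hg : DifferentiableOn ℂ g (D ρ R))
    (hg1 : ∀ z ∈ D ρ R, ‖fderiv ℂ g z‖ ≤ 1 / 8) {z z' : CE n × CE n}
    (hz : z ∈ (D ρ R : Set (CE n × CE n))) (hz' : z' ∈ (D ρ R : Set (CE n × CE n))) :
    ‖g z - g z'‖ ≤ 1 / 8 * ‖z - z'‖ :=
  (convex_D ρ R).norm_image_sub_le_of_norm_fderiv_le (𝕜 := ℂ)
    (fun y hy => (hg y hy).differentiableAt ((isOpen_D ρ R).mem_nhds hy)) hg1 hz' hz

theorem c7_uniq {ρ R : ℝ} {g : CE n × CE n → CE n} (hg : DifferentiableOn ℂ g (D ρ R))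
    (hg1 : ∀ z ∈ D ρ R, ‖fderiv ℂ g z‖ ≤ 1 / 8) {z z' : CE n × CE n}
    (hz : z ∈ (D ρ R : Set (CE n × CE n))) (hz' : z' ∈ (D ρ R : Set (CE n × CE n))) (h2 : z.2 = z'.2)
    (h : z.1 + g z = z'.1 + g z') : z = z' := by
  have h3 := c7_lip hg hg1 hz' hz
  have h4 : z.1 - z'.1 = g z' - g z := by
    have : z.1 + g z - (z'.1 + g z) = z'.1 + g z' - (z'.1 + g z) := by rw [h]
    rw [add_sub_add_right_eq_sub, add_sub_add_left_eq_sub] at this
    exact this
  have h5 : ‖z' - z‖ = ‖z.1 - z'.1‖ := by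
    rw [Prod.norm_def, Prod.fst_sub, Prod.snd_sub, h2, sub_self, norm_zero, norm_sub_rev]
    exact max_eq_left (norm_nonneg _)
  rw [← h4, h5] at h3
  have h6 : ‖z.1 - z'.1‖ = 0 := by
    have := norm_nonneg (z.1 - z'.1)
    linarith
  exact Prod.ext (sub_eq_zero.1 (norm_eq_zero.1 h6)) h2

theorem c7_fix {ρ R : ℝ} (hρ : 0 < ρ) {g : CE n × CE n → CE n}
    (hg : DifferentiableOn ℂ g (D ρ R)) (hg1 : ∀ z ∈ D ρ R, ‖fderiv ℂ g z‖ ≤ 1 / 8)
    (hreal : ∀ z ∈ (D ρ R : Set (CE n × CE n)), g (cjp z) = cj (g z)) {z : CE n × CE n}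
    (hz : z ∈ (D (ρ / 2) R : Set (CE n × CE n))) :
    ∃ x : CE n, (x, z.2) ∈ (D (3 / 4 * ρ) R : Set (CE n × CE n)) ∧ x + g (x, z.2) = z.1 := by
  obtain ⟨θ, w⟩ := z
  obtain ⟨z1, z2, z3⟩ := hz
  change ‖im θ‖ < ρ / 2 at z1
  change ‖im w‖ < ρ / 2 at z2
  change ‖re w‖ < R at z3
  set T : Set (CE n) := {x | ‖im x‖ ≤ 3 / 4 * ρ} with hT
  have hTc : IsClosed T := isClosed_le continuous_im.norm continuous_const
  have hD : ∀ x ∈ T, (x, w) ∈ (D ρ R : Set (CE n × CE n)) := by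
    intro x hx
    have hx' : ‖im x‖ ≤ 3 / 4 * ρ := hx
    refine ⟨?_, ?_, z3⟩
    · change ‖im x‖ < ρ
      linarith
    · change ‖im w‖ < ρ
      linarith
  set φ : CE n → CE n := fun x => θ - g (x, w) with hφ
  have him : ∀ x ∈ T, ‖im (φ x)‖ < 3 / 4 * ρ := by
    intro x hx
    have h1 := lip_im (s := 3 / 4 * ρ) hg hg1 hreal (hD x hx) hx (by
      change ‖im w‖ ≤ 3 / 4 * ρ
      linarith)
    have h2 : im (φ x) = im θ - im (g (x, w)) := im_sub _ _
    rw [h2]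
    have h3 := norm_sub_le (im θ) (im (g (x, w)))
    linarith
  have hmaps : MapsTo φ T T := fun x hx => (him x hx).le
  have hK : ContractingWith (1 / 8) (hmaps.restrict φ T T) := by
    refine ⟨?_, ?_⟩
    · rw [← NNReal.coe_lt_coe]
      push_cast
      norm_num
    · refine LipschitzWith.of_dist_le_mul fun x y => ?_
      rw [Subtype.dist_eq, Subtype.dist_eq, dist_eq_norm, dist_eq_norm]
      change ‖φ x.1 - φ y.1‖ ≤ _
      have h1 : φ x.1 - φ y.1 = g (y.1, w) - g (x.1, w) := by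
        change θ - g (x.1, w) - (θ - g (y.1, w)) = _
        abel
      rw [h1]
      have h2 := c7_lip hg hg1 (hD _ y.2) (hD _ x.2)
      have h3 : ‖((y.1, w) : CE n × CE n) - (x.1, w)‖ = ‖x.1 - y.1‖ := by
        rw [Prod.norm_def]
        simp only [Prod.fst_sub, Prod.snd_sub, sub_self, norm_zero]
        rw [norm_sub_rev]
        exact max_eq_left (norm_nonneg _)
      rw [h3] at h2
      push_cast
      exact h2
  have h0 : (0 : CE n) ∈ T := by
    change ‖im (0 : CE n)‖ ≤ 3 / 4 * ρ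
    have : im (0 : CE n) = 0 := by ext i; simp
    rw [this, norm_zero]
    positivity
  obtain ⟨x, hx, hfx, -⟩ := ContractingWith.exists_fixedPoint' hTc.isComplete hmaps hK h0 (edist_ne_top _ _)
  have hfx' : θ - g (x, w) = x := hfx
  refine ⟨x, ⟨?_, ?_, z3⟩, ?_⟩
  · change ‖im x‖ < 3 / 4 * ρ
    have := him x hx
    rwa [show φ x = x from hfx'] at this
  · change ‖im w‖ < 3 / 4 * ρ
    linarith
  · change x + g (x, w) = θ
    rw [← hfx']
    rw [hfx']
    exact eq_sub_iff_add_eq.1 hfx'.symm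

theorem c7_unit {G : (CE n × CE n) →L[ℂ] CE n} (hG : ‖G‖ ≤ 1 / 8) :
    ∃ e : (CE n × CE n) ≃L[ℂ] (CE n × CE n), (e : (CE n × CE n) →L[ℂ] (CE n × CE n)) =
      ((ContinuousLinearMap.fst ℂ (CE n) (CE n)) + G).prod (ContinuousLinearMap.snd ℂ (CE n) (CE n)) := by
  have hTn : ‖-(G.prod (0 : (CE n × CE n) →L[ℂ] CE n))‖ < 1 := by
    rw [norm_neg]
    refine lt_of_le_of_lt (ContinuousLinearMap.opNorm_le_bound _ (by norm_num : (0 : ℝ) ≤ 1 / 8) fun v => ?_)
      (by norm_num)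
    rw [Prod.norm_def]
    refine max_le ?_ ?_
    · exact (G.le_opNorm v).trans (mul_le_mul_of_nonneg_right hG (norm_nonneg _))
    · change ‖(0 : CE n)‖ ≤ _
      rw [norm_zero]
      positivity
  refine ⟨ContinuousLinearEquiv.ofUnit (Units.oneSub (-(G.prod (0 : (CE n × CE n) →L[ℂ] CE n))) hTn), ?_⟩
  refine ContinuousLinearMap.ext fun v => ?_
  change v - (-(G.prod (0 : (CE n × CE n) →L[ℂ] CE n))) v = _
  rw [neg_apply, sub_neg_eq_add]
  refine Prod.ext ?_ ?_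
  · rfl
  · change v.2 + 0 = v.2
    rw [add_zero]

theorem c7_diff {g X : CE n × CE n → CE n} {z : CE n × CE n} {G : (CE n × CE n) →L[ℂ] CE n}
    (hG : ‖G‖ ≤ 1 / 8) (hg : HasFDerivAt g G (X z, z.2)) (hc : ContinuousAt X z)
    (h : ∀ᶠ y in 𝓝 z, X y + g (X y, y.2) = y.1) : DifferentiableAt ℂ X z := by
  obtain ⟨e, he⟩ := c7_unit hG
  have hΨ : HasFDerivAt (fun q : CE n × CE n => ((q.1 + g q, q.2) : CE n × CE n))
      (e : (CE n × CE n) →L[ℂ] (CE n × CE n)) ((fun y : CE n × CE n => ((X y, y.2) : CE n × CE n)) z) := by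
    rw [he]
    exact (hasFDerivAt_fst.add hg).prodMk hasFDerivAt_snd
  have hinv : ∀ᶠ y in 𝓝 z, (fun q : CE n × CE n => ((q.1 + g q, q.2) : CE n × CE n))
      ((fun y : CE n × CE n => ((X y, y.2) : CE n × CE n)) y) = y := by
    filter_upwards [h] with y hy
    exact Prod.ext hy rfl
  have hcont : ContinuousAt (fun y : CE n × CE n => ((X y, y.2) : CE n × CE n)) z :=
    hc.prodMk continuousAt_snd
  have h3 := HasFDerivAt.of_local_left_inverse hcont hΨ hinv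
  exact h3.differentiableAt.fst

theorem exists_inverse {ρ R : ℝ} (hρ : 0 < ρ) {g : CE n × CE n → CE n}
    (hg : DifferentiableOn ℂ g (D ρ R)) (hg1 : ∀ z ∈ D ρ R, ‖fderiv ℂ g z‖ ≤ 1 / 8)
    (hreal : ∀ z ∈ (D ρ R : Set (CE n × CE n)), g (cjp z) = cj (g z)) (hper : PerX ρ R g) :
    ∃ X : CE n × CE n → CE n, DifferentiableOn ℂ X (D (ρ / 2) R) ∧
      (∀ z ∈ (D (ρ / 2) R : Set (CE n × CE n)), (X z, z.2) ∈ (D (3 / 4 * ρ) R : Set (CE n × CE n)) ∧
        X z + g (X z, z.2) = z.1 ∧ ‖fderiv ℂ X z‖ ≤ 2 ∧ X (cjp z) = cj (X z) ∧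
        ∀ k : Fin n → ℤ, X (z.1 + ofR (lat k), z.2) = X z + ofR (lat k)) ∧
      (∀ z ∈ (D ρ R : Set (CE n × CE n)), (z.1 + g z, z.2) ∈ (D (ρ / 2) R : Set (CE n × CE n)) →
        X (z.1 + g z, z.2) = z.1) ∧
      (∀ z ∈ (D ρ R : Set (CE n × CE n)), ∀ z' ∈ (D ρ R : Set (CE n × CE n)), z.2 = z'.2 →
        z.1 + g z = z'.1 + g z' → z = z') := by
  have hex : ∀ z : CE n × CE n, ∃ x : CE n, z ∈ (D (ρ / 2) R : Set (CE n × CE n)) →
      (x, z.2) ∈ (D (3 / 4 * ρ) R : Set (CE n × CE n)) ∧ x + g (x, z.2) = z.1 := by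
    intro z
    by_cases hz : z ∈ (D (ρ / 2) R : Set (CE n × CE n))
    · obtain ⟨x, hx1, hx2⟩ := c7_fix hρ hg hg1 hreal hz
      exact ⟨x, fun _ => ⟨hx1, hx2⟩⟩
    · exact ⟨0, fun h => absurd h hz⟩
  choose X hXs using hex
  have hmono : (D (3 / 4 * ρ) R : Set (CE n × CE n)) ⊆ D ρ R := D_mono (by linarith) le_rfl
  have hXD : ∀ z ∈ (D (ρ / 2) R : Set (CE n × CE n)), (X z, z.2) ∈ (D ρ R : Set (CE n × CE n)) :=
    fun z hz => hmono (hXs z hz).1
  have hXu : ∀ z ∈ (D (ρ / 2) R : Set (CE n × CE n)), ∀ x : CE n, (x, z.2) ∈ (D ρ R : Set (CE n × CE n)) →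
      x + g (x, z.2) = z.1 → X z = x := by
    intro z hz x hx h
    have h1 := c7_uniq hg hg1 (hXD z hz) hx rfl ((hXs z hz).2.trans h.symm)
    exact congrArg Prod.fst h1
  have hlip : ∀ z ∈ (D (ρ / 2) R : Set (CE n × CE n)), ∀ z' ∈ (D (ρ / 2) R : Set (CE n × CE n)),
      ‖X z - X z'‖ ≤ 2 * ‖z - z'‖ := by
    intro z hz z' hz'
    have h1 := c7_lip hg hg1 (hXD z hz) (hXD z' hz')
    have h2 : X z - X z' = (z.1 - z'.1) - (g (X z, z.2) - g (X z', z'.2)) := by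
      rw [← (hXs z hz).2, ← (hXs z' hz').2]
      abel
    have h3 : ‖z.1 - z'.1‖ ≤ ‖z - z'‖ := norm_fst_le (z - z')
    have h4 : ‖z.2 - z'.2‖ ≤ ‖z - z'‖ := norm_snd_le (z - z')
    have h5 : ‖((X z, z.2) : CE n × CE n) - (X z', z'.2)‖ ≤ ‖X z - X z'‖ + ‖z - z'‖ := by
      rw [Prod.norm_def]
      refine max_le ?_ ?_
      · change ‖X z - X z'‖ ≤ _
        linarith [norm_nonneg (z - z')]
      · change ‖z.2 - z'.2‖ ≤ _
        linarith [norm_nonneg (X z - X z')]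
    have h6 := norm_sub_le (z.1 - z'.1) (g (X z, z.2) - g (X z', z'.2))
    rw [← h2] at h6
    nlinarith [norm_nonneg (z - z')]
  have hfd : ∀ z ∈ (D (ρ / 2) R : Set (CE n × CE n)), DifferentiableAt ℂ X z := by
    intro z hz
    have hnhds : (D (ρ / 2) R : Set (CE n × CE n)) ∈ 𝓝 z := (isOpen_D _ _).mem_nhds hz
    have hXc : ContinuousAt X z := by
      rw [Metric.continuousAt_iff]
      intro ε hε
      obtain ⟨δ, hδ, hball⟩ := Metric.mem_nhds_iff.1 hnhds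
      refine ⟨min δ (ε / 2), lt_min hδ (by positivity), fun {y} hy => ?_⟩
      have hy1 : y ∈ (D (ρ / 2) R : Set (CE n × CE n)) := hball (lt_of_lt_of_le hy (min_le_left _ _))
      have hy2 : ‖y - z‖ < ε / 2 := by
        rw [← dist_eq_norm]
        exact lt_of_lt_of_le hy (min_le_right _ _)
      rw [dist_eq_norm]
      have := hlip y hy1 z hz
      linarith
    have hgp : HasFDerivAt g (fderiv ℂ g (X z, z.2)) (X z, z.2) :=
      ((hg _ (hXD z hz)).differentiableAt ((isOpen_D ρ R).mem_nhds (hXD z hz))).hasFDerivAt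
    refine c7_diff (hg1 _ (hXD z hz)) hgp hXc ?_
    filter_upwards [hnhds] with y hy
    exact (hXs y hy).2
  refine ⟨X, fun z hz => (hfd z hz).differentiableWithinAt, ?_, ?_, ?_⟩
  · intro z hz
    refine ⟨(hXs z hz).1, (hXs z hz).2, ?_, ?_, ?_⟩
    · refine norm_fderiv_le_of_lip' ℂ (by norm_num) ?_
      filter_upwards [(isOpen_D (ρ / 2) R).mem_nhds hz] with y hy
      exact hlip y hy z hz
    · have h0 : cjp (X z, z.2) ∈ (D ρ R : Set (CE n × CE n)) := cjp_mem_D (hXD z hz)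
      have h00 : cjp z ∈ (D (ρ / 2) R : Set (CE n × CE n)) := cjp_mem_D hz
      refine hXu (cjp z) h00 (cj (X z)) h0 ?_
      have h1 : g (cj (X z), (cjp z).2) = cj (g (X z, z.2)) := hreal _ (hXD z hz)
      rw [h1]
      change cj (X z) + cj (g (X z, z.2)) = cj z.1
      rw [← (hXs z hz).2]
      ext i
      simp
    · intro k
      have h0 : (X z + ofR (lat k), z.2) ∈ (D ρ R : Set (CE n × CE n)) := shift_mem_D (hXD z hz) _
      have h00 : (z.1 + ofR (lat k), z.2) ∈ (D (ρ / 2) R : Set (CE n × CE n)) := shift_mem_D hz _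
      refine hXu (z.1 + ofR (lat k), z.2) h00 (X z + ofR (lat k)) h0 ?_
      have h1 : g (X z + ofR (lat k), z.2) = g (X z, z.2) := hper _ (hXD z hz) k
      change X z + ofR (lat k) + g (X z + ofR (lat k), z.2) = z.1 + ofR (lat k)
      rw [h1, ← (hXs z hz).2]
      abel
  · rintro ⟨x, w⟩ hz hz'
    exact hXu (x + g (x, w), w) hz' x hz rfl
  · intro z hz z' hz' h2 h
    exact c7_uniq hg hg1 hz hz' h2 h

end Pool.Agent.LRT
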