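import Pool.Agent.LRT.C8

/-!
C9 (difficulty 3).  Identity (1): the angle map conjugates the velocity to `ω` up to the derivative of
the error.

PROOF.  Write `V = vel H b u z = gw H (z.1, q)`, `q = qv b u z`, `S = hess b z.2`.
All functions are `C^∞` near `z` (`hol_contDiffOn`), in particular the second derivatives of `b` and `u` are
symmetric (`ContDiffAt.isSymmSndFDerivAt` or `second_derivative_symmetric`, over `ℂ`):
`dot (S v) v' = dot (S v') v`, and `dot (fderiv (gx u) z (0, v)) v' = dot (fderiv (gw u) z (v', 0)) v`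
(both are the second derivative of `u` at `z` applied to `(0, v), (v', 0)`).
For every `v`:
`fderiv ℂ (err H b u) z (0, v) = fderiv ℂ H (z.1, q) (0, S v + fderiv (gx u) z (0, v)) - dot v (gb b z.2)
   - dot z.2 (S v) + dot (gb b z.2) v
   = dot V (S v) + dot V (fderiv (gx u) z (0, v)) - dot z.2 (S v)
   = dot (S (V - z.2)) v + dot (fderiv (gw u) z (V, 0)) v`,
so `gw (err H b u) z = S (V - z.2) + fderiv (gw u) z (V, 0)` (`dot_ext`).
Since `gv b u z' = Ring.inverse (hess b z'.2) (gw u z')` and the first factor does not depend on `z'.1`: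
`fderiv (gv b u) z (V, 0) = Ring.inverse S (fderiv (gw u) z (V, 0))` (product rule; the derivative of
`z' ↦ Ring.inverse (hess b z'.2)` in the direction `(V, 0)` vanishes).  Apply `Ring.inverse S`
(`Ring.inverse_mul_cancel`).
-/

set_option autoImplicit false

open Set MeasureTheory Topology

namespace Pool.Agent.LRT

variable {n : ℕ} {κ ρ R CH : ℝ} {H : CE n × CE n → ℂ} {b : CE n → ℂ} {u : CE n × CE n → ℂ}

lemma c9_symm {V : Type*} [NormedAddCommGroup V] [NormedSpace ℂ V] [FiniteDimensional ℂ V]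
    {U : Set V} (hU : IsOpen U) {F : V → ℂ} (hF : DifferentiableOn ℂ F U) {x : V} (hx : x ∈ U)
    (v w : V) : fderiv ℂ (fderiv ℂ F) x v w = fderiv ℂ (fderiv ℂ F) x w v := by
  have h1 : ContDiffAt ℂ (⊤ : ℕ∞) F x := (hol_contDiffOn hU hF).contDiffAt (hU.mem_nhds hx)
  have h2 : minSmoothness ℂ 2 ≤ ((⊤ : ℕ∞) : WithTop ℕ∞) := by
    rw [minSmoothness_of_isRCLikeNormedField]
    exact WithTop.coe_le_coe.2 le_top
  exact (h1.isSymmSndFDerivAt h2) v w

lemma c9_gb {ρ R : ℝ} {b : CE n → ℂ} (hb : DifferentiableOn ℂ b (Dw ρ R)) {w : CE n}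
    (hw : w ∈ (Dw ρ R : Set (CE n))) (v a : CE n) :
    dot (hess b w v) a = fderiv ℂ (fderiv ℂ b) w v a := by
  have ho := isOpen_Dw (n := n) ρ R
  have h1 : DifferentiableAt ℂ (fderiv ℂ b) w := (hol_fderiv ho hb).differentiableAt (ho.mem_nhds hw)
  have h2 : HasFDerivAt (gb b) ((grad (n := n)).comp (fderiv ℂ (fderiv ℂ b) w)) w :=
    (grad (n := n)).hasFDerivAt.comp w h1.hasFDerivAt
  rw [hess, h2.fderiv, ContinuousLinearMap.comp_apply, dot_grad]

lemma c9_gx {ρ R : ℝ} {u : CE n × CE n → ℂ} (hu : DifferentiableOn ℂ u (D ρ R))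
    {z : CE n × CE n} (hz : z ∈ (D ρ R : Set (CE n × CE n))) (v : CE n × CE n) (a : CE n) :
    dot (fderiv ℂ (gx u) z v) a = fderiv ℂ (fderiv ℂ u) z v (a, 0) := by
  have ho := isOpen_D (n := n) ρ R
  have h1 : DifferentiableAt ℂ (fderiv ℂ u) z := (hol_fderiv ho hu).differentiableAt (ho.mem_nhds hz)
  have h2 : HasFDerivAt (fun z => (fderiv ℂ u z).comp (ContinuousLinearMap.inl ℂ (CE n) (CE n)))
      (((ContinuousLinearMap.compL ℂ (CE n) (CE n × CE n) ℂ).flip
        (ContinuousLinearMap.inl ℂ (CE n) (CE n))).comp (fderiv ℂ (fderiv ℂ u) z)) z :=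
    ((ContinuousLinearMap.compL ℂ (CE n) (CE n × CE n) ℂ).flip
        (ContinuousLinearMap.inl ℂ (CE n) (CE n))).hasFDerivAt.comp z h1.hasFDerivAt
  have h3 : HasFDerivAt (gx u) ((grad (n := n)).comp
      (((ContinuousLinearMap.compL ℂ (CE n) (CE n × CE n) ℂ).flip
        (ContinuousLinearMap.inl ℂ (CE n) (CE n))).comp (fderiv ℂ (fderiv ℂ u) z))) z :=
    (grad (n := n)).hasFDerivAt.comp z h2
  rw [h3.fderiv, ContinuousLinearMap.comp_apply, dot_grad]
  simp

lemma c9_gw {ρ R : ℝ} {u : CE n × CE n → ℂ} (hu : DifferentiableOn ℂ u (D ρ R))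
    {z : CE n × CE n} (hz : z ∈ (D ρ R : Set (CE n × CE n))) (v : CE n × CE n) (a : CE n) :
    dot (fderiv ℂ (gw u) z v) a = fderiv ℂ (fderiv ℂ u) z v (0, a) := by
  have ho := isOpen_D (n := n) ρ R
  have h1 : DifferentiableAt ℂ (fderiv ℂ u) z := (hol_fderiv ho hu).differentiableAt (ho.mem_nhds hz)
  have h2 : HasFDerivAt (fun z => (fderiv ℂ u z).comp (ContinuousLinearMap.inr ℂ (CE n) (CE n)))
      (((ContinuousLinearMap.compL ℂ (CE n) (CE n × CE n) ℂ).flip
        (ContinuousLinearMap.inr ℂ (CE n) (CE n))).comp (fderiv ℂ (fderiv ℂ u) z)) z :=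
    ((ContinuousLinearMap.compL ℂ (CE n) (CE n × CE n) ℂ).flip
        (ContinuousLinearMap.inr ℂ (CE n) (CE n))).hasFDerivAt.comp z h1.hasFDerivAt
  have h3 : HasFDerivAt (gw u) ((grad (n := n)).comp
      (((ContinuousLinearMap.compL ℂ (CE n) (CE n × CE n) ℂ).flip
        (ContinuousLinearMap.inr ℂ (CE n) (CE n))).comp (fderiv ℂ (fderiv ℂ u) z))) z :=
    (grad (n := n)).hasFDerivAt.comp z h2
  rw [h3.fderiv, ContinuousLinearMap.comp_apply, dot_grad]
  simp

/-- the second component of the derivative of the error -/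
lemma c9_err (h : NS κ ρ R CH H b u) {z : CE n × CE n}
    (hz : z ∈ (D ρ R : Set (CE n × CE n))) :
    gw (err H b u) z = hess b z.2 (vel H b u z - z.2) +
      fderiv ℂ (gw u) z (vel H b u z, 0) := by
  have hw : z.2 ∈ (Dw ρ R : Set (CE n)) := ⟨hz.2.1, hz.2.2⟩
  have hoD := isOpen_D (n := n) ρ R
  have hoW := isOpen_Dw (n := n) ρ R
  have hoH := isOpen_D (n := n) (2 * ρ) (R + 1)
  have hq0 := h.q_mem hz
  have hqm : (z.1, qv b u z) ∈ (D (2 * ρ) (R + 1) : Set (CE n × CE n)) :=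
    D_mono (by linarith [h.ρ0]) (by linarith) hq0
  have hHd : HasFDerivAt H (fderiv ℂ H (z.1, qv b u z)) (z.1, qv b u z) :=
    (h.Hd.differentiableAt (hoH.mem_nhds hqm)).hasFDerivAt
  have hgb : HasFDerivAt (gb b) (hess b z.2) z.2 :=
    ((gb_hol h.bd).1.differentiableAt (hoW.mem_nhds hw)).hasFDerivAt
  have hgx : HasFDerivAt (gx u) (fderiv ℂ (gx u) z) z :=
    ((gx_hol h.ud).1.differentiableAt (hoD.mem_nhds hz)).hasFDerivAt
  have hb : HasFDerivAt b (fderiv ℂ b z.2) z.2 :=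
    (h.bd.differentiableAt (hoW.mem_nhds hw)).hasFDerivAt
  have hsnd : HasFDerivAt (Prod.snd : CE n × CE n → CE n)
      (ContinuousLinearMap.snd ℂ (CE n) (CE n)) z := hasFDerivAt_snd
  have hfst : HasFDerivAt (Prod.fst : CE n × CE n → CE n)
      (ContinuousLinearMap.fst ℂ (CE n) (CE n)) z := hasFDerivAt_fst
  have hgb2 : HasFDerivAt (fun z : CE n × CE n => gb b z.2)
      ((hess b z.2).comp (ContinuousLinearMap.snd ℂ (CE n) (CE n))) z := hgb.comp z hsnd
  have hq : HasFDerivAt (qv b u) ((hess b z.2).comp (ContinuousLinearMap.snd ℂ (CE n) (CE n)) +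
      fderiv ℂ (gx u) z) z := hgb2.add hgx
  have h1 : HasFDerivAt (fun z : CE n × CE n => H (z.1, qv b u z))
      ((fderiv ℂ H (z.1, qv b u z)).comp ((ContinuousLinearMap.fst ℂ (CE n) (CE n)).prod
        ((hess b z.2).comp (ContinuousLinearMap.snd ℂ (CE n) (CE n)) + fderiv ℂ (gx u) z))) z :=
    hHd.comp z (hfst.prodMk hq)
  have hB : HasFDerivAt (fun z : CE n × CE n => dotB z.2)
      ((dotB (n := n)).comp (ContinuousLinearMap.snd ℂ (CE n) (CE n))) z :=
    (dotB (n := n)).hasFDerivAt.comp z hsnd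
  have h2 := hB.clm_apply hgb2
  have h3 : HasFDerivAt (fun z : CE n × CE n => b z.2)
      ((fderiv ℂ b z.2).comp (ContinuousLinearMap.snd ℂ (CE n) (CE n))) z := hb.comp z hsnd
  have h4 : HasFDerivAt (err H b u) _ z := (h1.sub h2).add h3
  refine dot_ext fun v => ?_
  rw [dot_gw, h4.fderiv]
  have e1 : fderiv ℂ H (z.1, qv b u z) (0, hess b z.2 v + fderiv ℂ (gx u) z (0, v)) =
      dot (vel H b u z) (hess b z.2 v + fderiv ℂ (gx u) z (0, v)) := (dot_gw _ _ _).symm
  have e2 : fderiv ℂ b z.2 v = dot (gb b z.2) v := (dot_gb _ _ _).symm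
  have s1 : ∀ a : CE n, dot a (hess b z.2 v) = dot (hess b z.2 a) v := by
    intro a
    rw [dot_comm, c9_gb h.bd hw, c9_gb h.bd hw]
    exact c9_symm hoW h.bd hw _ _
  have s2 : dot (vel H b u z) (fderiv ℂ (gx u) z (0, v)) =
      dot (fderiv ℂ (gw u) z (vel H b u z, 0)) v := by
    rw [dot_comm, c9_gx h.ud hz, c9_gw h.ud hz]
    exact c9_symm hoD h.ud hz _ _
  simp only [add_apply, sub_apply,
    ContinuousLinearMap.comp_apply, ContinuousLinearMap.prod_apply, ContinuousLinearMap.coe_fst',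
    ContinuousLinearMap.coe_snd', ContinuousLinearMap.flip_apply, dotB_apply]
  rw [e1, e2, dot_add, s1, s1, s2, add_dot, map_sub, sub_dot, dot_comm v (gb b z.2)]
  ring

/-- derivative of the displacement in the first variable -/
lemma c9_gv (h : NS κ ρ R CH H b u) {z : CE n × CE n}
    (hz : z ∈ (D ρ R : Set (CE n × CE n))) (V : CE n) :
    fderiv ℂ (gv b u) z (V, 0) = Ring.inverse (hess b z.2) (fderiv ℂ (gw u) z (V, 0)) := by
  have hoD := isOpen_D (n := n) ρ R
  have h1 : HasFDerivAt (gv b u) (fderiv ℂ (gv b u) z) z :=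
    (h.gv_hol.differentiableAt (hoD.mem_nhds hz)).hasFDerivAt
  have h2 : HasFDerivAt (gw u) (fderiv ℂ (gw u) z) z :=
    ((gx_hol h.ud).2.differentiableAt (hoD.mem_nhds hz)).hasFDerivAt
  have h0 : HasDerivAt (fun ζ : ℂ => z + ζ • ((V, 0) : CE n × CE n)) (V, 0) 0 := by
    simpa using ((hasDerivAt_id (0 : ℂ)).smul_const ((V, 0) : CE n × CE n)).const_add z
  have h3 : HasDerivAt (fun ζ : ℂ => gv b u (z + ζ • ((V, 0) : CE n × CE n)))
      (fderiv ℂ (gv b u) z (V, 0)) 0 :=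
    h1.comp_hasDerivAt_of_eq (0 : ℂ) h0 (by simp)
  have h4 : HasDerivAt (fun ζ : ℂ => gw u (z + ζ • ((V, 0) : CE n × CE n)))
      (fderiv ℂ (gw u) z (V, 0)) 0 :=
    h2.comp_hasDerivAt_of_eq (0 : ℂ) h0 (by simp)
  have h5 : HasDerivAt (fun ζ : ℂ => Ring.inverse (hess b z.2)
      (gw u (z + ζ • ((V, 0) : CE n × CE n))))
      (Ring.inverse (hess b z.2) (fderiv ℂ (gw u) z (V, 0))) 0 :=
    (Ring.inverse (hess b z.2)).hasFDerivAt.comp_hasDerivAt (0 : ℂ) h4
  have h6 : (fun ζ : ℂ => gv b u (z + ζ • ((V, 0) : CE n × CE n))) =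
      fun ζ : ℂ => Ring.inverse (hess b z.2) (gw u (z + ζ • ((V, 0) : CE n × CE n))) := by
    funext ζ
    unfold gv
    have e : (z + ζ • ((V, 0) : CE n × CE n)).2 = z.2 := by simp
    rw [e]
  rw [h6] at h3
  exact h3.unique h5

theorem NS.ident1 (h : NS κ ρ R CH H b u) {z : CE n × CE n}
    (hz : z ∈ (D ρ R : Set (CE n × CE n))) :
    vel H b u z + fderiv ℂ (gv b u) z (vel H b u z, 0) =
      z.2 + Ring.inverse (hess b z.2) (gw (err H b u) z) := by
  have hw : z.2 ∈ (Dw ρ R : Set (CE n)) := ⟨hz.2.1, hz.2.2⟩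
  have hu := (h.isUnit hw).1
  have h1 : ∀ v : CE n, Ring.inverse (hess b z.2) (hess b z.2 v) = v := by
    intro v
    have h2 := Ring.inverse_mul_cancel (hess b z.2) hu
    have h3 := congrArg (fun T : CE n →L[ℂ] CE n => T v) h2
    exact h3
  rw [c9_err h hz, c9_gv h hz, map_add, h1]
  abel

end Pool.Agent.LRT
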