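import Mathlib

/-!
Local rigidity near the flat Lagrangian: complex Euclidean spaces, strips, gradients.
-/

set_option autoImplicit false

open Set MeasureTheory Topology

namespace Pool.Agent.LRT

noncomputable section

/-- real and complex Euclidean spaces -/
abbrev RE (n : ℕ) := EuclideanSpace ℝ (Fin n)
/-- complex Euclidean space -/
abbrev CE (n : ℕ) := EuclideanSpace ℂ (Fin n)

variable {n : ℕ}

/-- real part -/
def re (z : CE n) : RE n := WithLp.toLp 2 fun i => (z i).re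
/-- imaginary part -/
def im (z : CE n) : RE n := WithLp.toLp 2 fun i => (z i).im
/-- inclusion of the real space -/
def ofR (x : RE n) : CE n := WithLp.toLp 2 fun i => ((x i : ℝ) : ℂ)
/-- complex conjugation -/
def cj (z : CE n) : CE n := WithLp.toLp 2 fun i => (starRingEnd ℂ) (z i)
/-- conjugation on pairs -/
def cjp (z : CE n × CE n) : CE n × CE n := (cj z.1, cj z.2)
/-- the integer vector -/
def lat (m : Fin n → ℤ) : RE n := WithLp.toLp 2 fun i => (m i : ℝ)
/-- the bilinear form -/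
def dot (z w : CE n) : ℂ := ∑ i, z i * w i

@[simp] lemma re_apply (z : CE n) (i : Fin n) : re z i = (z i).re := rfl
@[simp] lemma im_apply (z : CE n) (i : Fin n) : im z i = (z i).im := rfl
@[simp] lemma ofR_apply (x : RE n) (i : Fin n) : ofR x i = ((x i : ℝ) : ℂ) := rfl
@[simp] lemma cj_apply (z : CE n) (i : Fin n) : cj z i = (starRingEnd ℂ) (z i) := rfl
@[simp] lemma lat_apply (m : Fin n → ℤ) (i : Fin n) : lat m i = (m i : ℝ) := rfl

lemma re_add (z w : CE n) : re (z + w) = re z + re w := by ext i; simp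
lemma im_add (z w : CE n) : im (z + w) = im z + im w := by ext i; simp
lemma re_sub (z w : CE n) : re (z - w) = re z - re w := by ext i; simp
lemma im_sub (z w : CE n) : im (z - w) = im z - im w := by ext i; simp
lemma re_smul (r : ℝ) (z : CE n) : re (r • z) = r • re z := by ext i; simp
lemma im_smul (r : ℝ) (z : CE n) : im (r • z) = r • im z := by ext i; simp
lemma ofR_add (x y : RE n) : ofR (x + y) = ofR x + ofR y := by ext i; simp
lemma ofR_sub (x y : RE n) : ofR (x - y) = ofR x - ofR y := by ext i; simp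
lemma ofR_smul (r : ℝ) (x : RE n) : ofR (r • x) = r • ofR x := by ext i; simp
@[simp] lemma re_ofR (x : RE n) : re (ofR x) = x := by ext i; simp
@[simp] lemma im_ofR (x : RE n) : im (ofR x) = 0 := by ext i; simp
@[simp] lemma ofR_zero : ofR (0 : RE n) = 0 := by ext i; simp
@[simp] lemma cj_cj (z : CE n) : cj (cj z) = z := by ext i; simp
@[simp] lemma cjp_cjp (z : CE n × CE n) : cjp (cjp z) = z := by simp [cjp]
@[simp] lemma cj_ofR (x : RE n) : cj (ofR x) = ofR x := by ext i; simp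
lemma re_cj (z : CE n) : re (cj z) = re z := by ext i; simp
lemma im_cj (z : CE n) : im (cj z) = - im z := by ext i; simp
lemma eq_re_im (z : CE n) : z = ofR (re z) + Complex.I • ofR (im z) := by
  ext i
  simp only [PiLp.add_apply, PiLp.smul_apply, ofR_apply, re_apply, im_apply, smul_eq_mul]
  rw [mul_comm]
  exact (Complex.re_add_im _).symm

lemma norm_ofR (x : RE n) : ‖ofR x‖ = ‖x‖ := by
  rw [EuclideanSpace.norm_eq, EuclideanSpace.norm_eq]
  simp

lemma norm_cj (z : CE n) : ‖cj z‖ = ‖z‖ := by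
  rw [EuclideanSpace.norm_eq, EuclideanSpace.norm_eq]
  simp

lemma norm_re_le (z : CE n) : ‖re z‖ ≤ ‖z‖ := by
  rw [EuclideanSpace.norm_eq, EuclideanSpace.norm_eq]
  refine Real.sqrt_le_sqrt (Finset.sum_le_sum fun i _ => ?_)
  refine pow_le_pow_left₀ (norm_nonneg _) ?_ 2
  rw [re_apply, Real.norm_eq_abs]
  exact Complex.abs_re_le_norm _

lemma norm_im_le (z : CE n) : ‖im z‖ ≤ ‖z‖ := by
  rw [EuclideanSpace.norm_eq, EuclideanSpace.norm_eq]
  refine Real.sqrt_le_sqrt (Finset.sum_le_sum fun i _ => ?_)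
  refine pow_le_pow_left₀ (norm_nonneg _) ?_ 2
  rw [im_apply, Real.norm_eq_abs]
  exact Complex.abs_im_le_norm _

/-- real part as a real linear map -/
def reL : CE n →L[ℝ] RE n :=
  LinearMap.mkContinuous ⟨⟨re, re_add⟩, fun r z => re_smul r z⟩ 1 (fun z => by
    rw [one_mul]; exact norm_re_le z)
/-- imaginary part as a real linear map -/
def imL : CE n →L[ℝ] RE n :=
  LinearMap.mkContinuous ⟨⟨im, im_add⟩, fun r z => im_smul r z⟩ 1 (fun z => by
    rw [one_mul]; exact norm_im_le z)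
/-- inclusion as a real linear map -/
def ofRL : RE n →L[ℝ] CE n :=
  LinearMap.mkContinuous ⟨⟨ofR, ofR_add⟩, fun r z => ofR_smul r z⟩ 1 (fun z => by
    rw [one_mul]; exact (norm_ofR z).le)

@[simp] lemma reL_apply (z : CE n) : reL z = re z := rfl
@[simp] lemma imL_apply (z : CE n) : imL z = im z := rfl
@[simp] lemma ofRL_apply (x : RE n) : ofRL x = ofR x := rfl

lemma continuous_re : Continuous (re : CE n → RE n) := (reL (n := n)).continuous
lemma continuous_im : Continuous (im : CE n → RE n) := (imL (n := n)).continuous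
lemma continuous_ofR : Continuous (ofR : RE n → CE n) := (ofRL (n := n)).continuous

lemma dot_comm (z w : CE n) : dot z w = dot w z := by
  unfold dot; exact Finset.sum_congr rfl fun i _ => mul_comm _ _
lemma dot_add (z w w' : CE n) : dot z (w + w') = dot z w + dot z w' := by
  unfold dot; rw [← Finset.sum_add_distrib]
  exact Finset.sum_congr rfl fun i _ => by rw [PiLp.add_apply, mul_add]
lemma dot_sub (z w w' : CE n) : dot z (w - w') = dot z w - dot z w' := by
  unfold dot; rw [← Finset.sum_sub_distrib]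
  exact Finset.sum_congr rfl fun i _ => by rw [PiLp.sub_apply, mul_sub]
lemma dot_smul (c : ℂ) (z w : CE n) : dot z (c • w) = c * dot z w := by
  unfold dot; rw [Finset.mul_sum]
  exact Finset.sum_congr rfl fun i _ => by rw [PiLp.smul_apply, smul_eq_mul]; ring
lemma add_dot (z z' w : CE n) : dot (z + z') w = dot z w + dot z' w := by
  rw [dot_comm, dot_add, dot_comm w z, dot_comm w z']
lemma sub_dot (z z' w : CE n) : dot (z - z') w = dot z w - dot z' w := by
  rw [dot_comm, dot_sub, dot_comm w z, dot_comm w z']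
lemma smul_dot (c : ℂ) (z w : CE n) : dot (c • z) w = c * dot z w := by
  rw [dot_comm, dot_smul, dot_comm w z]
lemma dot_cj (z w : CE n) : dot (cj z) (cj w) = (starRingEnd ℂ) (dot z w) := by
  unfold dot; rw [map_sum]
  exact Finset.sum_congr rfl fun i _ => by rw [cj_apply, cj_apply, map_mul]

lemma dot_eq_inner (z w : CE n) : dot z w = inner ℂ (cj z) w := by
  unfold dot
  rw [PiLp.inner_apply]
  refine Finset.sum_congr rfl fun i _ => ?_
  rw [cj_apply]
  simp [mul_comm]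

lemma norm_dot_le (z w : CE n) : ‖dot z w‖ ≤ ‖z‖ * ‖w‖ := by
  rw [dot_eq_inner]
  refine (norm_inner_le_norm _ _).trans ?_
  rw [norm_cj]

lemma dot_ofR (x y : RE n) : dot (ofR x) (ofR y) = ((inner ℝ x y : ℝ) : ℂ) := by
  unfold dot
  rw [PiLp.inner_apply]
  push_cast
  refine Finset.sum_congr rfl fun i _ => ?_
  simp [mul_comm]

lemma dot_self_cj (z : CE n) : dot (cj z) z = ((‖z‖ ^ 2 : ℝ) : ℂ) := by
  rw [dot_eq_inner, cj_cj, inner_self_eq_norm_sq_to_K]
  simp

/-- `dot z` as a continuous linear map -/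
def dotL (z : CE n) : CE n →L[ℂ] ℂ :=
  LinearMap.mkContinuous ⟨⟨dot z, dot_add z⟩, fun c w => dot_smul c z w⟩ ‖z‖ (fun w => norm_dot_le z w)
@[simp] lemma dotL_apply (z w : CE n) : dotL z w = dot z w := rfl

/-- `dot` as a bilinear map -/
def dotB : CE n →L[ℂ] CE n →L[ℂ] ℂ :=
  LinearMap.mkContinuous ⟨⟨dotL, fun z z' => by ext w; simp [add_dot]⟩,
    fun c z => by ext w; simp [smul_dot]⟩ 1 (fun z => by
      rw [one_mul]
      exact ContinuousLinearMap.opNorm_le_bound _ (norm_nonneg _) (fun w => norm_dot_le z w))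
@[simp] lemma dotB_apply (z w : CE n) : dotB z w = dot z w := rfl

/-- coordinates of a linear form -/
def gradFun (l : CE n →L[ℂ] ℂ) : CE n := WithLp.toLp 2 fun i => l (EuclideanSpace.single i 1)

lemma dot_gradFun (l : CE n →L[ℂ] ℂ) (v : CE n) : dot (gradFun l) v = l v := by
  have h : v = ∑ i, v i • EuclideanSpace.single i (1 : ℂ) := by
    ext j
    simp [Finset.sum_apply, Pi.single_apply]
  conv_rhs => rw [h, map_sum]
  unfold dot gradFun
  refine Finset.sum_congr rfl fun i _ => ?_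
  rw [map_smul, smul_eq_mul, mul_comm]

lemma norm_gradFun_le (l : CE n →L[ℂ] ℂ) : ‖gradFun l‖ ≤ ‖l‖ := by
  have h1 : l (cj (gradFun l)) = ((‖gradFun l‖ ^ 2 : ℝ) : ℂ) := by
    rw [← dot_gradFun, dot_comm, dot_self_cj]
  have h2 := l.le_opNorm (cj (gradFun l))
  rw [h1, norm_cj, Complex.norm_real, Real.norm_eq_abs, abs_of_nonneg (by positivity)] at h2
  rcases eq_or_lt_of_le (norm_nonneg (gradFun l)) with h | h
  · rw [← h]; exact norm_nonneg _
  · nlinarith

/-- gradient vector of a linear form -/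
def grad : (CE n →L[ℂ] ℂ) →L[ℂ] CE n :=
  LinearMap.mkContinuous ⟨⟨gradFun, fun l l' => by ext i; simp [gradFun]⟩,
    fun c l => by ext i; simp [gradFun]⟩ 1 (fun l => by rw [one_mul]; exact norm_gradFun_le l)

lemma dot_grad (l : CE n →L[ℂ] ℂ) (v : CE n) : dot (grad l) v = l v := dot_gradFun l v
lemma norm_grad_le (l : CE n →L[ℂ] ℂ) : ‖grad l‖ ≤ ‖l‖ := norm_gradFun_le l
lemma dot_ext {z w : CE n} (h : ∀ v, dot z v = dot w v) : z = w := by
  ext i
  have := h (EuclideanSpace.single i 1)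
  simpa [dot, Finset.sum_ite_eq] using this

/-- complex neighbourhood of `ℝⁿ × B(0,R)` -/
def D (ρ R : ℝ) : Set (CE n × CE n) := {z | ‖im z.1‖ < ρ ∧ ‖im z.2‖ < ρ ∧ ‖re z.2‖ < R}
/-- complex neighbourhood of `B(0,R)` -/
def Dw (ρ R : ℝ) : Set (CE n) := {w | ‖im w‖ < ρ ∧ ‖re w‖ < R}

lemma isOpen_D (ρ R : ℝ) : IsOpen (D ρ R : Set (CE n × CE n)) := by
  have h1 : IsOpen {z : CE n × CE n | ‖im z.1‖ < ρ} :=
    isOpen_lt (continuous_im.comp continuous_fst).norm continuous_const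
  have h2 : IsOpen {z : CE n × CE n | ‖im z.2‖ < ρ} :=
    isOpen_lt (continuous_im.comp continuous_snd).norm continuous_const
  have h3 : IsOpen {z : CE n × CE n | ‖re z.2‖ < R} :=
    isOpen_lt (continuous_re.comp continuous_snd).norm continuous_const
  exact h1.inter (h2.inter h3)

lemma isOpen_Dw (ρ R : ℝ) : IsOpen (Dw ρ R : Set (CE n)) := by
  have h1 : IsOpen {z : CE n | ‖im z‖ < ρ} := isOpen_lt continuous_im.norm continuous_const
  have h2 : IsOpen {z : CE n | ‖re z‖ < R} := isOpen_lt continuous_re.norm continuous_const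
  exact h1.inter h2

lemma convex_D (ρ R : ℝ) : Convex ℝ (D ρ R : Set (CE n × CE n)) := by
  have h : (D ρ R : Set (CE n × CE n)) =
      ((imL (n := n)).comp (ContinuousLinearMap.fst ℝ _ _)) ⁻¹' (Metric.ball 0 ρ) ∩
      (((imL (n := n)).comp (ContinuousLinearMap.snd ℝ _ _)) ⁻¹' (Metric.ball 0 ρ) ∩
      ((reL (n := n)).comp (ContinuousLinearMap.snd ℝ _ _)) ⁻¹' (Metric.ball 0 R)) := by
    ext z
    simp [D]
  rw [h]
  exact ((convex_ball _ _).linear_preimage _).inter
    (((convex_ball _ _).linear_preimage _).inter ((convex_ball _ _).linear_preimage _))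

lemma convex_Dw (ρ R : ℝ) : Convex ℝ (Dw ρ R : Set (CE n)) := by
  have h : (Dw ρ R : Set (CE n)) =
      (imL (n := n)) ⁻¹' (Metric.ball 0 ρ) ∩ (reL (n := n)) ⁻¹' (Metric.ball 0 R) := by
    ext z
    simp [Dw]
  rw [h]
  exact ((convex_ball _ _).linear_preimage _).inter ((convex_ball _ _).linear_preimage _)

lemma D_mono {ρ ρ' R R' : ℝ} (h : ρ ≤ ρ') (h' : R ≤ R') :
    (D ρ R : Set (CE n × CE n)) ⊆ D ρ' R' := fun _ hz =>
  ⟨hz.1.trans_le h, hz.2.1.trans_le h, hz.2.2.trans_le h'⟩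
lemma Dw_mono {ρ ρ' R R' : ℝ} (h : ρ ≤ ρ') (h' : R ≤ R') :
    (Dw ρ R : Set (CE n)) ⊆ Dw ρ' R' := fun _ hz => ⟨hz.1.trans_le h, hz.2.trans_le h'⟩

lemma cjp_mem_D {ρ R : ℝ} {z : CE n × CE n} (hz : z ∈ D ρ R) : cjp z ∈ D ρ R := by
  simpa [D, cjp, im_cj, re_cj] using hz
lemma cj_mem_Dw {ρ R : ℝ} {z : CE n} (hz : z ∈ Dw ρ R) : cj z ∈ Dw ρ R := by
  simpa [Dw, im_cj, re_cj] using hz
lemma shift_mem_D {ρ R : ℝ} {z : CE n × CE n} (hz : z ∈ D ρ R) (x : RE n) :
    (z.1 + ofR x, z.2) ∈ D ρ R := by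
  simpa [D, im_add] using hz
lemma ofR_mem_D {ρ R : ℝ} (hρ : 0 < ρ) (x : RE n) {w : RE n} (hw : ‖w‖ < R) :
    (ofR x, ofR w) ∈ D ρ R := by
  simpa [D, hρ] using hw
lemma ofR_mem_Dw {ρ R : ℝ} (hρ : 0 < ρ) {w : RE n} (hw : ‖w‖ < R) : ofR w ∈ Dw ρ R := by
  simpa [Dw, hρ] using hw

/-- a ball around a point of the smaller domain lies in the larger domain -/
lemma ball_subset_D {ρ R d : ℝ} {z : CE n × CE n} (hz : z ∈ D (ρ - d) (R - d)) :
    Metric.ball z d ⊆ D ρ R := by
  intro y hy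
  rw [Metric.mem_ball, Prod.dist_eq, max_lt_iff, dist_eq_norm, dist_eq_norm] at hy
  obtain ⟨h1, h2⟩ := hy
  obtain ⟨a1, a2, a3⟩ := hz
  have e1 : im y.1 = im z.1 + im (y.1 - z.1) := by rw [im_sub]; abel
  have e2 : im y.2 = im z.2 + im (y.2 - z.2) := by rw [im_sub]; abel
  have e3 : re y.2 = re z.2 + re (y.2 - z.2) := by rw [re_sub]; abel
  refine ⟨?_, ?_, ?_⟩
  · rw [e1]
    have := norm_add_le (im z.1) (im (y.1 - z.1))
    have := norm_im_le (y.1 - z.1)
    linarith
  · rw [e2]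
    have := norm_add_le (im z.2) (im (y.2 - z.2))
    have := norm_im_le (y.2 - z.2)
    linarith
  · rw [e3]
    have := norm_add_le (re z.2) (re (y.2 - z.2))
    have := norm_re_le (y.2 - z.2)
    linarith

lemma ball_subset_Dw {ρ R d : ℝ} {w : CE n} (hw : w ∈ Dw (ρ - d) (R - d)) :
    Metric.ball w d ⊆ Dw ρ R := by
  intro y hy
  rw [Metric.mem_ball, dist_eq_norm] at hy
  obtain ⟨a1, a2⟩ := hw
  have e1 : im y = im w + im (y - w) := by rw [im_sub]; abel
  have e2 : re y = re w + re (y - w) := by rw [re_sub]; abel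
  refine ⟨?_, ?_⟩
  · rw [e1]
    have := norm_add_le (im w) (im (y - w))
    have := norm_im_le (y - w)
    linarith
  · rw [e2]
    have := norm_add_le (re w) (re (y - w))
    have := norm_re_le (y - w)
    linarith

/-- gradient in the first variable -/
def gx (u : CE n × CE n → ℂ) (z : CE n × CE n) : CE n :=
  grad ((fderiv ℂ u z).comp (ContinuousLinearMap.inl ℂ (CE n) (CE n)))
/-- gradient in the second variable -/
def gw (u : CE n × CE n → ℂ) (z : CE n × CE n) : CE n :=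
  grad ((fderiv ℂ u z).comp (ContinuousLinearMap.inr ℂ (CE n) (CE n)))
/-- gradient of a function of the frequency -/
def gb (b : CE n → ℂ) (w : CE n) : CE n := grad (fderiv ℂ b w)
/-- second derivative of `b` -/
def hess (b : CE n → ℂ) (w : CE n) : CE n →L[ℂ] CE n := fderiv ℂ (gb b) w
/-- the momentum `∇b + ∂ₓu` -/
def qv (b : CE n → ℂ) (u : CE n × CE n → ℂ) (z : CE n × CE n) : CE n := gb b z.2 + gx u z
/-- the error of the Hamilton-Jacobi equation -/
def err (H : CE n × CE n → ℂ) (b : CE n → ℂ) (u : CE n × CE n → ℂ) (z : CE n × CE n) : ℂ :=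
  H (z.1, qv b u z) - dot z.2 (gb b z.2) + b z.2
/-- the velocity `∂_p H(x, q)` -/
def vel (H : CE n × CE n → ℂ) (b : CE n → ℂ) (u : CE n × CE n → ℂ) (z : CE n × CE n) : CE n :=
  gw H (z.1, qv b u z)
/-- displacement of the angle `(D²b)⁻¹ ∂_ω u` -/
def gv (b : CE n → ℂ) (u : CE n × CE n → ℂ) (z : CE n × CE n) : CE n :=
  Ring.inverse (hess b z.2) (gw u z)
/-- the angle -/
def th (b : CE n → ℂ) (u : CE n × CE n → ℂ) (z : CE n × CE n) : CE n := z.1 + gv b u z

lemma dot_gx (u : CE n × CE n → ℂ) (z : CE n × CE n) (v : CE n) :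
    dot (gx u z) v = fderiv ℂ u z (v, 0) := by rw [gx, dot_grad]; rfl
lemma dot_gw (u : CE n × CE n → ℂ) (z : CE n × CE n) (v : CE n) :
    dot (gw u z) v = fderiv ℂ u z (0, v) := by rw [gw, dot_grad]; rfl
lemma dot_gb (b : CE n → ℂ) (w v : CE n) : dot (gb b w) v = fderiv ℂ b w v := dot_grad _ _

lemma norm_gx_le (u : CE n × CE n → ℂ) (z : CE n × CE n) : ‖gx u z‖ ≤ ‖fderiv ℂ u z‖ := by
  refine (norm_grad_le _).trans ?_
  refine ContinuousLinearMap.opNorm_le_bound _ (norm_nonneg _) fun v => ?_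
  refine ((fderiv ℂ u z).le_opNorm (v, 0)).trans ?_
  rw [Prod.norm_def]
  simp
lemma norm_gw_le (u : CE n × CE n → ℂ) (z : CE n × CE n) : ‖gw u z‖ ≤ ‖fderiv ℂ u z‖ := by
  refine (norm_grad_le _).trans ?_
  refine ContinuousLinearMap.opNorm_le_bound _ (norm_nonneg _) fun v => ?_
  refine ((fderiv ℂ u z).le_opNorm (0, v)).trans ?_
  rw [Prod.norm_def]
  simp
lemma norm_gb_le (b : CE n → ℂ) (w : CE n) : ‖gb b w‖ ≤ ‖fderiv ℂ b w‖ := norm_grad_le _

/-- characters -/
def ch (m : Fin n → ℤ) (z : CE n) : ℂ := Complex.exp (2 * Real.pi * Complex.I * dot (ofR (lat m)) z)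

/-- the unit cell -/
def cell : Set (Fin n → ℝ) := Set.univ.pi fun _ => Set.Ioc (0 : ℝ) 1

/-- Fourier coefficients in the first variable -/
def coef (G : CE n × CE n → ℂ) (m : Fin n → ℤ) (w : CE n) : ℂ :=
  ∫ t in (cell : Set (Fin n → ℝ)), G (ofR (WithLp.toLp 2 t), w) * ch (-m) (ofR (WithLp.toLp 2 t))

/-- integer vectors of sup norm at most `K` -/
def bx (n K : ℕ) : Finset (Fin n → ℤ) := Finset.Icc (fun _ => -(K : ℤ)) (fun _ => (K : ℤ))

lemma mem_bx {K : ℕ} {m : Fin n → ℤ} : m ∈ bx n K ↔ ∀ i, |m i| ≤ K := by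
  rw [bx, Finset.mem_Icc, Pi.le_def, Pi.le_def, ← forall_and]
  simp only [abs_le]

/-- projection along `m` to `m^⊥` -/
def Pm (m : Fin n → ℤ) (w : CE n) : CE n :=
  w - (dot (ofR (lat m)) w / ((‖lat m‖ ^ 2 : ℝ) : ℂ)) • ofR (lat m)

/-- periodicity in the first variable, on the domain -/
def PerX {α : Type*} (ρ R : ℝ) (G : CE n × CE n → α) : Prop :=
  ∀ z ∈ (D ρ R : Set (CE n × CE n)), ∀ k : Fin n → ℤ, G (z.1 + ofR (lat k), z.2) = G z
/-- reality -/
def RealX (ρ R : ℝ) (G : CE n × CE n → ℂ) : Prop :=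
  ∀ z ∈ (D ρ R : Set (CE n × CE n)), G (cjp z) = (starRingEnd ℂ) (G z)

end

end Pool.Agent.LRT
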