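import Pool.Agent.LRT.ED

/-!
E0 (difficulty 2).  Translation of notations between the two parts: `bs n` is the standard basis of `RE n`;
`lat` is `Pool.Agent.LRT.lat` (LRT/CD.lean), `Pool.H45.Mather.lat`, `lin`, `rv`, `Per` are in Pool/Agent/H45/MatherDefs.lean
and MatherGlue.lean.

`bs n = (EuclideanSpace.basisFun (Fin n) ℝ).toBasis` is defined in LRT/VH.lean (`unfold bs`).

PROOF.  `bs_lin`: `lin_apply`, `EuclideanSpace.basisFun_repr`, `PiLp.inner_apply` (`inner ℝ x y = ∑ i, ⟪x i, y i⟫`, real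
inner product `= y i * x i`).  `bs_lat`: `∑ i, (m i : ℝ) • single i 1`, coordinatewise.
`bs_norm_lin`: `lin (bs n) m = innerSL ℝ (lat m)` by `bs_lin`, `innerSL_apply_norm`.
`bs_rv`: `ext_inner_right ℝ`, `inner_rv`, `bs_lin`.
`bs_per`: `bs n i = lat (Pi.single i 1)`; `bs_per'`: `Per.add_lat` and `bs_lat`.
`bs_ec`: `dot_ofR`, `inner`, `Complex.ofReal_mul`, `mul_comm`.
-/

set_option autoImplicit false

open Set MeasureTheory Topology

namespace Pool.Agent.LRT

variable {n : ℕ}

private lemma E0_repr (x : RE n) (i : Fin n) : (bs n).repr x i = x i := by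
  unfold bs
  rw [OrthonormalBasis.coe_toBasis_repr_apply, EuclideanSpace.basisFun_repr]

private lemma E0_bs (i : Fin n) : bs n i = EuclideanSpace.single i (1 : ℝ) := by
  unfold bs
  rw [OrthonormalBasis.coe_toBasis, EuclideanSpace.basisFun_apply]

theorem bs_lin (m : Fin n → ℤ) (t : RE n) : Pool.H45.Mather.lin (bs n) m t = inner ℝ (lat m) t := by
  rw [Pool.H45.Mather.lin_apply, PiLp.inner_apply]
  refine Finset.sum_congr rfl fun i _ => ?_
  rw [E0_repr, lat_apply]
  simp [mul_comm]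

theorem bs_lat (m : Fin n → ℤ) : Pool.H45.Mather.lat (bs n) m = lat m := by
  unfold Pool.H45.Mather.lat
  ext j
  rw [lat_apply]
  simp [E0_bs, Finset.sum_apply, Pi.single_apply]

theorem bs_norm_lin (m : Fin n → ℤ) : ‖Pool.H45.Mather.lin (bs n) m‖ = ‖lat m‖ := by
  have h : Pool.H45.Mather.lin (bs n) m = innerSL ℝ (lat m) := by
    ext t
    rw [bs_lin]
    rfl
  rw [h, innerSL_apply_norm]

theorem bs_rv (k : Fin n → ℤ) : Pool.H45.Mather.rv (bs n) k = lat k := by
  refine ext_inner_right ℝ fun v => ?_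
  rw [Pool.H45.Mather.inner_rv, bs_lin]

theorem bs_per {α : Type*} {F : RE n → α} (h : ∀ (x : RE n) (k : Fin n → ℤ), F (x + lat k) = F x) :
    Pool.H45.Mather.Per (bs n) F := by
  intro i x
  have h1 : bs n i = lat (Pi.single i 1) := by
    rw [E0_bs]
    ext j
    rw [lat_apply]
    simp [Pi.single_apply]
  rw [h1]
  exact h x _

theorem bs_per' {α : Type*} {F : RE n → α} (h : Pool.H45.Mather.Per (bs n) F) (x : RE n)
    (k : Fin n → ℤ) : F (x + lat k) = F x := by
  rw [← bs_lat]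
  exact h.add_lat k x

theorem bs_ec (m : Fin n → ℤ) (t : RE n) : ec (bs n) m t = ch m (ofR t) := by
  unfold ec ch
  rw [dot_ofR, bs_lin]
  congr 1
  push_cast
  ring

end Pool.Agent.LRT
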