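import Pool.Agent.LRT.VR

/-! # LRT/VDe2: definitions for transport, Fourier part, assembly   (helper45) -/

set_option autoImplicit false

open MeasureTheory Module Set Filter Topology

namespace Pool.Agent.LRT

open Pool.H45.Mather

noncomputable section

variable {n : ℕ} {E : Type*} [NormedAddCommGroup E] [InnerProductSpace ℝ E]

/-- change of variables of the torus isotopic to the identity: `Θ`, `X` inverse to each other -/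
structure TrD (b : Basis (Fin n) ℝ E) (Θ X : E → E) : Prop where
  hΘ : ContDiff ℝ 1 Θ
  hX : ContDiff ℝ 1 X
  pΘ : Per b (fun x => Θ x - x)
  pX : Per b (fun x => X x - x)
  ΘX : ∀ t, Θ (X t) = t
  XΘ : ∀ x, X (Θ x) = x
  nΘ : ∀ x v, ‖fderiv ℝ Θ x v‖ ≤ 2 * ‖v‖
  nX : ∀ x v, ‖fderiv ℝ X x v‖ ≤ 2 * ‖v‖

lemma TrD.symm {b : Basis (Fin n) ℝ E} {Θ X : E → E} (h : TrD b Θ X) : TrD b X Θ :=
  ⟨h.hX, h.hΘ, h.pX, h.pΘ, h.XΘ, h.ΘX, h.nX, h.nΘ⟩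

/-- the tangent map -/
def tg (X : E → E) (z : E × E) : E × E := (X z.1, fderiv ℝ X z.1 z.2)

/-- the transported Lagrangian -/
def Ltr (L : E × E → ℝ) (c : E) (u : E → ℝ) (X : E → E) (z : E × E) : ℝ :=
  L (tg X z) - inner ℝ c (tg X z).2 - fderiv ℝ u (tg X z).1 (tg X z).2

/-- characters -/
def ec [FiniteDimensional ℝ E] (b : Basis (Fin n) ℝ E) (m : Fin n → ℤ) (t : E) : ℂ :=
  Complex.exp (((2 * Real.pi * lin b m t : ℝ) : ℂ) * Complex.I)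

/-- `m` is an integer multiple of `k` -/
def RsM (k m : Fin n → ℤ) : Prop := ∃ j : ℤ, m = j • k

/-- the rescaled Hamiltonian -/
def Hsc (l : ℝ) (H : E × E → ℝ) (z : E × E) : ℝ := H (z.1, l • z.2) / l ^ 2
/-- gradient of the rescaled Hamiltonian -/
def Hpsc (l : ℝ) (Hp : E × E → E) (z : E × E) : E := l⁻¹ • Hp (z.1, l • z.2)

/-- `C²` solutions `q x w` (class `c w`) of the Hamilton-Jacobi equation for all frequencies `‖w‖ < 1` -/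
structure LSol (b : Basis (Fin n) ℝ E) (H : E × E → ℝ) (Hp : E × E → E) (c : E → E) (q : E → E → E) :
    Prop where
  grad : ∀ w, ‖w‖ < 1 → ∃ φ : E → ℝ, ContDiff ℝ 2 φ ∧ Per b φ ∧
    ∀ x v, inner ℝ (q x w) v = inner ℝ (c w) v + fderiv ℝ φ x v
  hj : ∀ w, ‖w‖ < 1 → ∃ a, ∀ x, H (x, q x w) = a
  smallq : ∀ x w, ‖w‖ < 1 → ‖q x w - w‖ ≤ 1 / 20
  lipq : ∀ x x' w w', ‖w‖ < 1 → ‖w'‖ < 1 →
    ‖(q x w - w) - (q x' w' - w')‖ ≤ 1 / 20 * (‖x - x'‖ + ‖w - w'‖)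
  smallc : ∀ w, ‖w‖ < 1 → ‖c w - w‖ ≤ 1 / 20
  lipc : ∀ w w', ‖w‖ < 1 → ‖w'‖ < 1 → ‖(c w - w) - (c w' - w')‖ ≤ 1 / 20 * ‖w - w'‖
  conj : ∀ w, ‖w‖ < 1 → ∀ δ > 0, ∃ X : E → E, ContDiff ℝ 1 X ∧ Per b (fun x => X x - x) ∧
    Function.Surjective X ∧ (∀ t t', ‖X t - X t'‖ ≤ 2 * ‖t - t'‖) ∧
    ∀ t, ‖fderiv ℝ X t w - Hp (X t, q (X t) w)‖ ≤ δ

end

end Pool.Agent.LRT
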