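import Pool.Agent.LRT.CD
import Pool.Agent.LRT.VDe2

/-! # LRT/VH: smallness of the perturbation, scaling of the bounds   (helper45) -/

set_option autoImplicit false

open MeasureTheory Module Set Filter Topology

namespace Pool.Agent.LRT

noncomputable section

set_option linter.unusedSectionVars false
set_option linter.style.haveILetI false

/-- the standard basis -/
def bs (n : ℕ) : Basis (Fin n) ℝ (RE n) := (EuclideanSpace.basisFun (Fin n) ℝ).toBasis

variable {n : ℕ}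

/-- rescaled perturbation -/
def fsc (l : ℝ) (f : RE n × RE n → ℝ) (z : RE n × RE n) : ℝ := f (z.1, l • z.2) / l ^ 2

/-- the Hamiltonian `‖p‖²/2 + f(x,p)` -/
def Hm (f : RE n × RE n → ℝ) (z : RE n × RE n) : ℝ := ‖z.2‖ ^ 2 / 2 + f z

/-- its gradient in `p` -/
def Hmp (f : RE n × RE n → ℝ) (z : RE n × RE n) : RE n := z.2 + gradient (fun p => f (z.1, p)) z.2

/-- `C^s`-small at all scales `l ≥ 1` -/
structure Small (s : ℕ) (ε : ℝ) (f : RE n × RE n → ℝ) : Prop where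
  smooth : ContDiff ℝ s f
  per : ∀ p, Pool.H45.Mather.Per (bs n) (fun x => f (x, p))
  small : ∀ l : ℝ, 1 ≤ l → ∀ j ≤ s, ∀ x p, ‖p‖ ≤ 1 → ‖iteratedFDeriv ℝ j (fsc l f) (x, p)‖ ≤ ε

lemma Hsc_Hm (l : ℝ) (hl : 0 < l) (f : RE n × RE n → ℝ) : Hsc l (Hm f) = Hm (fsc l f) := by
  funext z
  unfold Hsc Hm fsc
  simp only [norm_smul, Real.norm_eq_abs, abs_of_pos hl]
  field_simp

lemma contDiff_fsc {s : ℕ} {f : RE n × RE n → ℝ} (hf : ContDiff ℝ s f) (l : ℝ) :
    ContDiff ℝ s (fsc l f) := by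
  unfold fsc
  exact (hf.comp (contDiff_fst.prodMk (contDiff_snd.const_smul l))).div_const _

/-- the linear map `(x,p) ↦ (x, r p)` -/
def scL (n : ℕ) (r : ℝ) : RE n × RE n →L[ℝ] RE n × RE n :=
  (ContinuousLinearMap.fst ℝ _ _).prod (r • ContinuousLinearMap.snd ℝ _ _)

lemma scL_apply (r : ℝ) (z : RE n × RE n) : scL n r z = (z.1, r • z.2) := rfl

lemma norm_scL {r : ℝ} (h0 : 0 ≤ r) (h1 : r ≤ 1) : ‖scL n r‖ ≤ 1 := by
  refine ContinuousLinearMap.opNorm_le_bound _ zero_le_one fun z => ?_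
  rw [scL_apply, one_mul, Prod.norm_def, Prod.norm_def]
  refine max_le_max le_rfl ?_
  rw [norm_smul, Real.norm_eq_abs, abs_of_nonneg h0]
  exact mul_le_of_le_one_left (norm_nonneg _) h1

/-- bounds at scale `l` for `‖p‖ ≤ κ` -/
lemma Small.big {s : ℕ} {ε : ℝ} {f : RE n × RE n → ℝ} (hf : Small s ε f) {l κ : ℝ} (hl : 1 ≤ l)
    (hκ : 1 ≤ κ) : ∀ j ≤ s, ∀ x p, ‖p‖ ≤ κ → ‖iteratedFDeriv ℝ j (fsc l f) (x, p)‖ ≤ κ ^ 2 * ε := by
  intro j hj x p hp
  have hκ0 : 0 < κ := by linarith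
  have h1 : fsc l f = (κ ^ 2) • (fsc (κ * l) f ∘ scL n κ⁻¹) := by
    funext z
    simp only [fsc, Function.comp, scL_apply, smul_eq_mul, smul_smul, Pi.smul_apply]
    have e1 : κ * l * κ⁻¹ = l := by field_simp
    rw [e1]
    field_simp
  have hsm : ContDiff ℝ s (fsc (κ * l) f) := contDiff_fsc hf.smooth _
  have hsmj : ContDiff ℝ j (fsc (κ * l) f) := hsm.of_le (by exact_mod_cast hj)
  rw [h1, iteratedFDeriv_const_smul_apply (hsmj.comp (scL n κ⁻¹).contDiff).contDiffAt,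
    norm_smul, Real.norm_eq_abs, abs_of_nonneg (by positivity)]
  refine mul_le_mul_of_nonneg_left ?_ (by positivity)
  rw [ContinuousLinearMap.iteratedFDeriv_comp_right _ hsmj _ le_rfl]
  refine (ContinuousMultilinearMap.norm_compContinuousLinearMap_le _ _).trans ?_
  have h2 : ‖iteratedFDeriv ℝ j (fsc (κ * l) f) (scL n κ⁻¹ (x, p))‖ ≤ ε := by
    rw [scL_apply]
    refine hf.small _ (by nlinarith) j hj _ _ ?_
    rw [norm_smul, Real.norm_eq_abs, abs_of_pos (inv_pos.2 hκ0)]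
    rw [inv_mul_le_iff₀ hκ0]
    simpa using hp
  have h3 : ∏ _i : Fin j, ‖scL n κ⁻¹‖ ≤ 1 :=
    Finset.prod_le_one (fun _ _ => norm_nonneg _) (fun _ _ => norm_scL (inv_nonneg.2 hκ0.le) (inv_le_one_of_one_le₀ hκ))
  calc _ ≤ ‖iteratedFDeriv ℝ j (fsc (κ * l) f) (scL n κ⁻¹ (x, p))‖ * 1 :=
        mul_le_mul_of_nonneg_left h3 (norm_nonneg _)
    _ ≤ ε := by rw [mul_one]; exact h2

/-- second derivative in `p` is small everywhere -/
lemma Small.fpp {s : ℕ} (hs : 2 ≤ s) {ε : ℝ} {f : RE n × RE n → ℝ} (hf : Small s ε f) (x p : RE n) :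
    ‖iteratedFDeriv ℝ 2 (fun q => f (x, q)) p‖ ≤ ε := by
  set l : ℝ := max 1 ‖p‖ with hl
  have hl1 : 1 ≤ l := le_max_left _ _
  have hl0 : 0 < l := by linarith
  set A : RE n →L[ℝ] RE n × RE n := (ContinuousLinearMap.inr ℝ (RE n) (RE n)).comp (l⁻¹ • ContinuousLinearMap.id ℝ (RE n)) with hA
  have h1 : (fun q => f (x, q)) = (l ^ 2) • ((fun z => fsc l f ((x, 0) + z)) ∘ A) := by
    funext q
    simp only [fsc, Function.comp, smul_eq_mul, Pi.smul_apply, hA, ContinuousLinearMap.comp_apply,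
      smul_apply, ContinuousLinearMap.id_apply, ContinuousLinearMap.inr_apply, Prod.mk_add_mk, add_zero, zero_add,
      smul_smul]
    have e1 : l * l⁻¹ = 1 := by field_simp
    rw [e1, one_smul]
    field_simp
  have hsm : ContDiff ℝ 2 (fsc l f) := (contDiff_fsc hf.smooth _).of_le (by exact_mod_cast hs)
  have hsm2 : ContDiff ℝ 2 (fun z => fsc l f ((x, 0) + z)) := hsm.comp (contDiff_const.add contDiff_id)
  rw [h1, iteratedFDeriv_const_smul_apply (hsm2.comp A.contDiff).contDiffAt,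
    norm_smul, Real.norm_eq_abs, abs_of_nonneg (by positivity)]
  rw [ContinuousLinearMap.iteratedFDeriv_comp_right _ hsm2 _ le_rfl]
  have h2 : ‖iteratedFDeriv ℝ 2 (fun z => fsc l f ((x, 0) + z)) (A p)‖ ≤ ε := by
    rw [iteratedFDeriv_comp_add_left]
    have e1 : (x, 0) + A p = (x, l⁻¹ • p) := by
      simp [hA]
    rw [e1]
    refine hf.small _ hl1 2 hs _ _ ?_
    rw [norm_smul, Real.norm_eq_abs, abs_of_pos (inv_pos.2 hl0), inv_mul_le_iff₀ hl0, mul_one]
    exact le_max_right _ _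
  have hAn : ‖A‖ ≤ l⁻¹ := by
    refine ContinuousLinearMap.opNorm_le_bound _ (inv_nonneg.2 hl0.le) fun z => ?_
    simp [hA, norm_smul, abs_of_pos hl0]
    positivity
  have h3 : ∏ _i : Fin 2, ‖A‖ ≤ (l⁻¹) ^ 2 := by
    rw [Finset.prod_const, Finset.card_univ, Fintype.card_fin]
    exact pow_le_pow_left₀ (norm_nonneg _) hAn 2
  have h4 := (ContinuousMultilinearMap.norm_compContinuousLinearMap_le
    (iteratedFDeriv ℝ 2 (fun z => fsc l f ((x, 0) + z)) (A p)) (fun _ => A))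
  have h5 : ‖iteratedFDeriv ℝ 2 (fun z => fsc l f ((x, 0) + z)) (A p)‖ * ∏ _i : Fin 2, ‖A‖ ≤ ε * (l⁻¹) ^ 2 :=
    mul_le_mul h2 h3 (Finset.prod_nonneg fun _ _ => norm_nonneg _) ((norm_nonneg _).trans h2)
  have h6 := h4.trans h5
  calc _ ≤ l ^ 2 * (ε * (l⁻¹) ^ 2) := mul_le_mul_of_nonneg_left h6 (by positivity)
    _ = ε := by field_simp

/-- quadratic Taylor estimate -/
lemma taylor_quad {g : RE n → ℝ} (hg : ContDiff ℝ 2 g) {κ : ℝ}
    (h2 : ∀ p, ‖iteratedFDeriv ℝ 2 g p‖ ≤ κ) (p q : RE n) :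
    |g (p + q) - g p - inner ℝ (gradient g p) q| ≤ κ * ‖q‖ ^ 2 := by
  have hd : ∀ y, HasFDerivAt g (fderiv ℝ g y) y := fun y => (hg.differentiable two_ne_zero y).hasFDerivAt
  have hd1 : ContDiff ℝ 1 (fderiv ℝ g) := hg.fderiv_right (by norm_num)
  have hlip : ∀ y z, ‖fderiv ℝ g y - fderiv ℝ g z‖ ≤ κ * ‖y - z‖ := by
    intro y z
    refine Convex.norm_image_sub_le_of_norm_fderiv_le (𝕜 := ℝ) (s := univ)
      (fun x _ => hd1.differentiable one_ne_zero x) (fun x _ => ?_) convex_univ (mem_univ _) (mem_univ _)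
    rw [← norm_iteratedFDeriv_one]
    have := h2 x
    rwa [← norm_iteratedFDeriv_fderiv (n := 1)] at this
  have hgr : inner ℝ (gradient g p) q = fderiv ℝ g p q := by
    rw [gradient, InnerProductSpace.toDual_symm_apply]
  rw [hgr]
  have h3 := Convex.norm_image_sub_le_of_norm_hasFDerivWithin_le' (𝕜 := ℝ) (f := g) (f' := fderiv ℝ g) (φ := fderiv ℝ g p)
    (s := Metric.closedBall p ‖q‖) (C := κ * ‖q‖) (x := p) (y := p + q)
    (fun x _ => (hd x).hasFDerivWithinAt) (fun x hx => by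
      refine (hlip x p).trans ?_
      have hκ : 0 ≤ κ := (norm_nonneg _).trans (h2 p)
      refine mul_le_mul_of_nonneg_left ?_ hκ
      rw [← dist_eq_norm]
      exact hx) (convex_closedBall _ _) (Metric.mem_closedBall_self (norm_nonneg _)) (by
      rw [Metric.mem_closedBall, dist_eq_norm]
      simp)
  rw [add_sub_cancel_left, Real.norm_eq_abs] at h3
  calc _ ≤ _ := h3
    _ = κ * ‖q‖ ^ 2 := by ring

/-- the general criterion -/
lemma hamC_of_fpp {f : RE n × RE n → ℝ} (hf2 : ContDiff ℝ 2 f)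
    (hper : ∀ p, Pool.H45.Mather.Per (bs n) (fun x => f (x, p)))
    (hpp : ∀ x p, ‖iteratedFDeriv ℝ 2 (fun q => f (x, q)) p‖ ≤ 1 / 4) : HamC (bs n) (Hm f) (Hmp f) := by
  have hfx : ∀ x, ContDiff ℝ 2 (fun q => f (x, q)) := fun x => hf2.comp (contDiff_const.prodMk contDiff_id)
  have hgr : ∀ z, gradient (fun q => f (z.1, q)) z.2 = (InnerProductSpace.toDual ℝ (RE n)).symm
      ((fderiv ℝ f z).comp (ContinuousLinearMap.inr ℝ (RE n) (RE n))) := by
    intro z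
    rw [gradient]
    congr 1
    have h1 : HasFDerivAt f (fderiv ℝ f z) z := (hf2.differentiable two_ne_zero z).hasFDerivAt
    have h2 : HasFDerivAt (fun q : RE n => (z.1, q)) (ContinuousLinearMap.inr ℝ (RE n) (RE n)) z.2 := by
      exact hasFDerivAt_prodMk_right z.1 z.2
    exact (HasFDerivAt.comp (f := fun q : RE n => (z.1, q)) z.2 h1 h2).fderiv
  refine ⟨?_, ?_, ?_, ?_, ?_⟩
  · unfold Hm
    have := hf2.continuous
    fun_prop
  · have h1 : Hmp f = fun z => z.2 + (InnerProductSpace.toDual ℝ (RE n)).symm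
        ((fderiv ℝ f z).comp (ContinuousLinearMap.inr ℝ (RE n) (RE n))) := by
      funext z
      rw [Hmp, hgr]
    rw [h1]
    have h2 : Continuous (fderiv ℝ f) := hf2.continuous_fderiv two_ne_zero
    exact continuous_snd.add ((InnerProductSpace.toDual ℝ (RE n)).symm.continuous.comp (h2.clm_comp continuous_const))
  · intro p i x
    simp only [Hm, hper p i x]
  · intro x p q
    have h1 := taylor_quad (hfx x) (hpp x) p q
    rw [abs_le] at h1
    simp only [Hm, Hmp, inner_add_left]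
    have h2 : ‖p + q‖ ^ 2 = ‖p‖ ^ 2 + 2 * inner ℝ p q + ‖q‖ ^ 2 := norm_add_sq_real p q
    rw [h2]
    linarith [h1.1]
  · intro x p q
    have h1 := taylor_quad (hfx x) (hpp x) p q
    rw [abs_le] at h1
    simp only [Hm, Hmp, inner_add_left]
    have h2 : ‖p + q‖ ^ 2 = ‖p‖ ^ 2 + 2 * inner ℝ p q + ‖q‖ ^ 2 := norm_add_sq_real p q
    rw [h2]
    nlinarith [h1.2, sq_nonneg ‖q‖]

lemma hamC_of_small {s : ℕ} (hs : 2 ≤ s) {ε : ℝ} (hε : ε ≤ 1 / 4) {f : RE n × RE n → ℝ} (hf : Small s ε f) :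
    HamC (bs n) (Hm f) (Hmp f) :=
  hamC_of_fpp (hf.smooth.of_le (by exact_mod_cast hs)) hf.per fun x p => (hf.fpp hs x p).trans hε

/-- from the full second derivative -/
lemma fpp_of_full {f : RE n × RE n → ℝ} (hf2 : ContDiff ℝ 2 f) {ε : ℝ} {x p : RE n}
    (h : ‖iteratedFDeriv ℝ 2 f (x, p)‖ ≤ ε) : ‖iteratedFDeriv ℝ 2 (fun q => f (x, q)) p‖ ≤ ε := by
  set A : RE n →L[ℝ] RE n × RE n := ContinuousLinearMap.inr ℝ (RE n) (RE n) with hA
  have h1 : (fun q => f (x, q)) = (fun z => f ((x, 0) + z)) ∘ A := by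
    funext q
    simp only [Function.comp, hA, ContinuousLinearMap.inr_apply, Prod.mk_add_mk, add_zero, zero_add]
  have hsm2 : ContDiff ℝ 2 (fun z => f ((x, 0) + z)) := hf2.comp (contDiff_const.add contDiff_id)
  rw [h1, ContinuousLinearMap.iteratedFDeriv_comp_right _ hsm2 _ le_rfl]
  have h2 : ‖iteratedFDeriv ℝ 2 (fun z => f ((x, 0) + z)) (A p)‖ ≤ ε := by
    rw [iteratedFDeriv_comp_add_left]
    have e1 : (x, 0) + A p = (x, p) := by simp [hA]
    rw [e1]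
    exact h
  have hAn : ‖A‖ ≤ 1 := ContinuousLinearMap.opNorm_le_bound _ zero_le_one fun z => by simp [hA]
  have h3 : ∏ _i : Fin 2, ‖A‖ ≤ 1 := Finset.prod_le_one (fun _ _ => norm_nonneg _) (fun _ _ => hAn)
  refine (ContinuousMultilinearMap.norm_compContinuousLinearMap_le _ _).trans ?_
  calc _ ≤ ‖iteratedFDeriv ℝ 2 (fun z => f ((x, 0) + z)) (A p)‖ * 1 := mul_le_mul_of_nonneg_left h3 (norm_nonneg _)
    _ ≤ ε := by rw [mul_one]; exact h2

/-- derivatives of `f_l`, `l ≥ 1` -/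
lemma bound_fsc {s : ℕ} {f : RE n × RE n → ℝ} (hf : ContDiff ℝ s f) {l : ℝ} (hl : 1 ≤ l) {ε : ℝ} {j : ℕ} (hj : j ≤ s)
    {x p : RE n} (h : ‖iteratedFDeriv ℝ j f (x, l • p)‖ ≤ ε) : ‖iteratedFDeriv ℝ j (fsc l f) (x, p)‖ ≤ l ^ s * ε := by
  have hl0 : 0 < l := by linarith
  have hfj : ContDiff ℝ j f := hf.of_le (by exact_mod_cast hj)
  have hε : 0 ≤ ε := (norm_nonneg _).trans h
  have h1 : fsc l f = ((l ^ 2)⁻¹) • (f ∘ scL n l) := by
    funext z
    simp only [fsc, Function.comp, scL_apply, smul_eq_mul, Pi.smul_apply]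
    field_simp
  rw [h1, iteratedFDeriv_const_smul_apply (hfj.comp (scL n l).contDiff).contDiffAt,
    norm_smul, Real.norm_eq_abs, abs_of_nonneg (by positivity)]
  rw [ContinuousLinearMap.iteratedFDeriv_comp_right _ hfj _ le_rfl]
  have hAn : ‖scL n l‖ ≤ l := by
    refine ContinuousLinearMap.opNorm_le_bound _ hl0.le fun z => ?_
    rw [scL_apply, Prod.norm_def, Prod.norm_def]
    refine max_le ?_ ?_
    · calc ‖z.1‖ ≤ 1 * max ‖z.1‖ ‖z.2‖ := by rw [one_mul]; exact le_max_left _ _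
        _ ≤ l * max ‖z.1‖ ‖z.2‖ := mul_le_mul_of_nonneg_right hl (le_max_of_le_left (norm_nonneg _))
    · rw [norm_smul, Real.norm_eq_abs, abs_of_pos hl0]
      exact mul_le_mul_of_nonneg_left (le_max_right _ _) hl0.le
  have h3 : ∏ _i : Fin j, ‖scL n l‖ ≤ l ^ s := by
    rw [Finset.prod_const, Finset.card_univ, Fintype.card_fin]
    exact (pow_le_pow_left₀ (norm_nonneg _) hAn j).trans (pow_le_pow_right₀ hl hj)
  have h4 := ContinuousMultilinearMap.norm_compContinuousLinearMap_le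
    (iteratedFDeriv ℝ j f (scL n l (x, p))) (fun _ => scL n l)
  have h5 : ‖iteratedFDeriv ℝ j f (scL n l (x, p))‖ * ∏ _i : Fin j, ‖scL n l‖ ≤ ε * l ^ s :=
    mul_le_mul h h3 (Finset.prod_nonneg fun _ _ => norm_nonneg _) hε
  have h6 : (l ^ 2)⁻¹ ≤ 1 := inv_le_one_of_one_le₀ (one_le_pow₀ hl)
  have h7 : 0 ≤ ε * l ^ s := by positivity
  calc _ ≤ (l ^ 2)⁻¹ * (ε * l ^ s) := mul_le_mul_of_nonneg_left (h4.trans h5) (by positivity)
    _ ≤ 1 * (ε * l ^ s) := mul_le_mul_of_nonneg_right h6 h7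
    _ = _ := by ring

end

end Pool.Agent.LRT
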