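import Pool.Agent.LRT.NS
import Pool.Agent.LRT.VH

/-!
Block E (resonance exponents): definitions.  `v = n + 4`, `M = MM n = 200 v²`.
-/

set_option autoImplicit false

open Set MeasureTheory Topology

namespace Pool.Agent.LRT

noncomputable section

/-- lower bound of the small divisors -/
def Gam (n : ℕ) (ρ : ℝ) : ℝ := ρ ^ (50 * (n + 4) ^ 2)
/-- density time -/
def Tim (n : ℕ) (ρ : ℝ) : ℝ := (ρ ^ (100 * (n + 4) ^ 2 - 3 * (n + 4) - 4))⁻¹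
/-- density radius -/
def Rad (n : ℕ) (ρ : ℝ) : ℝ := ρ ^ (6 * (n + 4))
/-- number of harmonics -/
def Qn (n : ℕ) (ρ : ℝ) : ℕ := ⌈(ρ ^ (18 * (n + 4)))⁻¹⌉₊
/-- bound of the resonant coefficients -/
def Az (n : ℕ) (ρ : ℝ) : ℝ := ρ ^ (MM n + 4 * (n + 4))
/-- bound of the sum of the coefficients -/
def Bz (n : ℕ) (ρ : ℝ) : ℝ := ρ ^ (MM n - (n + 4))
/-- accuracy -/
def Ez (n : ℕ) (ρ : ℝ) : ℝ := ρ ^ (MM n + 5 * (n + 4))
/-- bound of the velocity error -/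
def Eta (n : ℕ) (ρ : ℝ) : ℝ := ρ ^ (MM n - 2)
/-- distance of the good frequency -/
def Tau (n : ℕ) (ρ : ℝ) : ℝ := ρ ^ (5 * (n + 4))

end

end Pool.Agent.LRT
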