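import Pool.Agent.LRT.C2
import Pool.Agent.LRT.C5
import Pool.Agent.LRT.ED

/-!
E1 (difficulty 2).  The Fourier coefficients change little between near real frequencies.

PROOF.  `coef_lip`: `g = coef G m` is differentiable on `Dw σ R` (`coef_hol`) and `‖g‖ ≤ B` there (`coef_bound`, the
exponential factor is `≤ 1`, `0 ≤ B` from any point, or from the norm bound itself).  For every point `p` of the real segment
from `ofR w` to `ofR w'` (`p = ofR x`, `‖x‖ < R - σ/4` by convexity of the ball), `Metric.ball p (σ/4) ⊆ Dw σ R`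
(`ball_subset_Dw`, `d = σ/4`), so `‖fderiv ℂ g p‖ ≤ B / (σ/4)` (`cauchy_fderiv`).  Mean value inequality on the segment
(`Convex.norm_image_sub_le_of_norm_fderiv_le` over `ℂ` on `segment ℝ (ofR w) (ofR w')`, or over `ℝ` for
`x ↦ g (ofR x)` on `Metric.ball 0 (R - σ/4)`), `‖ofR w - ofR w'‖ = ‖w - w'‖` (`norm_ofR`, `ofR_sub`).
`coef_near`: `σ = ρ/2`, `B = ρ^M`: `4 B / σ * τ = 8 ρ^(M - 1) ρ^(5v) ≤ ρ^(M + 4v)` when `8 ρ^(v-1) ≤ 1`, `v = n + 4`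
(`ρ ≤ 1/8` and `v - 1 ≥ 1`).  `‖w'‖ < R - ρ/4 + ρ^(5v) ≤ R - ρ/8 = R - σ/4` as `ρ^(5v) ≤ ρ * ρ ≤ ρ/8`.
-/

set_option autoImplicit false

open Set MeasureTheory Topology

namespace Pool.Agent.LRT

variable {n : ℕ}

theorem coef_lip {σ R B : ℝ} (hσ : 0 < σ) {G : CE n × CE n → ℂ}
    (hG : DifferentiableOn ℂ G (D σ R)) (hp : PerX σ R G) (hB : ∀ z ∈ D σ R, ‖G z‖ ≤ B)
    (m : Fin n → ℤ) {w w' : RE n} (hw : ‖w‖ < R - σ / 4) (hw' : ‖w'‖ < R - σ / 4) :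
    ‖coef G m (ofR w) - coef G m (ofR w')‖ ≤ 4 * B / σ * ‖w - w'‖ := by
  have hgd := coef_hol hσ hG m
  have hmem : ∀ x : RE n, ‖x‖ < R - σ / 4 → ofR x ∈ (Dw (σ - σ / 4) (R - σ / 4) : Set (CE n)) :=
    fun x hx => ofR_mem_Dw (by linarith) hx
  have hw2 : ofR w ∈ (Dw σ R : Set (CE n)) := Dw_mono (by linarith) (by linarith) (hmem w hw)
  have hB0 : 0 ≤ B := by
    refine (norm_nonneg _).trans (hB ((0 : CE n), ofR w) ⟨?_, hw2.1, hw2.2⟩)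
    have : im (0 : CE n) = 0 := by
      ext i
      simp
    rw [this, norm_zero]
    exact hσ
  have hb : ∀ y ∈ (Dw σ R : Set (CE n)), ‖coef G m y‖ ≤ B := by
    intro y hy
    refine (coef_bound hσ hG hp hB m hy).trans ?_
    have h1 : Real.exp (-(2 * Real.pi * σ * ‖lat m‖)) ≤ 1 := by
      rw [Real.exp_le_one_iff]
      have := Real.pi_pos
      have h2 : 0 ≤ 2 * Real.pi * σ * ‖lat m‖ := by positivity
      linarith
    calc B * Real.exp (-(2 * Real.pi * σ * ‖lat m‖)) ≤ B * 1 := mul_le_mul_of_nonneg_left h1 hB0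
      _ = B := mul_one B
  have hs4 : 0 < σ / 4 := by linarith
  have hfd : ∀ p ∈ (Dw (σ - σ / 4) (R - σ / 4) : Set (CE n)),
      ‖fderiv ℂ (coef G m) p‖ ≤ 4 * B / σ := by
    intro p hp'
    have hsub : Metric.ball p (σ / 4) ⊆ (Dw σ R : Set (CE n)) := ball_subset_Dw hp'
    refine (cauchy_fderiv hs4 (hgd.mono hsub) fun y hy => hb y (hsub hy)).trans (le_of_eq ?_)
    field_simp
  have hda : ∀ p ∈ (Dw (σ - σ / 4) (R - σ / 4) : Set (CE n)),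
      DifferentiableAt ℂ (coef G m) p := fun p hp' =>
    hgd.differentiableAt ((isOpen_Dw σ R).mem_nhds
      (Dw_mono (by linarith) (by linarith) hp'))
  have h := (convex_Dw (n := n) (σ - σ / 4) (R - σ / 4)).norm_image_sub_le_of_norm_fderiv_le
    (𝕜 := ℂ) hda hfd (hmem w' hw') (hmem w hw)
  rwa [← ofR_sub, norm_ofR] at h

theorem coef_near (n : ℕ) : ∃ ρ₀ : ℝ, 0 < ρ₀ ∧ ∀ ρ R : ℝ, 0 < ρ → ρ ≤ ρ₀ → ∀ G : CE n × CE n → ℂ,
    DifferentiableOn ℂ G (D (ρ / 2) R) → PerX (ρ / 2) R G → (∀ z ∈ D (ρ / 2) R, ‖G z‖ ≤ ρ ^ MM n) →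
    ∀ (m : Fin n → ℤ) (w w' : RE n), ‖w‖ < R - ρ / 4 → ‖w' - w‖ ≤ Tau n ρ →
    ‖w'‖ < R - ρ / 8 ∧ ‖coef G m (ofR w) - coef G m (ofR w')‖ ≤ Az n ρ := by
  refine ⟨1 / 8, by norm_num, ?_⟩
  intro ρ R hρ hρ8 G hG hp hB m w w' hw hww
  have hρ1 : ρ ≤ 1 := by linarith
  have hsq : ∀ k : ℕ, 2 ≤ k → ρ ^ k ≤ ρ / 8 := by
    intro k hk
    calc ρ ^ k ≤ ρ ^ 2 := pow_le_pow_of_le_one hρ.le hρ1 hk
      _ = ρ * ρ := by ring
      _ ≤ ρ * (1 / 8) := mul_le_mul_of_nonneg_left hρ8 hρ.le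
      _ = ρ / 8 := by ring
  have hTau : Tau n ρ ≤ ρ / 8 := by
    unfold Tau
    exact hsq _ (by omega)
  have hw' : ‖w'‖ < R - ρ / 8 := by
    have h1 : ‖w'‖ ≤ ‖w‖ + ‖w' - w‖ := by
      have := norm_add_le w (w' - w)
      rwa [add_sub_cancel] at this
    linarith
  refine ⟨hw', ?_⟩
  have h2 := coef_lip (σ := ρ / 2) (R := R) (B := ρ ^ MM n) (by linarith) hG hp hB m
    (w := w) (w' := w') (by linarith) (by linarith)
  refine h2.trans ?_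
  rw [norm_sub_rev] at hww
  have h3 : 4 * ρ ^ MM n / (ρ / 2) * ‖w - w'‖ ≤ 4 * ρ ^ MM n / (ρ / 2) * Tau n ρ :=
    mul_le_mul_of_nonneg_left hww (by positivity)
  refine h3.trans ?_
  unfold Tau Az
  have h4 : ρ ^ (5 * (n + 4)) = ρ ^ (n + 4) * ρ ^ (4 * (n + 4)) := by
    rw [← pow_add]
    congr 1
    ring
  have h5 : ρ ^ (n + 4) ≤ ρ / 8 := hsq _ (by omega)
  rw [h4, pow_add ρ (MM n)]
  have h6 : 0 ≤ ρ ^ MM n * ρ ^ (4 * (n + 4)) := by positivity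
  calc 4 * ρ ^ MM n / (ρ / 2) * (ρ ^ (n + 4) * ρ ^ (4 * (n + 4)))
      = (8 / ρ * ρ ^ (n + 4)) * (ρ ^ MM n * ρ ^ (4 * (n + 4))) := by
        field_simp
        norm_num
    _ ≤ (8 / ρ * (ρ / 8)) * (ρ ^ MM n * ρ ^ (4 * (n + 4))) := by
        refine mul_le_mul_of_nonneg_right ?_ h6
        exact mul_le_mul_of_nonneg_left h5 (by positivity)
    _ = ρ ^ MM n * ρ ^ (4 * (n + 4)) := by
        have : 8 / ρ * (ρ / 8) = 1 := by field_simp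
        rw [this, one_mul]

end Pool.Agent.LRT
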