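import Pool.Agent.LRT.ED

/-!
E2 (difficulty 2).  Primitive integer vectors.

PROOF.  `exists_prim`: `j = gcd` of the coordinates (`Finset.gcd Finset.univ m`, as a natural number or integer; `j ≠ 0` since
`m ≠ 0`, `Finset.gcd_eq_zero_iff`), `m i = j * k i` (`Finset.gcd_dvd`), and `gcd k = 1`
(`Finset.exists_gcd_eq_mul_add`-type lemmas, or directly: by Bezout `Finset.gcd_eq_..`: the ideal generated by the `m i` is
`(j)`, so `∑ u i * m i = j`, divide by `j`; e.g. `Ideal.span (Set.range m)` is principal: generator `j`, every `m i = k i * j`,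
`j = ∑ u i * m i` by `Ideal.mem_span_range_iff_exists_fun`/`Submodule.mem_span_range_iff_exists_fun`; this avoids gcd).
`|k i| ≤ |j| |k i| = |m i|` gives the box.
`norm_lat_ge`: some coordinate is nonzero, `|k i| ≥ 1`, `|x i| ≤ ‖x‖` (`PiLp.norm_apply_le`).
`norm_lat_le`: `‖x‖ ≤ ∑ |x i| ≤ n K` (`EuclideanSpace.norm_eq`, `Real.sqrt_le_left`..., or `x = ∑ x i • single i 1` and the
triangle inequality).
`bx_norm`: `K = ⌈(ρ^2)⁻¹⌉₊ ≤ (ρ^2)⁻¹ + 1 ≤ 2 (ρ^2)⁻¹`, `n K ≤ 2 n (ρ^2)⁻¹ ≤ (ρ^3)⁻¹` for `ρ ≤ 1/(2n+1)`, and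
`K ≤ Qn n ρ` since `ρ^2 ≥ ρ^(18v)` (`Nat.ceil_mono`).
-/

set_option autoImplicit false

open Set MeasureTheory Topology

namespace Pool.Agent.LRT

variable {n : ℕ}

theorem exists_prim {m : Fin n → ℤ} (hm : m ≠ 0) : ∃ (j : ℤ) (k u : Fin n → ℤ), j ≠ 0 ∧ m = j • k ∧
    ∑ i, u i * k i = 1 ∧ ∀ K : ℕ, m ∈ bx n K → k ∈ bx n K := by
  set I : Ideal ℤ := Ideal.span (Set.range m) with hI
  set j : ℤ := Submodule.IsPrincipal.generator I with hj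
  have h1 : ∀ i, ∃ s : ℤ, m i = s * j := by
    intro i
    have h2 : m i ∈ I := Ideal.subset_span ⟨i, rfl⟩
    obtain ⟨s, hs⟩ := (Submodule.IsPrincipal.mem_iff_eq_smul_generator I).1 h2
    exact ⟨s, hs⟩
  choose k hk using h1
  have hj0 : j ≠ 0 := by
    intro h0
    apply hm
    funext i
    rw [hk i, h0, mul_zero]
    rfl
  have h3 : j ∈ I := Submodule.IsPrincipal.generator_mem I
  obtain ⟨u, hu⟩ := (Submodule.mem_span_range_iff_exists_fun ℤ).1 h3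
  refine ⟨j, k, u, hj0, ?_, ?_, ?_⟩
  · funext i
    rw [Pi.smul_apply, smul_eq_mul, hk i, mul_comm]
  · have h4 : (∑ i, u i * k i) * j = 1 * j := by
      rw [Finset.sum_mul, one_mul]
      rw [← hu]
      refine Finset.sum_congr rfl fun i _ => ?_
      rw [smul_eq_mul, hk i, hu, mul_assoc]
    exact mul_right_cancel₀ hj0 h4
  · intro K hK
    rw [mem_bx] at hK ⊢
    intro i
    refine le_trans ?_ (hK i)
    rw [hk i, abs_mul]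
    have h5 : 1 ≤ |j| := Int.one_le_abs hj0
    have h6 : 0 ≤ |k i| := abs_nonneg _
    nlinarith

theorem norm_lat_ge {k : Fin n → ℤ} (hk : k ≠ 0) : 1 ≤ ‖lat k‖ := by
  obtain ⟨i, hi⟩ := Function.ne_iff.1 hk
  have h1 : ‖lat k i‖ ≤ ‖lat k‖ := PiLp.norm_apply_le _ i
  refine le_trans ?_ h1
  rw [lat_apply, Real.norm_eq_abs]
  have h2 : 1 ≤ |k i| := Int.one_le_abs hi
  exact_mod_cast h2

theorem norm_lat_le {k : Fin n → ℤ} {K : ℕ} (hk : k ∈ bx n K) : ‖lat k‖ ≤ n * K := by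
  rw [mem_bx] at hk
  rw [EuclideanSpace.norm_eq]
  refine Real.sqrt_le_iff.2 ⟨by positivity, ?_⟩
  calc ∑ i, ‖lat k i‖ ^ 2 ≤ ∑ _i : Fin n, (K : ℝ) ^ 2 := by
        refine Finset.sum_le_sum fun i _ => ?_
        refine pow_le_pow_left₀ (norm_nonneg _) ?_ 2
        rw [lat_apply, Real.norm_eq_abs]
        exact_mod_cast hk i
    _ = n * (K : ℝ) ^ 2 := by
        rw [Finset.sum_const, Finset.card_univ, Fintype.card_fin, nsmul_eq_mul]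
    _ ≤ (n * (K : ℝ)) ^ 2 := by
        rw [mul_pow]
        have h1 : (n : ℝ) ≤ (n : ℝ) ^ 2 := by
          have : n ≤ n ^ 2 := Nat.le_self_pow (by norm_num) n
          exact_mod_cast this
        exact mul_le_mul_of_nonneg_right h1 (by positivity)

theorem bx_norm (n : ℕ) : ∃ ρ₀ : ℝ, 0 < ρ₀ ∧ ∀ ρ : ℝ, 0 < ρ → ρ ≤ ρ₀ →
    ⌈(ρ ^ 2)⁻¹⌉₊ ≤ Qn n ρ ∧ ∀ k ∈ bx n ⌈(ρ ^ 2)⁻¹⌉₊, ‖lat k‖ ≤ (ρ ^ 3)⁻¹ := by
  refine ⟨1 / (2 * n + 1), by positivity, ?_⟩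
  intro ρ hρ hρ0
  have h0 : (2 * (n : ℝ) + 1) * ρ ≤ 1 := by
    rw [le_div_iff₀ (by positivity)] at hρ0
    linarith
  have hρ1 : ρ ≤ 1 := by
    have : 0 ≤ (n : ℝ) * ρ := by positivity
    nlinarith
  refine ⟨?_, ?_⟩
  · unfold Qn
    refine Nat.ceil_mono ?_
    refine inv_anti₀ (by positivity) ?_
    exact pow_le_pow_of_le_one hρ.le hρ1 (by omega)
  · intro k hk
    refine (norm_lat_le hk).trans ?_
    have h1 : (⌈(ρ ^ 2)⁻¹⌉₊ : ℝ) < (ρ ^ 2)⁻¹ + 1 := Nat.ceil_lt_add_one (by positivity)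
    have h2 : 1 ≤ (ρ ^ 2)⁻¹ := (one_le_inv₀ (by positivity)).2 (pow_le_one₀ hρ.le hρ1)
    have h3 : (⌈(ρ ^ 2)⁻¹⌉₊ : ℝ) ≤ 2 * (ρ ^ 2)⁻¹ := by linarith
    have h4 : (ρ ^ 3)⁻¹ = (ρ ^ 2)⁻¹ * ρ⁻¹ := by
      rw [pow_succ, mul_inv]
    have h5 : 2 * (n : ℝ) ≤ ρ⁻¹ := by
      have h6 : 2 * (n : ℝ) * ρ ≤ 1 := by linarith
      calc 2 * (n : ℝ) = 2 * (n : ℝ) * ρ * ρ⁻¹ := by rw [mul_assoc, mul_inv_cancel₀ hρ.ne', mul_one]
        _ ≤ 1 * ρ⁻¹ := mul_le_mul_of_nonneg_right h6 (by positivity)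
        _ = ρ⁻¹ := one_mul _
    calc (n : ℝ) * (⌈(ρ ^ 2)⁻¹⌉₊ : ℝ) ≤ n * (2 * (ρ ^ 2)⁻¹) := mul_le_mul_of_nonneg_left h3 (by positivity)
      _ = (ρ ^ 2)⁻¹ * (2 * n) := by ring
      _ ≤ (ρ ^ 2)⁻¹ * ρ⁻¹ := mul_le_mul_of_nonneg_left h5 (by positivity)
      _ = (ρ ^ 3)⁻¹ := h4.symm

end Pool.Agent.LRT
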