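import Pool.Agent.LRT.A3
import Pool.Agent.LRT.A5
import Pool.Agent.LRT.ED

/-!
E4 (difficulty 3).  Good frequencies near a resonant one, with density time `Tim n ρ` at the scale `Rad n ρ`.

PROOF.  `v = n + 4`, `Q = Qn n ρ = ⌈(ρ^(18v))⁻¹⌉₊`, so `(ρ^(18v))⁻¹ ≤ Q ≤ (ρ^(18v))⁻¹ + 1 ≤ 2 (ρ^(18v))⁻¹` (`ρ ≤ 1`), `1 ≤ Q`.
`selection` (A5, constant `C₁`) with `gam = Gam n ρ = ρ^(50v²)`, `τ = Tau n ρ = ρ^(5v)`: the condition is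
`C₁ ‖lat k‖^(2n) Q^(2n) gam ≤ C₁ (ρ^3)⁻¹^(2n) 2^(2n) (ρ^(18v))⁻¹^(2n) ρ^(50v²) = C₁ 4^n ρ^(50v² - 6n - 36vn) ≤ ρ^(5v)`
since `50v² = 6n + 36 v n + 5v + (at least 1)` (`n = v - 4`: `50v² - 6(v-4) - 36v(v-4) - 5v = 14v² + 133v + 24 ≥ 1`)
and `C₁ 4^n ρ ≤ 1` for `ρ ≤ ρ₀`.
`density` (A3, constants `C₂, Q₀`) with the same `Q`, `gam` and `r0 = Rad n ρ = ρ^(6v)`: `Q₀ ≤ Q` if `(ρ^(18v))⁻¹ ≥ Q₀`
(true if `ρ ≤ 1/(Q₀+1)`), `1 ≤ r0^3 Q` since `r0^3 = ρ^(18v)`.  Time: `C₂ Q^n / gam ≤ C₂ 2^n (ρ^(18vn))⁻¹ (ρ^(50v²))⁻¹ ≤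
(ρ^(100v² - 3v - 4))⁻¹` since `100v² - 3v - 4 ≥ 50v² + 18vn + 1` (`32v² + 69v - 5 ≥ 0`) and `C₂ 2^n ρ ≤ 1`.
Hint for exponents: put `n + 4 = v` by `obtain`/`generalize`; natural subtraction `100 v² - 3v - 4`: prove
`100 v² - 3v - 4 = 50 v² + 18 v n + e` for an explicit `e ≥ 1` by `zify`/`omega`-style arguments (`Nat.sub_eq_of_eq_add`, `nlinarith`).
-/

set_option autoImplicit false

open Set MeasureTheory Topology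

namespace Pool.Agent.LRT

/-- bounds of the number of harmonics -/
lemma e4_Q {n : ℕ} {ρ : ℝ} (h0 : 0 < ρ) (h1 : ρ ≤ 1) :
    (ρ ^ (18 * (n + 4)))⁻¹ ≤ (Qn n ρ : ℝ) ∧ (Qn n ρ : ℝ) ≤ 2 * (ρ ^ (18 * (n + 4)))⁻¹ := by
  have hp : 0 < ρ ^ (18 * (n + 4)) := pow_pos h0 _
  have hp1 : 1 ≤ (ρ ^ (18 * (n + 4)))⁻¹ := (one_le_inv₀ hp).2 (pow_le_one₀ h0.le h1)
  refine ⟨Nat.le_ceil _, ?_⟩
  have h2 := (Nat.ceil_lt_add_one (inv_nonneg.2 hp.le)).le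
  unfold Qn
  linarith

lemma e4_sel {n : ℕ} {ρ C q l : ℝ} (h0 : 0 < ρ) (h1 : ρ ≤ 1) (hC : 0 < C) (hCρ : C * 4 ^ n * ρ ≤ 1) (hq : 0 ≤ q)
    (hl : 0 ≤ l) (hl1 : l ≤ (ρ ^ 3)⁻¹) (hq1 : q ≤ 2 * (ρ ^ (18 * (n + 4)))⁻¹) :
    C * l ^ (2 * n) * q ^ (2 * n) * Gam n ρ ≤ Tau n ρ := by
  have hρ : ρ ≠ 0 := h0.ne'
  have e1 : ρ ^ (50 * (n + 4) ^ 2) =
      ρ ^ (6 * n) * ρ ^ (36 * (n + 4) * n) * ρ ^ (5 * (n + 4)) * ρ ^ (14 * (n + 4) ^ 2 + 133 * (n + 4) + 23) * ρ := by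
    rw [← pow_add, ← pow_add, ← pow_add, ← pow_succ]
    have : 50 * (n + 4) ^ 2 =
        6 * n + 36 * (n + 4) * n + 5 * (n + 4) + (14 * (n + 4) ^ 2 + 133 * (n + 4) + 23) + 1 := by ring
    rw [this]
  have e2 : ((ρ ^ 3)⁻¹) ^ (2 * n) = (ρ ^ (6 * n))⁻¹ := by
    rw [inv_pow, ← pow_mul]
    congr 2
    ring
  have e3 : (2 * (ρ ^ (18 * (n + 4)))⁻¹) ^ (2 * n) = 4 ^ n * (ρ ^ (36 * (n + 4) * n))⁻¹ := by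
    rw [mul_pow, inv_pow, ← pow_mul, pow_mul (2 : ℝ) 2 n]
    have : 18 * (n + 4) * (2 * n) = 36 * (n + 4) * n := by ring
    rw [this]
    norm_num
  have b1 : l ^ (2 * n) ≤ (ρ ^ (6 * n))⁻¹ := by
    rw [← e2]
    exact pow_le_pow_left₀ hl hl1 _
  have b2 : q ^ (2 * n) ≤ 4 ^ n * (ρ ^ (36 * (n + 4) * n))⁻¹ := by
    rw [← e3]
    exact pow_le_pow_left₀ hq hq1 _
  have b3 : C * l ^ (2 * n) * q ^ (2 * n) ≤ C * (ρ ^ (6 * n))⁻¹ * (4 ^ n * (ρ ^ (36 * (n + 4) * n))⁻¹) := by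
    have p1 : 0 < (ρ ^ (6 * n))⁻¹ := inv_pos.2 (pow_pos h0 _)
    exact mul_le_mul (mul_le_mul_of_nonneg_left b1 hC.le) b2 (pow_nonneg hq _) (by positivity)
  have hG : 0 < Gam n ρ := pow_pos h0 _
  calc C * l ^ (2 * n) * q ^ (2 * n) * Gam n ρ
      ≤ C * (ρ ^ (6 * n))⁻¹ * (4 ^ n * (ρ ^ (36 * (n + 4) * n))⁻¹) * Gam n ρ := mul_le_mul_of_nonneg_right b3 hG.le
    _ = (C * 4 ^ n * ρ) * ρ ^ (14 * (n + 4) ^ 2 + 133 * (n + 4) + 23) * ρ ^ (5 * (n + 4)) := by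
        unfold Gam
        rw [e1]
        have p1 : ρ ^ (6 * n) ≠ 0 := pow_ne_zero _ hρ
        have p2 : ρ ^ (36 * (n + 4) * n) ≠ 0 := pow_ne_zero _ hρ
        generalize ρ ^ (6 * n) = A at *
        generalize ρ ^ (36 * (n + 4) * n) = B at *
        generalize ρ ^ (14 * (n + 4) ^ 2 + 133 * (n + 4) + 23) = D at *
        generalize ρ ^ (5 * (n + 4)) = E at *
        field_simp
    _ ≤ 1 * 1 * ρ ^ (5 * (n + 4)) := by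
        refine mul_le_mul_of_nonneg_right ?_ (pow_nonneg h0.le _)
        exact mul_le_mul hCρ (pow_le_one₀ h0.le h1) (pow_nonneg h0.le _) zero_le_one
    _ = Tau n ρ := by
        unfold Tau
        ring

lemma e4_time {n : ℕ} {ρ C q : ℝ} (h0 : 0 < ρ) (h1 : ρ ≤ 1) (hC : 0 < C) (hCρ : C * 2 ^ n * ρ ≤ 1) (hq : 0 ≤ q)
    (hq1 : q ≤ 2 * (ρ ^ (18 * (n + 4)))⁻¹) : C * q ^ n / Gam n ρ ≤ Tim n ρ := by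
  have hρ : ρ ≠ 0 := h0.ne'
  have e0 : 100 * (n + 4) ^ 2 - 3 * (n + 4) - 4 = 18 * (n + 4) * n + 50 * (n + 4) ^ 2 + (32 * n ^ 2 + 325 * n + 783) + 1 := by
    have : 100 * (n + 4) ^ 2 =
        18 * (n + 4) * n + 50 * (n + 4) ^ 2 + (32 * n ^ 2 + 325 * n + 783) + 1 + 3 * (n + 4) + 4 := by ring
    omega
  have e1 : Tim n ρ = (ρ ^ (18 * (n + 4) * n) * ρ ^ (50 * (n + 4) ^ 2) * ρ ^ (32 * n ^ 2 + 325 * n + 783) * ρ)⁻¹ := by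
    unfold Tim
    rw [e0, pow_succ, pow_add, pow_add]
  have e3 : (2 * (ρ ^ (18 * (n + 4)))⁻¹) ^ n = 2 ^ n * (ρ ^ (18 * (n + 4) * n))⁻¹ := by
    rw [mul_pow, inv_pow, ← pow_mul]
  have b2 : q ^ n ≤ 2 ^ n * (ρ ^ (18 * (n + 4) * n))⁻¹ := by
    rw [← e3]
    exact pow_le_pow_left₀ hq hq1 _
  have hG : 0 < Gam n ρ := pow_pos h0 _
  rw [div_le_iff₀ hG, e1]
  refine (mul_le_mul_of_nonneg_left b2 hC.le).trans ?_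
  have h2 : ρ ^ (32 * n ^ 2 + 325 * n + 783) ≤ 1 := pow_le_one₀ h0.le h1
  have h3 : C * 2 ^ n * ρ * ρ ^ (32 * n ^ 2 + 325 * n + 783) ≤ 1 := by
    calc _ ≤ 1 * 1 := mul_le_mul hCρ h2 (pow_nonneg h0.le _) zero_le_one
      _ = 1 := one_mul 1
  unfold Gam
  have p1 : 0 < ρ ^ (18 * (n + 4) * n) := pow_pos h0 _
  have p2 : 0 < ρ ^ (50 * (n + 4) ^ 2) := pow_pos h0 _
  have p3 : 0 < ρ ^ (32 * n ^ 2 + 325 * n + 783) := pow_pos h0 _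
  generalize ρ ^ (18 * (n + 4) * n) = A at *
  generalize ρ ^ (50 * (n + 4) ^ 2) = B at *
  generalize ρ ^ (32 * n ^ 2 + 325 * n + 783) = D at *
  have h4 : (A * B * D * ρ)⁻¹ * B = A⁻¹ * (D * ρ)⁻¹ := by
    field_simp
  rw [h4]
  have h5 : C * (2 ^ n * A⁻¹) = A⁻¹ * (C * 2 ^ n) := by ring
  rw [h5]
  refine mul_le_mul_of_nonneg_left ?_ (inv_nonneg.2 p1.le)
  rw [← one_div, le_div_iff₀ (mul_pos p3 h0)]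
  calc C * 2 ^ n * (D * ρ) = C * 2 ^ n * ρ * D := by ring
    _ ≤ 1 := h3

theorem arith_res {n : ℕ} (hn : 1 ≤ n) : ∃ ρ₀ : ℝ, 0 < ρ₀ ∧ ∀ ρ : ℝ, 0 < ρ → ρ ≤ ρ₀ → ∀ k : Fin n → ℤ,
    (∃ u : Fin n → ℤ, ∑ i, u i * k i = 1) → ‖lat k‖ ≤ (ρ ^ 3)⁻¹ → ∀ w₀ : RE n, inner ℝ (lat k) w₀ = 0 →
    ∃ w : RE n, inner ℝ (lat k) w = 0 ∧ ‖w - w₀‖ ≤ Tau n ρ ∧
      (∀ m ∈ bx n (Qn n ρ), (¬ ∃ j : ℤ, m = j • k) → Gam n ρ ≤ |inner ℝ (lat m) w|) ∧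
      ∀ z : RE n, inner ℝ (lat k) z = 0 →
        ∃ r : ℝ, 0 ≤ r ∧ r ≤ Tim n ρ ∧ ∃ m : Fin n → ℤ, ‖r • w - z - lat m‖ ≤ Rad n ρ := by
  obtain ⟨C₁, hC₁, hsel⟩ := selection hn
  obtain ⟨C₂, hC₂, Q₀, hden⟩ := density hn
  have hA : 0 < C₁ * 4 ^ n := by positivity
  have hB : 0 < C₂ * 2 ^ n := by positivity
  have hQ : (0 : ℝ) < (Q₀ : ℝ) + 1 := by positivity
  refine ⟨min (min 1 (1 / ((Q₀ : ℝ) + 1))) (min (1 / (C₁ * 4 ^ n)) (1 / (C₂ * 2 ^ n))), ?_, ?_⟩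
  · exact lt_min (lt_min one_pos (by positivity)) (lt_min (by positivity) (by positivity))
  intro ρ h0 hρ k hk hkn w₀ hw₀
  have hρ1 : ρ ≤ 1 := hρ.trans ((min_le_left _ _).trans (min_le_left _ _))
  have hρ2 : ρ ≤ 1 / ((Q₀ : ℝ) + 1) := hρ.trans ((min_le_left _ _).trans (min_le_right _ _))
  have hρ3 : ρ ≤ 1 / (C₁ * 4 ^ n) := hρ.trans ((min_le_right _ _).trans (min_le_left _ _))
  have hρ4 : ρ ≤ 1 / (C₂ * 2 ^ n) := hρ.trans ((min_le_right _ _).trans (min_le_right _ _))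
  have hA' : C₁ * 4 ^ n * ρ ≤ 1 := by
    rw [le_div_iff₀ hA] at hρ3
    linarith
  have hB' : C₂ * 2 ^ n * ρ ≤ 1 := by
    rw [le_div_iff₀ hB] at hρ4
    linarith
  obtain ⟨hQ1, hQ2⟩ := e4_Q (n := n) h0 hρ1
  have hp : 0 < ρ ^ (18 * (n + 4)) := pow_pos h0 _
  have hple : ρ ^ (18 * (n + 4)) ≤ ρ := by
    calc ρ ^ (18 * (n + 4)) ≤ ρ ^ 1 := pow_le_pow_of_le_one h0.le hρ1 (by omega)
      _ = ρ := pow_one ρ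
  have hinv : ρ⁻¹ ≤ (ρ ^ (18 * (n + 4)))⁻¹ := inv_anti₀ hp hple
  have hQ0' : (Q₀ : ℝ) ≤ (Qn n ρ : ℝ) := by
    have h2 : (Q₀ : ℝ) + 1 ≤ ρ⁻¹ := by
      rw [← one_div, le_div_iff₀ h0]
      rw [le_div_iff₀ hQ] at hρ2
      linarith
    linarith
  have hQ0 : Q₀ ≤ Qn n ρ := by exact_mod_cast hQ0'
  have hQone : 1 ≤ Qn n ρ := by
    have h2 : (1 : ℝ) ≤ ρ⁻¹ := (one_le_inv₀ h0).2 hρ1
    have h3 : ((1 : ℕ) : ℝ) ≤ (Qn n ρ : ℝ) := by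
      push_cast
      linarith
    exact_mod_cast h3
  have hG : 0 < Gam n ρ := pow_pos h0 _
  obtain ⟨w, hw1, hw2, hw3⟩ := hsel k hk (Qn n ρ) hQone (Gam n ρ) (Tau n ρ) hG
    (e4_sel h0 hρ1 hC₁ hA' (Nat.cast_nonneg _) (norm_nonneg _) hkn hQ2) w₀ hw₀
  refine ⟨w, hw1, hw2, hw3, ?_⟩
  intro z hz
  have hr : 0 < Rad n ρ := pow_pos h0 _
  have hr3 : 1 ≤ Rad n ρ ^ 3 * (Qn n ρ : ℝ) := by
    have e : Rad n ρ ^ 3 = ρ ^ (18 * (n + 4)) := by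
      unfold Rad
      rw [← pow_mul]
      congr 1
      ring
    rw [e]
    calc (1 : ℝ) = ρ ^ (18 * (n + 4)) * (ρ ^ (18 * (n + 4)))⁻¹ := (mul_inv_cancel₀ hp.ne').symm
      _ ≤ ρ ^ (18 * (n + 4)) * (Qn n ρ : ℝ) := mul_le_mul_of_nonneg_left hQ1 hp.le
  obtain ⟨r, hr0, hr1, m, hm⟩ := hden k w hw1 (Qn n ρ) hQ0 (Gam n ρ) hG hw3 (Rad n ρ) hr hr3 z hz
  exact ⟨r, hr0, hr1.trans (e4_time h0 hρ1 hC₂ hB' (Nat.cast_nonneg _) hQ2), m, hm⟩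

end Pool.Agent.LRT
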