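import Pool.Agent.LRT.ED

/-!
E5 (difficulty 3).  The two numerical conditions of theorem TR.  Pure inequalities between powers of `ρ`.

PROOF.  `v = n + 4 ≥ 4`, `M = MM n = 200 v²`.  `er C η G e1 = 3 * e1 + 2 * C * η ^ 2 + η * G + C * G ^ 2` (LRT/VR.lean), here
`C = 4`, `η = ρ^(M-2)`, `G = Bz/Gam = ρ^(M-v) / ρ^(50v²) = ρ^(150v² - v)`, `e1 = ρ^(M+5v)`, `A0 = Az = ρ^(M+4v) = ρ^(200v²+4v)`.
(1) `3104 * 3 * ρ^(M+5v) ≤ A0/4` if `37248 ρ ≤ 1`; `3104 * 8 * ρ^(2M-4) ≤ A0/4`; `3104 * ρ^(M-2) ρ^(150v²-v) ≤ A0/4`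
(exponent `350v² - v - 2 ≥ 200v² + 4v + 1`); `3104 * 4 * ρ^(300v² - 2v) ≤ A0/4` (`300v² - 2v ≥ 200v² + 4v + 1`).
(2) By (1) `4 er ≤ A0`.  With `T = Tim = (ρ^(100v²-3v-4))⁻¹`: `T A0 = ρ^(100v²+7v+4)`, `Rad²/T = ρ^(12v) ρ^(100v²-3v-4) = ρ^(100v²+9v-4)`.
Left side `≤ 6 ρ^(150v²-v) + 8 ρ^(100v²+7v+4) + 40 ρ^(100v²+9v-4)`; as `150v² - v`, `100v²+7v+4`, `100v²+9v-4` are all
`≥ (100v²+7v+3) + 1` (`v ≥ 4`), it is `≤ 54 ρ * ρ^(100v²+7v+3)`.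
Right side: `√(A0/96) = ρ^(100v²+2v) / √96 ≥ ρ^(100v²+2v) / 10` (`A0 = (ρ^(100v²+2v))²`), `1/N ≥ ρ^3`, `A0/(4 Bz) = ρ^(5v)/4`
(`Az = Bz * ρ^(5v)`): `≥ ρ^(100v²+7v+3) / 40`.  So `ρ₀ = 1/50000` works (`54 * 40 * ρ < 1`).
Hint: set `x = ρ^(...)` for the base powers and write every power as a product of base powers, e.g. prove lemmas
`Bz = Gam * ρ^(150v²-v)`, `Az = Tim⁻¹ * ρ^(100v²+7v+4)`.
-/

set_option autoImplicit false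

open Set MeasureTheory Topology

namespace Pool.Agent.LRT

private lemma e5_pow {ρ : ℝ} (hρ : 0 < ρ) (hρ1 : ρ ≤ 1) {a b : ℕ} (h : b + 1 ≤ a) :
    ρ ^ a ≤ ρ ^ b * ρ := by
  rw [← pow_succ]
  exact pow_le_pow_of_le_one hρ.le hρ1 h

private lemma e5_abs {ρ A E G e T R2 E0 s c N B : ℝ} (hρ : 0 < ρ) (hρ1 : ρ ≤ 1 / 50000)
    (hA : 0 < A) (hT : 0 < T) (hE0 : 0 < E0) (hs : 0 < s) (hc : 0 < c) (hB : 0 < B)
    (h1 : e ≤ A * ρ) (h2 : E ^ 2 ≤ A * ρ) (h3 : E * G ≤ A * ρ) (h4 : G ^ 2 ≤ A * ρ)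
    (h5 : G ≤ E0 * ρ) (h6 : T * A = E0 * ρ) (h7 : R2 / T ≤ E0 * ρ)
    (h8 : A = s ^ 2) (h9 : A = B * c) (h10 : E0 = s * ρ ^ 3 * c) (hN1 : 1 ≤ N) (hN : N ≤ (ρ ^ 3)⁻¹) :
    3104 * er 4 E G e ≤ A ∧
    2 * (3 * G + (2 * T * (A + 4 * er 4 E G e) + 20 * R2 / T)) < √(A / 96) / N * (A / (4 * B)) := by
  have hAρ : 0 < A * ρ := by positivity
  have her : er 4 E G e ≤ 16 * (A * ρ) := by
    unfold er
    nlinarith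
  have hAρ1 : A * ρ ≤ A * (1 / 50000) := mul_le_mul_of_nonneg_left hρ1 hA.le
  refine ⟨by linarith, ?_⟩
  have h11 : A + 4 * er 4 E G e ≤ 2 * A := by linarith
  have h12 : 2 * T * (A + 4 * er 4 E G e) ≤ 4 * (E0 * ρ) := by
    calc 2 * T * (A + 4 * er 4 E G e) ≤ 2 * T * (2 * A) :=
          mul_le_mul_of_nonneg_left h11 (by positivity)
      _ = 4 * (T * A) := by ring
      _ = 4 * (E0 * ρ) := by rw [h6]
  have h13 : 20 * R2 / T ≤ 20 * (E0 * ρ) := by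
    rw [mul_div_assoc]
    linarith
  have hE0ρ1 : E0 * ρ ≤ E0 * (1 / 50000) := mul_le_mul_of_nonneg_left hρ1 hE0.le
  have hL : 2 * (3 * G + (2 * T * (A + 4 * er 4 E G e) + 20 * R2 / T)) ≤ 54 * (E0 * ρ) := by
    linarith
  have h14 : s / 10 ≤ √(A / 96) := by
    apply Real.le_sqrt_of_sq_le
    rw [h8, div_pow]
    have : 0 < s ^ 2 := by positivity
    linarith
  have h15 : ρ ^ 3 ≤ 1 / N := by
    rw [le_div_iff₀ (by linarith)]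
    have h16 : ρ ^ 3 * N ≤ ρ ^ 3 * (ρ ^ 3)⁻¹ := mul_le_mul_of_nonneg_left hN (by positivity)
    rwa [mul_inv_cancel₀ (by positivity)] at h16
  have h17 : A / (4 * B) = c / 4 := by
    rw [h9]
    field_simp
  have h18 : E0 / 40 ≤ √(A / 96) / N * (A / (4 * B)) := by
    rw [h17, h10, div_eq_mul_one_div (√(A / 96)) N]
    calc s * ρ ^ 3 * c / 40 = s / 10 * ρ ^ 3 * (c / 4) := by ring
      _ ≤ √(A / 96) * (1 / N) * (c / 4) := by gcongr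
  refine lt_of_le_of_lt hL (lt_of_lt_of_le ?_ h18)
  linarith

private lemma e5_key {ρ : ℝ} (hρ : 0 < ρ) (hρ1 : ρ ≤ 1 / 50000) {N : ℝ} (hN1 : 1 ≤ N)
    (hN : N ≤ (ρ ^ 3)⁻¹) (v q : ℕ) (hv : 4 ≤ v) (hq : 4 * v ≤ q) :
    3104 * er 4 (ρ ^ (200 * q - 2)) (ρ ^ (200 * q - v) / ρ ^ (50 * q)) (ρ ^ (200 * q + 5 * v)) ≤
      ρ ^ (200 * q + 4 * v) ∧
    2 * (3 * (ρ ^ (200 * q - v) / ρ ^ (50 * q)) + (2 * (ρ ^ (100 * q - 3 * v - 4))⁻¹ *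
      (ρ ^ (200 * q + 4 * v) + 4 * er 4 (ρ ^ (200 * q - 2)) (ρ ^ (200 * q - v) / ρ ^ (50 * q))
      (ρ ^ (200 * q + 5 * v))) + 20 * (ρ ^ (6 * v)) ^ 2 / (ρ ^ (100 * q - 3 * v - 4))⁻¹)) <
      √(ρ ^ (200 * q + 4 * v) / 96) / N * (ρ ^ (200 * q + 4 * v) / (4 * ρ ^ (200 * q - v))) := by
  have hρ2 : ρ ≤ 1 := hρ1.trans (by norm_num)
  have hG : ρ ^ (200 * q - v) / ρ ^ (50 * q) = ρ ^ (150 * q - v) := by
    rw [div_eq_iff (by positivity), ← pow_add]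
    congr 1
    omega
  rw [hG]
  refine e5_abs (E0 := ρ ^ (100 * q + 7 * v + 3)) (s := ρ ^ (100 * q + 2 * v)) (c := ρ ^ (5 * v))
    hρ hρ1 (by positivity) (by positivity) (by positivity) (by positivity) (by positivity)
    (by positivity) (e5_pow hρ hρ2 (by omega)) ?_ ?_ ?_ (e5_pow hρ hρ2 (by omega)) ?_ ?_ ?_ ?_ ?_ hN1 hN
  · rw [← pow_mul]
    exact e5_pow hρ hρ2 (by omega)
  · rw [← pow_add]
    exact e5_pow hρ hρ2 (by omega)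
  · rw [← pow_mul]
    exact e5_pow hρ hρ2 (by omega)
  · rw [inv_mul_eq_iff_eq_mul₀ (by positivity), ← pow_succ, ← pow_add]
    congr 1
    omega
  · rw [div_inv_eq_mul, ← pow_mul, ← pow_add]
    exact e5_pow hρ hρ2 (by omega)
  · rw [← pow_mul]
    congr 1
    omega
  · rw [← pow_add]
    congr 1
    omega
  · rw [← pow_add, ← pow_add]
    congr 1
    omega

theorem num_res (n : ℕ) : ∃ ρ₀ : ℝ, 0 < ρ₀ ∧ ∀ ρ : ℝ, 0 < ρ → ρ ≤ ρ₀ → ∀ N : ℝ, 1 ≤ N → N ≤ (ρ ^ 3)⁻¹ →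
    3104 * er 4 (Eta n ρ) (Bz n ρ / Gam n ρ) (Ez n ρ) ≤ Az n ρ ∧
    2 * (3 * (Bz n ρ / Gam n ρ) + (2 * Tim n ρ * (Az n ρ + 4 * er 4 (Eta n ρ) (Bz n ρ / Gam n ρ) (Ez n ρ)) +
      20 * Rad n ρ ^ 2 / Tim n ρ)) < √(Az n ρ / 96) / N * (Az n ρ / (4 * Bz n ρ)) := by
  refine ⟨1 / 50000, by norm_num, fun ρ hρ hρ1 N hN1 hN => ?_⟩
  have hv : 4 ≤ n + 4 := Nat.le_add_left _ _
  have hq : 4 * (n + 4) ≤ (n + 4) ^ 2 := by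
    rw [pow_two]
    exact Nat.mul_le_mul_right _ hv
  exact e5_key hρ hρ1 hN1 hN (n + 4) ((n + 4) ^ 2) hv hq

end Pool.Agent.LRT
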