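import Pool.Agent.LRT.CD
import Pool.Agent.LRT.C1
import Pool.Agent.LRT.C2

/-!
L2 (difficulty 2).  Restriction of a holomorphic function to the real points `(ofR x, ofR w)`, `w` fixed.

PROOF.  `ι x = (ofR x, ofR w)` is affine: `ι x = (ofRL.prod 0) x + (0, ofR w)`, `ι x ∈ D ρ R` (`ofR_mem_D`), linear part
`L = (ofRL).prod 0 : RE n →L[ℝ] CE n × CE n`, `‖L v‖ = ‖v‖` (`norm_ofR`, sup norm).  `rr_hasFDerivAt`: `F` has complex derivative
`fderiv ℂ F (ι x)` at `ι x` (open set), restrict scalars to `ℝ`, chain rule with `ι` and with the real linear map `T`.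
`rr_contDiff`: `F` is `ContDiffOn ℂ ∞` on `D ρ R` (`hol_contDiffOn`), hence `ContDiffOn ℝ` (`ContDiffOn.restrict_scalars`),
composition with `ι` (`ContDiffOn.comp_contDiff`) and `T`.
`rr_bound`: at `z = ι x ∈ D (ρ - d) (R - d)` (`im = 0`, `‖w‖ < R - d`, `d < ρ`), `ball_subset_D`, `cauchy_fderiv`, `cauchy_fderiv2`
give `‖fderiv ℂ F z‖ ≤ B / d`, `‖fderiv ℂ (fderiv ℂ F) z‖ ≤ 4 B / d ^ 2`.  The first derivative of `f` is
`v ↦ T (fderiv ℂ F (ι x) (L v))`, norm `≤ ‖T‖ ‖fderiv ℂ F z‖`.  The second: `x ↦ fderiv ℝ f x` is the composition of `ι`, of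
`fderiv ℂ F` (holomorphic on `D ρ R` by `hol_fderiv`) and of the real linear map `Φ ↦ T ∘ Φ|_ℝ ∘ L` of norm `≤ 1` (write it as a
`LinearMap.mkContinuous`, or bound: `‖fderiv ℝ (fderiv ℝ f) x v v'‖ = ‖T (fderiv ℂ (fderiv ℂ F) z (L v) (L v'))‖`).
-/

set_option autoImplicit false

open Set MeasureTheory Topology

namespace Pool.Agent.LRT

variable {n : ℕ} {W W' : Type*} [NormedAddCommGroup W] [NormedSpace ℂ W] [FiniteDimensional ℂ W]
  [NormedAddCommGroup W'] [NormedSpace ℝ W'] {ρ R : ℝ} {F : CE n × CE n → W} {w : RE n}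

private lemma L2_norm_pair (v : RE n) : ‖((ofR v, 0) : CE n × CE n)‖ = ‖v‖ := by
  rw [Prod.norm_def]
  simp [norm_ofR]

private lemma L2_hasFDerivAt {W W' : Type*} [NormedAddCommGroup W] [NormedSpace ℂ W]
    [NormedAddCommGroup W'] [NormedSpace ℝ W'] {F : CE n × CE n → W} (T : W →L[ℝ] W')
    (hρ : 0 < ρ) (hF : DifferentiableOn ℂ F (D ρ R)) (hw : ‖w‖ < R) (x : RE n) :
    HasFDerivAt (fun x : RE n => T (F (ofR x, ofR w)))
      (T.comp (((fderiv ℂ F (ofR x, ofR w)).restrictScalars ℝ).comp ((ofRL (n := n)).prod 0))) x := by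
  have hm := ofR_mem_D hρ x hw
  have h1 : HasFDerivAt F (fderiv ℂ F (ofR x, ofR w)) (ofR x, ofR w) :=
    (hF.differentiableAt ((isOpen_D ρ R).mem_nhds hm)).hasFDerivAt
  have h2 := h1.restrictScalars ℝ
  have h3 : HasFDerivAt (fun x : RE n => ((ofR x, ofR w) : CE n × CE n)) ((ofRL (n := n)).prod 0) x :=
    (ofRL (n := n)).hasFDerivAt.prodMk (hasFDerivAt_const (ofR w) x)
  exact T.hasFDerivAt.comp x (h2.comp x h3)

private lemma L2_bound1 {W W' : Type*} [NormedAddCommGroup W] [NormedSpace ℂ W]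
    [NormedAddCommGroup W'] [NormedSpace ℝ W'] {F : CE n × CE n → W} (T : W →L[ℝ] W') (hT : ‖T‖ ≤ 1)
    (hρ : 0 < ρ) (hF : DifferentiableOn ℂ F (D ρ R)) (hw : ‖w‖ < R)
    {B : ℝ} {x : RE n} (hB : ‖fderiv ℂ F (ofR x, ofR w)‖ ≤ B) :
    ‖fderiv ℝ (fun x : RE n => T (F (ofR x, ofR w))) x‖ ≤ B := by
  rw [(L2_hasFDerivAt T hρ hF hw x).fderiv]
  have hB0 : 0 ≤ B := (norm_nonneg _).trans hB
  refine ContinuousLinearMap.opNorm_le_bound _ hB0 fun v => ?_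
  have h1 : (T.comp (((fderiv ℂ F (ofR x, ofR w)).restrictScalars ℝ).comp
      ((ofRL (n := n)).prod 0))) v = T (fderiv ℂ F (ofR x, ofR w) (ofR v, 0)) := rfl
  rw [h1]
  have h2 := T.le_opNorm (fderiv ℂ F (ofR x, ofR w) (ofR v, 0))
  have h3 := (fderiv ℂ F (ofR x, ofR w)).le_opNorm (ofR v, 0)
  rw [L2_norm_pair] at h3
  calc ‖T (fderiv ℂ F (ofR x, ofR w) (ofR v, 0))‖
      ≤ ‖T‖ * ‖fderiv ℂ F (ofR x, ofR w) (ofR v, 0)‖ := h2
    _ ≤ 1 * ‖fderiv ℂ F (ofR x, ofR w) (ofR v, 0)‖ := by gcongr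
    _ = ‖fderiv ℂ F (ofR x, ofR w) (ofR v, 0)‖ := one_mul _
    _ ≤ ‖fderiv ℂ F (ofR x, ofR w)‖ * ‖v‖ := h3
    _ ≤ B * ‖v‖ := by gcongr

theorem rr_hasFDerivAt (T : W →L[ℝ] W') (hρ : 0 < ρ) (hF : DifferentiableOn ℂ F (D ρ R)) (hw : ‖w‖ < R) (x : RE n) :
    HasFDerivAt (fun x : RE n => T (F (ofR x, ofR w)))
      (T.comp (((fderiv ℂ F (ofR x, ofR w)).restrictScalars ℝ).comp ((ofRL (n := n)).prod 0))) x :=
  L2_hasFDerivAt T hρ hF hw x

theorem rr_fderiv (T : W →L[ℝ] W') (hρ : 0 < ρ) (hF : DifferentiableOn ℂ F (D ρ R)) (hw : ‖w‖ < R) (x v : RE n) :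
    fderiv ℝ (fun x : RE n => T (F (ofR x, ofR w))) x v = T (fderiv ℂ F (ofR x, ofR w) (ofR v, 0)) := by
  rw [(L2_hasFDerivAt T hρ hF hw x).fderiv]
  rfl

theorem rr_contDiff (T : W →L[ℝ] W') (hρ : 0 < ρ) (hF : DifferentiableOn ℂ F (D ρ R)) (hw : ‖w‖ < R) :
    ContDiff ℝ 2 (fun x : RE n => T (F (ofR x, ofR w))) := by
  have h1 : ContDiffOn ℝ 2 F (D ρ R) :=
    ((hol_contDiffOn (isOpen_D ρ R) hF).restrict_scalars ℝ).of_le
      (WithTop.coe_le_coe.mpr le_top)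
  have h2 : ContDiff ℝ 2 (fun x : RE n => ((ofR x, ofR w) : CE n × CE n)) :=
    (ofRL (n := n)).contDiff.prodMk contDiff_const
  exact T.contDiff.comp (h1.comp_contDiff h2 fun x => ofR_mem_D hρ x hw)

theorem rr_bound1 (T : W →L[ℝ] W') (hT : ‖T‖ ≤ 1) (hρ : 0 < ρ) (hF : DifferentiableOn ℂ F (D ρ R)) (hw : ‖w‖ < R)
    {B : ℝ} {x : RE n} (hB : ‖fderiv ℂ F (ofR x, ofR w)‖ ≤ B) :
    ‖fderiv ℝ (fun x : RE n => T (F (ofR x, ofR w))) x‖ ≤ B :=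
  L2_bound1 T hT hρ hF hw hB

/-- composition with `T` on the left and with the real inclusion on the right -/
private noncomputable def L2_comp {W W' : Type*} [NormedAddCommGroup W] [NormedSpace ℂ W]
    [NormedAddCommGroup W'] [NormedSpace ℝ W'] (T : W →L[ℝ] W') :
    (CE n × CE n →L[ℂ] W) →L[ℝ] (RE n →L[ℝ] W') :=
  LinearMap.mkContinuous
    { toFun := fun Φ => T.comp ((Φ.restrictScalars ℝ).comp ((ofRL (n := n)).prod 0))
      map_add' := fun Φ Ψ => by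
        ext v
        exact T.map_add (Φ (ofR v, 0)) (Ψ (ofR v, 0))
      map_smul' := fun r Φ => by
        ext v
        exact T.map_smul r (Φ (ofR v, 0)) } ‖T‖ (fun Φ => by
      refine ContinuousLinearMap.opNorm_le_bound _ (by positivity) fun v => ?_
      have h2 := T.le_opNorm (Φ (ofR v, 0))
      have h3 := Φ.le_opNorm (ofR v, 0)
      rw [L2_norm_pair] at h3
      calc ‖T (Φ (ofR v, 0))‖ ≤ ‖T‖ * ‖Φ (ofR v, 0)‖ := h2
        _ ≤ ‖T‖ * (‖Φ‖ * ‖v‖) := by gcongr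
        _ = ‖T‖ * ‖Φ‖ * ‖v‖ := by ring)

private lemma L2_comp_norm {W W' : Type*} [NormedAddCommGroup W] [NormedSpace ℂ W]
    [NormedAddCommGroup W'] [NormedSpace ℝ W'] (T : W →L[ℝ] W') :
    ‖L2_comp (n := n) T‖ ≤ ‖T‖ :=
  LinearMap.mkContinuous_norm_le _ (norm_nonneg _) _

theorem rr_bound (T : W →L[ℝ] W') (hT : ‖T‖ ≤ 1) {d B : ℝ} (hd : 0 < d) (hdρ : d < ρ)
    (hF : DifferentiableOn ℂ F (D ρ R)) (hw : ‖w‖ < R - d) (hB : ∀ z ∈ D ρ R, ‖F z‖ ≤ B) (x : RE n) :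
    ‖T (F (ofR x, ofR w))‖ ≤ B ∧ ‖fderiv ℝ (fun x : RE n => T (F (ofR x, ofR w))) x‖ ≤ B / d ∧
      ‖fderiv ℝ (fderiv ℝ (fun x : RE n => T (F (ofR x, ofR w)))) x‖ ≤ 4 * B / d ^ 2 := by
  have hρ : 0 < ρ := hd.trans hdρ
  have hwR : ‖w‖ < R := by linarith
  have hm := ofR_mem_D hρ x hwR
  have hm' : ((ofR x, ofR w) : CE n × CE n) ∈ D (ρ - d) (R - d) := ofR_mem_D (by linarith) x hw
  have hball : Metric.ball ((ofR x, ofR w) : CE n × CE n) d ⊆ D ρ R := ball_subset_D hm'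
  refine ⟨?_, ?_, ?_⟩
  · have h1 := T.le_opNorm (F (ofR x, ofR w))
    have h2 := hB _ hm
    calc ‖T (F (ofR x, ofR w))‖ ≤ ‖T‖ * ‖F (ofR x, ofR w)‖ := h1
      _ ≤ 1 * ‖F (ofR x, ofR w)‖ := by gcongr
      _ = ‖F (ofR x, ofR w)‖ := one_mul _
      _ ≤ B := h2
  · exact L2_bound1 T hT hρ hF hwR (cauchy_fderiv hd (hF.mono hball) fun y hy => hB y (hball hy))
  · have h1 : (fderiv ℝ (fun x : RE n => T (F (ofR x, ofR w)))) =
        fun x => L2_comp (n := n) T (fderiv ℂ F (ofR x, ofR w)) := by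
      funext y
      rw [(L2_hasFDerivAt T hρ hF hwR y).fderiv]
      rfl
    rw [h1]
    refine L2_bound1 (L2_comp (n := n) T) ((L2_comp_norm T).trans hT) hρ
      (hol_fderiv (isOpen_D ρ R) hF) hwR ?_
    exact cauchy_fderiv2 hd (hF.mono hball) fun y hy => hB y (hball hy)

end Pool.Agent.LRT
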