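import Pool.Agent.LRT.NS
import Pool.Agent.LRT.C8
import Pool.Agent.LRT.C8b
import Pool.Agent.LRT.L2

/-!
L3 (difficulty 2).  Everything is real at real points.

PROOF.  `real_vec`: `cj v = v` means that all the coordinates are real, `v = ofR (re v)` (`eq_re_im`, or coordinatewise
`Complex.conj_eq_iff_real`).  A real point `z = (ofR x, ofR w)` satisfies `cjp z = z` (`cj_ofR`); it is in `D ρ R` (`ofR_mem_D`).
So `gb_cj, gx_cj, c8_qv_real, NS.gv_real, NS.Xi_spec`, `NS.err_real` (C8, C8b) give the reality of all the values.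
`u_real`: `h.ur`.  `grad_real`: `inner (re (gx u z)) v = (dot (gx u z) (ofR v)).re` (`dot_ofR`, `gx u z = ofR (re ..)`)
`= (fderiv ℂ u z (ofR v, 0)).re` (`dot_gx`) = `fderiv ℝ (fun x => (u (ofR x, ofR w)).re) x v` (`rr_fderiv` with `T = Complex.reCLM`).
`vel_real`: `vel H b u z = gw H (z.1, qv b u z)`, `(z.1, qv b u z) ∈ D (2ρ) (R+1)` (`NS.q_mem`, `D_mono`), `gw_cj` with `h.Hd, h.Hr`
and `qv` real.
`err_val`: `err H b u z = H (z.1, qv b u z) - dot z.2 (gb b z.2) + b z.2`, take real parts, `dot_ofR`.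
-/

set_option autoImplicit false

open Set MeasureTheory Topology

namespace Pool.Agent.LRT

variable {n : ℕ}

theorem real_vec {v : CE n} (h : cj v = v) : v = ofR (re v) := by
  ext i
  have h1 : (cj v) i = v i := by rw [h]
  rw [cj_apply] at h1
  rw [ofR_apply, re_apply]
  exact (Complex.conj_eq_iff_re.1 h1).symm

theorem l3_cjp (x w : RE n) : cjp (ofR x, ofR w) = (ofR x, ofR w) := by
  simp [cjp]

variable {κ ρ R CH : ℝ} {H : CE n × CE n → ℂ} {b : CE n → ℂ} {u : CE n × CE n → ℂ} {w : RE n}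

theorem NS.u_real (h : NS κ ρ R CH H b u) (hw : ‖w‖ < R) (x : RE n) :
    u (ofR x, ofR w) = (((u (ofR x, ofR w)).re : ℝ) : ℂ) := by
  have h1 := h.ur _ (ofR_mem_D h.ρ0 x hw)
  rw [l3_cjp] at h1
  exact (Complex.conj_eq_iff_re.1 h1.symm).symm

theorem NS.gb_realp (h : NS κ ρ R CH H b u) (hw : ‖w‖ < R) : gb b (ofR w) = ofR (re (gb b (ofR w))) := by
  refine real_vec ?_
  have h1 := gb_cj h.bd h.br (ofR_mem_Dw h.ρ0 hw)
  rw [cj_ofR] at h1
  exact h1.symm

theorem NS.gx_realp (h : NS κ ρ R CH H b u) (hw : ‖w‖ < R) (x : RE n) :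
    gx u (ofR x, ofR w) = ofR (re (gx u (ofR x, ofR w))) := by
  refine real_vec ?_
  have h1 := gx_cj h.ud h.ur (ofR_mem_D h.ρ0 x hw)
  rw [l3_cjp] at h1
  exact h1.symm

theorem NS.qv_realp (h : NS κ ρ R CH H b u) (hw : ‖w‖ < R) (x : RE n) :
    qv b u (ofR x, ofR w) = ofR (re (gb b (ofR w)) + re (gx u (ofR x, ofR w))) := by
  rw [ofR_add, ← h.gb_realp hw, ← h.gx_realp hw x]
  rfl

theorem NS.gv_realp (h : NS κ ρ R CH H b u) (hw : ‖w‖ < R) (x : RE n) :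
    gv b u (ofR x, ofR w) = ofR (re (gv b u (ofR x, ofR w))) := by
  refine real_vec ?_
  have h1 := h.gv_real (ofR_mem_D h.ρ0 x hw)
  rw [l3_cjp] at h1
  exact h1.symm

theorem NS.Xi_realp (h : NS κ ρ R CH H b u) (hw : ‖w‖ < R) (t : RE n) :
    Xi b u ρ (ofR t, ofR w) = ofR (re (Xi b u ρ (ofR t, ofR w))) := by
  refine real_vec ?_
  have h1 := (h.Xi_spec (ofR_mem_D (half_pos h.ρ0) t hw)).2.2.2.1
  rw [l3_cjp] at h1
  exact h1.symm

theorem l3_mem (h : NS κ ρ R CH H b u) (hw : ‖w‖ < R) (x : RE n) :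
    ((ofR x, qv b u (ofR x, ofR w)) : CE n × CE n) ∈ (D (2 * ρ) (R + 1) : Set (CE n × CE n)) := by
  have h1 := h.q_mem (ofR_mem_D h.ρ0 x hw)
  have h2 := h.ρ0
  exact D_mono (by linarith) (by linarith) h1

theorem NS.vel_realp (h : NS κ ρ R CH H b u) (hw : ‖w‖ < R) (x : RE n) :
    vel H b u (ofR x, ofR w) = ofR (re (vel H b u (ofR x, ofR w))) := by
  refine real_vec ?_
  have h0 : ((ofR x, qv b u (ofR x, ofR w)) : CE n × CE n) ∈ (D (2 * ρ) (R + 1) : Set (CE n × CE n)) :=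
    l3_mem h hw x
  have h1 := gw_cj h.Hd h.Hr h0
  rw [h.qv_realp hw x, l3_cjp, ← h.qv_realp hw x] at h1
  exact h1.symm

/-- the gradient of the real restriction -/
theorem NS.grad_real (h : NS κ ρ R CH H b u) (hw : ‖w‖ < R) (x v : RE n) :
    inner ℝ (re (gx u (ofR x, ofR w))) v = fderiv ℝ (fun x : RE n => (u (ofR x, ofR w)).re) x v := by
  have h1 := rr_fderiv Complex.reCLM h.ρ0 h.ud hw x v
  have h2 : fderiv ℝ (fun x : RE n => (u (ofR x, ofR w)).re) x v = (fderiv ℂ u (ofR x, ofR w) (ofR v, 0)).re := h1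
  have h3 : dot (gx u (ofR x, ofR w)) (ofR v) = ((inner ℝ (re (gx u (ofR x, ofR w))) v : ℝ) : ℂ) := by
    rw [← dot_ofR, ← h.gx_realp hw x]
  rw [h2, ← dot_gx, h3, Complex.ofReal_re]

theorem NS.u_per_real (h : NS κ ρ R CH H b u) (hw : ‖w‖ < R) (x : RE n) (k : Fin n → ℤ) :
    (u (ofR (x + lat k), ofR w)).re = (u (ofR x, ofR w)).re := by
  have h1 := h.up _ (ofR_mem_D h.ρ0 x hw) k
  rw [ofR_add, h1]

theorem NS.q_small (h : NS κ ρ R CH H b u) (hw : ‖w‖ < R) (x : RE n) :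
    ‖re (gb b (ofR w)) + re (gx u (ofR x, ofR w)) - w‖ ≤ 2 * κ := by
  have h1 := (h.qv_fderiv (ofR_mem_D h.ρ0 x hw)).2
  rw [h.qv_realp hw x] at h1
  rw [← norm_ofR, ofR_sub]
  exact h1

/-- the value of the error at a real point -/
theorem NS.err_val (h : NS κ ρ R CH H b u) (hw : ‖w‖ < R) (x : RE n) :
    (err H b u (ofR x, ofR w)).re = (H (ofR x, ofR (re (gb b (ofR w)) + re (gx u (ofR x, ofR w))))).re -
      inner ℝ w (re (gb b (ofR w))) + (b (ofR w)).re := by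
  have h1 : dot (ofR w) (gb b (ofR w)) = ((inner ℝ w (re (gb b (ofR w))) : ℝ) : ℂ) := by
    rw [← dot_ofR, ← h.gb_realp hw]
  unfold err
  rw [h.qv_realp hw x]
  simp only []
  rw [h1, Complex.add_re, Complex.sub_re, Complex.ofReal_re]

end Pool.Agent.LRT
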