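import Pool.Agent.LRT.C9
import Pool.Agent.LRT.L3

/-!
L4 (difficulty 3).  The angle map and its inverse at real frequencies; the velocity in the angle variable.

PROOF.  `Θ x = re (th b u (ofR x, ofR w)) = x + re (gv b u (ofR x, ofR w))`, `X t = re (Xi b u ρ (ofR t, ofR w))`.
At real points `th b u (ofR x, ofR w) = ofR (Θ x)` (`NS.gv_realp`, `ofR_add`), `Xi b u ρ (ofR t, ofR w) = ofR (X t)` (`NS.Xi_realp`).
`th_contDiff`: `rr_contDiff` (L2) with `T = reL`, `F = gv b u` on `D ρ R`, plus the identity; `‖fderiv ℝ (x ↦ re (gv ..)) x‖ ≤ 1/8` by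
`rr_bound1` and `NS.gv_bound`.  `X_contDiff`: `F = Xi b u ρ` on `D (ρ/2) R` (`NS.Xi_hol`), derivative `≤ 2` (`NS.Xi_spec`).
`X_per`, `th_per`: `NS.Xi_spec`, `NS.gv_per`, `re_add`, `re_ofR`.
`th_X`: `Xi + gv (Xi, w) = z.1` (`NS.Xi_spec`).  `X_th`: `NS.Xi_th` at the real point.
`th_fderiv`: `rr_fderiv`.
`vel_angle`: let `x = X t`, `z = (ofR x, ofR w)`, `V = re (vel H b u z)`.  `NS.ident1` (C9) and `NS.vel_realp`:
`ofR V + fderiv ℂ (gv b u) z (ofR V, 0) = ofR w + S (gw (err H b u) z)`, `S = Ring.inverse (hess b (ofR w))`; real parts: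
`fderiv ℝ Θ x V = w + re (S (gw err z))`.  Differentiate `X (Θ y) = y` at `y = x`, `Θ x = t`: `fderiv ℝ X t (fderiv ℝ Θ x V) = V`.
So `fderiv ℝ X t w - V = - fderiv ℝ X t (re (S (gw err z)))`, norm `≤ 2 * (102/100) * ‖gw err z‖`, and `‖gw err z‖ ≤ ‖fderiv ℂ (err H b u) z‖
≤ ε / (ρ/2)` (`norm_gw_le`, `cauchy_fderiv` on the ball of radius `ρ/2`, `ball_subset_D`, `NS.err_hol`): total `≤ 5 ε / ρ`.
-/

set_option autoImplicit false

open Set MeasureTheory Topology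

namespace Pool.Agent.LRT

variable {n : ℕ} {κ ρ R CH : ℝ} {H : CE n × CE n → ℂ} {b : CE n → ℂ} {u : CE n × CE n → ℂ} {w : RE n}

/-- the real angle map -/
noncomputable def thR (b : CE n → ℂ) (u : CE n × CE n → ℂ) (w x : RE n) : RE n := re (th b u (ofR x, ofR w))
/-- its inverse -/
noncomputable def XR (b : CE n → ℂ) (u : CE n × CE n → ℂ) (ρ : ℝ) (w t : RE n) : RE n := re (Xi b u ρ (ofR t, ofR w))

theorem l4_norm_reL : ‖(reL (n := n))‖ ≤ 1 :=
  LinearMap.mkContinuous_norm_le _ zero_le_one _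

theorem NS.thR_spec (h : NS κ ρ R CH H b u) (hw : ‖w‖ < R) :
    ContDiff ℝ 2 (thR b u w) ∧ (∀ x (k : Fin n → ℤ), thR b u w (x + lat k) = thR b u w x + lat k) ∧
      (∀ x, th b u (ofR x, ofR w) = ofR (thR b u w x)) ∧ (∀ x, ‖fderiv ℝ (thR b u w) x‖ ≤ 2) ∧
      ∀ x v, fderiv ℝ (thR b u w) x v = v + re (fderiv ℂ (gv b u) (ofR x, ofR w) (ofR v, 0)) := by
  have e0 : thR b u w = fun x => x + reL (gv b u (ofR x, ofR w)) := by
    funext x
    simp only [thR, th, re_add, re_ofR, reL_apply]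
  have hc : ContDiff ℝ 2 (fun x : RE n => reL (gv b u (ofR x, ofR w))) :=
    rr_contDiff reL h.ρ0 h.gv_hol hw
  have hfd : ∀ x, fderiv ℝ (thR b u w) x = ContinuousLinearMap.id ℝ (RE n) +
      fderiv ℝ (fun x : RE n => reL (gv b u (ofR x, ofR w))) x := by
    intro x
    rw [e0]
    have h1 := (hasFDerivAt_id (𝕜 := ℝ) x).add (hc.differentiable (by norm_num) x).hasFDerivAt
    exact h1.fderiv
  refine ⟨?_, ?_, ?_, ?_, ?_⟩
  · rw [e0]
    exact contDiff_id.add hc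
  · intro x k
    rw [e0]
    simp only []
    have h1 := h.gv_per (ofR x, ofR w) (ofR_mem_D h.ρ0 x hw) k
    simp only [] at h1
    rw [ofR_add, h1]
    abel
  · intro x
    rw [e0]
    simp only [th, reL_apply]
    rw [ofR_add, ← h.gv_realp hw x]
  · intro x
    rw [hfd]
    refine (norm_add_le _ _).trans ?_
    have h1 : ‖ContinuousLinearMap.id ℝ (RE n)‖ ≤ 1 := ContinuousLinearMap.norm_id_le
    have h2 := rr_bound1 reL l4_norm_reL h.ρ0 h.gv_hol hw (x := x)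
      (h.gv_bound (ofR_mem_D h.ρ0 x hw)).2
    linarith
  · intro x v
    rw [hfd]
    have h1 := rr_fderiv reL h.ρ0 h.gv_hol hw x v
    change v + fderiv ℝ (fun x : RE n => reL (gv b u (ofR x, ofR w))) x v = _
    rw [h1]
    rfl

theorem NS.XR_spec (h : NS κ ρ R CH H b u) (hw : ‖w‖ < R) :
    ContDiff ℝ 2 (XR b u ρ w) ∧ (∀ x (k : Fin n → ℤ), XR b u ρ w (x + lat k) = XR b u ρ w x + lat k) ∧
      (∀ t, Xi b u ρ (ofR t, ofR w) = ofR (XR b u ρ w t)) ∧ (∀ t, ‖fderiv ℝ (XR b u ρ w) t‖ ≤ 2) ∧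
      (∀ t, thR b u w (XR b u ρ w t) = t) ∧ ∀ x, XR b u ρ w (thR b u w x) = x := by
  have hρ := h.ρ0
  have hρ2 : 0 < ρ / 2 := by linarith
  have e0 : XR b u ρ w = fun t => reL (Xi b u ρ (ofR t, ofR w)) := rfl
  have hX : ∀ t, Xi b u ρ (ofR t, ofR w) = ofR (XR b u ρ w t) := fun t => h.Xi_realp hw t
  refine ⟨?_, ?_, hX, ?_, ?_, ?_⟩
  · rw [e0]
    exact rr_contDiff reL hρ2 h.Xi_hol hw
  · intro x k
    have h1 := (h.Xi_spec (ofR_mem_D hρ2 x hw)).2.2.2.2 k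
    simp only [] at h1
    unfold XR
    rw [ofR_add, h1, re_add, re_ofR]
  · intro t
    rw [e0]
    exact rr_bound1 reL l4_norm_reL hρ2 h.Xi_hol hw (h.Xi_spec (ofR_mem_D hρ2 t hw)).2.2.1
  · intro t
    have h1 := (h.Xi_spec (ofR_mem_D hρ2 t hw)).2.1
    simp only [] at h1
    have h2 : th b u (ofR (XR b u ρ w t), ofR w) = ofR t := by
      rw [← hX]
      exact h1
    unfold thR
    rw [h2, re_ofR]
  · intro x
    have h1 := (h.thR_spec hw).2.2.1 x
    have h2 := h.Xi_th (z := (ofR x, ofR w)) (ofR_mem_D hρ x hw)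
      (by rw [h1]; exact ofR_mem_D hρ2 _ hw)
    simp only [] at h2
    rw [h1] at h2
    unfold XR
    rw [h2, re_ofR]

theorem NS.vel_angle (h : NS κ ρ R CH H b u) {ε : ℝ} (he : ∀ z ∈ D ρ R, ‖err H b u z‖ ≤ ε) (hw : ‖w‖ < R - ρ / 2)
    (t : RE n) :
    ‖fderiv ℝ (XR b u ρ w) t w - re (vel H b u (ofR (XR b u ρ w t), ofR w))‖ ≤ 5 * ε / ρ := by
  have hρ := h.ρ0
  have hw' : ‖w‖ < R := by linarith
  set x := XR b u ρ w t with hx
  have hz : (ofR x, ofR w) ∈ (D ρ R : Set (CE n × CE n)) := ofR_mem_D hρ x hw'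
  set V := re (vel H b u (ofR x, ofR w)) with hV
  have hVr : vel H b u (ofR x, ofR w) = ofR V := h.vel_realp hw' x
  have hid := h.ident1 hz
  simp only [] at hid
  rw [hVr] at hid
  set g := gw (err H b u) (ofR x, ofR w) with hg
  have hre := congrArg re hid
  rw [re_add, re_ofR, re_add, re_ofR] at hre
  have ht1 := (h.thR_spec hw').2.2.2.2 x V
  rw [hre] at ht1
  have hΘx : thR b u w x = t := (h.XR_spec hw').2.2.2.2.1 t
  have hcomp : fderiv ℝ (XR b u ρ w) t (fderiv ℝ (thR b u w) x V) = V := by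
    have d1 : HasFDerivAt (thR b u w) (fderiv ℝ (thR b u w) x) x :=
      ((h.thR_spec hw').1.differentiable (by norm_num) x).hasFDerivAt
    have d2 : HasFDerivAt (XR b u ρ w) (fderiv ℝ (XR b u ρ w) t) (thR b u w x) := by
      rw [hΘx]
      exact ((h.XR_spec hw').1.differentiable (by norm_num) t).hasFDerivAt
    have d3 := d2.comp x d1
    have d4 : HasFDerivAt (XR b u ρ w ∘ thR b u w) (ContinuousLinearMap.id ℝ (RE n)) x := by
      have : (XR b u ρ w ∘ thR b u w) = id := funext fun y => (h.XR_spec hw').2.2.2.2.2 y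
      rw [this]
      exact hasFDerivAt_id x
    exact congrArg (fun L : RE n →L[ℝ] RE n => L V) (d3.unique d4)
  rw [ht1, map_add] at hcomp
  have e1 : fderiv ℝ (XR b u ρ w) t w - V =
      -(fderiv ℝ (XR b u ρ w) t (re (Ring.inverse (hess b (ofR w)) g))) := by
    rw [eq_neg_iff_add_eq_zero, sub_add_eq_add_sub, hcomp, sub_self]
  rw [e1, norm_neg]
  have hd : 0 < ρ / 2 := by linarith
  have hz2 : (ofR x, ofR w) ∈ (D (ρ - ρ / 2) (R - ρ / 2) : Set (CE n × CE n)) :=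
    ofR_mem_D (by linarith) x hw
  have hs := ball_subset_D hz2
  have hgb : ‖g‖ ≤ ε / (ρ / 2) :=
    (norm_gw_le _ _).trans (cauchy_fderiv hd (h.err_hol.mono hs) (fun y hy => he y (hs hy)))
  have hw2 : ofR w ∈ (Dw ρ R : Set (CE n)) := ofR_mem_Dw hρ hw'
  have hS := (h.isUnit hw2).2
  have hε : 0 ≤ ε := (norm_nonneg _).trans (he _ hz)
  have h1 : ‖re (Ring.inverse (hess b (ofR w)) g)‖ ≤ 102 / 100 * (ε / (ρ / 2)) := by
    refine (norm_re_le _).trans ?_
    refine (ContinuousLinearMap.le_opNorm _ _).trans ?_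
    exact mul_le_mul hS hgb (norm_nonneg _) (by norm_num)
  have h2 := (h.XR_spec hw').2.2.2.1 t
  calc ‖fderiv ℝ (XR b u ρ w) t (re (Ring.inverse (hess b (ofR w)) g))‖
      ≤ ‖fderiv ℝ (XR b u ρ w) t‖ * ‖re (Ring.inverse (hess b (ofR w)) g)‖ :=
        ContinuousLinearMap.le_opNorm _ _
    _ ≤ 2 * (102 / 100 * (ε / (ρ / 2))) := mul_le_mul h2 h1 (norm_nonneg _) (by norm_num)
    _ = (408 / 100) * ε / ρ := by
        rw [div_div_eq_mul_div]
        ring
    _ ≤ 5 * ε / ρ := by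
        apply div_le_div_of_nonneg_right _ hρ.le
        linarith

end Pool.Agent.LRT
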