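import Pool.Agent.LRT.C8b
import Pool.Agent.LRT.C9
import Pool.Agent.LRT.E0
import Pool.Agent.LRT.L4

/-!
E6 (difficulty 3; block RC).  The state at a real frequency `w`, in real terms.

PROOF.  `Θ x = re (th b u (ofR x, ofR w))`, `X t = re (Xi b u ρ (ofR t, ofR w))`, `U x = (u (ofR x, ofR w)).re`,
`q x = re (qv b u (ofR x, ofR w))`.  At real points all quantities are real: `cj (gb b (ofR w)) = gb b (ofR w)` (`gb_cj`, `cj_ofR`),
the same for `gx u`, `gv b u` (`gx_cj`, `NS.gv_real`), `Xi` (`NS.Xi_spec`), and `cj z = z` gives `z = ofR (re z)`.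
`ofR (Θ x) = ofR x + gv b u (ofR x, ofR w)`.  `Θ`, `X` are `C¹` (restrictions of holomorphic functions on `D ρ R`, `D (ρ/2) R` to real
points: compose with the real linear maps `x ↦ (ofR x, ofR w)` and `reL`; `hol_contDiffOn` and `ContDiffOn.restrict_scalars`, or
`hol_fderiv` for the continuity of the derivative).  `Θ (X t) = t`: `NS.Xi_spec`; `X (Θ x) = x`: `NS.Xi_th` (`(th .., w) ∈ D (ρ/2) R`
since real).  Periodicity: `NS.gv_per`, `NS.Xi_spec`.  Derivatives: `‖fderiv Θ x v‖ ≤ (1 + 1/8) ‖v‖` (`NS.gv_bound`; `fderiv ℝ Θ x v =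
v + re (fderiv ℂ (gv b u) (ofR x, ofR w) (ofR v, 0))`), `‖fderiv X t v‖ ≤ 2 ‖v‖` (`NS.Xi_spec`).
`U`: `fderiv ℝ U x v = (fderiv ℂ u (ofR x, ofR w) (ofR v, 0)).re = (dot (gx u ..) (ofR v)).re = inner ℝ (re (gx u ..)) v`
(`dot_gx`, `gx u ..= ofR (re ..)`, `dot_ofR`); `qv = gb b + gx u`.
Last clause: `NS.ident1` (C9): `vel + fderiv ℂ (gv b u) z (vel, 0) = ofR w + Ring.inverse (hess b z.2) (gw (err H b u) z)`, `z = (ofR x, ofR w)`,
`vel H b u z = ofR (re vel)` (real: `gw H` at the real point `(ofR x, ofR (q x))`, `gw_cj` for `H` on `D (2ρ) (R+1)`, `NS.q_mem`); take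
real parts: `fderiv ℝ Θ x (re vel) = w + re (Ring.inverse .. (gw err ..))`, `NS.isUnit` (`≤ 102/100`), `norm_re_le`.
-/

set_option autoImplicit false

open Set MeasureTheory Topology

namespace Pool.Agent.LRT

variable {n : ℕ} {κ ρ R CH : ℝ} {H : CE n × CE n → ℂ} {b : CE n → ℂ} {u : CE n × CE n → ℂ}

theorem NS.real_data (h : NS κ ρ R CH H b u) {w : RE n} (hw : ‖w‖ < R) :
    ∃ (Θ X : RE n → RE n) (U : RE n → ℝ) (q : RE n → RE n),
      TrD (bs n) Θ X ∧ ContDiff ℝ 1 U ∧ Pool.H45.Mather.Per (bs n) U ∧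
      (∀ x v, inner ℝ (q x) v = inner ℝ (re (gb b (ofR w))) v + fderiv ℝ U x v) ∧
      (∀ x, qv b u (ofR x, ofR w) = ofR (q x) ∧ ‖q x‖ ≤ R + 1 / 2) ∧
      (∀ t, Xi b u ρ (ofR t, ofR w) = ofR (X t)) ∧
      (∀ x, ‖fderiv ℝ Θ x (re (gw H (ofR x, ofR (q x)))) - w‖ ≤
        102 / 100 * ‖gw (err H b u) (ofR x, ofR w)‖) := by
  have hth := h.thR_spec hw
  have hX := h.XR_spec hw
  refine ⟨thR b u w, XR b u ρ w, fun x => (u (ofR x, ofR w)).re,
    fun x => re (gb b (ofR w)) + re (gx u (ofR x, ofR w)), ?_, ?_, ?_, ?_, ?_, hX.2.2.1, ?_⟩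
  · refine ⟨hth.1.of_le (by norm_num), hX.1.of_le (by norm_num), bs_per fun x k => ?_, bs_per fun x k => ?_,
      hX.2.2.2.2.1, hX.2.2.2.2.2, fun x v => ?_, fun x v => ?_⟩
    · rw [hth.2.1]; abel
    · rw [hX.2.1]; abel
    · refine (ContinuousLinearMap.le_opNorm _ _).trans ?_
      gcongr
      exact hth.2.2.2.1 x
    · refine (ContinuousLinearMap.le_opNorm _ _).trans ?_
      gcongr
      exact hX.2.2.2.1 x
  · exact (rr_contDiff Complex.reCLM h.ρ0 h.ud hw).of_le (by norm_num)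
  · exact bs_per fun x k => h.u_per_real hw x k
  · intro x v
    rw [inner_add_left, h.grad_real hw]
  · intro x
    refine ⟨h.qv_realp hw x, ?_⟩
    have h1 := h.q_small hw x
    have h2 := norm_sub_norm_le (re (gb b (ofR w)) + re (gx u (ofR x, ofR w))) w
    have h3 := h.κ1
    linarith
  · intro x
    have hz : (ofR x, ofR w) ∈ (D ρ R : Set (CE n × CE n)) := ofR_mem_D h.ρ0 x hw
    have h1 : gw H (ofR x, ofR (re (gb b (ofR w)) + re (gx u (ofR x, ofR w)))) = vel H b u (ofR x, ofR w) := by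
      unfold vel
      rw [h.qv_realp hw x]
    rw [h1, hth.2.2.2.2 x]
    have h2 := h.ident1 hz
    rw [← h.vel_realp hw x]
    have h3 : re (vel H b u (ofR x, ofR w)) + re (fderiv ℂ (gv b u) (ofR x, ofR w) (vel H b u (ofR x, ofR w), 0)) - w =
        re (Ring.inverse (hess b (ofR w)) (gw (err H b u) (ofR x, ofR w))) := by
      rw [← re_add, h2, re_add, re_ofR]
      abel
    rw [h3]
    refine (norm_re_le _).trans ((ContinuousLinearMap.le_opNorm _ _).trans ?_)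
    gcongr
    exact (h.isUnit (ofR_mem_Dw h.ρ0 hw)).2

end Pool.Agent.LRT
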