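import Pool.Agent.LRT.C2
import Pool.Agent.LRT.C8
import Pool.Agent.LRT.ED

/-!
E8 (difficulty 2).  Bound of the velocity error.

PROOF.  `z = (ofR x, ofR w) ∈ D (ρ - ρ/8) (R - ρ/8)` (`ofR_mem_D`), so `Metric.ball z (ρ/8) ⊆ D ρ R` (`ball_subset_D`);
`NS.err_hol` and `cauchy_fderiv` (C2) give `‖fderiv ℂ (err H b u) z‖ ≤ ρ^M / (ρ/8)`, and `norm_gw_le`.  So the left side is
`≤ 9 ρ^(M-1) + 2 ρ^M ≤ 11 ρ^(M-1) ≤ ρ^(M-2)` for `ρ ≤ 1/11` (`M = MM n = 200 (n+4)^2 ≥ 2`).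
-/

set_option autoImplicit false

open Set MeasureTheory Topology

namespace Pool.Agent.LRT

private lemma e8_num {ρ y g : ℝ} (hρ : ρ ≤ 1 / 11) (hρ0 : 0 < ρ) (hy0 : 0 ≤ y)
    (h2 : g ≤ 8 * (y * ρ)) : 102 / 100 * g + 2 * (y * ρ ^ 2) ≤ y := by
  nlinarith [mul_nonneg hy0 hρ0.le, mul_le_mul_of_nonneg_left hρ hy0,
    mul_le_mul_of_nonneg_left hρ (mul_nonneg hy0 hρ0.le)]

private lemma e8_two (n : ℕ) : 2 ≤ MM n :=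
  calc 2 ≤ 200 * 1 := by norm_num
    _ ≤ MM n := Nat.mul_le_mul_left _ (Nat.one_le_pow _ _ (Nat.succ_pos _))

theorem eta_res (n : ℕ) : ∃ ρ₀ : ℝ, 0 < ρ₀ ∧ ∀ (κ ρ R CH : ℝ) (H : CE n × CE n → ℂ) (b : CE n → ℂ)
    (u : CE n × CE n → ℂ), NS κ ρ R CH H b u → ρ ≤ ρ₀ → (∀ z ∈ D ρ R, ‖err H b u z‖ ≤ ρ ^ MM n) →
    ∀ x w : RE n, ‖w‖ < R - ρ / 8 →
    102 / 100 * ‖gw (err H b u) (ofR x, ofR w)‖ + 2 * ρ ^ MM n ≤ Eta n ρ := by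
  refine ⟨1 / 11, by norm_num, ?_⟩
  intro κ ρ R CH H b u h hρ hE x w hw
  have hρ0 : 0 < ρ := h.ρ0
  have hd : 0 < ρ / 8 := by positivity
  have hz : ((ofR x, ofR w) : CE n × CE n) ∈ D (ρ - ρ / 8) (R - ρ / 8) :=
    ofR_mem_D (by linarith) x hw
  have hsub := ball_subset_D hz
  have h1 : ‖fderiv ℂ (err H b u) (ofR x, ofR w)‖ ≤ ρ ^ MM n / (ρ / 8) :=
    cauchy_fderiv hd (h.err_hol.mono hsub) (fun y hy => hE y (hsub hy))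
  have h2 : ‖gw (err H b u) (ofR x, ofR w)‖ ≤ ρ ^ MM n / (ρ / 8) := (norm_gw_le _ _).trans h1
  have hM : MM n = MM n - 2 + 2 := by
    exact (Nat.sub_add_cancel (e8_two n)).symm
  obtain ⟨y, hy⟩ : ∃ y : ℝ, y = ρ ^ (MM n - 2) := ⟨_, rfl⟩
  have hy0 : 0 ≤ y := by rw [hy]; positivity
  have h3 : ρ ^ MM n = y * ρ ^ 2 := by
    rw [hy, ← pow_add, ← hM]
  have h4 : ρ ^ MM n / (ρ / 8) = 8 * (y * ρ) := by
    rw [h3]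
    field_simp
  rw [h4] at h2
  have h5 : Eta n ρ = y := hy.symm
  rw [h5, h3]
  exact e8_num hρ hρ0 hy0 h2

end Pool.Agent.LRT
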