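import Pool.Agent.LRT.VDe2

/-!
VF1 (difficulty 3).  Solving the cohomological equation for the nonresonant modes of a trigonometric polynomial.

`ec b m t = exp (2πi lin b m t)`, `RsM k m`: `m` is an integer multiple of `k`; `lin b m` is the integral linear form
(Pool/Agent/H45/MatherDefs.lean), `lin b m (lat b u) ∈ ℤ` (`lin_lat`), `lin b m (b i) = m i` (`lin_basis`).

PROOF.  `χ t = - Re ∑_{m ∈ S, ¬RsM k m} ε m / (2πi lin b m w) * ec b m t`,
`fl t = Re ∑_{m ∈ S, RsM k m} ε m * ec b m t` (`Finset.filter`, `open Classical in`).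
`|χ| ≤ ∑ ‖ε m‖/(2πγ) ≤ B/γ`.  Derivative of `t ↦ ec b m t`: `y ↦ 2πi (lin b m y) ec b m t`, so
`fderiv χ t y = - Re ∑ ε m (lin b m y / lin b m w) ec b m t`, norm `≤ ∑ ‖ε m‖ ‖lin b m‖/γ ≤ B/γ`, and
`fderiv χ t w = - Re ∑_{¬RsM} ε m ec b m t = fl t - Re ∑_{m∈S} ε m ec b m t`.  Periodicity: `ec b m (t + b i) = ec b m t`
(`exp (2πi N) = 1`).  `fl` depends only on `lin b k t`: for `m = j • k`, `lin b m t = j * lin b k t` (`lin_apply`).
The profile: `g s = Re ∑_{m ∈ S, RsM k m} ε m exp (2πi (lin b m κ) s)` with `κ` any vector with `lin b k κ = 1`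
(`κ = lat b u₀`): `lin b m κ = j` for `m = j • k`; so `fl t = g (lin b k t)`, `g (s + 1) = g s`, and
`|g s - g s'| ≤ B |s - s'|`: derivative bounded by `∑ 2π|j| ‖ε (j•k)‖ ≤ ∑ 2π ‖lin b m‖ ‖ε m‖` because
`|j| ≤ |j| ‖lin b k‖ = ‖lin b (j • k)‖` (`hk1`); or directly `|exp(ia) - exp(ib)| ≤ |a - b|`.
-/

set_option autoImplicit false

open MeasureTheory Module Set Filter Topology

namespace Pool.Agent.LRT

open Pool.H45.Mather

noncomputable section

set_option linter.unusedSectionVars false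
set_option linter.style.haveILetI false

variable {n : ℕ} {E : Type*} [NormedAddCommGroup E] [InnerProductSpace ℝ E] [FiniteDimensional ℝ E]
  [MeasurableSpace E] [BorelSpace E] {b : Basis (Fin n) ℝ E}

/-- the complex phase as a real linear map -/
def vf1_L (b : Basis (Fin n) ℝ E) (m : Fin n → ℤ) : E →L[ℝ] ℂ :=
  ((2 * Real.pi) • lin b m).smulRight Complex.I

omit [MeasurableSpace E] [BorelSpace E] in
lemma vf1_L_apply (m : Fin n → ℤ) (t : E) :
    vf1_L b m t = ((2 * Real.pi * lin b m t : ℝ) : ℂ) * Complex.I := by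
  simp [vf1_L]

omit [MeasurableSpace E] [BorelSpace E] in
lemma vf1_ec_eq (m : Fin n → ℤ) : ec b m = fun t => Complex.exp (vf1_L b m t) := by
  funext t
  rw [vf1_L_apply]
  rfl

omit [MeasurableSpace E] [BorelSpace E] in
lemma vf1_ec_deriv (m : Fin n → ℤ) (t : E) :
    HasFDerivAt (ec b m) (ec b m t • vf1_L b m) t := by
  rw [vf1_ec_eq m]
  exact (vf1_L b m).hasFDerivAt.cexp

omit [MeasurableSpace E] [BorelSpace E] in
lemma vf1_ec_smooth (m : Fin n → ℤ) : ContDiff ℝ 1 (ec b m) := by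
  rw [vf1_ec_eq m]
  exact (vf1_L b m).contDiff.cexp

omit [MeasurableSpace E] [BorelSpace E] in
lemma vf1_ec_norm (m : Fin n → ℤ) (t : E) : ‖ec b m t‖ = 1 := by
  unfold ec
  exact Complex.norm_exp_ofReal_mul_I _

lemma vf1_exp_int (x : ℝ) (j : ℤ) :
    Complex.exp (((2 * Real.pi * (x + j) : ℝ) : ℂ) * Complex.I) =
      Complex.exp (((2 * Real.pi * x : ℝ) : ℂ) * Complex.I) := by
  have h : ((2 * Real.pi * (x + j) : ℝ) : ℂ) * Complex.I =
      ((2 * Real.pi * x : ℝ) : ℂ) * Complex.I + j * (2 * Real.pi * Complex.I) := by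
    push_cast
    ring
  rw [h, Complex.exp_add, Complex.exp_int_mul_two_pi_mul_I, mul_one]

omit [MeasurableSpace E] [BorelSpace E] in
lemma vf1_ec_per (m : Fin n → ℤ) (i : Fin n) (t : E) : ec b m (t + b i) = ec b m t := by
  unfold ec
  rw [map_add, lin_basis]
  exact vf1_exp_int _ _

lemma vf1_exp_lip (x y : ℝ) :
    ‖Complex.exp ((x : ℂ) * Complex.I) - Complex.exp ((y : ℂ) * Complex.I)‖ ≤ |x - y| := by
  have h : Complex.exp ((x : ℂ) * Complex.I) - Complex.exp ((y : ℂ) * Complex.I) =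
      Complex.exp ((y : ℂ) * Complex.I) * (Complex.exp (Complex.I * ((x - y : ℝ) : ℂ)) - 1) := by
    rw [mul_sub, mul_one, ← Complex.exp_add]
    congr 2
    push_cast
    ring
  rw [h, norm_mul, Complex.norm_exp_ofReal_mul_I, one_mul]
  have := Real.norm_exp_I_mul_ofReal_sub_one_le (x := x - y)
  simpa using this

omit [MeasurableSpace E] [BorelSpace E] in
lemma vf1_lin_smul (j : ℤ) (k : Fin n → ℤ) : lin b (j • k) = (j : ℝ) • lin b k := by
  ext x
  rw [lin_apply]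
  simp only [Pi.smul_apply, smul_eq_mul, Int.cast_mul, FunLike.coe_smul, lin_apply,
    Finset.mul_sum]
  exact Finset.sum_congr rfl fun i _ => by ring

open Classical in
omit [MeasurableSpace E] [BorelSpace E] in
theorem fourier_data {S : Finset (Fin n → ℤ)} {ε : (Fin n → ℤ) → ℂ} {k u₀ : Fin n → ℤ} {w : E}
    {γ B : ℝ} (hγ : 0 < γ) (hs : ∀ m ∈ S, ¬ RsM k m → γ ≤ |lin b m w|)
    (hB : ∑ m ∈ S, (1 + 2 * Real.pi * ‖lin b m‖) * ‖ε m‖ ≤ B)
    (hu : lin b k (lat b u₀) = 1) (hk1 : 1 ≤ ‖lin b k‖) :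
    ∃ (χ : E → ℝ) (g : ℝ → ℝ), ContDiff ℝ 1 χ ∧ Per b χ ∧ (∀ x, |χ x| ≤ B / γ) ∧
      (∀ x, ‖fderiv ℝ χ x‖ ≤ B / γ) ∧
      (∀ s, g (s + 1) = g s) ∧ (∀ s s', |g s - g s'| ≤ B * |s - s'|) ∧ (∀ s, |g s| ≤ B) ∧
      (∀ s, g s = (∑ m ∈ S.filter (RsM k), ε m *
        Complex.exp (((2 * Real.pi * (lin b m (lat b u₀) * s) : ℝ) : ℂ) * Complex.I)).re) ∧
      (∀ x, (∑ m ∈ S, ε m * ec b m x).re + fderiv ℝ χ x w = g (lin b k x)) := by
  have hpi := Real.pi_pos
  have hB1 : ∑ m ∈ S, ‖ε m‖ ≤ B := by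
    refine le_trans (Finset.sum_le_sum fun m _ => ?_) hB
    have h1 : 0 ≤ 2 * Real.pi * ‖lin b m‖ * ‖ε m‖ := by positivity
    nlinarith [norm_nonneg (ε m)]
  have hB2 : ∑ m ∈ S, 2 * Real.pi * ‖lin b m‖ * ‖ε m‖ ≤ B := by
    refine le_trans (Finset.sum_le_sum fun m _ => ?_) hB
    nlinarith [norm_nonneg (ε m)]
  have hB0 : 0 ≤ B := le_trans (Finset.sum_nonneg fun m _ => norm_nonneg _) hB1
  -- the coefficients
  obtain ⟨c, hc⟩ : ∃ c : (Fin n → ℤ) → ℂ, ∀ m, c m =
      -(ε m) / (((2 * Real.pi * lin b m w : ℝ) : ℂ) * Complex.I) := ⟨_, fun _ => rfl⟩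
  obtain ⟨F, hF⟩ : ∃ F : Finset (Fin n → ℤ), F = S.filter (fun m => ¬ RsM k m) := ⟨_, rfl⟩
  have hFS : ∀ m ∈ F, m ∈ S ∧ ¬ RsM k m := by
    intro m hm
    rw [hF] at hm
    exact Finset.mem_filter.1 hm
  have hFsub : F ⊆ S := fun m hm => (hFS m hm).1
  have hN : ∀ m ∈ F, γ ≤ |lin b m w| := fun m hm => hs m (hFS m hm).1 (hFS m hm).2
  have hcn : ∀ m, ‖c m‖ = ‖ε m‖ / (2 * Real.pi * |lin b m w|) := by
    intro m
    rw [hc m, norm_div, norm_neg, norm_mul, Complex.norm_I, mul_one, Complex.norm_real,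
      Real.norm_eq_abs, abs_mul, abs_of_pos (by positivity : (0 : ℝ) < 2 * Real.pi)]
  have hcn1 : ∀ m ∈ F, ‖c m‖ * (2 * Real.pi) ≤ ‖ε m‖ / γ := by
    intro m hm
    have h0 : 0 < |lin b m w| := lt_of_lt_of_le hγ (hN m hm)
    rw [hcn m]
    have : ‖ε m‖ / (2 * Real.pi * |lin b m w|) * (2 * Real.pi) = ‖ε m‖ / |lin b m w| := by
      rw [div_mul_eq_mul_div, mul_comm ‖ε m‖, mul_div_mul_left _ _ (by positivity)]
    rw [this]
    exact div_le_div_of_nonneg_left (norm_nonneg _) hγ (hN m hm)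
  have hcn2 : ∀ m ∈ F, ‖c m‖ ≤ ‖ε m‖ / γ := by
    intro m hm
    refine le_trans ?_ (hcn1 m hm)
    have : (1 : ℝ) ≤ 2 * Real.pi := by nlinarith [Real.pi_gt_three]
    nlinarith [norm_nonneg (c m)]
  obtain ⟨G, hG⟩ : ∃ G : E → ℂ, ∀ t, G t = ∑ m ∈ F, c m * ec b m t := ⟨_, fun _ => rfl⟩
  have hGeq : G = fun t => ∑ m ∈ F, c m * ec b m t := funext hG
  have hGd : ∀ t, HasFDerivAt G (∑ m ∈ F, c m • (ec b m t • vf1_L b m)) t := by
    intro t
    rw [hGeq]
    exact HasFDerivAt.fun_sum fun m _ => (vf1_ec_deriv m t).const_mul (c m)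
  have hGs : ContDiff ℝ 1 G := by
    rw [hGeq]
    exact ContDiff.sum fun m _ => contDiff_const.mul (vf1_ec_smooth m)
  have hχd : ∀ t, HasFDerivAt (fun t => (G t).re)
      (Complex.reCLM.comp (∑ m ∈ F, c m • (ec b m t • vf1_L b m))) t := by
    intro t
    exact Complex.reCLM.hasFDerivAt.comp t (hGd t)
  have hχf : ∀ t y, fderiv ℝ (fun t => (G t).re) t y =
      (∑ m ∈ F, c m * (ec b m t * (((2 * Real.pi * lin b m y : ℝ) : ℂ) * Complex.I))).re := by
    intro t y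
    rw [(hχd t).fderiv]
    rw [ContinuousLinearMap.comp_apply, sum_apply, Complex.reCLM_apply]
    refine congrArg Complex.re (Finset.sum_congr rfl fun m _ => ?_)
    show c m • (ec b m t • vf1_L b m y) = _
    rw [vf1_L_apply, smul_eq_mul, smul_eq_mul]
  obtain ⟨g, hg⟩ : ∃ g : ℝ → ℝ, ∀ s, g s = (∑ m ∈ S.filter (RsM k), ε m *
        Complex.exp (((2 * Real.pi * (lin b m (lat b u₀) * s) : ℝ) : ℂ) * Complex.I)).re :=
    ⟨_, fun _ => rfl⟩
  have hres : ∀ m ∈ S.filter (RsM k), ∃ j : ℤ, m = j • k ∧ lin b m (lat b u₀) = j := by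
    intro m hm
    obtain ⟨j, hj⟩ := (Finset.mem_filter.1 hm).2
    refine ⟨j, hj, ?_⟩
    rw [hj, vf1_lin_smul, FunLike.coe_smul, Pi.smul_apply, hu, smul_eq_mul, mul_one]
  refine ⟨fun t => (G t).re, g, ?_, ?_, ?_, ?_, ?_, ?_, ?_, hg, ?_⟩
  · exact Complex.reCLM.contDiff.comp hGs
  · intro i x
    show (G (x + b i)).re = (G x).re
    rw [hG, hG]
    simp only [vf1_ec_per]
  · intro x
    calc |(G x).re| ≤ ‖G x‖ := Complex.abs_re_le_norm _
      _ ≤ ∑ m ∈ F, ‖c m * ec b m x‖ := by rw [hG]; exact norm_sum_le _ _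
      _ ≤ ∑ m ∈ F, ‖ε m‖ / γ := by
          refine Finset.sum_le_sum fun m hm => ?_
          rw [norm_mul, vf1_ec_norm, mul_one]
          exact hcn2 m hm
      _ = (∑ m ∈ F, ‖ε m‖) / γ := by rw [Finset.sum_div]
      _ ≤ B / γ := by
          refine div_le_div_of_nonneg_right (le_trans ?_ hB1) hγ.le
          exact Finset.sum_le_sum_of_subset_of_nonneg hFsub fun m _ _ => norm_nonneg _
  · intro x
    refine ContinuousLinearMap.opNorm_le_bound _ (by positivity) fun y => ?_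
    rw [hχf]
    calc ‖(∑ m ∈ F, c m * (ec b m x * (((2 * Real.pi * lin b m y : ℝ) : ℂ) * Complex.I))).re‖
        ≤ ‖∑ m ∈ F, c m * (ec b m x * (((2 * Real.pi * lin b m y : ℝ) : ℂ) * Complex.I))‖ := by
          rw [Real.norm_eq_abs]; exact Complex.abs_re_le_norm _
      _ ≤ ∑ m ∈ F, ‖c m * (ec b m x * (((2 * Real.pi * lin b m y : ℝ) : ℂ) * Complex.I))‖ :=
          norm_sum_le _ _
      _ ≤ ∑ m ∈ F, (2 * Real.pi * ‖lin b m‖ * ‖ε m‖) / γ * ‖y‖ := by
          refine Finset.sum_le_sum fun m hm => ?_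
          rw [norm_mul, norm_mul, vf1_ec_norm, one_mul, norm_mul, Complex.norm_I, mul_one,
            Complex.norm_real, Real.norm_eq_abs, abs_mul,
            abs_of_pos (by positivity : (0 : ℝ) < 2 * Real.pi)]
          have h1 : |lin b m y| ≤ ‖lin b m‖ * ‖y‖ := (lin b m).le_opNorm y
          have h2 := hcn1 m hm
          have h3 : (1 : ℝ) ≤ 2 * Real.pi := by nlinarith [Real.pi_gt_three]
          have h4 : 0 ≤ ‖ε m‖ / γ := by positivity
          calc ‖c m‖ * (2 * Real.pi * |lin b m y|)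
              = (‖c m‖ * (2 * Real.pi)) * |lin b m y| := by ring
            _ ≤ (‖ε m‖ / γ) * (‖lin b m‖ * ‖y‖) := by
                exact mul_le_mul h2 h1 (abs_nonneg _) h4
            _ ≤ (2 * Real.pi) * ((‖ε m‖ / γ) * (‖lin b m‖ * ‖y‖)) := by
                have h5 : 0 ≤ (‖ε m‖ / γ) * (‖lin b m‖ * ‖y‖) := by positivity
                nlinarith
            _ = (2 * Real.pi * ‖lin b m‖ * ‖ε m‖) / γ * ‖y‖ := by ring
      _ = (∑ m ∈ F, 2 * Real.pi * ‖lin b m‖ * ‖ε m‖) / γ * ‖y‖ := by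
          rw [Finset.sum_div, Finset.sum_mul]
      _ ≤ B / γ * ‖y‖ := by
          refine mul_le_mul_of_nonneg_right ?_ (norm_nonneg _)
          refine div_le_div_of_nonneg_right (le_trans ?_ hB2) hγ.le
          exact Finset.sum_le_sum_of_subset_of_nonneg hFsub fun m _ _ => by positivity
  · intro s
    rw [hg, hg]
    congr 1
    refine Finset.sum_congr rfl fun m hm => ?_
    obtain ⟨j, _, hj⟩ := hres m hm
    rw [hj]
    have h1 : (2 * Real.pi * ((j : ℝ) * (s + 1)) : ℝ) = 2 * Real.pi * ((j : ℝ) * s + j) := by ring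
    rw [h1, vf1_exp_int]
  · intro s s'
    rw [hg, hg, ← Complex.sub_re, ← Finset.sum_sub_distrib]
    calc |(∑ m ∈ S.filter (RsM k), (ε m *
          Complex.exp (((2 * Real.pi * (lin b m (lat b u₀) * s) : ℝ) : ℂ) * Complex.I) - ε m *
          Complex.exp (((2 * Real.pi * (lin b m (lat b u₀) * s') : ℝ) : ℂ) * Complex.I))).re|
        ≤ ‖∑ m ∈ S.filter (RsM k), (ε m *
          Complex.exp (((2 * Real.pi * (lin b m (lat b u₀) * s) : ℝ) : ℂ) * Complex.I) - ε m *
          Complex.exp (((2 * Real.pi * (lin b m (lat b u₀) * s') : ℝ) : ℂ) * Complex.I))‖ :=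
          Complex.abs_re_le_norm _
      _ ≤ ∑ m ∈ S.filter (RsM k), ‖ε m *
          Complex.exp (((2 * Real.pi * (lin b m (lat b u₀) * s) : ℝ) : ℂ) * Complex.I) - ε m *
          Complex.exp (((2 * Real.pi * (lin b m (lat b u₀) * s') : ℝ) : ℂ) * Complex.I)‖ :=
          norm_sum_le _ _
      _ ≤ ∑ m ∈ S.filter (RsM k), 2 * Real.pi * ‖lin b m‖ * ‖ε m‖ * |s - s'| := by
          refine Finset.sum_le_sum fun m hm => ?_
          obtain ⟨j, hmj, hj⟩ := hres m hm
          rw [hj, ← mul_sub, norm_mul]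
          have h1 := vf1_exp_lip (2 * Real.pi * ((j : ℝ) * s)) (2 * Real.pi * ((j : ℝ) * s'))
          have h2 : |2 * Real.pi * ((j : ℝ) * s) - 2 * Real.pi * ((j : ℝ) * s')| =
              2 * Real.pi * |(j : ℝ)| * |s - s'| := by
            rw [← mul_sub, ← mul_sub, abs_mul, abs_mul (j : ℝ),
              abs_of_pos (by positivity : (0 : ℝ) < 2 * Real.pi)]
            ring
          rw [h2] at h1
          have h3 : |(j : ℝ)| ≤ ‖lin b m‖ := by
            rw [hmj, vf1_lin_smul, norm_smul, Real.norm_eq_abs]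
            nlinarith [abs_nonneg (j : ℝ)]
          calc ‖ε m‖ * ‖Complex.exp (((2 * Real.pi * ((j : ℝ) * s) : ℝ) : ℂ) * Complex.I) -
                Complex.exp (((2 * Real.pi * ((j : ℝ) * s') : ℝ) : ℂ) * Complex.I)‖
              ≤ ‖ε m‖ * (2 * Real.pi * |(j : ℝ)| * |s - s'|) :=
                mul_le_mul_of_nonneg_left h1 (norm_nonneg _)
            _ ≤ ‖ε m‖ * (2 * Real.pi * ‖lin b m‖ * |s - s'|) := by
                refine mul_le_mul_of_nonneg_left ?_ (norm_nonneg _)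
                refine mul_le_mul_of_nonneg_right ?_ (abs_nonneg _)
                exact mul_le_mul_of_nonneg_left h3 (by positivity)
            _ = 2 * Real.pi * ‖lin b m‖ * ‖ε m‖ * |s - s'| := by ring
      _ = (∑ m ∈ S.filter (RsM k), 2 * Real.pi * ‖lin b m‖ * ‖ε m‖) * |s - s'| := by
          rw [Finset.sum_mul]
      _ ≤ B * |s - s'| := by
          refine mul_le_mul_of_nonneg_right (le_trans ?_ hB2) (abs_nonneg _)
          exact Finset.sum_le_sum_of_subset_of_nonneg (Finset.filter_subset _ _)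
            fun m _ _ => by positivity
  · intro s
    rw [hg]
    calc |(∑ m ∈ S.filter (RsM k), ε m *
          Complex.exp (((2 * Real.pi * (lin b m (lat b u₀) * s) : ℝ) : ℂ) * Complex.I)).re|
        ≤ ‖∑ m ∈ S.filter (RsM k), ε m *
          Complex.exp (((2 * Real.pi * (lin b m (lat b u₀) * s) : ℝ) : ℂ) * Complex.I)‖ :=
          Complex.abs_re_le_norm _
      _ ≤ ∑ m ∈ S.filter (RsM k), ‖ε m *
          Complex.exp (((2 * Real.pi * (lin b m (lat b u₀) * s) : ℝ) : ℂ) * Complex.I)‖ :=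
          norm_sum_le _ _
      _ = ∑ m ∈ S.filter (RsM k), ‖ε m‖ := by
          refine Finset.sum_congr rfl fun m _ => ?_
          rw [norm_mul, Complex.norm_exp_ofReal_mul_I, mul_one]
      _ ≤ B := le_trans (Finset.sum_le_sum_of_subset_of_nonneg (Finset.filter_subset _ _)
            fun m _ _ => norm_nonneg _) hB1
  · intro x
    rw [hχf, hg, ← Complex.add_re]
    congr 1
    have h1 : ∑ m ∈ F, c m * (ec b m x * (((2 * Real.pi * lin b m w : ℝ) : ℂ) * Complex.I)) =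
        -∑ m ∈ F, ε m * ec b m x := by
      rw [← Finset.sum_neg_distrib]
      refine Finset.sum_congr rfl fun m hm => ?_
      have h0 : lin b m w ≠ 0 := by
        intro h
        have := hN m hm
        rw [h, abs_zero] at this
        linarith
      have h2 : (((2 * Real.pi * lin b m w : ℝ) : ℂ) * Complex.I) ≠ 0 := by
        refine mul_ne_zero ?_ Complex.I_ne_zero
        rw [Complex.ofReal_ne_zero]
        exact mul_ne_zero (by positivity) h0
      rw [hc m, mul_comm (ec b m x), ← mul_assoc, div_mul_cancel₀ _ h2, neg_mul]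
    have h3 : ∑ m ∈ S, ε m * ec b m x = ∑ m ∈ S.filter (RsM k), ε m * ec b m x +
        ∑ m ∈ F, ε m * ec b m x := by
      rw [hF]
      exact (Finset.sum_filter_add_sum_filter_not S (RsM k) _).symm
    rw [h1, h3, add_neg_cancel_right]
    refine Finset.sum_congr rfl fun m hm => ?_
    obtain ⟨j, hmj, hj⟩ := hres m hm
    rw [hj]
    unfold ec
    have h4 : lin b m x = (j : ℝ) * lin b k x := by
      rw [hmj, vf1_lin_smul, FunLike.coe_smul, Pi.smul_apply, smul_eq_mul]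
    rw [h4]

end

end Pool.Agent.LRT
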