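import Pool.Agent.LRT.VDe2

/-!
VF2 (difficulty 2).  Fourier coefficients of a real trigonometric polynomial are bounded by its oscillation.

PROOF.  `G s = ∑_{j ∈ J} a j exp (2πi j s)`; by the symmetry `hS`, `conj (G s) = G s` (reindex `j ↦ -j`), so
`G s = ((G s).re : ℂ)`.  Let `g = Re G`, `c = (sup g + inf g)/2` or simply `c = g 0`: `|g s - g 0| ≤ A` for all `s`.
For `j ≠ 0`, `a j = ∫_0^1 G s exp (-2πi j s) ds = ∫_0^1 (g s - g 0) exp (-2πi j s) ds` because
`∫_0^1 exp (2πi N s) ds = 0` for `N ≠ 0` and `1` for `N = 0` (`integral_exp_mul_complex`, `exp (2πi N) = 1`).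
Hence `‖a j‖ ≤ A` (`intervalIntegral.norm_integral_le_of_norm_le_const`).
-/

set_option autoImplicit false

open MeasureTheory Module Set Filter Topology

namespace Pool.Agent.LRT

open Pool.H45.Mather

noncomputable section

set_option linter.unusedSectionVars false
set_option linter.style.haveILetI false

variable {n : ℕ} {E : Type*} [NormedAddCommGroup E] [InnerProductSpace ℝ E] [FiniteDimensional ℝ E]
  [MeasurableSpace E] [BorelSpace E] {b : Basis (Fin n) ℝ E}

/-- the exponential -/
def vf2e (N : ℤ) (s : ℝ) : ℂ := Complex.exp (((2 * Real.pi * (N * s) : ℝ) : ℂ) * Complex.I)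

lemma vf2e_mul (N M : ℤ) (s : ℝ) : vf2e N s * vf2e M s = vf2e (N + M) s := by
  unfold vf2e
  rw [← Complex.exp_add]
  congr 1
  push_cast
  ring

lemma vf2e_zero (s : ℝ) : vf2e 0 s = 1 := by
  simp [vf2e]

lemma vf2e_conj (N : ℤ) (s : ℝ) : (starRingEnd ℂ) (vf2e N s) = vf2e (-N) s := by
  unfold vf2e
  rw [← Complex.exp_conj, map_mul, Complex.conj_I, Complex.conj_ofReal]
  congr 1
  push_cast
  ring

lemma vf2e_norm (N : ℤ) (s : ℝ) : ‖vf2e N s‖ = 1 := Complex.norm_exp_ofReal_mul_I _

lemma vf2e_cont (N : ℤ) : Continuous (vf2e N) := by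
  unfold vf2e
  fun_prop

lemma vf2e_int {N : ℤ} (hN : N ≠ 0) : ∫ s in (0 : ℝ)..1, vf2e N s = 0 := by
  have hc : (2 * Real.pi * N * Complex.I : ℂ) ≠ 0 := by
    have h1 : (N : ℂ) ≠ 0 := by exact_mod_cast hN
    have h2 : (Real.pi : ℂ) ≠ 0 := by exact_mod_cast Real.pi_ne_zero
    simp [h1, h2]
  have h : (fun s : ℝ => vf2e N s) = fun s : ℝ => Complex.exp ((2 * Real.pi * N * Complex.I : ℂ) * s) := by
    funext s
    unfold vf2e
    congr 1
    push_cast
    ring
  rw [h, integral_exp_mul_complex hc]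
  have e1 : Complex.exp ((2 * Real.pi * N * Complex.I : ℂ) * ((1 : ℝ) : ℂ)) = 1 := by
    have h3 := Complex.exp_int_mul_two_pi_mul_I N
    rw [← h3]
    congr 1
    push_cast
    ring
  rw [e1]
  simp

omit [FiniteDimensional ℝ E] [MeasurableSpace E] [BorelSpace E] in
theorem coef_le_osc {J : Finset ℤ} {a : ℤ → ℂ}
    (hS : ∀ j ∈ J, -j ∈ J ∧ a (-j) = (starRingEnd ℂ) (a j)) {A : ℝ}
    (hA : ∀ s s' : ℝ, (∑ j ∈ J, a j * Complex.exp (((2 * Real.pi * (j * s) : ℝ) : ℂ) * Complex.I)).re -
      (∑ j ∈ J, a j * Complex.exp (((2 * Real.pi * (j * s') : ℝ) : ℂ) * Complex.I)).re ≤ A) :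
    ∀ j ∈ J, j ≠ 0 → ‖a j‖ ≤ A := by
  intro k hk hk0
  set G : ℝ → ℂ := fun s => ∑ j ∈ J, a j * vf2e j s with hG
  have hGA : ∀ s s' : ℝ, (G s).re - (G s').re ≤ A := hA
  have hreal : ∀ s, (starRingEnd ℂ) (G s) = G s := by
    intro s
    simp only [hG]
    rw [map_sum]
    refine Finset.sum_nbij' (fun j => -j) (fun j => -j) (fun j hj => (hS j hj).1)
      (fun j hj => (hS j hj).1) (fun j _ => neg_neg j) (fun j _ => neg_neg j) (fun j hj => ?_)
    rw [map_mul, vf2e_conj, (hS j hj).2]
  have hGr : ∀ s, G s = (((G s).re : ℝ) : ℂ) := fun s => (Complex.conj_eq_iff_re.1 (hreal s)).symm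
  have hcont : Continuous G := by
    simp only [hG]
    exact continuous_finsetSum _ fun j _ => continuous_const.mul (vf2e_cont j)
  have hbound : ∀ s, ‖G s - G 0‖ ≤ A := by
    intro s
    rw [hGr s, hGr 0, ← Complex.ofReal_sub, Complex.norm_real, Real.norm_eq_abs, abs_le]
    constructor
    · have := hGA 0 s
      linarith
    · exact hGA s 0
  have hint : ∫ s in (0 : ℝ)..1, (G s - G 0) * vf2e (-k) s = a k := by
    have e1 : (fun s => (G s - G 0) * vf2e (-k) s) =
        fun s => (∑ j ∈ J, a j * vf2e (j + -k) s) - G 0 * vf2e (-k) s := by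
      funext s
      rw [sub_mul]
      congr 1
      simp only [hG]
      rw [Finset.sum_mul]
      refine Finset.sum_congr rfl fun j _ => ?_
      rw [mul_assoc, vf2e_mul]
    rw [e1, intervalIntegral.integral_sub, intervalIntegral.integral_finsetSum,
      intervalIntegral.integral_const_mul, vf2e_int (neg_ne_zero.2 hk0), mul_zero, sub_zero]
    · rw [Finset.sum_eq_single k]
      · rw [intervalIntegral.integral_const_mul, add_neg_cancel]
        simp only [vf2e_zero]
        simp
      · intro j _ hj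
        rw [intervalIntegral.integral_const_mul, vf2e_int, mul_zero]
        intro h
        exact hj (by linarith)
      · intro h
        exact absurd hk h
    · intro j _
      exact (continuous_const.mul (vf2e_cont _)).intervalIntegrable _ _
    · exact (continuous_finsetSum _ fun j _ =>
        continuous_const.mul (vf2e_cont _)).intervalIntegrable _ _
    · exact (continuous_const.mul (vf2e_cont _)).intervalIntegrable _ _
  rw [← hint]
  have h1 := intervalIntegral.norm_integral_le_of_norm_le_const (a := (0 : ℝ)) (b := 1) (C := A)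
    (f := fun s => (G s - G 0) * vf2e (-k) s) (fun s _ => by
      rw [norm_mul, vf2e_norm, mul_one]
      exact hbound s)
  simpa using h1

end

end Pool.Agent.LRT
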