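import Pool.Agent.LRT.VL1

/-!
VL2 (difficulty 2).  Quadratic bounds for the transported Lagrangian.

Notation: `Ltr L c u X (t,v) = L (X t, DX v) - ⟨c, DX v⟩ - du (X t)(DX v)`, `DX = fderiv ℝ X t` (LRT/VDe2).

PROOF.  Put `V = fderiv ℝ X t v`, `x = X t`.  By `hq`, `Ltr = Leg H (x,V) - ⟨q,V⟩`.  Since `X ∘ Θ = id` and `Θ ∘ X = id`,
`fderiv ℝ X t (fderiv ℝ Θ x y) = y` and `fderiv ℝ Θ x (fderiv ℝ X t v) = v` (chain rule; `Θ x = t`).
(R1) `leg_le` with `p = q`: `Ltr ≤ - H (x,q) + ‖V - Hp (x,q)‖²` and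
`V - Hp (x,q) = fderiv ℝ X t (v - fderiv ℝ Θ x (Hp (x,q)))`, norm `≤ 2 ‖..‖`.
(R2) let `π = adjoint (fderiv ℝ Θ x) p` (`ContinuousLinearMap.adjoint`, needs completeness: `FiniteDimensional.complete ℝ E`;
or the Riesz vector of `y ↦ ⟨p, fderiv ℝ Θ x y⟩` by `InnerProductSpace.toDual`), `‖π‖ ≤ 2‖p‖`, `⟨p,v⟩ = ⟨p, DΘ V⟩ = ⟨π,V⟩`.
`fenchel` with momentum `q + π` and `up`: `⟨q + π, V⟩ ≤ Leg H (x,V) + H (x,q) + ⟨Hp (x,q), π⟩ + ‖π‖²`, and
`⟨Hp (x,q), π⟩ = ⟨DΘ (Hp (x,q)), p⟩`, `‖π‖² ≤ 4‖p‖²`.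
-/

set_option autoImplicit false

open MeasureTheory Module Set Filter Topology

namespace Pool.Agent.LRT

open Pool.H45.Mather

noncomputable section

set_option linter.unusedSectionVars false
set_option linter.style.haveILetI false

variable {n : ℕ} {E : Type*} [NormedAddCommGroup E] [InnerProductSpace ℝ E] [FiniteDimensional ℝ E]
  [MeasurableSpace E] [BorelSpace E] {b : Basis (Fin n) ℝ E}

variable {H : E × E → ℝ} {Hp : E × E → E} {Θ X : E → E}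

omit [FiniteDimensional ℝ E] [MeasurableSpace E] [BorelSpace E] in
private theorem vl2_XΘ (hT : TrD b Θ X) (t y : E) : fderiv ℝ X t (fderiv ℝ Θ (X t) y) = y := by
  have h1 : X ∘ Θ = id := funext fun x => hT.XΘ x
  have h2 : fderiv ℝ (X ∘ Θ) (X t) = (fderiv ℝ X (Θ (X t))).comp (fderiv ℝ Θ (X t)) :=
    fderiv_comp _ (hT.hX.differentiable one_ne_zero _) (hT.hΘ.differentiable one_ne_zero _)
  rw [hT.ΘX, h1, fderiv_id] at h2
  exact (congrArg (fun f : E →L[ℝ] E => f y) h2).symm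

omit [FiniteDimensional ℝ E] [MeasurableSpace E] [BorelSpace E] in
private theorem vl2_ΘX (hT : TrD b Θ X) (t v : E) : fderiv ℝ Θ (X t) (fderiv ℝ X t v) = v := by
  have h1 : Θ ∘ X = id := funext fun x => hT.ΘX x
  have h2 : fderiv ℝ (Θ ∘ X) t = (fderiv ℝ Θ (X t)).comp (fderiv ℝ X t) :=
    fderiv_comp _ (hT.hΘ.differentiable one_ne_zero _) (hT.hX.differentiable one_ne_zero _)
  rw [h1, fderiv_id] at h2
  exact (congrArg (fun f : E →L[ℝ] E => f v) h2).symm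

omit [FiniteDimensional ℝ E] [MeasurableSpace E] [BorelSpace E] in
private theorem vl2_Ltr (c : E) {u : E → ℝ} (t v q : E)
    (hq : ∀ y, inner ℝ q y = inner ℝ c y + fderiv ℝ u (X t) y) :
    Ltr (Leg H) c u X (t, v) = Leg H (X t, fderiv ℝ X t v) - inner ℝ q (fderiv ℝ X t v) := by
  unfold Ltr tg
  rw [hq]
  simp only
  ring

omit [MeasurableSpace E] [BorelSpace E] in
theorem HamC.R1 (hH : HamC b H Hp) (hT : TrD b Θ X) (c : E) {u : E → ℝ} (t v q : E)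
    (hq : ∀ y, inner ℝ q y = inner ℝ c y + fderiv ℝ u (X t) y) :
    Ltr (Leg H) c u X (t, v) ≤
      -H (X t, q) + 4 * ‖v - fderiv ℝ Θ (X t) (Hp (X t, q))‖ ^ 2 := by
  rw [vl2_Ltr c t v q hq]
  have h1 := hH.leg_le (X t) (fderiv ℝ X t v) q
  have h2 : fderiv ℝ X t v - Hp (X t, q) = fderiv ℝ X t (v - fderiv ℝ Θ (X t) (Hp (X t, q))) := by
    rw [map_sub, vl2_XΘ hT]
  have h3 := hT.nX t (v - fderiv ℝ Θ (X t) (Hp (X t, q)))
  rw [← h2] at h3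
  have h4 : ‖fderiv ℝ X t v - Hp (X t, q)‖ ^ 2 ≤ (2 * ‖v - fderiv ℝ Θ (X t) (Hp (X t, q))‖) ^ 2 :=
    pow_le_pow_left₀ (norm_nonneg _) h3 2
  nlinarith

omit [MeasurableSpace E] [BorelSpace E] in
theorem HamC.R2 (hH : HamC b H Hp) (hT : TrD b Θ X) (c : E) {u : E → ℝ} (t v q p : E)
    (hq : ∀ y, inner ℝ q y = inner ℝ c y + fderiv ℝ u (X t) y) :
    inner ℝ p v ≤ Ltr (Leg H) c u X (t, v) + H (X t, q) +
      inner ℝ (fderiv ℝ Θ (X t) (Hp (X t, q))) p + 4 * ‖p‖ ^ 2 := by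
  haveI : CompleteSpace E := FiniteDimensional.complete ℝ E
  rw [vl2_Ltr c t v q hq]
  set π : E := ContinuousLinearMap.adjoint (fderiv ℝ Θ (X t)) p with hπ
  have e1 : ∀ y, inner ℝ π y = inner ℝ p (fderiv ℝ Θ (X t) y) := by
    intro y
    rw [hπ, ContinuousLinearMap.adjoint_inner_left]
  have e2 : ‖π‖ ≤ 2 * ‖p‖ := by
    have h1 := e1 π
    rw [real_inner_self_eq_norm_sq] at h1
    have h2 := real_inner_le_norm p (fderiv ℝ Θ (X t) π)
    have h3 := hT.nΘ (X t) π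
    have h4 : ‖π‖ ^ 2 ≤ ‖p‖ * (2 * ‖π‖) := by
      rw [h1]
      exact h2.trans (mul_le_mul_of_nonneg_left h3 (norm_nonneg _))
    rcases eq_or_lt_of_le (norm_nonneg π) with h | h
    · rw [← h]
      positivity
    · nlinarith
  have h1 := hH.fenchel (X t) (fderiv ℝ X t v) (q + π)
  have h2 := hH.up (X t) q π
  rw [inner_add_left, e1, vl2_ΘX hT] at h1
  have h3 : inner ℝ (Hp (X t, q)) π = inner ℝ (fderiv ℝ Θ (X t) (Hp (X t, q))) p := by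
    rw [real_inner_comm, e1, real_inner_comm]
  rw [h3] at h2
  have h4 : ‖π‖ ^ 2 ≤ (2 * ‖p‖) ^ 2 := pow_le_pow_left₀ (norm_nonneg _) e2 2
  nlinarith

end

end Pool.Agent.LRT
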