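import Pool.Agent.LRT.E1
import Pool.Agent.LRT.E2
import Pool.Agent.LRT.E3
import Pool.Agent.LRT.E4
import Pool.Agent.LRT.E5
import Pool.Agent.LRT.E6
import Pool.Agent.LRT.E8
import Pool.Agent.LRT.VTR

/-!
E7 (difficulty 4; helper13).  Differentiability of the beta function implies smallness of the resonant coefficients.
-/

set_option autoImplicit false

open Set MeasureTheory Topology

namespace Pool.Agent.LRT

theorem res_of_diff {n : ℕ} (hn : 1 ≤ n) : ∃ ρ₀ : ℝ, 0 < ρ₀ ∧ ∀ (κ ρ R CH : ℝ)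
    (H : CE n × CE n → ℂ) (b : CE n → ℂ) (u : CE n × CE n → ℂ), NS κ ρ R CH H b u → ρ ≤ ρ₀ →
    (∀ z ∈ D ρ R, ‖err H b u z‖ ≤ ρ ^ MM n) →
    ∀ (Ht : RE n × RE n → ℝ) (Hpt : RE n × RE n → RE n), HamC (bs n) Ht Hpt →
    (∀ x p : RE n, ‖p‖ ≤ R + 1 → |Ht (x, p) - (H (ofR x, ofR p)).re| ≤ ρ ^ (MM n + 5 * (n + 4) + 1)) →
    (∀ x p : RE n, ‖p‖ ≤ R + 1 → ‖Hpt (x, p) - re (gw H (ofR x, ofR p))‖ ≤ ρ ^ MM n) →
    (∀ h : RE n, ‖h‖ < R → DifferentiableAt ℝ (betaL (bs n) (Leg Ht)) h) →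
    RsC ⌈(ρ ^ 2)⁻¹⌉₊ (2 * ρ ^ (MM n + 4 * (n + 4))) (R - ρ / 4) (et H b u ρ) := by
  obtain ⟨r1, hr1, H1⟩ := coef_near n
  obtain ⟨r2, hr2, H2⟩ := bx_norm n
  obtain ⟨r3, hr3, H3⟩ := four_res n
  obtain ⟨r4, hr4, H4⟩ := arith_res hn
  obtain ⟨r5, hr5, H5⟩ := num_res n
  obtain ⟨r8, hr8, H8⟩ := eta_res n
  refine ⟨min (min (min r1 r2) (min r3 r4)) (min (min r5 r8) (1 / 2)), by positivity, ?_⟩
  intro κ ρ R CH H b u hNS hρ herr Ht Hpt hHam hHt hHpt hdiff
  have hρ0 : 0 < ρ := hNS.ρ0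
  have hA : ρ ≤ min (min r1 r2) (min r3 r4) := hρ.trans (min_le_left _ _)
  have hB : ρ ≤ min (min r5 r8) (1 / 2) := hρ.trans (min_le_right _ _)
  have le1 : ρ ≤ r1 := (hA.trans (min_le_left _ _)).trans (min_le_left _ _)
  have le2 : ρ ≤ r2 := (hA.trans (min_le_left _ _)).trans (min_le_right _ _)
  have le3 : ρ ≤ r3 := (hA.trans (min_le_right _ _)).trans (min_le_left _ _)
  have le4 : ρ ≤ r4 := (hA.trans (min_le_right _ _)).trans (min_le_right _ _)
  have le5 : ρ ≤ r5 := (hB.trans (min_le_left _ _)).trans (min_le_left _ _)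
  have le8 : ρ ≤ r8 := (hB.trans (min_le_left _ _)).trans (min_le_right _ _)
  have le2' : ρ ≤ 1 / 2 := hB.trans (min_le_right _ _)
  set G := et H b u ρ with hG
  have hGd : DifferentiableOn ℂ G (D (ρ / 2) R) := hNS.et_hol
  have hGr : RealX (ρ / 2) R G := hNS.et_real
  have hGp : PerX (ρ / 2) R G := hNS.et_per
  have hGb : ∀ z ∈ D (ρ / 2) R, ‖G z‖ ≤ ρ ^ MM n := fun z hz => hNS.et_bound herr hz
  intro m hm hm0 w0 hw0 hw0n
  obtain ⟨j, k, u₀, hj, hmk, hu₀, hkb⟩ := exists_prim hm0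
  have hkK := hkb _ hm
  have hk0 : k ≠ 0 := by
    rintro rfl
    simp at hu₀
  obtain ⟨hKQ, hkn'⟩ := H2 ρ hρ0 le2
  have hkn := hkn' k hkK
  have hk1 := norm_lat_ge hk0
  have hlatm : lat m = (j : ℝ) • lat k := by
    rw [hmk]
    ext i
    simp [lat]
  have hj' : (j : ℝ) ≠ 0 := by exact_mod_cast hj
  have hw0k : inner ℝ (lat k) w0 = 0 := by
    rw [hlatm, real_inner_smul_left] at hw0
    exact (mul_eq_zero.1 hw0).resolve_left hj'
  obtain ⟨w, hkw, hww, hres, hdens⟩ := H4 ρ hρ0 le4 k ⟨u₀, hu₀⟩ hkn w0 hw0k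
  obtain ⟨hwR, hnear⟩ := H1 ρ R hρ0 le1 G hGd hGp hGb m w0 w hw0n hww
  have hwR' : ‖w‖ < R := by linarith
  obtain ⟨Θ, X, U, q, hT, hU, hUp, hq, hqv, hX, hvel⟩ := hNS.real_data hwR'
  obtain ⟨hF1, hF2⟩ := H3 ρ R hρ0 le3 G hGd hGp hGb w hwR'
  obtain ⟨hn1, hn2⟩ := H5 ρ hρ0 le5 ‖lat k‖ hk1 hkn
  have hmQ : m ∈ bx n (Qn n ρ) := by
    rw [mem_bx] at hm ⊢
    intro i
    exact (hm i).trans (by exact_mod_cast hKQ)
  have hwD : ofR w ∈ (Dw (ρ / 2) R : Set (CE n)) := ofR_mem_Dw (by positivity) hwR'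
  have key := TR (b := bs n) hHam hT (c := re (gb b (ofR w))) (w := w) hU hUp hq (k := k) (u₀ := u₀)
    (S := bx n (Qn n ρ)) (ε := fun m => coef G m (ofR w)) (γ := Gam n ρ) (B := Bz n ρ)
    (e1 := Ez n ρ) (η := Eta n ρ) (a := (dot (ofR w) (gb b (ofR w)) - b (ofR w)).re)
    (A0 := Az n ρ) (T := Tim n ρ) (r₀ := Rad n ρ)
    (by
      rw [bs_lat, bs_lin]
      have : inner ℝ (lat k) (lat u₀) = ((∑ i, u₀ i * k i : ℤ) : ℝ) := by
        rw [PiLp.inner_apply]
        push_cast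
        refine Finset.sum_congr rfl fun i _ => ?_
        simp
      rw [this, hu₀]
      simp)
    (by rw [bs_norm_lin]; exact hk1)
    (by rw [bs_lin]; exact hkw)
    (by
      intro m' hm'
      refine ⟨?_, ?_⟩
      · rw [mem_bx] at hm' ⊢
        intro i
        rw [Pi.neg_apply, abs_neg]
        exact hm' i
      · have := coef_real (ρ := ρ / 2) (R := R) (by positivity) hGr m' hwD
        rw [cj_ofR] at this
        exact this)
    (by unfold Gam; positivity) (by unfold Bz; positivity) (by unfold Ez; positivity)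
    (by unfold Eta; positivity) (by unfold Az; positivity) (by unfold Tim; positivity)
    (by
      intro t
      have e1 : ∀ m : Fin n → ℤ, ec (bs n) m t = ch m (ofR t) := fun m => bs_ec m t
      simp only [e1]
      have h1 := hF1 t
      have h2 : G (ofR t, ofR w) = H (ofR (X t), ofR (q (X t))) -
          (dot (ofR w) (gb b (ofR w)) - b (ofR w)) := by
        rw [hG]
        unfold et
        rw [hX t]
        unfold err
        rw [(hqv (X t)).1]
        ring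
      have h3 : |(G (ofR t, ofR w)).re - (∑ m ∈ bx n (Qn n ρ), coef G m (ofR w) * ch m (ofR t)).re| ≤
          Ez n ρ / 2 := by
        rw [← Complex.sub_re]
        exact (Complex.abs_re_le_norm _).trans h1
      have h4 : (G (ofR t, ofR w)).re = (H (ofR (X t), ofR (q (X t)))).re -
          (dot (ofR w) (gb b (ofR w)) - b (ofR w)).re := by
        rw [h2, Complex.sub_re]
      have h5 := hHt (X t) (q (X t)) ((hqv (X t)).2.trans (by linarith))
      have h6 : ρ ^ (MM n + 5 * (n + 4) + 1) ≤ Ez n ρ / 2 := by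
        unfold Ez
        rw [pow_succ]
        have : (0:ℝ) < ρ ^ (MM n + 5 * (n + 4)) := by positivity
        nlinarith
      rw [h4] at h3
      have h7 := abs_add_le (Ht (X t, q (X t)) - (H (ofR (X t), ofR (q (X t)))).re)
        ((H (ofR (X t), ofR (q (X t)))).re - (dot (ofR w) (gb b (ofR w)) - b (ofR w)).re -
          (∑ m ∈ bx n (Qn n ρ), coef G m (ofR w) * ch m (ofR t)).re)
      have h8 : Ht (X t, q (X t)) - (dot (ofR w) (gb b (ofR w)) - b (ofR w)).re -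
          (∑ m ∈ bx n (Qn n ρ), coef G m (ofR w) * ch m (ofR t)).re =
          (Ht (X t, q (X t)) - (H (ofR (X t), ofR (q (X t)))).re) +
        ((H (ofR (X t), ofR (q (X t)))).re - (dot (ofR w) (gb b (ofR w)) - b (ofR w)).re -
          (∑ m ∈ bx n (Qn n ρ), coef G m (ofR w) * ch m (ofR t)).re) := by ring
      rw [h8]
      linarith)
    (by
      intro t
      have h1 := hvel (X t)
      have h2 := H8 κ ρ R CH H b u hNS le8 herr (X t) w hwR
      have h3 := hHpt (X t) (q (X t)) ((hqv (X t)).2.trans (by linarith))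
      have h4 := hT.nΘ (X t) (Hpt (X t, q (X t)) - re (gw H (ofR (X t), ofR (q (X t)))))
      have h5 : fderiv ℝ Θ (X t) (Hpt (X t, q (X t))) - w =
          (fderiv ℝ Θ (X t) (re (gw H (ofR (X t), ofR (q (X t))))) - w) +
          fderiv ℝ Θ (X t) (Hpt (X t, q (X t)) - re (gw H (ofR (X t), ofR (q (X t))))) := by
        rw [map_sub]
        abel
      rw [h5]
      have h6 := norm_add_le (fderiv ℝ Θ (X t) (re (gw H (ofR (X t), ofR (q (X t))))) - w)
        (fderiv ℝ Θ (X t) (Hpt (X t, q (X t)) - re (gw H (ofR (X t), ofR (q (X t))))))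
      linarith)
    (by
      intro m' hm' hnr
      rw [bs_lin]
      exact hres m' hm' hnr)
    (by
      simp only [bs_norm_lin]
      exact hF2)
    (by
      rw [bs_norm_lin]
      have h1 : Rad n ρ ≤ ρ ^ 4 := by
        unfold Rad
        exact pow_le_pow_of_le_one hρ0.le (by linarith) (by omega)
      have h2 : Rad n ρ * ‖lat k‖ ≤ ρ ^ 4 * (ρ ^ 3)⁻¹ :=
        mul_le_mul h1 hkn (norm_nonneg _) (by positivity)
      have h3 : ρ ^ 4 * (ρ ^ 3)⁻¹ = ρ := by field_simp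
      linarith)
    (by
      intro z hz
      rw [bs_lin] at hz
      obtain ⟨r, hr0, hrT, m', hm'⟩ := hdens z hz
      exact ⟨r, hr0, hrT, m', by rw [bs_lat]; exact hm'⟩)
    hn1
    (by rw [bs_rv]; exact hn2)
    (hdiff w hwR')
  have h1 := key m hmQ ⟨j, hmk⟩ hm0
  have h2 := norm_sub_norm_le (coef G m (ofR w0)) (coef G m (ofR w))
  have h3 : Az n ρ = ρ ^ (MM n + 4 * (n + 4)) := rfl
  rw [h3] at h1 hnear
  linarith

end Pool.Agent.LRT
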