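import Pool.Agent.LRT.FD

/-!
F1 (difficulty 3).  A smooth periodic function which is the identity near `0`; periodic smooth functions have bounded derivatives.

PROOF.  `exists_sig`: let `φ : ℝ → ℝ` be smooth, `0 ≤ φ ≤ 1`, `φ = 1` on `[-1/4, 1/4]`, `φ = 0` outside `(-3/8, 3/8)` (`ContDiffBump` centred at `0` with `rIn = 1/4`, `rOut = 3/8`), `ψ t = t * φ t`, `|ψ| ≤ 3/8`, `ψ = 0` for `|t| ≥ 3/8`; `σ t = ψ (t - round t)`.  Periodic: `round (t + 1) = round t + 1`.
Smooth at `t₀`: if `|t₀ - round t₀| < 1/2` then near `t₀` the value `round t` is constant, `σ t = ψ (t - k)`.  If `|t₀ - round t₀| = 1/2` then for `|t - t₀| < 1/8` the distance of `t` to every integer is `> 3/8`, so `σ = 0` near `t₀`.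
(`contDiff_iff_contDiffAt`, `ContDiffAt.congr_of_eventuallyEq`.)  `|t| ≤ 1/4`: `round t = 0`.
`per_bdd`: `Φ : RE n → RE n` with `ContDiff ℝ ∞ Φ` and `Φ (y + lat l) = Φ y`: `iteratedFDeriv ℝ j Φ` is continuous and periodic (`iteratedFDeriv_comp_add_right`), so it is bounded by its maximum on the compact closed cell `{y | ∀ i, 0 ≤ y i ≤ 1}` (every `y` is `y' + lat l`, `l i = ⌊y i⌋`).
-/

set_option autoImplicit false

open Set MeasureTheory Topology

namespace Pool.Agent.LRT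

theorem exists_sig : ∃ σ : ℝ → ℝ, ContDiff ℝ ((⊤ : ℕ∞) : WithTop ℕ∞) σ ∧ (∀ t, σ (t + 1) = σ t) ∧
    (∀ t, |t| ≤ 1 / 4 → σ t = t) ∧ ∀ t, |σ t| ≤ 3 / 8 := by
  let φ : ContDiffBump (0 : ℝ) := ⟨1 / 4, 3 / 8, by norm_num, by norm_num⟩
  obtain ⟨ψ, hψ⟩ : ∃ ψ : ℝ → ℝ, ψ = fun t => t * φ t := ⟨_, rfl⟩
  have hψs : ContDiff ℝ ((⊤ : ℕ∞) : WithTop ℕ∞) ψ := by
    rw [hψ]
    exact contDiff_id.mul φ.contDiff
  have hψ0 : ∀ t, 3 / 8 ≤ |t| → ψ t = 0 := by
    intro t ht
    have h1 : φ t = 0 := by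
      apply φ.zero_of_le_dist
      rw [Real.dist_eq, sub_zero]
      exact ht
    rw [hψ]
    show t * φ t = 0
    rw [h1, mul_zero]
  have hψ1 : ∀ t, |t| ≤ 1 / 4 → ψ t = t := by
    intro t ht
    have h1 : φ t = 1 := by
      apply φ.one_of_mem_closedBall
      rw [Metric.mem_closedBall, Real.dist_eq, sub_zero]
      exact ht
    rw [hψ]
    show t * φ t = t
    rw [h1, mul_one]
  have hψb : ∀ t, |ψ t| ≤ 3 / 8 := by
    intro t
    by_cases ht : 3 / 8 ≤ |t|
    · rw [hψ0 t ht, abs_zero]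
      norm_num
    · push Not at ht
      rw [hψ]
      show |t * φ t| ≤ 3 / 8
      rw [abs_mul, abs_of_nonneg φ.nonneg]
      have h1 : |t| * φ t ≤ |t| * 1 := mul_le_mul_of_nonneg_left φ.le_one (abs_nonneg t)
      linarith
  have hround : ∀ (t : ℝ) (k : ℤ), |t - k| < 1 / 2 → round t = k := by
    intro t k h
    rw [abs_lt] at h
    rw [round_eq, Int.floor_eq_iff]
    constructor <;> linarith
  refine ⟨fun t => ψ (t - round t), ?_, ?_, ?_, ?_⟩
  · rw [contDiff_iff_contDiffAt]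
    intro t₀
    by_cases h0 : |t₀ - round t₀| < 1 / 2
    · have h1 : ContDiffAt ℝ ((⊤ : ℕ∞) : WithTop ℕ∞) (fun t => ψ (t - round t₀)) t₀ := by
        exact (hψs.comp (contDiff_id.sub contDiff_const)).contDiffAt
      refine h1.congr_of_eventuallyEq ?_
      have h2 : ContinuousAt (fun t : ℝ => |t - round t₀|) t₀ := by fun_prop
      filter_upwards [h2.eventually (Iio_mem_nhds h0)] with t ht
      rw [hround t (round t₀) ht]
    · push Not at h0
      have h1 : ContDiffAt ℝ ((⊤ : ℕ∞) : WithTop ℕ∞) (fun _ : ℝ => (0 : ℝ)) t₀ := contDiffAt_const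
      refine h1.congr_of_eventuallyEq ?_
      have h2 : ∀ᶠ t in 𝓝 t₀, |t - t₀| < 1 / 8 := by
        have h3 : ContinuousAt (fun t : ℝ => |t - t₀|) t₀ := by fun_prop
        apply h3.eventually (Iio_mem_nhds _)
        show |t₀ - t₀| < 1 / 8
        rw [sub_self, abs_zero]
        norm_num
      filter_upwards [h2] with t ht
      apply hψ0
      have h3 := round_le t₀ (round t)
      have h4 : |t₀ - round t| ≤ |t₀ - t| + |t - round t| := by
        have := abs_add_le (t₀ - t) (t - round t)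
        rwa [sub_add_sub_cancel] at this
      rw [abs_sub_comm t t₀] at ht
      linarith
  · intro t
    show ψ (t + 1 - round (t + 1)) = ψ (t - round t)
    rw [round_add_one]
    congr 1
    push_cast
    ring
  · intro t ht
    show ψ (t - round t) = t
    have h1 : round t = 0 := by
      apply hround
      rw [Int.cast_zero, sub_zero]
      linarith
    rw [h1, Int.cast_zero, sub_zero]
    exact hψ1 t ht
  · intro t
    exact hψb _

theorem per_bdd {n : ℕ} {Φ : RE n → RE n} (hΦ : ContDiff ℝ ((⊤ : ℕ∞) : WithTop ℕ∞) Φ)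
    (hp : ∀ y, ∀ l : Fin n → ℤ, Φ (y + lat l) = Φ y) (j : ℕ) : ∃ C : ℝ, ∀ y, ‖iteratedFDeriv ℝ j Φ y‖ ≤ C := by
  have hc : Continuous fun y => iteratedFDeriv ℝ j Φ y :=
    hΦ.continuous_iteratedFDeriv (by exact_mod_cast le_top)
  have hper : ∀ y, ∀ l : Fin n → ℤ, iteratedFDeriv ℝ j Φ (y + lat l) = iteratedFDeriv ℝ j Φ y := by
    intro y l
    have h1 : (fun y => Φ (y + lat l)) = Φ := by
      funext y
      exact hp y l
    have h2 := iteratedFDeriv_comp_add_right (𝕜 := ℝ) (f := Φ) j (lat l) y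
    rw [h1] at h2
    exact h2.symm
  obtain ⟨C, hC⟩ := (isCompact_closedBall (0 : RE n) (Real.sqrt n)).exists_bound_of_continuousOn hc.continuousOn
  refine ⟨C, fun y => ?_⟩
  have h1 : iteratedFDeriv ℝ j Φ y = iteratedFDeriv ℝ j Φ (y + lat (fun i => -⌊y i⌋)) := (hper y _).symm
  rw [h1]
  apply hC
  rw [mem_closedBall_zero_iff, EuclideanSpace.norm_eq]
  apply Real.sqrt_le_sqrt
  have h2 : ∀ i : Fin n, ‖(y + lat (fun i => -⌊y i⌋)) i‖ ^ 2 ≤ 1 := by
    intro i
    have h3 : (y + lat (fun i => -⌊y i⌋)) i = Int.fract (y i) := by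
      rw [PiLp.add_apply, lat_apply, Int.fract]
      push_cast
      ring
    rw [h3, Real.norm_of_nonneg (Int.fract_nonneg _)]
    exact pow_le_one₀ (Int.fract_nonneg _) (Int.fract_lt_one _).le
  calc ∑ i, ‖(y + lat (fun i => -⌊y i⌋)) i‖ ^ 2 ≤ ∑ _i : Fin n, (1 : ℝ) := Finset.sum_le_sum fun i _ => h2 i
    _ = n := by simp

end Pool.Agent.LRT
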