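import Pool.Agent.LRT.F1

/-!
F2 (difficulty 3).  The periodised function.

PROOF.  `σ` from `exists_sig`; `Sg y = WithLp.toLp 2 fun i => 13 * σ (y i)` is smooth (`contDiff_euclidean`/`contDiff_piLp`), periodic, `‖Sg y‖ ≤ 13 * 3/8 * sqrt n ≤ 5 sqrt n`.  `Φ : RE n × RE n → RE n × RE n`, `Φ (x, y) = (x, Sg y)`; `G = f ∘ Φ`.  `C^s`, periodic in `x` (hypothesis) and in `y`.
`G (x, (1/13) p) = f (x, p)` for `‖p‖ ≤ 13/4`: `|p i / 13| ≤ 1/4`, `σ (p i / 13) = p i / 13`.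
Bounds: `norm_iteratedFDeriv_comp_le` with `C = eps` (`‖Sg y‖ ≤ 5 sqrt n`) and a number `D ≥ 1` with `‖iteratedFDeriv ℝ i Φ z‖ ≤ D ^ i` for `1 ≤ i ≤ s`: `Φ = (fst, Sg ∘ snd)`, `ContDiff`; the iterated derivatives of `Φ` are bounded: `iteratedFDeriv` of a pair is bounded by the maximum of the two (`iteratedFDeriv_prodMk`/`ContinuousMultilinearMap.prod`, `norm_iteratedFDeriv_prodMk`?),
those of `fst` (a continuous linear map) by `1` for `i = 1` and `0` for `i ≥ 2`, those of `Sg ∘ snd` by the ones of `Sg` (`ContinuousLinearMap.iteratedFDeriv_comp_right`, `norm_compContinuousLinearMap_le`), `per_bdd`.  (Alternatively: write `Φ = fst part + second part` as a sum of two maps into the product and use `iteratedFDeriv_add_apply`.)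
Take `D` = maximum of `1` and all these bounds (`D ≤ D ^ i` for `i ≥ 1`).  So `‖iteratedFDeriv ℝ j G z‖ ≤ j! * eps * D ^ j ≤ s! D^s eps`.  Here `0 ≤ eps` follows from the hypothesis at any point.  The norm of `RE n × RE n` is the maximum norm.
-/

set_option autoImplicit false

open Set MeasureTheory Topology

namespace Pool.Agent.LRT

lemma f2_fst {n : ℕ} (i : ℕ) (hi : 1 ≤ i) (z : RE n × RE n) :
    ‖iteratedFDeriv ℝ i (Prod.fst : RE n × RE n → RE n) z‖ ≤ 1 := by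
  obtain ⟨j, rfl⟩ : ∃ j, i = j + 1 := ⟨i - 1, by omega⟩
  rw [← norm_iteratedFDeriv_fderiv]
  have e : fderiv ℝ (Prod.fst : RE n × RE n → RE n) =
      fun _ => ContinuousLinearMap.fst ℝ (RE n) (RE n) := by
    funext y
    exact fderiv_fst
  rw [e]
  rcases Nat.eq_zero_or_pos j with h | h
  · subst h
    rw [norm_iteratedFDeriv_zero]
    exact ContinuousLinearMap.norm_fst_le ℝ (RE n) (RE n)
  · rw [iteratedFDeriv_const_of_ne (by omega)]
    simp

lemma f2_snd {n : ℕ} {Sg : RE n → RE n} (hS : ContDiff ℝ ((⊤ : ℕ∞) : WithTop ℕ∞) Sg) {i : ℕ} {C : ℝ}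
    (hC : ∀ y, ‖iteratedFDeriv ℝ i Sg y‖ ≤ C) (z : RE n × RE n) :
    ‖iteratedFDeriv ℝ i (fun z : RE n × RE n => Sg z.2) z‖ ≤ C := by
  have e : (fun z : RE n × RE n => Sg z.2) = Sg ∘ (ContinuousLinearMap.snd ℝ (RE n) (RE n)) := rfl
  rw [e, (ContinuousLinearMap.snd ℝ (RE n) (RE n)).iteratedFDeriv_comp_right hS z
    (i := i) (by exact_mod_cast le_top)]
  refine (ContinuousMultilinearMap.norm_compContinuousLinearMap_le _ _).trans ?_
  have h0 : 0 ≤ C := (norm_nonneg _).trans (hC 0)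
  have h1 : ∏ _j : Fin i, ‖ContinuousLinearMap.snd ℝ (RE n) (RE n)‖ ≤ 1 :=
    Finset.prod_le_one (fun _ _ => norm_nonneg _)
      (fun _ _ => ContinuousLinearMap.norm_snd_le ℝ (RE n) (RE n))
  calc _ ≤ C * 1 := mul_le_mul (hC _) h1 (Finset.prod_nonneg fun _ _ => norm_nonneg _) h0
    _ = C := mul_one C

theorem exists_per (n s : ℕ) : ∃ C : ℝ, 0 < C ∧ ∀ (eps : ℝ) (f : RE n × RE n → ℝ), ContDiff ℝ s f →
    (∀ x p : RE n, ∀ k : Fin n → ℤ, f (x + lat k, p) = f (x, p)) →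
    (∀ j ≤ s, ∀ x p : RE n, ‖p‖ ≤ 5 * Real.sqrt n → ‖iteratedFDeriv ℝ j f (x, p)‖ ≤ eps) →
    ∃ G : RE n × RE n → ℝ, ContDiff ℝ s G ∧ Per2 G ∧ (∀ j ≤ s, ∀ z, ‖iteratedFDeriv ℝ j G z‖ ≤ C * eps) ∧
      ∀ x p : RE n, ‖p‖ ≤ 13 / 4 → G (x, (1 / 13 : ℝ) • p) = f (x, p) := by
  obtain ⟨σ, hσ, hσp, hσi, hσb⟩ := exists_sig
  obtain ⟨Sg, hSg⟩ : ∃ Sg : RE n → RE n, Sg = fun y => WithLp.toLp 2 fun i => 13 * σ (y i) :=
    ⟨_, rfl⟩
  have hSgi : ∀ y i, Sg y i = 13 * σ (y i) := by intro y i; rw [hSg]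
  have hScd : ContDiff ℝ ((⊤ : ℕ∞) : WithTop ℕ∞) Sg := by
    rw [contDiff_euclidean]
    intro i
    have e : (fun y => Sg y i) = fun y : RE n => 13 * σ (EuclideanSpace.proj i y) := by
      funext y
      rw [hSgi]; rfl
    rw [e]
    exact contDiff_const.mul (hσ.comp (EuclideanSpace.proj (𝕜 := ℝ) i).contDiff)
  have hSnorm : ∀ y, ‖Sg y‖ ≤ 5 * Real.sqrt n := by
    intro y
    rw [EuclideanSpace.norm_eq]
    have h1 : ∑ i, ‖Sg y i‖ ^ 2 ≤ 5 ^ 2 * n := by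
      calc ∑ i, ‖Sg y i‖ ^ 2 ≤ ∑ _i : Fin n, (5 : ℝ) ^ 2 := by
            refine Finset.sum_le_sum fun i _ => ?_
            refine pow_le_pow_left₀ (norm_nonneg _) ?_ 2
            rw [hSgi, Real.norm_eq_abs, abs_mul, abs_of_pos (by norm_num : (0 : ℝ) < 13)]
            have := hσb (y i)
            linarith
        _ = 5 ^ 2 * n := by simp [mul_comm]
    calc √(∑ i, ‖Sg y i‖ ^ 2) ≤ √(5 ^ 2 * n) := Real.sqrt_le_sqrt h1
      _ = 5 * √n := by
          rw [Real.sqrt_mul (by positivity), Real.sqrt_sq (by norm_num)]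
  have hSper : ∀ y, ∀ l : Fin n → ℤ, Sg (y + lat l) = Sg y := by
    intro y l
    ext i
    rw [hSgi, hSgi, PiLp.add_apply, lat_apply]
    have hp : Function.Periodic σ 1 := hσp
    have := hp.int_mul (l i) (y i)
    rw [mul_one] at this
    rw [this]
  choose Cj hCj using fun j => per_bdd hScd hSper j
  obtain ⟨D, hD⟩ : ∃ D : ℝ, D = 1 + ∑ j ∈ Finset.range (s + 1), |Cj j| := ⟨_, rfl⟩
  have hsum0 : 0 ≤ ∑ j ∈ Finset.range (s + 1), |Cj j| := Finset.sum_nonneg fun _ _ => abs_nonneg _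
  have hD1 : 1 ≤ D := by rw [hD]; linarith
  have hDj : ∀ j ≤ s, Cj j ≤ D := by
    intro j hj
    have h1 : |Cj j| ≤ ∑ j ∈ Finset.range (s + 1), |Cj j| :=
      Finset.single_le_sum (f := fun j => |Cj j|) (fun _ _ => abs_nonneg _)
        (Finset.mem_range.2 (by omega))
    have h2 := le_abs_self (Cj j)
    rw [hD]; linarith
  refine ⟨s.factorial * D ^ s, by positivity, ?_⟩
  intro eps f hf hfp hfb
  have heps : 0 ≤ eps := by
    refine (norm_nonneg _).trans (hfb 0 (Nat.zero_le _) 0 0 ?_)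
    rw [norm_zero]; positivity
  obtain ⟨Φ, hΦ⟩ : ∃ Φ : RE n × RE n → RE n × RE n, Φ = fun z => (z.1, Sg z.2) := ⟨_, rfl⟩
  have hΦcd : ContDiff ℝ s Φ := by
    rw [hΦ]
    exact contDiff_fst.prodMk ((hScd.of_le (by exact_mod_cast le_top)).comp contDiff_snd)
  have hΦb : ∀ i, 1 ≤ i → i ≤ s → ∀ z, ‖iteratedFDeriv ℝ i Φ z‖ ≤ D ^ i := by
    intro i hi1 his z
    have h2 : ContDiff ℝ ((⊤ : ℕ∞) : WithTop ℕ∞) fun z : RE n × RE n => Sg z.2 :=
      hScd.comp contDiff_snd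
    rw [hΦ, iteratedFDeriv_prodMk (n := ((⊤ : ℕ∞) : WithTop ℕ∞))
      contDiff_fst.contDiffAt h2.contDiffAt (by exact_mod_cast le_top),
      ContinuousMultilinearMap.opNorm_prod]
    have h3 : D ≤ D ^ i := le_self_pow₀ hD1 (by omega)
    refine max_le ?_ ?_
    · exact (f2_fst i hi1 z).trans (hD1.trans h3)
    · exact (f2_snd hScd (hCj i) z).trans ((hDj i his).trans h3)
  refine ⟨f ∘ Φ, hf.comp hΦcd, ?_, ?_, ?_⟩
  · intro x y k l
    simp only [Function.comp_apply, hΦ]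
    rw [hSper, hfp]
  · intro j hj z
    have h1 := norm_iteratedFDeriv_comp_le hf hΦcd (n := j) (by exact_mod_cast hj) z
      (C := eps) (D := D) (fun i hi => ?_) (fun i hi1 hi => hΦb i hi1 (hi.trans hj) z)
    · refine h1.trans ?_
      have h2 : (j.factorial : ℝ) ≤ s.factorial := by exact_mod_cast Nat.factorial_le hj
      have h3 : D ^ j ≤ D ^ s := pow_le_pow_right₀ hD1 hj
      calc (j.factorial : ℝ) * eps * D ^ j = (j.factorial * D ^ j) * eps := by ring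
        _ ≤ (s.factorial * D ^ s) * eps := by
            refine mul_le_mul_of_nonneg_right ?_ heps
            exact mul_le_mul h2 h3 (by positivity) (by positivity)
    · have e : Φ z = (z.1, Sg z.2) := by rw [hΦ]
      rw [e]
      exact hfb i (hi.trans hj) z.1 (Sg z.2) (hSnorm _)
  · intro x p hp
    simp only [Function.comp_apply, hΦ]
    have e : Sg ((1 / 13 : ℝ) • p) = p := by
      ext i
      rw [hSgi, PiLp.smul_apply, smul_eq_mul]
      have h1 : |p i| ≤ ‖p‖ := PiLp.norm_apply_le p i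
      rw [hσi]
      · ring
      · rw [abs_mul, abs_of_pos (by norm_num : (0 : ℝ) < 1 / 13)]
        linarith
    rw [e]

end Pool.Agent.LRT
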