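import Pool.Agent.LRT.FD

/-!
F3 (difficulty 2).  Iterated differences are bounded by iterated derivatives.

PROOF.  Generalise to functions with values in a normed space `F` (same universe as `E`, e.g. both in `Type`): `dV h F x = F (x + h) - F x`.  Claim by induction on `s`, for all `F`: if `ContDiff ℝ s F` and `‖iteratedFDeriv ℝ s F x‖ ≤ B` for all `x` then `‖(dV h)^[s] F x‖ ≤ ‖h‖^s * B`.
`s = 0`: `norm_iteratedFDeriv_zero`.  `s + 1`: `(dV h)^[s+1] F = (dV h) ((dV h)^[s] F)`; mean value inequality: `‖F' (x + h) - F' x‖ ≤ sup ‖fderiv F'‖ * ‖h‖` for `F' = (dV h)^[s] F` (`Convex.norm_image_sub_le_of_norm_fderiv_le` on `univ`), and `fderiv ℝ ((dV h)^[s] F) = (dV h)^[s] (fderiv ℝ F)`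
(induction; `fderiv_sub`, `fderiv_comp_add_right`).  Induction hypothesis for `fderiv ℝ F` (`ContDiff ℝ s`, `contDiff_succ_iff_fderiv`, `norm_iteratedFDeriv_fderiv : ‖iteratedFDeriv ℝ s (fderiv ℝ F) x‖ = ‖iteratedFDeriv ℝ (s+1) F x‖`).
-/

set_option autoImplicit false

open Set MeasureTheory Topology

namespace Pool.Agent.LRT

lemma f3_diff {E : Type} [NormedAddCommGroup E] [NormedSpace ℝ E] {s : ℕ} {F : E → ℝ}
    (hF : ContDiff ℝ ((s + 1 : ℕ) : WithTop ℕ∞) F) {B : ℝ}
    (hB : ∀ x, ‖iteratedFDeriv ℝ (s + 1) F x‖ ≤ B) (h x : E) :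
    ‖iteratedFDeriv ℝ s (dl h F) x‖ ≤ B * ‖h‖ := by
  have hFs : ContDiff ℝ s F := hF.of_le (by exact_mod_cast Nat.le_succ s)
  have hFh : ContDiff ℝ s fun x => F (x + h) := hFs.comp (contDiff_id.add contDiff_const)
  have e : iteratedFDeriv ℝ s (dl h F) x =
      iteratedFDeriv ℝ s F (x + h) - iteratedFDeriv ℝ s F x := by
    have h1 : dl h F = (fun x => F (x + h)) - F := rfl
    rw [h1, iteratedFDeriv_sub_apply hFh.contDiffAt hFs.contDiffAt, iteratedFDeriv_comp_add_right]
  rw [e]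
  have hd : Differentiable ℝ (iteratedFDeriv ℝ s F) :=
    hF.differentiable_iteratedFDeriv (by exact_mod_cast Nat.lt_succ_self s)
  have h2 := convex_univ.norm_image_sub_le_of_norm_fderiv_le (𝕜 := ℝ)
    (f := iteratedFDeriv ℝ s F) (C := B) (fun x _ => hd x)
    (fun x _ => norm_fderiv_iteratedFDeriv.trans_le (hB x)) (mem_univ x) (mem_univ (x + h))
  rwa [add_sub_cancel_left] at h2

theorem dl_bound {E : Type} [NormedAddCommGroup E] [NormedSpace ℝ E] {s : ℕ} {F : E → ℝ} (hF : ContDiff ℝ s F)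
    {B : ℝ} (hB : ∀ x, ‖iteratedFDeriv ℝ s F x‖ ≤ B) (h x : E) : |(dl h)^[s] F x| ≤ ‖h‖ ^ s * B := by
  induction s generalizing F B with
  | zero =>
    have := hB x
    rw [norm_iteratedFDeriv_zero, Real.norm_eq_abs] at this
    simpa using this
  | succ s ih =>
    rw [Function.iterate_succ_apply]
    have h1 : ContDiff ℝ s (dl h F) := by
      have hFs : ContDiff ℝ s F := hF.of_le (by exact_mod_cast Nat.le_succ s)
      exact (hFs.comp (contDiff_id.add contDiff_const)).sub hFs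
    have h2 := ih h1 (B := B * ‖h‖) (f3_diff hF hB h)
    refine h2.trans (le_of_eq ?_)
    rw [pow_succ]
    ring

end Pool.Agent.LRT
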