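import Pool.Agent.LRT.FD

/-!
F4 (difficulty 3).  A continuous periodic function descends to the torus; Fourier coefficients and translations.

PROOF.  `exists_tor`: the map `q : (Ix n → ℝ) → UnitAddTorus (Ix n)`, `q v i = (v i : UnitAddCircle)` is a surjective open continuous map (a product of the quotient maps `ℝ → AddCircle`, each an open quotient map: `QuotientAddGroup.isOpenMap_coe`, `IsOpenMap.piMap`), so a quotient map (`IsOpenQuotientMap.piMap` may exist).
`G' v = G (toLp (v ∘ inl), toLp (v ∘ inr))` is constant on the fibres of `q`: `q v = q v'` means `v i - v' i ∈ ℤ` for all `i` (`QuotientAddGroup.eq`, `AddSubgroup.mem_zmultiples_iff`).  The lift is continuous (`IsQuotientMap.continuous_iff`).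
`coef_norm`: `‖∫ mFourier (-m) t • g t‖ ≤ sup ‖g‖`, probability measure; the measure used in Mathlib's file `Mathlib/Analysis/Fourier/AddCircleMulti.lean` is given there by local instances: copy the three local instances, or use `UnitAddTorus.mFourierCoeff_eq_integral` with `a = 0` and the volume `1` of the box.
`coef_trans`: `mFourierCoeff (fun t => g (t + pt x y)) m = mFourier m (pt x y) * mFourierCoeff g m`: translation invariance (`integral_add_right_eq_self` with the local instances, or `mFourierCoeff_eq_integral` for two boxes and the substitution `v ↦ v + (x, y)` in `ℝ^(Ix n)`), `mFourier (-m) (t - u) = mFourier (-m) t * mFourier m u`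
(`mFourier` is a product of `fourier`; `fourier_coe_apply`, `toCircle_add`).
`coef_conj`: for real `g`: conjugate the integral, `mFourier_neg`.
`mFourier_pt`: `fourier_coe_apply` for every factor, `Fintype.prod_sum_type`, `Complex.exp_sum`.
-/

set_option autoImplicit false

open Set MeasureTheory Topology

namespace Pool.Agent.LRT

variable {n : ℕ}

/-- the quotient map -/
def f4_q (n : ℕ) : (Ix n → ℝ) → UnitAddTorus (Ix n) :=
  Pi.map fun _ => ((↑) : ℝ → UnitAddCircle)

theorem f4_q_quot (n : ℕ) : IsOpenQuotientMap (f4_q n) := by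
  refine IsOpenQuotientMap.piMap fun i => ?_
  exact QuotientAddGroup.isOpenQuotientMap_mk

theorem exists_tor {G : RE n × RE n → ℝ} (hc : Continuous G) (hp : Per2 G) :
    ∃ g : C(UnitAddTorus (Ix n), ℂ), ∀ x y, g (pt x y) = ((G (x, y) : ℝ) : ℂ) := by
  have hq := (f4_q_quot n).isQuotientMap
  let G' : C(Ix n → ℝ, ℂ) := ⟨fun v => ((G (WithLp.toLp 2 fun i => v (Sum.inl i),
    WithLp.toLp 2 fun i => v (Sum.inr i)) : ℝ) : ℂ), by
      refine Complex.continuous_ofReal.comp (hc.comp ?_)
      refine Continuous.prodMk ?_ ?_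
      · exact (PiLp.continuous_toLp 2 _).comp (by fun_prop)
      · exact (PiLp.continuous_toLp 2 _).comp (by fun_prop)⟩
  let q' : C(Ix n → ℝ, UnitAddTorus (Ix n)) := ⟨f4_q n, hq.continuous⟩
  have hfac : Function.FactorsThrough G' q' := by
    intro v v' hv
    have h1 : ∀ i, ∃ k : ℤ, v i = v' i + k := by
      intro i
      have h2 : ((v i : ℝ) : UnitAddCircle) = ((v' i : ℝ) : UnitAddCircle) := congrFun hv i
      rw [QuotientAddGroup.eq, AddSubgroup.mem_zmultiples_iff] at h2
      obtain ⟨k, hk⟩ := h2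
      refine ⟨-k, ?_⟩
      simp only [zsmul_eq_mul, mul_one] at hk
      push_cast
      linarith
    choose k hk using h1
    show ((G _ : ℝ) : ℂ) = ((G _ : ℝ) : ℂ)
    congr 1
    rw [← hp (WithLp.toLp 2 fun i => v' (Sum.inl i)) (WithLp.toLp 2 fun i => v' (Sum.inr i))
      (fun i => k (Sum.inl i)) (fun i => k (Sum.inr i))]
    congr 1
    refine Prod.ext ?_ ?_
    · ext i
      simp [hk]
    · ext i
      simp [hk]
  refine ⟨hq.lift (f := q') G' hfac, fun x y => ?_⟩
  have h := ContinuousMap.congr_fun (hq.lift_comp (f := q') G' hfac) (Sum.elim x y)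
  have h2 : q' (Sum.elim x y) = pt x y := by
    funext i
    rcases i with i | i <;> rfl
  rw [ContinuousMap.comp_apply, h2] at h
  rw [h]
  rfl

theorem pt_surj (t : UnitAddTorus (Ix n)) : ∃ x y : RE n, pt x y = t := by
  obtain ⟨v, hv⟩ := (f4_q_quot n).surjective t
  refine ⟨WithLp.toLp 2 fun i => v (Sum.inl i), WithLp.toLp 2 fun i => v (Sum.inr i), ?_⟩
  rw [← hv]
  funext i
  rcases i with i | i <;> rfl

theorem pt_add (x y x' y' : RE n) : pt (x + x') (y + y') = pt x y + pt x' y' := by
  funext i
  rcases i with i | i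
  · show ((x i + x' i : ℝ) : UnitAddCircle) = ((x i : ℝ) : UnitAddCircle) + ((x' i : ℝ) : UnitAddCircle)
    exact AddCircle.coe_add _ _ _
  · show ((y i + y' i : ℝ) : UnitAddCircle) = ((y i : ℝ) : UnitAddCircle) + ((y' i : ℝ) : UnitAddCircle)
    exact AddCircle.coe_add _ _ _

/-- the measure on the circle -/
noncomputable local instance : MeasureSpace UnitAddCircle := ⟨AddCircle.haarAddCircle⟩

local instance : Measure.IsAddHaarMeasure (volume : Measure UnitAddCircle) :=
  inferInstanceAs (Measure.IsAddHaarMeasure AddCircle.haarAddCircle)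

local instance : IsProbabilityMeasure (volume : Measure UnitAddCircle) :=
  inferInstanceAs (IsProbabilityMeasure AddCircle.haarAddCircle)

theorem f4_coef (g : UnitAddTorus (Ix n) → ℂ) (m : Ix n → ℤ) :
    UnitAddTorus.mFourierCoeff g m = ∫ t : UnitAddTorus (Ix n), UnitAddTorus.mFourier (-m) t • g t :=
  rfl

theorem f4_norm (m : Ix n → ℤ) (t : UnitAddTorus (Ix n)) : ‖UnitAddTorus.mFourier m t‖ ≤ 1 := by
  exact ((UnitAddTorus.mFourier m).norm_coe_le_norm t).trans UnitAddTorus.mFourier_norm.le

theorem coef_norm (g : C(UnitAddTorus (Ix n), ℂ)) {B : ℝ} (hB : ∀ t, ‖g t‖ ≤ B) (m : Ix n → ℤ) :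
    ‖UnitAddTorus.mFourierCoeff g m‖ ≤ B := by
  rw [f4_coef]
  have h := norm_integral_le_of_norm_le_const (μ := (volume : Measure (UnitAddTorus (Ix n))))
    (f := fun t => UnitAddTorus.mFourier (-m) t • g t) (C := B)
    (Filter.Eventually.of_forall fun t => by
      rw [norm_smul]
      calc ‖UnitAddTorus.mFourier (-m) t‖ * ‖g t‖ ≤ 1 * ‖g t‖ :=
            mul_le_mul_of_nonneg_right (f4_norm _ _) (norm_nonneg _)
        _ ≤ B := by rw [one_mul]; exact hB t)
  simpa using h

theorem f4_sub (m : Ix n → ℤ) (t u : UnitAddTorus (Ix n)) :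
    UnitAddTorus.mFourier (-m) (t - u) = UnitAddTorus.mFourier (-m) t * UnitAddTorus.mFourier m u := by
  show ∏ i, fourier ((-m) i) ((t - u) i) = (∏ i, fourier ((-m) i) (t i)) * ∏ i, fourier (m i) (u i)
  rw [← Finset.prod_mul_distrib]
  refine Finset.prod_congr rfl fun i _ => ?_
  rw [fourier_apply, fourier_apply, fourier_apply, ← Circle.coe_mul, ← AddCircle.toCircle_add]
  congr 2
  rw [Pi.neg_apply, Pi.sub_apply, smul_sub, neg_smul, neg_smul]
  abel

theorem coef_trans (g : C(UnitAddTorus (Ix n), ℂ)) (u : UnitAddTorus (Ix n)) (m : Ix n → ℤ) :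
    UnitAddTorus.mFourierCoeff (fun t => g (t + u)) m = UnitAddTorus.mFourier m u * UnitAddTorus.mFourierCoeff g m := by
  rw [f4_coef, f4_coef]
  have h := integral_add_right_eq_self (μ := (volume : Measure (UnitAddTorus (Ix n))))
    (fun t => UnitAddTorus.mFourier (-m) (t - u) • g t) u
  simp only [add_sub_cancel_right] at h
  rw [h, ← integral_const_mul]
  refine integral_congr_ae (Filter.Eventually.of_forall fun t => ?_)
  simp only [smul_eq_mul]
  rw [f4_sub]
  ring

theorem coef_conj (g : C(UnitAddTorus (Ix n), ℂ)) (hg : ∀ t, (starRingEnd ℂ) (g t) = g t) (m : Ix n → ℤ) :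
    UnitAddTorus.mFourierCoeff g (-m) = (starRingEnd ℂ) (UnitAddTorus.mFourierCoeff g m) := by
  rw [f4_coef, f4_coef, ← integral_conj]
  refine integral_congr_ae (Filter.Eventually.of_forall fun t => ?_)
  simp only [smul_eq_mul, map_mul]
  rw [hg, UnitAddTorus.mFourier_neg]

theorem mFourier_pt (m : Ix n → ℤ) (x y : RE n) :
    UnitAddTorus.mFourier m (pt x y) = Complex.exp (2 * Real.pi * Complex.I * ex m (ofR x, ofR ((13 : ℝ) • y))) := by
  show ∏ i, fourier (m i) (pt x y i) = _
  rw [Fintype.prod_sum_type]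
  have h1 : ∀ i : Fin n, fourier (m (Sum.inl i)) (pt x y (Sum.inl i)) =
      Complex.exp (2 * Real.pi * Complex.I * (m (Sum.inl i) * x i)) := by
    intro i
    show fourier (m (Sum.inl i)) ((x i : ℝ) : UnitAddCircle) = _
    rw [fourier_coe_apply]
    congr 1
    push_cast
    ring
  have h2 : ∀ i : Fin n, fourier (m (Sum.inr i)) (pt x y (Sum.inr i)) =
      Complex.exp (2 * Real.pi * Complex.I * (m (Sum.inr i) * y i)) := by
    intro i
    show fourier (m (Sum.inr i)) ((y i : ℝ) : UnitAddCircle) = _
    rw [fourier_coe_apply]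
    congr 1
    push_cast
    ring
  rw [Finset.prod_congr rfl fun i _ => h1 i, Finset.prod_congr rfl fun i _ => h2 i,
    ← Complex.exp_sum, ← Complex.exp_sum, ← Complex.exp_add]
  congr 1
  unfold ex
  rw [← Finset.mul_sum, ← Finset.mul_sum, ← mul_add]
  congr 1
  simp only [ofR_apply]
  congr 1
  rw [Finset.sum_div]
  refine Finset.sum_congr rfl fun i _ => ?_
  rw [PiLp.smul_apply, smul_eq_mul]
  push_cast
  ring

end Pool.Agent.LRT
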