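import Pool.Agent.LRT.F3
import Pool.Agent.LRT.F4

/-!
F5 (difficulty 3).  Decay of the Fourier coefficients of a `C^s` function.

PROOF.  `exists_tor`: `g`.  `coef_norm` gives `‖ĝ_m‖ ≤ B` (`‖iteratedFDeriv 0‖ = ‖G‖`, `pt_surj`).  Let `m i ≠ 0` (for `m i = 0` and `s ≥ 1` the left hand side is `0`; for `s = 0` it is the first bound; `0^0 = 1`).  Let `h : RE n × RE n` be the vector with the coordinate `i` equal to `1 / (2 m i)` and the others `0`, `u = pt h.1 h.2`.
`‖h‖ = 1 / (2 |m i|)`, `mFourier m u = exp (2πi * m i / (2 m i)) = -1` (`mFourier_pt`).  For a continuous function `g'` on the torus with `g' (pt x y) = G' (x, y)` the function `t ↦ g' (t + u) - g' t` corresponds to `dl h G'` (`pt_add`), and its coefficient is `(-1 - 1) ĝ'_m` (`coef_trans`, linearity of the integral).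
So by induction the function `(dl h)^[s] G` corresponds to a continuous function with coefficient `(-2)^s ĝ_m`, and it is bounded by `‖h‖^s B` (`dl_bound`).  `coef_norm`: `2^s ‖ĝ_m‖ ≤ (2 |m i|)^(-s) B`, so `‖ĝ_m‖ |m i|^s ≤ 4^(-s) B ≤ B`.
`E := RE n × RE n` is in `Type`.
-/

set_option autoImplicit false

open Set MeasureTheory Topology

namespace Pool.Agent.LRT

noncomputable section

local instance : MeasureSpace UnitAddCircle := ⟨AddCircle.haarAddCircle⟩

local instance : Measure.IsAddHaarMeasure (volume : Measure UnitAddCircle) :=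
  inferInstanceAs (Measure.IsAddHaarMeasure AddCircle.haarAddCircle)

local instance : IsProbabilityMeasure (volume : Measure UnitAddCircle) :=
  inferInstanceAs (IsProbabilityMeasure AddCircle.haarAddCircle)

theorem f5_sub {d : Type} [Fintype d] (f g : C(UnitAddTorus d, ℂ)) (m : d → ℤ) :
    UnitAddTorus.mFourierCoeff (fun t => f t - g t) m =
      UnitAddTorus.mFourierCoeff f m - UnitAddTorus.mFourierCoeff g m := by
  have hi : ∀ f : C(UnitAddTorus d, ℂ), Integrable (fun t => UnitAddTorus.mFourier (-m) t • f t)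
      (volume : Measure (UnitAddTorus d)) := by
    intro f
    apply Continuous.integrable_of_hasCompactSupport
    · exact (UnitAddTorus.mFourier (-m)).continuous.smul f.continuous
    · exact HasCompactSupport.of_compactSpace _
  have h1 := integral_sub (hi f) (hi g)
  have h2 : (fun t => UnitAddTorus.mFourier (-m) t • f t - UnitAddTorus.mFourier (-m) t • g t) =
      fun t => UnitAddTorus.mFourier (-m) t • (f t - g t) := by
    funext t
    rw [smul_sub]
  rw [h2] at h1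
  exact h1

end

/-- the vector in the direction `i` -/
noncomputable def f5_h {n : ℕ} (i : Ix n) (c : ℝ) : RE n × RE n :=
  Sum.elim (fun a => (EuclideanSpace.single a c, 0)) (fun a => (0, EuclideanSpace.single a c)) i

theorem f5_norm {n : ℕ} (i : Ix n) (c : ℝ) : ‖f5_h i c‖ = |c| := by
  rcases i with a | a
  · show ‖((EuclideanSpace.single a c, 0) : RE n × RE n)‖ = |c|
    rw [Prod.norm_mk, norm_zero, EuclideanSpace.norm_single, Real.norm_eq_abs, max_eq_left (abs_nonneg c)]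
  · show ‖((0, EuclideanSpace.single a c) : RE n × RE n)‖ = |c|
    rw [Prod.norm_mk, norm_zero, EuclideanSpace.norm_single, Real.norm_eq_abs, max_eq_right (abs_nonneg c)]

theorem f5_single {n : ℕ} (m : Fin n → ℤ) (a : Fin n) (c : ℝ) :
    (∑ i, (m i : ℂ) * (((EuclideanSpace.single a c : RE n) i : ℝ) : ℂ)) = m a * c := by
  rw [Finset.sum_eq_single a]
  · simp
  · intro i _ hi
    simp [hi]
  · intro h
    exact absurd (Finset.mem_univ a) h

theorem f5_ex {n : ℕ} (m : Ix n → ℤ) (i : Ix n) (c : ℝ) :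
    ex m (ofR (f5_h i c).1, ofR ((13 : ℝ) • (f5_h i c).2)) = (m i : ℂ) * c := by
  have h0 : ∀ (m : Fin n → ℤ), (∑ i, (m i : ℂ) * (((0 : RE n) i : ℝ) : ℂ)) = 0 := by
    intro m
    apply Finset.sum_eq_zero
    intro i _
    simp
  unfold ex
  rcases i with a | a
  · show (∑ i, (m (Sum.inl i) : ℂ) * (((EuclideanSpace.single a c : RE n) i : ℝ) : ℂ)) +
      (∑ i, (m (Sum.inr i) : ℂ) * ((((13 : ℝ) • (0 : RE n)) i : ℝ) : ℂ)) / 13 = (m (Sum.inl a) : ℂ) * c
    rw [smul_zero, h0 (fun i => m (Sum.inr i)), f5_single (fun i => m (Sum.inl i)) a c, zero_div, add_zero]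
  · show (∑ i, (m (Sum.inl i) : ℂ) * (((0 : RE n) i : ℝ) : ℂ)) +
      (∑ i, (m (Sum.inr i) : ℂ) * ((((13 : ℝ) • (EuclideanSpace.single a c : RE n)) i : ℝ) : ℂ)) / 13 =
        (m (Sum.inr a) : ℂ) * c
    have h1 : (∑ i, (m (Sum.inr i) : ℂ) * ((((13 : ℝ) • (EuclideanSpace.single a c : RE n)) i : ℝ) : ℂ)) =
        13 * ∑ i, (m (Sum.inr i) : ℂ) * (((EuclideanSpace.single a c : RE n) i : ℝ) : ℂ) := by
      rw [Finset.mul_sum]
      apply Finset.sum_congr rfl
      intro i _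
      rw [PiLp.smul_apply, smul_eq_mul]
      push_cast
      ring
    rw [h0 (fun i => m (Sum.inl i)), h1, f5_single (fun i => m (Sum.inr i)) a c, zero_add,
      mul_div_cancel_left₀ _ (by norm_num : (13 : ℂ) ≠ 0)]

theorem f5_four {n : ℕ} (m : Ix n → ℤ) (i : Ix n) (hi : m i ≠ 0) :
    UnitAddTorus.mFourier m (pt (f5_h i (1 / (2 * (m i : ℝ)))).1 (f5_h i (1 / (2 * (m i : ℝ)))).2) = -1 := by
  rw [mFourier_pt, f5_ex]
  have h1 : (m i : ℂ) ≠ 0 := by exact_mod_cast hi
  have h2 : 2 * (Real.pi : ℂ) * Complex.I * ((m i : ℂ) * ((1 / (2 * (m i : ℝ)) : ℝ) : ℂ)) = Real.pi * Complex.I := by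
    push_cast
    field_simp
  rw [h2, Complex.exp_pi_mul_I]

theorem f5_iter {n : ℕ} {G : RE n × RE n → ℝ} (g : C(UnitAddTorus (Ix n), ℂ))
    (hg : ∀ x y, g (pt x y) = ((G (x, y) : ℝ) : ℂ)) (m : Ix n → ℤ) (h : RE n × RE n)
    (hu : UnitAddTorus.mFourier m (pt h.1 h.2) = -1) (j : ℕ) :
    ∃ g' : C(UnitAddTorus (Ix n), ℂ), (∀ x y, g' (pt x y) = (((dl h)^[j] G (x, y) : ℝ) : ℂ)) ∧
      UnitAddTorus.mFourierCoeff g' m = (-2) ^ j * UnitAddTorus.mFourierCoeff g m := by
  induction j with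
  | zero => exact ⟨g, hg, by rw [pow_zero, one_mul]⟩
  | succ j ih =>
    obtain ⟨g', h1, h2⟩ := ih
    obtain ⟨f, hf⟩ : ∃ f : C(UnitAddTorus (Ix n), ℂ), ∀ t, f t = g' (t + pt h.1 h.2) :=
      ⟨⟨fun t => g' (t + pt h.1 h.2), g'.continuous.comp (continuous_id.add continuous_const)⟩, fun t => rfl⟩
    refine ⟨f - g', ?_, ?_⟩
    · intro x y
      rw [ContinuousMap.sub_apply, hf, ← pt_add, h1, h1, Function.iterate_succ_apply']
      unfold dl
      push_cast
      rfl
    · have e1 : UnitAddTorus.mFourierCoeff (f - g' : C(UnitAddTorus (Ix n), ℂ)) m =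
          UnitAddTorus.mFourierCoeff f m - UnitAddTorus.mFourierCoeff g' m := f5_sub f g' m
      have e2 : UnitAddTorus.mFourierCoeff f m = -1 * UnitAddTorus.mFourierCoeff g' m := by
        have e3 : (f : UnitAddTorus (Ix n) → ℂ) = fun t => g' (t + pt h.1 h.2) := funext hf
        rw [e3, coef_trans, hu]
      rw [e1, e2, h2, pow_succ]
      ring

theorem coef_decay {n s : ℕ} {G : RE n × RE n → ℝ} (hG : ContDiff ℝ s G) (hp : Per2 G) {B : ℝ}
    (hB : ∀ j ≤ s, ∀ z, ‖iteratedFDeriv ℝ j G z‖ ≤ B) (g : C(UnitAddTorus (Ix n), ℂ))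
    (hg : ∀ x y, g (pt x y) = ((G (x, y) : ℝ) : ℂ)) : Dec s B (fun m => UnitAddTorus.mFourierCoeff g m) := by
  have h1 : ∀ m, ‖UnitAddTorus.mFourierCoeff g m‖ ≤ B := by
    intro m
    apply coef_norm g
    intro t
    obtain ⟨x, y, rfl⟩ := pt_surj t
    rw [hg, Complex.norm_real]
    have h2 := hB 0 (Nat.zero_le s) (x, y)
    rwa [norm_iteratedFDeriv_zero] at h2
  refine ⟨h1, ?_⟩
  intro m i
  have hB0 : 0 ≤ B := (norm_nonneg _).trans (h1 m)
  by_cases hi : m i = 0
  · rcases Nat.eq_zero_or_pos s with rfl | hs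
    · rw [pow_zero, mul_one]
      exact h1 m
    · rw [hi, Int.cast_zero, abs_zero, zero_pow hs.ne', mul_zero]
      exact hB0
  · obtain ⟨h, hh⟩ : ∃ h : RE n × RE n, h = f5_h i (1 / (2 * (m i : ℝ))) := ⟨_, rfl⟩
    have hu : UnitAddTorus.mFourier m (pt h.1 h.2) = -1 := by
      rw [hh]
      exact f5_four m i hi
    have hm : (0 : ℝ) < |(m i : ℝ)| := abs_pos.2 (by exact_mod_cast hi)
    have hn : ‖h‖ = 1 / (2 * |(m i : ℝ)|) := by
      rw [hh, f5_norm, abs_div, abs_one, abs_mul, abs_of_pos (by norm_num : (0 : ℝ) < 2)]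
    obtain ⟨g', e1, e2⟩ := f5_iter g hg m h hu s
    have e3 : ‖UnitAddTorus.mFourierCoeff g' m‖ ≤ ‖h‖ ^ s * B := by
      apply coef_norm g'
      intro t
      obtain ⟨x, y, rfl⟩ := pt_surj t
      rw [e1, Complex.norm_real]
      exact dl_bound hG (hB s le_rfl) h (x, y)
    rw [e2, norm_mul, norm_pow, norm_neg, hn] at e3
    have e4 : ‖(2 : ℂ)‖ = 2 := by norm_num
    rw [e4] at e3
    have e5 : (1 / (2 * |(m i : ℝ)|)) ^ s * |(m i : ℝ)| ^ s = (1 / 2) ^ s := by
      rw [← mul_pow]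
      congr 1
      field_simp
    have e6 : (1 : ℝ) ≤ 2 ^ s := one_le_pow₀ (by norm_num)
    have e7 : ((1 : ℝ) / 2) ^ s ≤ 1 := pow_le_one₀ (by norm_num) (by norm_num)
    have e8 : (0 : ℝ) ≤ |(m i : ℝ)| ^ s := by positivity
    show ‖UnitAddTorus.mFourierCoeff g m‖ * |(m i : ℝ)| ^ s ≤ B
    calc ‖UnitAddTorus.mFourierCoeff g m‖ * |(m i : ℝ)| ^ s
        ≤ (2 ^ s * ‖UnitAddTorus.mFourierCoeff g m‖) * |(m i : ℝ)| ^ s := by
          apply mul_le_mul_of_nonneg_right _ e8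
          have := mul_le_mul_of_nonneg_right e6 (norm_nonneg (UnitAddTorus.mFourierCoeff g m))
          linarith
      _ ≤ ((1 / (2 * |(m i : ℝ)|)) ^ s * B) * |(m i : ℝ)| ^ s := mul_le_mul_of_nonneg_right e3 e8
      _ = ((1 / (2 * |(m i : ℝ)|)) ^ s * |(m i : ℝ)| ^ s) * B := by ring
      _ = (1 / 2) ^ s * B := by rw [e5]
      _ ≤ 1 * B := mul_le_mul_of_nonneg_right e7 hB0
      _ = B := one_mul B

end Pool.Agent.LRT
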