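import Pool.Agent.LRT.FD

/-!
F6 (difficulty 3).  Sums over the lattice of coefficients with decay.

PROOF.  `s = r + 4n + 2`.  For `m ≠ 0` let `M = max_i |m i| ≥ 1`, attained at some `i`: `‖a m‖ ≤ B / M^s`, `1 + l1 m ≤ 1 + 2n M ≤ (1 + 2n) M`, so `‖a m‖ (1 + l1 m) ≤ (1 + 2n) B M^(-(s-1))`, also for `m = 0` with `M` replaced by `1`.  `M^(4n) ≥ ∏_i (max 1 |m i|)^2`, so
`‖a m‖ (1 + l1 m) ≤ (1 + 2n) B M^(-r) ∏_i (max 1 |m i|)^(-2)`.  The product function is summable over `Ix n → ℤ` and all its finite sums are `≤ S^(2n)` with `S = ∑_{j ∈ ℤ} (max 1 |j|)^(-2) < ∞` (a finite set is contained in a box `bx2 n K = Fintype.piFinset ..`, `Finset.prod_univ_sum`; `S`: `Real.summable_one_div_int_pow`).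
If `T ≤ |m i|` for some `i`, `T ≥ 1`, then `M ≥ T`, `M^(-r) ≤ T^(-r)`.  `C = (1 + 2n) S^(2n) + 1`.
`summable`: bounded partial sums of nonnegative terms (`summable_of_sum_le`).
-/

set_option autoImplicit false

open Set MeasureTheory Topology

namespace Pool.Agent.LRT

/-- the weight in one variable -/
noncomputable def f6_f (j : ℤ) : ℝ := 1 / (max 1 |(j : ℝ)|) ^ 2

/-- the product weight -/
noncomputable def f6_w {n : ℕ} (m : Ix n → ℤ) : ℝ := ∏ i, f6_f (m i)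

theorem f6_f_pos (j : ℤ) : 0 < f6_f j := by
  unfold f6_f
  have : 0 < max 1 |(j : ℝ)| := lt_of_lt_of_le one_pos (le_max_left _ _)
  positivity

theorem f6_f_sum : Summable f6_f := by
  have h1 : Summable (fun j : ℤ => 1 / (j : ℝ) ^ 2) := Real.summable_one_div_int_pow.2 (by norm_num)
  have h2 : Summable (fun j : ℤ => if j = 0 then (1 : ℝ) else 0) := (hasSum_ite_eq 0 1).summable
  refine Summable.of_nonneg_of_le (fun j => (f6_f_pos j).le) (fun j => ?_) (h1.add h2)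
  unfold f6_f
  by_cases hj : j = 0
  · subst hj
    simp
  · rw [if_neg hj, add_zero]
    have h3 : (1 : ℝ) ≤ |(j : ℝ)| := by
      have := Int.one_le_abs hj
      exact_mod_cast this
    rw [max_eq_right h3, sq_abs]

theorem f6_w_sum (n : ℕ) (S : Finset (Ix n → ℤ)) : ∑ m ∈ S, f6_w m ≤ (∑' j, f6_f j) ^ Fintype.card (Ix n) := by
  classical
  have hw : ∀ m : Ix n → ℤ, 0 ≤ f6_w m := fun m => Finset.prod_nonneg fun i _ => (f6_f_pos _).le
  have hsub : S ⊆ Fintype.piFinset (fun i => S.image (fun m => m i)) := by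
    intro m hm
    rw [Fintype.mem_piFinset]
    intro i
    exact Finset.mem_image_of_mem _ hm
  calc ∑ m ∈ S, f6_w m ≤ ∑ m ∈ Fintype.piFinset (fun i => S.image (fun m => m i)), f6_w m :=
        Finset.sum_le_sum_of_subset_of_nonneg hsub (fun m _ _ => hw m)
    _ = ∏ i : Ix n, ∑ j ∈ S.image (fun m => m i), f6_f j := by
        unfold f6_w
        rw [Finset.prod_univ_sum]
    _ ≤ ∏ _i : Ix n, ∑' j, f6_f j := by
        apply Finset.prod_le_prod
        · intro i _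
          exact Finset.sum_nonneg fun j _ => (f6_f_pos j).le
        · intro i _
          exact f6_f_sum.sum_le_tsum _ (fun j _ => (f6_f_pos j).le)
    _ = _ := by rw [Finset.prod_const, Finset.card_univ]

theorem f6_max {n : ℕ} {s : ℕ} {a : (Ix n → ℤ) → ℂ} {B : ℝ} (h : Dec s B a) (m : Ix n → ℤ) :
    ∃ M : ℝ, 1 ≤ M ∧ (∀ i, |(m i : ℝ)| ≤ M) ∧ ‖a m‖ * M ^ s ≤ B := by
  rcases isEmpty_or_nonempty (Ix n) with he | he
  · exact ⟨1, le_rfl, fun i => (he.false i).elim, by rw [one_pow, mul_one]; exact h.1 m⟩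
  · obtain ⟨i, hi⟩ := Finite.exists_max (fun i => |(m i : ℝ)|)
    rcases le_total |(m i : ℝ)| 1 with h1 | h1
    · exact ⟨1, le_rfl, fun j => (hi j).trans h1, by rw [one_pow, mul_one]; exact h.1 m⟩
    · exact ⟨|(m i : ℝ)|, h1, hi, h.2 m i⟩

theorem f6_key {n r : ℕ} {a : (Ix n → ℤ) → ℂ} {B : ℝ} (h : Dec (r + 4 * n + 2) B a) (m : Ix n → ℤ) :
    ∃ M : ℝ, 1 ≤ M ∧ (∀ i, |(m i : ℝ)| ≤ M) ∧
      ‖a m‖ * (1 + l1 m) ≤ (1 + 2 * n) * B / M ^ r * f6_w m := by
  obtain ⟨M, hM, h1, h2⟩ := f6_max h m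
  refine ⟨M, hM, h1, ?_⟩
  have hM0 : 0 < M := by linarith
  have hcard : Fintype.card (Ix n) = n + n := by
    rw [Fintype.card_sum, Fintype.card_fin]
  have hl1 : l1 m ≤ 2 * n * M := by
    unfold l1
    calc ∑ i, |(m i : ℝ)| ≤ ∑ _i : Ix n, M := Finset.sum_le_sum fun i _ => h1 i
      _ = 2 * n * M := by
          rw [Finset.sum_const, Finset.card_univ, hcard, nsmul_eq_mul]
          push_cast
          ring
  set Pw : ℝ := ∏ i, (max 1 |(m i : ℝ)|) ^ 2 with hPw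
  have hPw0 : 0 < Pw := by
    apply Finset.prod_pos
    intro i _
    have : 0 < max 1 |(m i : ℝ)| := lt_of_lt_of_le one_pos (le_max_left _ _)
    positivity
  have hw : f6_w m = 1 / Pw := by
    unfold f6_w f6_f
    rw [Finset.prod_div_distrib, Finset.prod_const_one]
  have hPwM : Pw ≤ M ^ (4 * n) := by
    calc Pw ≤ ∏ _i : Ix n, M ^ 2 := by
          apply Finset.prod_le_prod
          · intro i _
            positivity
          · intro i _
            exact pow_le_pow_left₀ (le_trans zero_le_one (le_max_left _ _)) (max_le hM (h1 i)) 2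
      _ = M ^ (4 * n) := by
          rw [Finset.prod_const, Finset.card_univ, hcard, ← pow_mul]
          congr 1
          ring
  have hn0 : (0 : ℝ) ≤ n := Nat.cast_nonneg n
  rw [hw]
  have e : (1 + 2 * (n : ℝ)) * B / M ^ r * (1 / Pw) = (1 + 2 * n) * B / (M ^ r * Pw) := by
    field_simp
  rw [e, le_div_iff₀ (by positivity)]
  have h3 : ‖a m‖ * (1 + l1 m) ≤ ‖a m‖ * ((1 + 2 * n) * M) := by
    apply mul_le_mul_of_nonneg_left _ (norm_nonneg _)
    nlinarith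
  have h4 : M ^ (r + 4 * n + 1) ≤ M ^ (r + 4 * n + 2) := pow_le_pow_right₀ hM (by omega)
  calc ‖a m‖ * (1 + l1 m) * (M ^ r * Pw) ≤ ‖a m‖ * ((1 + 2 * n) * M) * (M ^ r * Pw) :=
        mul_le_mul_of_nonneg_right h3 (by positivity)
    _ ≤ ‖a m‖ * ((1 + 2 * n) * M) * (M ^ r * M ^ (4 * n)) := by
        apply mul_le_mul_of_nonneg_left _ (by positivity)
        exact mul_le_mul_of_nonneg_left hPwM (by positivity)
    _ = (1 + 2 * n) * (‖a m‖ * M ^ (r + 4 * n + 1)) := by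
        rw [pow_add, pow_add]
        ring
    _ ≤ (1 + 2 * n) * (‖a m‖ * M ^ (r + 4 * n + 2)) := by
        apply mul_le_mul_of_nonneg_left _ (by positivity)
        exact mul_le_mul_of_nonneg_left h4 (norm_nonneg _)
    _ ≤ (1 + 2 * n) * B := mul_le_mul_of_nonneg_left h2 (by positivity)

theorem dec_sum (n r : ℕ) : ∃ (s : ℕ) (C : ℝ), 0 < C ∧ ∀ (a : (Ix n → ℤ) → ℂ) (B : ℝ), Dec s B a →
    (∀ S : Finset (Ix n → ℤ), ∑ m ∈ S, ‖a m‖ * (1 + l1 m) ≤ C * B) ∧
    (∀ T : ℝ, 1 ≤ T → ∀ S : Finset (Ix n → ℤ), (∀ m ∈ S, ∃ i, T ≤ |(m i : ℝ)|) →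
      ∑ m ∈ S, ‖a m‖ * (1 + l1 m) ≤ C * B / T ^ r) ∧
    Summable fun m => ‖a m‖ * (1 + l1 m) := by
  set S0 : ℝ := (∑' j, f6_f j) ^ Fintype.card (Ix n) with hS0
  have hS0n : 0 ≤ S0 := pow_nonneg (tsum_nonneg fun j => (f6_f_pos j).le) _
  have hn0 : (0 : ℝ) ≤ n := Nat.cast_nonneg n
  refine ⟨r + 4 * n + 2, (1 + 2 * n) * S0 + 1, by positivity, ?_⟩
  intro a B h
  have hB : 0 ≤ B := (norm_nonneg _).trans (h.1 0)
  have hw : ∀ m : Ix n → ℤ, 0 ≤ f6_w m := fun m => Finset.prod_nonneg fun i _ => (f6_f_pos _).le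
  have gen : ∀ T : ℝ, 1 ≤ T → ∀ S : Finset (Ix n → ℤ), (∀ m ∈ S, ∀ M : ℝ, 1 ≤ M →
      (∀ i, |(m i : ℝ)| ≤ M) → T ≤ M) →
      ∑ m ∈ S, ‖a m‖ * (1 + l1 m) ≤ ((1 + 2 * n) * S0 + 1) * B / T ^ r := by
    intro T hT S hS
    have hT0 : 0 < T := by linarith
    calc ∑ m ∈ S, ‖a m‖ * (1 + l1 m) ≤ ∑ m ∈ S, (1 + 2 * n) * B / T ^ r * f6_w m := by
          apply Finset.sum_le_sum
          intro m hm
          obtain ⟨M, hM, h1, h2⟩ := f6_key h m
          refine h2.trans ?_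
          apply mul_le_mul_of_nonneg_right _ (hw m)
          apply div_le_div_of_nonneg_left (by positivity) (by positivity)
          exact pow_le_pow_left₀ hT0.le (hS m hm M hM h1) r
      _ = (1 + 2 * n) * B / T ^ r * ∑ m ∈ S, f6_w m := by rw [Finset.mul_sum]
      _ ≤ (1 + 2 * n) * B / T ^ r * S0 :=
          mul_le_mul_of_nonneg_left (f6_w_sum n S) (by positivity)
      _ = (1 + 2 * n) * S0 * B / T ^ r := by ring
      _ ≤ _ := by
          apply div_le_div_of_nonneg_right _ (by positivity)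
          apply mul_le_mul_of_nonneg_right _ hB
          linarith
  have h1 : ∀ S : Finset (Ix n → ℤ), ∑ m ∈ S, ‖a m‖ * (1 + l1 m) ≤ ((1 + 2 * n) * S0 + 1) * B := by
    intro S
    have := gen 1 le_rfl S (fun m _ M hM _ => hM)
    rwa [one_pow, div_one] at this
  have hl1 : ∀ m : Ix n → ℤ, 0 ≤ l1 m := fun m => Finset.sum_nonneg fun i _ => abs_nonneg _
  refine ⟨h1, ?_, ?_⟩
  · intro T hT S hS
    apply gen T hT S
    intro m hm M _ hi
    obtain ⟨i, hi'⟩ := hS m hm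
    exact hi'.trans (hi i)
  · exact summable_of_sum_le (fun m => mul_nonneg (norm_nonneg _) (by linarith [hl1 m])) h1

end Pool.Agent.LRT
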