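import Pool.Agent.LRT.FD

/-!
F7 (difficulty 3).  The trigonometric polynomials `FT a T` on complex strips.

PROOF.  `ex m` is a linear function of `z`: `FT` is a finite sum of exponentials, differentiable everywhere.  `ft_fderiv`: `fderiv ℂ (FT a T) z v = ∑ a m * exp (2πi ex m z) * (2πi ex m v)`.
Periodic: `ex m (z.1 + ofR (lat k), z.2) = ex m z + (integer)`, `Complex.exp_periodic`-type (`exp (2πi N) = 1`).  Real: `ex m (cjp z) = conj (ex m z)`, `conj (exp (2πi w)) = exp (-2πi conj w)`; the sum over the symmetric box `bx2` is invariant under `m ↦ -m` (`Finset.sum_bij`/`Finset.sum_nbij'`), `a (-m) = conj (a m)`.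
`exp_bound`: `‖exp (2πi ex m z)‖ = exp (-2π (ex m z).im)`, `|(ex m z).im| ≤ ∑ |m_i| |(im z.1) i| + ∑ |m_i| |(im z.2) i| / 13`; if `|m i| ≤ K` for all `i` and `‖im z.1‖, ‖im z.2‖ ≤ 2 / T`, `K ≤ T`: `≤ 2n * K * 2 / T ≤ 4n` (`|(im z.1) i| ≤ ‖im z.1‖`): norm `≤ exp (8 π n)`.
`ft_bound`: `K = ⌊T⌋₊ ≤ T`; `‖FT a T z‖ ≤ exp (8πn) ∑_{bx2} ‖a m‖`.  `ft_diff`: `bx2 n ⌊T⌋₊ ⊆ bx2 n ⌊T'⌋₊`, the difference is the sum over `bx2 n ⌊T'⌋₊ \ bx2 n ⌊T⌋₊`, whose elements have a coordinate with `|m i| ≥ ⌊T⌋₊ + 1 ≥ T`.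
-/

set_option autoImplicit false

open Set MeasureTheory Topology

namespace Pool.Agent.LRT

variable {n : ℕ} (a : (Ix n → ℤ) → ℂ)

/-- `ex m` as a continuous linear map -/
noncomputable def f7_exL (m : Ix n → ℤ) : CE n × CE n →L[ℂ] ℂ :=
  (∑ i, (m (Sum.inl i) : ℂ) • ((EuclideanSpace.proj i : CE n →L[ℂ] ℂ).comp (ContinuousLinearMap.fst ℂ (CE n) (CE n)))) +
    (1 / 13 : ℂ) • ∑ i, (m (Sum.inr i) : ℂ) •
      ((EuclideanSpace.proj i : CE n →L[ℂ] ℂ).comp (ContinuousLinearMap.snd ℂ (CE n) (CE n)))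

theorem f7_exL_apply (m : Ix n → ℤ) (z : CE n × CE n) : f7_exL m z = ex m z := by
  unfold f7_exL ex
  have h1 : ∀ (i : Fin n) (w : CE n), (EuclideanSpace.proj i : CE n →L[ℂ] ℂ) w = w i := fun _ _ => rfl
  simp only [add_apply, smul_apply, sum_apply,
    ContinuousLinearMap.comp_apply, ContinuousLinearMap.coe_fst', ContinuousLinearMap.coe_snd',
    h1, smul_eq_mul]
  ring

theorem f7_has (T : ℝ) (z : CE n × CE n) : HasFDerivAt (FT a T)
    (∑ m ∈ bx2 n ⌊T⌋₊, a m • (Complex.exp (2 * Real.pi * Complex.I * ex m z) •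
      ((2 * Real.pi * Complex.I : ℂ) • f7_exL m))) z := by
  have h : ∀ m ∈ bx2 n ⌊T⌋₊, HasFDerivAt (fun z => a m * Complex.exp (2 * Real.pi * Complex.I * ex m z))
      (a m • (Complex.exp (2 * Real.pi * Complex.I * ex m z) •
      ((2 * Real.pi * Complex.I : ℂ) • f7_exL m))) z := by
    intro m _
    have h1 : HasFDerivAt (fun z => 2 * Real.pi * Complex.I * ex m z)
        ((2 * Real.pi * Complex.I : ℂ) • f7_exL m) z := by
      have h2 := ((f7_exL m).hasFDerivAt (x := z)).const_mul (2 * Real.pi * Complex.I : ℂ)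
      simpa only [f7_exL_apply] using h2
    exact (h1.cexp).const_mul (a m)
  exact HasFDerivAt.fun_sum h

theorem ft_diff' (T : ℝ) : Differentiable ℂ (FT a T) := fun z => (f7_has a T z).differentiableAt

theorem ft_fderiv (T : ℝ) (z v : CE n × CE n) : fderiv ℂ (FT a T) z v =
    ∑ m ∈ bx2 n ⌊T⌋₊, a m * Complex.exp (2 * Real.pi * Complex.I * ex m z) * (2 * Real.pi * Complex.I * ex m v) := by
  rw [(f7_has a T z).fderiv, sum_apply]
  refine Finset.sum_congr rfl fun m _ => ?_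
  simp only [smul_apply, f7_exL_apply, smul_eq_mul]
  ring

theorem f7_add (m : Ix n → ℤ) (z w : CE n × CE n) : ex m (z + w) = ex m z + ex m w := by
  rw [← f7_exL_apply, ← f7_exL_apply, ← f7_exL_apply, map_add]

theorem ft_per (T : ℝ) (z : CE n × CE n) (k : Fin n → ℤ) : FT a T (z.1 + ofR (lat k), z.2) = FT a T z := by
  unfold FT
  refine Finset.sum_congr rfl fun m _ => ?_
  have h1 : ex m (z.1 + ofR (lat k), z.2) = ex m z + ((∑ i, m (Sum.inl i) * k i : ℤ) : ℂ) := by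
    have h2 : ((z.1 + ofR (lat k), z.2) : CE n × CE n) = z + (ofR (lat k), 0) := by
      ext <;> simp
    rw [h2, f7_add]
    congr 1
    unfold ex
    push_cast
    simp
  have h3 : 2 * (Real.pi : ℂ) * Complex.I * (ex m z + ((∑ i, m (Sum.inl i) * k i : ℤ) : ℂ)) =
      2 * Real.pi * Complex.I * ex m z + ((∑ i, m (Sum.inl i) * k i : ℤ) : ℂ) * (2 * Real.pi * Complex.I) := by
    ring
  rw [h1, h3, Complex.exp_add, Complex.exp_int_mul_two_pi_mul_I, mul_one]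

theorem f7_conj (m : Ix n → ℤ) (z : CE n × CE n) : (starRingEnd ℂ) (ex m z) = ex m (cjp z) := by
  unfold ex cjp
  simp only [map_add, map_sum, map_mul, map_div₀, map_intCast, cj_apply, map_ofNat]

theorem f7_neg (m : Ix n → ℤ) (z : CE n × CE n) : ex (-m) z = - ex m z := by
  unfold ex
  simp only [Pi.neg_apply, Int.cast_neg, neg_mul, Finset.sum_neg_distrib]
  ring

theorem ft_real (ha : ∀ m, a (-m) = (starRingEnd ℂ) (a m)) (T : ℝ) (z : CE n × CE n) :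
    FT a T (cjp z) = (starRingEnd ℂ) (FT a T z) := by
  unfold FT
  rw [map_sum]
  refine Finset.sum_nbij' (fun m => -m) (fun m => -m) ?_ ?_ (fun m _ => neg_neg m) (fun m _ => neg_neg m) ?_
  · intro m hm
    rw [mem_bx2] at hm ⊢
    intro i
    rw [Pi.neg_apply, abs_neg]
    exact hm i
  · intro m hm
    rw [mem_bx2] at hm ⊢
    intro i
    rw [Pi.neg_apply, abs_neg]
    exact hm i
  · intro m _
    rw [map_mul, ← Complex.exp_conj, map_mul, f7_conj, f7_neg, ha m, Complex.conj_conj]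
    congr 2
    rw [map_mul, map_mul, Complex.conj_I, Complex.conj_ofReal, map_ofNat]
    ring

theorem f7_im (m : Ix n → ℤ) (z : CE n × CE n) : (ex m z).im =
    ∑ i, (m (Sum.inl i) : ℝ) * (z.1 i).im + (∑ i, (m (Sum.inr i) : ℝ) * (z.2 i).im) / 13 := by
  unfold ex
  rw [Complex.add_im, Complex.im_sum, Complex.div_ofNat_im, Complex.im_sum]
  have h : ∀ (k : ℤ) (w : ℂ), ((k : ℂ) * w).im = (k : ℝ) * w.im := by
    intro k w
    rw [← Complex.ofReal_intCast, Complex.im_ofReal_mul]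
  simp only [h]

theorem f7_coord (w : CE n) (i : Fin n) : |(w i).im| ≤ ‖im w‖ := by
  have := PiLp.norm_apply_le (im w) i
  rw [im_apply, Real.norm_eq_abs] at this
  exact this

theorem f7_sum {K c : ℝ} (hK : 0 ≤ K) {m : Fin n → ℤ} (hm : ∀ i, |(m i : ℝ)| ≤ K) {w : CE n} (hw : ‖im w‖ ≤ c) :
    |∑ i, (m i : ℝ) * (w i).im| ≤ n * (K * c) := by
  calc |∑ i, (m i : ℝ) * (w i).im| ≤ ∑ i, |(m i : ℝ) * (w i).im| := Finset.abs_sum_le_sum_abs _ _
    _ ≤ ∑ _i : Fin n, K * c := Finset.sum_le_sum fun i _ => by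
        rw [abs_mul]
        exact mul_le_mul (hm i) ((f7_coord w i).trans hw) (abs_nonneg _) hK
    _ = n * (K * c) := by simp

theorem f7_exp {T : ℝ} (hT : 1 ≤ T) {m : Ix n → ℤ} (hm : m ∈ bx2 n ⌊T⌋₊) {z : CE n × CE n}
    (h1 : ‖im z.1‖ ≤ 2 / T) (h2 : ‖im z.2‖ ≤ 2 / T) :
    ‖Complex.exp (2 * Real.pi * Complex.I * ex m z)‖ ≤ Real.exp (8 * Real.pi * n) := by
  have hT0 : 0 < T := by linarith
  have hmr : ∀ i, |(m i : ℝ)| ≤ T := by
    intro i
    have h3 := (mem_bx2.1 hm) i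
    have h4 : (|(m i : ℝ)|) ≤ (⌊T⌋₊ : ℝ) := by exact_mod_cast h3
    exact h4.trans (Nat.floor_le hT0.le)
  have e1 := f7_sum hT0.le (fun i => hmr (Sum.inl i)) h1
  have e2 := f7_sum hT0.le (fun i => hmr (Sum.inr i)) h2
  have hT2 : T * (2 / T) = 2 := by field_simp
  rw [hT2] at e1 e2
  rw [Complex.norm_exp]
  apply Real.exp_le_exp.2
  have h5 : (2 * (Real.pi : ℂ) * Complex.I * ex m z).re = - (2 * Real.pi) * (ex m z).im := by
    have h6 : 2 * (Real.pi : ℂ) * Complex.I * ex m z = ((2 * Real.pi : ℝ) : ℂ) * (Complex.I * ex m z) := by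
      push_cast
      ring
    rw [h6, Complex.re_ofReal_mul, Complex.I_mul_re]
    ring
  rw [h5, f7_im]
  have hpi := Real.pi_pos
  have hn : (0 : ℝ) ≤ n := Nat.cast_nonneg n
  have e3 := abs_le.1 e1
  have e4 := abs_le.1 e2
  have e5 : -(4 * (n : ℝ)) ≤ ∑ i, (m (Sum.inl i) : ℝ) * (z.1 i).im + (∑ i, (m (Sum.inr i) : ℝ) * (z.2 i).im) / 13 := by
    linarith [e3.1, e4.1]
  nlinarith

theorem ft_bound {T : ℝ} (hT : 1 ≤ T) {z : CE n × CE n} (h1 : ‖im z.1‖ ≤ 2 / T) (h2 : ‖im z.2‖ ≤ 2 / T) :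
    ‖FT a T z‖ ≤ Real.exp (8 * Real.pi * n) * ∑ m ∈ bx2 n ⌊T⌋₊, ‖a m‖ := by
  unfold FT
  rw [Finset.mul_sum]
  refine (norm_sum_le _ _).trans (Finset.sum_le_sum fun m hm => ?_)
  rw [norm_mul, mul_comm]
  exact mul_le_mul_of_nonneg_right (f7_exp hT hm h1 h2) (norm_nonneg _)

theorem ft_sub {T T' : ℝ} (hT : 1 ≤ T) (hTT : T ≤ T') {z : CE n × CE n} (h1 : ‖im z.1‖ ≤ 2 / T')
    (h2 : ‖im z.2‖ ≤ 2 / T') : ∃ S : Finset (Ix n → ℤ), (∀ m ∈ S, ∃ i, T ≤ |(m i : ℝ)|) ∧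
      ‖FT a T' z - FT a T z‖ ≤ Real.exp (8 * Real.pi * n) * ∑ m ∈ S, ‖a m‖ := by
  classical
  have hsub : bx2 n ⌊T⌋₊ ⊆ bx2 n ⌊T'⌋₊ := by
    intro m hm
    rw [mem_bx2] at hm ⊢
    intro i
    have h3 : (⌊T⌋₊ : ℤ) ≤ (⌊T'⌋₊ : ℤ) := by exact_mod_cast Nat.floor_mono hTT
    exact (hm i).trans h3
  refine ⟨bx2 n ⌊T'⌋₊ \ bx2 n ⌊T⌋₊, ?_, ?_⟩
  · intro m hm
    rw [Finset.mem_sdiff] at hm
    have h3 := hm.2
    rw [mem_bx2] at h3
    push Not at h3
    obtain ⟨i, hi⟩ := h3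
    refine ⟨i, ?_⟩
    have h4 : ((⌊T⌋₊ : ℤ) : ℝ) + 1 ≤ |(m i : ℝ)| := by exact_mod_cast hi
    have h5 := Nat.lt_floor_add_one T
    push_cast at h4
    linarith
  · have h3 : FT a T' z - FT a T z =
        ∑ m ∈ bx2 n ⌊T'⌋₊ \ bx2 n ⌊T⌋₊, a m * Complex.exp (2 * Real.pi * Complex.I * ex m z) := by
      unfold FT
      rw [← Finset.sum_sdiff hsub]
      ring
    rw [h3, Finset.mul_sum]
    refine (norm_sum_le _ _).trans (Finset.sum_le_sum fun m hm => ?_)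
    rw [norm_mul, mul_comm]
    exact mul_le_mul_of_nonneg_right (f7_exp (hT.trans hTT) (Finset.mem_sdiff.1 hm).1 h1 h2) (norm_nonneg _)

end Pool.Agent.LRT
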