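import Pool.Agent.LRT.F4
import Pool.Agent.LRT.F7

/-!
F8 (difficulty 4).  Approximation at real points.

PROOF.  `A m = mFourierCoeff g m`; `‖A m‖ (1 + l1 m)` is summable.  `UnitAddTorus.hasSum_mFourier_series_apply_of_summable` and `mFourier_pt`: for all real `x, y`: `HasSum (fun m => A m * exp (2πi ex m (ofR x, ofR (13 y)))) (G (x, y))`, i.e. with `p = 13 y`: `HasSum (fun m => A m * e m (x, p)) (G (x, p / 13))`,
`e m (x, p) = exp (2πi ex m (ofR x, ofR p))`, `‖e m‖ = 1` (`ex m` is real).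
Value: `‖FT A T (ofR x, ofR p) - G (x, p/13)‖` is the norm of the sum over the complement of `bx2 n ⌊T⌋₊`, `≤` any bound `δ` of all finite sums `∑_{m ∈ S} ‖A m‖` over finite sets `S` disjoint from the box (`∃ i, T ≤ |m i|` for such `m`): `Summable.sum_add_tsum_compl`/`HasSum` and `tsum_of_norm_bounded`, `le_of_tendsto`.
Derivative in `p`: `G` is differentiable; fix `x, p, v` and consider the function of one real variable `t ↦ G (x, (p + t v) / 13) = ∑' A m e m (x, p + t v)`; term by term derivative (`hasDerivAt_tsum` with the summable bound `‖A m‖ 2π l1 m ‖v‖`, as `|ex m (0, ofR v)| ≤ l1 m ‖v‖`): at `t = 0` it is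
`∑' A m e m (x, p) 2πi ex m (0, ofR v)`.  The finite part over `bx2 n ⌊T⌋₊` is `fderiv ℂ (FT A T) (ofR x, ofR p) (0, ofR v)` (`ft_fderiv`), the rest is `≤ 2π δ ‖v‖` where `δ` bounds the sums of `‖A m‖ l1 m`.  By uniqueness of derivatives it is the derivative of `t ↦ G (x, (p + t v)/13)` at `0`.
Here `‖im‖ = 0`: norms of exponentials of real points are `1`.
-/

set_option autoImplicit false

open Set MeasureTheory Topology

namespace Pool.Agent.LRT

theorem f8_tail {ι : Type*} {f : ι → ℂ} {s : ℂ} (hf : HasSum f s) (B : Finset ι) {w : ι → ℝ} {δ : ℝ}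
    (hw : ∀ m, ‖f m‖ ≤ w m) (hδ : ∀ S : Finset ι, (∀ m ∈ S, m ∉ B) → ∑ m ∈ S, w m ≤ δ) :
    ‖∑ m ∈ B, f m - s‖ ≤ δ := by
  classical
  rw [norm_sub_rev]
  have h1 : Filter.Tendsto (fun S : Finset ι => ‖∑ m ∈ S, f m - ∑ m ∈ B, f m‖) Filter.atTop
      (𝓝 ‖s - ∑ m ∈ B, f m‖) := (hf.sub_const _).norm
  refine le_of_tendsto h1 ?_
  filter_upwards [Filter.eventually_ge_atTop B] with S hS
  rw [← Finset.sum_sdiff_eq_sub hS]
  refine (norm_sum_le _ _).trans ((Finset.sum_le_sum fun m _ => hw m).trans (hδ _ ?_))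
  intro m hm
  exact (Finset.mem_sdiff.mp hm).2

/-- the exponent at real points -/
noncomputable def f8_ex {n : ℕ} (m : Ix n → ℤ) (x p : RE n) : ℝ :=
  ∑ i, (m (Sum.inl i) : ℝ) * x i + (∑ i, (m (Sum.inr i) : ℝ) * p i) / 13

theorem f8_ex_eq {n : ℕ} (m : Ix n → ℤ) (x p : RE n) : ex m (ofR x, ofR p) = ((f8_ex m x p : ℝ) : ℂ) := by
  unfold ex f8_ex
  push_cast
  rfl

theorem f8_ex_zero {n : ℕ} (m : Ix n → ℤ) (v : RE n) : ex m (0, ofR v) = ((f8_ex m 0 v : ℝ) : ℂ) := by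
  rw [← f8_ex_eq, ofR_zero]

theorem f8_ex_add {n : ℕ} (m : Ix n → ℤ) (x p v : RE n) (t : ℝ) : f8_ex m x (p + t • v) = f8_ex m x p + t * f8_ex m 0 v := by
  unfold f8_ex
  have h1 : ∑ i, (m (Sum.inr i) : ℝ) * (p + t • v) i = ∑ i, (m (Sum.inr i) : ℝ) * p i + t * ∑ i, (m (Sum.inr i) : ℝ) * v i := by
    rw [Finset.mul_sum, ← Finset.sum_add_distrib]
    refine Finset.sum_congr rfl fun i _ => ?_
    rw [PiLp.add_apply, PiLp.smul_apply, smul_eq_mul]
    ring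
  have h2 : ∑ i, (m (Sum.inl i) : ℝ) * (0 : RE n) i = 0 := by
    refine Finset.sum_eq_zero fun i _ => ?_
    rw [PiLp.zero_apply, mul_zero]
  rw [h1, h2]
  ring

theorem f8_ex_le {n : ℕ} (m : Ix n → ℤ) (v : RE n) : |f8_ex m 0 v| ≤ l1 m * ‖v‖ := by
  unfold f8_ex
  have h2 : ∑ i, (m (Sum.inl i) : ℝ) * (0 : RE n) i = 0 := by
    refine Finset.sum_eq_zero fun i _ => ?_
    rw [PiLp.zero_apply, mul_zero]
  rw [h2, zero_add, abs_div, abs_of_pos (by norm_num : (0 : ℝ) < 13)]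
  have h3 : |∑ i, (m (Sum.inr i) : ℝ) * v i| ≤ (∑ i, |(m (Sum.inr i) : ℝ)|) * ‖v‖ := by
    rw [Finset.sum_mul]
    refine (Finset.abs_sum_le_sum_abs _ _).trans (Finset.sum_le_sum fun i _ => ?_)
    rw [abs_mul]
    refine mul_le_mul_of_nonneg_left ?_ (abs_nonneg _)
    exact PiLp.norm_apply_le v i
  have h4 : ∑ i, |(m (Sum.inr i) : ℝ)| ≤ l1 m := by
    unfold l1
    rw [Fintype.sum_sum_type]
    have h5 : 0 ≤ ∑ i, |(m (Sum.inl i) : ℝ)| := Finset.sum_nonneg fun i _ => abs_nonneg _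
    linarith
  have h6 : |∑ i, (m (Sum.inr i) : ℝ) * v i| ≤ l1 m * ‖v‖ := h3.trans (mul_le_mul_of_nonneg_right h4 (norm_nonneg _))
  have h7 : 0 ≤ |∑ i, (m (Sum.inr i) : ℝ) * v i| := abs_nonneg _
  linarith

theorem f8_exp {n : ℕ} (m : Ix n → ℤ) (x p : RE n) :
    ‖Complex.exp (2 * Real.pi * Complex.I * ex m (ofR x, ofR p))‖ = 1 := by
  rw [f8_ex_eq, show (2 * Real.pi * Complex.I * ((f8_ex m x p : ℝ) : ℂ) : ℂ) =
    ((2 * Real.pi * f8_ex m x p : ℝ) : ℂ) * Complex.I by push_cast; ring]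
  exact Complex.norm_exp_ofReal_mul_I _

theorem f8_l1_nonneg {n : ℕ} (m : Ix n → ℤ) : 0 ≤ l1 m := Finset.sum_nonneg fun i _ => abs_nonneg _

theorem f8_out {n : ℕ} {T : ℝ} (hT : 1 ≤ T) {m : Ix n → ℤ} (hm : m ∉ bx2 n ⌊T⌋₊) : ∃ i, T ≤ |(m i : ℝ)| := by
  rw [mem_bx2] at hm
  push Not at hm
  obtain ⟨i, hi⟩ := hm
  refine ⟨i, ?_⟩
  have h1 : ((⌊T⌋₊ : ℕ) : ℤ) + 1 ≤ |m i| := hi
  have h2 : ((⌊T⌋₊ : ℕ) : ℝ) + 1 ≤ |(m i : ℝ)| := by
    have h3 : (((⌊T⌋₊ : ℕ) : ℤ) + 1 : ℝ) ≤ ((|m i| : ℤ) : ℝ) := by exact_mod_cast h1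
    rw [Int.cast_abs] at h3
    exact_mod_cast h3
  exact (Nat.lt_floor_add_one T).le.trans h2

theorem ft_approx {n : ℕ} {G : RE n × RE n → ℝ} (g : C(UnitAddTorus (Ix n), ℂ))
    (hg : ∀ x y, g (pt x y) = ((G (x, y) : ℝ) : ℂ))
    (hs : Summable fun m => ‖UnitAddTorus.mFourierCoeff g m‖ * (1 + l1 m)) {T δ : ℝ} (hT : 1 ≤ T)
    (hδ : ∀ S : Finset (Ix n → ℤ), (∀ m ∈ S, ∃ i, T ≤ |(m i : ℝ)|) →
      ∑ m ∈ S, ‖UnitAddTorus.mFourierCoeff g m‖ * (1 + l1 m) ≤ δ) (x p : RE n) :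
    ‖FT (fun m => UnitAddTorus.mFourierCoeff g m) T (ofR x, ofR p) - ((G (x, (1 / 13 : ℝ) • p) : ℝ) : ℂ)‖ ≤ δ ∧
    ∀ v : RE n, HasDerivAt (fun t : ℝ => ((G (x, (1 / 13 : ℝ) • (p + t • v)) : ℝ) : ℂ))
      (∑' m, UnitAddTorus.mFourierCoeff g m * Complex.exp (2 * Real.pi * Complex.I * ex m (ofR x, ofR p)) *
        (2 * Real.pi * Complex.I * ex m (0, ofR v))) 0 ∧
      ‖fderiv ℂ (FT (fun m => UnitAddTorus.mFourierCoeff g m) T) (ofR x, ofR p) (0, ofR v) -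
        ∑' m, UnitAddTorus.mFourierCoeff g m * Complex.exp (2 * Real.pi * Complex.I * ex m (ofR x, ofR p)) *
        (2 * Real.pi * Complex.I * ex m (0, ofR v))‖ ≤ 2 * Real.pi * δ * ‖v‖ := by
  set A : (Ix n → ℤ) → ℂ := fun m => UnitAddTorus.mFourierCoeff g m with hA
  have hsA : Summable (UnitAddTorus.mFourierCoeff g) := by
    refine Summable.of_norm_bounded hs fun m => ?_
    have h1 := f8_l1_nonneg m
    nlinarith [norm_nonneg (UnitAddTorus.mFourierCoeff g m)]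
  have hsum : ∀ x p : RE n, HasSum (fun m => A m * Complex.exp (2 * Real.pi * Complex.I * ex m (ofR x, ofR p)))
      ((G (x, (1 / 13 : ℝ) • p) : ℝ) : ℂ) := by
    intro x p
    have h1 := UnitAddTorus.hasSum_mFourier_series_apply_of_summable hsA (pt x ((1 / 13 : ℝ) • p))
    rw [hg] at h1
    have h2 : ((13 : ℝ) • ((1 / 13 : ℝ) • p)) = p := by
      rw [smul_smul]
      norm_num
    simp only [mFourier_pt, h2, smul_eq_mul] at h1
    exact h1
  have hu : ∀ v : RE n, Summable fun m : Ix n → ℤ => 2 * Real.pi * ‖v‖ * (‖A m‖ * (1 + l1 m)) :=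
    fun v => hs.mul_left _
  have hbd : ∀ (v : RE n) (m : Ix n → ℤ) (c : ℂ), ‖c‖ = 1 →
      ‖A m * c * (2 * Real.pi * Complex.I * ex m (0, ofR v))‖ ≤ 2 * Real.pi * ‖v‖ * (‖A m‖ * (1 + l1 m)) := by
    intro v m c hc
    rw [norm_mul, norm_mul, hc, mul_one, f8_ex_zero, norm_mul, Complex.norm_real, Real.norm_eq_abs]
    have h1 : ‖(2 * Real.pi * Complex.I : ℂ)‖ = 2 * Real.pi := by
      rw [norm_mul, Complex.norm_I, mul_one, norm_mul, Complex.norm_real, Real.norm_of_nonneg Real.pi_pos.le]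
      norm_num
    rw [h1]
    have h2 := f8_ex_le m v
    have h3 := f8_l1_nonneg m
    have h4 : |f8_ex m 0 v| ≤ (1 + l1 m) * ‖v‖ := by
      have := norm_nonneg v
      nlinarith
    calc ‖A m‖ * (2 * Real.pi * |f8_ex m 0 v|) ≤ ‖A m‖ * (2 * Real.pi * ((1 + l1 m) * ‖v‖)) := by
          refine mul_le_mul_of_nonneg_left ?_ (norm_nonneg _)
          exact mul_le_mul_of_nonneg_left h4 Real.two_pi_pos.le
      _ = _ := by ring
  refine ⟨?_, fun v => ⟨?_, ?_⟩⟩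
  · refine f8_tail (hsum x p) (bx2 n ⌊T⌋₊) (w := fun m => ‖A m‖ * (1 + l1 m)) ?_ ?_
    · intro m
      rw [norm_mul, f8_exp, mul_one]
      have h1 := f8_l1_nonneg m
      nlinarith [norm_nonneg (A m)]
    · intro S hS
      exact hδ S fun m hm => f8_out hT (hS m hm)
  · have h1 : ∀ (m : Ix n → ℤ) (t : ℝ), HasDerivAt (fun t : ℝ => A m * Complex.exp (2 * Real.pi * Complex.I *
        ex m (ofR x, ofR (p + t • v)))) (A m * Complex.exp (2 * Real.pi * Complex.I * ex m (ofR x, ofR (p + t • v))) *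
        (2 * Real.pi * Complex.I * ex m (0, ofR v))) t := by
      intro m t
      have e1 : ∀ t : ℝ, ex m (ofR x, ofR (p + t • v)) = ex m (ofR x, ofR p) + (t : ℂ) * ex m (0, ofR v) := by
        intro t
        rw [f8_ex_eq, f8_ex_add, f8_ex_eq, f8_ex_zero]
        push_cast
        rfl
      simp only [e1]
      have h2 : HasDerivAt (fun t : ℝ => (2 * Real.pi * Complex.I * (ex m (ofR x, ofR p) + (t : ℂ) * ex m (0, ofR v)) : ℂ))
          (2 * Real.pi * Complex.I * ex m (0, ofR v)) t := by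
        have h3 : HasDerivAt (fun t : ℝ => (t : ℂ) * ex m (0, ofR v)) (1 * ex m (0, ofR v)) t :=
          (Complex.ofRealCLM.hasDerivAt (x := t)).mul_const _
        have h4 := (h3.const_add (ex m (ofR x, ofR p))).const_mul (2 * Real.pi * Complex.I : ℂ)
        rw [one_mul] at h4
        exact h4
      have h5 := h2.cexp.const_mul (A m)
      rw [← mul_assoc] at h5
      exact h5
    have h2 := hasDerivAt_tsum (hu v) h1 (fun m t => hbd v m _ (f8_exp m x _)) (hsum x (p + (0 : ℝ) • v)).summable 0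
    rw [zero_smul, add_zero] at h2
    have h3 : (fun t : ℝ => ((G (x, (1 / 13 : ℝ) • (p + t • v)) : ℝ) : ℂ)) =
        fun t : ℝ => ∑' m, A m * Complex.exp (2 * Real.pi * Complex.I * ex m (ofR x, ofR (p + t • v))) := by
      funext t
      exact (hsum x (p + t • v)).tsum_eq.symm
    rw [h3]
    exact h2
  · rw [ft_fderiv]
    have h1 : Summable fun m : Ix n → ℤ => A m * Complex.exp (2 * Real.pi * Complex.I * ex m (ofR x, ofR p)) *
        (2 * Real.pi * Complex.I * ex m (0, ofR v)) :=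
      Summable.of_norm_bounded (hu v) fun m => hbd v m _ (f8_exp m x p)
    refine f8_tail h1.hasSum (bx2 n ⌊T⌋₊) (fun m => hbd v m _ (f8_exp m x p)) ?_
    intro S hS
    rw [← Finset.mul_sum]
    have h2 := hδ S fun m hm => f8_out hT (hS m hm)
    calc 2 * Real.pi * ‖v‖ * ∑ m ∈ S, ‖A m‖ * (1 + l1 m) ≤ 2 * Real.pi * ‖v‖ * δ := by
          refine mul_le_mul_of_nonneg_left h2 ?_
          have := Real.two_pi_pos
          positivity
      _ = _ := by ring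

end Pool.Agent.LRT
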