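import Pool.Agent.LRT.F2
import Pool.Agent.LRT.F5
import Pool.Agent.LRT.F6
import Pool.Agent.LRT.F8

/-!
F9 (difficulty 2).  The approximation theorem (output of block V).

PROOF.  `dec_sum n r`: `s₀`, `C₁`; `s = s₀ + 1` (so `f` is `C^1`); `exists_per n s`: `C₂`.  Given `f`: `G`, `g` (`exists_tor`), `A m = mFourierCoeff g m`, `Dec s₀ (C₂ eps) A`: `coef_decay` (with `s₀ ≤ s`).  `F T = FT A T`.  `ft_diff'`, `ft_per`, `ft_real` (`coef_conj`; `g` is real: `pt_surj`).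
Bounds: `ft_bound`, `ft_sub` with `∑ ‖A m‖ ≤ ∑ ‖A m‖ (1 + l1 m) ≤ C₁ C₂ eps` resp. `≤ C₁ C₂ eps / T^r`.  Real points, `‖p‖ ≤ 3`: `ft_approx` with `δ = C₁ C₂ eps / T^r`; `G (x, (1/13) p) = f (x, p)`, and for the derivative: near `t = 0`, `‖p + t v‖ ≤ 13/4`, so the function `t ↦ G (x, (1/13)(p + t v))` is `t ↦ f (x, p + t v)` near `0`, with derivative
`fderiv ℝ f (x, p) (0, v)` (`f` is differentiable; chain rule, `HasDerivAt.ofReal_comp`); uniqueness of the derivative.  `C = (exp (8πn) + 7) C₁ C₂`.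
-/

set_option autoImplicit false

open Set MeasureTheory Topology

namespace Pool.Agent.LRT

theorem approx (n r : ℕ) : ∃ (s : ℕ) (C : ℝ), 0 < C ∧ ∀ (eps : ℝ) (f : RE n × RE n → ℝ), ContDiff ℝ s f →
    (∀ x p : RE n, ∀ k : Fin n → ℤ, f (x + lat k, p) = f (x, p)) →
    (∀ j ≤ s, ∀ x p : RE n, ‖p‖ ≤ 5 * Real.sqrt n → ‖iteratedFDeriv ℝ j f (x, p)‖ ≤ eps) →
    ∃ F : ℝ → CE n × CE n → ℂ, (∀ T, Differentiable ℂ (F T)) ∧
      (∀ T z, ∀ k : Fin n → ℤ, F T (z.1 + ofR (lat k), z.2) = F T z) ∧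
      (∀ T z, F T (cjp z) = (starRingEnd ℂ) (F T z)) ∧
      (∀ T : ℝ, 1 ≤ T → ∀ z : CE n × CE n, ‖im z.1‖ ≤ 2 / T → ‖im z.2‖ ≤ 2 / T → ‖F T z‖ ≤ C * eps) ∧
      (∀ T T' : ℝ, 1 ≤ T → T ≤ T' → ∀ z : CE n × CE n, ‖im z.1‖ ≤ 2 / T' → ‖im z.2‖ ≤ 2 / T' →
        ‖F T' z - F T z‖ ≤ C * eps / T ^ r) ∧
      ∀ T : ℝ, 1 ≤ T → ∀ x p : RE n, ‖p‖ ≤ 3 → ‖F T (ofR x, ofR p) - ((f (x, p) : ℝ) : ℂ)‖ ≤ C * eps / T ^ r ∧
        ∀ v : RE n, ‖fderiv ℂ (F T) (ofR x, ofR p) (0, ofR v) - ((fderiv ℝ f (x, p) (0, v) : ℝ) : ℂ)‖ ≤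
          C * eps / T ^ r * ‖v‖ := by
  obtain ⟨s₀, C₁, hC₁, hsum⟩ := dec_sum n r
  obtain ⟨C₂, hC₂, hper⟩ := exists_per n (s₀ + 1)
  have hE : 0 < Real.exp (8 * Real.pi * n) := Real.exp_pos _
  refine ⟨s₀ + 1, (Real.exp (8 * Real.pi * n) + 7) * (C₁ * C₂), by positivity, ?_⟩
  intro eps f hf hfp hfb
  have heps : 0 ≤ eps := by
    have h1 := hfb 0 (Nat.zero_le _) 0 0 (by rw [norm_zero]; positivity)
    exact (norm_nonneg _).trans h1
  obtain ⟨G, hGs, hGp, hGb, hGf⟩ := hper eps f hf hfp hfb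
  obtain ⟨g, hg⟩ := exists_tor hGs.continuous hGp
  have hDec : Dec s₀ (C₂ * eps) (fun m => UnitAddTorus.mFourierCoeff g m) :=
    coef_decay (hGs.of_le (by exact_mod_cast Nat.le_succ s₀)) hGp (fun j hj z => hGb j (by omega) z) g hg
  obtain ⟨s1, s2, s3⟩ := hsum _ _ hDec
  set A : (Ix n → ℤ) → ℂ := fun m => UnitAddTorus.mFourierCoeff g m with hA
  have hl1 : ∀ m : Ix n → ℤ, 0 ≤ l1 m := fun m => Finset.sum_nonneg fun i _ => abs_nonneg _
  have hnn : ∀ m : Ix n → ℤ, ‖A m‖ ≤ ‖A m‖ * (1 + l1 m) := fun m =>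
    le_mul_of_one_le_right (norm_nonneg _) (by linarith [hl1 m])
  have hreal : ∀ t, (starRingEnd ℂ) (g t) = g t := by
    intro t
    obtain ⟨x, y, rfl⟩ := pt_surj t
    rw [hg, Complex.conj_ofReal]
  have hK : 0 ≤ C₁ * (C₂ * eps) := by positivity
  have hcmp : ∀ c : ℝ, 0 ≤ c → c ≤ Real.exp (8 * Real.pi * n) + 7 → ∀ T : ℝ, 1 ≤ T →
      c * (C₁ * (C₂ * eps) / T ^ r) ≤ (Real.exp (8 * Real.pi * n) + 7) * (C₁ * C₂) * eps / T ^ r := by
    intro c hc hc' T hT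
    have hT0 : (0 : ℝ) < T ^ r := by positivity
    have h1 : c * (C₁ * (C₂ * eps) / T ^ r) ≤ (Real.exp (8 * Real.pi * n) + 7) * (C₁ * (C₂ * eps) / T ^ r) :=
      mul_le_mul_of_nonneg_right hc' (by positivity)
    refine h1.trans (le_of_eq ?_)
    ring
  refine ⟨fun T => FT A T, fun T => ft_diff' A T, fun T z k => ft_per A T z k,
    fun T z => ft_real A (fun m => coef_conj g hreal m) T z, ?_, ?_, ?_⟩
  · intro T hT z h1 h2
    refine (ft_bound A hT h1 h2).trans ?_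
    have h3 : ∑ m ∈ bx2 n ⌊T⌋₊, ‖A m‖ ≤ C₁ * (C₂ * eps) :=
      (Finset.sum_le_sum fun m _ => hnn m).trans (s1 _)
    calc Real.exp (8 * Real.pi * n) * ∑ m ∈ bx2 n ⌊T⌋₊, ‖A m‖ ≤ Real.exp (8 * Real.pi * n) * (C₁ * (C₂ * eps)) :=
          mul_le_mul_of_nonneg_left h3 hE.le
      _ ≤ (Real.exp (8 * Real.pi * n) + 7) * (C₁ * (C₂ * eps)) := mul_le_mul_of_nonneg_right (by linarith) hK
      _ = _ := by ring
  · intro T T' hT hTT z h1 h2
    obtain ⟨S, hS, hle⟩ := ft_sub A hT hTT h1 h2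
    refine hle.trans ?_
    have h3 : ∑ m ∈ S, ‖A m‖ ≤ C₁ * (C₂ * eps) / T ^ r :=
      (Finset.sum_le_sum fun m _ => hnn m).trans (s2 T hT S hS)
    exact (mul_le_mul_of_nonneg_left h3 hE.le).trans (hcmp _ hE.le (by linarith) T hT)
  · intro T hT x p hp
    obtain ⟨h1, h2⟩ := ft_approx g hg s3 hT (s2 T hT) x p
    have h3 : G (x, (1 / 13 : ℝ) • p) = f (x, p) := hGf x p (by linarith)
    refine ⟨?_, ?_⟩
    · rw [h3] at h1
      refine h1.trans ?_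
      have h4 := hcmp 1 zero_le_one (by linarith) T hT
      rwa [one_mul] at h4
    · intro v
      obtain ⟨h4, h5⟩ := h2 v
      have hdf : HasFDerivAt f (fderiv ℝ f (x, p)) (x, p) :=
        ((hf.differentiable (by exact_mod_cast Nat.succ_ne_zero s₀)) (x, p)).hasFDerivAt
      have hγ : HasDerivAt (fun t : ℝ => ((x, p + t • v) : RE n × RE n)) (0, v) 0 := by
        have h6 : HasDerivAt (fun t : ℝ => p + t • v) v 0 := by
          have h7 := ((hasDerivAt_id (0 : ℝ)).smul_const v).const_add p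
          simpa using h7
        exact (hasDerivAt_const (0 : ℝ) x).prodMk h6
      have h6 : HasDerivAt (fun t : ℝ => f (x, p + t • v)) (fderiv ℝ f (x, p) (0, v)) 0 := by
        have h7 : HasFDerivAt f (fderiv ℝ f (x, p)) ((fun t : ℝ => ((x, p + t • v) : RE n × RE n)) 0) := by
          simpa using hdf
        exact h7.comp_hasDerivAt (0 : ℝ) hγ
      have h7 : HasDerivAt (fun t : ℝ => ((f (x, p + t • v) : ℝ) : ℂ)) ((fderiv ℝ f (x, p) (0, v) : ℝ) : ℂ) 0 :=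
        h6.ofReal_comp
      have h8 : (fun t : ℝ => ((f (x, p + t • v) : ℝ) : ℂ)) =ᶠ[𝓝 0]
          (fun t : ℝ => ((G (x, (1 / 13 : ℝ) • (p + t • v)) : ℝ) : ℂ)) := by
        have h9 : ContinuousAt (fun t : ℝ => ‖p + t • v‖) 0 := by fun_prop
        have h10 : ‖p + (0 : ℝ) • v‖ < 13 / 4 := by
          rw [zero_smul, add_zero]; linarith
        filter_upwards [h9.eventually (gt_mem_nhds h10)] with t ht
        rw [hGf x (p + t • v) ht.le]
      have h9 := (h7.congr_of_eventuallyEq h8.symm).unique h4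
      rw [h9]
      refine h5.trans ?_
      have h10 := hcmp (2 * Real.pi) (by positivity) (by linarith [Real.pi_lt_d2]) T hT
      exact mul_le_mul_of_nonneg_right h10 (norm_nonneg v)

end Pool.Agent.LRT
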