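import Pool.Agent.LRT.CD

/-!
Block V (Fourier approximation): definitions.
-/

set_option autoImplicit false

open Set MeasureTheory Topology

namespace Pool.Agent.LRT

noncomputable section

/-- index set of the `2n` variables -/
abbrev Ix (n : ℕ) := Fin n ⊕ Fin n

/-- the point of the torus given by a pair of real vectors -/
def pt {n : ℕ} (x y : RE n) : UnitAddTorus (Ix n) :=
  Sum.elim (fun i => ((x i : ℝ) : UnitAddCircle)) (fun i => ((y i : ℝ) : UnitAddCircle))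

/-- integer vectors of sup norm at most `K`, `2n` variables -/
def bx2 (n K : ℕ) : Finset (Ix n → ℤ) := Finset.Icc (fun _ => -(K : ℤ)) (fun _ => (K : ℤ))

lemma mem_bx2 {n K : ℕ} {m : Ix n → ℤ} : m ∈ bx2 n K ↔ ∀ i, |m i| ≤ K := by
  rw [bx2, Finset.mem_Icc, Pi.le_def, Pi.le_def, ← forall_and]
  simp only [abs_le]

/-- the size of an integer vector -/
def l1 {n : ℕ} (m : Ix n → ℤ) : ℝ := ∑ i, |(m i : ℝ)|

/-- the exponent -/
def ex {n : ℕ} (m : Ix n → ℤ) (z : CE n × CE n) : ℂ :=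
  ∑ i, (m (Sum.inl i) : ℂ) * z.1 i + (∑ i, (m (Sum.inr i) : ℂ) * z.2 i) / 13

/-- the trigonometric polynomial with the coefficients `a` -/
def FT {n : ℕ} (a : (Ix n → ℤ) → ℂ) (T : ℝ) (z : CE n × CE n) : ℂ :=
  ∑ m ∈ bx2 n ⌊T⌋₊, a m * Complex.exp (2 * Real.pi * Complex.I * ex m z)

/-- the difference operator -/
def dl {E : Type*} [Add E] (h : E) (F : E → ℝ) : E → ℝ := fun x => F (x + h) - F x

/-- periodic in both variables -/
def Per2 {n : ℕ} (G : RE n × RE n → ℝ) : Prop :=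
  ∀ x y : RE n, ∀ k l : Fin n → ℤ, G (x + lat k, y + lat l) = G (x, y)

/-- coefficients with decay -/
def Dec {n : ℕ} (s : ℕ) (B : ℝ) (a : (Ix n → ℤ) → ℂ) : Prop :=
  (∀ m, ‖a m‖ ≤ B) ∧ ∀ m i, ‖a m‖ * |(m i : ℝ)| ^ s ≤ B

end

end Pool.Agent.LRT
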