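import Pool.Agent.LRT.VH

/-!
K1 (difficulty 2).  Quadratic Hamiltonians with `C^s`-small coefficients are `Small`.

PROOF.  `fsc l f (x,p) = ⟨h(x) p, p⟩/2 + l⁻¹ ⟨A(x), p⟩ + l⁻² V(x)` for `f = quad h A V` (`l ≥ 1`).
Iterated derivatives of bilinear expressions: `ContinuousLinearMap.norm_iteratedFDeriv_le_of_bilinear`
(or `..._of_le_one`): `‖D^j (B (F, G))‖ ≤ ‖B‖ ∑_i C(j,i) ‖D^i F‖ ‖D^(j-i) G‖`.
With `F = h ∘ fst` one has `‖D^i F‖ ≤ ε` (`ContinuousLinearMap.iteratedFDeriv_comp_right`, `‖fst‖ ≤ 1`) and with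
`G = snd` (a linear map): `‖D^0 G‖ = ‖p‖ ≤ 1`, `‖D^1 G‖ ≤ 1`, higher derivatives vanish; so
`‖D^j (z ↦ h z.1 z.2)‖ ≤ 2^j ε` for `‖p‖ ≤ 1`; a second use with `innerSL` gives `‖D^j ⟨h(x)p,p⟩‖ ≤ 4^j ε`;
`‖D^j ⟨A(x), p⟩‖ ≤ 2^j ε`, `‖D^j V‖ ≤ ε`.  Factors `1/2`, `l⁻¹`, `l⁻²` are `≤ 1`.  `C = 3 * 4^s`.
Periodicity: from the periodicity of `h, A, V`.
-/

set_option autoImplicit false

open MeasureTheory Module Set Filter Topology

namespace Pool.Agent.LRT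

noncomputable section

variable {n : ℕ}

lemma k1_fst {W : Type*} [NormedAddCommGroup W] [NormedSpace ℝ W] {s : ℕ} {G : RE n → W}
    (hG : ContDiff ℝ s G) {ε : ℝ} {i : ℕ} (hi : i ≤ s)
    (hb : ∀ x, ‖iteratedFDeriv ℝ i G x‖ ≤ ε) (z : RE n × RE n) :
    ‖iteratedFDeriv ℝ i (fun z : RE n × RE n => G z.1) z‖ ≤ ε := by
  have e : (fun z : RE n × RE n => G z.1) = G ∘ (ContinuousLinearMap.fst ℝ (RE n) (RE n)) := rfl
  rw [e, (ContinuousLinearMap.fst ℝ (RE n) (RE n)).iteratedFDeriv_comp_right hG z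
    (i := i) (by exact_mod_cast hi)]
  refine (ContinuousMultilinearMap.norm_compContinuousLinearMap_le _ _).trans ?_
  have h0 : 0 ≤ ε := (norm_nonneg _).trans (hb 0)
  have h1 : ∏ _j : Fin i, ‖ContinuousLinearMap.fst ℝ (RE n) (RE n)‖ ≤ 1 :=
    Finset.prod_le_one (fun _ _ => norm_nonneg _)
      (fun _ _ => ContinuousLinearMap.norm_fst_le ℝ (RE n) (RE n))
  calc _ ≤ ε * 1 := mul_le_mul (hb _) h1 (Finset.prod_nonneg fun _ _ => norm_nonneg _) h0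
    _ = ε := mul_one ε

lemma k1_snd (i : ℕ) (z : RE n × RE n) (hz : ‖z.2‖ ≤ 1) :
    ‖iteratedFDeriv ℝ i (fun z : RE n × RE n => z.2) z‖ ≤ 1 := by
  rcases Nat.eq_zero_or_pos i with h0 | h0
  · subst h0
    rw [norm_iteratedFDeriv_zero]
    exact hz
  obtain ⟨j, rfl⟩ : ∃ j, i = j + 1 := ⟨i - 1, by omega⟩
  rw [← norm_iteratedFDeriv_fderiv]
  have e : fderiv ℝ (fun z : RE n × RE n => z.2) =
      fun _ => ContinuousLinearMap.snd ℝ (RE n) (RE n) := by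
    funext y
    exact fderiv_snd
  rw [e]
  rcases Nat.eq_zero_or_pos j with h | h
  · subst h
    rw [norm_iteratedFDeriv_zero]
    exact ContinuousLinearMap.norm_snd_le ℝ (RE n) (RE n)
  · rw [iteratedFDeriv_const_of_ne (by omega)]
    simp

lemma k1_bil {D W₁ W₂ W₃ : Type*} [NormedAddCommGroup D] [NormedSpace ℝ D] [NormedAddCommGroup W₁]
    [NormedSpace ℝ W₁] [NormedAddCommGroup W₂] [NormedSpace ℝ W₂] [NormedAddCommGroup W₃]
    [NormedSpace ℝ W₃] (B : W₁ →L[ℝ] W₂ →L[ℝ] W₃) (hB : ‖B‖ ≤ 1) {s : ℕ} {F : D → W₁} {G : D → W₂}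
    (hF : ContDiff ℝ s F) (hG : ContDiff ℝ s G) {z : D} {a b : ℝ} (ha : 0 ≤ a)
    (h1 : ∀ i ≤ s, ‖iteratedFDeriv ℝ i F z‖ ≤ a) (h2 : ∀ i ≤ s, ‖iteratedFDeriv ℝ i G z‖ ≤ b)
    {j : ℕ} (hj : j ≤ s) : ‖iteratedFDeriv ℝ j (fun y => B (F y) (G y)) z‖ ≤ 2 ^ j * (a * b) := by
  refine (B.norm_iteratedFDeriv_le_of_bilinear_of_le_one hF hG z (n := j)
    (by exact_mod_cast hj) hB).trans ?_
  calc ∑ i ∈ Finset.range (j + 1),
        (j.choose i : ℝ) * ‖iteratedFDeriv ℝ i F z‖ * ‖iteratedFDeriv ℝ (j - i) G z‖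
      ≤ ∑ i ∈ Finset.range (j + 1), (j.choose i : ℝ) * (a * b) := by
        refine Finset.sum_le_sum fun i hi => ?_
        rw [mul_assoc]
        refine mul_le_mul_of_nonneg_left ?_ (Nat.cast_nonneg _)
        have hij : i ≤ j := Nat.lt_succ_iff.1 (Finset.mem_range.1 hi)
        exact mul_le_mul (h1 i (hij.trans hj)) (h2 _ ((Nat.sub_le _ _).trans hj))
          (norm_nonneg _) ha
    _ = 2 ^ j * (a * b) := by
        rw [← Finset.sum_mul]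
        congr 1
        exact_mod_cast Nat.sum_range_choose j

/-- the scalar product as a bilinear map -/
def k1B (n : ℕ) : RE n →L[ℝ] RE n →L[ℝ] ℝ :=
  (innerₗ (RE n)).mkContinuous₂ 1 (fun x y => by
    rw [one_mul]
    exact norm_inner_le_norm x y)

lemma k1B_apply (x y : RE n) : k1B n x y = inner ℝ x y := rfl

lemma k1B_norm : ‖k1B n‖ ≤ 1 := LinearMap.mkContinuous₂_norm_le _ zero_le_one _

lemma k1_sum {D : Type*} [NormedAddCommGroup D] [NormedSpace ℝ D] {s : ℕ} {f₁ f₂ f₃ : D → ℝ}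
    (h1 : ContDiff ℝ s f₁) (h2 : ContDiff ℝ s f₂) (h3 : ContDiff ℝ s f₃) {c₁ c₂ c₃ : ℝ}
    (hc1 : |c₁| ≤ 1) (hc2 : |c₂| ≤ 1) (hc3 : |c₃| ≤ 1) {j : ℕ} (hj : j ≤ s) (z : D) {a : ℝ}
    (b1 : ‖iteratedFDeriv ℝ j f₁ z‖ ≤ a) (b2 : ‖iteratedFDeriv ℝ j f₂ z‖ ≤ a)
    (b3 : ‖iteratedFDeriv ℝ j f₃ z‖ ≤ a) :
    ‖iteratedFDeriv ℝ j (c₁ • f₁ + c₂ • f₂ + c₃ • f₃) z‖ ≤ 3 * a := by
  have hj' : (j : WithTop ℕ∞) ≤ s := by exact_mod_cast hj
  have g1 : ContDiff ℝ j f₁ := h1.of_le hj'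
  have g2 : ContDiff ℝ j f₂ := h2.of_le hj'
  have g3 : ContDiff ℝ j f₃ := h3.of_le hj'
  have e1 : ContDiff ℝ j (c₁ • f₁) := contDiff_const.smul g1
  have e2 : ContDiff ℝ j (c₂ • f₂) := contDiff_const.smul g2
  have e3 : ContDiff ℝ j (c₃ • f₃) := contDiff_const.smul g3
  have e12 : ContDiff ℝ j (c₁ • f₁ + c₂ • f₂) := e1.add e2
  rw [iteratedFDeriv_add_apply e12.contDiffAt e3.contDiffAt,
    iteratedFDeriv_add_apply e1.contDiffAt e2.contDiffAt,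
    iteratedFDeriv_const_smul_apply g1.contDiffAt, iteratedFDeriv_const_smul_apply g2.contDiffAt,
    iteratedFDeriv_const_smul_apply g3.contDiffAt]
  refine (norm_add₃_le).trans ?_
  have key : ∀ (c : ℝ) (f : D → ℝ), |c| ≤ 1 → ‖iteratedFDeriv ℝ j f z‖ ≤ a →
      ‖c • iteratedFDeriv ℝ j f z‖ ≤ a := by
    intro c f hc hf
    rw [norm_smul, Real.norm_eq_abs]
    calc |c| * ‖iteratedFDeriv ℝ j f z‖ ≤ 1 * a := mul_le_mul hc hf (norm_nonneg _) zero_le_one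
      _ = a := one_mul a
  have k1 := key c₁ f₁ hc1 b1
  have k2 := key c₂ f₂ hc2 b2
  have k3 := key c₃ f₃ hc3 b3
  linarith

/-- the quadratic Hamiltonian perturbation -/
def quad (h : RE n → RE n →L[ℝ] RE n) (A : RE n → RE n) (V : RE n → ℝ) (z : RE n × RE n) : ℝ :=
  inner ℝ (h z.1 z.2) z.2 / 2 + inner ℝ (A z.1) z.2 + V z.1

theorem small_quad (n s : ℕ) : ∃ C : ℝ, 0 < C ∧ ∀ (ε : ℝ) (h : RE n → RE n →L[ℝ] RE n)
    (A : RE n → RE n) (V : RE n → ℝ), ContDiff ℝ s h → ContDiff ℝ s A → ContDiff ℝ s V →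
    Pool.H45.Mather.Per (bs n) h → Pool.H45.Mather.Per (bs n) A → Pool.H45.Mather.Per (bs n) V →
    (∀ j ≤ s, ∀ x, ‖iteratedFDeriv ℝ j h x‖ ≤ ε ∧ ‖iteratedFDeriv ℝ j A x‖ ≤ ε ∧
      ‖iteratedFDeriv ℝ j V x‖ ≤ ε) →
    Small s (C * ε) (quad h A V) := by
  refine ⟨3 * 4 ^ s, by positivity, ?_⟩
  intro ε h A V hh hA hV ph pA pV hb
  have hε : 0 ≤ ε := (norm_nonneg _).trans (hb 0 (Nat.zero_le _) 0).1
  obtain ⟨f₀, hf₀⟩ : ∃ f₀ : RE n × RE n → RE n,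
      f₀ = fun z => (ContinuousLinearMap.id ℝ (RE n →L[ℝ] RE n)) (h z.1) z.2 := ⟨_, rfl⟩
  obtain ⟨f₁, hf₁⟩ : ∃ f₁ : RE n × RE n → ℝ, f₁ = fun z => k1B n (f₀ z) z.2 := ⟨_, rfl⟩
  obtain ⟨f₂, hf₂⟩ : ∃ f₂ : RE n × RE n → ℝ, f₂ = fun z => k1B n (A z.1) z.2 := ⟨_, rfl⟩
  obtain ⟨f₃, hf₃⟩ : ∃ f₃ : RE n × RE n → ℝ, f₃ = fun z => V z.1 := ⟨_, rfl⟩
  have ch1 : ContDiff ℝ s fun z : RE n × RE n => h z.1 := hh.comp contDiff_fst
  have cA1 : ContDiff ℝ s fun z : RE n × RE n => A z.1 := hA.comp contDiff_fst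
  have cs : ContDiff ℝ s fun z : RE n × RE n => z.2 := contDiff_snd
  have c0 : ContDiff ℝ s f₀ := by
    rw [hf₀]
    exact ch1.clm_apply cs
  have c1 : ContDiff ℝ s f₁ := by
    rw [hf₁]
    exact ((k1B n).contDiff.comp c0).clm_apply cs
  have c2 : ContDiff ℝ s f₂ := by
    rw [hf₂]
    exact ((k1B n).contDiff.comp cA1).clm_apply cs
  have c3 : ContDiff ℝ s f₃ := by
    rw [hf₃]
    exact hV.comp contDiff_fst
  have hfe : ∀ l : ℝ, 1 ≤ l → fsc l (quad h A V) =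
      (1 / 2 : ℝ) • f₁ + l⁻¹ • f₂ + (l⁻¹) ^ 2 • f₃ := by
    intro l hl
    have hl0 : l ≠ 0 := by linarith
    funext z
    simp only [fsc, quad, hf₁, hf₂, hf₃, hf₀, Pi.add_apply, Pi.smul_apply, smul_eq_mul, k1B_apply,
      ContinuousLinearMap.id_apply, map_smul, inner_smul_left, inner_smul_right, map_smul]
    simp only [conj_trivial]
    field_simp
  refine ⟨?_, ?_, ?_⟩
  · have e := hfe 1 le_rfl
    have e1 : fsc 1 (quad h A V) = quad h A V := by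
      funext z
      simp [fsc]
    rw [e1] at e
    rw [e]
    exact ((contDiff_const.smul c1).add (contDiff_const.smul c2)).add (contDiff_const.smul c3)
  · intro p i x
    simp only [quad]
    rw [ph i x, pA i x, pV i x]
  · intro l hl j hj x p hp
    rw [hfe l hl]
    have hinv0 : 0 ≤ l⁻¹ := by positivity
    have hinv1 : l⁻¹ ≤ 1 := inv_le_one_of_one_le₀ hl
    have p1 : (1 : ℝ) ≤ 2 ^ s := one_le_pow₀ (by norm_num)
    have p2 : (2 : ℝ) ^ j ≤ 2 ^ s := pow_le_pow_right₀ (by norm_num) hj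
    have p4 : (4 : ℝ) ^ s = 2 ^ s * 2 ^ s := by
      rw [← mul_pow]; norm_num
    have b0 : ∀ i ≤ s, ‖iteratedFDeriv ℝ i f₀ (x, p)‖ ≤ 2 ^ s * ε := by
      intro i hi
      rw [hf₀]
      refine (k1_bil (ContinuousLinearMap.id ℝ (RE n →L[ℝ] RE n)) ContinuousLinearMap.norm_id_le
        ch1 cs (z := (x, p)) hε (fun i hi => k1_fst hh hi (fun x => (hb i hi x).1) _)
        (fun i _ => k1_snd i _ hp) hi).trans ?_
      rw [mul_one]
      exact mul_le_mul_of_nonneg_right (pow_le_pow_right₀ (by norm_num) hi) hε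
    have b1 : ‖iteratedFDeriv ℝ j f₁ (x, p)‖ ≤ 4 ^ s * ε := by
      rw [hf₁]
      refine (k1_bil (k1B n) k1B_norm c0 cs (z := (x, p)) (by positivity) b0
        (fun i _ => k1_snd i _ hp) hj).trans ?_
      rw [mul_one, p4, mul_assoc]
      exact mul_le_mul_of_nonneg_right p2 (by positivity)
    have b2 : ‖iteratedFDeriv ℝ j f₂ (x, p)‖ ≤ 4 ^ s * ε := by
      rw [hf₂]
      refine (k1_bil (k1B n) k1B_norm cA1 cs (z := (x, p)) hε
        (fun i hi => k1_fst hA hi (fun x => (hb i hi x).2.1) _)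
        (fun i _ => k1_snd i _ hp) hj).trans ?_
      rw [mul_one, p4]
      refine mul_le_mul_of_nonneg_right ?_ hε
      nlinarith
    have b3 : ‖iteratedFDeriv ℝ j f₃ (x, p)‖ ≤ 4 ^ s * ε := by
      rw [hf₃]
      refine (k1_fst hV hj (fun x => (hb j hj x).2.2) _).trans ?_
      have : (1 : ℝ) ≤ 4 ^ s := one_le_pow₀ (by norm_num)
      nlinarith
    refine (k1_sum c1 c2 c3 (by rw [abs_of_pos] <;> norm_num) (by rwa [abs_of_nonneg hinv0])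
      (by rw [abs_of_nonneg (by positivity)]; exact pow_le_one₀ hinv0 hinv1) hj _ b1 b2 b3).trans
      (le_of_eq ?_)
    ring

end

end Pool.Agent.LRT
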