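import Mathlib

/-!
L1 (difficulty 2).  A `C²` limit.

PROOF.  Let `F j = fun y => f (j + 1) y - f j y` (`ContDiff ℝ 2`).  `contDiff_tsum` (Mathlib, SmoothSeries) with
`N = 2`, `v k j = ε j`: `‖iteratedFDeriv ℝ k (F j) x‖ ≤ ε j` for `k = 0, 1, 2`: `norm_iteratedFDeriv_zero`,
`norm_iteratedFDeriv_one`, and for `k = 2`: `norm_iteratedFDeriv_fderiv` (`‖iteratedFDeriv 1 (fderiv f) x‖ =
‖iteratedFDeriv 2 f x‖`).  So `G x = ∑' j, F j x` is `C²` and `g = f 0 + G`.
`f J x = f 0 x + ∑_{j<J} F j x` (`Finset.sum_range_sub`), so `f J x → g x` (`Summable.hasSum`, `HasSum.tendsto_sum_nat`;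
summable by comparison with `ε`).  The same for the derivatives: `fderiv_tsum` (or `hasFDerivAt_tsum`) gives
`fderiv ℝ G x = ∑' j, fderiv ℝ (F j) x`, and `fderiv ℝ (f J) x = fderiv ℝ (f 0) x + ∑_{j<J} fderiv ℝ (F j) x`.
-/

set_option autoImplicit false

open Set MeasureTheory Topology

namespace Pool.Agent.LRT

theorem c2_limit {V W : Type*} [NormedAddCommGroup V] [NormedSpace ℝ V] [NormedAddCommGroup W] [NormedSpace ℝ W]
    [CompleteSpace W] (f : ℕ → V → W) (hf : ∀ j, ContDiff ℝ 2 (f j)) {ε : ℕ → ℝ} (hε : Summable ε)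
    (h0 : ∀ j x, ‖f (j + 1) x - f j x‖ ≤ ε j)
    (h1 : ∀ j x, ‖fderiv ℝ (fun y => f (j + 1) y - f j y) x‖ ≤ ε j)
    (h2 : ∀ j x, ‖fderiv ℝ (fderiv ℝ (fun y => f (j + 1) y - f j y)) x‖ ≤ ε j) :
    ∃ g : V → W, ContDiff ℝ 2 g ∧ (∀ x, Filter.Tendsto (fun j => f j x) Filter.atTop (𝓝 (g x))) ∧
      ∀ x, Filter.Tendsto (fun j => fderiv ℝ (f j) x) Filter.atTop (𝓝 (fderiv ℝ g x)) := by
  set F : ℕ → V → W := fun j y => f (j + 1) y - f j y with hF
  have hFc : ∀ j, ContDiff ℝ 2 (F j) := fun j => (hf (j + 1)).sub (hf j)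
  have hFd : ∀ j, Differentiable ℝ (F j) := fun j => (hFc j).differentiable (by norm_num)
  have hfd : ∀ j, Differentiable ℝ (f j) := fun j => (hf j).differentiable (by norm_num)
  have hFs : ∀ x, Summable fun j => F j x := fun x =>
    Summable.of_norm_bounded hε (fun j => h0 j x)
  have hDs : ∀ x, Summable fun j => fderiv ℝ (F j) x := fun x =>
    Summable.of_norm_bounded hε (fun j => h1 j x)
  have hG : ContDiff ℝ 2 (fun x => ∑' j, F j x) := by
    refine contDiff_tsum (N := 2) (v := fun _ j => ε j) hFc (fun k _ => hε) ?_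
    intro k j x hk
    have hk2 : k ≤ 2 := by exact_mod_cast hk
    interval_cases k
    · rw [norm_iteratedFDeriv_zero]
      exact h0 j x
    · rw [norm_iteratedFDeriv_one]
      exact h1 j x
    · rw [show (2 : ℕ) = 1 + 1 from rfl, ← norm_iteratedFDeriv_fderiv, norm_iteratedFDeriv_one]
      exact h2 j x
  have hGd : Differentiable ℝ (fun x => ∑' j, F j x) := hG.differentiable (by norm_num)
  refine ⟨fun x => f 0 x + ∑' j, F j x, (hf 0).add hG, ?_, ?_⟩
  · intro x
    have e : (fun J => f J x) = fun J => f 0 x + ∑ j ∈ Finset.range J, F j x := by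
      funext J
      rw [hF]
      simp only
      rw [Finset.sum_range_sub (fun j => f j x)]
      abel
    rw [e]
    exact (hFs x).hasSum.tendsto_sum_nat.const_add _
  · intro x
    have e : (fun J => fderiv ℝ (f J) x) = fun J => fderiv ℝ (f 0) x + ∑ j ∈ Finset.range J, fderiv ℝ (F j) x := by
      funext J
      have e2 : ∀ j, fderiv ℝ (F j) x = fderiv ℝ (f (j + 1)) x - fderiv ℝ (f j) x := fun j =>
        fderiv_fun_sub (hfd (j + 1) x) (hfd j x)
      rw [Finset.sum_congr rfl fun j _ => e2 j, Finset.sum_range_sub (fun j => fderiv ℝ (f j) x)]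
      abel
    have e3 : fderiv ℝ (fun x => f 0 x + ∑' j, F j x) x = fderiv ℝ (f 0) x + ∑' j, fderiv ℝ (F j) x := by
      rw [fderiv_fun_add (hfd 0 x) (hGd x),
        fderiv_tsum_apply (x₀ := x) hε hFd (fun j x => h1 j x) (hFs x)]
    rw [e, e3]
    exact (hDs x).hasSum.tendsto_sum_nat.const_add _

/-- a sequence with summable increments converges -/
theorem seq_limit {W : Type*} [NormedAddCommGroup W] [CompleteSpace W] (f : ℕ → W) {ε : ℕ → ℝ} (hε : Summable ε)
    (h0 : ∀ j, ‖f (j + 1) - f j‖ ≤ ε j) : ∃ g : W, Filter.Tendsto f Filter.atTop (𝓝 g) := by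
  have hs : Summable fun j => f (j + 1) - f j := Summable.of_norm_bounded hε h0
  refine ⟨f 0 + ∑' j, (f (j + 1) - f j), ?_⟩
  have e : f = fun J => f 0 + ∑ j ∈ Finset.range J, (f (j + 1) - f j) := by
    funext J
    rw [Finset.sum_range_sub]
    abel
  have h := hs.hasSum.tendsto_sum_nat.const_add (f 0)
  rw [← e] at h
  exact h

/-- the sequence of the radii is summable and tends to zero -/
theorem rho_summable {ρ : ℕ → ℝ} (h : ∀ j, 0 < ρ j ∧ ρ (j + 1) ≤ ρ j / 64) (C : ℝ) :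
    Summable (fun j => C * ρ j) ∧ Filter.Tendsto ρ Filter.atTop (𝓝 0) := by
  have h1 : ∀ j, ρ j ≤ ρ 0 * (1 / 64) ^ j := by
    intro j
    induction j with
    | zero => simp
    | succ j ih =>
      rw [pow_succ]
      have := (h j).2
      linarith
  have hg : Summable fun j : ℕ => ρ 0 * (1 / 64 : ℝ) ^ j :=
    (summable_geometric_of_lt_one (by norm_num) (by norm_num)).mul_left _
  have hs : Summable ρ := Summable.of_nonneg_of_le (fun j => (h j).1.le) h1 hg
  exact ⟨hs.mul_left C, hs.tendsto_atTop_zero⟩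

end Pool.Agent.LRT
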