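import Pool.Agent.LRT.L1
import Pool.Agent.LRT.L3

/-!
L5 (difficulty 3).  Convergence of the approximate solutions at real frequencies.

PROOF.  `IterHyp` is the output of the iteration.  Numbers: `ρ j ≤ 1/4` (`NS.ρ1`), `3 ≤ MM n - 2 * n - 6`, `3 ≤ MM n`
(`MM n = 200 (n+4)^2`), so `(ρ j)^(..) ≤ (ρ j)^3` (`pow_le_pow_of_le_one`); `∑ 2000 ρ j < ∞` (`rho_summable`, L1).
`lim_c`: `c_j = re (gb (b j) (ofR w))`; `gb (b (j+1)) - gb (b j) = gb (fun w => b (j+1) w - b j w)` at `ofR w`: for this the two functions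
must be differentiable at `ofR w`: yes (`NS.bd`, `isOpen_Dw`, `ofR_mem_Dw`; `fderiv_sub`, `gb` is linear in `fderiv`).  Cauchy estimate for
`b (j+1) - b j` on the ball of radius `ρ j / 4` around `ofR w` (`ball_subset_Dw` with `Dw (ρ j / 2) (R j)`; `‖w‖ < 1 < R j - ρ j/4`):
`‖c_{j+1} - c_j‖ ≤ (ρ j)^(MM n) / (ρ j / 4) ≤ 4 ρ j`; `seq_limit`.  `lim_b`: `|b (j+1) - b j| ≤ (ρ j)^(MM n) ≤ ρ j`, `seq_limit` in `ℝ`.
`lim_u`: `c2_limit` (L1) for `f j x = (u j (ofR x, ofR w)).re`: `C²` by `rr_contDiff` (`T = Complex.reCLM`); the increments are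
`T ((u (j+1) - u j) (ofR x, ofR w))`, `rr_bound` with domain `D (ρ j / 8) (R j - ρ j / 4)`, `d = ρ j / 16`, `B = (ρ j)^3`:
`4 B / d^2 = 1024 ρ j`.  The gradient: `re (gx (u j) (ofR x, ofR w))` is the vector `g` with `inner g v = fderiv ℝ (f j) x v`
(`NS.grad_real`), so it is the image of `fderiv ℝ (f j) x` under the isometry `(InnerProductSpace.toDual ℝ (RE n)).symm`, hence it converges to
the vector `G x` with `inner (G x) v = fderiv ℝ g x v`.
-/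

set_option autoImplicit false

open Set MeasureTheory Topology

namespace Pool.Agent.LRT

/-- the output of the iteration -/
structure IterHyp (n : ℕ) (CH : ℝ) (ρ R : ℕ → ℝ) (H : ℕ → CE n × CE n → ℂ) (b : ℕ → CE n → ℂ)
    (u : ℕ → CE n × CE n → ℂ) : Prop where
  R1 : ∀ j, 3 / 2 ≤ R j
  R2 : ∀ j, R j ≤ 2
  ρ0 : ∀ j, 0 < ρ j
  ρ1 : ∀ j, ρ (j + 1) ≤ ρ j / 64
  ns : ∀ j, NS (1 / 100) (ρ j) (R j) CH (H j) (b j) (u j)
  er : ∀ j, ∀ z ∈ D (ρ j) (R j), ‖err (H j) (b j) (u j) z‖ ≤ (ρ j) ^ MM n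
  db : ∀ j, DifferentiableOn ℂ (fun w => b (j + 1) w - b j w) (Dw (ρ j / 2) (R j))
  dbb : ∀ j, ∀ w ∈ Dw (ρ j / 2) (R j), ‖b (j + 1) w - b j w‖ ≤ (ρ j) ^ MM n
  du : ∀ j, DifferentiableOn ℂ (fun z => u (j + 1) z - u j z) (D (ρ j / 8) (R j - ρ j / 4))
  dub : ∀ j, ∀ z ∈ D (ρ j / 8) (R j - ρ j / 4), ‖u (j + 1) z - u j z‖ ≤ (ρ j) ^ (MM n - 2 * n - 6)

variable {n : ℕ} {CH : ℝ} {ρ R : ℕ → ℝ} {H : ℕ → CE n × CE n → ℂ} {b : ℕ → CE n → ℂ} {u : ℕ → CE n × CE n → ℂ} {w : RE n}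

theorem l5_pow {r : ℝ} (h0 : 0 < r) (h1 : r ≤ 1 / 4) {a : ℕ} (ha : 3 ≤ a) : r ^ a ≤ r ^ 3 :=
  pow_le_pow_of_le_one h0.le (by linarith) ha

theorem l5_MM (n : ℕ) : 3 ≤ MM n ∧ 3 ≤ MM n - 2 * n - 6 := by
  have : 2 * n + 12 ≤ MM n := by
    unfold MM
    nlinarith [Nat.zero_le n]
  omega

theorem IterHyp.l5_seq (h : IterHyp n CH ρ R H b u) (C : ℝ) : Summable (fun j => C * ρ j) :=
  (rho_summable (fun j => ⟨h.ρ0 j, h.ρ1 j⟩) C).1

theorem IterHyp.l5_mem (h : IterHyp n CH ρ R H b u) (hw : ‖w‖ < 1) (j : ℕ) :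
    ofR w ∈ (Dw (ρ j) (R j) : Set (CE n)) :=
  ofR_mem_Dw (h.ρ0 j) (by linarith [h.R1 j])

theorem IterHyp.lim_c (h : IterHyp n CH ρ R H b u) (hw : ‖w‖ < 1) :
    ∃ c : RE n, Filter.Tendsto (fun j => re (gb (b j) (ofR w))) Filter.atTop (𝓝 c) := by
  refine seq_limit _ (h.l5_seq 4) fun j => ?_
  have hρ := h.ρ0 j
  have hρ4 := (h.ns j).ρ1
  have hR := h.R1 j
  have d1 : DifferentiableAt ℂ (b j) (ofR w) :=
    (h.ns j).bd.differentiableAt ((isOpen_Dw _ _).mem_nhds (h.l5_mem hw j))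
  have d2 : DifferentiableAt ℂ (b (j + 1)) (ofR w) :=
    (h.ns (j + 1)).bd.differentiableAt ((isOpen_Dw _ _).mem_nhds (h.l5_mem hw (j + 1)))
  have e1 : gb (fun w => b (j + 1) w - b j w) (ofR w) = gb (b (j + 1)) (ofR w) - gb (b j) (ofR w) := by
    unfold gb
    rw [fderiv_fun_sub d2 d1, map_sub]
  rw [← re_sub, ← e1]
  refine (norm_re_le _).trans ((norm_gb_le _ _).trans ?_)
  have hd : 0 < ρ j / 4 := by linarith
  have hm : ofR w ∈ (Dw (ρ j / 2 - ρ j / 4) (R j - ρ j / 4) : Set (CE n)) :=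
    ofR_mem_Dw (by linarith) (by linarith)
  have hs := ball_subset_Dw hm
  refine (cauchy_fderiv hd ((h.db j).mono hs) (fun y hy => h.dbb j y (hs hy))).trans ?_
  have h1 := l5_pow hρ hρ4 (l5_MM n).1
  rw [div_le_iff₀ hd]
  have h2 : ρ j ^ 3 ≤ ρ j ^ 2 := pow_le_pow_of_le_one hρ.le (by linarith) (by norm_num)
  nlinarith

theorem IterHyp.lim_b (h : IterHyp n CH ρ R H b u) (hw : ‖w‖ < 1) :
    ∃ a : ℝ, Filter.Tendsto (fun j => (b j (ofR w)).re) Filter.atTop (𝓝 a) := by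
  refine seq_limit _ (h.l5_seq 1) fun j => ?_
  have hρ := h.ρ0 j
  have hρ4 := (h.ns j).ρ1
  have hR := h.R1 j
  have e1 : (b (j + 1) (ofR w)).re - (b j (ofR w)).re = (b (j + 1) (ofR w) - b j (ofR w)).re := by
    rw [Complex.sub_re]
  rw [e1, Real.norm_eq_abs]
  refine (Complex.abs_re_le_norm _).trans ?_
  have hm : ofR w ∈ (Dw (ρ j / 2) (R j) : Set (CE n)) := ofR_mem_Dw (by linarith) (by linarith)
  refine (h.dbb j _ hm).trans ?_
  have h1 := l5_pow hρ hρ4 (l5_MM n).1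
  have h2 : ρ j ^ 3 ≤ ρ j ^ 1 := pow_le_pow_of_le_one hρ.le (by linarith) (by norm_num)
  rw [pow_one] at h2
  linarith

theorem l5_norm_reCLM : ‖(Complex.reCLM : ℂ →L[ℝ] ℝ)‖ ≤ 1 := by
  refine ContinuousLinearMap.opNorm_le_bound _ zero_le_one fun z => ?_
  rw [one_mul, Real.norm_eq_abs]
  exact Complex.abs_re_le_norm z

theorem IterHyp.lim_u (h : IterHyp n CH ρ R H b u) (hw : ‖w‖ < 1) :
    ∃ (v : RE n → ℝ) (G : RE n → RE n), ContDiff ℝ 2 v ∧
      (∀ x, Filter.Tendsto (fun j => (u j (ofR x, ofR w)).re) Filter.atTop (𝓝 (v x))) ∧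
      (∀ x, Filter.Tendsto (fun j => re (gx (u j) (ofR x, ofR w))) Filter.atTop (𝓝 (G x))) ∧
      (∀ x y, inner ℝ (G x) y = fderiv ℝ v x y) ∧ ∀ x (k : Fin n → ℤ), v (x + lat k) = v x := by
  have hwR : ∀ j, ‖w‖ < R j := fun j => by linarith [h.R1 j]
  have hbound : ∀ j (x : RE n), ‖(u (j + 1) (ofR x, ofR w)).re - (u j (ofR x, ofR w)).re‖ ≤ 1024 * ρ j ∧
      ‖fderiv ℝ (fun y : RE n => (u (j + 1) (ofR y, ofR w)).re - (u j (ofR y, ofR w)).re) x‖ ≤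
        1024 * ρ j ∧
      ‖fderiv ℝ (fderiv ℝ (fun y : RE n => (u (j + 1) (ofR y, ofR w)).re -
        (u j (ofR y, ofR w)).re)) x‖ ≤ 1024 * ρ j := by
    intro j x
    have hρ := h.ρ0 j
    have hρ4 := (h.ns j).ρ1
    have hR := h.R1 j
    have e1 : (fun y : RE n => (u (j + 1) (ofR y, ofR w)).re - (u j (ofR y, ofR w)).re) =
        fun y : RE n => Complex.reCLM ((fun z => u (j + 1) z - u j z) (ofR y, ofR w)) := by
      funext y
      simp
    have hd : 0 < ρ j / 16 := by linarith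
    obtain ⟨h1, h2, h3⟩ := rr_bound Complex.reCLM l5_norm_reCLM hd (by linarith : ρ j / 16 < ρ j / 8)
      (h.du j) (by linarith : ‖w‖ < R j - ρ j / 4 - ρ j / 16) (h.dub j) x
    have hB := l5_pow hρ hρ4 (l5_MM n).2
    have q1 : ρ j ^ 3 ≤ ρ j ^ 1 := pow_le_pow_of_le_one hρ.le (by linarith) (by norm_num)
    have q2 : ρ j ^ 3 ≤ ρ j ^ 2 := pow_le_pow_of_le_one hρ.le (by linarith) (by norm_num)
    rw [pow_one] at q1
    have hx := congrFun e1 x
    simp only [] at hx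
    refine ⟨?_, ?_, ?_⟩
    · rw [hx]
      refine h1.trans ?_
      linarith
    · rw [e1]
      refine h2.trans ?_
      rw [div_le_iff₀ hd]
      nlinarith
    · rw [e1]
      refine h3.trans ?_
      rw [div_le_iff₀ (by positivity)]
      nlinarith
  obtain ⟨g, hg2, hg0, hg1⟩ := c2_limit (fun j (x : RE n) => (u j (ofR x, ofR w)).re)
    (fun j => rr_contDiff Complex.reCLM (h.ρ0 j) (h.ns j).ud (hwR j)) (h.l5_seq 1024)
    (fun j x => (hbound j x).1) (fun j x => (hbound j x).2.1) (fun j x => (hbound j x).2.2)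
  refine ⟨g, fun x => (InnerProductSpace.toDual ℝ (RE n)).symm (fderiv ℝ g x), hg2, hg0, ?_, ?_, ?_⟩
  · intro x
    have e1 : (fun j => re (gx (u j) (ofR x, ofR w))) = fun j =>
        (InnerProductSpace.toDual ℝ (RE n)).symm
          (fderiv ℝ (fun x : RE n => (u j (ofR x, ofR w)).re) x) := by
      funext j
      refine ext_inner_right ℝ fun v => ?_
      rw [InnerProductSpace.toDual_symm_apply]
      exact (h.ns j).grad_real (hwR j) x v
    rw [e1]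
    exact ((InnerProductSpace.toDual ℝ (RE n)).symm.continuous.tendsto _).comp (hg1 x)
  · intro x y
    rw [InnerProductSpace.toDual_symm_apply]
  · intro x k
    refine tendsto_nhds_unique (hg0 (x + lat k)) ?_
    have e1 : (fun j => (u j (ofR (x + lat k), ofR w)).re) = fun j => (u j (ofR x, ofR w)).re := by
      funext j
      exact (h.ns j).u_per_real (hwR j) x k
    rw [e1]
    exact hg0 x

end Pool.Agent.LRT
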