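import Pool.Agent.LRT.VDe2

/-!
VA1 (difficulty 2).  Inverse of maps close to the identity.

PROOF.  (surj_ball) Banach: on the complete set `closedBall 0 (‖y‖ + 1/50)` (contained in `ball 0 1` because `‖y‖ ≤ 3/4`) the map
`w ↦ y - (F w - w)` is a (1/50)-contraction into it: `‖y - (F w - w)‖ ≤ ‖y‖ + 1/50`; fixed point `w`: `F w = y`
(`ContractingWith.exists_fixedPoint'` or an elementary argument).  (bilip) `‖w - w'‖ - ‖F w - F w'‖ ≤ ‖(F w - w) - (F w' - w')‖ ≤
(1/50) ‖w - w'‖`, so `‖w - w'‖ ≤ 2 ‖F w - F w'‖`.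
-/

set_option autoImplicit false

open MeasureTheory Module Set Filter Topology

namespace Pool.Agent.LRT

open Pool.H45.Mather

noncomputable section

set_option linter.unusedSectionVars false
set_option linter.style.haveILetI false

variable {n : ℕ} {E : Type*} [NormedAddCommGroup E] [InnerProductSpace ℝ E] [FiniteDimensional ℝ E]
  [MeasurableSpace E] [BorelSpace E] {b : Basis (Fin n) ℝ E}

omit [MeasurableSpace E] [BorelSpace E] in
theorem surj_ball {F : E → E} (h1 : ∀ w, ‖w‖ < 1 → ‖F w - w‖ ≤ 1 / 20)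
    (h2 : ∀ w w', ‖w‖ < 1 → ‖w'‖ < 1 → ‖(F w - w) - (F w' - w')‖ ≤ 1 / 20 * ‖w - w'‖)
    {y : E} (hy : ‖y‖ ≤ 3 / 4) : ∃ w, ‖w‖ < 1 ∧ F w = y := by
  have hcs : CompleteSpace E := FiniteDimensional.complete ℝ E
  set r : ℝ := ‖y‖ + 1 / 20 with hr
  have hr1 : r < 1 := by linarith
  have hr0 : 0 ≤ r := by positivity
  set g : E → E := fun w => y - (F w - w) with hg
  have hK : ∀ w ∈ Metric.closedBall (0 : E) r, ‖w‖ < 1 := fun w hw =>
    lt_of_le_of_lt (mem_closedBall_zero_iff.1 hw) hr1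
  have hmaps : MapsTo g (Metric.closedBall (0 : E) r) (Metric.closedBall (0 : E) r) := by
    intro w hw
    rw [mem_closedBall_zero_iff]
    exact (norm_sub_le _ _).trans (by linarith [h1 w (hK w hw)])
  have hcon : ContractingWith (1 / 20 : NNReal) (hmaps.restrict g _ _) := by
    refine ⟨by norm_num, ?_⟩
    refine LipschitzWith.of_dist_le_mul fun a c => ?_
    have h3 := h2 c.1 a.1 (hK _ c.2) (hK _ a.2)
    have e : dist (hmaps.restrict g _ _ a) (hmaps.restrict g _ _ c) = ‖(F c.1 - c.1) - (F a.1 - a.1)‖ := by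
      rw [Subtype.dist_eq, MapsTo.val_restrict_apply, MapsTo.val_restrict_apply, dist_eq_norm]
      congr 1
      simp only [hg]
      abel
    rw [e, Subtype.dist_eq, dist_comm, dist_eq_norm]
    simpa using h3
  obtain ⟨w, hw, hfix, -⟩ := hcon.exists_fixedPoint' (Metric.isClosed_closedBall.isComplete) hmaps
    (x := (0 : E)) (Metric.mem_closedBall_self hr0) (edist_ne_top _ _)
  refine ⟨w, hK w hw, ?_⟩
  have h3 : y - (F w - w) = w := hfix
  have h4 : y = F w := by
    have : y = w + (F w - w) := by rw [← sub_eq_iff_eq_add.1 h3]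
    rw [this]
    abel
  exact h4.symm

omit [FiniteDimensional ℝ E] [MeasurableSpace E] [BorelSpace E] in
theorem bilip {F : E → E}
    (h2 : ∀ w w', ‖w‖ < 1 → ‖w'‖ < 1 → ‖(F w - w) - (F w' - w')‖ ≤ 1 / 20 * ‖w - w'‖)
    {w w' : E} (hw : ‖w‖ < 1) (hw' : ‖w'‖ < 1) : ‖w - w'‖ ≤ 2 * ‖F w - F w'‖ := by
  have h3 := h2 w w' hw hw'
  have h4 : w - w' = (F w - F w') - ((F w - w) - (F w' - w')) := by abel
  have h5 : ‖w - w'‖ ≤ ‖F w - F w'‖ + ‖(F w - w) - (F w' - w')‖ := by
    calc ‖w - w'‖ = ‖(F w - F w') - ((F w - w) - (F w' - w'))‖ := by rw [← h4]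
      _ ≤ _ := norm_sub_le _ _
  have h6 := norm_nonneg (F w - F w')
  linarith

end

end Pool.Agent.LRT
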