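import Pool.Agent.LRT.VDe2

/-!
VG (difficulty 4).  Graphs of `C²` solutions of the Hamilton-Jacobi equation are invariant (Gronwall).

PROOF.  `P` is `C¹`: `P x = c + gradient φ x` (`hP`), `gradient φ = (toDual).symm ∘ fderiv φ`.  Let `Q = fderiv ℝ P x`; it is
symmetric: `inner ℝ (fderiv ℝ P x v) y = fderiv ℝ (fderiv ℝ φ) x v y`, symmetric in `v, y`
(`second_derivative_symmetric` / `ContDiffAt.isSymmSndFDerivAt`).  Write `Hx (x,p)`, `Hpp (x,p)` for the gradients of
`y ↦ H (y,p)` and `q ↦ H (x,q)`; `inner (Hx (x,p)) v = fderiv ℝ H (x,p) (v,0)`, `inner (Hpp (x,p)) v = fderiv ℝ H (x,p) (0,v)`.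
Differentiating `H (x, P x) = a`: `inner (Hx (x,P x)) v + inner (Hpp (x,P x)) (Q v) = 0` for all `v`, i.e.
`Hx (x,P x) = - Q (Hpp (x,P x))` by symmetry.
Let `d t = p t - P (x t)` on `Ioo t₁ t₂`.  `d' = - Hx (x,p) - Q (Hpp (x,p)) = -(Hx (x,p) - Hx (x,P x)) - Q (Hpp (x,p) - Hpp (x,P x))`.
Fix a compact interval `[s₁,s₂] ⊆ Ioo t₁ t₂` containing `t₀`.  `x t`, `p t`, `P (x t)` are bounded there by `R`; `D²H` is bounded on
`closedBall 0 R ×ˢ closedBall 0 R` (compact, `H` is `C²`) and `‖Q‖` is bounded on `closedBall 0 R`: so `‖d'‖ ≤ Λ ‖d‖` (mean value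
inequality on the segment from `(x, P x)` to `(x, p)`, which lies in the convex set `closedBall ×ˢ closedBall`).
Since `d t₀ = 0`, Gronwall (`norm_le_gronwallBound_of_norm_deriv_right_le` with `δ = 0, ε = 0`; to the left of `t₀` apply it to
`t ↦ d (2 t₀ - t)` or `t ↦ d (-t)`) gives `d = 0` on `[s₁,s₂]`.
-/

set_option autoImplicit false

open MeasureTheory Module Set Filter Topology

namespace Pool.Agent.LRT

open Pool.H45.Mather

noncomputable section

set_option linter.unusedSectionVars false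
set_option linter.style.haveILetI false

variable {n : ℕ} {E : Type*} [NormedAddCommGroup E] [InnerProductSpace ℝ E] [FiniteDimensional ℝ E]
  [MeasurableSpace E] [BorelSpace E] {b : Basis (Fin n) ℝ E}

omit [MeasurableSpace E] [BorelSpace E] in
theorem vg_gron {d : ℝ → E} {s₁ s₂ Λ : ℝ} (hs : s₁ ≤ s₂)
    (h : ∀ s ∈ Icc s₁ s₂, ∃ D, HasDerivAt d D s ∧ ‖D‖ ≤ Λ * ‖d s‖) (h0 : d s₁ = 0) : d s₂ = 0 := by
  choose! D hD using h
  refine eq_zero_of_abs_deriv_le_mul_abs_self_of_eq_zero_right (f := d) (f' := D) (K := Λ)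
    (a := s₁) (b := s₂) ?_ ?_ h0 ?_ s₂ ⟨hs, le_rfl⟩
  · intro s hs'
    exact (hD s hs').1.continuousAt.continuousWithinAt
  · intro s hs'
    exact (hD s ⟨hs'.1, hs'.2.le⟩).1.hasDerivWithinAt
  · intro s hs'
    exact (hD s ⟨hs'.1, hs'.2.le⟩).2

omit [MeasurableSpace E] [BorelSpace E] in
theorem vg_gron' {d : ℝ → E} {s₁ s₂ Λ : ℝ} (hs : s₁ ≤ s₂)
    (h : ∀ s ∈ Icc s₁ s₂, ∃ D, HasDerivAt d D s ∧ ‖D‖ ≤ Λ * ‖d s‖) (h0 : d s₂ = 0) : d s₁ = 0 := by
  have key := vg_gron (d := fun s => d (-s)) (s₁ := -s₂) (s₂ := -s₁) (Λ := Λ) (by linarith) ?_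
    (by simpa using h0)
  · simpa using key
  · intro s hs'
    obtain ⟨D, hD, hD'⟩ := h (-s) ⟨by linarith [hs'.2], by linarith [hs'.1]⟩
    refine ⟨-D, ?_, by rw [norm_neg]; exact hD'⟩
    have h1 : HasDerivAt (fun s : ℝ => -s) (-1) s := hasDerivAt_neg s
    have h2 := hD.scomp s h1
    rw [neg_one_smul] at h2
    exact h2

/-- the partial gradients as functions on the product -/
def vg_G [CompleteSpace E] (H : E × E → ℝ) (i : E →L[ℝ] E × E) (z : E × E) : E :=
  (InnerProductSpace.toDual ℝ E).symm ((fderiv ℝ H z).comp i)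

omit [MeasurableSpace E] [BorelSpace E] [FiniteDimensional ℝ E] in
theorem vg_G_inner [CompleteSpace E] (H : E × E → ℝ) (i : E →L[ℝ] E × E) (z : E × E) (v : E) :
    inner ℝ (vg_G H i z) v = fderiv ℝ H z (i v) := by
  unfold vg_G
  rw [InnerProductSpace.toDual_symm_apply]
  rfl

omit [MeasurableSpace E] [BorelSpace E] [FiniteDimensional ℝ E] in
theorem vg_G_diff [CompleteSpace E] {H : E × E → ℝ} (hH : ContDiff ℝ 2 H) (i : E →L[ℝ] E × E) :
    ContDiff ℝ 1 (vg_G H i) := by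
  have h1 : ContDiff ℝ 1 (fderiv ℝ H) := hH.fderiv_right (by norm_num)
  have h2 : ContDiff ℝ 1 (fun z => (fderiv ℝ H z).comp i) := h1.clm_comp contDiff_const
  exact (InnerProductSpace.toDual ℝ E).symm.toContinuousLinearEquiv.contDiff.comp h2

omit [MeasurableSpace E] [BorelSpace E] [FiniteDimensional ℝ E] in
theorem vg_grad_snd [CompleteSpace E] {H : E × E → ℝ} (hH : ContDiff ℝ 2 H) (x p : E) :
    gradient (fun q => H (x, q)) p = vg_G H (ContinuousLinearMap.inr ℝ E E) (x, p) := by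
  have h1 : HasFDerivAt H (fderiv ℝ H (x, p)) (x, p) :=
    (hH.differentiable (by norm_num) _).hasFDerivAt
  have h2 : HasFDerivAt (fun q : E => ((x, q) : E × E)) (ContinuousLinearMap.inr ℝ E E) p := by
    exact (hasFDerivAt_prodMk_right x p)
  have h3 := h1.comp p h2
  unfold gradient vg_G
  congr 1
  exact h3.fderiv

omit [MeasurableSpace E] [BorelSpace E] [FiniteDimensional ℝ E] in
theorem vg_grad_fst [CompleteSpace E] {H : E × E → ℝ} (hH : ContDiff ℝ 2 H) (x p : E) :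
    gradient (fun y => H (y, p)) x = vg_G H (ContinuousLinearMap.inl ℝ E E) (x, p) := by
  have h1 : HasFDerivAt H (fderiv ℝ H (x, p)) (x, p) :=
    (hH.differentiable (by norm_num) _).hasFDerivAt
  have h2 : HasFDerivAt (fun y : E => ((y, p) : E × E)) (ContinuousLinearMap.inl ℝ E E) x := by
    exact (hasFDerivAt_prodMk_left x p)
  have h3 := h1.comp x h2
  unfold gradient vg_G
  congr 1
  exact h3.fderiv

omit [MeasurableSpace E] [BorelSpace E] in
/-- Lipschitz bound in the second variable on balls -/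
theorem vg_lip {G : E × E → E} (hG : ContDiff ℝ 1 G) (R : ℝ) : ∃ C : ℝ, 0 ≤ C ∧
    ∀ x p q : E, ‖x‖ ≤ R → ‖p‖ ≤ R → ‖q‖ ≤ R → ‖G (x, p) - G (x, q)‖ ≤ C * ‖p - q‖ := by
  haveI : ProperSpace E := FiniteDimensional.proper ℝ E
  have hK : IsCompact (Metric.closedBall (0 : E) R ×ˢ Metric.closedBall (0 : E) R) :=
    (isCompact_closedBall _ _).prod (isCompact_closedBall _ _)
  obtain ⟨C, hC⟩ := hK.exists_bound_of_continuousOn (hG.continuous_fderiv one_ne_zero).continuousOn
  refine ⟨max C 0, le_max_right _ _, ?_⟩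
  intro x p q hx hp hq
  have hconv : Convex ℝ (Metric.closedBall (0 : E) R ×ˢ Metric.closedBall (0 : E) R) :=
    (convex_closedBall _ _).prod (convex_closedBall _ _)
  have h1 := hconv.norm_image_sub_le_of_norm_fderiv_le (f := G) (𝕜 := ℝ) (C := max C 0)
    (fun z _ => hG.differentiable one_ne_zero z) (fun z hz => (hC z hz).trans (le_max_left _ _))
    (x := (x, q)) (y := (x, p)) ⟨by simpa using hx, by simpa using hq⟩
    ⟨by simpa using hx, by simpa using hp⟩
  have h2 : ‖((x, p) : E × E) - (x, q)‖ = ‖p - q‖ := by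
    rw [Prod.mk_sub_mk, sub_self, Prod.norm_def]
    simp
  rw [h2] at h1
  exact h1

omit [MeasurableSpace E] [BorelSpace E] in
theorem invariant [CompleteSpace E] {H : E × E → ℝ} (hH : ContDiff ℝ 2 H) {φ : E → ℝ}
    (hφ : ContDiff ℝ 2 φ) {c : E} {a : ℝ} {P : E → E}
    (hP : ∀ x v, inner ℝ (P x) v = inner ℝ c v + fderiv ℝ φ x v)
    (ha : ∀ x, H (x, P x) = a) {t₁ t₂ : ℝ} {x p : ℝ → E}
    (hx : ∀ t ∈ Ioo t₁ t₂, HasDerivAt x (gradient (fun q => H (x t, q)) (p t)) t)
    (hp : ∀ t ∈ Ioo t₁ t₂, HasDerivAt p (-gradient (fun y => H (y, p t)) (x t)) t)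
    {t₀ : ℝ} (ht₀ : t₀ ∈ Ioo t₁ t₂) (h0 : p t₀ = P (x t₀)) :
    ∀ t ∈ Ioo t₁ t₂, p t = P (x t) := by
  haveI : ProperSpace E := FiniteDimensional.proper ℝ E
  set G1 := vg_G H (ContinuousLinearMap.inl ℝ E E) with hG1
  set G2 := vg_G H (ContinuousLinearMap.inr ℝ E E) with hG2
  have dG1 : ContDiff ℝ 1 G1 := vg_G_diff hH _
  have dG2 : ContDiff ℝ 1 G2 := vg_G_diff hH _
  -- `P` is `C¹`
  have hPe : P = fun x => c + (InnerProductSpace.toDual ℝ E).symm (fderiv ℝ φ x) := by
    funext y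
    refine ext_inner_right ℝ fun v => ?_
    rw [hP, inner_add_left, InnerProductSpace.toDual_symm_apply]
  have hfd : ContDiff ℝ 1 (fderiv ℝ φ) := hφ.fderiv_right (by norm_num)
  have dP : ContDiff ℝ 1 P := by
    rw [hPe]
    exact contDiff_const.add
      ((InnerProductSpace.toDual ℝ E).symm.toContinuousLinearEquiv.contDiff.comp hfd)
  have hPd : ∀ y, HasFDerivAt P (fderiv ℝ P y) y := fun y =>
    (dP.differentiable one_ne_zero y).hasFDerivAt
  -- the derivative of `P`
  have hQ : ∀ y v w, inner ℝ (fderiv ℝ P y v) w = fderiv ℝ (fderiv ℝ φ) y v w := by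
    intro y v w
    have e1 : HasFDerivAt (fun y => inner ℝ (P y) w)
        ((innerSL ℝ w).comp (fderiv ℝ P y)) y := by
      have := (innerSL ℝ w).hasFDerivAt.comp y (hPd y)
      refine this.congr_of_eventuallyEq (Eventually.of_forall fun y' => ?_)
      simp only [Function.comp_apply, innerSL_apply_apply]
      exact real_inner_comm _ _
    have e2 : HasFDerivAt (fun y => inner ℝ (P y) w)
        ((ContinuousLinearMap.apply ℝ ℝ w).comp (fderiv ℝ (fderiv ℝ φ) y)) y := by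
      have h1 := (hfd.differentiable one_ne_zero y).hasFDerivAt
      have h2 := ((ContinuousLinearMap.apply ℝ ℝ w).hasFDerivAt.comp y h1).const_add (inner ℝ c w)
      refine h2.congr_of_eventuallyEq (Eventually.of_forall fun y' => ?_)
      simp only [hP, Function.comp_apply, ContinuousLinearMap.apply_apply]
    have e3 := congrArg (fun L : E →L[ℝ] ℝ => L v) (e1.unique e2)
    simp only [ContinuousLinearMap.comp_apply, innerSL_apply_apply,
      ContinuousLinearMap.apply_apply] at e3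
    rw [← e3]
    exact real_inner_comm _ _
  have hsym : ∀ y v w, inner ℝ (fderiv ℝ P y v) w = inner ℝ v (fderiv ℝ P y w) := by
    intro y v w
    rw [hQ, ← real_inner_comm, hQ]
    have := (hφ.contDiffAt (x := y)).isSymmSndFDerivAt (by simp)
    exact this v w
  -- the Hamilton-Jacobi equation
  have hHJ : ∀ y, G1 (y, P y) = - fderiv ℝ P y (G2 (y, P y)) := by
    intro y
    refine ext_inner_right ℝ fun v => ?_
    rw [inner_neg_left, hsym, hG1, hG2, vg_G_inner, vg_G_inner]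
    have e1 : HasFDerivAt H (fderiv ℝ H (y, P y)) (y, P y) :=
      (hH.differentiable (by norm_num) _).hasFDerivAt
    have e2 : HasFDerivAt (fun y => (y, P y)) ((ContinuousLinearMap.id ℝ E).prod (fderiv ℝ P y)) y :=
      (hasFDerivAt_id y).prodMk (hPd y)
    have e3 := e1.comp y e2
    have e4 : HasFDerivAt (fun y => H (y, P y)) (0 : E →L[ℝ] ℝ) y := by
      have : (fun y => H (y, P y)) = fun _ => a := funext ha
      rw [this]
      exact hasFDerivAt_const a y
    have e5 := congrArg (fun L : E →L[ℝ] ℝ => L v) (e3.unique e4)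
    simp only [ContinuousLinearMap.comp_apply, ContinuousLinearMap.prod_apply,
      ContinuousLinearMap.id_apply, _root_.zero_apply] at e5
    have e6 : ((v, fderiv ℝ P y v) : E × E) = (ContinuousLinearMap.inl ℝ E E) v +
        (ContinuousLinearMap.inr ℝ E E) (fderiv ℝ P y v) := by
      simp
    rw [e6, map_add] at e5
    linarith
  intro t ht
  -- the compact interval
  have hsub : uIcc t₀ t ⊆ Ioo t₁ t₂ := by
    intro s hs
    rw [mem_uIcc] at hs
    rcases hs with hs | hs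
    · exact ⟨lt_of_lt_of_le ht₀.1 hs.1, lt_of_le_of_lt hs.2 ht.2⟩
    · exact ⟨lt_of_lt_of_le ht.1 hs.1, lt_of_le_of_lt hs.2 ht₀.2⟩
  have cx : ContinuousOn x (uIcc t₀ t) := fun s hs =>
    (hx s (hsub hs)).continuousAt.continuousWithinAt
  have cp : ContinuousOn p (uIcc t₀ t) := fun s hs =>
    (hp s (hsub hs)).continuousAt.continuousWithinAt
  have cPx : ContinuousOn (fun s => P (x s)) (uIcc t₀ t) := dP.continuous.comp_continuousOn cx
  obtain ⟨R1, hR1⟩ := isCompact_uIcc.exists_bound_of_continuousOn cx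
  obtain ⟨R2, hR2⟩ := isCompact_uIcc.exists_bound_of_continuousOn cp
  obtain ⟨R3, hR3⟩ := isCompact_uIcc.exists_bound_of_continuousOn cPx
  set R := max R1 (max R2 R3) with hR
  obtain ⟨C1, hC1, hL1⟩ := vg_lip dG1 R
  obtain ⟨C2, hC2, hL2⟩ := vg_lip dG2 R
  obtain ⟨C3, hC3⟩ := (isCompact_closedBall (0 : E) R).exists_bound_of_continuousOn
    (dP.continuous_fderiv one_ne_zero).continuousOn
  have hbound : ∀ s ∈ uIcc t₀ t, ∃ D, HasDerivAt (fun s => p s - P (x s)) D s ∧
      ‖D‖ ≤ (C1 + max C3 0 * C2) * ‖p s - P (x s)‖ := by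
    intro s hs
    have h1 := hp s (hsub hs)
    have h2 := hx s (hsub hs)
    rw [vg_grad_fst hH] at h1
    rw [vg_grad_snd hH] at h2
    have h3 := (hPd (x s)).comp_hasDerivAt s h2
    refine ⟨_, h1.sub h3, ?_⟩
    have hxR : ‖x s‖ ≤ R := (hR1 s hs).trans (le_max_left _ _)
    have hpR : ‖p s‖ ≤ R := (hR2 s hs).trans ((le_max_left _ _).trans (le_max_right _ _))
    have hPR : ‖P (x s)‖ ≤ R := (hR3 s hs).trans ((le_max_right _ _).trans (le_max_right _ _))
    have e1 : -G1 (x s, p s) - fderiv ℝ P (x s) (G2 (x s, p s)) =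
        -((G1 (x s, p s) - G1 (x s, P (x s))) +
          fderiv ℝ P (x s) (G2 (x s, p s) - G2 (x s, P (x s)))) := by
      rw [hHJ, map_sub]
      abel
    change ‖-G1 (x s, p s) - fderiv ℝ P (x s) (G2 (x s, p s))‖ ≤ _
    rw [e1, norm_neg]
    refine (norm_add_le _ _).trans ?_
    have f1 := hL1 (x s) (p s) (P (x s)) hxR hpR hPR
    have f2 := hL2 (x s) (p s) (P (x s)) hxR hpR hPR
    have f3 : ‖fderiv ℝ P (x s)‖ ≤ max C3 0 :=
      (hC3 _ (by simpa using hxR)).trans (le_max_left _ _)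
    have f4 := (fderiv ℝ P (x s)).le_opNorm (G2 (x s, p s) - G2 (x s, P (x s)))
    have f5 : ‖fderiv ℝ P (x s) (G2 (x s, p s) - G2 (x s, P (x s)))‖ ≤
        max C3 0 * (C2 * ‖p s - P (x s)‖) :=
      f4.trans (mul_le_mul f3 f2 (norm_nonneg _) (le_max_right _ _))
    calc _ ≤ C1 * ‖p s - P (x s)‖ + max C3 0 * (C2 * ‖p s - P (x s)‖) := add_le_add f1 f5
      _ = (C1 + max C3 0 * C2) * ‖p s - P (x s)‖ := by ring
  have hd0 : p t₀ - P (x t₀) = 0 := sub_eq_zero.mpr h0
  have hfin : p t - P (x t) = 0 := by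
    rcases le_total t₀ t with hle | hle
    · rw [uIcc_of_le hle] at hbound
      exact vg_gron (d := fun s => p s - P (x s)) hle hbound hd0
    · rw [uIcc_of_ge hle] at hbound
      exact vg_gron' (d := fun s => p s - P (x s)) hle hbound hd0
  exact sub_eq_zero.mp hfin

end

end Pool.Agent.LRT
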