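import Pool.Agent.LRT.VU
import Pool.Agent.LRT.VG
import Pool.Agent.LRT.VA1

/-!
VA2 (difficulty 4).  Assembly of the global foliation from the solutions at all scales.

`LSol`, `Hsc`, `Hpsc` (LRT/VDe2), `C0Int`, `IsTraj` (LRT/VDefs).

PROOF.  For `l ≥ 1` fix `c_l, q_l` with `LSol b (Hsc l H) (Hpsc l Hp) c_l q_l` (choice: functions of `l`).
A graph at scale `l`: for `‖w‖ < 1` put `R x = l • q_l x w`; it has class `l • c_l w` (`φ' = l φ`, `C²` periodic),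
`H (x, R x) = l² a` constant (`hj`), and approximate conjugacies for the frequency `l • w`: with `X` from `conj` for `δ/l`:
`‖fderiv X t (l • w) - Hp (X t, R (X t))‖ = l ‖fderiv X t w - l⁻¹ • Hp (X t, l • q_l (X t) w)‖ ≤ δ`.
(U) Hence by `uniq` (LRT/VU): if `(l,w)`, `(l',w')` have `l • c_l w = l' • c_l' w'` then `l • q_l x w = l' • q_l' x w'` for all `x`.
(E) For every `c` and every `l ≥ 1` with `‖c‖ ≤ (3/4) l` there is `w`, `‖w‖ < 1`, `l • c_l w = c` (`surj_ball` for `F = c_l`, `y = c/l`).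
Define `P c = l • q_l · w` for `l = 2 (‖c‖ + 1)` and the chosen `w`; by (U) `P c x = l • q_l x w` for every such pair `(l, w)`.
1) classes: `grad`, as above.  2) Lipschitz: `lipq` with `w = w'` gives `‖q_l x w - q_l x' w‖ ≤ (1/50) ‖x - x'‖`.
3) Continuity at `(c₀, x₀)`: fix `l = 2 (‖c₀‖ + 1)`; for `‖c‖ < (3/4) l`, `P c x = l • q_l x (w c)` with `l • c_l (w c) = c`;
by `bilip` `‖w c - w c₀‖ ≤ 2 ‖c - c₀‖ / l`; by `lipq` `(x, w) ↦ q_l x w` is Lipschitz on `‖w‖ < 1`.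
4) Injective: `P c x = P c' x`: choose `l` good for both `c, c'` (`l = 2 (‖c‖ + ‖c'‖ + 1)`), `q_l x w = q_l x w'`, `bilip` for
`F = q_l x` (from `lipq` with `x = x'`): `w = w'`, so `c = l • c_l w = c'`.  Surjective: given `p` let `l = 2 (‖p‖ + 1)`,
`surj_ball` for `F = q_l x` and `y = p/l`: `w` with `l • q_l x w = p`; `c := l • c_l w`; is `P c x = l • q_l x w`?  yes by (U) applied
to the pair `(l, w)` and the pair chosen for `c`.
5) Invariance: `invariant` (LRT/VG) for `P c` (`φ` from 1), `H (x, P c x)` constant).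
-/

set_option autoImplicit false

open MeasureTheory Module Set Filter Topology

namespace Pool.Agent.LRT

open Pool.H45.Mather

noncomputable section

set_option linter.unusedSectionVars false
set_option linter.style.haveILetI false

variable {n : ℕ} {E : Type*} [NormedAddCommGroup E] [InnerProductSpace ℝ E] [FiniteDimensional ℝ E]
  [MeasurableSpace E] [BorelSpace E] {b : Basis (Fin n) ℝ E}

variable {H : E × E → ℝ} {Hp : E × E → E}

theorem assembly [CompleteSpace E] (hH : HamC b H Hp) (hH2 : ContDiff ℝ 2 H)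
    (hs : ∀ l : ℝ, 1 ≤ l → ∃ c q, LSol b (Hsc l H) (Hpsc l Hp) c q) : C0Int b H := by
  classical
  choose! c q hL using hs
  -- graphs at the scale `l`
  have hG1 : ∀ l : ℝ, 1 ≤ l → ∀ w : E, ‖w‖ < 1 → ∃ φ : E → ℝ, ContDiff ℝ 2 φ ∧ Per b φ ∧
      ∀ x v, inner ℝ (l • q l x w) v = inner ℝ (l • c l w) v + fderiv ℝ φ x v := by
    intro l hl w hw
    obtain ⟨φ, h1, h2, h3⟩ := (hL l hl).grad w hw
    refine ⟨fun x => l • φ x, h1.const_smul l, ?_, ?_⟩
    · intro i x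
      change l • φ _ = l • φ x
      rw [h2 i x]
    · intro x v
      have h4 : fderiv ℝ (fun x => l • φ x) x = l • fderiv ℝ φ x :=
        fderiv_fun_const_smul ((h1.differentiable (by norm_num)) x) l
      rw [h4, inner_smul_left, inner_smul_left, h3 x v]
      simp only [conj_trivial, smul_apply, smul_eq_mul]
      ring
  have hG2 : ∀ l : ℝ, 1 ≤ l → ∀ w : E, ‖w‖ < 1 → ∃ a, ∀ x, H (x, l • q l x w) = a := by
    intro l hl w hw
    have hl0 : l ≠ 0 := by linarith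
    obtain ⟨a, ha⟩ := (hL l hl).hj w hw
    refine ⟨a * l ^ 2, fun x => ?_⟩
    have h1 := ha x
    unfold Hsc at h1
    rw [div_eq_iff (pow_ne_zero 2 hl0)] at h1
    exact h1
  have hG3 : ∀ l : ℝ, 1 ≤ l → ∀ w : E, ‖w‖ < 1 → ∀ δ > 0, ∃ X : E → E, ContDiff ℝ 1 X ∧ Per b (fun x => X x - x) ∧
      Function.Surjective X ∧ (∀ t t', ‖X t - X t'‖ ≤ 2 * ‖t - t'‖) ∧
      ∀ t, ‖fderiv ℝ X t (l • w) - Hp (X t, l • q l (X t) w)‖ ≤ δ := by
    intro l hl w hw δ hδ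
    have hl0 : 0 < l := by linarith
    obtain ⟨X, h1, h2, h3, h4, h5⟩ := (hL l hl).conj w hw (δ / l) (by positivity)
    refine ⟨X, h1, h2, h3, h4, fun t => ?_⟩
    have h6 := h5 t
    have h7 : fderiv ℝ X t (l • w) - Hp (X t, l • q l (X t) w) =
        l • (fderiv ℝ X t w - Hpsc l Hp (X t, q l (X t) w)) := by
      unfold Hpsc
      rw [map_smul, smul_sub, smul_inv_smul₀ hl0.ne']
    rw [h7, norm_smul, Real.norm_eq_abs, abs_of_pos hl0]
    rw [le_div_iff₀ hl0] at h6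
    linarith
  have hU : ∀ l l' : ℝ, 1 ≤ l → 1 ≤ l' → ∀ w w' : E, ‖w‖ < 1 → ‖w'‖ < 1 → l • c l w = l' • c l' w' →
      ∀ x, l • q l x w = l' • q l' x w' := by
    intro l l' hl hl' w w' hw hw' he x
    obtain ⟨φ₁, a1, a2, a3⟩ := hG1 l hl w hw
    obtain ⟨φ₂, b1, b2, b3⟩ := hG1 l' hl' w' hw'
    obtain ⟨e₁, he1⟩ := hG2 l hl w hw
    obtain ⟨e₂, he2⟩ := hG2 l' hl' w' hw'
    rw [← he] at b3
    have h1 := uniq hH (a1.of_le (by norm_num)) a2 (b1.of_le (by norm_num)) b2 (P₁ := fun x => l • q l x w)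
      (P₂ := fun x => l' • q l' x w') a3 b3 he1 he2 (hG3 l' hl' w' hw')
    exact congrFun h1 x
  have hE : ∀ (y : E) (l : ℝ), 1 ≤ l → ‖y‖ ≤ 3 / 4 * l → ∃ w, ‖w‖ < 1 ∧ l • c l w = y := by
    intro y l hl hy
    have hl0 : 0 < l := by linarith
    obtain ⟨w, h1, h2⟩ := surj_ball (F := c l) (hL l hl).smallc (hL l hl).lipc (y := l⁻¹ • y) (by
      rw [norm_smul, Real.norm_eq_abs, abs_of_pos (inv_pos.2 hl0), inv_mul_le_iff₀ hl0]
      linarith)
    exact ⟨w, h1, by rw [h2, smul_inv_smul₀ hl0.ne']⟩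
  have hLc : ∀ y : E, 1 ≤ 2 * (‖y‖ + 1) ∧ ‖y‖ ≤ 3 / 4 * (2 * (‖y‖ + 1)) := by
    intro y
    have := norm_nonneg y
    constructor <;> linarith
  choose W hW1 hW2 using fun y : E => hE y (2 * (‖y‖ + 1)) (hLc y).1 (hLc y).2
  let P : E → E → E := fun y x => (2 * (‖y‖ + 1)) • q (2 * (‖y‖ + 1)) x (W y)
  have hUP : ∀ (y : E) (l : ℝ), 1 ≤ l → ∀ w : E, ‖w‖ < 1 → l • c l w = y → ∀ x, P y x = l • q l x w := by
    intro y l hl w hw he x
    exact hU _ _ (hLc y).1 hl _ _ (hW1 y) hw (by rw [hW2 y, he]) x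
  have hdq : ∀ l : ℝ, 1 ≤ l → ∀ x x' w w' : E, ‖w‖ < 1 → ‖w'‖ < 1 →
      ‖q l x w - q l x' w'‖ ≤ ‖w - w'‖ + 1 / 20 * (‖x - x'‖ + ‖w - w'‖) := by
    intro l hl x x' w w' hw hw'
    have h1 := (hL l hl).lipq x x' w w' hw hw'
    have h2 : q l x w - q l x' w' = (w - w') + ((q l x w - w) - (q l x' w' - w')) := by abel
    rw [h2]
    exact (norm_add_le _ _).trans (by linarith)
  refine ⟨P, ?_, ?_, ?_, ?_, ?_⟩
  · intro y
    obtain ⟨φ, h1, h2, h3⟩ := hG1 _ (hLc y).1 (W y) (hW1 y)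
    rw [hW2 y] at h3
    exact ⟨φ, h1, h2, h3⟩
  · intro y
    have hl0 : 0 ≤ 2 * (‖y‖ + 1) := by positivity
    refine ⟨⟨2 * (‖y‖ + 1) * (1 / 20), by positivity⟩, LipschitzWith.of_dist_le_mul fun x x' => ?_⟩
    rw [dist_eq_norm, dist_eq_norm]
    change ‖(2 * (‖y‖ + 1)) • q (2 * (‖y‖ + 1)) x (W y) - (2 * (‖y‖ + 1)) • q (2 * (‖y‖ + 1)) x' (W y)‖ ≤
      2 * (‖y‖ + 1) * (1 / 20) * ‖x - x'‖
    rw [← smul_sub, norm_smul, Real.norm_eq_abs, abs_of_nonneg hl0]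
    have h1 := hdq _ (hLc y).1 x x' (W y) (W y) (hW1 y) (hW1 y)
    rw [sub_self, norm_zero] at h1
    have h2 : ‖q (2 * (‖y‖ + 1)) x (W y) - q (2 * (‖y‖ + 1)) x' (W y)‖ ≤ 1 / 20 * ‖x - x'‖ := by linarith
    calc _ ≤ 2 * (‖y‖ + 1) * (1 / 20 * ‖x - x'‖) := mul_le_mul_of_nonneg_left h2 hl0
      _ = _ := by ring
  · rw [continuous_iff_continuousAt]
    rintro ⟨y₀, x₀⟩
    set l : ℝ := 2 * (‖y₀‖ + 1) with hl
    have hl1 : 1 ≤ l := (hLc y₀).1
    have hl0 : 0 < l := by linarith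
    have hopen : ∀ᶠ z : E × E in 𝓝 (y₀, x₀), ‖z.1‖ < 3 / 4 * l := by
      have h1 : ContinuousAt (fun z : E × E => ‖z.1‖) (y₀, x₀) := by fun_prop
      refine h1.eventually (gt_mem_nhds ?_)
      have := norm_nonneg y₀
      change ‖y₀‖ < 3 / 4 * l
      rw [hl]; linarith
    have hbd : ∀ᶠ z : E × E in 𝓝 (y₀, x₀), ‖P z.1 z.2 - P y₀ x₀‖ ≤ 4 * ‖z.1 - y₀‖ + l * ‖z.2 - x₀‖ := by
      filter_upwards [hopen] with z hz
      obtain ⟨w, hw1, hw2⟩ := hE z.1 l hl1 hz.le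
      rw [hUP z.1 l hl1 w hw1 hw2 z.2]
      have hw3 : ‖W y₀‖ < 1 := hW1 y₀
      have hw4 : l • c l (W y₀) = y₀ := hW2 y₀
      have h1 : l • q l z.2 w - P y₀ x₀ = l • (q l z.2 w - q l x₀ (W y₀)) := by
        rw [smul_sub]
      rw [h1, norm_smul, Real.norm_eq_abs, abs_of_pos hl0]
      have h2 := hdq l hl1 z.2 x₀ w (W y₀) hw1 hw3
      have h3 := bilip (hL l hl1).lipc hw1 hw3
      have h4 : z.1 - y₀ = l • (c l w - c l (W y₀)) := by rw [smul_sub, hw2, hw4]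
      have h5 : ‖z.1 - y₀‖ = l * ‖c l w - c l (W y₀)‖ := by
        rw [h4, norm_smul, Real.norm_eq_abs, abs_of_pos hl0]
      rw [h5]
      have h6 := norm_nonneg (z.2 - x₀)
      have h7 : ‖q l z.2 w - q l x₀ (W y₀)‖ ≤ 4 * ‖c l w - c l (W y₀)‖ + ‖z.2 - x₀‖ := by
        have h8 := norm_nonneg (w - W y₀)
        linarith
      calc l * ‖q l z.2 w - q l x₀ (W y₀)‖ ≤ l * (4 * ‖c l w - c l (W y₀)‖ + ‖z.2 - x₀‖) :=
            mul_le_mul_of_nonneg_left h7 hl0.le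
        _ = _ := by ring
    have hlim : Tendsto (fun z : E × E => 4 * ‖z.1 - y₀‖ + l * ‖z.2 - x₀‖) (𝓝 (y₀, x₀)) (𝓝 0) := by
      have h1 : Continuous fun z : E × E => 4 * ‖z.1 - y₀‖ + l * ‖z.2 - x₀‖ := by fun_prop
      have h2 := h1.tendsto (y₀, x₀)
      simpa using h2
    have h3 : Tendsto (fun z : E × E => ‖P z.1 z.2 - P y₀ x₀‖) (𝓝 (y₀, x₀)) (𝓝 0) :=
      squeeze_zero' (Eventually.of_forall fun z => norm_nonneg _) hbd hlim
    exact tendsto_iff_norm_sub_tendsto_zero.2 h3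
  · intro x
    constructor
    · intro y y' he
      change P y x = P y' x at he
      set l : ℝ := 2 * (‖y‖ + ‖y'‖ + 1) with hl
      have n1 := norm_nonneg y
      have n2 := norm_nonneg y'
      have hl1 : 1 ≤ l := by rw [hl]; linarith
      have hl0 : l ≠ 0 := by linarith
      obtain ⟨w, hw1, hw2⟩ := hE y l hl1 (by rw [hl]; linarith)
      obtain ⟨w', hw1', hw2'⟩ := hE y' l hl1 (by rw [hl]; linarith)
      rw [hUP y l hl1 w hw1 hw2 x, hUP y' l hl1 w' hw1' hw2' x] at he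
      have h1 : q l x w = q l x w' := smul_right_injective E hl0 he
      have h2 := bilip (F := q l x) (fun w w' hw hw' => by
        have h3 := (hL l hl1).lipq x x w w' hw hw'
        rw [sub_self, norm_zero, zero_add] at h3
        exact h3) hw1 hw1'
      rw [h1, sub_self, norm_zero, mul_zero] at h2
      have h3 : w = w' := sub_eq_zero.1 (norm_le_zero_iff.1 h2)
      rw [← hw2, ← hw2', h3]
    · intro p
      obtain ⟨w, hw1, hw2⟩ := surj_ball (F := q (2 * (‖p‖ + 1)) x) (fun w hw => (hL _ (hLc p).1).smallq x w hw)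
        (fun w w' hw hw' => by
          have h3 := (hL _ (hLc p).1).lipq x x w w' hw hw'
          rw [sub_self, norm_zero, zero_add] at h3
          exact h3) (y := (2 * (‖p‖ + 1))⁻¹ • p) (by
          have hl0 : 0 < 2 * (‖p‖ + 1) := by positivity
          rw [norm_smul, Real.norm_eq_abs, abs_of_pos (inv_pos.2 hl0), inv_mul_le_iff₀ hl0]
          have := (hLc p).2
          linarith)
      refine ⟨(2 * (‖p‖ + 1)) • c (2 * (‖p‖ + 1)) w, ?_⟩
      change P _ x = p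
      rw [hUP _ (2 * (‖p‖ + 1)) (hLc p).1 w hw1 rfl x, hw2, smul_inv_smul₀ (by positivity)]
  · intro y x p t₁ t₂ htr t₀ ht₀ h0
    obtain ⟨φ, h1, h2, h3⟩ := hG1 _ (hLc y).1 (W y) (hW1 y)
    obtain ⟨a, ha⟩ := hG2 _ (hLc y).1 (W y) (hW1 y)
    exact invariant hH2 h1 (P := P y) h3 ha htr.hx htr.hp ht₀ h0

end

end Pool.Agent.LRT
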