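import Pool.Agent.LRT.VU
import Pool.Agent.LRT.VG
import Pool.Agent.LRT.VA1

/-!
VA3 (difficulty 4).  Assembly of the global foliation: perturbations supported in `‖p‖ ≤ R₀`.

`LSol`, `Hsc`, `Hpsc` (LRT/VDe2), `C0Int`, `IsTraj` (LRT/VDefs).  Same scheme as VA2.lean (read its header).

PROOF.  Let `L > 0`, `R₀ ≤ L/2 - 1`.  Good graphs: (i) at scale `L`: for `‖w‖ < 1`, `R x = L • q x w`: class `L • c w` (`φ' = L φ`), `H (x, R x) = L² a`,
approximate conjugacies for the frequency `L • w`: with `X` from `conj` for `δ/L`,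
`‖fderiv X t (L • w) - Hp (X t, R (X t))‖ = L ‖fderiv X t w - L⁻¹ • Hp (X t, L • q (X t) w)‖ ≤ δ`;
(ii) trivial: for `‖d‖ > R₀`, `R x = d`, class `d` (`φ = 0`), `H = ‖d‖²/2`, frequency `d`, `X = id`, `Hp (x, d) = d` (`hout`).
(U) two good graphs with the same class are equal (`uniq`, LRT/VU).
(E) for `‖d‖ ≤ (3/4) L` there is `w`, `‖w‖ < 1`, `L • c w = d` (`surj_ball` for `F = c`, `y = d/L`).
Define `P d x = L • q x w` with the chosen `w` if `‖d‖ ≤ (3/4) L`, and `P d x = d` otherwise.  By (U):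
(T) `P d x = d` whenever `‖d‖ > R₀`;  (S) `P (L • c w) x = L • q x w` for every `‖w‖ < 1` (if `‖L • c w‖ > (3/4) L > R₀` compare with (ii)).
1) classes: as in (i), (ii).  2) Lipschitz: `lipq` with `w = w'`, or constant.
3) Continuity at `(d₀, x₀)`: if `‖d₀‖ > R₀`, `P d x = d` near `d₀`; if `‖d₀‖ < (3/4) L` as in VA2: `P d x = L • q x (w d)`, `bilip`: `‖w d - w d₀‖ ≤ 2 ‖d - d₀‖/L`,
`lipq`.  (`R₀ < (3/4) L`: all cases.)
4) Injective: `P d x = P d' x`.  Both `≤ (3/4) L`: `q x w = q x w'`, `bilip` (`F = q x`): `w = w'`, `d = d'`.  Both `> R₀`: (T).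
Otherwise (exchange) `‖d‖ > (3/4) L`, `‖d'‖ ≤ R₀`: `P d x = d`, `P d' x = L • q x w'`, `d' = L • c w'`;
`‖P d' x‖ ≤ ‖L • w'‖ + L/50 ≤ ‖d'‖ + L/25 ≤ R₀ + L/25 < (3/4) L < ‖d‖` (`smallq`, `smallc`): contradiction.
Surjective: given `p`, if `‖p‖ ≤ (3/4) L`: `surj_ball` for `F = q x`, `y = p/L`: `w` with `L • q x w = p`, `d := L • c w` and (S);
if `‖p‖ > (3/4) L`: `d = p`, (T).
5) Invariance: `invariant` (LRT/VG) for each `P d`.
(The constants 1/50 of `LSol` may become 1/20 later: please use only `smallq`, `smallc` with room: `R₀ + L/10 < (3/4) L` is also true.)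
-/

set_option autoImplicit false

open MeasureTheory Module Set Filter Topology

namespace Pool.Agent.LRT

open Pool.H45.Mather

noncomputable section

set_option linter.unusedSectionVars false
set_option linter.style.haveILetI false

variable {n : ℕ} {E : Type*} [NormedAddCommGroup E] [InnerProductSpace ℝ E] [FiniteDimensional ℝ E]
  [MeasurableSpace E] [BorelSpace E] {b : Basis (Fin n) ℝ E}

variable {H : E × E → ℝ} {Hp : E × E → E}

/-- graphs of solutions with the class `d` -/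
structure va3_Good (b : Basis (Fin n) ℝ E) (H : E × E → ℝ) (Hp : E × E → E) (d : E) (R : E → E) : Prop where
  cls : ∃ φ : E → ℝ, ContDiff ℝ 2 φ ∧ Per b φ ∧ ∀ x v, inner ℝ (R x) v = inner ℝ d v + fderiv ℝ φ x v
  hj : ∃ a, ∀ x, H (x, R x) = a
  conj : ∃ w : E, ∀ δ > 0, ∃ X : E → E, ContDiff ℝ 1 X ∧ Per b (fun x => X x - x) ∧
      Function.Surjective X ∧ (∀ t t', ‖X t - X t'‖ ≤ 2 * ‖t - t'‖) ∧
      ∀ t, ‖fderiv ℝ X t w - Hp (X t, R (X t))‖ ≤ δ

theorem va3_uniq (hH : HamC b H Hp) {d : E} {R R' : E → E} (h : va3_Good b H Hp d R)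
    (h' : va3_Good b H Hp d R') : R = R' := by
  obtain ⟨φ, h1, h2, h3⟩ := h.cls
  obtain ⟨φ', h1', h2', h3'⟩ := h'.cls
  obtain ⟨a, ha⟩ := h.hj
  obtain ⟨a', ha'⟩ := h'.hj
  obtain ⟨w, hw⟩ := h'.conj
  exact uniq hH (h1.of_le (by norm_num)) h2 (h1'.of_le (by norm_num)) h2' h3 h3' ha ha' hw

omit [MeasurableSpace E] [BorelSpace E] [FiniteDimensional ℝ E] in
theorem va3_scale {L : ℝ} (hL : 0 < L) {c : E → E} {q : E → E → E}
    (hs : LSol b (Hsc L H) (Hpsc L Hp) c q) {w : E} (hw : ‖w‖ < 1) :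
    va3_Good b H Hp (L • c w) (fun x => L • q x w) := by
  refine ⟨?_, ?_, ?_⟩
  · obtain ⟨φ, h1, h2, h3⟩ := hs.grad w hw
    refine ⟨fun x => L * φ x, contDiff_const.mul h1, fun m x => ?_, fun x v => ?_⟩
    · change L * φ _ = L * φ _
      rw [h2 m x]
    · have hd : DifferentiableAt ℝ φ x := (h1.differentiable (by norm_num)) x
      rw [fderiv_const_mul hd, inner_smul_left, inner_smul_left, h3 x v]
      simp only [RCLike.conj_to_real, smul_apply, smul_eq_mul]
      ring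
  · obtain ⟨a, ha⟩ := hs.hj w hw
    refine ⟨a * L ^ 2, fun x => ?_⟩
    have h1 := ha x
    unfold Hsc at h1
    rw [div_eq_iff (by positivity)] at h1
    exact h1
  · refine ⟨L • w, fun δ hδ => ?_⟩
    obtain ⟨X, h1, h2, h3, h4, h5⟩ := hs.conj w hw (δ / L) (by positivity)
    refine ⟨X, h1, h2, h3, h4, fun t => ?_⟩
    have h6 := h5 t
    unfold Hpsc at h6
    have h7 : fderiv ℝ X t (L • w) - Hp (X t, L • q (X t) w) =
        L • (fderiv ℝ X t w - L⁻¹ • Hp (X t, L • q (X t) w)) := by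
      rw [map_smul, smul_sub, smul_smul, mul_inv_cancel₀ hL.ne', one_smul]
    rw [h7, norm_smul, Real.norm_of_nonneg hL.le]
    rw [le_div_iff₀ hL] at h6
    rw [mul_comm]
    exact h6

omit [MeasurableSpace E] [BorelSpace E] [FiniteDimensional ℝ E] in
theorem va3_triv {R₀ : ℝ} (hout : ∀ x p, R₀ < ‖p‖ → H (x, p) = ‖p‖ ^ 2 / 2 ∧ Hp (x, p) = p) {d : E}
    (hd : R₀ < ‖d‖) : va3_Good b H Hp d (fun _ => d) := by
  refine ⟨⟨fun _ => 0, contDiff_const, fun m x => rfl, fun x v => ?_⟩, ⟨‖d‖ ^ 2 / 2, fun x => (hout x d hd).1⟩,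
    ⟨d, fun δ hδ => ⟨id, contDiff_id, fun m x => ?_, Function.surjective_id, fun t t' => ?_, fun t => ?_⟩⟩⟩
  · rw [fderiv_fun_const]
    simp
  · simp
  · simp only [id]
    linarith [norm_nonneg (t - t')]
  · rw [fderiv_id, (hout _ d hd).2]
    simp [hδ.le]

theorem assemblyC [CompleteSpace E] (hH : HamC b H Hp) (hH2 : ContDiff ℝ 2 H) {R₀ L : ℝ}
    (hR : 0 ≤ R₀) (hL : 2 * R₀ + 2 ≤ L)
    (hout : ∀ x p, R₀ < ‖p‖ → H (x, p) = ‖p‖ ^ 2 / 2 ∧ Hp (x, p) = p) {c : E → E} {q : E → E → E}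
    (hs : LSol b (Hsc L H) (Hpsc L Hp) c q) : C0Int b H := by
  have hL0 : 0 < L := by linarith
  have hE : ∀ d : E, ‖d‖ ≤ 3 / 4 * L → ∃ w, ‖w‖ < 1 ∧ L • c w = d := by
    intro d hd
    have h1 : ‖L⁻¹ • d‖ ≤ 3 / 4 := by
      rw [norm_smul, norm_inv, Real.norm_of_nonneg hL0.le, inv_mul_le_iff₀ hL0]
      linarith
    obtain ⟨w, hw, hw'⟩ := surj_ball (F := c) hs.smallc hs.lipc h1
    refine ⟨w, hw, ?_⟩
    rw [hw', smul_smul, mul_inv_cancel₀ hL0.ne', one_smul]
  have hex : ∀ d : E, ∃ R, va3_Good b H Hp d R := by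
    intro d
    rcases le_or_gt ‖d‖ (3 / 4 * L) with h | h
    · obtain ⟨w, hw, hw'⟩ := hE d h
      refine ⟨fun x => L • q x w, ?_⟩
      rw [← hw']
      exact va3_scale hL0 hs hw
    · exact ⟨fun _ => d, va3_triv hout (by linarith)⟩
  choose P hP using hex
  have hT : ∀ d : E, R₀ < ‖d‖ → ∀ x, P d x = d := by
    intro d hd x
    rw [va3_uniq hH (hP d) (va3_triv hout hd)]
  have hS : ∀ w : E, ‖w‖ < 1 → ∀ x, P (L • c w) x = L • q x w := by
    intro w hw x
    rw [va3_uniq hH (hP (L • c w)) (va3_scale hL0 hs hw)]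
  have hlq : ∀ x : E, ∀ w w', ‖w‖ < 1 → ‖w'‖ < 1 →
      ‖(q x w - w) - (q x w' - w')‖ ≤ 1 / 20 * ‖w - w'‖ := by
    intro x w w' hw hw'
    have h1 := hs.lipq x x w w' hw hw'
    rwa [sub_self, norm_zero, zero_add] at h1
  refine ⟨P, fun d => (hP d).cls, ?_, ?_, ?_, ?_⟩
  · intro d
    rcases le_or_gt ‖d‖ (3 / 4 * L) with h | h
    · obtain ⟨w, hw, rfl⟩ := hE d h
      refine ⟨⟨L * (1 / 20), by positivity⟩, LipschitzWith.of_dist_le_mul fun x y => ?_⟩
      rw [hS w hw, hS w hw, dist_eq_norm, dist_eq_norm, ← smul_sub, norm_smul,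
        Real.norm_of_nonneg hL0.le]
      have h1 := hs.lipq x y w w hw hw
      rw [sub_self, norm_zero, add_zero, sub_sub_sub_cancel_right] at h1
      change L * ‖q x w - q y w‖ ≤ L * (1 / 20) * ‖x - y‖
      rw [mul_assoc]
      exact mul_le_mul_of_nonneg_left h1 hL0.le
    · refine ⟨0, ?_⟩
      have h1 : P d = fun _ => d := by
        funext x
        exact hT d (by linarith) x
      rw [h1]
      exact LipschitzWith.const d
  · rw [continuous_iff_continuousAt]
    rintro ⟨d₀, x₀⟩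
    rcases lt_or_ge R₀ ‖d₀‖ with h | h
    · have h1 : ∀ᶠ z : E × E in 𝓝 (d₀, x₀), R₀ < ‖z.1‖ :=
        (continuous_fst.norm.tendsto (d₀, x₀)).eventually (lt_mem_nhds h)
      refine ContinuousAt.congr (f := fun z : E × E => z.1) continuous_fst.continuousAt ?_
      filter_upwards [h1] with z hz
      exact (hT z.1 hz z.2).symm
    · have h0 : ‖d₀‖ < 3 / 4 * L := by linarith
      obtain ⟨w₀, hw₀, hd₀⟩ := hE d₀ h0.le
      have h1 : ∀ᶠ z : E × E in 𝓝 (d₀, x₀), ‖z.1‖ < 3 / 4 * L :=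
        (continuous_fst.norm.tendsto (d₀, x₀)).eventually (gt_mem_nhds h0)
      have hb : ∀ᶠ z : E × E in 𝓝 (d₀, x₀), ‖P z.1 z.2 - P d₀ x₀‖ ≤
          3 * ‖z.1 - d₀‖ + L * ‖z.2 - x₀‖ := by
        filter_upwards [h1] with z hz
        obtain ⟨w, hw, hd⟩ := hE z.1 hz.le
        have e1 : P z.1 z.2 = L • q z.2 w := by
          rw [← hd, hS w hw]
        have e2 : P d₀ x₀ = L • q x₀ w₀ := by
          rw [← hd₀, hS w₀ hw₀]
        have h2 := bilip hs.lipc hw hw₀
        have h3 : ‖z.1 - d₀‖ = L * ‖c w - c w₀‖ := by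
          rw [← hd, ← hd₀, ← smul_sub, norm_smul, Real.norm_of_nonneg hL0.le]
        have h4 := hs.lipq z.2 x₀ w w₀ hw hw₀
        have h5 : ‖q z.2 w - q x₀ w₀‖ ≤ ‖(q z.2 w - w) - (q x₀ w₀ - w₀)‖ + ‖w - w₀‖ := by
          have : q z.2 w - q x₀ w₀ = ((q z.2 w - w) - (q x₀ w₀ - w₀)) + (w - w₀) := by abel
          rw [this]
          exact norm_add_le _ _
        rw [e1, e2, ← smul_sub, norm_smul, Real.norm_of_nonneg hL0.le, h3]
        have h6 : ‖q z.2 w - q x₀ w₀‖ ≤ 3 * ‖c w - c w₀‖ + ‖z.2 - x₀‖ := by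
          have := norm_nonneg (z.2 - x₀)
          have := norm_nonneg (c w - c w₀)
          linarith
        calc L * ‖q z.2 w - q x₀ w₀‖ ≤ L * (3 * ‖c w - c w₀‖ + ‖z.2 - x₀‖) :=
              mul_le_mul_of_nonneg_left h6 hL0.le
          _ = _ := by ring
      have hlim : Tendsto (fun z : E × E => 3 * ‖z.1 - d₀‖ + L * ‖z.2 - x₀‖) (𝓝 (d₀, x₀)) (𝓝 0) := by
        have hc : Continuous fun z : E × E => 3 * ‖z.1 - d₀‖ + L * ‖z.2 - x₀‖ := by fun_prop
        have := hc.tendsto (d₀, x₀)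
        simpa using this
      exact tendsto_iff_norm_sub_tendsto_zero.2
        (squeeze_zero' (Eventually.of_forall fun z => norm_nonneg _) hb hlim)
  · intro x
    have hmix : ∀ d d' : E, 3 / 4 * L < ‖d‖ → ‖d'‖ ≤ 3 / 4 * L → P d x = P d' x → d = d' := by
      intro d d' h h' he
      rw [hT d (by linarith)] at he
      rcases lt_or_ge R₀ ‖d'‖ with h1 | h1
      · rw [hT d' h1] at he
        exact he
      · exfalso
        obtain ⟨w, hw, hd⟩ := hE d' h'
        have e1 : P d' x = L • q x w := by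
          rw [← hd, hS w hw]
        have h2 := hs.smallq x w hw
        have h3 := hs.smallc w hw
        have h4 : P d' x = d' + L • ((q x w - w) - (c w - w)) := by
          rw [e1]
          conv_rhs => rw [← hd]
          rw [← smul_add]
          congr 1
          abel
        have h5 : ‖(q x w - w) - (c w - w)‖ ≤ 1 / 10 := by
          refine (norm_sub_le _ _).trans ?_
          linarith
        have h6 : ‖P d' x‖ ≤ ‖d'‖ + L * (1 / 10) := by
          rw [h4]
          refine (norm_add_le _ _).trans ?_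
          rw [norm_smul, Real.norm_of_nonneg hL0.le]
          have := mul_le_mul_of_nonneg_left h5 hL0.le
          linarith
        rw [← he] at h6
        linarith
    constructor
    · intro d d' he
      change P d x = P d' x at he
      rcases le_or_gt ‖d‖ (3 / 4 * L) with h | h <;> rcases le_or_gt ‖d'‖ (3 / 4 * L) with h' | h'
      · obtain ⟨w, hw, rfl⟩ := hE d h
        obtain ⟨w', hw', rfl⟩ := hE d' h'
        rw [hS w hw, hS w' hw'] at he
        have h1 : q x w = q x w' := smul_right_injective E hL0.ne' he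
        have h2 := bilip (hlq x) hw hw'
        rw [h1, sub_self, norm_zero, mul_zero] at h2
        have h3 : w = w' := sub_eq_zero.1 (norm_le_zero_iff.1 h2)
        rw [h3]
      · exact (hmix d' d h' h he.symm).symm
      · exact hmix d d' h h' he
      · rw [hT d (by linarith), hT d' (by linarith)] at he
        exact he
    · intro p
      rcases le_or_gt ‖p‖ (3 / 4 * L) with h | h
      · have h1 : ‖L⁻¹ • p‖ ≤ 3 / 4 := by
          rw [norm_smul, norm_inv, Real.norm_of_nonneg hL0.le, inv_mul_le_iff₀ hL0]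
          linarith
        obtain ⟨w, hw, hw'⟩ := surj_ball (F := q x) (fun w hw => hs.smallq x w hw) (hlq x) h1
        refine ⟨L • c w, ?_⟩
        change P (L • c w) x = p
        rw [hS w hw, hw', smul_smul, mul_inv_cancel₀ hL0.ne', one_smul]
      · exact ⟨p, hT p (by linarith) x⟩
  · intro d x p t₁ t₂ htr t₀ ht₀ h0
    obtain ⟨φ, h1, _, h3⟩ := (hP d).cls
    obtain ⟨a, ha⟩ := (hP d).hj
    exact invariant hH2 h1 h3 ha htr.hx htr.hp ht₀ h0

end

end Pool.Agent.LRT
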