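import Pool.Agent.LRT.VU
import Pool.Agent.LRT.VG
import Pool.Agent.LRT.VA1

/-! # LRT/VA4: the semilocal statement   (helper45, after VA2 of helper71) -/

set_option autoImplicit false

open MeasureTheory Module Set Filter Topology

namespace Pool.Agent.LRT

open Pool.H45.Mather

noncomputable section

set_option linter.unusedSectionVars false
set_option linter.style.haveILetI false

variable {n : ℕ} {E : Type*} [NormedAddCommGroup E] [InnerProductSpace ℝ E] [FiniteDimensional ℝ E]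
  [MeasurableSpace E] [BorelSpace E] {b : Basis (Fin n) ℝ E}

/-- integrability of the region swept by the classes `‖c‖ < r`: disjoint invariant graphs `p = P c x`, one for each class
`‖c‖ < r`, depending continuously on `c`, which cover `{(x, p) : ‖p‖ < r'}` -/
def C0IntOn [CompleteSpace E] (b : Basis (Fin n) ℝ E) (H : E × E → ℝ) (r r' : ℝ) : Prop :=
  ∃ P : E → E → E,
    (∀ c, ‖c‖ < r → ∃ φ : E → ℝ, ContDiff ℝ 2 φ ∧ Per b φ ∧
      ∀ x v, inner ℝ (P c x) v = inner ℝ c v + fderiv ℝ φ x v) ∧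
    (∀ c, ‖c‖ < r → ∃ C, LipschitzWith C (P c)) ∧
    ContinuousOn (fun z : E × E => P z.1 z.2) {z | ‖z.1‖ < r} ∧
    (∀ x c c', ‖c‖ < r → ‖c'‖ < r → P c x = P c' x → c = c') ∧
    (∀ x p, ‖p‖ < r' → ∃ c, ‖c‖ < r ∧ P c x = p) ∧
    (∀ c, ‖c‖ < r → ∀ (x p : ℝ → E) t₁ t₂, IsTraj H x p t₁ t₂ → ∀ t₀ ∈ Ioo t₁ t₂, p t₀ = P c (x t₀) →
      ∀ t ∈ Ioo t₁ t₂, p t = P c (x t))

variable {H : E × E → ℝ} {Hp : E × E → E}

theorem assemblyG [CompleteSpace E] (hH2 : ContDiff ℝ 2 H) {l : ℝ} (hl0 : 0 < l) {c : E → E}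
    {q : E → E → E} (hL : LSol b (Hsc l H) (Hpsc l Hp) c q) : C0IntOn b H (3 / 4 * l) (3 / 5 * l) := by
  classical
  have hG1 : ∀ w : E, ‖w‖ < 1 → ∃ φ : E → ℝ, ContDiff ℝ 2 φ ∧ Per b φ ∧
      ∀ x v, inner ℝ (l • q x w) v = inner ℝ (l • c w) v + fderiv ℝ φ x v := by
    intro w hw
    obtain ⟨φ, h1, h2, h3⟩ := hL.grad w hw
    refine ⟨fun x => l • φ x, h1.const_smul l, ?_, ?_⟩
    · intro i x
      change l • φ _ = l • φ x
      rw [h2 i x]
    · intro x v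
      have h4 : fderiv ℝ (fun x => l • φ x) x = l • fderiv ℝ φ x :=
        fderiv_fun_const_smul ((h1.differentiable (by norm_num)) x) l
      rw [h4, inner_smul_left, inner_smul_left, h3 x v]
      simp only [conj_trivial, smul_apply, smul_eq_mul]
      ring
  have hG2 : ∀ w : E, ‖w‖ < 1 → ∃ a, ∀ x, H (x, l • q x w) = a := by
    intro w hw
    obtain ⟨a, ha⟩ := hL.hj w hw
    refine ⟨a * l ^ 2, fun x => ?_⟩
    have h1 := ha x
    unfold Hsc at h1
    rw [div_eq_iff (pow_ne_zero 2 hl0.ne')] at h1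
    exact h1
  have hE : ∀ y : E, ‖y‖ < 3 / 4 * l → ∃ w, ‖w‖ < 1 ∧ l • c w = y := by
    intro y hy
    obtain ⟨w, h1, h2⟩ := surj_ball (F := c) hL.smallc hL.lipc (y := l⁻¹ • y) (by
      rw [norm_smul, Real.norm_eq_abs, abs_of_pos (inv_pos.2 hl0), inv_mul_le_iff₀ hl0]
      linarith)
    exact ⟨w, h1, by rw [h2, smul_inv_smul₀ hl0.ne']⟩
  choose! W hW1 hW2 using hE
  have hdq : ∀ x x' w w' : E, ‖w‖ < 1 → ‖w'‖ < 1 →
      ‖q x w - q x' w'‖ ≤ ‖w - w'‖ + 1 / 20 * (‖x - x'‖ + ‖w - w'‖) := by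
    intro x x' w w' hw hw'
    have h1 := hL.lipq x x' w w' hw hw'
    have h2 : q x w - q x' w' = (w - w') + ((q x w - w) - (q x' w' - w')) := by abel
    rw [h2]
    exact (norm_add_le _ _).trans (by linarith)
  refine ⟨fun y x => l • q x (W y), ?_, ?_, ?_, ?_, ?_, ?_⟩
  · intro y hy
    obtain ⟨φ, h1, h2, h3⟩ := hG1 (W y) (hW1 y hy)
    rw [hW2 y hy] at h3
    exact ⟨φ, h1, h2, h3⟩
  · intro y hy
    refine ⟨⟨l * (1 / 20), by positivity⟩, LipschitzWith.of_dist_le_mul fun x x' => ?_⟩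
    rw [dist_eq_norm, dist_eq_norm]
    change ‖l • q x (W y) - l • q x' (W y)‖ ≤ l * (1 / 20) * ‖x - x'‖
    rw [← smul_sub, norm_smul, Real.norm_eq_abs, abs_of_pos hl0]
    have h1 := hdq x x' (W y) (W y) (hW1 y hy) (hW1 y hy)
    rw [sub_self, norm_zero] at h1
    have h2 : ‖q x (W y) - q x' (W y)‖ ≤ 1 / 20 * ‖x - x'‖ := by linarith
    calc _ ≤ l * (1 / 20 * ‖x - x'‖) := mul_le_mul_of_nonneg_left h2 hl0.le
      _ = _ := by ring
  · intro z₀ hz₀
    refine ContinuousAt.continuousWithinAt ?_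
    obtain ⟨y₀, x₀⟩ := z₀
    have hy₀ : ‖y₀‖ < 3 / 4 * l := hz₀
    have hopen : ∀ᶠ z : E × E in 𝓝 (y₀, x₀), ‖z.1‖ < 3 / 4 * l := by
      have h1 : ContinuousAt (fun z : E × E => ‖z.1‖) (y₀, x₀) := by fun_prop
      exact h1.eventually (gt_mem_nhds hy₀)
    have hbd : ∀ᶠ z : E × E in 𝓝 (y₀, x₀), ‖l • q z.2 (W z.1) - l • q x₀ (W y₀)‖ ≤
        4 * ‖z.1 - y₀‖ + l * ‖z.2 - x₀‖ := by
      filter_upwards [hopen] with z hz
      rw [← smul_sub, norm_smul, Real.norm_eq_abs, abs_of_pos hl0]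
      have h2 := hdq z.2 x₀ (W z.1) (W y₀) (hW1 _ hz) (hW1 _ hy₀)
      have h3 := bilip hL.lipc (hW1 _ hz) (hW1 _ hy₀)
      have h4 : z.1 - y₀ = l • (c (W z.1) - c (W y₀)) := by rw [smul_sub, hW2 _ hz, hW2 _ hy₀]
      have h5 : ‖z.1 - y₀‖ = l * ‖c (W z.1) - c (W y₀)‖ := by
        rw [h4, norm_smul, Real.norm_eq_abs, abs_of_pos hl0]
      rw [h5]
      have h6 := norm_nonneg (z.2 - x₀)
      have h7 : ‖q z.2 (W z.1) - q x₀ (W y₀)‖ ≤ 4 * ‖c (W z.1) - c (W y₀)‖ + ‖z.2 - x₀‖ := by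
        have h8 := norm_nonneg (W z.1 - W y₀)
        linarith
      calc l * ‖q z.2 (W z.1) - q x₀ (W y₀)‖ ≤ l * (4 * ‖c (W z.1) - c (W y₀)‖ + ‖z.2 - x₀‖) :=
            mul_le_mul_of_nonneg_left h7 hl0.le
        _ = _ := by ring
    have hlim : Tendsto (fun z : E × E => 4 * ‖z.1 - y₀‖ + l * ‖z.2 - x₀‖) (𝓝 (y₀, x₀)) (𝓝 0) := by
      have h1 : Continuous fun z : E × E => 4 * ‖z.1 - y₀‖ + l * ‖z.2 - x₀‖ := by fun_prop
      have h2 := h1.tendsto (y₀, x₀)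
      simpa using h2
    have h3 : Tendsto (fun z : E × E => ‖l • q z.2 (W z.1) - l • q x₀ (W y₀)‖) (𝓝 (y₀, x₀)) (𝓝 0) :=
      squeeze_zero' (Eventually.of_forall fun z => norm_nonneg _) hbd hlim
    exact tendsto_iff_norm_sub_tendsto_zero.2 h3
  · intro x y y' hy hy' he
    change l • q x (W y) = l • q x (W y') at he
    have h1 : q x (W y) = q x (W y') := smul_right_injective E hl0.ne' he
    have h2 := bilip (F := q x) (fun w w' hw hw' => by
      have h3 := hL.lipq x x w w' hw hw'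
      rw [sub_self, norm_zero, zero_add] at h3
      exact h3) (hW1 _ hy) (hW1 _ hy')
    rw [h1, sub_self, norm_zero, mul_zero] at h2
    have h3 : W y = W y' := sub_eq_zero.1 (norm_le_zero_iff.1 h2)
    rw [← hW2 _ hy, ← hW2 _ hy', h3]
  · intro x p hp
    obtain ⟨w, hw1, hw2⟩ := surj_ball (F := q x) (fun w hw => hL.smallq x w hw)
      (fun w w' hw hw' => by
        have h3 := hL.lipq x x w w' hw hw'
        rw [sub_self, norm_zero, zero_add] at h3
        exact h3) (y := l⁻¹ • p) (by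
        rw [norm_smul, Real.norm_eq_abs, abs_of_pos (inv_pos.2 hl0), inv_mul_le_iff₀ hl0]
        linarith)
    have h1 : ‖c w‖ < 3 / 4 := by
      have h2 : ‖l⁻¹ • p‖ < 3 / 5 := by
        rw [norm_smul, Real.norm_eq_abs, abs_of_pos (inv_pos.2 hl0), inv_mul_lt_iff₀ hl0]
        linarith
      have h3 : c w = l⁻¹ • p + ((c w - w) - (q x w - w)) := by rw [hw2]; abel
      rw [h3]
      have h4 := norm_add_le (l⁻¹ • p) ((c w - w) - (q x w - w))
      have h5 := norm_sub_le (c w - w) (q x w - w)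
      have h6 := hL.smallc w hw1
      have h7 := hL.smallq x w hw1
      linarith
    have hy : ‖l • c w‖ < 3 / 4 * l := by
      rw [norm_smul, Real.norm_eq_abs, abs_of_pos hl0]
      nlinarith
    refine ⟨l • c w, hy, ?_⟩
    have h8 : c (W (l • c w)) = c w := smul_right_injective E hl0.ne' (hW2 _ hy)
    have h9 := bilip hL.lipc (hW1 _ hy) hw1
    rw [h8, sub_self, norm_zero, mul_zero] at h9
    have h10 : W (l • c w) = w := sub_eq_zero.1 (norm_le_zero_iff.1 h9)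
    change l • q x (W (l • c w)) = p
    rw [h10, hw2, smul_inv_smul₀ hl0.ne']
  · intro y hy x p t₁ t₂ htr t₀ ht₀ h0
    obtain ⟨φ, h1, h2, h3⟩ := hG1 (W y) (hW1 y hy)
    rw [hW2 y hy] at h3
    obtain ⟨a, ha⟩ := hG2 (W y) (hW1 y hy)
    exact invariant hH2 h1 (P := fun x => l • q x (W y)) h3 ha htr.hx htr.hp ht₀ h0

end

end Pool.Agent.LRT
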