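import Pool.Agent.LRT.VDefs

/-! # LRT/VB: beta function of a general Lagrangian: integrability, subgradients   (helper45) -/

set_option autoImplicit false

open MeasureTheory Module Set Filter Topology

namespace Pool.Agent.LRT

open Pool.H45.Mather

noncomputable section

set_option linter.unusedSectionVars false
set_option linter.style.haveILetI false

variable {n : ℕ} {E : Type*} [NormedAddCommGroup E] [InnerProductSpace ℝ E] [FiniteDimensional ℝ E]
  [MeasurableSpace E] [BorelSpace E] {b : Basis (Fin n) ℝ E} {L : E × E → ℝ}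

omit [MeasurableSpace E] [BorelSpace E] in
lemma TonL.bound (hL : TonL b L) (R : ℝ) : ∃ C : ℝ, 0 ≤ C ∧ ∀ x v, ‖v‖ ≤ R → ‖L (x, v)‖ ≤ C := by
  haveI : ProperSpace E := FiniteDimensional.proper ℝ E
  obtain ⟨C, hC⟩ := ((isCompact_closedBall (0 : E) (∑ i, ‖b i‖)).prod
    (isCompact_closedBall (0 : E) R)).exists_bound_of_continuousOn hL.cont.continuousOn
  refine ⟨max C 0, le_max_right _ _, fun x v hv => ?_⟩
  have h1 : L (x, v) = L (ZSpan.fract b x, v) := ((hL.per v).fract x).symm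
  rw [h1]
  refine (hC (ZSpan.fract b x, v) ⟨?_, ?_⟩).trans (le_max_left _ _)
  · rw [mem_closedBall_zero_iff]
    exact ZSpan.norm_fract_le b x
  · rw [mem_closedBall_zero_iff]
    exact hv

omit [FiniteDimensional ℝ E] [MeasurableSpace E] [BorelSpace E] in
lemma TonL.lower (hL : TonL b L) : ∃ C : ℝ, ∀ z, C ≤ L z := by
  obtain ⟨B, hB⟩ := hL.sup 0
  exact ⟨-B, fun z => by have := hB z.1 z.2; simpa using this⟩

lemma TonL.int (hL : TonL b L) {μ : Measure (E × E)} (hμ : IsClosedMeasure b μ) : Integrable L μ :=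
  hμ.integrable hL.cont fun R => by
    obtain ⟨C, _, hC⟩ := hL.bound R
    exact ⟨C, hC⟩

lemma SubL.star (hL : TonL b L) {c : E} {κ : ℝ} {φ : E → ℝ}
    (hφ : ContDiff ℝ 1 φ) (hφp : Per b φ) (h : SubL L c κ φ) : StarL b L c κ := by
  intro μ hμ
  haveI := hμ.prob
  have h1 : ∫ z, (inner ℝ c z.2 + fderiv ℝ φ z.1 z.2) ∂μ ≤ ∫ z, (L z + κ) ∂μ := by
    refine integral_mono ?_ ?_ fun z => h z.1 z.2
    · exact (hμ.int_snd.const_inner c).add (hμ.int_fderiv hφ hφp)
    · exact (hL.int hμ).add (integrable_const _)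
  rw [integral_add (hμ.int_snd.const_inner c) (hμ.int_fderiv hφ hφp), hμ.closed φ hφ hφp,
    integral_add (hL.int hμ) (integrable_const _), integral_const,
    integral_inner hμ.int_snd] at h1
  simpa using h1

lemma betaL_bddBelow (hL : TonL b L) (h : E) :
    BddBelow {a | ∃ μ : Measure (E × E), IsClosedMeasure b μ ∧ ∫ z, z.2 ∂μ = h ∧
      ∫ z, L z ∂μ = a} := by
  obtain ⟨C, hC⟩ := hL.lower
  refine ⟨C, ?_⟩
  rintro a ⟨μ, hμ, _, rfl⟩
  haveI := hμ.prob
  have : ∫ _ : E × E, C ∂μ ≤ ∫ z, L z ∂μ :=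
    integral_mono (integrable_const _) (hL.int hμ) hC
  simpa using this

lemma betaL_le (hL : TonL b L) {μ : Measure (E × E)} (hμ : IsClosedMeasure b μ) :
    betaL b L (∫ z, z.2 ∂μ) ≤ ∫ z, L z ∂μ :=
  csInf_le (betaL_bddBelow hL _) ⟨μ, hμ, rfl, rfl⟩

lemma exists_closed (b : Basis (Fin n) ℝ E) (h : E) :
    ∃ μ : Measure (E × E), IsClosedMeasure b μ ∧ ∫ z, z.2 ∂μ = h := by
  have h1 : ∫ _ : E, (1 : ℝ) ∂(lam b) = 1 := by simp
  exact ⟨tm b (fun _ => 1) h, tm_closed continuous_const (Per.const _)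
    (fun _ => zero_le_one) h1 (fun _ _ => rfl), hom_tm continuous_const (fun _ => zero_le_one) h1 h⟩

lemma le_betaL {h : E} {a : ℝ}
    (H : ∀ μ : Measure (E × E), IsClosedMeasure b μ → ∫ z, z.2 ∂μ = h → a ≤ ∫ z, L z ∂μ) :
    a ≤ betaL b L h := by
  obtain ⟨μ, hμ, hh⟩ := exists_closed b h
  refine le_csInf ⟨_, μ, hμ, hh, rfl⟩ ?_
  rintro _ ⟨μ, hμ, hh, rfl⟩
  exact H μ hμ hh

lemma StarL.le_beta {c : E} {κ : ℝ} (h : StarL b L c κ) (r : E) :
    inner ℝ c r - κ ≤ betaL b L r := by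
  refine le_betaL fun μ hμ hr => ?_
  have := h μ hμ
  rw [hr] at this
  linarith

lemma starL_of_le_beta (hL : TonL b L) {c : E} {κ : ℝ}
    (h : ∀ r, inner ℝ c r - κ ≤ betaL b L r) : StarL b L c κ := by
  intro μ hμ
  have := (h (∫ z, z.2 ∂μ)).trans (betaL_le hL hμ)
  linarith

lemma betaL_convex (hL : TonL b L) (h r : E) {s : ℝ} (hs0 : 0 ≤ s) (hs1 : s ≤ 1) :
    betaL b L (h + s • (r - h)) ≤ (1 - s) * betaL b L h + s * betaL b L r := by
  have hne : ∀ h : E, ({a | ∃ μ : Measure (E × E), IsClosedMeasure b μ ∧ ∫ z, z.2 ∂μ = h ∧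
      ∫ z, L z ∂μ = a}).Nonempty := by
    intro h
    obtain ⟨μ, hμ, hh⟩ := exists_closed b h
    exact ⟨_, μ, hμ, hh, rfl⟩
  refine le_of_forall_pos_le_add fun ε hε => ?_
  obtain ⟨_, ⟨μ, hμ, hμh, rfl⟩, hμa⟩ := exists_lt_of_csInf_lt (hne h)
    (show betaL b L h < betaL b L h + ε by linarith)
  obtain ⟨_, ⟨ν, hν, hνh, rfl⟩, hνa⟩ := exists_lt_of_csInf_lt (hne r)
    (show betaL b L r < betaL b L r + ε by linarith)
  have hmix := mix_closed hμ hν hs0 hs1
  have h1 := betaL_le hL hmix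
  have htop : ∀ x : ℝ, ENNReal.ofReal x ≠ ⊤ := fun x => ENNReal.ofReal_ne_top
  rw [integral_add_measure ((hμ.int_snd).smul_measure (htop _))
      ((hν.int_snd).smul_measure (htop _)), integral_smul_measure,
      integral_smul_measure, integral_add_measure
      ((hL.int hμ).smul_measure (htop _))
      ((hL.int hν).smul_measure (htop _)), integral_smul_measure,
      integral_smul_measure, hμh, hνh, ENNReal.toReal_ofReal (by linarith),
      ENNReal.toReal_ofReal hs0] at h1
  have e1 : (1 - s) • h + s • r = h + s • (r - h) := by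
    rw [smul_sub, sub_smul, one_smul]; abel
  rw [e1, smul_eq_mul, smul_eq_mul] at h1
  refine h1.trans ?_
  have h2 : (1 - s) * ∫ z, L z ∂μ ≤ (1 - s) * (betaL b L h + ε) :=
    mul_le_mul_of_nonneg_left hμa.le (by linarith)
  have h3 : s * ∫ z, L z ∂ν ≤ s * (betaL b L r + ε) :=
    mul_le_mul_of_nonneg_left hνa.le hs0
  linarith

/-- subgradient at a point of differentiability -/
lemma exists_gradL (hL : TonL b L) {h : E} (hd : DifferentiableAt ℝ (betaL b L) h) :
    ∃ c : E, (∀ r, betaL b L h + inner ℝ c (r - h) ≤ betaL b L r) ∧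
      ∀ c' : E, (∀ r, betaL b L h + inner ℝ c' (r - h) ≤ betaL b L r) → c' = c := by
  set c : E := (InnerProductSpace.toDual ℝ E).symm (fderiv ℝ (betaL b L) h) with hc
  have hcv : ∀ v, inner ℝ c v = fderiv ℝ (betaL b L) h v := by
    intro v
    rw [hc, InnerProductSpace.toDual_symm_apply]
  have hline : ∀ v : E, HasDerivAt (fun s : ℝ => betaL b L (h + s • v))
      (fderiv ℝ (betaL b L) h v) 0 := by
    intro v
    have h1 : HasDerivAt (fun s : ℝ => h + s • v) v 0 := by
      simpa using ((hasDerivAt_id (0 : ℝ)).smul_const v).const_add h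
    have h2 : HasFDerivAt (betaL b L) (fderiv ℝ (betaL b L) h) (h + (0 : ℝ) • v) := by
      simpa using hd.hasFDerivAt
    exact h2.comp_hasDerivAt 0 h1
  refine ⟨c, fun r => ?_, fun c' hc' => ?_⟩
  · have h1 := hline (r - h)
    have h2 := h1.tendsto_slope_zero_right
    have h3 : ∀ᶠ s : ℝ in 𝓝[>] 0, s⁻¹ • (betaL b L (h + (0 + s) • (r - h)) -
        betaL b L (h + (0 : ℝ) • (r - h))) ≤ betaL b L r - betaL b L h := by
      filter_upwards [Ioc_mem_nhdsGT (zero_lt_one' ℝ)] with s hs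
      have := betaL_convex hL h r hs.1.le hs.2
      rw [zero_add, zero_smul, add_zero, smul_eq_mul, inv_mul_le_iff₀ hs.1]
      linarith
    have h4 := le_of_tendsto h2 h3
    rw [hcv]
    linarith
  · have h1 : ∀ v : E, inner ℝ (c' - c) v = 0 := by
      intro v
      have h2 : HasDerivAt (fun s : ℝ => betaL b L (h + s • v) - s * inner ℝ c' v)
          (fderiv ℝ (betaL b L) h v - inner ℝ c' v) 0 := by
        have := (hline v).fun_sub ((hasDerivAt_id' (0 : ℝ)).mul_const (inner ℝ c' v))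
        simpa using this
      have h3 : IsLocalMin (fun s : ℝ => betaL b L (h + s • v) - s * inner ℝ c' v) 0 := by
        refine Eventually.of_forall fun s => ?_
        have := hc' (h + s • v)
        rw [add_sub_cancel_left, inner_smul_right] at this
        simp only [zero_smul, add_zero, zero_mul, sub_zero]
        linarith
      have h4 := h3.hasDerivAt_eq_zero h2
      rw [inner_sub_left, hcv]
      linarith
    have := h1 (c' - c)
    rw [inner_self_eq_zero] at this
    exact sub_eq_zero.1 this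

end

end Pool.Agent.LRT
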