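import Pool.Agent.LRT.VD
import Pool.Agent.H45.MatherCore

/-! # LRT/VC: gluing for general Lagrangians   (helper45) -/

set_option autoImplicit false

open MeasureTheory Module Set Filter Topology

namespace Pool.Agent.LRT

open Pool.H45.Mather

noncomputable section

set_option linter.unusedSectionVars false
set_option linter.style.haveILetI false

variable {n : ℕ} {E : Type*} [NormedAddCommGroup E] [InnerProductSpace ℝ E] [FiniteDimensional ℝ E]
  [MeasurableSpace E] [BorelSpace E] {b : Basis (Fin n) ℝ E} {L : E × E → ℝ}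

theorem glueL {k : Fin n → ℤ} {c c₀ : E} {θ κ : ℝ}
    (hc : c = c₀ + θ • rv b k) {φ χ : E → ℝ} (hφ : ContDiff ℝ 1 φ) (hφp : Per b φ)
    (hsub : SubL L c κ φ) (hχ : ContDiff ℝ 1 χ) (hχp : Per b χ) {s₁ w a δ β₀ : ℝ}
    (hw0 : 0 < w) (hw1 : w < 1)
    (hW : ∀ x, 0 < Int.fract (lin b k x - s₁) → Int.fract (lin b k x - s₁) < w →
      ∀ v, inner ℝ (c₀ + a • rv b k) v + fderiv ℝ χ x v ≤ L (x, v) + κ)
    {Θ : ℝ → ℝ} {Z₀ Z₁ : Set ℝ} (hZ₀ : IsOpen Z₀) (hZ₁ : IsOpen Z₁)
    (hΘ : ContDiff ℝ 1 Θ) (hΘ0 : ∀ r ∈ Z₀, Θ r = 0)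
    (hΘ1 : ∀ r ∈ Z₁, Θ r = δ) (hΘ' : ∀ r, 0 ≤ deriv Θ r ∧ deriv Θ r ≤ 1)
    (hleft : ∀ x, Int.fract (lin b k x - s₁) = 0 → χ x - φ x + β₀ ∈ Z₀)
    (hright : ∀ x, Int.fract (lin b k x - s₁) = w → (a - θ) * w + χ x - φ x + β₀ ∈ Z₁) :
    ∃ φ' : E → ℝ, ContDiff ℝ 1 φ' ∧ Per b φ' ∧ SubL L (c + δ • rv b k) κ φ' := by
  set s : E → ℝ := fun x => lin b k x - s₁ with hs
  have hsc : Continuous s := (lin b k).continuous.sub continuous_const
  set D : ℤ → E → ℝ := fun N x => (a - θ) * (s x - N) + χ x - φ x + β₀ with hD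
  have hDc : ∀ N, Continuous (D N) := fun N =>
    (((continuous_const.mul (hsc.sub continuous_const)).add hχ.continuous).sub
      hφ.continuous).add continuous_const
  set g : E → ℝ := fun x => δ * (⌊s x⌋ : ℝ) +
    (if Int.fract (s x) < w then Θ (D ⌊s x⌋ x) else δ) with hg
  -- local structure
  have hloc : ∀ x₀, (∃ q : ℝ, g =ᶠ[𝓝 x₀] fun _ => q) ∨
      (∃ N : ℤ, 0 < Int.fract (s x₀) ∧ Int.fract (s x₀) < w ∧
        g =ᶠ[𝓝 x₀] fun x => δ * (N : ℝ) + Θ (D N x)) := by
    intro x₀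
    set N : ℤ := ⌊s x₀⌋ with hN
    have hfl : (N : ℝ) ≤ s x₀ := Int.floor_le _
    have hfl2 : s x₀ < N + 1 := Int.lt_floor_add_one _
    have hfr : Int.fract (s x₀) = s x₀ - N := rfl
    -- floor is constant if fract is positive
    have hfloor : 0 < Int.fract (s x₀) → ∀ᶠ x in 𝓝 x₀, ⌊s x⌋ = N := by
      intro h0
      have h1 : ∀ᶠ x in 𝓝 x₀, (N : ℝ) < s x := hsc.continuousAt.eventually_const_lt
        (by linarith)
      have h2 : ∀ᶠ x in 𝓝 x₀, s x < N + 1 := hsc.continuousAt.eventually_lt_const hfl2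
      filter_upwards [h1, h2] with x hx1 hx2
      exact Int.floor_eq_iff.2 ⟨hx1.le, hx2⟩
    rcases eq_or_lt_of_le (Int.fract_nonneg (s x₀)) with h0 | h0
    · -- fract = 0
      left
      refine ⟨δ * N, ?_⟩
      have hs0 : s x₀ = N := by linarith
      have h1 : ∀ᶠ x in 𝓝 x₀, D N x ∈ Z₀ := by
        refine (hDc N).continuousAt.eventually (hZ₀.mem_nhds ?_)
        have := hleft x₀ h0.symm
        simp only [hD, hs0]
        convert this using 1
        ring
      have h2 : ∀ᶠ x in 𝓝 x₀, s x < N + w := hsc.continuousAt.eventually_lt_const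
        (by linarith)
      have h3 : ∀ᶠ x in 𝓝 x₀, (N : ℝ) - 1 + w < s x := hsc.continuousAt.eventually_const_lt
        (by linarith)
      filter_upwards [h1, h2, h3] with x hx1 hx2 hx3
      rcases le_or_gt (N : ℝ) (s x) with hx | hx
      · have hfx : ⌊s x⌋ = N := Int.floor_eq_iff.2 ⟨hx, by linarith⟩
        have hfx' : Int.fract (s x) = s x - N := by rw [← hfx]; rfl
        simp only [hg, hfx, hfx']
        rw [if_pos (by linarith), hΘ0 _ hx1, add_zero]
      · have hfx : ⌊s x⌋ = N - 1 := Int.floor_eq_iff.2 ⟨by push_cast; linarith,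
          by push_cast; linarith⟩
        have hfx' : Int.fract (s x) = s x - (N - 1 : ℤ) := by rw [← hfx]; rfl
        simp only [hg, hfx, hfx']
        rw [if_neg (by push_cast; linarith)]
        push_cast
        ring
    · rcases lt_trichotomy (Int.fract (s x₀)) w with h1 | h1 | h1
      · right
        refine ⟨N, h0, h1, ?_⟩
        have h2 : ∀ᶠ x in 𝓝 x₀, s x < N + w := hsc.continuousAt.eventually_lt_const
          (by linarith)
        filter_upwards [hfloor h0, h2] with x hx1 hx2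
        have hfx' : Int.fract (s x) = s x - N := by rw [← hx1]; rfl
        simp only [hg, hx1, hfx']
        rw [if_pos (by linarith)]
      · left
        refine ⟨δ * N + δ, ?_⟩
        have h2 : ∀ᶠ x in 𝓝 x₀, D N x ∈ Z₁ := by
          refine (hDc N).continuousAt.eventually (hZ₁.mem_nhds ?_)
          have := hright x₀ h1
          have h3 : s x₀ - N = w := by linarith
          simp only [hD, h3]
          convert this using 1
        filter_upwards [hfloor h0, h2] with x hx1 hx2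
        simp only [hg, hx1]
        rw [hΘ1 _ hx2]
        simp
      · left
        refine ⟨δ * N + δ, ?_⟩
        have h2 : ∀ᶠ x in 𝓝 x₀, N + w < s x := hsc.continuousAt.eventually_const_lt
          (by linarith)
        filter_upwards [hfloor h0, h2] with x hx1 hx2
        have hfx' : Int.fract (s x) = s x - N := by rw [← hx1]; rfl
        simp only [hg, hx1, hfx']
        rw [if_neg (by linarith)]
  have hDd : ∀ N, ContDiff ℝ 1 (D N) := by
    intro N
    have h1 : ContDiff ℝ 1 s := (lin b k).contDiff.sub contDiff_const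
    exact (((contDiff_const.mul (h1.sub contDiff_const)).add hχ).sub hφ).add contDiff_const
  have hgd : ContDiff ℝ 1 g := by
    rw [contDiff_iff_contDiffAt]
    intro x₀
    rcases hloc x₀ with ⟨q, hq⟩ | ⟨N, _, _, hq⟩
    · exact contDiffAt_const.congr_of_eventuallyEq hq
    · exact ContDiffAt.congr_of_eventuallyEq
        (contDiff_const.add (hΘ.comp (hDd N))).contDiffAt hq
  refine ⟨fun x => φ x + g x - δ * lin b k x, ?_, ?_, ?_⟩
  · exact (hφ.add hgd).sub (contDiff_const.mul (lin b k).contDiff)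
  · intro i x
    have h1 : s (x + b i) = s x + (k i : ℤ) := by
      simp only [hs, map_add, lin_basis]
      ring
    have h2 : ⌊s (x + b i)⌋ = ⌊s x⌋ + k i := by rw [h1, Int.floor_add_intCast]
    have h3 : Int.fract (s (x + b i)) = Int.fract (s x) := by rw [h1, Int.fract_add_intCast]
    have h4 : D (⌊s x⌋ + k i) (x + b i) = D ⌊s x⌋ x := by
      simp only [hD, h1, hφp i x, hχp i x]
      push_cast
      ring
    simp only [hg, h2, h3, h4, hφp i x, map_add, lin_basis]
    push_cast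
    ring
  · intro x v
    have hdφ : HasFDerivAt φ (fderiv ℝ φ x) x := (hφ.differentiable one_ne_zero x).hasFDerivAt
    have hdχ : HasFDerivAt χ (fderiv ℝ χ x) x := (hχ.differentiable one_ne_zero x).hasFDerivAt
    have hdg : HasFDerivAt g (fderiv ℝ g x) x := (hgd.differentiable one_ne_zero x).hasFDerivAt
    have hd : fderiv ℝ (fun x => φ x + g x - δ * lin b k x) x v =
        fderiv ℝ φ x v + fderiv ℝ g x v - δ * lin b k v := by
      have h1 : HasFDerivAt (fun x => φ x + g x - δ * lin b k x)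
          (fderiv ℝ φ x + fderiv ℝ g x - δ • lin b k) x :=
        (hdφ.add hdg).sub ((lin b k).hasFDerivAt.const_mul δ)
      rw [h1.fderiv]
      simp
    rw [hd, inner_add_left, inner_smul_left, inner_rv]
    have hS := hsub x v
    rcases hloc x with ⟨q, hq⟩ | ⟨N, hN0, hN1, hq⟩
    · have : fderiv ℝ g x = 0 := by
        rw [hq.fderiv_eq]
        simp
      rw [this]
      simp only [zero_apply, conj_trivial]
      linarith
    · have hDN : HasFDerivAt (D N) ((a - θ) • lin b k + fderiv ℝ χ x - fderiv ℝ φ x) x := by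
        have h1 : HasFDerivAt (fun x => s x - N) (lin b k) x := by
          have := (((lin b k).hasFDerivAt (x := x)).sub_const s₁).sub_const (N : ℝ)
          exact this
        exact ((((h1.const_mul (a - θ)).add hdχ).sub hdφ).add_const β₀)
      have hG : fderiv ℝ g x v = deriv Θ (D N x) *
          ((a - θ) * lin b k v + fderiv ℝ χ x v - fderiv ℝ φ x v) := by
        rw [hq.fderiv_eq]
        have h1 : HasFDerivAt (fun x => δ * (N : ℝ) + Θ (D N x))
            (deriv Θ (D N x) • ((a - θ) • lin b k + fderiv ℝ χ x - fderiv ℝ φ x)) x := by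
          have h2 : HasDerivAt Θ (deriv Θ (D N x)) (D N x) :=
            (hΘ.differentiable one_ne_zero _).hasDerivAt
          exact (h2.comp_hasFDerivAt x hDN).const_add _
        rw [h1.fderiv]
        simp
      have hWx := hW x hN0 hN1 v
      rw [inner_add_left, inner_smul_left, inner_rv] at hWx
      simp only [conj_trivial] at hWx ⊢
      rw [hG]
      have hcv : inner ℝ c v = inner ℝ c₀ v + θ * lin b k v := by
        rw [hc, inner_add_left, inner_smul_left, inner_rv]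
        simp
      obtain ⟨ht0, ht1⟩ := hΘ' (D N x)
      set t := deriv Θ (D N x)
      rw [hcv] at hS ⊢
      nlinarith [mul_le_mul_of_nonneg_left hWx ht0,
        mul_le_mul_of_nonneg_left hS (sub_nonneg.2 ht1)]

theorem coreL (hL : TonL b L) {k : Fin n → ℤ} (hk : k ≠ 0) {c c₀ : E} {θ κ : ℝ}
    (hc : c = c₀ + θ • rv b k) (hstar : StarL b L c κ) {χ : E → ℝ}
    (hχ : ContDiff ℝ 1 χ) (hχp : Per b χ) {E₁ E₂ : ℝ} (hχb : ∀ x, |χ x| ≤ E₁) {s₁ w a : ℝ}
    (hw0 : 0 < w) (hw1 : w < 1)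
    (hW : ∀ x, 0 < Int.fract (lin b k x - s₁) → Int.fract (lin b k x - s₁) < w →
      ∀ v, inner ℝ (c₀ + a • rv b k) v + fderiv ℝ χ x v ≤ L (x, v) + κ)
    (hW' : ∀ x, 0 < Int.fract (lin b k x - s₁) → Int.fract (lin b k x - s₁) < w →
      ∀ v, inner ℝ (c₀ + (-a) • rv b k) v + fderiv ℝ χ x v ≤ L (x, v) + κ)
    {σ₀ : ℝ} (hσ₀ : 0 < σ₀) (hosc : ∀ σ, 0 < σ → σ ≤ σ₀ → ∀ φ : E → ℝ, ContDiff ℝ 1 φ → Per b φ →
      SubL L c (κ + σ) φ → ∀ x y, (∃ N : ℤ, lin b k x - lin b k y = N) → φ x - φ y ≤ E₂)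
    (hbig : 2 * (E₁ + E₂) < a * w) :
    ∃ δ : ℝ, δ ≠ 0 ∧ StarL b L (c + δ • rv b k) κ := by
  obtain ⟨C₀, hC₀, hclamp⟩ := exists_clamp
  set gap : ℝ := a * w - 2 * (E₁ + E₂) with hgap
  have hgap0 : 0 < gap := by linarith
  set δ : ℝ := gap / (4 * C₀) with hδ
  have hδ0 : 0 < δ := by positivity
  have hCδ : C₀ * δ = gap / 4 := by
    rw [hδ]; field_simp
  obtain ⟨Θ, hΘ, hΘ0, hΘ1, hΘ'⟩ := hclamp δ hδ0
  obtain ⟨x₁, hx₁⟩ := exists_lin_eq (b := b) hk s₁
  obtain ⟨x₂, hx₂⟩ := exists_lin_eq (b := b) hk (s₁ + w)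
  have key : ∀ σ : ℝ, 0 < σ → σ ≤ σ₀ →
      StarL b L (c + δ • rv b k) (κ + σ) ∨ StarL b L (c + (-δ) • rv b k) (κ + σ) := by
    intro σ hσ hσ1
    obtain ⟨φ, hφ, hφp, hsub⟩ := dualityL hL hstar hσ
    have ho := hosc σ hσ hσ1 φ hφ hφp hsub
    have hint1 : ∀ x, Int.fract (lin b k x - s₁) = 0 → ∃ N : ℤ, lin b k x - lin b k x₁ = N := by
      intro x hx
      refine ⟨⌊lin b k x - s₁⌋, ?_⟩
      rw [hx₁]
      have := Int.floor_add_fract (lin b k x - s₁)
      linarith
    have hint2 : ∀ x, Int.fract (lin b k x - s₁) = w → ∃ N : ℤ, lin b k x - lin b k x₂ = N := by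
      intro x hx
      refine ⟨⌊lin b k x - s₁⌋, ?_⟩
      rw [hx₂]
      have := Int.floor_add_fract (lin b k x - s₁)
      linarith
    have hneg : ∀ {x y : E}, (∃ N : ℤ, lin b k x - lin b k y = N) →
        ∃ N : ℤ, lin b k y - lin b k x = N := by
      rintro x y ⟨N, hN⟩
      exact ⟨-N, by push_cast; linarith⟩
    rcases le_or_gt (φ x₂ + θ * w) (φ x₁) with hcase | hcase
    · left
      have hl : ∀ x, Int.fract (lin b k x - s₁) = 0 →
          χ x - φ x + (φ x₁ - (E₁ + E₂ + gap / 8)) ∈ Iio (0 : ℝ) := by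
        intro x hx
        have h4 := ho x₁ x (hneg (hint1 x hx))
        have h5 := hχb x
        rw [abs_le] at h5
        rw [mem_Iio]
        linarith [h5.2]
      have hr : ∀ x, Int.fract (lin b k x - s₁) = w →
          (a - θ) * w + χ x - φ x + (φ x₁ - (E₁ + E₂ + gap / 8)) ∈ Ioi (C₀ * δ) := by
        intro x hx
        have h4 := ho x x₂ (hint2 x hx)
        have h5 := hχb x
        rw [abs_le] at h5
        rw [mem_Ioi, hCδ]
        linarith [h5.1]
      obtain ⟨φ', h1, h2, h3⟩ := glueL (b := b) (k := k) (c₀ := c₀) (θ := θ)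
        (κ := κ + σ) hc hφ hφp hsub hχ hχp (s₁ := s₁) (w := w) (a := a) (δ := δ)
        (β₀ := φ x₁ - (E₁ + E₂ + gap / 8)) hw0 hw1
        (fun x hx hx' v => by have := hW x hx hx' v; linarith) (Θ := Θ) (Z₀ := Iio 0)
        (Z₁ := Ioi (C₀ * δ)) isOpen_Iio isOpen_Ioi hΘ (fun r hr => hΘ0 r (le_of_lt hr))
        (fun r hr => hΘ1 r (le_of_lt hr)) hΘ' hl hr
      exact h3.star hL h1 h2
    · right
      have hΘ'' : ContDiff ℝ 1 (fun r => -Θ (-r)) := (hΘ.comp contDiff_neg).neg
      have hz : ∀ r ∈ Ioi (0 : ℝ), (fun r => -Θ (-r)) r = 0 := by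
        intro r hr
        rw [mem_Ioi] at hr
        beta_reduce
        rw [hΘ0 _ (by linarith), neg_zero]
      have hz' : ∀ r ∈ Iio (-(C₀ * δ)), (fun r => -Θ (-r)) r = -δ := by
        intro r hr
        rw [mem_Iio] at hr
        beta_reduce
        rw [hΘ1 _ (by linarith)]
      have hdd : ∀ r, 0 ≤ deriv (fun r => -Θ (-r)) r ∧ deriv (fun r => -Θ (-r)) r ≤ 1 := by
        intro r
        have h1 : HasDerivAt (fun r => -Θ (-r)) (deriv Θ (-r)) r := by
          have h2 : HasDerivAt Θ (deriv Θ (-r)) (-r) :=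
            (hΘ.differentiable one_ne_zero _).hasDerivAt
          have h3 := (h2.comp r (hasDerivAt_neg r)).neg
          have h4 : deriv Θ (-r) = -(deriv Θ (-r) * -1) := by ring
          rw [h4]
          exact h3
        rw [h1.deriv]
        exact hΘ' _
      have hl : ∀ x, Int.fract (lin b k x - s₁) = 0 →
          χ x - φ x + (φ x₁ + (E₁ + E₂ + gap / 8)) ∈ Ioi (0 : ℝ) := by
        intro x hx
        have h4 := ho x x₁ (hint1 x hx)
        have h5 := hχb x
        rw [abs_le] at h5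
        rw [mem_Ioi]
        linarith [h5.1]
      have hr : ∀ x, Int.fract (lin b k x - s₁) = w →
          (-a - θ) * w + χ x - φ x + (φ x₁ + (E₁ + E₂ + gap / 8)) ∈ Iio (-(C₀ * δ)) := by
        intro x hx
        have h4 := ho x₂ x (hneg (hint2 x hx))
        have h5 := hχb x
        rw [abs_le] at h5
        rw [mem_Iio, hCδ]
        linarith [h5.2]
      obtain ⟨φ', h1, h2, h3⟩ := glueL (b := b) (k := k) (c₀ := c₀) (θ := θ)
        (κ := κ + σ) hc hφ hφp hsub hχ hχp (s₁ := s₁) (w := w) (a := -a) (δ := -δ)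
        (β₀ := φ x₁ + (E₁ + E₂ + gap / 8)) hw0 hw1
        (fun x hx hx' v => by have := hW' x hx hx' v; linarith) (Θ := fun r => -Θ (-r))
        (Z₀ := Ioi 0) (Z₁ := Iio (-(C₀ * δ))) isOpen_Ioi isOpen_Iio hΘ'' hz hz' hdd hl hr
      exact h3.star hL h1 h2
  by_contra hcon
  push Not at hcon
  have hn1 := hcon δ hδ0.ne'
  have hn2 := hcon (-δ) (neg_ne_zero.2 hδ0.ne')
  unfold StarL at hn1 hn2
  push Not at hn1 hn2
  obtain ⟨μ, hμ, hμ'⟩ := hn1
  obtain ⟨ν, hν, hν'⟩ := hn2
  set t₁ := inner ℝ (c + δ • rv b k) (∫ z, z.2 ∂μ) - (∫ z, L z ∂μ + κ) with ht₁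
  set t₂ := inner ℝ (c + (-δ) • rv b k) (∫ z, z.2 ∂ν) - (∫ z, L z ∂ν + κ) with ht₂
  have h1 : 0 < t₁ := by linarith
  have h2 : 0 < t₂ := by linarith
  set σ := min σ₀ (min (t₁ / 2) (t₂ / 2)) with hσ
  have hσ0 : 0 < σ := lt_min hσ₀ (lt_min (by linarith) (by linarith))
  have hσ1 : σ ≤ σ₀ := min_le_left _ _
  have hσ2 : σ ≤ t₁ / 2 := (min_le_right _ _).trans (min_le_left _ _)
  have hσ3 : σ ≤ t₂ / 2 := (min_le_right _ _).trans (min_le_right _ _)
  rcases key σ hσ0 hσ1 with h | h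
  · have := h μ hμ
    linarith
  · have := h ν hν
    linarith

end

end Pool.Agent.LRT
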