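import Pool.Agent.LRT.VB

/-! # LRT/VD: duality (Hahn-Banach and Riesz) for general Lagrangians   (helper45) -/

set_option autoImplicit false

open MeasureTheory Module Set Filter Topology CompactlySupported

namespace Pool.Agent.LRT

open Pool.H45.Mather

noncomputable section

set_option linter.unusedSectionVars false
set_option linter.style.haveILetI false

variable {n : ℕ} {E : Type*} [NormedAddCommGroup E] [InnerProductSpace ℝ E] [FiniteDimensional ℝ E]
  [MeasurableSpace E] [BorelSpace E] {b : Basis (Fin n) ℝ E} {L : E × E → ℝ}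

lemma dualityL_ball (hL : TonL b L) {c : E} {κ : ℝ} (h : StarL b L c κ) {σ : ℝ}
    (hσ : 0 < σ) (R : ℝ) : ∃ φ : E → ℝ, ContDiff ℝ 1 φ ∧ Per b φ ∧ ∀ x v, ‖v‖ ≤ R →
      inner ℝ c v + fderiv ℝ φ x v ≤ L (x, v) + (κ + σ) := by
  haveI : ProperSpace E := FiniteDimensional.proper ℝ E
  by_contra hcon
  push Not at hcon
  set Ks : Set (E × E) := Metric.closedBall (0 : E) (∑ i, ‖b i‖) ×ˢ Metric.closedBall (0 : E) R
  have hKs : IsCompact Ks := (isCompact_closedBall _ _).prod (isCompact_closedBall _ _)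
  haveI : CompactSpace Ks := isCompact_iff_compactSpace.1 hKs
  have hKm : MeasurableSet Ks := hKs.measurableSet
  have cφ : ∀ φ : E → ℝ, ContDiff ℝ 1 φ →
      Continuous (fun z : E × E => fderiv ℝ φ z.1 z.2) := fun φ hφ =>
    ((hφ.continuous_fderiv one_ne_zero).comp continuous_fst).clm_apply continuous_snd
  let M : Submodule ℝ C(Ks, ℝ) :=
    { carrier := {m | ∃ φ : E → ℝ, ContDiff ℝ 1 φ ∧ Per b φ ∧
        ∀ z : Ks, m z = fderiv ℝ φ z.1.1 z.1.2}
      zero_mem' := ⟨fun _ => 0, contDiff_const, Per.const 0, fun z => by simp⟩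
      add_mem' := by
        rintro m m' ⟨φ, hφ, hφp, h1⟩ ⟨φ', hφ', hφp', h2⟩
        refine ⟨fun x => φ x + φ' x, hφ.add hφ', hφp.comp₂ hφp' (· + ·), fun z => ?_⟩
        rw [ContinuousMap.add_apply, h1, h2, fderiv_fun_add
          (hφ.differentiable one_ne_zero _) (hφ'.differentiable one_ne_zero _)]
        rfl
      smul_mem' := by
        rintro a m ⟨φ, hφ, hφp, h1⟩
        refine ⟨fun x => a • φ x, by fun_prop, hφp.comp (a • ·), fun z => ?_⟩
        rw [ContinuousMap.smul_apply, h1, fderiv_fun_const_smul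
          (hφ.differentiable one_ne_zero _)]
        rfl }
  have hg : Continuous (fun z : E × E => L z - inner ℝ c z.2 + (κ + σ)) := by
    have := hL.cont
    fun_prop
  let g₀ : C(Ks, ℝ) := ⟨fun z => L z.1 - inner ℝ c z.1.2 + (κ + σ),
    hg.comp continuous_subtype_val⟩
  obtain ⟨ν, hν, hM, hg0⟩ := abstract_duality M g₀ (by
    rintro m ⟨φ, hφ, hφp, hm⟩
    obtain ⟨x, v, hv, hlt⟩ := hcon φ hφ hφp
    refine ⟨⟨(ZSpan.fract b x, v), ?_, ?_⟩, ?_⟩
    · rw [mem_closedBall_zero_iff]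
      exact ZSpan.norm_fract_le b x
    · rw [mem_closedBall_zero_iff]
      exact hv
    · rw [hm]
      have e1 : fderiv ℝ φ (ZSpan.fract b x) = fderiv ℝ φ x := hφp.fderiv.fract x
      have e2 : L (ZSpan.fract b x, v) = L (x, v) := (hL.per v).fract x
      change L (ZSpan.fract b x, v) - inner ℝ c v + (κ + σ) ≤
        fderiv ℝ φ (ZSpan.fract b x) v
      rw [e1, e2]
      linarith)
  set μ : Measure (E × E) := ν.map Subtype.val with hμdef
  have hint : ∀ {G : Type _} [NormedAddCommGroup G] [NormedSpace ℝ G] (g : E × E → G),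
      ∫ z, g z ∂μ = ∫ z : Ks, g z.1 ∂ν := by
    intro G _ _ g
    rw [hμdef, (MeasurableEmbedding.subtype_coe hKm).integral_map]
  have hμ : IsClosedMeasure b μ := by
    refine ⟨Measure.isProbabilityMeasure_map (by fun_prop), ⟨R, ?_⟩, ?_⟩
    · rw [hμdef, ae_map_iff (by fun_prop) (measurableSet_le (by fun_prop) (by fun_prop))]
      exact Eventually.of_forall fun z => by
        have := z.2.2
        rwa [mem_closedBall_zero_iff] at this
    · intro φ hφ hφp
      rw [hint]
      have := hM ⟨fun z : Ks => fderiv ℝ φ z.1.1 z.1.2, (cφ φ hφ).comp continuous_subtype_val⟩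
        ⟨φ, hφ, hφp, fun z => rfl⟩
      exact this
  haveI := hμ.prob
  have h1 := h μ hμ
  have h2 : ∫ z, (L z - inner ℝ c z.2 + (κ + σ)) ∂μ ≤ 0 := by
    rw [hint]
    exact hg0
  have hi1 : Integrable (fun z : E × E => inner ℝ c z.2) μ := hμ.int_snd.const_inner c
  have hi2 : Integrable (fun z : E × E => L z - inner ℝ c z.2) μ :=
    (hL.int hμ).sub hi1
  rw [integral_add hi2 (integrable_const _), integral_sub (hL.int hμ) hi1,
    integral_inner hμ.int_snd] at h2
  simp only [integral_const, probReal_univ, one_smul] at h2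
  linarith

theorem dualityL (hL : TonL b L) {c : E} {κ : ℝ} (h : StarL b L c κ) {σ : ℝ}
    (hσ : 0 < σ) : ∃ φ : E → ℝ, ContDiff ℝ 1 φ ∧ Per b φ ∧ SubL L c (κ + σ) φ := by
  obtain ⟨M, hM0, hM⟩ := hL.bound 1
  set P : ℝ := max (M + (κ + σ)) 0 with hP
  have hP0 : 0 ≤ P := le_max_right _ _
  obtain ⟨B, hB⟩ := hL.sup (P + 1)
  set R : ℝ := max (B + M) 1 with hR
  have hR1 : 1 ≤ R := le_max_right _ _
  obtain ⟨φ, hφ, hφp, hsub⟩ := dualityL_ball hL h hσ R
  refine ⟨φ, hφ, hφp, fun x v => ?_⟩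
  set p : E := c + (InnerProductSpace.toDual ℝ E).symm (fderiv ℝ φ x) with hp
  have hpv : ∀ w, inner ℝ p w = inner ℝ c w + fderiv ℝ φ x w := by
    intro w
    rw [hp, inner_add_left, InnerProductSpace.toDual_symm_apply]
  have h1 : ∀ w, ‖w‖ ≤ R → inner ℝ p w ≤ L (x, w) + (κ + σ) := by
    intro w hw
    rw [hpv]
    exact hsub x w hw
  have hpP : ‖p‖ ≤ P := by
    rcases eq_or_ne p 0 with h0 | h0
    · rw [h0, norm_zero]
      exact hP0
    · have hp0 : 0 < ‖p‖ := norm_pos_iff.2 h0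
      have hn : ‖(‖p‖)⁻¹ • p‖ = 1 := by
        rw [norm_smul, norm_inv, norm_norm, inv_mul_cancel₀ hp0.ne']
      have h2 := h1 ((‖p‖)⁻¹ • p) (by rw [hn]; exact hR1)
      have h3 := hM x ((‖p‖)⁻¹ • p) hn.le
      rw [inner_smul_right, real_inner_self_eq_norm_sq] at h2
      have h4 : (‖p‖)⁻¹ * ‖p‖ ^ 2 = ‖p‖ := by field_simp
      rw [h4] at h2
      rw [Real.norm_eq_abs, abs_le] at h3
      exact (by linarith [h3.2] : ‖p‖ ≤ M + (κ + σ)).trans (le_max_left _ _)
  rw [← hpv]
  rcases le_or_gt ‖v‖ R with hv | hv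
  · exact h1 v hv
  · have hv0 : 0 < ‖v‖ := by linarith
    set s : ℝ := R / ‖v‖ with hs
    have hs0 : 0 < s := by positivity
    have hs1 : s ≤ 1 := by
      rw [hs, div_le_one hv0]
      exact hv.le
    have hwn : ‖s • v‖ = R := by
      rw [norm_smul, Real.norm_eq_abs, abs_of_pos hs0, hs, div_mul_cancel₀ _ hv0.ne']
    have hc := (hL.conv x).2 (mem_univ v) (mem_univ (0 : E)) hs0.le (by linarith : 0 ≤ 1 - s) (by ring)
    rw [smul_zero, add_zero, smul_eq_mul, smul_eq_mul] at hc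
    have h2 := hB x (s • v)
    rw [hwn] at h2
    have h3 := hM x 0 (by rw [norm_zero]; exact zero_le_one)
    rw [Real.norm_eq_abs, abs_le] at h3
    have h4 : inner ℝ p (s • v) ≤ P * R := by
      refine (real_inner_le_norm _ _).trans ?_
      rw [hwn]
      exact mul_le_mul_of_nonneg_right hpP (by linarith)
    have h5 : B + M ≤ R := le_max_left _ _
    have h0 := h1 0 (by rw [norm_zero]; linarith)
    rw [inner_zero_right] at h0
    rw [inner_smul_right] at h4
    have h6 : s * inner ℝ p v ≤ s * L (x, v) + s * (κ + σ) := by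
      have h7 : L (x, (0 : E)) ≤ L (x, s • v) - s * inner ℝ p v := by
        nlinarith [h3.2]
      have h8 : -(κ + σ) ≤ L (x, (0 : E)) := by linarith
      nlinarith
    have h7 : s * inner ℝ p v ≤ s * (L (x, v) + (κ + σ)) := by linarith
    exact le_of_mul_le_mul_left h7 hs0

end

end Pool.Agent.LRT
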