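import Pool.Agent.H45.MatherGlue
import Pool.Agent.H45.MatherDual

/-!
# LRT/VDefs: variational part of the local rigidity theorem (MP_0ba9f4_an): definitions   (helper45)

`E` a Euclidean space with a basis `b` (lattice of the integral combinations of `b`).
From `Pool.H45.Mather`: `Per b F` (periodic), `IsClosedMeasure b μ`, `lin b k` (integral form), `lat b m` (lattice vector),
`rv b k` (Riesz vector of `lin b k`), `lam b` (normalised Lebesgue measure of a cell).
-/

set_option autoImplicit false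

open MeasureTheory Module Set Filter Topology

namespace Pool.Agent.LRT

open Pool.H45.Mather

noncomputable section

variable {n : ℕ} {E : Type*} [NormedAddCommGroup E] [InnerProductSpace ℝ E]

/-- periodic Tonelli-like Lagrangians: continuous, convex and superlinear in the velocity -/
structure TonL (b : Basis (Fin n) ℝ E) (L : E × E → ℝ) : Prop where
  cont : Continuous L
  per : ∀ v, Per b (fun x => L (x, v))
  conv : ∀ x, ConvexOn ℝ univ (fun v => L (x, v))
  sup : ∀ A : ℝ, ∃ B : ℝ, ∀ x v, A * ‖v‖ - B ≤ L (x, v)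

/-- Mather's beta function -/
def betaL [MeasurableSpace E] (b : Basis (Fin n) ℝ E) (L : E × E → ℝ) (h : E) : ℝ :=
  sInf {a | ∃ μ : Measure (E × E), IsClosedMeasure b μ ∧ ∫ z, z.2 ∂μ = h ∧ ∫ z, L z ∂μ = a}

/-- `c + dφ` is a subsolution with constant `κ`, in Lagrangian form -/
def SubL (L : E × E → ℝ) (c : E) (κ : ℝ) (φ : E → ℝ) : Prop :=
  ∀ x v, inner ℝ c v + fderiv ℝ φ x v ≤ L (x, v) + κ

/-- the closed measure inequality -/
def StarL [MeasurableSpace E] (b : Basis (Fin n) ℝ E) (L : E × E → ℝ) (c : E) (κ : ℝ) : Prop :=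
  ∀ μ : Measure (E × E), IsClosedMeasure b μ → inner ℝ c (∫ z, z.2 ∂μ) ≤ ∫ z, L z ∂μ + κ

/-- the Legendre transform -/
def Leg (H : E × E → ℝ) (z : E × E) : ℝ := ⨆ p : E, (inner ℝ p z.2 - H (z.1, p))

/-- Hamiltonians with `1/2 ≤ H_pp ≤ 2`; `Hp` is the gradient with respect to `p` -/
structure HamC (b : Basis (Fin n) ℝ E) (H : E × E → ℝ) (Hp : E × E → E) : Prop where
  cont : Continuous H
  contp : Continuous Hp
  per : ∀ p, Per b (fun x => H (x, p))
  low : ∀ x p q, H (x, p) + inner ℝ (Hp (x, p)) q + ‖q‖ ^ 2 / 4 ≤ H (x, p + q)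
  up : ∀ x p q, H (x, p + q) ≤ H (x, p) + inner ℝ (Hp (x, p)) q + ‖q‖ ^ 2

/-- trajectories of the Hamiltonian flow on an interval (lifted to the universal cover) -/
structure IsTraj [CompleteSpace E] (H : E × E → ℝ) (x p : ℝ → E) (t₁ t₂ : ℝ) : Prop where
  hx : ∀ t ∈ Ioo t₁ t₂, HasDerivAt x (gradient (fun q => H (x t, q)) (p t)) t
  hp : ∀ t ∈ Ioo t₁ t₂, HasDerivAt p (-gradient (fun y => H (y, p t)) (x t)) t

/-- `C⁰`-integrability: a foliation of the cotangent bundle by invariant Lagrangian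
graphs `p = P c x` (differentials of `C²` functions up to the class `c`), one in every cohomology class `c` -/
def C0Int [CompleteSpace E] (b : Basis (Fin n) ℝ E) (H : E × E → ℝ) : Prop :=
  ∃ P : E → E → E,
    (∀ c, ∃ φ : E → ℝ, ContDiff ℝ 2 φ ∧ Per b φ ∧
      ∀ x v, inner ℝ (P c x) v = inner ℝ c v + fderiv ℝ φ x v) ∧
    (∀ c, ∃ C, LipschitzWith C (P c)) ∧
    Continuous (fun z : E × E => P z.1 z.2) ∧
    (∀ x, Function.Bijective (fun c => P c x)) ∧
    (∀ c (x p : ℝ → E) t₁ t₂, IsTraj H x p t₁ t₂ → ∀ t₀ ∈ Ioo t₁ t₂, p t₀ = P c (x t₀) →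
      ∀ t ∈ Ioo t₁ t₂, p t = P c (x t))

end

end Pool.Agent.LRT
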