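import Pool.Agent.LRT.VL1

/-!
VS (difficulty 3).  Scaling.

`Hsc l H (x,p) = H (x, l p)/l²`, `Hpsc l Hp (x,p) = l⁻¹ Hp (x, l p)` (LRT/VDe2).

PROOF.  (hamC_sc) direct: `H_l (x,p+q) = l⁻² H (x, l p + l q)`, use low/up with `l q`.
(leg_sc) `Leg (Hsc l H) (x,v) = Leg H (x, l v)/l²`: `⟨p,v⟩ - H (x, l p)/l² = (⟨l p, l v⟩ - H (x, l p))/l²`; the map `p ↦ l p` is
surjective: two inequalities by `ciSup_le` and `HamC.fenchel` (for `H` and for `Hsc l H`).
(betaL_sc) `betaL b (Leg (Hsc l H)) h = betaL b (Leg H) (l h)/l²`: the map `m (x,v) = (x, l v)` pushes closed measures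
with rotation vector `h` to closed measures with rotation vector `l h` (`integral_map`; `fderiv φ z.1 (l z.2) = l * ..`;
bounded velocities), `∫ Leg H ∂(ν.map m) = ∫ Leg H (x, l v) ∂ν = l² ∫ Leg (Hsc l H) ∂ν`; and conversely with `l⁻¹`.
Two inequalities with `le_betaL` and `betaL_le` of LRT/VB (`TonL b (Leg H)` is `HamC.tonL` of LRT/VL1).
(diff_sc) composition with a linear map.
-/

set_option autoImplicit false

open MeasureTheory Module Set Filter Topology

namespace Pool.Agent.LRT

open Pool.H45.Mather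

noncomputable section

set_option linter.unusedSectionVars false
set_option linter.style.haveILetI false

variable {n : ℕ} {E : Type*} [NormedAddCommGroup E] [InnerProductSpace ℝ E] [FiniteDimensional ℝ E]
  [MeasurableSpace E] [BorelSpace E] {b : Basis (Fin n) ℝ E}

variable {H : E × E → ℝ} {Hp : E × E → E}

omit [FiniteDimensional ℝ E] [MeasurableSpace E] [BorelSpace E] in
theorem hamC_sc (hH : HamC b H Hp) {l : ℝ} (hl : 0 < l) : HamC b (Hsc l H) (Hpsc l Hp) := by
  have hl2 : 0 < l ^ 2 := by positivity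
  refine ⟨?_, ?_, ?_, ?_, ?_⟩
  · have h1 := hH.cont
    unfold Hsc
    fun_prop
  · have h1 := hH.contp
    unfold Hpsc
    fun_prop
  · intro p i x
    exact congrArg (fun t : ℝ => t / l ^ 2) (hH.per (l • p) i x)
  · intro x p q
    have h1 := hH.low x (l • p) (l • q)
    simp only [Hsc, Hpsc]
    rw [inner_smul_right, norm_smul, Real.norm_eq_abs, mul_pow, sq_abs] at h1
    rw [inner_smul_left, smul_add, le_div_iff₀ hl2]
    have e : (H (x, l • p) / l ^ 2 + (starRingEnd ℝ) l⁻¹ * inner ℝ (Hp (x, l • p)) q + ‖q‖ ^ 2 / 4) *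
        l ^ 2 = H (x, l • p) + l * inner ℝ (Hp (x, l • p)) q + l ^ 2 * ‖q‖ ^ 2 / 4 := by
      simp only [conj_trivial]
      field_simp
    rw [e]
    exact h1
  · intro x p q
    have h1 := hH.up x (l • p) (l • q)
    simp only [Hsc, Hpsc]
    rw [inner_smul_right, norm_smul, Real.norm_eq_abs, mul_pow, sq_abs] at h1
    rw [inner_smul_left, smul_add, div_le_iff₀ hl2]
    have e : (H (x, l • p) / l ^ 2 + (starRingEnd ℝ) l⁻¹ * inner ℝ (Hp (x, l • p)) q + ‖q‖ ^ 2) *
        l ^ 2 = H (x, l • p) + l * inner ℝ (Hp (x, l • p)) q + l ^ 2 * ‖q‖ ^ 2 := by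
      simp only [conj_trivial]
      field_simp
    rw [e]
    exact h1

omit [FiniteDimensional ℝ E] [MeasurableSpace E] [BorelSpace E] in
lemma vs_leg (hH : HamC b H Hp) {l : ℝ} (hl : 0 < l) (x v : E) :
    Leg (Hsc l H) (x, v) = Leg H (x, l • v) / l ^ 2 := by
  have hl2 : 0 < l ^ 2 := by positivity
  have hS := hamC_sc hH hl
  refine le_antisymm ?_ ?_
  · refine ciSup_le fun p => ?_
    have h1 := hH.fenchel x (l • v) (l • p)
    rw [inner_smul_left, inner_smul_right] at h1
    simp only [conj_trivial] at h1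
    simp only [Hsc]
    rw [le_div_iff₀ hl2]
    have e : (inner ℝ p v - H (x, l • p) / l ^ 2) * l ^ 2 = l * (l * inner ℝ p v) - H (x, l • p) := by
      field_simp
    rw [e]
    linarith
  · rw [div_le_iff₀ hl2]
    refine ciSup_le fun p => ?_
    have h1 := hS.fenchel x v (l⁻¹ • p)
    rw [inner_smul_left] at h1
    simp only [Hsc, conj_trivial] at h1
    rw [smul_smul, mul_inv_cancel₀ hl.ne', one_smul] at h1
    simp only
    rw [inner_smul_right]
    have h2 := mul_le_mul_of_nonneg_right h1 hl2.le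
    have e : (l⁻¹ * inner ℝ p v) * l ^ 2 = l * inner ℝ p v := by
      field_simp
    have e2 : (Leg (Hsc l H) (x, v) + H (x, p) / l ^ 2) * l ^ 2 =
        Leg (Hsc l H) (x, v) * l ^ 2 + H (x, p) := by
      field_simp
    rw [e] at h2
    have h3 : l * inner ℝ p v ≤ Leg (Hsc l H) (x, v) * l ^ 2 + H (x, p) := h2.trans (le_of_eq e2)
    linarith

/-- the scaling of the velocity -/
def vs_m (l : ℝ) (z : E × E) : E × E := (z.1, l • z.2)

omit [FiniteDimensional ℝ E] [MeasurableSpace E] [BorelSpace E] in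
lemma vs_m_cont (l : ℝ) : Continuous (vs_m l : E × E → E × E) := by
  unfold vs_m
  fun_prop

lemma vs_m_meas (l : ℝ) : Measurable (vs_m l : E × E → E × E) := (vs_m_cont l).measurable

lemma vs_int {G : Type*} [NormedAddCommGroup G] [NormedSpace ℝ G] {f : E × E → G}
    (hf : Continuous f) {μ : Measure (E × E)} (l : ℝ) :
    ∫ z, f z ∂(μ.map (vs_m l)) = ∫ z, f (vs_m l z) ∂μ :=
  integral_map (vs_m_meas l).aemeasurable hf.aestronglyMeasurable

lemma vs_closed {μ : Measure (E × E)} (hμ : IsClosedMeasure b μ) (l : ℝ) :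
    IsClosedMeasure b (μ.map (vs_m l)) := by
  have hp := hμ.prob
  refine ⟨Measure.isProbabilityMeasure_map (vs_m_meas l).aemeasurable, ?_, ?_⟩
  · obtain ⟨R, hR⟩ := hμ.bdd
    refine ⟨|l| * R, ?_⟩
    rw [ae_map_iff (vs_m_meas l).aemeasurable (measurableSet_le (by fun_prop) (by fun_prop))]
    filter_upwards [hR] with z hz
    simp only [vs_m]
    rw [norm_smul, Real.norm_eq_abs]
    exact mul_le_mul_of_nonneg_left hz (abs_nonneg _)
  · intro φ hφ hφp
    have hc : Continuous (fun z : E × E => fderiv ℝ φ z.1 z.2) :=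
      ((hφ.continuous_fderiv one_ne_zero).comp continuous_fst).clm_apply continuous_snd
    rw [vs_int hc]
    have e : (fun z : E × E => fderiv ℝ φ (vs_m l z).1 (vs_m l z).2) =
        fun z => l * fderiv ℝ φ z.1 z.2 := by
      funext z
      simp only [vs_m]
      rw [map_smul, smul_eq_mul]
    rw [e, integral_const_mul, hμ.closed φ hφ hφp, mul_zero]

lemma vs_rot {μ : Measure (E × E)} (l : ℝ) :
    ∫ z, z.2 ∂(μ.map (vs_m l)) = l • ∫ z : E × E, z.2 ∂μ := by
  rw [vs_int continuous_snd]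
  simp only [vs_m]
  rw [integral_smul]

theorem betaL_sc (hH : HamC b H Hp) {l : ℝ} (hl : 0 < l) (h : E) :
    betaL b (Leg (Hsc l H)) h = betaL b (Leg H) (l • h) / l ^ 2 := by
  have hl2 : 0 < l ^ 2 := by positivity
  have hT := hH.tonL
  have hT' := (hamC_sc hH hl).tonL
  refine le_antisymm ?_ ?_
  · rw [le_div_iff₀ hl2]
    refine le_betaL fun μ hμ hrot => ?_
    have h1 := betaL_le hT' (vs_closed hμ l⁻¹)
    rw [vs_rot, hrot, smul_smul, inv_mul_cancel₀ hl.ne', one_smul, vs_int hT'.cont] at h1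
    have e : (fun z : E × E => Leg (Hsc l H) (vs_m l⁻¹ z)) = fun z => Leg H z / l ^ 2 := by
      funext z
      simp only [vs_m]
      rw [vs_leg hH hl, smul_smul, mul_inv_cancel₀ hl.ne', one_smul]
    rw [e, integral_div, le_div_iff₀ hl2] at h1
    exact h1
  · refine le_betaL fun μ hμ hrot => ?_
    have h1 := betaL_le hT (vs_closed hμ l)
    rw [vs_rot, hrot, vs_int hT.cont] at h1
    have e : (fun z : E × E => Leg (Hsc l H) z) = fun z => Leg H (vs_m l z) / l ^ 2 := by
      funext z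
      simp only [vs_m]
      rw [← vs_leg hH hl]
    have e' : ∫ z, Leg (Hsc l H) z ∂μ = (∫ z, Leg H (vs_m l z) ∂μ) / l ^ 2 := by
      rw [e, integral_div]
    rw [e']
    exact div_le_div_of_nonneg_right h1 hl2.le

theorem diff_sc (hH : HamC b H Hp) (hd : Differentiable ℝ (betaL b (Leg H))) {l : ℝ} (hl : 0 < l) :
    Differentiable ℝ (betaL b (Leg (Hsc l H))) := by
  have e : betaL b (Leg (Hsc l H)) = fun h => betaL b (Leg H) (l • h) / l ^ 2 :=
    funext fun h => betaL_sc hH hl h
  rw [e]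
  have h1 : Differentiable ℝ (fun h : E => l • h) := differentiable_id.const_smul l
  simp only [div_eq_mul_inv]
  exact (hd.comp h1).mul_const _

end

end Pool.Agent.LRT
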