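import Pool.Agent.LRT.VK
import Pool.Agent.LRT.VS
import Pool.Agent.LRT.VA2
import Pool.Agent.LRT.VA3
import Pool.Agent.LRT.VA4

/-! # LRT/VFin: the global theorems from the local theorem LT   (helper45) -/

set_option autoImplicit false

open MeasureTheory Module Set Filter Topology

namespace Pool.Agent.LRT

noncomputable section

/-- the local theorem (proved in LT.lean) -/
def LTst (n : ℕ) : Prop := ∃ (s : ℕ) (ε : ℝ), 0 < ε ∧ ∀ (f : RE n × RE n → ℝ) (Hpt : RE n × RE n → RE n),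
  ContDiff ℝ s f → (∀ p, Pool.H45.Mather.Per (bs n) (fun x => f (x, p))) →
  (∀ j ≤ s, ∀ x p, ‖p‖ ≤ 5 * √n → ‖iteratedFDeriv ℝ j f (x, p)‖ ≤ ε) →
  HamC (bs n) (Hm f) Hpt →
  (∀ h, ‖h‖ < 2 → DifferentiableAt ℝ (betaL (bs n) (Leg (Hm f))) h) →
  ∃ c a u P, LocalSol 1 (Hm f) Hpt 1 c a u P

variable {n : ℕ}

/-- LT at the scale `l` -/
lemma scale_sol {s : ℕ} {ε : ℝ} (h : ∀ (f : RE n × RE n → ℝ) (Hpt : RE n × RE n → RE n),
    ContDiff ℝ s f → (∀ p, Pool.H45.Mather.Per (bs n) (fun x => f (x, p))) →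
    (∀ j ≤ s, ∀ x p, ‖p‖ ≤ 5 * √n → ‖iteratedFDeriv ℝ j f (x, p)‖ ≤ ε) →
    HamC (bs n) (Hm f) Hpt →
    (∀ h, ‖h‖ < 2 → DifferentiableAt ℝ (betaL (bs n) (Leg (Hm f))) h) →
    ∃ c a u P, LocalSol 1 (Hm f) Hpt 1 c a u P)
    {f : RE n × RE n → ℝ} (hf : ContDiff ℝ s f) (hper : ∀ p, Pool.H45.Mather.Per (bs n) (fun x => f (x, p)))
    (hH : HamC (bs n) (Hm f) (Hmp f)) {l : ℝ} (hl : 0 < l)
    (hsm : ∀ j ≤ s, ∀ x p, ‖p‖ ≤ 5 * √n → ‖iteratedFDeriv ℝ j (fsc l f) (x, p)‖ ≤ ε)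
    (hd : ∀ h, ‖h‖ < 2 * l → DifferentiableAt ℝ (betaL (bs n) (Leg (Hm f))) h) :
    ∃ c q, LSol (bs n) (Hsc l (Hm f)) (Hpsc l (Hmp f)) c q := by
  have h1 : HamC (bs n) (Hm (fsc l f)) (Hpsc l (Hmp f)) := by
    rw [← Hsc_Hm l hl f]
    exact hamC_sc hH hl
  obtain ⟨c, a, u, P, hP⟩ := h (fsc l f) (Hpsc l (Hmp f)) (contDiff_fsc hf l) (fun p i x => by
    simp only [fsc, hper (l • p) i x]) hsm h1 (fun y hy => by
    rw [← Hsc_Hm l hl f]
    have h2 : betaL (bs n) (Leg (Hsc l (Hm f))) = fun y => betaL (bs n) (Leg (Hm f)) (l • y) / l ^ 2 := by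
      funext y
      exact betaL_sc hH hl y
    rw [h2]
    have h3 : DifferentiableAt ℝ (betaL (bs n) (Leg (Hm f))) (l • y) := by
      refine hd _ ?_
      rw [norm_smul, Real.norm_eq_abs, abs_of_pos hl]
      nlinarith
    have h4 : DifferentiableAt ℝ (fun y : RE n => betaL (bs n) (Leg (Hm f)) (l • y)) y :=
      DifferentiableAt.comp (f := fun y : RE n => l • y) y h3 (differentiableAt_id.const_smul l)
    have h5 := h4.const_smul ((l ^ 2)⁻¹)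
    have h6 : (fun y : RE n => betaL (bs n) (Leg (Hm f)) (l • y) / l ^ 2) =
        fun y : RE n => (l ^ 2)⁻¹ • betaL (bs n) (Leg (Hm f)) (l • y) := by
      funext y
      rw [smul_eq_mul, div_eq_inv_mul]
    rw [h6]
    exact h5)
  rw [Hsc_Hm l hl f]
  exact ⟨c, _, hP.lsol⟩

lemma contDiff_Hm {s : ℕ} (hs : 2 ≤ s) {f : RE n × RE n → ℝ} (hf : ContDiff ℝ s f) : ContDiff ℝ 2 (Hm f) := by
  have h2 : ContDiff ℝ 2 f := hf.of_le (by exact_mod_cast hs)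
  unfold Hm
  exact ((contDiff_snd.norm_sq ℝ).div_const _).add h2

/-- (A) -/
theorem finA (hLT : LTst n) : ∃ (s : ℕ) (ε : ℝ), 0 < ε ∧ ∀ f : RE n × RE n → ℝ, Small s ε f →
    Differentiable ℝ (betaL (bs n) (Leg (Hm f))) → C0Int (bs n) (Hm f) := by
  obtain ⟨s, ε, hε, h⟩ := hLT
  set κ : ℝ := 5 * √n + 1 with hκ
  have hκ1 : 1 ≤ κ := by
    have := Real.sqrt_nonneg (n : ℝ)
    linarith
  refine ⟨max s 2, min (1 / 4) (ε / κ ^ 2), by positivity, fun f hf hd => ?_⟩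
  have hH := hamC_of_small (le_max_right _ _) (min_le_left _ _) hf
  have hfs : ContDiff ℝ s f := hf.smooth.of_le (by exact_mod_cast le_max_left s 2)
  refine assembly hH (contDiff_Hm (le_max_right s 2) hf.smooth) fun l hl => ?_
  refine scale_sol h hfs hf.per hH (by linarith) (fun j hj x p hp => ?_) (fun y _ => hd y)
  refine (hf.big hl hκ1 j (hj.trans (le_max_left _ _)) x p (by linarith)).trans ?_
  calc κ ^ 2 * min (1 / 4) (ε / κ ^ 2) ≤ κ ^ 2 * (ε / κ ^ 2) :=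
        mul_le_mul_of_nonneg_left (min_le_right _ _) (by positivity)
    _ = ε := by field_simp

/-- (G) -/
theorem finG (hLT : LTst n) : ∃ s : ℕ, ∀ r : ℝ, 1 ≤ r → ∃ ε > 0, ∀ f : RE n × RE n → ℝ, ContDiff ℝ s f →
    (∀ p, Pool.H45.Mather.Per (bs n) (fun x => f (x, p))) →
    (∀ j ≤ s, ∀ x p, ‖p‖ ≤ 10 * √n * r → ‖iteratedFDeriv ℝ j f (x, p)‖ ≤ ε) →
    (∀ x p, ‖iteratedFDeriv ℝ 2 (fun q => f (x, q)) p‖ ≤ 1 / 4) →
    (∀ h, ‖h‖ < 4 * r → DifferentiableAt ℝ (betaL (bs n) (Leg (Hm f))) h) →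
    C0IntOn (bs n) (Hm f) (3 / 2 * r) (6 / 5 * r) := by
  obtain ⟨s, ε, hε, h⟩ := hLT
  refine ⟨max s 2, fun r hr => ⟨ε / (2 * r) ^ s, by positivity, fun f hf hper hsm hpp hd => ?_⟩⟩
  have hf2 : ContDiff ℝ 2 f := hf.of_le (by exact_mod_cast le_max_right s 2)
  have hfs : ContDiff ℝ s f := hf.of_le (by exact_mod_cast le_max_left s 2)
  have hH := hamC_of_fpp hf2 hper hpp
  obtain ⟨c, q, hL⟩ := scale_sol (l := 2 * r) h hfs hper hH (by linarith) (fun j hj x p hp => by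
    refine (bound_fsc hfs (by linarith) hj (hsm j (hj.trans (le_max_left _ _)) x _ ?_)).trans ?_
    · rw [norm_smul, Real.norm_eq_abs, abs_of_nonneg (by linarith)]
      nlinarith
    · exact le_of_eq (by field_simp)) (fun y hy => hd y (by linarith))
  have := assemblyG (contDiff_Hm (le_max_right s 2) hf) (by linarith) hL
  have e1 : 3 / 4 * (2 * r) = 3 / 2 * r := by ring
  have e2 : 3 / 5 * (2 * r) = 6 / 5 * r := by ring
  rwa [e1, e2] at this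

/-- (C) -/
theorem finC (hLT : LTst n) : ∃ s : ℕ, ∀ R₀ : ℝ, 0 ≤ R₀ → ∃ ε > 0, ∀ f : RE n × RE n → ℝ, ContDiff ℝ s f →
    (∀ p, Pool.H45.Mather.Per (bs n) (fun x => f (x, p))) →
    (∀ x p, R₀ < ‖p‖ → f (x, p) = 0) →
    (∀ j ≤ s, ∀ x p, ‖iteratedFDeriv ℝ j f (x, p)‖ ≤ ε) →
    Differentiable ℝ (betaL (bs n) (Leg (Hm f))) → C0Int (bs n) (Hm f) := by
  obtain ⟨s, ε, hε, h⟩ := hLT
  refine ⟨max s 2, fun R₀ hR => ⟨min (1 / 4) (ε / (2 * R₀ + 2) ^ s), by positivity, fun f hf hper hout hsm hd => ?_⟩⟩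
  have hf2 : ContDiff ℝ 2 f := hf.of_le (by exact_mod_cast le_max_right s 2)
  have hfs : ContDiff ℝ s f := hf.of_le (by exact_mod_cast le_max_left s 2)
  have hH := hamC_of_fpp hf2 hper fun x p => fpp_of_full hf2
    ((hsm 2 (le_max_right _ _) x p).trans (min_le_left _ _))
  obtain ⟨c, q, hL⟩ := scale_sol (l := 2 * R₀ + 2) h hfs hper hH (by linarith) (fun j hj x p hp => by
    refine (bound_fsc hfs (by linarith) hj (hsm j (hj.trans (le_max_left _ _)) x _)).trans ?_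
    calc (2 * R₀ + 2) ^ s * min (1 / 4) (ε / (2 * R₀ + 2) ^ s) ≤ (2 * R₀ + 2) ^ s * (ε / (2 * R₀ + 2) ^ s) :=
          mul_le_mul_of_nonneg_left (min_le_right _ _) (by positivity)
      _ = ε := by field_simp) (fun y _ => hd y)
  refine assemblyC hH (contDiff_Hm (le_max_right s 2) hf) hR le_rfl (fun x p hp => ?_) hL
  have hz : ∀ᶠ q in 𝓝 p, f (x, q) = 0 := by
    filter_upwards [(isOpen_lt continuous_const continuous_norm).mem_nhds hp] with q hq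
    exact hout x q hq
  refine ⟨by simp [Hm, hout x p hp], ?_⟩
  have h1 : gradient (fun q => f (x, q)) p = 0 := by
    rw [gradient, (show (fun q => f (x, q)) =ᶠ[𝓝 p] fun _ => (0 : ℝ) from hz).fderiv_eq]
    simp
  simp [Hmp, h1]

end

end Pool.Agent.LRT
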