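import Pool.Agent.LRT.VH
import Pool.Agent.LRT.LS

/-! # LRT/VK: from `LocalSol` to `LSol`   (helper45) -/

set_option autoImplicit false

open MeasureTheory Module Set Filter Topology

namespace Pool.Agent.LRT

noncomputable section

variable {n : ℕ}

lemma bs_apply (i : Fin n) : bs n i = lat (Pi.single i 1) := by
  unfold bs
  rw [OrthonormalBasis.coe_toBasis, EuclideanSpace.basisFun_apply]
  ext j
  rw [lat_apply, EuclideanSpace.single_apply, Pi.single_apply]
  split_ifs <;> simp_all

theorem LocalSol.lsol {H : RE n × RE n → ℝ} {Hp : RE n × RE n → RE n} {c : RE n → RE n} {a : RE n → ℝ}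
    {u : RE n → RE n → ℝ} {P : RE n → RE n → RE n} (h : LocalSol 1 H Hp 1 c a u P) :
    LSol (bs n) H Hp c (fun x w => P w x) := by
  refine ⟨fun w hw => ⟨u w, h.smooth w hw, fun i x => ?_, h.grad w hw⟩, fun w hw => ⟨a w, h.hj w hw⟩, fun x w hw => ?_,
    fun x x' w w' hw hw' => ?_, fun w hw => ?_, fun w w' hw hw' => ?_, fun w hw δ hδ => ?_⟩
  · rw [bs_apply]
    exact h.per w hw x _
  · exact (h.bdP w hw x).trans (by norm_num)
  · have := h.lipP w w' hw hw' x x'
    rwa [one_mul] at this
  · exact (h.bdc w hw).trans (by norm_num)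
  · exact h.lipc w w' hw hw'
  · obtain ⟨X, h1, h2, h3, h4, h5⟩ := h.conj w hw δ hδ
    refine ⟨X, h1, fun i x => ?_, h3, fun t t' => ?_, h5⟩
    · simp only [bs_apply, h2]
      abel
    · exact Convex.norm_image_sub_le_of_norm_fderiv_le (𝕜 := ℝ) (s := univ)
        (fun x _ => h1.differentiable one_ne_zero x) (fun x _ => h4 x) convex_univ (mem_univ _) (mem_univ _)

end

end Pool.Agent.LRT
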