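import Pool.Agent.LRT.VFin
import Pool.Agent.LRT.LT
import Pool.Agent.LRT.E0

/-! # LRT/VLT: the local theorem in the form used by VFin   (helper45) -/

set_option autoImplicit false

open MeasureTheory Module Set Filter Topology

namespace Pool.Agent.LRT

theorem ltst (n : ℕ) (hn : 2 ≤ n) : LTst n := by
  obtain ⟨s, ε, hε, h⟩ := LT n hn
  exact ⟨s, ε, hε, fun f Hpt hf hper hsm hH hd => h f Hpt hf (fun x p k => bs_per' (hper p) x k) hsm hH hd⟩

end Pool.Agent.LRT
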