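import Pool.Agent.LRT.VC
import Pool.Agent.H45.MatherKey

/-! # LRT/VR: the resonance lemma (Lemma R)   (helper45) -/

set_option autoImplicit false

open MeasureTheory Module Set Filter Topology

namespace Pool.Agent.LRT

open Pool.H45.Mather

noncomputable section

set_option linter.unusedSectionVars false
set_option linter.style.haveILetI false

variable {n : ℕ} {E : Type*} [NormedAddCommGroup E] [InnerProductSpace ℝ E] [FiniteDimensional ℝ E]
  [MeasurableSpace E] [BorelSpace E]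

/-- the data of Lemma R -/
structure DatR (b : Basis (Fin n) ℝ E) (L : E × E → ℝ) (k : Fin n → ℤ) (w : E) (e χ fl : E → ℝ) (z : E → E)
    (a C η G e1 fM A : ℝ) : Prop where
  hL : TonL b L
  hC : 1 ≤ C
  hη : 0 ≤ η
  he1 : 0 < e1
  R1 : ∀ x v, L (x, v) ≤ -a - e x + C * ‖v - w - z x‖ ^ 2
  R2 : ∀ x v p, inner ℝ p v ≤ L (x, v) + a + e x + inner ℝ (w + z x) p + C * ‖p‖ ^ 2
  hz : ∀ x, ‖z x‖ ≤ η
  hkw : lin b k w = 0
  hχ : ContDiff ℝ 1 χ
  hχp : Per b χ
  hG : ∀ x, ‖fderiv ℝ χ x‖ ≤ G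
  hfc : Continuous fl
  hfp : Per b fl
  hfl : ∀ x y, lin b k x = lin b k y → fl x = fl y
  he : ∀ x, |e x + fderiv ℝ χ x w - fl x| ≤ e1
  hfM : ∀ x, fl x ≤ fM
  hfM' : ∃ x, fl x = fM
  hA : ∀ x, fM - A ≤ fl x

/-- the error term -/
def er (C η G e1 : ℝ) : ℝ := 3 * e1 + 2 * C * η ^ 2 + η * G + C * G ^ 2

variable {b : Basis (Fin n) ℝ E} {L : E × E → ℝ} {k : Fin n → ℤ} {w : E} {e χ fl : E → ℝ} {z : E → E}
  {a C η G e1 fM A : ℝ}

section
variable (D : DatR b L k w e χ fl z a C η G e1 fM A)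
include D

lemma DatR.G0 : 0 ≤ G := (norm_nonneg _).trans (D.hG 0)

lemma DatR.er_pos : 0 < er C η G e1 := by
  have h1 := D.hC
  have h2 := D.hη
  have h3 := D.he1
  have h4 := D.G0
  unfold er
  positivity

lemma DatR.lower (r : E) : -(a + fM + e1 + η * G + C * G ^ 2) ≤ betaL b L r := by
  have hC := D.hC
  have hsub : SubL L 0 (a + fM + e1 + η * G + C * G ^ 2) χ := by
    intro x v
    set p : E := (InnerProductSpace.toDual ℝ E).symm (fderiv ℝ χ x) with hp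
    have hpv : ∀ v, inner ℝ p v = fderiv ℝ χ x v := by
      intro v
      rw [hp, InnerProductSpace.toDual_symm_apply]
    have hpn : ‖p‖ ≤ G := by
      rw [hp, LinearIsometryEquiv.norm_map]
      exact D.hG x
    have h1 := D.R2 x v p
    have h2 := (abs_le.1 (D.he x)).2
    have h3 := D.hfM x
    have h4 : inner ℝ (z x) p ≤ η * G := (real_inner_le_norm _ _).trans
      (mul_le_mul (D.hz x) hpn (norm_nonneg _) D.hη)
    have h5 : C * ‖p‖ ^ 2 ≤ C * G ^ 2 := mul_le_mul_of_nonneg_left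
      (pow_le_pow_left₀ (norm_nonneg _) hpn 2) (by linarith)
    have h6 : inner ℝ w p = fderiv ℝ χ x w := by rw [real_inner_comm, hpv]
    rw [inner_add_left, h6, hpv] at h1
    rw [inner_zero_left]
    linarith
  have hstar := hsub.star D.hL D.hχ D.hχp
  have := hstar.le_beta r
  rw [inner_zero_left] at this
  linarith

lemma DatR.upper {r : E} (hr : lin b k r = 0) :
    betaL b L r ≤ -a - fM + 2 * e1 + 2 * C * ‖r - w‖ ^ 2 + 2 * C * η ^ 2 := by
  have hC := D.hC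
  have hinv : ∀ {w : E}, lin b k w = 0 → ∀ (τ : ℝ) x, fl (x + τ • w) = fl x := by
    intro w hw τ x
    apply D.hfl
    rw [map_add, map_smul, hw, smul_zero, add_zero]
  set Ψ₀ : E → ℝ := fun x => max 0 (fl x - (fM - e1)) with hΨ₀
  have hc0 : Continuous Ψ₀ := continuous_const.max (D.hfc.sub continuous_const)
  have hp0 : Per b Ψ₀ := D.hfp.comp (fun y => max 0 (y - (fM - e1)))
  have hn0 : ∀ x, 0 ≤ Ψ₀ x := fun x => le_max_left _ _
  obtain ⟨x₀, hx₀⟩ := D.hfM'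
  have hI : 0 < ∫ x, Ψ₀ x ∂(lam b) := by
    refine lam_pos hp0 hc0 hn0 (x₀ := x₀) ?_
    simp only [hΨ₀, hx₀]
    exact lt_of_lt_of_le (by linarith [D.he1] : 0 < fM - (fM - e1)) (le_max_right _ _)
  set N : ℝ := (∫ x, Ψ₀ x ∂(lam b))⁻¹ with hN
  have hN0 : 0 < N := inv_pos.2 hI
  set Ψ : E → ℝ := fun x => N * Ψ₀ x with hΨ
  have hc : Continuous Ψ := continuous_const.mul hc0
  have hp : Per b Ψ := hp0.comp (fun y => N * y)
  have hn : ∀ x, 0 ≤ Ψ x := fun x => mul_nonneg hN0.le (hn0 x)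
  have h1 : ∫ x, Ψ x ∂(lam b) = 1 := by
    simp only [hΨ]
    rw [integral_const_mul, hN, inv_mul_cancel₀ hI.ne']
  have hΨinv : ∀ {w : E}, lin b k w = 0 → ∀ (τ : ℝ) x, Ψ (x + τ • w) = Ψ x := by
    intro w hw τ x
    simp only [hΨ, hΨ₀, hinv hw τ x]
  have hcl := tm_closed hc hp hn h1 (hΨinv hr)
  have hb := betaL_le D.hL hcl
  rw [hom_tm hc hn h1, integral_tm hc hn r D.hL.cont] at hb
  refine hb.trans ?_
  set K : ℝ := -a - fM + 2 * e1 + 2 * C * ‖r - w‖ ^ 2 + 2 * C * η ^ 2 with hK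
  -- pointwise estimate
  have hpt : ∀ x, Ψ x • L (x, r) ≤ Ψ x * K + fderiv ℝ χ x w * Ψ x := by
    intro x
    have e1' : L (x, r) ≤ -a - fl x + e1 + fderiv ℝ χ x w + 2 * C * ‖r - w‖ ^ 2 + 2 * C * η ^ 2 := by
      have h6 := (abs_le.1 (D.he x)).1
      have h7 := D.R1 x r
      have h8 : ‖r - w - z x‖ ^ 2 ≤ 2 * ‖r - w‖ ^ 2 + 2 * η ^ 2 := by
        have h9 : ‖r - w - z x‖ ≤ ‖r - w‖ + η := (norm_sub_le _ _).trans (by linarith [D.hz x])
        have h10 := pow_le_pow_left₀ (norm_nonneg _) h9 2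
        nlinarith [sq_nonneg (‖r - w‖ - η)]
      have h9 : C * ‖r - w - z x‖ ^ 2 ≤ C * (2 * ‖r - w‖ ^ 2 + 2 * η ^ 2) :=
        mul_le_mul_of_nonneg_left h8 (by linarith)
      linarith
    have e2 : Ψ x * (fM - e1) ≤ Ψ x * fl x := by
      rcases le_or_gt (fl x - (fM - e1)) 0 with h | h
      · have : Ψ x = 0 := by
          simp only [hΨ, hΨ₀, max_eq_left h, mul_zero]
        rw [this]
        simp
      · exact mul_le_mul_of_nonneg_left (by linarith) (hn x)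
    have e3 := mul_le_mul_of_nonneg_left e1' (hn x)
    rw [smul_eq_mul]
    rw [hK]
    nlinarith
  have hdc : Continuous (fderiv ℝ χ) := D.hχ.continuous_fderiv one_ne_zero
  have hi1 : Integrable (fun x => Ψ x • L (x, r)) (lam b) := by
    refine Per.integrable (b := b) ?_ ?_
    · intro i x
      simp only [hp i x, D.hL.per r i x]
    · exact hc.smul (D.hL.cont.comp (continuous_id.prodMk continuous_const))
  have hi2 : Integrable (fun x => fderiv ℝ χ x w * Ψ x) (lam b) := by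
    refine Per.integrable (b := b) ?_ ?_
    · intro i x
      simp only [hp i x, D.hχp.fderiv i x]
    · exact (hdc.clm_apply continuous_const).mul hc
  have hi3 : Integrable Ψ (lam b) := hp.integrable hc
  calc ∫ x, Ψ x • L (x, r) ∂(lam b)
      ≤ ∫ x, (Ψ x * K + fderiv ℝ χ x w * Ψ x) ∂(lam b) :=
        integral_mono hi1 ((hi3.mul_const _).add hi2) hpt
    _ = _ := by
        rw [integral_add (hi3.mul_const _) hi2, integral_mul_const, h1,
          inv_lemma D.hχ D.hχp hc hp (hΨinv D.hkw)]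
        ring

lemma DatR.speed {c c₀ : E} {θ α σ : ℝ}
    (hc : c = c₀ + θ • rv b k) (h0 : ‖c₀‖ ^ 2 ≤ 8 * C * er C η G e1)
    (hα : α ≤ inner ℝ c₀ w + a + fM + er C η G e1) {φ : E → ℝ} (hφ : ContDiff ℝ 1 φ)
    (hsub : SubL L c (α + σ) φ) {y : E} (hy : lin b k y = 0) (x : E) :
    fderiv ℝ (fun x => φ x - χ x) x (w + y) ≤ A + 4 * er C η G e1 + σ + 5 * C * ‖y‖ ^ 2 := by
  have hC := D.hC
  have hη := D.hη
  have hG0 := D.G0
  have hd : fderiv ℝ (fun x => φ x - χ x) x = fderiv ℝ φ x - fderiv ℝ χ x := by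
    have := ((hφ.differentiable one_ne_zero x).hasFDerivAt.sub (D.hχ.differentiable one_ne_zero x).hasFDerivAt)
    exact this.fderiv
  rw [hd, sub_apply]
  have h1 := hsub x (w + y)
  have h2 : inner ℝ c (w + y) = inner ℝ c₀ w + inner ℝ c₀ y := by
    rw [hc, inner_add_left, inner_smul_left, inner_rv, map_add, D.hkw, hy, inner_add_right]
    simp
  have h3 := D.R1 x (w + y)
  have h4 : w + y - w - z x = y - z x := by abel
  rw [h4] at h3
  have h5 : ‖y - z x‖ ^ 2 ≤ 2 * ‖y‖ ^ 2 + 2 * η ^ 2 := by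
    have h9 : ‖y - z x‖ ≤ ‖y‖ + η := (norm_sub_le _ _).trans (by linarith [D.hz x])
    have h10 := pow_le_pow_left₀ (norm_nonneg _) h9 2
    nlinarith [sq_nonneg (‖y‖ - η)]
  have h6 : C * ‖y - z x‖ ^ 2 ≤ C * (2 * ‖y‖ ^ 2 + 2 * η ^ 2) :=
    mul_le_mul_of_nonneg_left h5 (by linarith)
  have h7 := (abs_le.1 (D.he x)).1
  have h8 := D.hA x
  have h9 : -(G * ‖y‖) ≤ fderiv ℝ χ x y := by
    have h10 := (fderiv ℝ χ x).le_opNorm y
    rw [Real.norm_eq_abs, abs_le] at h10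
    have h11 := mul_le_mul_of_nonneg_right (D.hG x) (norm_nonneg y)
    linarith [h10.1]
  have h10 : -(‖c₀‖ * ‖y‖) ≤ inner ℝ c₀ y := by
    have := abs_real_inner_le_norm c₀ y
    rw [abs_le] at this
    exact this.1
  rw [map_add, map_add] at *
  rw [h2] at h1
  set Y := ‖y‖ with hY
  have h11 : G * Y ≤ C * Y ^ 2 + C * G ^ 2 / 4 := by
    have h12 := sq_nonneg (Y - G / 2)
    nlinarith [mul_nonneg (by linarith : (0 : ℝ) ≤ C - 1) (sq_nonneg Y), mul_nonneg (by linarith : (0 : ℝ) ≤ C - 1) (sq_nonneg G)]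
  have h12 : ‖c₀‖ * Y ≤ C * Y ^ 2 + 2 * er C η G e1 := by
    have hC0 : 0 < C := by linarith
    have h13 := sq_nonneg (‖c₀‖ - 2 * C * Y)
    have h14 : 4 * C * (‖c₀‖ * Y) ≤ 4 * C * (C * Y ^ 2 + 2 * er C η G e1) := by nlinarith
    exact le_of_mul_le_mul_left h14 (by linarith)
  have h13 : e1 + 2 * C * η ^ 2 + C * G ^ 2 / 4 ≤ er C η G e1 := by
    unfold er
    have := D.he1
    have h14 : 0 ≤ η * G := mul_nonneg hη hG0
    have h15 : 0 ≤ C * G ^ 2 := mul_nonneg (by linarith) (sq_nonneg _)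
    linarith
  have h14 : 0 ≤ C * Y ^ 2 := mul_nonneg (by linarith) (sq_nonneg _)
  linarith

lemma DatR.osc {c c₀ : E} {θ α σ : ℝ}
    (hc : c = c₀ + θ • rv b k) (h0 : ‖c₀‖ ^ 2 ≤ 8 * C * er C η G e1)
    (hα : α ≤ inner ℝ c₀ w + a + fM + er C η G e1) (hσ : 0 < σ) {φ : E → ℝ} (hφ : ContDiff ℝ 1 φ) (hφp : Per b φ)
    (hsub : SubL L c (α + σ) φ) {r₀ T : ℝ}
    (hr1 : r₀ * ‖lin b k‖ < 1) (hT : 0 < T)
    (hdens : ∀ z, lin b k z = 0 → ∃ r, 0 ≤ r ∧ r ≤ T ∧ ∃ m, ‖r • w - z - lat b m‖ ≤ r₀)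
    {x y : E} (hxy : lin b k x = lin b k y) :
    (φ y - χ y) - (φ x - χ x) ≤ 2 * T * (A + 4 * er C η G e1 + σ) + 5 * C * r₀ ^ 2 / T := by
  have hC := D.hC
  obtain ⟨r, hr, hrL, m, hm⟩ := hdens (y - x - T • w) (by
    rw [map_sub, map_sub, map_smul, D.hkw, hxy]; simp)
  set T' : ℝ := T + r with hT'
  have hT0 : T ≤ T' := by linarith
  have hT1 : T' ≤ 2 * T := by linarith
  have hTpos : 0 < T' := by linarith
  set δ : E := y + lat b m - x - T' • w with hδ
  have hδn : ‖δ‖ ≤ r₀ := by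
    have e1 : δ = -(r • w - (y - x - T • w) - lat b m) := by
      rw [hδ, hT', add_smul]
      abel
    rw [e1, norm_neg]
    exact hm
  have hδk : lin b k δ = 0 := by
    have e1 : lin b k δ = ((∑ i, k i * m i : ℤ) : ℝ) := by
      rw [hδ, map_sub, map_sub, map_add, map_smul, D.hkw, hxy, lin_lat]
      simp
    have e2 : |lin b k δ| < 1 := by
      refine lt_of_le_of_lt ?_ hr1
      have := (lin b k).le_opNorm δ
      rw [Real.norm_eq_abs] at this
      refine this.trans ?_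
      rw [mul_comm]
      exact mul_le_mul_of_nonneg_right hδn (norm_nonneg _)
    rw [e1] at e2 ⊢
    have e3 : |(∑ i, k i * m i : ℤ)| < 1 := by exact_mod_cast e2
    have e4 : (∑ i, k i * m i : ℤ) = 0 := Int.abs_lt_one_iff.1 e3
    rw [e4]; simp
  set ζ : E := T'⁻¹ • δ with hζ
  have hζk : lin b k ζ = 0 := by rw [hζ, map_smul, hδk, smul_zero]
  have hsp := fun x => D.speed hc h0 hα hφ hsub hζk x
  have hseg := seg_bound (hφ.sub D.hχ) hsp hTpos.le x
  have hend : x + T' • (w + ζ) = y + lat b m := by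
    rw [smul_add, hζ, smul_inv_smul₀ hTpos.ne', hδ]
    abel
  rw [hend, hφp.add_lat, D.hχp.add_lat] at hseg
  refine hseg.trans ?_
  have hA0 : 0 ≤ A := by
    obtain ⟨x₀, hx₀⟩ := D.hfM'
    have := D.hA x₀
    linarith
  have hC2 : 0 ≤ A + 4 * er C η G e1 + σ := by
    have := D.er_pos
    linarith
  have h5 : T' * (5 * C * ‖ζ‖ ^ 2) ≤ 5 * C * r₀ ^ 2 / T := by
    rw [hζ, norm_smul, Real.norm_eq_abs, abs_of_pos (inv_pos.2 hTpos), mul_pow]
    have h6 : T' * (5 * C * (T'⁻¹ ^ 2 * ‖δ‖ ^ 2)) = 5 * C * ‖δ‖ ^ 2 / T' := by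
      field_simp
    rw [h6]
    have h7 : ‖δ‖ ^ 2 ≤ r₀ ^ 2 := pow_le_pow_left₀ (norm_nonneg _) hδn 2
    have h8 : 5 * C * ‖δ‖ ^ 2 ≤ 5 * C * r₀ ^ 2 := mul_le_mul_of_nonneg_left h7 (by linarith)
    have h9 : 0 ≤ 5 * C * r₀ ^ 2 := mul_nonneg (by linarith) (sq_nonneg _)
    exact div_le_div₀ h9 h8 hT hT0
  rw [mul_add]
  refine add_le_add ?_ h5
  exact mul_le_mul_of_nonneg_right hT1 hC2

/-- **Lemma R** -/
theorem DatR.key {u : Fin n → ℤ} (hu : lin b k (lat b u) = 1) {s₁ wd : ℝ} (hw0 : 0 < wd) (hw1 : wd < 1)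
    (hslab : ∀ x, 0 < Int.fract (lin b k x - s₁) → Int.fract (lin b k x - s₁) < wd → fl x ≤ fM - A / 2)
    {r₀ T : ℝ} (hr1 : r₀ * ‖lin b k‖ < 1) (hT : 0 < T)
    (hdens : ∀ z, lin b k z = 0 → ∃ r, 0 ≤ r ∧ r ≤ T ∧ ∃ m, ‖r • w - z - lat b m‖ ≤ r₀)
    {Bc : ℝ} (hB : ∀ x, |χ x| ≤ Bc) (hsmall : (8 + 48 * C ^ 2) * er C η G e1 ≤ A / 4)
    (hbig : 2 * (3 * Bc + (2 * T * (A + 4 * er C η G e1) + 5 * C * r₀ ^ 2 / T)) <
      √(A / (24 * C)) / ‖rv b k‖ * wd) :
    ¬ DifferentiableAt ℝ (betaL b L) w := by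
  intro hd
  obtain ⟨c, hc1, hc2⟩ := exists_gradL D.hL hd
  have hC := D.hC
  have hC0 : 0 < C := by linarith
  have he := D.er_pos
  have hη := D.hη
  have hG0 := D.G0
  have he1 := D.he1
  set ε := er C η G e1 with hε
  have hk : k ≠ 0 := by
    rintro rfl
    have : lin b (0 : Fin n → ℤ) (lat b u) = 0 := by
      rw [lin_apply]
      simp
    rw [this] at hu
    exact zero_ne_one hu
  have hA0 : 0 < A := by
    have : 0 < (8 + 48 * C ^ 2) * ε := by positivity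
    linarith
  set K := rv b k with hK
  have hKne : K ≠ 0 := by
    intro h0
    have : lin b k (lat b u) = 0 := by rw [← inner_rv, ← hK, h0, inner_zero_left]
    rw [hu] at this
    exact one_ne_zero this
  have hKn : 0 < ‖K‖ := norm_pos_iff.2 hKne
  set θ : ℝ := inner ℝ K c / ‖K‖ ^ 2 with hθ
  set c₀ : E := c - θ • K with hc₀
  have hcc : c = c₀ + θ • K := by rw [hc₀]; abel
  have hKc0 : inner ℝ K c₀ = 0 := by
    rw [hc₀, inner_sub_right, inner_smul_right, real_inner_self_eq_norm_sq, hθ]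
    field_simp
    ring
  have hlc0 : lin b k c₀ = 0 := by rw [← inner_rv]; exact hKc0
  have hKh : inner ℝ K w = 0 := by
    rw [hK, inner_rv, D.hkw]
  have hch : inner ℝ c w = inner ℝ c₀ w := by
    rw [hcc, inner_add_left, inner_smul_left, hKh]
    simp
  set α : ℝ := inner ℝ c w - betaL b L w with hα
  have hstar : StarL b L c α := by
    refine starL_of_le_beta D.hL fun r => ?_
    have := hc1 r
    rw [inner_sub_right] at this
    rw [hα]
    linarith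
  have hlow := D.lower w
  have hup := D.upper (r := w) D.hkw
  rw [sub_self, norm_zero] at hup
  have hCη : 0 ≤ C * η ^ 2 := by positivity
  have hCG : 0 ≤ C * G ^ 2 := by positivity
  have hηG : 0 ≤ η * G := mul_nonneg hη hG0
  have hεdef : ε = 3 * e1 + 2 * C * η ^ 2 + η * G + C * G ^ 2 := rfl
  -- first estimate
  set r : E := w + (1 / (4 * C)) • c₀ with hr
  have hrk : lin b k r = 0 := by
    rw [hr, map_add, map_smul, D.hkw, hlc0]
    simp
  have hup0 := D.upper hrk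
  have hgrad := hc1 r
  have hrw : r - w = (1 / (4 * C)) • c₀ := by rw [hr]; abel
  have hcK : inner ℝ c (r - w) = ‖c₀‖ ^ 2 / (4 * C) := by
    rw [hrw, inner_smul_right, hcc, inner_add_left, inner_smul_left, hKc0, real_inner_self_eq_norm_sq]
    simp
    ring
  have hn2 : ‖r - w‖ ^ 2 = ‖c₀‖ ^ 2 / (16 * C ^ 2) := by
    rw [hrw, norm_smul, mul_pow, Real.norm_eq_abs, sq_abs]
    field_simp
    ring
  rw [hcK] at hgrad
  rw [hn2] at hup0
  have hc02 : ‖c₀‖ ^ 2 ≤ 8 * C * ε := by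
    have h1 : 2 * C * (‖c₀‖ ^ 2 / (16 * C ^ 2)) = ‖c₀‖ ^ 2 / (8 * C) := by
      field_simp
      ring
    rw [h1] at hup0
    have h2 : ‖c₀‖ ^ 2 / (4 * C) = 2 * (‖c₀‖ ^ 2 / (8 * C)) := by
      field_simp
      ring
    rw [h2] at hgrad
    have h3 : ‖c₀‖ ^ 2 / (8 * C) ≤ ε := by
      rw [hεdef]
      linarith
    rw [div_le_iff₀ (by positivity)] at h3
    linarith
  have hα1 : α ≤ inner ℝ c₀ w + a + fM + ε := by
    rw [hα, hch, hεdef]
    linarith
  have hα2 : inner ℝ c₀ w + a + fM - ε ≤ α := by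
    rw [hα, hch, hεdef]
    linarith
  set s0 : ℝ := √(A / (24 * C)) / ‖K‖ with hs0
  have hs0K : (s0 * ‖K‖) ^ 2 = A / (24 * C) := by
    rw [hs0, div_mul_cancel₀ _ hKn.ne', Real.sq_sqrt (by positivity)]
  have hW : ∀ (s : ℝ), s ^ 2 = s0 ^ 2 → ∀ x, 0 < Int.fract (lin b k x - s₁) →
      Int.fract (lin b k x - s₁) < wd → ∀ v, inner ℝ (c₀ + s • rv b k) v +
        fderiv ℝ χ x v ≤ L (x, v) + α := by
    intro s hs x hx0 hx1 v
    set g : E := (InnerProductSpace.toDual ℝ E).symm (fderiv ℝ χ x) with hg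
    have hgv : ∀ v, inner ℝ g v = fderiv ℝ χ x v := by
      intro v
      rw [hg, InnerProductSpace.toDual_symm_apply]
    have hgn : ‖g‖ ≤ G := by
      rw [hg, LinearIsometryEquiv.norm_map]
      exact D.hG x
    set p : E := c₀ + s • K + g with hp
    have h1 := D.R2 x v p
    have h2 : inner ℝ p v = inner ℝ (c₀ + s • rv b k) v + fderiv ℝ χ x v := by
      rw [hp, inner_add_left, hgv, ← hK]
    have h3 : inner ℝ (w + z x) p = inner ℝ c₀ w + fderiv ℝ χ x w + inner ℝ (z x) p := by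
      rw [inner_add_left]
      congr 1
      rw [hp, inner_add_right, inner_add_right, inner_smul_right, real_inner_comm c₀ w, real_inner_comm K w, hKh,
        real_inner_comm g w, hgv]
      simp
    have h4 : inner ℝ (z x) p ≤ η * ‖p‖ := (real_inner_le_norm _ _).trans
      (mul_le_mul_of_nonneg_right (D.hz x) (norm_nonneg _))
    have h5 : ‖p‖ ^ 2 ≤ 3 * (8 * C * ε + A / (24 * C) + G ^ 2) := by
      have h6 : ‖p‖ ≤ ‖c₀‖ + ‖s • K‖ + ‖g‖ := (norm_add_le _ _).trans (add_le_add (norm_add_le _ _) le_rfl)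
      have h7 : ‖s • K‖ ^ 2 = A / (24 * C) := by
        rw [norm_smul, mul_pow, Real.norm_eq_abs, sq_abs, hs, ← mul_pow, hs0K]
      have h8 := pow_le_pow_left₀ (norm_nonneg _) h6 2
      have h9 : ‖g‖ ^ 2 ≤ G ^ 2 := pow_le_pow_left₀ (norm_nonneg _) hgn 2
      nlinarith [sq_nonneg (‖c₀‖ - ‖s • K‖), sq_nonneg (‖c₀‖ - ‖g‖), sq_nonneg (‖s • K‖ - ‖g‖)]
    have h6 : η * ‖p‖ ≤ C * ‖p‖ ^ 2 + C * η ^ 2 := by
      nlinarith [sq_nonneg (‖p‖ - η), mul_nonneg (by linarith : (0 : ℝ) ≤ C - 1) (sq_nonneg ‖p‖),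
        mul_nonneg (by linarith : (0 : ℝ) ≤ C - 1) (sq_nonneg η)]
    have h7 : 2 * (C * ‖p‖ ^ 2) ≤ 48 * C ^ 2 * ε + A / 4 + 6 * C * G ^ 2 := by
      have h8 := mul_le_mul_of_nonneg_left h5 (by positivity : (0 : ℝ) ≤ 2 * C)
      have h9 : 2 * C * (3 * (8 * C * ε + A / (24 * C) + G ^ 2)) =
          48 * C ^ 2 * ε + A / 4 + 6 * C * G ^ 2 := by
        field_simp
        ring
      linarith
    have h8 := (abs_le.1 (D.he x)).2
    have h9 := hslab x hx0 hx1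
    rw [h2, h3] at h1
    have h10 : e1 + C * η ^ 2 + 6 * C * G ^ 2 ≤ 7 * ε := by
      rw [hεdef]
      nlinarith
    have h11 : (8 + 48 * C ^ 2) * ε = 8 * ε + 48 * C ^ 2 * ε := by ring
    linarith
  -- choose sigma
  set gap : ℝ := s0 * wd - 2 * (3 * Bc + (2 * T * (A + 4 * ε) + 5 * C * r₀ ^ 2 / T)) with hgap
  have hgap0 : 0 < gap := by
    have : s0 * wd = √(A / (24 * C)) / ‖rv b k‖ * wd := by rw [hs0, hK]
    rw [hgap, this]
    linarith
  set σ₀ : ℝ := gap / (8 * T) with hσ₀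
  have hσ₀0 : 0 < σ₀ := by positivity
  set E2 : ℝ := 2 * T * (A + 4 * ε + σ₀) + 5 * C * r₀ ^ 2 / T + 2 * Bc with hE2def
  have hE2 : ∀ σ, 0 < σ → σ ≤ σ₀ → ∀ φ : E → ℝ, ContDiff ℝ 1 φ → Per b φ →
      SubL L c (α + σ) φ → ∀ x y, (∃ N : ℤ, lin b k x - lin b k y = N) → φ x - φ y ≤ E2 := by
    rintro σ hσ0 hσ φ hφ hφp hsub x y ⟨N, hN⟩
    have h1 := D.osc hcc hc02 hα1 hσ0 hφ hφp hsub hr1 hT hdens
      (x := y + lat b (fun i => N * u i)) (y := x) (by
        rw [map_add]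
        have : lin b k (lat b (fun i => N * u i)) = N := by
          rw [lin_lat] at hu ⊢
          have : (∑ i, k i * (N * u i) : ℤ) = N * ∑ i, k i * u i := by
            rw [Finset.mul_sum]
            exact Finset.sum_congr rfl fun i _ => by ring
          rw [this]
          push_cast at hu ⊢
          rw [hu, mul_one]
        rw [this]
        linarith)
    rw [hφp.add_lat, D.hχp.add_lat] at h1
    have h2 := (abs_le.1 (hB x)).2
    have h3 := (abs_le.1 (hB y)).1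
    have h4 : 2 * T * (A + 4 * ε + σ) ≤ 2 * T * (A + 4 * ε + σ₀) :=
      mul_le_mul_of_nonneg_left (by linarith) (by positivity)
    rw [hE2def]
    linarith
  obtain ⟨δ, hδ, hstar'⟩ := coreL D.hL hk (c₀ := c₀) (θ := θ) hcc hstar
    (χ := χ) D.hχ D.hχp (E₁ := Bc) hB
    (s₁ := s₁) (w := wd) (a := s0) hw0 hw1 (hW s0 rfl) (hW (-s0) (by ring)) hσ₀0 hE2 (by
      have h1 : 2 * T * (A + 4 * ε + σ₀) = 2 * T * (A + 4 * ε) + gap / 4 := by
        rw [hσ₀]
        field_simp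
        ring
      rw [hE2def, h1]
      linarith)
  have heq := hc2 (c + δ • K) fun r => by
    have h1 := hstar'.le_beta r
    rw [inner_sub_right]
    have h2 : inner ℝ (c + δ • K) w = inner ℝ c w := by
      rw [inner_add_left, inner_smul_left, hKh]
      simp
    rw [h2]
    rw [hα] at h1
    linarith
  have : δ • K = 0 := by
    have := congrArg (fun z => z - c) heq
    simpa using this
  rcases smul_eq_zero.1 this with h | h
  · exact hδ h
  · exact hKne h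

end

end

end Pool.Agent.LRT
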