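import Pool.Agent.LRT.VLT
import Pool.Agent.LRT.K1

/-! # LRT/VStm: definitions for the statements of the results   (helper45) -/

set_option autoImplicit false

open MeasureTheory Module Set Filter Topology

namespace Pool.Agent.LRT

noncomputable section

variable {n : ℕ}

/-- `F` is `C^s` and its derivatives of order at most `s` have norm at most `ε` on `U` -/
def CsOn {X V : Type*} [NormedAddCommGroup X] [NormedSpace ℝ X] [NormedAddCommGroup V] [NormedSpace ℝ V]
    (s : ℕ) (ε : ℝ) (U : Set X) (F : X → V) : Prop :=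
  ContDiff ℝ s F ∧ ∀ j ≤ s, ∀ x ∈ U, ‖iteratedFDeriv ℝ j F x‖ ≤ ε

/-- Mather's beta function of the Lagrangian of `H`, on the torus `ℝⁿ/ℤⁿ` -/
def betaH (H : RE n × RE n → ℝ) (h : RE n) : ℝ := betaL (bs n) (Leg H) h

/-- `f (x, p)` is `ℤⁿ`-periodic in `x` -/
def PerT (f : RE n × RE n → ℝ) : Prop := ∀ p, Pool.H45.Mather.Per (bs n) (fun x => f (x, p))

/-- the operator valued function `h` is `C^s` and its derivatives of order at most `s` have norm at most `ε` -/
def CsOp (s : ℕ) (ε : ℝ) (h : RE n → RE n →L[ℝ] RE n) : Prop := CsOn s ε univ h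

/-- the second derivative of `f` with respect to `p` has norm at most `c` everywhere -/
def FppLe (c : ℝ) (f : RE n × RE n → ℝ) : Prop :=
  ∀ x p, ‖iteratedFDeriv ℝ 2 (fun q => f (x, q)) p‖ ≤ c

/-- the coefficients `h, A, V` are `ℤⁿ`-periodic -/
def PerQ (h : RE n → RE n →L[ℝ] RE n) (A : RE n → RE n) (V : RE n → ℝ) : Prop :=
  Pool.H45.Mather.Per (bs n) h ∧ Pool.H45.Mather.Per (bs n) A ∧ Pool.H45.Mather.Per (bs n) V

end

end Pool.Agent.LRT
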