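import Pool.Agent.LRT.VDe2

/-!
VT1 (difficulty 2).  Push-forward of closed measures by the tangent map.

`E` Euclidean with basis `b`; `Per b F` = `F` is periodic for the lattice generated by `b`;
`IsClosedMeasure b μ` (see Pool/Agent/H45/MatherDefs.lean): probability on `E × E`, `‖z.2‖ ≤ R` a.e., and
`∫ fderiv ℝ φ z.1 z.2 ∂μ = 0` for all `C¹` periodic `φ`.  Integrability: `IsClosedMeasure.integrable`,
`IsClosedMeasure.int_snd`, `IsClosedMeasure.int_fderiv` (Pool/Agent/H45/MatherBeta.lean).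

PROOF.  `tg X` is continuous (`fderiv ℝ X` continuous), hence measurable; `integral_map` (integral_tg: also true
for non-integrable `F`, `integral_map` needs only `AEStronglyMeasurable`; for `IsClosedMeasure` of the map use
`ae_map_iff` with the closed set `{z | ‖z.2‖ ≤ 2R}`).  Closedness: for `φ` `C¹` periodic,
`fderiv ℝ φ (X x) (fderiv ℝ X x v) = fderiv ℝ (φ ∘ X) x v` (chain rule) and `φ ∘ X` is `C¹`, periodic because
`X (x + b i) = X x + b i` (from `pX`).  hom_tg: for every `c`, `inner ℝ c (∫ fderiv ℝ X z.1 z.2 ∂μ) =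
∫ inner ℝ c (fderiv ℝ X z.1 z.2) ∂μ = ∫ inner ℝ c z.2 ∂μ + ∫ fderiv ℝ φ z.1 z.2 ∂μ`, with
`φ x = inner ℝ c (X x - x)`, `C¹` periodic; use `ext_inner_left` / `integral_inner`.
-/

set_option autoImplicit false

open MeasureTheory Module Set Filter Topology

namespace Pool.Agent.LRT

open Pool.H45.Mather

noncomputable section

set_option linter.unusedSectionVars false
set_option linter.style.haveILetI false

variable {n : ℕ} {E : Type*} [NormedAddCommGroup E] [InnerProductSpace ℝ E] [FiniteDimensional ℝ E]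
  [MeasurableSpace E] [BorelSpace E] {b : Basis (Fin n) ℝ E}

omit [MeasurableSpace E] [BorelSpace E] in
lemma continuous_tg {X : E → E} (hX : ContDiff ℝ 1 X) : Continuous (tg X) := by
  have hdc : Continuous (fderiv ℝ X) := hX.continuous_fderiv one_ne_zero
  exact (hX.continuous.comp continuous_fst).prodMk
    ((hdc.comp continuous_fst).clm_apply continuous_snd)

omit [FiniteDimensional ℝ E] [MeasurableSpace E] [BorelSpace E] in
lemma vt1_chain {X : E → E} (hX : ContDiff ℝ 1 X) {φ : E → ℝ} (hφ : ContDiff ℝ 1 φ) (x v : E) :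
    fderiv ℝ φ (X x) (fderiv ℝ X x v) = fderiv ℝ (φ ∘ X) x v := by
  have h1 : HasFDerivAt X (fderiv ℝ X x) x := (hX.differentiable one_ne_zero x).hasFDerivAt
  have h2 : HasFDerivAt φ (fderiv ℝ φ (X x)) (X x) :=
    (hφ.differentiable one_ne_zero _).hasFDerivAt
  rw [(h2.comp x h1).fderiv]
  rfl

omit [FiniteDimensional ℝ E] [MeasurableSpace E] [BorelSpace E] in
lemma vt1_shift {X : E → E} (pX : Per b (fun x => X x - x)) (i : Fin n) (x : E) :
    X (x + b i) = X x + b i := by
  have h := pX i x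
  simp only at h
  rw [sub_eq_iff_eq_add] at h
  rw [h]
  abel

theorem integral_tg {X : E → E} (hX : ContDiff ℝ 1 X) (μ : Measure (E × E)) {F : E × E → ℝ}
    (hF : Continuous F) : ∫ z, F z ∂(μ.map (tg X)) = ∫ z, F (tg X z) ∂μ := by
  rw [integral_map (continuous_tg hX).aemeasurable hF.aestronglyMeasurable]

theorem closed_tg {X : E → E} (hX : ContDiff ℝ 1 X) (pX : Per b (fun x => X x - x))
    (nX : ∀ x v, ‖fderiv ℝ X x v‖ ≤ 2 * ‖v‖) {μ : Measure (E × E)} (hμ : IsClosedMeasure b μ) :
    IsClosedMeasure b (μ.map (tg X)) := by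
  haveI := hμ.prob
  refine ⟨Measure.isProbabilityMeasure_map (continuous_tg hX).aemeasurable, ?_, ?_⟩
  · obtain ⟨R, hR⟩ := hμ.bdd
    refine ⟨2 * R, ?_⟩
    rw [ae_map_iff (continuous_tg hX).aemeasurable
      (measurableSet_le (by fun_prop) (by fun_prop))]
    filter_upwards [hR] with z hz
    exact (nX z.1 z.2).trans (by linarith)
  · intro φ hφ hφp
    have hdc : Continuous (fderiv ℝ φ) := hφ.continuous_fderiv one_ne_zero
    rw [integral_tg hX μ (F := fun z : E × E => fderiv ℝ φ z.1 z.2)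
      ((hdc.comp continuous_fst).clm_apply continuous_snd)]
    have h1 : Per b (φ ∘ X) := by
      intro i x
      simp only [Function.comp_apply]
      rw [vt1_shift pX, hφp]
    rw [← hμ.closed (φ ∘ X) (hφ.comp hX) h1]
    refine integral_congr_ae (Eventually.of_forall fun z => ?_)
    exact vt1_chain hX hφ z.1 z.2

theorem hom_tg {X : E → E} (hX : ContDiff ℝ 1 X) (pX : Per b (fun x => X x - x))
    (nX : ∀ x v, ‖fderiv ℝ X x v‖ ≤ 2 * ‖v‖) {μ : Measure (E × E)} (hμ : IsClosedMeasure b μ) :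
    ∫ z, z.2 ∂(μ.map (tg X)) = ∫ z, z.2 ∂μ := by
  refine ext_inner_left ℝ fun c => ?_
  have hcl := closed_tg hX pX nX hμ
  rw [← integral_inner hcl.int_snd, ← integral_inner hμ.int_snd,
    integral_tg hX μ (F := fun z : E × E => inner ℝ c z.2) (by fun_prop)]
  obtain ⟨φ, hφ⟩ : ∃ φ : E → ℝ, φ = fun x => inner ℝ c (X x - x) := ⟨_, rfl⟩
  have hφc : ContDiff ℝ 1 φ := by
    rw [hφ]
    exact contDiff_const.inner ℝ (hX.sub contDiff_id)
  have hφp : Per b φ := by
    intro i x
    rw [hφ]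
    simp only
    rw [vt1_shift pX]
    congr 1
    abel
  have hφd : ∀ x v, fderiv ℝ φ x v = inner ℝ c (fderiv ℝ X x v) - inner ℝ c v := by
    intro x v
    have h1 : HasFDerivAt (fun x => X x - x) (fderiv ℝ X x - ContinuousLinearMap.id ℝ E) x :=
      (hX.differentiable one_ne_zero x).hasFDerivAt.sub (hasFDerivAt_id x)
    have h2 : HasFDerivAt φ ((innerSL ℝ c).comp (fderiv ℝ X x - ContinuousLinearMap.id ℝ E)) x := by
      rw [hφ]
      exact (innerSL ℝ c).hasFDerivAt.comp x h1
    rw [h2.fderiv]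
    simp
  have h3 := hμ.closed φ hφc hφp
  have h4 : ∀ z : E × E, inner ℝ c (tg X z).2 = inner ℝ c z.2 + fderiv ℝ φ z.1 z.2 := by
    intro z
    rw [hφd]
    simp only [tg]
    ring
  simp_rw [h4]
  rw [integral_add (hμ.int_snd.const_inner c) (hμ.int_fderiv hφc hφp), h3, add_zero]

end

end Pool.Agent.LRT
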