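import Pool.Agent.LRT.VT1

/-!
VT2 (difficulty 2).  The beta function of the transported Lagrangian.

`TonL b L` (LRT/VDefs): continuous, periodic, convex and superlinear in `v`.  `betaL b L h` = infimum of `∫ L ∂μ`
over closed measures with rotation vector `∫ z.2 ∂μ = h`.  `Ltr L c u X (t,v) = L (X t, DX v) - c·DX v - du (X t)(DX v)`,
`DX = fderiv ℝ X t`.  `TrD b Θ X` (LRT/VDe2): inverse `C¹` diffeomorphisms, displacement periodic, derivatives `≤ 2`.

PROOF.  (tonL_tr)  Continuity: `tg X` continuous, `u` is `C¹`.  Periodicity: `X (t + b i) = X t + b i`,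
`fderiv ℝ X (t + b i) = fderiv ℝ X t` (derivative of the periodic `X - id`; `Per.fderiv` is stated for real
functions, prove the vector version in the same way with `fderiv_comp_add_right`), `Per.fderiv` for `u`.
Convexity: `v ↦ L (X t, DX v)` is convex composed with a linear map; minus linear functions of `v`.
Superlinearity: `v = fderiv ℝ Θ (X t) (DX v)` (chain rule for `Θ ∘ X = id`) so `‖v‖ ≤ 2‖DX v‖`; let `U` bound
`‖fderiv ℝ u‖` (`Per.bdd`); with `A' = 2|A| + ‖c‖ + U` and `B'` from `hL.sup A'`: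
`L' ≥ A'‖DX v‖ - B' - (‖c‖ + U)‖DX v‖ ≥ 2|A|‖DX v‖ - B' ≥ |A|‖v‖ - B' ≥ A‖v‖ - B'`.
(tg_tg) `tg X (tg Θ z) = z` and `tg Θ (tg X z) = z`: chain rule for `X ∘ Θ = id`, `Θ ∘ X = id`.
(betaL_tr)  The two sets whose infima are compared are translates of each other by `-inner ℝ c h`: for a closed
`ν` with `∫ z.2 ∂ν = h`, `μ = ν.map (tg X)` is closed with the same rotation vector and
`∫ Ltr ∂ν = ∫ L ∂μ - inner ℝ c h - 0` (integral_tg, closedness of `μ` applied to `u`); conversely for a closed
`μ`, `ν = μ.map (tg Θ)` satisfies `ν.map (tg X) = μ` (`Measure.map_map`, tg_tg).  Then `sInf (S + {-r}) = sInf S - r`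
(e.g. prove both inequalities with le_betaL and betaL_le of LRT/VB: for every closed `ν` with rotation `h`:
`betaL b L h - inner ℝ c h ≤ ∫ Ltr ∂ν`; for every closed `μ` with rotation `h`:
`betaL b Ltr h + inner ℝ c h ≤ ∫ L ∂μ`).
(diff_tr) `betaL b (Ltr ..) = fun h => betaL b L h - inner ℝ c h`.
-/

set_option autoImplicit false

open MeasureTheory Module Set Filter Topology

namespace Pool.Agent.LRT

open Pool.H45.Mather

noncomputable section

set_option linter.unusedSectionVars false
set_option linter.style.haveILetI false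

variable {n : ℕ} {E : Type*} [NormedAddCommGroup E] [InnerProductSpace ℝ E] [FiniteDimensional ℝ E]
  [MeasurableSpace E] [BorelSpace E] {b : Basis (Fin n) ℝ E}

variable {L : E × E → ℝ} {Θ X : E → E}

omit [FiniteDimensional ℝ E] [MeasurableSpace E] [BorelSpace E] in
lemma vt2_fd {X : E → E} (pX : Per b (fun x => X x - x)) (i : Fin n) (x : E) :
    fderiv ℝ X (x + b i) = fderiv ℝ X x := by
  have h1 : (fun y => X (y + b i)) = fun y => X y + b i := funext fun y => vt1_shift pX i y
  have h2 := fderiv_comp_add_right (𝕜 := ℝ) (f := X) (x := x) (b i)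
  rw [h1, fderiv_add_const] at h2
  exact h2.symm

omit [FiniteDimensional ℝ E] [MeasurableSpace E] [BorelSpace E] in
lemma vt2_tg (hT : TrD b Θ X) (z : E × E) : tg Θ (tg X z) = z := by
  have h1 : HasFDerivAt X (fderiv ℝ X z.1) z.1 :=
    (hT.hX.differentiable one_ne_zero _).hasFDerivAt
  have h2 : HasFDerivAt Θ (fderiv ℝ Θ (X z.1)) (X z.1) :=
    (hT.hΘ.differentiable one_ne_zero _).hasFDerivAt
  have h3 := h2.comp z.1 h1
  have h4 : Θ ∘ X = id := funext hT.ΘX
  rw [h4] at h3
  have h5 := h3.unique (hasFDerivAt_id z.1)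
  have h6 := congrArg (fun l : E →L[ℝ] E => l z.2) h5
  simp only [ContinuousLinearMap.comp_apply, ContinuousLinearMap.id_apply] at h6
  simp only [tg]
  rw [hT.ΘX, h6]

omit [MeasurableSpace E] [BorelSpace E] in
theorem tonL_tr (hL : TonL b L) (hT : TrD b Θ X) (c : E) {u : E → ℝ} (hu : ContDiff ℝ 1 u)
    (hup : Per b u) : TonL b (Ltr L c u X) := by
  have hdc : Continuous (fderiv ℝ u) := hu.continuous_fderiv one_ne_zero
  have htg := continuous_tg hT.hX
  refine ⟨?_, ?_, ?_, ?_⟩
  · unfold Ltr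
    have h1 : Continuous fun z : E × E => L (tg X z) := hL.cont.comp htg
    have h2 : Continuous fun z : E × E => inner ℝ c (tg X z).2 :=
      continuous_const.inner (continuous_snd.comp htg)
    have h3 : Continuous fun z : E × E => fderiv ℝ u (tg X z).1 (tg X z).2 :=
      (hdc.comp (continuous_fst.comp htg)).clm_apply (continuous_snd.comp htg)
    exact (h1.sub h2).sub h3
  · intro v i x
    simp only [Ltr, tg]
    rw [vt1_shift hT.pX, vt2_fd hT.pX, hup.fderiv i (X x)]
    have := hL.per (fderiv ℝ X x v) i (X x)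
    simp only at this
    rw [this]
  · intro x
    refine ⟨convex_univ, fun v _ w _ s t hs ht hst => ?_⟩
    have h1 := (hL.conv (X x)).2 (mem_univ (fderiv ℝ X x v)) (mem_univ (fderiv ℝ X x w)) hs ht hst
    simp only [smul_eq_mul] at h1
    simp only [Ltr, tg, map_add, map_smul, inner_add_right, inner_smul_right, smul_eq_mul]
    linarith
  · intro A
    obtain ⟨U, hU0, hU⟩ := hup.fderiv.bdd hdc
    obtain ⟨B, hB⟩ := hL.sup (2 * |A| + ‖c‖ + U)
    refine ⟨B, fun x v => ?_⟩
    obtain ⟨w, hw⟩ : ∃ w, w = fderiv ℝ X x v := ⟨_, rfl⟩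
    have h1 : ‖v‖ ≤ 2 * ‖w‖ := by
      have h2 := congrArg Prod.snd (vt2_tg hT (x, v))
      simp only [tg] at h2
      rw [← hw] at h2
      have h3 := hT.nΘ (X x) w
      rw [h2] at h3
      exact h3
    have h4 := hB (X x) w
    have h5 : inner ℝ c w ≤ ‖c‖ * ‖w‖ := real_inner_le_norm c w
    have h6 : fderiv ℝ u (X x) w ≤ U * ‖w‖ := by
      refine (le_abs_self _).trans ?_
      rw [← Real.norm_eq_abs]
      exact (ContinuousLinearMap.le_opNorm _ _).trans
        (mul_le_mul_of_nonneg_right (hU _) (norm_nonneg _))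
    have h7 : A * ‖v‖ ≤ |A| * (2 * ‖w‖) :=
      (mul_le_mul_of_nonneg_right (le_abs_self A) (norm_nonneg _)).trans
        (mul_le_mul_of_nonneg_left h1 (abs_nonneg _))
    simp only [Ltr, tg]
    rw [← hw]
    linarith

lemma vt2_int (hL : TonL b L) (hT : TrD b Θ X) (c : E) {u : E → ℝ} (hu : ContDiff ℝ 1 u)
    (hup : Per b u) {ν : Measure (E × E)} (hν : IsClosedMeasure b ν) :
    ∫ z, Ltr L c u X z ∂ν = ∫ z, L z ∂(ν.map (tg X)) - inner ℝ c (∫ z, z.2 ∂ν) := by
  have hdc : Continuous (fderiv ℝ u) := hu.continuous_fderiv one_ne_zero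
  have hcl := closed_tg hT.hX hT.pX hT.nX hν
  have hF : Continuous fun z : E × E => L z - inner ℝ c z.2 - fderiv ℝ u z.1 z.2 :=
    (hL.cont.sub (continuous_const.inner continuous_snd)).sub
      ((hdc.comp continuous_fst).clm_apply continuous_snd)
  have h1 := integral_tg hT.hX ν hF
  have h2 : ∫ z, Ltr L c u X z ∂ν =
      ∫ z, (fun z : E × E => L z - inner ℝ c z.2 - fderiv ℝ u z.1 z.2) (tg X z) ∂ν := rfl
  have hi1 : Integrable (fun z : E × E => L z - inner ℝ c z.2) (ν.map (tg X)) :=
    (hL.int hcl).sub (hcl.int_snd.const_inner c)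
  rw [h2, ← h1, integral_sub hi1
    (hcl.int_fderiv hu hup), integral_sub (hL.int hcl) (hcl.int_snd.const_inner c),
    hcl.closed u hu hup, sub_zero, integral_inner hcl.int_snd, hom_tg hT.hX hT.pX hT.nX hν]

theorem betaL_tr (hL : TonL b L) (hT : TrD b Θ X) (c : E) {u : E → ℝ} (hu : ContDiff ℝ 1 u)
    (hup : Per b u) (h : E) : betaL b (Ltr L c u X) h = betaL b L h - inner ℝ c h := by
  refine le_antisymm ?_ ?_
  · have h1 : betaL b (Ltr L c u X) h + inner ℝ c h ≤ betaL b L h := by
      refine le_betaL fun μ hμ hr => ?_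
      have hν := closed_tg hT.hΘ hT.pΘ hT.nΘ hμ
      have h2 := betaL_le (tonL_tr hL hT c hu hup) hν
      have h3 : (μ.map (tg Θ)).map (tg X) = μ := by
        rw [Measure.map_map (continuous_tg hT.hX).measurable (continuous_tg hT.hΘ).measurable]
        have : tg X ∘ tg Θ = id := funext fun z => vt2_tg hT.symm z
        rw [this, Measure.map_id]
      rw [vt2_int hL hT c hu hup hν, h3, hom_tg hT.hΘ hT.pΘ hT.nΘ hμ, hr] at h2
      linarith
    linarith
  · refine le_betaL fun ν hν hr => ?_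
    rw [vt2_int hL hT c hu hup hν, hr]
    have h2 := betaL_le hL (closed_tg hT.hX hT.pX hT.nX hν)
    rw [hom_tg hT.hX hT.pX hT.nX hν, hr] at h2
    linarith

theorem diff_tr (hL : TonL b L) (hT : TrD b Θ X) (c : E) {u : E → ℝ} (hu : ContDiff ℝ 1 u)
    (hup : Per b u) {w : E} (hd : DifferentiableAt ℝ (betaL b L) w) :
    DifferentiableAt ℝ (betaL b (Ltr L c u X)) w := by
  have h1 : betaL b (Ltr L c u X) = fun h => betaL b L h - inner ℝ c h :=
    funext fun h => betaL_tr hL hT c hu hup h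
  rw [h1]
  exact hd.sub (innerSL ℝ c).differentiableAt

end

end Pool.Agent.LRT
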