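import Pool.Agent.LRT.VDe2

/-!
VU (difficulty 4).  Uniqueness of the invariant graph in a given cohomology class.

`lam b` = normalised Lebesgue measure of a cell (Pool/Agent/H45/MatherMeas.lean), a probability measure; `int_fderiv`:
`∫ fderiv ℝ φ x w ∂(lam b) = 0` for `φ` `C¹` periodic; `Per.integrable`; `lam_pos`; `lam_trans` (translation invariance for
continuous periodic functions: see its statement).

PROOF.  Let `ψ = φ₁ - φ₂` (`C¹`, periodic); `inner ℝ (P₁ x - P₂ x) v = fderiv ψ x v`, so `y x := P₁ x - P₂ x` is the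
gradient of `ψ`; it is continuous and periodic (`fderiv ψ` is).
(1) At a maximum `x₀` of `ψ` (`Per.exists_max`), `fderiv ψ x₀ = 0` so `P₁ x₀ = P₂ x₀`, `a₁ = H (x₀, P₁ x₀) = a₂`.
(2) `low` at `p = P₂ x`, `q = y x`: `0 = a₁ - a₂ ≥ ⟨Hp (x, P₂ x), y x⟩ + ‖y x‖²/4`.
(3) Given `δ > 0` and `X`: `ψ ∘ X` is `C¹` periodic, so `∫ ⟨y (X t), fderiv X t w⟩ ∂lam = ∫ fderiv (ψ ∘ X) t w ∂lam = 0`.
With `U` a bound for `‖y‖`, pointwise `‖y (X t)‖²/4 ≤ -⟨Hp (X t, P₂ (X t)), y (X t)⟩ ≤ -⟨fderiv X t w, y (X t)⟩ + δ U =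
- fderiv (ψ ∘ X) t w + δ U`; integrate: `∫ ‖y (X t)‖² ∂lam ≤ 4 δ U` (no integrability of `Hp` needed).
(4) Suppose `y x₁ ≠ 0`, let `η = ‖y x₁‖² > 0`.  By uniform continuity choose `r > 0` (independent of `δ`) with
`‖y x‖² ≥ η/2` for `‖x - x₁‖ ≤ 2 r` .  For `X` as above pick `t₁` with `X t₁ = x₁` (surjective); for `‖t - t₁‖ ≤ r`,
`‖X t - x₁‖ ≤ 2 r`, so `‖y (X t)‖² ≥ η/2` there.  Hence `∫ ‖y (X t)‖² ∂lam ≥ (η/2) κ` with `κ > 0` depending only on `r`:
compare with a fixed bump: let `ζ` be continuous periodic, `0 ≤ ζ ≤ 1`, `ζ = 0` outside the lattice translates of the ball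
`B(0,r)`, `ζ 0 > 0` (for instance `ζ x = max 0 (1 - infDist x Λ / r)`, `Λ` = lattice, or the periodisation used elsewhere;
or: choose `r` and use the measure `lam` of the image set directly); `‖y (X t)‖² ≥ (η/2) ζ (t - t₁)` because both sides are
periodic in `t`; `∫ ζ (t - t₁) ∂lam = ∫ ζ ∂lam =: κ > 0` (`lam_trans`, `lam_pos`).  With `δ` so small that `4 δ U < η κ / 2`:
contradiction.
-/

set_option autoImplicit false

open MeasureTheory Module Set Filter Topology

namespace Pool.Agent.LRT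

open Pool.H45.Mather

noncomputable section

set_option linter.unusedSectionVars false
set_option linter.style.haveILetI false

variable {n : ℕ} {E : Type*} [NormedAddCommGroup E] [InnerProductSpace ℝ E] [FiniteDimensional ℝ E]
  [MeasurableSpace E] [BorelSpace E] {b : Basis (Fin n) ℝ E}

variable {H : E × E → ℝ} {Hp : E × E → E}

/-- a periodic bump function around the lattice -/
def vu_bump (b : Basis (Fin n) ℝ E) (r : ℝ) (x : E) : ℝ :=
  max 0 (1 - Metric.infDist x (Submodule.span ℤ (Set.range b) : Set E) / r)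

omit [FiniteDimensional ℝ E] [MeasurableSpace E] [BorelSpace E] in
theorem vu_bump_per (r : ℝ) : Per b (vu_bump b r) := by
  intro i x
  unfold vu_bump
  have h : Metric.infDist (x + b i) (Submodule.span ℤ (Set.range b) : Set E) =
      Metric.infDist x (Submodule.span ℤ (Set.range b) : Set E) := by
    have hb : b i ∈ Submodule.span ℤ (Set.range b) := Submodule.subset_span ⟨i, rfl⟩
    have hne : (Submodule.span ℤ (Set.range b) : Set E).Nonempty := ⟨0, Submodule.zero_mem _⟩
    apply le_antisymm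
    · refine le_of_forall_pos_le_add fun ε hε => ?_
      obtain ⟨y, hy, hxy⟩ := (Metric.infDist_lt_iff hne).mp
        (lt_add_of_pos_right (Metric.infDist x (Submodule.span ℤ (Set.range b) : Set E)) hε)
      have h1 : Metric.infDist (x + b i) (Submodule.span ℤ (Set.range b) : Set E) ≤
          dist (x + b i) (y + b i) :=
        Metric.infDist_le_dist_of_mem (Submodule.add_mem _ hy hb)
      rw [dist_add_right] at h1
      linarith
    · refine le_of_forall_pos_le_add fun ε hε => ?_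
      obtain ⟨y, hy, hxy⟩ := (Metric.infDist_lt_iff hne).mp
        (lt_add_of_pos_right (Metric.infDist (x + b i) (Submodule.span ℤ (Set.range b) : Set E)) hε)
      have h1 : Metric.infDist x (Submodule.span ℤ (Set.range b) : Set E) ≤
          dist x (y - b i) :=
        Metric.infDist_le_dist_of_mem (Submodule.sub_mem _ hy hb)
      have h2 : dist x (y - b i) = dist (x + b i) y := by
        rw [dist_eq_norm, dist_eq_norm]
        congr 1
        abel
      rw [h2] at h1
      linarith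
  rw [h]

omit [FiniteDimensional ℝ E] [MeasurableSpace E] [BorelSpace E] in
theorem vu_bump_cont (r : ℝ) : Continuous (vu_bump b r) := by
  unfold vu_bump
  exact continuous_const.max (continuous_const.sub ((Metric.continuous_infDist_pt _).div_const r))

omit [FiniteDimensional ℝ E] [MeasurableSpace E] [BorelSpace E] in
theorem vu_bump_zero (r : ℝ) : vu_bump b r 0 = 1 := by
  unfold vu_bump
  rw [Metric.infDist_zero_of_mem (Submodule.zero_mem _)]
  simp

omit [FiniteDimensional ℝ E] [MeasurableSpace E] [BorelSpace E] in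
theorem vu_bump_nonneg (r : ℝ) (x : E) : 0 ≤ vu_bump b r x := le_max_left _ _

omit [FiniteDimensional ℝ E] [MeasurableSpace E] [BorelSpace E] in
theorem vu_bump_le {r : ℝ} (hr : 0 < r) (x : E) : vu_bump b r x ≤ 1 := by
  unfold vu_bump
  refine max_le zero_le_one ?_
  have := Metric.infDist_nonneg (x := x) (s := (Submodule.span ℤ (Set.range b) : Set E))
  have := div_nonneg this hr.le
  linarith

omit [FiniteDimensional ℝ E] [MeasurableSpace E] [BorelSpace E] in
/-- a periodic function which is large near `0` dominates the bump -/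
theorem vu_bump_dom {r : ℝ} (hr : 0 < r) {F : E → ℝ} (hF : Per b F) (h0 : ∀ x, 0 ≤ F x) {a : ℝ}
    (ha : 0 ≤ a) (h : ∀ x, ‖x‖ < r → a ≤ F x) (x : E) : a * vu_bump b r x ≤ F x := by
  by_cases hx : Metric.infDist x (Submodule.span ℤ (Set.range b) : Set E) < r
  · have hne : (Submodule.span ℤ (Set.range b) : Set E).Nonempty := ⟨0, Submodule.zero_mem _⟩
    obtain ⟨y, hy, hxy⟩ := (Metric.infDist_lt_iff hne).mp hx
    have h1 : F (x + -y) = F x := hF.add_mem (Submodule.neg_mem _ hy) x
    have h2 : a ≤ F (x + -y) := by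
      apply h
      rw [dist_eq_norm] at hxy
      rwa [← sub_eq_add_neg]
    rw [← h1]
    have h3 := vu_bump_le (b := b) hr x
    calc a * vu_bump b r x ≤ a * 1 := mul_le_mul_of_nonneg_left h3 ha
      _ = a := mul_one a
      _ ≤ F (x + -y) := h2
  · have h1 : vu_bump b r x = 0 := by
      unfold vu_bump
      apply max_eq_left
      have h2 : 1 ≤ Metric.infDist x (Submodule.span ℤ (Set.range b) : Set E) / r := by
        rw [le_div_iff₀ hr, one_mul]
        exact not_lt.mp hx
      linarith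
    rw [h1, mul_zero]
    exact h0 x

theorem uniq (hH : HamC b H Hp) {c w : E} {φ₁ φ₂ : E → ℝ} (h1 : ContDiff ℝ 1 φ₁) (p1 : Per b φ₁)
    (h2 : ContDiff ℝ 1 φ₂) (p2 : Per b φ₂) {P₁ P₂ : E → E}
    (hP1 : ∀ x v, inner ℝ (P₁ x) v = inner ℝ c v + fderiv ℝ φ₁ x v)
    (hP2 : ∀ x v, inner ℝ (P₂ x) v = inner ℝ c v + fderiv ℝ φ₂ x v) {a₁ a₂ : ℝ}
    (ha1 : ∀ x, H (x, P₁ x) = a₁) (ha2 : ∀ x, H (x, P₂ x) = a₂)
    (hconj : ∀ δ > 0, ∃ X : E → E, ContDiff ℝ 1 X ∧ Per b (fun x => X x - x) ∧
      Function.Surjective X ∧ (∀ t t', ‖X t - X t'‖ ≤ 2 * ‖t - t'‖) ∧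
      ∀ t, ‖fderiv ℝ X t w - Hp (X t, P₂ (X t))‖ ≤ δ) : P₁ = P₂ := by
  haveI : ProperSpace E := FiniteDimensional.proper ℝ E
  haveI : CompleteSpace E := FiniteDimensional.complete ℝ E
  set ψ : E → ℝ := fun x => φ₁ x - φ₂ x with hψ
  have dψ : ContDiff ℝ 1 ψ := h1.sub h2
  have pψ : Per b ψ := p1.comp₂ p2 (· - ·)
  have fψ : ∀ x, fderiv ℝ ψ x = fderiv ℝ φ₁ x - fderiv ℝ φ₂ x := fun x =>
    fderiv_fun_sub (h1.differentiable one_ne_zero x) (h2.differentiable one_ne_zero x)
  set y : E → E := fun x => P₁ x - P₂ x with hy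
  have hyv : ∀ x v, inner ℝ (y x) v = fderiv ℝ ψ x v := by
    intro x v
    rw [hy, fψ]
    simp only []
    rw [inner_sub_left, hP1, hP2, _root_.sub_apply]
    ring
  have hye : y = fun x => (InnerProductSpace.toDual ℝ E).symm (fderiv ℝ ψ x) := by
    funext x
    refine ext_inner_right ℝ fun v => ?_
    rw [hyv, InnerProductSpace.toDual_symm_apply]
  have cy : Continuous y := by
    rw [hye]
    exact (InnerProductSpace.toDual ℝ E).symm.continuous.comp (dψ.continuous_fderiv one_ne_zero)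
  have py : Per b y := by
    rw [hye]
    exact pψ.fderiv.comp _
  -- (1) the constants agree
  have haa : a₁ = a₂ := by
    obtain ⟨x₀, hx₀⟩ := pψ.exists_max dψ.continuous
    have hm : IsLocalMax ψ x₀ := Filter.Eventually.of_forall hx₀
    have hz := hm.fderiv_eq_zero
    have hy0 : y x₀ = 0 := by
      refine ext_inner_right ℝ fun v => ?_
      rw [hyv, hz]
      simp
    have hPP : P₁ x₀ = P₂ x₀ := sub_eq_zero.mp hy0
    rw [← ha1 x₀, ← ha2 x₀, hPP]
  -- (2)
  have hlow : ∀ x, ‖y x‖ ^ 2 / 4 ≤ -inner ℝ (Hp (x, P₂ x)) (y x) := by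
    intro x
    have h3 := hH.low x (P₂ x) (y x)
    have h4 : P₂ x + y x = P₁ x := by
      simp only [hy]
      abel
    rw [h4, ha1, ha2, haa] at h3
    linarith
  by_contra hne
  have hex : ∃ x₁, y x₁ ≠ 0 := by
    by_contra hcon
    push Not at hcon
    exact hne (funext fun x => sub_eq_zero.mp (hcon x))
  obtain ⟨x₁, hx₁⟩ := hex
  have hη : 0 < ‖y x₁‖ ^ 2 := by
    have := norm_pos_iff.mpr hx₁
    positivity
  set η := ‖y x₁‖ ^ 2 with hηd
  have cg : Continuous fun x => ‖y x‖ ^ 2 := cy.norm.pow 2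
  have pg : Per b fun x => ‖y x‖ ^ 2 := py.comp (fun v => ‖v‖ ^ 2)
  have cg1 : ContinuousAt (fun x => ‖y x‖ ^ 2) x₁ := cg.continuousAt
  obtain ⟨r0, hr0, hr0'⟩ := Metric.continuousAt_iff.mp cg1 (η / 2) (by positivity)
  have hr : 0 < r0 / 2 := by positivity
  obtain ⟨U, hU0, hU⟩ := py.bdd cy
  set κ := ∫ x, vu_bump b (r0 / 2) x ∂(lam b) with hκd
  have hκ : 0 < κ := lam_pos (vu_bump_per _) (vu_bump_cont _) (vu_bump_nonneg _) (x₀ := 0)
    (by rw [vu_bump_zero]; norm_num)
  obtain ⟨X, dX, pX, sX, lX, aX⟩ := hconj (η * κ / (16 * (U + 1))) (by positivity)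
  obtain ⟨t₁, ht₁⟩ := sX x₁
  set δ := η * κ / (16 * (U + 1)) with hδ
  have hδ0 : 0 < δ := by positivity
  have hXb : ∀ i t, X (t + b i) = X t + b i := by
    intro i t
    have h3 := pX i t
    simp only [] at h3
    have h4 : X (t + b i) = (X (t + b i) - (t + b i)) + (t + b i) := by abel
    rw [h4, h3]
    abel
  set F : E → ℝ := fun t => ‖y (X t)‖ ^ 2 with hF
  have pF : Per b F := by
    intro i t
    simp only [hF]
    rw [hXb, py i (X t)]
  have cF : Continuous F := cg.comp dX.continuous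
  -- lower bound
  have hlb : η / 2 * κ ≤ ∫ t, F t ∂(lam b) := by
    have h3 : ∫ t, F (t + t₁) ∂(lam b) = ∫ t, F t ∂(lam b) := lam_trans pF t₁
    rw [← h3, hκd, ← integral_const_mul]
    refine integral_mono ?_ ?_ ?_
    · exact Per.integrable (b := b) ((vu_bump_per (b := b) (r0 / 2)).comp (fun v => η / 2 * v))
        (continuous_const.mul (vu_bump_cont _))
    · exact Per.integrable (b := b) (pF.shift t₁) (cF.comp (continuous_id.add continuous_const))
    · intro x
      refine vu_bump_dom hr (pF.shift t₁) (fun x => by positivity) (by positivity) ?_ x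
      intro t ht
      have h4 : ‖X (t + t₁) - X t₁‖ ≤ 2 * ‖t + t₁ - t₁‖ := lX _ _
      rw [ht₁, add_sub_cancel_right] at h4
      have h5 : dist (X (t + t₁)) x₁ < r0 := by
        rw [dist_eq_norm]
        linarith
      have h6 := hr0' h5
      rw [Real.dist_eq, abs_lt] at h6
      simp only [hF]
      linarith [h6.1]
  -- upper bound
  have dcomp : ContDiff ℝ 1 (fun t => ψ (X t)) := dψ.comp dX
  have pcomp : Per b (fun t => ψ (X t)) := by
    intro i t
    simp only []
    rw [hXb, pψ i (X t)]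
  have hint := int_fderiv dcomp pcomp w
  have hfd : ∀ t, fderiv ℝ (fun t => ψ (X t)) t w = inner ℝ (y (X t)) (fderiv ℝ X t w) := by
    intro t
    have e1 := (dψ.differentiable one_ne_zero (X t)).hasFDerivAt.comp t
      (dX.differentiable one_ne_zero t).hasFDerivAt
    have e2 : fderiv ℝ (fun t => ψ (X t)) t = (fderiv ℝ ψ (X t)).comp (fderiv ℝ X t) := e1.fderiv
    rw [e2, hyv]
    rfl
  have hpt : ∀ t, F t ≤ 4 * (-fderiv ℝ (fun t => ψ (X t)) t w + δ * U) := by
    intro t
    have h3 := hlow (X t)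
    have h4 : inner ℝ (Hp (X t, P₂ (X t))) (y (X t)) =
        inner ℝ (y (X t)) (fderiv ℝ X t w) -
          inner ℝ (fderiv ℝ X t w - Hp (X t, P₂ (X t))) (y (X t)) := by
      have e1 := inner_sub_left (𝕜 := ℝ) (fderiv ℝ X t w) (Hp (X t, P₂ (X t))) (y (X t))
      have e2 := real_inner_comm (y (X t)) (fderiv ℝ X t w)
      linarith
    have h5 : inner ℝ (fderiv ℝ X t w - Hp (X t, P₂ (X t))) (y (X t)) ≤ δ * U := by
      refine (real_inner_le_norm _ _).trans ?_
      exact mul_le_mul (aX t) (hU _) (norm_nonneg _) hδ0.le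
    rw [hfd]
    simp only [hF]
    rw [h4] at h3
    linarith
  have cfd : Continuous fun t => fderiv ℝ (fun t => ψ (X t)) t w :=
    (dcomp.continuous_fderiv one_ne_zero).clm_apply continuous_const
  have pfd : Per b fun t => fderiv ℝ (fun t => ψ (X t)) t w :=
    pcomp.fderiv.comp (fun L : E →L[ℝ] ℝ => L w)
  have hub : ∫ t, F t ∂(lam b) ≤ 4 * (δ * U) := by
    have ifd : Integrable (fun t => fderiv ℝ (fun t => ψ (X t)) t w) (lam b) := pfd.integrable cfd
    have ifd' : Integrable (fun t => -fderiv ℝ (fun t => ψ (X t)) t w) (lam b) := ifd.neg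
    have h3 : ∫ t, F t ∂(lam b) ≤
        ∫ t, 4 * (-fderiv ℝ (fun t => ψ (X t)) t w + δ * U) ∂(lam b) :=
      integral_mono (pF.integrable cF) ((ifd'.add (integrable_const _)).const_mul 4) hpt
    refine h3.trans (le_of_eq ?_)
    rw [integral_const_mul, integral_add ifd' (integrable_const _), integral_neg, hint]
    simp
  have hfin : 4 * (δ * U) < η / 2 * κ := by
    have h3 : δ * (16 * (U + 1)) = η * κ := by
      rw [hδ]
      field_simp
    have h4 : 0 < η * κ := by positivity
    nlinarith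
  linarith

end

end Pool.Agent.LRT
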