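import Pool.Agent.LRT.VU

/-! # LRT/VU2: uniqueness of the invariant graph of a given frequency   (helper45) -/

set_option autoImplicit false

open MeasureTheory Module Set Filter Topology

namespace Pool.Agent.LRT

open Pool.H45.Mather

noncomputable section

set_option linter.unusedSectionVars false
set_option linter.style.haveILetI false

variable {n : ℕ} {E : Type*} [NormedAddCommGroup E] [InnerProductSpace ℝ E] [FiniteDimensional ℝ E]
  [MeasurableSpace E] [BorelSpace E] {b : Basis (Fin n) ℝ E}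

variable {H : E × E → ℝ} {Hp : E × E → E}

/-- approximate conjugacies to the translation of frequency `w` -/
def ConjA (b : Basis (Fin n) ℝ E) (Hp : E × E → E) (P : E → E) (w : E) : Prop :=
  ∀ δ > 0, ∃ X : E → E, ContDiff ℝ 1 X ∧ Per b (fun x => X x - x) ∧
      Function.Surjective X ∧ (∀ t t', ‖X t - X t'‖ ≤ 2 * ‖t - t'‖) ∧
      ∀ t, ‖fderiv ℝ X t w - Hp (X t, P (X t))‖ ≤ δ

lemma vu_add {X : E → E} (pX : Per b (fun x => X x - x)) (i : Fin n) (t : E) : X (t + b i) = X t + b i := by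
  have h3 := pX i t
  simp only [] at h3
  have h4 : X (t + b i) = (X (t + b i) - (t + b i)) + (t + b i) := by abel
  rw [h4, h3]
  abel

theorem vu_core {y : E → E} (cy : Continuous y) (py : Per b y) {C : ℝ} (hC : 0 ≤ C)
    (h : ∀ δ > 0, ∃ X : E → E, ContDiff ℝ 1 X ∧ Per b (fun x => X x - x) ∧
      Function.Surjective X ∧ (∀ t t', ‖X t - X t'‖ ≤ 2 * ‖t - t'‖) ∧ ∫ t, ‖y (X t)‖ ^ 2 ∂(lam b) ≤ C * δ) :
    ∀ x, y x = 0 := by
  by_contra hcon
  push Not at hcon
  obtain ⟨x₁, hx₁⟩ := hcon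
  have hη : 0 < ‖y x₁‖ ^ 2 := by
    have := norm_pos_iff.mpr hx₁
    positivity
  set η := ‖y x₁‖ ^ 2 with hηd
  have cg : Continuous fun x => ‖y x‖ ^ 2 := cy.norm.pow 2
  have pg : Per b fun x => ‖y x‖ ^ 2 := py.comp (fun v => ‖v‖ ^ 2)
  have cg1 : ContinuousAt (fun x => ‖y x‖ ^ 2) x₁ := cg.continuousAt
  obtain ⟨r0, hr0, hr0'⟩ := Metric.continuousAt_iff.mp cg1 (η / 2) (by positivity)
  have hr : 0 < r0 / 2 := by positivity
  set κ := ∫ x, vu_bump b (r0 / 2) x ∂(lam b) with hκd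
  have hκ : 0 < κ := lam_pos (vu_bump_per _) (vu_bump_cont _) (vu_bump_nonneg _) (x₀ := 0)
    (by rw [vu_bump_zero]; norm_num)
  obtain ⟨X, dX, pX, sX, lX, aX⟩ := h (η * κ / (4 * (C + 1))) (by positivity)
  obtain ⟨t₁, ht₁⟩ := sX x₁
  set F : E → ℝ := fun t => ‖y (X t)‖ ^ 2 with hF
  have pF : Per b F := by
    intro i t
    simp only [hF]
    rw [vu_add pX, py i (X t)]
  have cF : Continuous F := cg.comp dX.continuous
  have hlb : η / 2 * κ ≤ ∫ t, F t ∂(lam b) := by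
    have h3 : ∫ t, F (t + t₁) ∂(lam b) = ∫ t, F t ∂(lam b) := lam_trans pF t₁
    rw [← h3, hκd, ← integral_const_mul]
    refine integral_mono ?_ ?_ ?_
    · exact Per.integrable (b := b) ((vu_bump_per (b := b) (r0 / 2)).comp (fun v => η / 2 * v))
        (continuous_const.mul (vu_bump_cont _))
    · exact Per.integrable (b := b) (pF.shift t₁) (cF.comp (continuous_id.add continuous_const))
    · intro x
      refine vu_bump_dom hr (pF.shift t₁) (fun x => by positivity) (by positivity) ?_ x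
      intro t ht
      have h4 : ‖X (t + t₁) - X t₁‖ ≤ 2 * ‖t + t₁ - t₁‖ := lX _ _
      rw [ht₁, add_sub_cancel_right] at h4
      have h5 : dist (X (t + t₁)) x₁ < r0 := by
        rw [dist_eq_norm]
        linarith
      have h6 := hr0' h5
      rw [Real.dist_eq, abs_lt] at h6
      simp only [hF]
      linarith [h6.1]
  have hfin : C * (η * κ / (4 * (C + 1))) < η / 2 * κ := by
    have h4 : 0 < η * κ := by positivity
    have h5 : C * (η * κ / (4 * (C + 1))) = (η * κ) * (C / (4 * (C + 1))) := by ring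
    have h6 : C / (4 * (C + 1)) ≤ 1 / 4 := by
      rw [div_le_div_iff₀ (by positivity) (by norm_num)]
      linarith
    rw [h5]
    nlinarith
  linarith

/-- integrated convexity inequality along an approximate conjugacy of the second graph -/
theorem vu_ineq (hH : HamC b H Hp) {c₁ c₂ w : E} {φ₁ φ₂ : E → ℝ} (h1 : ContDiff ℝ 1 φ₁) (p1 : Per b φ₁)
    (h2 : ContDiff ℝ 1 φ₂) (p2 : Per b φ₂) {P₁ P₂ : E → E}
    (hP1 : ∀ x v, inner ℝ (P₁ x) v = inner ℝ c₁ v + fderiv ℝ φ₁ x v)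
    (hP2 : ∀ x v, inner ℝ (P₂ x) v = inner ℝ c₂ v + fderiv ℝ φ₂ x v) {a₁ a₂ : ℝ}
    (ha1 : ∀ x, H (x, P₁ x) = a₁) (ha2 : ∀ x, H (x, P₂ x) = a₂)
    (cy : Continuous fun x => P₁ x - P₂ x) (py : Per b fun x => P₁ x - P₂ x) {U δ : ℝ} (hδ0 : 0 ≤ δ)
    (hU : ∀ x, ‖P₁ x - P₂ x‖ ≤ U) {X : E → E} (dX : ContDiff ℝ 1 X) (pX : Per b (fun x => X x - x))
    (aX : ∀ t, ‖fderiv ℝ X t w - Hp (X t, P₂ (X t))‖ ≤ δ) :
    inner ℝ (c₁ - c₂) w + (∫ t, ‖P₁ (X t) - P₂ (X t)‖ ^ 2 ∂(lam b)) / 4 ≤ a₁ - a₂ + δ * U := by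
  haveI : ProperSpace E := FiniteDimensional.proper ℝ E
  haveI : CompleteSpace E := FiniteDimensional.complete ℝ E
  haveI := lam_prob (b := b)
  set ψ : E → ℝ := fun x => φ₁ x - φ₂ x with hψ
  have dψ : ContDiff ℝ 1 ψ := h1.sub h2
  have pψ : Per b ψ := p1.comp₂ p2 (· - ·)
  have fψ : ∀ x, fderiv ℝ ψ x = fderiv ℝ φ₁ x - fderiv ℝ φ₂ x := fun x =>
    fderiv_fun_sub (h1.differentiable one_ne_zero x) (h2.differentiable one_ne_zero x)
  have hyv : ∀ x v, inner ℝ (P₁ x - P₂ x) v = inner ℝ (c₁ - c₂) v + fderiv ℝ ψ x v := by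
    intro x v
    rw [fψ]
    rw [inner_sub_left, inner_sub_left, hP1, hP2, _root_.sub_apply]
    ring
  set Y : E → E := fun x => X x - x with hY
  have dY : ContDiff ℝ 1 Y := dX.sub contDiff_id
  -- the function whose integral vanishes
  set G : E → ℝ := fun t => inner ℝ (c₁ - c₂) (Y t) + ψ (X t) with hG
  have dG : ContDiff ℝ 1 G := ((contDiff_const (c := c₁ - c₂)).inner ℝ dY).add (dψ.comp dX)
  have pG : Per b G := by
    intro i t
    simp only [hG]
    rw [vu_add pX, pψ i (X t), pX i t]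
  have hint := int_fderiv dG pG w
  have hfG : ∀ t, fderiv ℝ G t w = inner ℝ (P₁ (X t) - P₂ (X t)) (fderiv ℝ X t w) - inner ℝ (c₁ - c₂) w := by
    intro t
    have dXt := dX.differentiable one_ne_zero t
    have dYt := dY.differentiable one_ne_zero t
    have e0 : HasFDerivAt Y (fderiv ℝ X t - ContinuousLinearMap.id ℝ E) t := dXt.hasFDerivAt.sub (hasFDerivAt_id t)
    have e1 : HasFDerivAt (fun t => inner ℝ (c₁ - c₂) (Y t))
        ((innerSL ℝ (c₁ - c₂)).comp (fderiv ℝ X t - ContinuousLinearMap.id ℝ E)) t :=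
      (innerSL ℝ (c₁ - c₂)).hasFDerivAt.comp t e0
    have e2 : HasFDerivAt (fun t => ψ (X t)) ((fderiv ℝ ψ (X t)).comp (fderiv ℝ X t)) t :=
      (dψ.differentiable one_ne_zero (X t)).hasFDerivAt.comp t dXt.hasFDerivAt
    have e3 : HasFDerivAt G _ t := e1.add e2
    rw [e3.fderiv, hyv]
    simp only [_root_.add_apply, ContinuousLinearMap.comp_apply, _root_.sub_apply, innerSL_apply_apply,
      ContinuousLinearMap.id_apply, inner_sub_right]
    ring
  have hpt : ∀ t, ‖P₁ (X t) - P₂ (X t)‖ ^ 2 / 4 + inner ℝ (c₁ - c₂) w ≤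
      a₁ - a₂ + δ * U - fderiv ℝ G t w := by
    intro t
    have h3 := hH.low (X t) (P₂ (X t)) (P₁ (X t) - P₂ (X t))
    rw [add_sub_cancel, ha1, ha2] at h3
    have h4 : inner ℝ (Hp (X t, P₂ (X t))) (P₁ (X t) - P₂ (X t)) =
        inner ℝ (P₁ (X t) - P₂ (X t)) (fderiv ℝ X t w) -
          inner ℝ (fderiv ℝ X t w - Hp (X t, P₂ (X t))) (P₁ (X t) - P₂ (X t)) := by
      have e1 := inner_sub_left (𝕜 := ℝ) (fderiv ℝ X t w) (Hp (X t, P₂ (X t))) (P₁ (X t) - P₂ (X t))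
      have e2 := real_inner_comm (P₁ (X t) - P₂ (X t)) (fderiv ℝ X t w)
      linarith
    have h5 : inner ℝ (fderiv ℝ X t w - Hp (X t, P₂ (X t))) (P₁ (X t) - P₂ (X t)) ≤ δ * U := by
      refine (real_inner_le_norm _ _).trans ?_
      exact mul_le_mul (aX t) (hU _) (norm_nonneg _) hδ0
    rw [hfG]
    linarith
  have pF : Per b fun t => ‖P₁ (X t) - P₂ (X t)‖ ^ 2 := by
    intro i t
    have h4 : P₁ (X t + b i) - P₂ (X t + b i) = P₁ (X t) - P₂ (X t) := py i (X t)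
    simp only []
    rw [vu_add pX, h4]
  have cF : Continuous fun t => ‖P₁ (X t) - P₂ (X t)‖ ^ 2 := (cy.comp dX.continuous).norm.pow 2
  have iF := pF.integrable cF
  have cfd : Continuous fun t => fderiv ℝ G t w :=
    (dG.continuous_fderiv one_ne_zero).clm_apply continuous_const
  have pfd : Per b fun t => fderiv ℝ G t w := pG.fderiv.comp (fun L : E →L[ℝ] ℝ => L w)
  have ifd : Integrable (fun t => fderiv ℝ G t w) (lam b) := pfd.integrable cfd
  have h3 : ∫ t, (‖P₁ (X t) - P₂ (X t)‖ ^ 2 / 4 + inner ℝ (c₁ - c₂) w) ∂(lam b) ≤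
      ∫ t, (a₁ - a₂ + δ * U - fderiv ℝ G t w) ∂(lam b) :=
    integral_mono ((iF.div_const 4).add (integrable_const _)) ((integrable_const _).sub ifd) hpt
  rw [integral_add (iF.div_const 4) (integrable_const _), integral_sub (integrable_const _) ifd, hint,
    integral_div] at h3
  simp at h3
  linarith

theorem uniq_freq (hH : HamC b H Hp) {c₁ c₂ w : E} {φ₁ φ₂ : E → ℝ} (h1 : ContDiff ℝ 1 φ₁) (p1 : Per b φ₁)
    (h2 : ContDiff ℝ 1 φ₂) (p2 : Per b φ₂) {P₁ P₂ : E → E}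
    (hP1 : ∀ x v, inner ℝ (P₁ x) v = inner ℝ c₁ v + fderiv ℝ φ₁ x v)
    (hP2 : ∀ x v, inner ℝ (P₂ x) v = inner ℝ c₂ v + fderiv ℝ φ₂ x v) {a₁ a₂ : ℝ}
    (ha1 : ∀ x, H (x, P₁ x) = a₁) (ha2 : ∀ x, H (x, P₂ x) = a₂)
    (hc1 : ConjA b Hp P₁ w) (hc2 : ConjA b Hp P₂ w) : P₁ = P₂ ∧ c₁ = c₂ := by
  haveI : ProperSpace E := FiniteDimensional.proper ℝ E
  haveI : CompleteSpace E := FiniteDimensional.complete ℝ E
  haveI := lam_prob (b := b)
  have hP1' : P₁ = fun x => c₁ + (InnerProductSpace.toDual ℝ E).symm (fderiv ℝ φ₁ x) := by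
    funext x
    refine ext_inner_right ℝ fun v => ?_
    rw [hP1, inner_add_left, InnerProductSpace.toDual_symm_apply]
  have hP2' : P₂ = fun x => c₂ + (InnerProductSpace.toDual ℝ E).symm (fderiv ℝ φ₂ x) := by
    funext x
    refine ext_inner_right ℝ fun v => ?_
    rw [hP2, inner_add_left, InnerProductSpace.toDual_symm_apply]
  have cP1 : Continuous P₁ := by
    rw [hP1']
    exact continuous_const.add ((InnerProductSpace.toDual ℝ E).symm.continuous.comp (h1.continuous_fderiv one_ne_zero))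
  have cP2 : Continuous P₂ := by
    rw [hP2']
    exact continuous_const.add ((InnerProductSpace.toDual ℝ E).symm.continuous.comp (h2.continuous_fderiv one_ne_zero))
  have pP1 : Per b P₁ := by
    rw [hP1']
    exact p1.fderiv.comp (fun L => c₁ + (InnerProductSpace.toDual ℝ E).symm L)
  have pP2 : Per b P₂ := by
    rw [hP2']
    exact p2.fderiv.comp (fun L => c₂ + (InnerProductSpace.toDual ℝ E).symm L)
  have cy : Continuous fun x => P₁ x - P₂ x := cP1.sub cP2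
  have py : Per b fun x => P₁ x - P₂ x := pP1.comp₂ pP2 (· - ·)
  have cy' : Continuous fun x => P₂ x - P₁ x := cP2.sub cP1
  have py' : Per b fun x => P₂ x - P₁ x := pP2.comp₂ pP1 (· - ·)
  obtain ⟨U, hU0, hU⟩ := py.bdd cy
  have hU' : ∀ x, ‖P₂ x - P₁ x‖ ≤ U := fun x => by rw [norm_sub_rev]; exact hU x
  have hle : ∀ δ > 0, inner ℝ (c₂ - c₁) w ≤ a₂ - a₁ + δ * U := by
    intro δ hδ
    obtain ⟨X, dX, pX, sX, lX, aX⟩ := hc1 δ hδ
    have h3 := vu_ineq hH h2 p2 h1 p1 hP2 hP1 ha2 ha1 cy' py' hδ.le hU' dX pX aX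
    have h4 : 0 ≤ ∫ t, ‖P₂ (X t) - P₁ (X t)‖ ^ 2 ∂(lam b) := integral_nonneg fun t => by positivity
    linarith
  have hle0 : inner ℝ (c₂ - c₁) w ≤ a₂ - a₁ := by
    refine le_of_forall_pos_le_add fun ε hε => ?_
    have := hle (ε / (U + 1)) (by positivity)
    have h5 : ε / (U + 1) * U ≤ ε := by
      rw [div_mul_eq_mul_div, div_le_iff₀ (by linarith)]
      nlinarith
    linarith
  have hneg : inner ℝ (c₂ - c₁) w = -inner ℝ (c₁ - c₂) w := by
    rw [← inner_neg_left, neg_sub]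
  have hz : ∀ x, P₁ x - P₂ x = 0 := by
    refine vu_core cy py (C := 4 * U) (by positivity) fun δ hδ => ?_
    obtain ⟨X, dX, pX, sX, lX, aX⟩ := hc2 δ hδ
    refine ⟨X, dX, pX, sX, lX, ?_⟩
    have h3 := vu_ineq hH h1 p1 h2 p2 hP1 hP2 ha1 ha2 cy py hδ.le hU dX pX aX
    linarith
  refine ⟨funext fun x => sub_eq_zero.1 (hz x), ?_⟩
  refine ext_inner_right ℝ fun v => ?_
  have e1 := int_fderiv h1 p1 v
  have e2 := int_fderiv h2 p2 v
  have i1 : Integrable (fun t => fderiv ℝ φ₁ t v) (lam b) :=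
    (p1.fderiv.comp (fun L : E →L[ℝ] ℝ => L v)).integrable ((h1.continuous_fderiv one_ne_zero).clm_apply continuous_const)
  have i2 : Integrable (fun t => fderiv ℝ φ₂ t v) (lam b) :=
    (p2.fderiv.comp (fun L : E →L[ℝ] ℝ => L v)).integrable ((h2.continuous_fderiv one_ne_zero).clm_apply continuous_const)
  have e3 : ∀ t, fderiv ℝ φ₁ t v - fderiv ℝ φ₂ t v = inner ℝ c₂ v - inner ℝ c₁ v := by
    intro t
    have h3 := hP1 t v
    have h4 := hP2 t v
    rw [sub_eq_zero.1 (hz t)] at h3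
    linarith
  have e4 : ∫ t, (fderiv ℝ φ₁ t v - fderiv ℝ φ₂ t v) ∂(lam b) = 0 := by
    rw [integral_sub i1 i2, e1, e2, sub_zero]
  simp_rw [e3] at e4
  simp at e4
  linarith

end

end Pool.Agent.LRT
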